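import Pool.Agent.Helper12_AWB.B100

/-! Copy (generated) of the module `Pool.Agent.Helper10_X2.Orb` with import lines for the bundle Helper12_AWB. -/

/-!
# AWC, part X2: module ORB (helper10)
-/

noncomputable section

namespace Pool.Agent.PP.X2.H10

open Pool.Agent.PP Pool.Agent.PP.X2

theorem mapc {G : Type} [Group G] {A B : Subgroup G} {p : G}
    (h : A.map (MulAut.conj p).toMonoidHom = B) :
    (∀ y ∈ A, p * y * p⁻¹ ∈ B) ∧ ∀ y ∈ B, p⁻¹ * y * p ∈ A := by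
  refine ⟨fun y hy => ?_, fun y hy => ?_⟩
  · rw [← h]
    exact ⟨y, hy, rfl⟩
  · rw [← h] at hy
    obtain ⟨y', hy', rfl⟩ := hy
    have h1 : p⁻¹ * ((MulAut.conj p).toMonoidHom y') * p = y' := by
      show p⁻¹ * (p * y' * p⁻¹) * p = y'
      group
    rw [h1]
    exact hy'

/-- The data of a surjection `F` of the subgroup `K` onto `S` whose kernel is the centre. -/
structure Sj {G S : Type} [Group G] [Group S] (K : Subgroup G) (F : G → S) : Prop where
  mul : ∀ a ∈ K, ∀ b ∈ K, F (a * b) = F a * F b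
  sur : ∀ s, ∃ a ∈ K, F a = s
  ker : ∀ a ∈ K, (F a = 1 ↔ ∀ y ∈ K, a * y = y * a)

namespace Sj

variable {G S : Type} [Group G] [Group S] {K : Subgroup G} {F : G → S} (h : Sj K F)

include h

theorem one : F 1 = 1 := (h.ker 1 K.one_mem).2 fun y _ => by rw [one_mul, mul_one]

theorem inv {a : G} (ha : a ∈ K) : F a⁻¹ = (F a)⁻¹ := by
  have h1 := h.mul a⁻¹ (K.inv_mem ha) a ha
  rw [inv_mul_cancel, h.one] at h1
  exact eq_inv_of_mul_eq_one_left h1.symm

/-- two elements of `K` with the same image differ by a central element -/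
theorem eq_iff {a b : G} (ha : a ∈ K) (hb : b ∈ K) :
    F a = F b ↔ ∀ y ∈ K, a * y * a⁻¹ = b * y * b⁻¹ := by
  have h1 : F (b⁻¹ * a) = (F b)⁻¹ * F a := by
    rw [h.mul _ (K.inv_mem hb) _ ha, h.inv hb]
  have h2 : F a = F b ↔ F (b⁻¹ * a) = 1 := by
    rw [h1, inv_mul_eq_one, eq_comm]
  rw [h2, h.ker _ (K.mul_mem (K.inv_mem hb) ha)]
  constructor
  · intro h3 y hy
    have h4 := h3 y hy
    calc a * y * a⁻¹ = b * (b⁻¹ * a * y) * a⁻¹ := by group
      _ = b * (y * (b⁻¹ * a)) * a⁻¹ := by rw [h4]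
      _ = b * y * b⁻¹ := by group
  · intro h3 y hy
    have h4 := h3 y hy
    calc b⁻¹ * a * y = b⁻¹ * (a * y * a⁻¹) * a := by group
      _ = b⁻¹ * (b * y * b⁻¹) * a := by rw [h4]
      _ = y * (b⁻¹ * a) := by group

theorem conj_eq {p : G} (hp : ∀ y ∈ K, p * y * p⁻¹ ∈ K) (hp' : ∀ y ∈ K, p⁻¹ * y * p ∈ K) {a b : G}
    (ha : a ∈ K) (hb : b ∈ K) (hab : F a = F b) : F (p * a * p⁻¹) = F (p * b * p⁻¹) := by
  rw [h.eq_iff (hp a ha) (hp b hb)]
  intro y hy
  have h1 := (h.eq_iff ha hb).1 hab (p⁻¹ * y * p) (hp' y hy)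
  calc p * a * p⁻¹ * y * (p * a * p⁻¹)⁻¹ = p * (a * (p⁻¹ * y * p) * a⁻¹) * p⁻¹ := by group
    _ = p * (b * (p⁻¹ * y * p) * b⁻¹) * p⁻¹ := by rw [h1]
    _ = p * b * p⁻¹ * y * (p * b * p⁻¹)⁻¹ := by group

/-- the automorphism of `S` induced by an element which normalises `K` -/
theorem exists_aut {p : G} (hp : ∀ y ∈ K, p * y * p⁻¹ ∈ K) (hp' : ∀ y ∈ K, p⁻¹ * y * p ∈ K) :
    ∃ β : MulAut S, ∀ k ∈ K, F (p * k * p⁻¹) = β (F k) := by
  choose g hg using h.sur
  have hq : ∀ y ∈ K, p⁻¹ * y * p⁻¹⁻¹ ∈ K := fun y hy => by rw [inv_inv]; exact hp' y hy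
  have hq' : ∀ y ∈ K, p⁻¹⁻¹ * y * p⁻¹ ∈ K := fun y hy => by rw [inv_inv]; exact hp y hy
  let β : MulAut S :=
    { toFun := fun s => F (p * g s * p⁻¹)
      invFun := fun s => F (p⁻¹ * g s * p⁻¹⁻¹)
      left_inv := by
        intro s
        show F (p⁻¹ * g (F (p * g s * p⁻¹)) * p⁻¹⁻¹) = s
        rw [h.conj_eq hq hq' (hg _).1 (hp _ (hg s).1) (hg _).2]
        have h1 : p⁻¹ * (p * g s * p⁻¹) * p⁻¹⁻¹ = g s := by group
        rw [h1]
        exact (hg s).2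
      right_inv := by
        intro s
        show F (p * g (F (p⁻¹ * g s * p⁻¹⁻¹)) * p⁻¹) = s
        rw [h.conj_eq hp hp' (hg _).1 (hq _ (hg s).1) (hg _).2]
        have h1 : p * (p⁻¹ * g s * p⁻¹⁻¹) * p⁻¹ = g s := by group
        rw [h1]
        exact (hg s).2
      map_mul' := by
        intro s t
        show F (p * g (s * t) * p⁻¹) = F (p * g s * p⁻¹) * F (p * g t * p⁻¹)
        have h1 : F (g (s * t)) = F (g s * g t) := by
          rw [h.mul _ (hg s).1 _ (hg t).1, (hg _).2, (hg _).2, (hg _).2]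
        rw [h.conj_eq hp hp' (hg _).1 (K.mul_mem (hg s).1 (hg t).1) h1,
          ← h.mul _ (hp _ (hg s).1) _ (hp _ (hg t).1)]
        congr 1
        group }
  refine ⟨β, fun k hk => ?_⟩
  show F (p * k * p⁻¹) = F (p * g (F k) * p⁻¹)
  exact h.conj_eq hp hp' hk (hg _).1 (hg _).2.symm

end Sj

/-- the group of automorphisms of `S` induced by the elements of `P` which normalise `K` -/
def QQ {G S : Type} [Group G] [Group S] (P K : Subgroup G) {F : G → S} (_ : Sj K F) :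
    Subgroup (MulAut S) where
  carrier := {β | ∃ p ∈ P, (∀ y ∈ K, p * y * p⁻¹ ∈ K) ∧ (∀ y ∈ K, p⁻¹ * y * p ∈ K) ∧
    ∀ k ∈ K, F (p * k * p⁻¹) = β (F k)}
  one_mem' := ⟨1, P.one_mem, fun y hy => by simpa using hy, fun y hy => by simpa using hy,
    fun k _ => by simp⟩
  mul_mem' := by
    rintro β β' ⟨p, h1, h2, h3, h4⟩ ⟨p', h1', h2', h3', h4'⟩
    have e1 : ∀ y, p * p' * y * (p * p')⁻¹ = p * (p' * y * p'⁻¹) * p⁻¹ := fun y => by group
    have e2 : ∀ y, (p * p')⁻¹ * y * (p * p') = p'⁻¹ * (p⁻¹ * y * p) * p' := fun y => by group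
    refine ⟨p * p', P.mul_mem h1 h1', fun y hy => ?_, fun y hy => ?_, fun k hk => ?_⟩
    · rw [e1]; exact h2 _ (h2' y hy)
    · rw [e2]; exact h3' _ (h3 y hy)
    · rw [e1, h4 _ (h2' k hk), h4' k hk]
      rfl
  inv_mem' := by
    rintro β ⟨p, h1, h2, h3, h4⟩
    refine ⟨p⁻¹, P.inv_mem h1, fun y hy => by rw [inv_inv]; exact h3 y hy,
      fun y hy => by rw [inv_inv]; exact h2 y hy, fun k hk => ?_⟩
    have h5 := h4 _ (h3 k hk)
    have h6 : p * (p⁻¹ * k * p) * p⁻¹ = k := by group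
    rw [h6] at h5
    rw [h5, inv_inv]
    exact (β.symm_apply_apply _).symm

theorem QQ_mem {G S : Type} [Group G] [Group S] {P K : Subgroup G} {F : G → S} (h : Sj K F)
    {β : MulAut S} : β ∈ QQ P K h ↔ ∃ p ∈ P, (∀ y ∈ K, p * y * p⁻¹ ∈ K) ∧
      (∀ y ∈ K, p⁻¹ * y * p ∈ K) ∧ ∀ k ∈ K, F (p * k * p⁻¹) = β (F k) := Iff.rfl

theorem QQ_pgroup {G S : Type} [Group G] [Group S] {ℓ : ℕ} {P K : Subgroup G} {F : G → S}
    (h : Sj K F) (hP : IsPGroup ℓ P) : IsPGroup ℓ (QQ P K h) := by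
  rintro ⟨β, hβ⟩
  obtain ⟨p, h1, h2, h3, h4⟩ := hβ
  obtain ⟨m, hm⟩ := hP ⟨p, h1⟩
  have hm' : p ^ ℓ ^ m = 1 := by
    have := congrArg Subtype.val hm
    simpa using this
  refine ⟨m, ?_⟩
  apply Subtype.ext
  show β ^ ℓ ^ m = 1
  have key : ∀ n : ℕ, (∀ y ∈ K, p ^ n * y * (p ^ n)⁻¹ ∈ K) ∧
      ∀ k ∈ K, F (p ^ n * k * (p ^ n)⁻¹) = (β ^ n) (F k) := by
    intro n
    induction n with
    | zero => exact ⟨fun y hy => by simpa using hy, fun k _ => by simp⟩
    | succ n ih =>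
      have e1 : ∀ y, p ^ (n + 1) * y * (p ^ (n + 1))⁻¹ = p * (p ^ n * y * (p ^ n)⁻¹) * p⁻¹ := by
        intro y
        rw [pow_succ']
        group
      refine ⟨fun y hy => ?_, fun k hk => ?_⟩
      · rw [e1]; exact h2 _ (ih.1 y hy)
      · rw [e1, h4 _ (ih.1 k hk), ih.2 k hk, pow_succ']
        rfl
  apply MulEquiv.ext
  intro s
  obtain ⟨k, hk, rfl⟩ := h.sur s
  have h5 := (key (ℓ ^ m)).2 k hk
  rw [hm'] at h5
  rw [← h5]
  simp

/-- ORB. -/
theorem orb (hqua : QuaStmt) (hfix : FixStmt) : OrbfStmt := by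
  intro ℓ _ G _ _ P hP I _ K hcomm _ hperm htrans hZ i S _ _ hS hcov
  classical
  -- the surjection
  obtain ⟨_, _, hq3, _⟩ := hqua (K i) S hS hcov
  obtain ⟨hperf, f, hfs, hfk⟩ := hcov
  have hker : f.ker = Subgroup.center (K i) := hq3 f hfs
  let F : G → S := fun g => if h : g ∈ K i then f ⟨g, h⟩ else 1
  have hF : ∀ (g : G) (h : g ∈ K i), F g = f ⟨g, h⟩ := fun g h => dif_pos h
  have hsj : Sj (K i) F := by
    refine ⟨fun a ha b hb => ?_, fun s => ?_, fun a ha => ?_⟩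
    · rw [hF a ha, hF b hb, hF _ ((K i).mul_mem ha hb), ← map_mul]
      rfl
    · obtain ⟨a, ha⟩ := hfs s
      exact ⟨a.1, a.2, by rw [hF a.1 a.2]; exact ha⟩
    · rw [hF a ha]
      have h1 : f ⟨a, ha⟩ = 1 ↔ (⟨a, ha⟩ : K i) ∈ f.ker := Iff.rfl
      rw [h1, hker, Subgroup.mem_center_iff]
      constructor
      · intro h2 y hy
        exact (congrArg Subtype.val (h2 ⟨y, hy⟩)).symm
      · intro h2 y
        exact Subtype.ext (h2 y.1 y.2).symm
  set E : Subgroup G := ⨆ i, K i with hE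
  have hKE : ∀ j, K j ≤ E := fun j => le_iSup K j
  -- elements commuting with all factors
  have hcE : ∀ x : G, (∀ j, ∀ y ∈ K j, x * y = y * x) → x ∈ Subgroup.centralizer (E : Set G) := by
    intro x hx
    rw [Subgroup.mem_centralizer_iff]
    intro y hy
    refine Subgroup.iSup_induction K (C := fun y => y * x = x * y) hy
      (fun j y hy => (hx j y hy).symm) (by rw [one_mul, mul_one]) ?_
    intro y z h1 h2
    rw [mul_assoc, h2, ← mul_assoc, h1, mul_assoc]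
  -- `P` normalises `E`
  have hPE : ∀ p ∈ P, ∀ x ∈ E, p * x * p⁻¹ ∈ E := by
    intro p hp x hx
    refine Subgroup.iSup_induction K (C := fun x => p * x * p⁻¹ ∈ E) hx
      (fun j y hy => ?_) (by simp) ?_
    · obtain ⟨j', hj'⟩ := hperm p hp j
      exact hKE j' ((mapc hj').1 y hy)
    · intro y z h1 h2
      have h3 : p * (y * z) * p⁻¹ = p * y * p⁻¹ * (p * z * p⁻¹) := by group
      rw [h3]
      exact E.mul_mem h1 h2
  have hPE' : ∀ p ∈ P, ∀ x ∈ E, p⁻¹ * x * p ∈ E := by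
    intro p hp x hx
    have := hPE p⁻¹ (P.inv_mem hp) x hx
    rwa [inv_inv] at this
  -- the relation
  have hex : ∀ x ∈ E, ∃ k ∈ K i, ∀ y ∈ K i, x * y * x⁻¹ = k * y * k⁻¹ := by
    intro x hx
    refine Subgroup.iSup_induction K
      (C := fun x => ∃ k ∈ K i, ∀ y ∈ K i, x * y * x⁻¹ = k * y * k⁻¹) hx
      (fun j y hy => ?_) ⟨1, (K i).one_mem, fun _ _ => rfl⟩ ?_
    · by_cases hj : j = i
      · subst hj
        exact ⟨y, hy, fun _ _ => rfl⟩
      · refine ⟨1, (K i).one_mem, fun z hz => ?_⟩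
        rw [hcomm j i hj y hy z hz]
        group
    · rintro x y ⟨k, hk, h1⟩ ⟨k', hk', h2⟩
      refine ⟨k * k', (K i).mul_mem hk hk', fun z hz => ?_⟩
      have h3 : x * y * z * (x * y)⁻¹ = x * (y * z * y⁻¹) * x⁻¹ := by group
      have h4 : k' * z * k'⁻¹ ∈ K i :=
        (K i).mul_mem ((K i).mul_mem hk' hz) ((K i).inv_mem hk')
      rw [h3, h2 z hz, h1 _ h4]
      group
  choose kk hkk hkk' using hex
  have huniq : ∀ (x : G) (hx : x ∈ E) (k : G), k ∈ K i →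
      (∀ y ∈ K i, x * y * x⁻¹ = k * y * k⁻¹) → F (kk x hx) = F k := by
    intro x hx k hk h1
    rw [hsj.eq_iff (hkk x hx) hk]
    intro y hy
    rw [← hkk' x hx y hy, h1 y hy]
  let Q := QQ P (K i) hsj
  refine ⟨Q, QQ_pgroup hsj hP, ?_⟩
  -- the homomorphism
  set C : Subgroup G := Subgroup.centralizer (P : Set G) ⊓ E with hC
  have hCP : ∀ x ∈ C, ∀ p ∈ P, p * x * p⁻¹ = x := by
    intro x hx p hp
    have h1 := Subgroup.mem_centralizer_iff.1 hx.1 p hp
    rw [h1]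
    group
  have hfx : ∀ (x : G) (hx : x ∈ C), F (kk x hx.2) ∈ fixN Q := by
    intro x hx β hβ
    obtain ⟨p, h1, h2, h3, h4⟩ := (QQ_mem hsj).1 hβ
    rw [← h4 _ (hkk x hx.2)]
    symm
    apply huniq x hx.2 _ (h2 _ (hkk x hx.2))
    intro y hy
    have h5 := hCP x hx p h1
    calc x * y * x⁻¹ = p * x * p⁻¹ * y * (p * x * p⁻¹)⁻¹ := by rw [h5]
      _ = p * (x * (p⁻¹ * y * p) * x⁻¹) * p⁻¹ := by group
      _ = p * (kk x hx.2 * (p⁻¹ * y * p) * (kk x hx.2)⁻¹) * p⁻¹ := by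
        rw [hkk' x hx.2 _ (h3 y hy)]
      _ = p * kk x hx.2 * p⁻¹ * y * (p * kk x hx.2 * p⁻¹)⁻¹ := by group
  let π : C →* fixN Q := MonoidHom.mk' (fun x => ⟨F (kk x.1 x.2.2), hfx x.1 x.2⟩) (by
    intro x y
    apply Subtype.ext
    show F (kk (x.1 * y.1) _) = F (kk x.1 _) * F (kk y.1 _)
    rw [← hsj.mul _ (hkk _ _) _ (hkk _ _)]
    apply huniq _ _ _ ((K i).mul_mem (hkk _ _) (hkk _ _))
    intro z hz
    have h3 : x.1 * y.1 * z * (x.1 * y.1)⁻¹ = x.1 * (y.1 * z * y.1⁻¹) * x.1⁻¹ := by group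
    have h4 : kk y.1 y.2.2 * z * (kk y.1 y.2.2)⁻¹ ∈ K i :=
      (K i).mul_mem ((K i).mul_mem (hkk _ _) hz) ((K i).inv_mem (hkk _ _))
    rw [h3, hkk' y.1 y.2.2 z hz, hkk' x.1 x.2.2 _ h4]
    group)
  -- the kernel
  have hkerπ : ∀ x : C, x ∈ π.ker → (x : G) ∈ Subgroup.centralizer (E : Set G) := by
    intro x hx
    have h1 : F (kk x.1 x.2.2) = 1 := congrArg Subtype.val hx
    rw [hsj.ker _ (hkk _ _)] at h1
    have h2 : ∀ y ∈ K i, x.1 * y * x.1⁻¹ = y := by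
      intro y hy
      rw [hkk' x.1 x.2.2 y hy, h1 y hy]
      group
    apply hcE
    intro j y hy
    obtain ⟨p, hp, hpj⟩ := htrans i j
    have h3 := h2 _ ((mapc hpj).2 y hy)
    have h4 := hCP x.1 x.2 p hp
    have h5 : x.1 * y * x.1⁻¹ = y := by
      calc x.1 * y * x.1⁻¹ = p * x.1 * p⁻¹ * y * (p * x.1 * p⁻¹)⁻¹ := by rw [h4]
        _ = p * (x.1 * (p⁻¹ * y * p) * x.1⁻¹) * p⁻¹ := by group
        _ = p * (p⁻¹ * y * p) * p⁻¹ := by rw [h3]
        _ = y := by group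
    exact mul_inv_eq_iff_eq_mul.1 h5
  set Z : Subgroup G := Subgroup.centralizer (E : Set G) ⊓ E with hZdef
  refine ⟨π, ?_, ?_, ?_⟩
  · -- surjectivity
    rintro ⟨s, hs⟩
    obtain ⟨k, hk, hks⟩ := hsj.sur s
    -- elements of `P` in the normaliser
    have hfixs : ∀ p ∈ P, (∀ y ∈ K i, p * y * p⁻¹ ∈ K i) → (∀ y ∈ K i, p⁻¹ * y * p ∈ K i) →
        F (p * k * p⁻¹) = F k := by
      intro p hp h1 h2
      obtain ⟨β, hβ⟩ := hsj.exists_aut h1 h2
      rw [hβ k hk, hks]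
      exact hs β ((QQ_mem hsj).2 ⟨p, hp, h1, h2, hβ⟩)
    choose q hq hq' using htrans i
    have hm : ∀ j, q j * k * (q j)⁻¹ ∈ K j := fun j => (mapc (hq' j)).1 k hk
    have hfi : Fintype I := Fintype.ofFinite I
    have hprod : ∀ t : Finset I, ∃ x ∈ E, ∀ j, ∀ y ∈ K j, (j ∈ t →
        x * y * x⁻¹ = (q j * k * (q j)⁻¹) * y * (q j * k * (q j)⁻¹)⁻¹) ∧
        (j ∉ t → x * y * x⁻¹ = y) := by
      intro t
      induction t using Finset.induction_on with
      | empty =>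
        refine ⟨1, E.one_mem, fun j y _ => ⟨fun h => absurd h (Finset.notMem_empty _),
          fun _ => by group⟩⟩
      | insert a t hat ih =>
        obtain ⟨x, hx, hxt⟩ := ih
        set ka := q a * k * (q a)⁻¹ with hka
        refine ⟨ka * x, E.mul_mem (hKE a (hm a)) hx, fun j y hy => ?_⟩
        have e1 : ka * x * y * (ka * x)⁻¹ = ka * (x * y * x⁻¹) * ka⁻¹ := by group
        rw [e1]
        have hcm : j ≠ a → ∀ z ∈ K j, ka * z * ka⁻¹ = z := by
          intro hj z hz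
          rw [hcomm a j (Ne.symm hj) ka (hm a) z hz]
          group
        refine ⟨fun hj => ?_, fun hj => ?_⟩
        · by_cases hja : j = a
          · subst hja
            rw [(hxt j y hy).2 hat]
          · have hjt : j ∈ t := by
              rcases Finset.mem_insert.1 hj with h | h
              · exact absurd h hja
              · exact h
            rw [(hxt j y hy).1 hjt]
            exact hcm hja _ ((K j).mul_mem ((K j).mul_mem (hm j) hy) ((K j).inv_mem (hm j)))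
        · have hja : j ≠ a := fun h => hj (h ▸ Finset.mem_insert_self _ _)
          have hjt : j ∉ t := fun h => hj (Finset.mem_insert_of_mem h)
          rw [(hxt j y hy).2 hjt]
          exact hcm hja y hy
    obtain ⟨x, hxE, hx⟩ := hprod Finset.univ
    have hx' : ∀ j, ∀ y ∈ K j, x * y * x⁻¹ = (q j * k * (q j)⁻¹) * y * (q j * k * (q j)⁻¹)⁻¹ :=
      fun j y hy => (hx j y hy).1 (Finset.mem_univ j)
    -- `x⁻¹ (p x p⁻¹)` is in the centre of `E`
    have hxZ : ∀ p ∈ P, x⁻¹ * (p * x * p⁻¹) ∈ Z := by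
      intro p hp
      refine ⟨?_, E.mul_mem (E.inv_mem hxE) (hPE p hp x hxE)⟩
      apply hcE
      intro j y hy
      -- the factor mapped to `K j`
      obtain ⟨a, ha⟩ := hperm p⁻¹ (P.inv_mem hp) j
      have ha1 : ∀ z ∈ K j, p⁻¹ * z * p ∈ K a := fun z hz => by
        have := (mapc ha).1 z hz
        rwa [inv_inv] at this
      have ha2 : ∀ z ∈ K a, p * z * p⁻¹ ∈ K j := fun z hz => by
        have := (mapc ha).2 z hz
        rwa [inv_inv] at this
      set r := (q j)⁻¹ * p * q a with hr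
      have hrP : r ∈ P := P.mul_mem (P.mul_mem (P.inv_mem (hq j)) hp) (hq a)
      have hr1 : ∀ z ∈ K i, r * z * r⁻¹ ∈ K i := by
        intro z hz
        have e : r * z * r⁻¹ = (q j)⁻¹ * (p * (q a * z * (q a)⁻¹) * p⁻¹) * q j := by
          rw [hr]; group
        rw [e]
        exact (mapc (hq' j)).2 _ (ha2 _ ((mapc (hq' a)).1 z hz))
      have hr2 : ∀ z ∈ K i, r⁻¹ * z * r ∈ K i := by
        intro z hz
        have e : r⁻¹ * z * r = (q a)⁻¹ * (p⁻¹ * (q j * z * (q j)⁻¹) * p) * q a := by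
          rw [hr]; group
        rw [e]
        exact (mapc (hq' a)).2 _ (ha1 _ ((mapc (hq' j)).1 z hz))
      have h1 := (hsj.eq_iff (hr1 k hk) hk).1 (hfixs r hrP hr1 hr2)
      -- the action of `p x p⁻¹` on `K j`
      have h2 : ∀ z ∈ K j, (p * x * p⁻¹) * z * (p * x * p⁻¹)⁻¹ = x * z * x⁻¹ := by
        intro z hz
        have h3 := h1 _ ((mapc (hq' j)).2 z hz)
        calc (p * x * p⁻¹) * z * (p * x * p⁻¹)⁻¹ = p * (x * (p⁻¹ * z * p) * x⁻¹) * p⁻¹ := by group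
          _ = p * ((q a * k * (q a)⁻¹) * (p⁻¹ * z * p) * (q a * k * (q a)⁻¹)⁻¹) * p⁻¹ := by
            rw [hx' a _ (ha1 z hz)]
          _ = q j * ((r * k * r⁻¹) * ((q j)⁻¹ * z * q j) * (r * k * r⁻¹)⁻¹) * (q j)⁻¹ := by
            rw [hr]; group
          _ = q j * (k * ((q j)⁻¹ * z * q j) * k⁻¹) * (q j)⁻¹ := by rw [h3]
          _ = (q j * k * (q j)⁻¹) * z * (q j * k * (q j)⁻¹)⁻¹ := by group
          _ = x * z * x⁻¹ := (hx' j z hz).symm
      have h4 := h2 y hy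
      calc x⁻¹ * (p * x * p⁻¹) * y
          = x⁻¹ * ((p * x * p⁻¹) * y * (p * x * p⁻¹)⁻¹) * (p * x * p⁻¹) := by group
        _ = x⁻¹ * (x * y * x⁻¹) * (p * x * p⁻¹) := by rw [h4]
        _ = y * (x⁻¹ * (p * x * p⁻¹)) := by group
    have hPZ : P ≤ Subgroup.normalizer (Z : Set G) := by
      have hone : ∀ p ∈ P, ∀ z ∈ Z, p * z * p⁻¹ ∈ Z := by
        intro p hp z hz
        refine ⟨?_, hPE p hp z hz.2⟩
        show p * z * p⁻¹ ∈ Subgroup.centralizer (E : Set G)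
        rw [Subgroup.mem_centralizer_iff]
        intro y hy
        have h1 := Subgroup.mem_centralizer_iff.1 hz.1 _ (hPE' p hp y hy)
        calc y * (p * z * p⁻¹) = p * ((p⁻¹ * y * p) * z) * p⁻¹ := by group
          _ = p * (z * (p⁻¹ * y * p)) * p⁻¹ := by rw [h1]
          _ = p * z * p⁻¹ * y := by group
      intro p hp
      rw [Subgroup.mem_normalizer_iff]
      intro z
      refine ⟨fun hz => hone p hp z hz, fun hz => ?_⟩
      have := hone p⁻¹ (P.inv_mem hp) _ hz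
      have e : p⁻¹ * (p * z * p⁻¹) * p⁻¹⁻¹ = z := by group
      rwa [e] at this
    obtain ⟨z, hz, hxz⟩ := hfix ℓ G P Z hP hZ hPZ x hxZ
    have hxzC : x * z ∈ C := ⟨hxz, E.mul_mem hxE hz.2⟩
    refine ⟨⟨x * z, hxzC⟩, ?_⟩
    apply Subtype.ext
    show F (kk (x * z) _) = s
    have h1 : F (q i * k * (q i)⁻¹) = s := by
      rw [hfixs (q i) (hq i) (mapc (hq' i)).1 (mapc (hq' i)).2, hks]
    rw [← h1]
    apply huniq _ _ _ (hm i)
    intro y hy
    rw [← hx' i y hy]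
    have h2 := Subgroup.mem_centralizer_iff.1 hz.1 y (hKE i hy)
    calc x * z * y * (x * z)⁻¹ = x * (z * y) * z⁻¹ * x⁻¹ := by group
      _ = x * (y * z) * z⁻¹ * x⁻¹ := by rw [h2]
      _ = x * y * x⁻¹ := by group
  · intro x hx
    rw [Subgroup.mem_center_iff]
    intro y
    apply Subtype.ext
    exact Subgroup.mem_centralizer_iff.1 (hkerπ x hx) y.1 y.2.2
  · intro hdvd
    apply hZ
    have h1 : π.ker.map C.subtype ≤ Z := by
      rintro _ ⟨x, hx, rfl⟩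
      exact ⟨hkerπ x hx, x.2.2⟩
    have h2 : Nat.card (π.ker.map C.subtype) = Nat.card π.ker :=
      (Nat.card_congr (π.ker.equivMapOfInjective C.subtype C.subtype_injective).toEquiv).symm
    have h3 := Subgroup.card_dvd_of_le h1
    rw [h2] at h3
    exact hdvd.trans h3

end Pool.Agent.PP.X2.H10
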