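import Pool.Agent.Helper66_BN.Stmts

/-! Copy (generated) of the module `Pool.Agent.Helper11_BN.G2` with import lines for the bundle Helper12_AWB. -/

/-!
# Squad AWC, part BN: module BG2, the remaining properties in `D`
-/

set_option autoImplicit false

namespace Pool.Agent.PP.BN.H11

open Pool.Agent.Helper51_AWC Pool.Agent.Helper79_WRA Pool.Agent.PP

theorem mem_of_coprime {G : Type*} [Group G] (H : Subgroup G) {x : G} {a b : ℕ}
    (hab : a.Coprime b) (ha : x ^ a ∈ H) (hb : x ^ b ∈ H) : x ∈ H := by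
  have h1 : (1 : ℤ) = a * a.gcdA b + b * a.gcdB b := by
    rw [← Nat.gcd_eq_gcd_ab, hab.gcd_eq_one, Nat.cast_one]
  have h2 : x = (x ^ a) ^ (a.gcdA b) * (x ^ b) ^ (a.gcdB b) := by
    rw [← zpow_natCast x a, ← zpow_natCast x b, ← zpow_mul, ← zpow_mul, ← zpow_add, ← h1, zpow_one]
  rw [h2]
  exact H.mul_mem (H.zpow_mem ha _) (H.zpow_mem hb _)

theorem conjS_of_mem {G : Type} [Group G] {U : Subgroup G} {g : G} (h : g ∈ U) : conjS g U = U := by
  ext x
  rw [mem_conjS]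
  constructor
  · intro h1
    have h2 := U.mul_mem (U.mul_mem h h1) (U.inv_mem h)
    have h3 : g * (g⁻¹ * x * g) * g⁻¹ = x := by group
    rwa [h3] at h2
  · intro h1
    exact U.mul_mem (U.mul_mem (U.inv_mem h) h1) h

theorem core {D : Type} [Group D] [Finite D] {ℓ : ℕ} (hℓ : ℓ.Prime) (M U T : Subgroup D)
    [M.Normal] (ν : D) (hZT : Subgroup.center D ≤ T) (hUM : U ≤ M) (hTM : T ≤ M) (hν : ν ∈ M)
    (hU : IsPGroup ℓ U) (hne : U ≠ ⊥) (TU : ∀ t ∈ T, ∀ u ∈ U, t * u * t⁻¹ ∈ U)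
    (cop : ¬ ℓ ∣ Nat.card T)
    (cell : ∀ m ∈ M, (∃ u ∈ U, ∃ t ∈ T, m = u * t) ∨
      (∃ u ∈ U, ∃ t ∈ T, ∃ u' ∈ U, m = u * ν * t * u'))
    (opp : ∀ u ∈ U, ∀ u' ∈ U, ∀ t ∈ T, ν * u * ν⁻¹ = u' * t → u = 1)
    (hind : ¬ ℓ ∣ M.index)
    (hcc : ∀ g : D, (∀ m ∈ M, g * m * g⁻¹ * m⁻¹ ∈ Subgroup.center D) → g ∈ Subgroup.center D)
    (hker : ∀ m ∈ M, (∀ g ∈ M, g⁻¹ * m * g ∈ Subgroup.normalizer (U : Set D)) →
      m ∈ Subgroup.center D) :
    Subgroup.centralizer (U : Set D) ≤ U ⊔ Subgroup.center D := by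
  have conjU : ∀ u ∈ U, conjS u U = U := fun u hu => conjS_of_mem hu
  have conjT : ∀ t ∈ T, conjS t U = U := by
    intro t ht
    ext x
    rw [mem_conjS]
    constructor
    · intro h1
      have h2 := TU t ht _ h1
      have h3 : t * (t⁻¹ * x * t) * t⁻¹ = x := by group
      rwa [h3] at h2
    · intro h1
      have h2 := TU t⁻¹ (T.inv_mem ht) _ h1
      rwa [inv_inv] at h2
  have hnN : ¬ conjS ν U = U := by
    intro h
    apply hne
    rw [Subgroup.eq_bot_iff_forall]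
    intro u hu
    have h1 : ν * u * ν⁻¹ ∈ conjS ν U := by
      rw [mem_conjS]
      have h3 : ν⁻¹ * (ν * u * ν⁻¹) * ν = u := by group
      rwa [h3]
    rw [h] at h1
    exact opp u hu _ h1 1 T.one_mem (mul_one _).symm
  have hcU : ∀ u ∈ U, ∀ t ∈ T, conjS (u * t) U = U := by
    intro u hu t ht
    rw [← conjS_conjS, conjT t ht, conjU u hu]
  have hcV : ∀ u ∈ U, ∀ t ∈ T, ∀ u' ∈ U, conjS (u * ν * t * u') U = conjS u (conjS ν U) := by
    intro u hu t ht u' hu'
    rw [← conjS_conjS, conjU u' hu', ← conjS_conjS, conjT t ht, ← conjS_conjS]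
  intro x hx
  have hxU : ∀ u ∈ U, x * u = u * x := fun u hu => ((Subgroup.mem_centralizer_iff.1 hx) u hu).symm
  have hpU : ∀ k : ℕ, ∀ u ∈ U, x ^ k * u = u * x ^ k := by
    intro k u hu
    exact (Commute.pow_left (hxU u hu : Commute x u) k).eq
  have conjX : ∀ k : ℕ, conjS (x ^ k) U = U := by
    intro k
    ext z
    rw [mem_conjS]
    constructor
    · intro h1
      have h2 := hpU k _ h1
      have h3 : z = (x ^ k)⁻¹ * z * x ^ k := by
        have h4 : x ^ k * ((x ^ k)⁻¹ * z * x ^ k) = z * x ^ k := by group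
        rw [h4] at h2
        exact mul_right_cancel h2
      rw [h3]
      exact h1
    · intro h1
      have h2 := hpU k _ h1
      have h3 : (x ^ k)⁻¹ * z * x ^ k = z := by
        rw [mul_assoc, ← h2]
        group
      rwa [h3]
  -- the conjugate of `V` under `x`
  obtain ⟨u₀, hu₀, h0⟩ : ∃ u₀ ∈ U, conjS x (conjS ν U) = conjS u₀ (conjS ν U) := by
    have h1 : conjS x (conjS ν U) = conjS (x * ν * x⁻¹) U := by
      have h2 := conjX 1
      rw [pow_one] at h2
      conv_rhs => rw [← h2]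
      rw [conjS_conjS, conjS_conjS]
      congr 1
      group
    rw [h1]
    rcases cell (x * ν * x⁻¹) (Subgroup.Normal.conj_mem inferInstance ν hν x) with
      ⟨u, hu, t, ht, h⟩ | ⟨u, hu, t, ht, u', hu', h⟩
    · exfalso
      rw [h, hcU u hu t ht] at h1
      apply hnN
      apply conjS_injective x
      rw [h1]
      have h2 := conjX 1
      rw [pow_one] at h2
      exact h2.symm
    · refine ⟨u, hu, ?_⟩
      rw [h, hcV u hu t ht u' hu']
  have hk : ∀ k : ℕ, conjS (x ^ k) (conjS ν U) = conjS (u₀ ^ k) (conjS ν U) := by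
    intro k
    induction k with
    | zero => rw [pow_zero, pow_zero]
    | succ k ih =>
      rw [pow_succ, ← conjS_conjS, h0, conjS_conjS, hpU k u₀ hu₀, ← conjS_conjS, ih, conjS_conjS,
        ← pow_succ']
  have hcard : ∀ u ∈ U, u ^ Nat.card U = 1 := by
    intro u hu
    have h1 : (⟨u, hu⟩ : U) ^ Nat.card U = 1 := pow_card_eq_one'
    exact congrArg (Subtype.val) h1
  have hV : conjS (x ^ Nat.card U) (conjS ν U) = conjS ν U := by
    rw [hk, hcard u₀ hu₀, conjS_one]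
  have hyN : ∀ g ∈ M, g⁻¹ * x ^ Nat.card U * g ∈ Subgroup.normalizer (U : Set D) := by
    intro g hg
    rw [mem_normalizer_iff_conjS]
    have h1 : conjS (x ^ Nat.card U) (conjS g U) = conjS g U := by
      rcases cell g hg with ⟨u, hu, t, ht, h⟩ | ⟨u, hu, t, ht, u', hu', h⟩
      · rw [h, hcU u hu t ht, conjX]
      · rw [h, hcV u hu t ht u' hu', conjS_conjS, hpU _ u hu, ← conjS_conjS, hV]
    rw [← conjS_conjS, ← conjS_conjS, h1, conjS_conjS, inv_mul_cancel, conjS_one]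
  have hyZ : x ^ Nat.card U ∈ Subgroup.center D := by
    apply hcc
    intro m hm
    apply hker
    · exact M.mul_mem (Subgroup.Normal.conj_mem inferInstance m hm _) (M.inv_mem hm)
    · intro g hg
      have h1 := hyN g hg
      have h2 := hyN (m⁻¹ * g) (M.mul_mem (M.inv_mem hm) hg)
      have h3 := (Subgroup.normalizer (U : Set D)).mul_mem h1
        ((Subgroup.normalizer (U : Set D)).inv_mem h2)
      have h4 : g⁻¹ * x ^ Nat.card U * g * ((m⁻¹ * g)⁻¹ * x ^ Nat.card U * (m⁻¹ * g))⁻¹ =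
          g⁻¹ * (x ^ Nat.card U * m * (x ^ Nat.card U)⁻¹ * m⁻¹) * g := by group
      rwa [h4] at h3
  haveI : Fact ℓ.Prime := ⟨hℓ⟩
  obtain ⟨j, hj⟩ := IsPGroup.iff_card.1 hU
  have hxM : x ∈ M := by
    refine mem_of_coprime M (a := Nat.card U) (b := M.index) ?_ (hTM (hZT hyZ))
      (M.pow_index_mem x)
    rw [hj]
    exact Nat.Coprime.pow_left _ ((Nat.Prime.coprime_iff_not_dvd hℓ).2 hind)
  have hcT : (Nat.card U).Coprime (Nat.card T) := by
    rw [hj]
    exact Nat.Coprime.pow_left _ ((Nat.Prime.coprime_iff_not_dvd hℓ).2 cop)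
  have hcardT : ∀ t ∈ T, t ^ Nat.card T = 1 := by
    intro u hu
    have h1 : (⟨u, hu⟩ : T) ^ Nat.card T = 1 := pow_card_eq_one'
    exact congrArg (Subtype.val) h1
  rcases cell x hxM with ⟨u, hu, t, ht, h⟩ | ⟨u, hu, t, ht, u', hu', h⟩
  · have h1 : ∀ k : ℕ, ∃ v ∈ U, (u * t) ^ k = v * t ^ k := by
      intro k
      induction k with
      | zero => exact ⟨1, U.one_mem, by simp⟩
      | succ k ih =>
        obtain ⟨v, hv, h2⟩ := ih
        refine ⟨v * (t ^ k * u * (t ^ k)⁻¹), U.mul_mem hv (TU _ (T.pow_mem ht k) u hu), ?_⟩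
        rw [pow_succ, h2, pow_succ]
        group
    obtain ⟨v, hv, h2⟩ := h1 (Nat.card U)
    rw [← h] at h2
    have h3 : v = 1 := by
      have h4 : v ∈ T := by
        have h5 : v = x ^ Nat.card U * (t ^ Nat.card U)⁻¹ := by rw [h2]; group
        rw [h5]
        exact T.mul_mem (hZT hyZ) (T.inv_mem (T.pow_mem ht _))
      have h6 : v ∈ (⊥ : Subgroup D) := by
        refine mem_of_coprime ⊥ hcT ?_ ?_
        · rw [hcard v hv]; exact Subgroup.one_mem _
        · rw [hcardT v h4]; exact Subgroup.one_mem _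
      simpa using h6
    rw [h3, one_mul] at h2
    have h4 : t ∈ Subgroup.center D := by
      refine mem_of_coprime _ hcT ?_ ?_
      · rw [← h2]; exact hyZ
      · rw [hcardT t ht]; exact Subgroup.one_mem _
    rw [h]
    exact Subgroup.mul_mem_sup hu h4
  · exfalso
    have h1 := hcV u hu t ht u' hu'
    rw [← h] at h1
    have h2 := conjX 1
    rw [pow_one, h1] at h2
    apply hnN
    apply conjS_injective u
    rw [h2, conjU u hu]

/-- BG2. -/
theorem g2 : G2Stmt := by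
  intro ℓ hℓ D _ _ _ M hM hZM hind hcc U T n hZT hUM hTM hne bn hN hUi hti hker
  haveI := hM
  haveI : Fact ℓ.Prime := ⟨hℓ⟩
  have hU : IsPGroup ℓ U := by
    have h1 := bn.pU.map M.subtype
    rwa [Subgroup.subgroupOf_map_subtype, inf_of_le_left hUM] at h1
  have hT : Nat.card (T.subgroupOf M) = Nat.card T :=
    Nat.card_congr (Subgroup.subgroupOfEquivOfLe hTM).toEquiv
  have TU : ∀ t ∈ T, ∀ u ∈ U, t * u * t⁻¹ ∈ U := fun t ht u hu =>
    Subgroup.mem_subgroupOf.1 (bn.TU ⟨t, hTM ht⟩ (Subgroup.mem_subgroupOf.2 ht) ⟨u, hUM hu⟩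
      (Subgroup.mem_subgroupOf.2 hu))
  have cell : ∀ m ∈ M, (∃ u ∈ U, ∃ t ∈ T, m = u * t) ∨
      (∃ u ∈ U, ∃ t ∈ T, ∃ u' ∈ U, m = u * (n : D) * t * u') := by
    intro m hm
    rcases bn.cell ⟨m, hm⟩ with ⟨u, hu, t, ht, h⟩ | ⟨u, hu, t, ht, u', hu', h⟩
    · exact Or.inl ⟨u, hu, t, ht, congrArg Subtype.val h⟩
    · exact Or.inr ⟨u, hu, t, ht, u', hu', congrArg Subtype.val h⟩
  have opp : ∀ u ∈ U, ∀ u' ∈ U, ∀ t ∈ T, (n : D) * u * (n : D)⁻¹ = u' * t → u = 1 := by
    intro u hu u' hu' t ht h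
    have h1 := bn.opp ⟨u, hUM hu⟩ (Subgroup.mem_subgroupOf.2 hu) ⟨u', hUM hu'⟩
      (Subgroup.mem_subgroupOf.2 hu') ⟨t, hTM ht⟩ (Subgroup.mem_subgroupOf.2 ht) (Subtype.ext h)
    exact congrArg Subtype.val h1
  have hUind : ¬ ℓ ∣ U.index := by
    have h1 : U.relIndex M * M.index = U.index := Subgroup.relIndex_mul_index hUM
    rw [← h1, hℓ.dvd_mul, not_or]
    exact ⟨hUi, hind⟩
  have frat : M ⊔ Subgroup.normalizer (U : Set D) = ⊤ := by
    have h1 := Sylow.normalizer_sup_eq_top' (hU.toSylow hUind) (N := M) hUM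
    rw [sup_comm]
    exact h1
  refine ⟨hM, hind, hZT, hUM, hTM, hne, bn, ?_, ?_, hN, frat, ?_⟩
  · intro P hP
    obtain ⟨Q, hQ⟩ := hP.exists_le_sylow
    obtain ⟨g, hg⟩ := MulAction.exists_smul_eq D (hU.toSylow hUind) Q
    refine ⟨g, fun x hx => ?_⟩
    have h1 : x ∈ (g • (hU.toSylow hUind)) := by rw [hg]; exact hQ hx
    exact h1
  · intro g x hx hx1 hgx
    have hg : g ∈ M ⊔ Subgroup.normalizer (U : Set D) := by rw [frat]; trivial
    rw [← SetLike.mem_coe, Subgroup.normal_mul] at hg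
    obtain ⟨m, hm, y, hy, rfl⟩ := hg
    have h1 : y * x * y⁻¹ ∈ U := (Subgroup.mem_normalizer_iff.1 hy x).1 hx
    have h2 : y * x * y⁻¹ ≠ 1 := by
      intro h
      apply hx1
      have h3 : x = y⁻¹ * (y * x * y⁻¹) * y := by group
      rw [h3, h]
      group
    have h3 : m * (y * x * y⁻¹) * m⁻¹ ∈ U := by
      have h4 : m * (y * x * y⁻¹) * m⁻¹ = m * y * x * (m * y)⁻¹ := by group
      rw [h4]
      exact hgx
    exact (Subgroup.normalizer (U : Set D)).mul_mem (hti m hm _ h1 h2 h3) hy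
  · exact core hℓ M U T n hZT hUM hTM n.2 hU hne TU (by rw [← hT]; exact bn.cop) cell opp
      hind hcc hker

end Pool.Agent.PP.BN.H11
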