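import Pool.Agent.Helper12_AWB.B100

/-! Copy (generated) of the module `Pool.Agent.Helper11_X1.Lng` with import lines for the bundle Helper12_AWB. -/

/-!
# Module LNG: longest words
-/

set_option autoImplicit false

open scoped BigOperators

noncomputable section

namespace Pool.Agent.PP.X1.H11

open Pool.Agent.PP.X1

variable {ℓ : ℕ} {G : Type} [Group G] (R : RGD ℓ G)

theorem lev_s {J : Finset (Fin R.r)} {i : Fin R.r} (hi : i ∈ J) {b : R.E} (hb : b ∈ R.lev J) :
    R.s i b ∈ R.lev J := by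
  refine ⟨R.s_mem hb.1, ?_⟩
  have h1 : R.a i ∈ Submodule.span ℝ (R.a '' (J : Set (Fin R.r))) :=
    Submodule.subset_span ⟨i, hi, rfl⟩
  rw [R.s_eq]
  exact Submodule.sub_mem _ hb.2 (Submodule.smul_mem _ _ h1)

theorem lev_s_iff {J : Finset (Fin R.r)} {i : Fin R.r} (hi : i ∈ J) {b : R.E} :
    R.s i b ∈ R.lev J ↔ b ∈ R.lev J := by
  constructor
  · intro h
    have := lev_s R hi h
    rwa [R.s_s] at this
  · exact lev_s R hi

theorem pl_s {J : Finset (Fin R.r)} {i : Fin R.r} (hi : i ∈ J) {b : R.E}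
    (hb : b ∈ R.pos \ R.lev J) : R.s i b ∈ R.pos \ R.lev J := by
  refine ⟨R.s_pos hb.1 ?_, fun h => hb.2 ((lev_s_iff R hi).1 h)⟩
  intro hr
  apply hb.2
  obtain ⟨h1, c, _, h2⟩ := hr
  refine ⟨h1, ?_⟩
  rw [h2]
  exact Submodule.smul_mem _ _ (Submodule.subset_span ⟨i, hi, rfl⟩)

theorem pl_s_iff {J : Finset (Fin R.r)} {i : Fin R.r} (hi : i ∈ J) {b : R.E} :
    R.s i b ∈ R.pos \ R.lev J ↔ b ∈ R.pos \ R.lev J := by
  constructor
  · intro h
    have := pl_s R hi h
    rwa [R.s_s] at this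
  · exact pl_s R hi

/-- the action of a word as a linear map -/
def swL (w : List (Fin R.r)) : R.E →ₗ[ℝ] R.E where
  toFun := R.sw w
  map_add' := R.sw_add w
  map_smul' c v := R.sw_smul w c v

theorem nn_sum {v : Fin R.r → R.E} {k : Fin R.r → ℝ} (hk : ∀ i, 0 ≤ k i)
    (hv : ∀ i, k i = 0 ∨ Nn R.a (v i)) (s : Finset (Fin R.r)) : Nn R.a (∑ i ∈ s, k i • v i) := by
  classical
  induction s using Finset.induction_on with
  | empty =>
    refine ⟨fun _ => 0, fun _ => le_rfl, ?_⟩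
    simp
  | insert i s hi ih =>
    rw [Finset.sum_insert hi]
    rcases hv i with h | h
    · rw [h, zero_smul, zero_add]
      exact ih
    · exact R.nn_add (R.nn_smul (hk i) h) ih

theorem coef_zero {J : Finset (Fin R.r)} {k : Fin R.r → ℝ} {b : R.E}
    (hb : b = ∑ i, k i • R.a i)
    (hs : b ∈ Submodule.span ℝ (R.a '' (J : Set (Fin R.r)))) {i : Fin R.r} (hi : i ∉ J) :
    k i = 0 := by
  rw [Finsupp.mem_span_image_iff_linearCombination] at hs
  obtain ⟨l, hl, hl2⟩ := hs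
  have h1 : Finsupp.linearCombination ℝ R.a (Finsupp.equivFunOnFinite.symm k) = b := by
    rw [hb, Finsupp.linearCombination_apply, Finsupp.sum_fintype]
    · rfl
    · intro i
      rw [zero_smul]
  have h2 : l = Finsupp.equivFunOnFinite.symm k := R.base (hl2.trans h1.symm)
  have h3 : l i = 0 := by
    by_contra h
    have h4 : i ∈ l.support := Finsupp.mem_support_iff.2 h
    exact hi (by exact_mod_cast (Finsupp.mem_supported ℝ l).1 hl (by exact_mod_cast h4))
  rw [h2] at h3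
  exact h3

/-- the roots made negative -/
def Sn (J : Finset (Fin R.r)) (w : List (Fin R.r)) : Set R.E :=
  {b | b ∈ R.pos ∩ R.lev J ∧ R.sw w b ∈ R.neg}

theorem Sn_fin (J : Finset (Fin R.r)) (w : List (Fin R.r)) : (Sn R J w).Finite :=
  R.fin.subset fun _ h => h.1.1.1

theorem exists_i {J : Finset (Fin R.r)} {w : List (Fin R.r)} {b : R.E}
    (hb : b ∈ R.pos ∩ R.lev J) (hw : R.sw w b ∉ R.neg) : ∃ i ∈ J, R.sw w (R.a i) ∈ R.pos := by
  by_contra hc
  push Not at hc
  have hΦ : R.sw w b ∈ R.Φ := R.sw_mem hb.1.1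
  obtain ⟨k, hk, hbk⟩ := hb.1.2
  have hp : R.sw w b ∈ R.pos := (R.pos_or_neg hΦ).resolve_right hw
  apply R.not_nn_neg hΦ hp.2
  have h1 : -R.sw w b = ∑ i, k i • (-R.sw w (R.a i)) := by
    have h2 : swL R w b = ∑ i, k i • swL R w (R.a i) := by
      rw [hbk, map_sum]
      simp only [map_smul]
    have h3 : R.sw w b = ∑ i, k i • R.sw w (R.a i) := h2
    rw [h3, ← Finset.sum_neg_distrib]
    apply Finset.sum_congr rfl
    intro i _
    rw [smul_neg]
  rw [h1]
  apply nn_sum R hk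
  intro i
  by_cases hi : i ∈ J
  · right
    have h4 : R.sw w (R.a i) ∈ R.neg :=
      (R.pos_or_neg (R.sw_mem (R.mem i))).resolve_left (hc i hi)
    exact h4.2
  · left
    exact coef_zero R hbk hb.2.2 hi

theorem Sn_lt {J : Finset (Fin R.r)} {w : List (Fin R.r)} {i : Fin R.r} (hi : i ∈ J)
    (hpi : R.sw w (R.a i) ∈ R.pos) : (Sn R J w).ncard < (Sn R J (w ++ [i])).ncard := by
  have hinj : Function.Injective (R.s i) := fun x y h => by
    have := congrArg (R.s i) h
    rwa [R.s_s, R.s_s] at this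
  have hnr : ∀ b ∈ Sn R J w, b ∉ R.ray i := by
    intro b hb hr
    obtain ⟨_, c, hc, h2⟩ := hr
    have h3 : R.sw w b = c • R.sw w (R.a i) := by rw [h2, R.sw_smul]
    have h4 : Nn R.a (R.sw w b) := by
      rw [h3]
      exact R.nn_smul hc.le hpi.2
    exact R.not_nn_neg hb.2.1 h4 hb.2.2
  have hsub : R.s i '' Sn R J w ⊆ Sn R J (w ++ [i]) := by
    rintro _ ⟨b, hb, rfl⟩
    refine ⟨⟨R.s_pos hb.1.1 (hnr b hb), lev_s R hi hb.1.2⟩, ?_⟩
    rw [R.sw_append, R.sw_cons, R.sw_nil, R.s_s]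
    exact hb.2
  have hai : R.a i ∈ Sn R J (w ++ [i]) := by
    refine ⟨⟨R.a_pos i, R.mem i, Submodule.subset_span ⟨i, hi, rfl⟩⟩, ?_⟩
    rw [R.sw_append, R.sw_cons, R.sw_nil, R.s_self]
    refine ⟨R.sw_mem (R.neg_a_mem i), ?_⟩
    rw [R.sw_neg, neg_neg]
    exact hpi.2
  have hnot : R.a i ∉ R.s i '' Sn R J w := by
    rintro ⟨b, hb, h⟩
    have h1 : b = -R.a i := by
      have := congrArg (R.s i) h
      rwa [R.s_s, R.s_self] at this
    have h2 : Nn R.a (-b) := by
      rw [h1, neg_neg]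
      exact R.nn_a i
    exact R.not_nn_neg hb.1.1.1 hb.1.1.2 h2
  have h1 : (R.s i '' Sn R J w).ncard = (Sn R J w).ncard := Set.ncard_image_of_injective _ hinj
  rw [← h1]
  exact Set.ncard_lt_ncard ⟨hsub, fun h => hnot (h hai)⟩ (Sn_fin R J _)

theorem lng : LngStmt := by
  intro ℓ G _ R J
  constructor
  · intro w
    induction w with
    | nil => exact fun _ => ⟨fun _ => Iff.rfl, fun _ => Iff.rfl⟩
    | cons i w ih =>
      intro hw
      have h1 := ih fun j hj => hw j (List.mem_cons_of_mem _ hj)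
      have hi : i ∈ J := hw i List.mem_cons_self
      refine ⟨fun b => ?_, fun b => ?_⟩
      · rw [R.sw_cons, lev_s_iff R hi, h1.1 b]
      · rw [R.sw_cons, pl_s_iff R hi, h1.2 b]
  · set f : List (Fin R.r) → ℕ := fun w => (R.fin.toFinset).card - (Sn R J w).ncard with hf
    obtain ⟨w, hw, hmin⟩ := WellFounded.has_min (measure f).wf
      {w : List (Fin R.r) | ∀ i ∈ w, i ∈ J} ⟨[], by simp⟩
    refine ⟨w, hw, fun b hb => ?_⟩
    by_contra hn
    obtain ⟨i, hi, hpi⟩ := exists_i R hb hn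
    have h1 := Sn_lt R hi hpi
    have h2 : (Sn R J (w ++ [i])).ncard ≤ (R.fin.toFinset).card := by
      rw [← Set.ncard_eq_toFinset_card _ R.fin]
      exact Set.ncard_le_ncard (fun _ h => h.1.1.1) R.fin
    have h3 : w ++ [i] ∈ {w : List (Fin R.r) | ∀ i ∈ w, i ∈ J} := by
      intro j hj
      rw [List.mem_append, List.mem_singleton] at hj
      rcases hj with h | h
      · exact hw j h
      · rw [h]
        exact hi
    apply hmin _ h3
    change f (w ++ [i]) < f w
    simp only [hf]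
    omega

end Pool.Agent.PP.X1.H11
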