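import Pool.Agent.Helper12_AWB.B100

/-! Copy (generated) of the module `Pool.Agent.Helper11_X2.Lyu` with import lines for the bundle Helper12_AWB. -/

/-! LYU: unions of layers. -/

set_option autoImplicit false

namespace Pool.Agent.PP.X2.H11

open Pool.Agent.Helper51_AWC Pool.Agent.Helper79_WRA Pool.Agent.PP Pool.Agent.PP.X2

theorem lyu : LyuStmt := by
  intro ℓ 𝒜 H _ J _ E hE hcomm
  choose I hI K hK using hE
  have hle : ∀ j i, K j i ≤ E j := fun j i => by
    rw [← (hK j).sup]
    exact le_iSup (K j) i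
  refine ⟨Σ j, I j, inferInstance, fun p => K p.1 p.2, ?_, ?_, fun p => (hK p.1).cov p.2⟩
  · rintro ⟨j, i⟩ ⟨j', i'⟩ hne x hx y hy
    by_cases h : j = j'
    · subst h
      refine (hK j).comm i i' (fun e => hne ?_) x hx y hy
      rw [e]
    · exact hcomm j j' h x (hle j i hx) y (hle j' i' hy)
  · rw [iSup_sigma]
    exact iSup_congr fun j => (hK j).sup

end Pool.Agent.PP.X2.H11
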