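import Pool.Agent.Helper12_AWB.B100
import Pool.Agent.Helper94_PP.StmtsKR
import Pool.Agent.Helper94_PP.Bridge

/-! Copy (generated) of the module `Pool.Agent.Helper14_X1.Tcu` with import lines for the bundle Helper12_AWB. -/

/-!
TCU: existence and uniqueness of the scalar.
-/

open scoped BigOperators

noncomputable section

namespace Pool.Agent.PP.X1.H14

open Pool.Agent.Helper51_AWC Pool.Agent.Helper79_WRA Pool.Agent.PP Pool.Agent.PP.X1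

variable {F : Type} [Field F] {G : Type} [Group G] {P : Subgroup G} [Finite G]

/-- `X` implements the map `θ`. -/
structure Im {n : ℕ} (ρ : P →* Matrix (Fin n) (Fin n) F) (θ : G → G)
    (X : Matrix (Fin n) (Fin n) F) : Prop where
  unit : IsUnit X
  eq : ∀ g ∈ P, X * ro ρ g = ro ρ (θ g) * X

theorem unit_ro {n : ℕ} (ρ : P →* Matrix (Fin n) (Fin n) F) {g : G} (hg : g ∈ P) :
    IsUnit (ro ρ g) := by
  have h1 : ro ρ g * ro ρ g⁻¹ = 1 := by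
    rw [← ro_mul ρ hg (P.inv_mem hg), mul_inv_cancel, ro_one]
  have h2 : ro ρ g⁻¹ * ro ρ g = 1 := by
    rw [← ro_mul ρ (P.inv_mem hg) hg, inv_mul_cancel, ro_one]
  exact ⟨⟨ro ρ g, ro ρ g⁻¹, h1, h2⟩, rfl⟩

theorem Im.uniq {n : ℕ} {ρ : P →* Matrix (Fin n) (Fin n) F} (hρ : IsIrr ρ) {θ : G → G}
    {X Y : Matrix (Fin n) (Fin n) F} (hX : Im ρ θ X) (hY : Im ρ θ Y) :
    ∃ c : F, c ≠ 0 ∧ Y = c • X := by
  obtain ⟨u, rfl⟩ := hX.unit
  have h1 : ∀ g : P, ((u⁻¹ : _) : Matrix (Fin n) (Fin n) F) * Y * ρ g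
      = ρ g * (((u⁻¹ : _) : Matrix (Fin n) (Fin n) F) * Y) := by
    intro g
    have e1 := hX.eq g g.2
    have e2 := hY.eq g g.2
    rw [ro_coe] at e1 e2
    have e3 : ((u⁻¹ : _) : Matrix (Fin n) (Fin n) F) * ro ρ (θ g)
        = ρ g * ((u⁻¹ : _) : Matrix (Fin n) (Fin n) F) := by
      have := congrArg (fun Z => ((u⁻¹ : _) : Matrix (Fin n) (Fin n) F) * Z *
        ((u⁻¹ : _) : Matrix (Fin n) (Fin n) F)) e1
      simp only [← mul_assoc, Units.inv_mul, one_mul] at this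
      rw [mul_assoc, mul_assoc, Units.mul_inv, mul_one] at this
      exact this.symm
    rw [mul_assoc, e2, ← mul_assoc, e3, mul_assoc]
  obtain ⟨w, hw⟩ := schur hρ _ h1
  have h2 : Y = w • (u : Matrix (Fin n) (Fin n) F) := by
    have h3 : (u : Matrix (Fin n) (Fin n) F) * (((u⁻¹ : _) : Matrix (Fin n) (Fin n) F) * Y)
        = (u : Matrix (Fin n) (Fin n) F) * Matrix.scalar (Fin n) w := by rw [hw]
    rw [← mul_assoc, Units.mul_inv, one_mul] at h3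
    rw [h3, Matrix.scalar_apply, Matrix.smul_eq_mul_diagonal]
  refine ⟨w, ?_, h2⟩
  rintro rfl
  rw [zero_smul] at h2
  have : Nonempty (Fin n) := ⟨⟨0, hρ.1⟩⟩
  have h4 := hY.unit
  rw [h2] at h4
  exact absurd h4 not_isUnit_zero

theorem Im.mul {n : ℕ} {ρ : P →* Matrix (Fin n) (Fin n) F} {θ η : G → G}
    {X Y : Matrix (Fin n) (Fin n) F} (hX : Im ρ θ X) (hY : Im ρ η Y) (hη : ∀ g ∈ P, η g ∈ P) :
    Im ρ (fun g => θ (η g)) (X * Y) :=
  ⟨hX.unit.mul hY.unit, fun g hg => by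
    rw [mul_assoc, hY.eq g hg, ← mul_assoc, hX.eq _ (hη g hg), mul_assoc]⟩

theorem Im.cj {n : ℕ} (ρ : P →* Matrix (Fin n) (Fin n) F) {c : G} (hc : c ∈ P) :
    Im ρ (fun g => c * g * c⁻¹) (ro ρ c) :=
  ⟨unit_ro ρ hc, fun g hg => by
    rw [ro_mul ρ (P.mul_mem hc hg) (P.inv_mem hc), ro_mul ρ hc hg, mul_assoc, mul_assoc,
      ← ro_mul ρ (P.inv_mem hc) hc, inv_mul_cancel, ro_one, mul_one]⟩

/-- existence of implementing matrices -/
theorem exists_im {ℓ : ℕ} (hC : IbcStmt) (hF : GoodF ℓ F) {n : ℕ}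
    {ρ : P →* Matrix (Fin n) (Fin n) F} (hρ : IsIrr ρ) (α : MulAut G)
    (hα : ∀ g : G, α g ∈ P ↔ g ∈ P) (hf : Fxd P (tr ρ) α) : ∃ X, Im ρ α X := by
  let a : P →* P :=
    { toFun := fun g => ⟨α g, (hα g).2 g.2⟩
      map_one' := Subtype.ext (map_one α)
      map_mul' := fun x y => Subtype.ext (map_mul α (x : G) (y : G)) }
  have ha : Function.Surjective a := by
    intro g
    refine ⟨⟨α⁻¹ g, (hα _).1 ?_⟩, Subtype.ext ?_⟩
    · rw [MulAut.apply_inv_self]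
      exact g.2
    · exact MulAut.apply_inv_self _ _ _
  have h1 : IsIrr (ρ.comp a) := by
    refine ⟨hρ.1, ?_⟩
    have : Set.range (ρ.comp a) = Set.range ρ := by
      rw [MonoidHom.coe_comp, ha.range_comp]
    rw [this]
    exact hρ.2
  have h2 : tr ρ = tr (ρ.comp a) := by
    funext g
    exact (hf g (a g) rfl).symm
  obtain ⟨X, Y, -, hXY, hYX, h3⟩ := hC ℓ F hF P n n ρ (ρ.comp a) hρ h1 h2
  refine ⟨X, ⟨⟨X, Y, hXY, hYX⟩, rfl⟩, fun g hg => ?_⟩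
  have h4 := h3 ⟨g, hg⟩
  rw [ro_mem ρ hg, ro_mem ρ ((hα g).2 hg)]
  exact h4

theorem exists_scalar {n : ℕ} {ρ : P →* Matrix (Fin n) (Fin n) F} (hρ : IsIrr ρ) {α β : MulAut G}
    {c : G} (hc : c ∈ P) (hα : ∀ g : G, α g ∈ P ↔ g ∈ P) (hβ : ∀ g : G, β g ∈ P ↔ g ∈ P)
    (hk : ∀ g, α (β (α⁻¹ (β⁻¹ g))) = c * g * c⁻¹) {X Y : Matrix (Fin n) (Fin n) F}
    (hX : Im ρ α X) (hY : Im ρ β Y) : ∃ z : F, z ≠ 0 ∧ X * Y = z • (ro ρ c * Y * X) := by
  have h1 := hX.mul hY (fun g hg => (hβ g).2 hg)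
  have h2 := ((Im.cj ρ hc).mul hY (fun g hg => (hβ g).2 hg)).mul hX (fun g hg => (hα g).2 hg)
  have h3 : (fun g => (fun g => (fun g => c * g * c⁻¹) (β g)) (α g)) = fun g => α (β g) := by
    funext g
    have := hk (β (α g))
    rw [MulAut.inv_apply_self, MulAut.inv_apply_self] at this
    exact this.symm
  rw [h3] at h2
  exact h2.uniq hρ h1

theorem im_conj {n : ℕ} {σ ρ : P →* Matrix (Fin n) (Fin n) F}
    (u : (Matrix (Fin n) (Fin n) F)ˣ) (hu : ∀ g, (u : Matrix (Fin n) (Fin n) F) * σ g = ρ g * u)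
    {θ : G → G} (hθ : ∀ g ∈ P, θ g ∈ P) {X : Matrix (Fin n) (Fin n) F} (hX : Im σ θ X) :
    Im ρ θ (u.val * X * (u⁻¹).val) := by
  have h1 : ∀ g ∈ P, u.val * ro σ g = ro ρ g * u.val := by
    intro g hg
    rw [ro_mem σ hg, ro_mem ρ hg]
    exact hu _
  have h2 : ∀ g ∈ P, (u⁻¹).val * ro ρ g = ro σ g * (u⁻¹).val := by
    intro g hg
    have := congrArg (fun Z => (u⁻¹).val * Z * (u⁻¹).val) (h1 g hg)
    simp only [← mul_assoc, Units.inv_mul, one_mul] at this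
    rw [mul_assoc ((u⁻¹).val * ro ρ g), Units.mul_inv, mul_one] at this
    exact this.symm
  refine ⟨(u.isUnit.mul hX.unit).mul (u⁻¹).isUnit, fun g hg => ?_⟩
  rw [mul_assoc, h2 g hg, ← mul_assoc, mul_assoc u.val, hX.eq g hg, ← mul_assoc, h1 _ (hθ g hg)]
  simp only [mul_assoc]

theorem tca_unique {ℓ : ℕ} (hC : IbcStmt) (hF : GoodF ℓ F) {φ : P → F} {α β : MulAut G}
    {c : G} (hc : c ∈ P) (hα : ∀ g : G, α g ∈ P ↔ g ∈ P) (hβ : ∀ g : G, β g ∈ P ↔ g ∈ P) {z w : F}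
    (h1 : IsTCa P φ α β c z) (h2 : IsTCa P φ α β c w) : z = w := by
  obtain ⟨n, ρ, X, Y, hρ, htr, hX, hY, hX', hY', he⟩ := h1
  obtain ⟨m, σ, X2, Y2, hσ, htr2, hX2, hY2, hX2', hY2', he2⟩ := h2
  obtain ⟨Q, Q', hn, hQ1, hQ2, hQ3⟩ := hC ℓ F hF P m n σ ρ hσ hρ (htr2.trans htr.symm)
  subst hn
  let u : (Matrix (Fin m) (Fin m) F)ˣ := ⟨Q, Q', hQ1, hQ2⟩
  have hu : ∀ g, (u : Matrix (Fin m) (Fin m) F) * σ g = ρ g * u := hQ3
  have jX := im_conj u hu (fun g hg => (hα g).2 hg) (⟨hX2, hX2'⟩ : Im σ α X2)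
  have jY := im_conj u hu (fun g hg => (hβ g).2 hg) (⟨hY2, hY2'⟩ : Im σ β Y2)
  obtain ⟨r, hr, hrX⟩ := Im.uniq hρ ⟨hX, hX'⟩ jX
  obtain ⟨s, hs, hsY⟩ := Im.uniq hρ ⟨hY, hY'⟩ jY
  have huc : u.val * ro σ c = ro ρ c * u.val := by
    rw [ro_mem σ hc, ro_mem ρ hc]
    exact hu _
  have e1 : (u.val * X2 * (u⁻¹).val) * (u.val * Y2 * (u⁻¹).val) = u.val * (X2 * Y2) * (u⁻¹).val := by
    simp only [mul_assoc, Units.inv_mul_cancel_left]
  have e2 : u.val * (ro σ c * Y2 * X2) * (u⁻¹).val =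
      ro ρ c * (u.val * Y2 * (u⁻¹).val) * (u.val * X2 * (u⁻¹).val) := by
    simp only [mul_assoc, Units.inv_mul_cancel_left]
    rw [← mul_assoc u.val, huc]
    simp only [mul_assoc]
  have e3 : (r • X) * (s • Y) = w • (ro ρ c * (s • Y) * (r • X)) := by
    rw [← hrX, ← hsY, e1, he2, ← e2, Matrix.mul_smul, Matrix.smul_mul]
  have e4 : (r * s) • (X * Y) = (r * s) • (w • (ro ρ c * Y * X)) := by
    have l1 : (r • X) * (s • Y) = (r * s) • (X * Y) := by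
      rw [Matrix.smul_mul, Matrix.mul_smul, smul_smul]
    have l2 : w • (ro ρ c * (s • Y) * (r • X)) = (r * s) • (w • (ro ρ c * Y * X)) := by
      rw [Matrix.mul_smul, Matrix.mul_smul, Matrix.smul_mul, smul_smul, smul_smul, smul_smul]
      congr 1
      ring
    rw [← l1, ← l2, e3]
  have hrs : r * s ≠ 0 := mul_ne_zero hr hs
  have e5 : X * Y = w • (ro ρ c * Y * X) := smul_right_injective _ hrs e4
  rw [he] at e5
  have h6 : (z - w) • (ro ρ c * Y * X) = 0 := by rw [sub_smul, e5, sub_self]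
  rcases smul_eq_zero.1 h6 with h7 | h7
  · exact sub_eq_zero.1 h7
  · have h8 : IsUnit (ro ρ c * Y * X) := ((unit_ro ρ hc).mul hY).mul hX
    rw [h7] at h8
    have : Nonempty (Fin m) := ⟨⟨0, hρ.1⟩⟩
    exact absurd h8 not_isUnit_zero

theorem tcu (hC : IbcStmt) : TcuStmt := by
  intro ℓ F _ hF G _ _ P φ hφ α β c hc hα hβ hk hfα hfβ
  obtain ⟨n, ρ, hρ, rfl⟩ := hφ
  obtain ⟨X, hX⟩ := exists_im hC hF hρ α hα hfα
  obtain ⟨Y, hY⟩ := exists_im hC hF hρ β hβ hfβ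
  obtain ⟨z, hz, he⟩ := exists_scalar hρ hc hα hβ hk hX hY
  have h0 : IsTCa P (tr ρ) α β c z :=
    ⟨n, ρ, X, Y, hρ, rfl, hX.unit, hY.unit, hX.eq, hY.eq, he⟩
  have h1 : ∃ z, IsTCa P (tr ρ) α β c z := ⟨z, h0⟩
  have h2 : tca P (tr ρ) α β c = h1.choose := by rw [tca, dif_pos h1]
  have h3 : IsTCa P (tr ρ) α β c (tca P (tr ρ) α β c) := by
    rw [h2]
    exact h1.choose_spec
  refine ⟨?_, h3, fun d hd => tca_unique hC hF hc hα hβ hd h3⟩
  rw [tca_unique hC hF hc hα hβ h3 h0]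
  exact hz

end Pool.Agent.PP.X1.H14
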