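import Pool.Agent.Helper12_AWB.B100

/-! Copy (generated) of the module `Pool.Agent.Helper17_X2.S1m` with import lines for the bundle Helper12_AWB. -/

/-!
# X2, module S1M: nilpotent outer part
-/

open scoped BigOperators

noncomputable section

namespace Pool.Agent.PP.X2.H17

open Pool.Agent.Helper51_AWC Pool.Agent.Helper79_WRA Pool.Agent.PP

theorem nearly_of_equiv {D S S' : Type} [Group D] [Group S] [Group S'] (i : S ≃* S')
    (h : NearlySimple D S) : NearlySimple D S' := by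
  obtain ⟨T, h1, h2, ⟨j⟩, h4⟩ := h
  exact ⟨T, h1, h2, ⟨j.trans i⟩, h4⟩

/-- S1M -/
theorem s1m (hnx : S1nxStmt) (henc : EncStmt) (hhyt : HytStmt) : S1mStmt := by
  intro ℓ _ F _ hF 𝒜 hcl S _ _ hS hdvd hA G _ _ N hN hO hiso hnil hH hY
  obtain ⟨iso⟩ := hiso
  refine hnx ℓ F hF G N hN hO ?_ hnil ?_
  · obtain ⟨h1, a, b, hab⟩ := hS
    refine ⟨iso.isSimpleGroup, iso.symm a, iso.symm b, ?_⟩
    intro h
    apply hab
    have h2 := congrArg iso h
    simpa using h2
  · intro E _ _ p K _ hp M hM hO' hns hcen hdvd' hle hmu f hf hz hpos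
    have hHE := (hhyt ℓ F 𝒜 G hH).1 E p (fun x hx => hp x hx)
    have hHD := (hhyt ℓ F 𝒜 E hHE).2.1 (E ⧸ K) (QuotientGroup.mk' K)
      (QuotientGroup.mk'_surjective K)
    have hmu' : mu N = Nat.card S := by
      rw [← Nat.card_congr iso.toEquiv]
      rfl
    exact henc ℓ F hF 𝒜 hcl S hS hdvd hA (E ⧸ K) M hM hO' (nearly_of_equiv iso hns) hcen hdvd' hle
      (hmu.trans hmu') hHD (hmu ▸ hY) f hf hz hpos

end Pool.Agent.PP.X2.H17
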