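import Pool.Agent.Helper12_AWB.B100
import Pool.Agent.Helper36_PP.Classes

/-! Copy (generated) of the module `Pool.Agent.Helper18_X1.Rol` with import lines for the bundle Helper12_AWB. -/

/-!
# Groups of rank one have a root group datum
-/

set_option autoImplicit false

open scoped BigOperators

noncomputable section

namespace Pool.Agent.PP.X1.H18

open Pool.Agent.PP.X1 Pool.Agent.PP

/-- the data of a group of rank one, internal form -/
structure RoD (ℓ : ℕ) {S : Type} [Group S] (U V T : Subgroup S) (n : S) : Prop where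
  ne : U ≠ ⊥
  pU : IsPGroup ℓ U
  cop : ¬ ℓ ∣ Nat.card T
  TU : ∀ t ∈ T, U.map (MulAut.conj t).toMonoidHom = U
  nU : U.map (MulAut.conj n).toMonoidHom = V
  nV : V.map (MulAut.conj n).toMonoidHom = U
  nT : ∀ t ∈ T, n * t * n⁻¹ ∈ T
  nn : n * n ∈ T
  nm : n ∈ U ⊔ V
  cell : ∀ x ∈ U, x ≠ 1 → ∃ y ∈ U, ∃ z ∈ U, ∃ t ∈ T, n * x * n⁻¹ = y * (n * t) * z
  opp : U ⊓ (T ⊔ V) = ⊥
  gen : T ⊔ (U ⊔ V) = ⊤

/-- the basis vector -/
def ee : EuclideanSpace ℝ (Fin 1) := EuclideanSpace.single 0 1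

theorem ee_ne : ee ≠ 0 := by
  intro h
  have := congrArg (fun v : EuclideanSpace ℝ (Fin 1) => v 0) h
  simp [ee] at this

theorem ee_inj {c d : ℝ} (h : c • ee = d • ee) : c = d := smul_left_injective ℝ ee_ne h

/-- the root groups -/
def XX {S : Type} [Group S] (U V : Subgroup S) (v : EuclideanSpace ℝ (Fin 1)) : Subgroup S :=
  (⨆ j ∈ {j : ℕ | v = (2 ^ j : ℝ) • ee}, U.lowerCentralSeries j) ⊔
    ⨆ j ∈ {j : ℕ | v = -((2 ^ j : ℝ) • ee)}, V.lowerCentralSeries j

theorem XX_pos {S : Type} [Group S] (U V : Subgroup S) (j : ℕ) :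
    XX U V ((2 ^ j : ℝ) • ee) = U.lowerCentralSeries j := by
  apply le_antisymm
  · apply sup_le
    · apply iSup₂_le
      intro i hi
      have h1 : (2 ^ j : ℝ) = 2 ^ i := ee_inj hi
      have h2 : j = i := pow_right_injective₀ (by norm_num) (by norm_num) h1
      rw [h2]
    · apply iSup₂_le
      intro i hi
      exfalso
      have h0 : (2 ^ j : ℝ) • ee = -((2 ^ i : ℝ) • ee) := hi
      rw [← neg_smul] at h0
      have h1 := ee_inj h0
      have h2 : (0 : ℝ) < 2 ^ j := by positivity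
      have h3 : (0 : ℝ) < 2 ^ i := by positivity
      linarith
  · refine le_trans ?_ le_sup_left
    exact le_iSup₂_of_le j rfl le_rfl

theorem XX_neg {S : Type} [Group S] (U V : Subgroup S) (j : ℕ) :
    XX U V (-((2 ^ j : ℝ) • ee)) = V.lowerCentralSeries j := by
  apply le_antisymm
  · apply sup_le
    · apply iSup₂_le
      intro i hi
      exfalso
      have h0 : -((2 ^ j : ℝ) • ee) = (2 ^ i : ℝ) • ee := hi
      rw [← neg_smul] at h0
      have h1 := ee_inj h0
      have h2 : (0 : ℝ) < 2 ^ j := by positivity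
      have h3 : (0 : ℝ) < 2 ^ i := by positivity
      linarith
    · apply iSup₂_le
      intro i hi
      have h0 : -((2 ^ j : ℝ) • ee) = -((2 ^ i : ℝ) • ee) := hi
      have h1 : (2 ^ j : ℝ) = 2 ^ i := ee_inj (neg_injective h0)
      have h2 : j = i := pow_right_injective₀ (by norm_num) (by norm_num) h1
      rw [h2]
  · refine le_trans ?_ le_sup_right
    exact le_iSup₂_of_le j rfl le_rfl

/-- the roots -/
def PH (k : ℕ) : Set (EuclideanSpace ℝ (Fin 1)) :=
  {v | ∃ j < k, v = (2 ^ j : ℝ) • ee ∨ v = -((2 ^ j : ℝ) • ee)}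

theorem rf_ee (c : ℝ) : rf ee (c • ee) = -(c • ee) := by
  rw [rf_smul, rf_self _ ee_ne, smul_neg]

theorem rf_ee' (c : ℝ) : rf ee (-(c • ee)) = c • ee := by
  rw [rf_neg, rf_ee, neg_neg]

theorem nn_ee {c : ℝ} (hc : 0 ≤ c) : Nn (fun _ : Fin 1 => ee) (c • ee) :=
  ⟨fun _ => c, fun _ => hc, by simp⟩

theorem conj_lcs {S : Type} [Group S] {U V : Subgroup S} {g : S}
    (h : U.map (MulAut.conj g).toMonoidHom = V) (j : ℕ) {x : S}
    (hx : x ∈ U.lowerCentralSeries j) : g * x * g⁻¹ ∈ V.lowerCentralSeries j := by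
  rw [← h, ← Subgroup.map_lowerCentralSeries]
  exact ⟨x, hx, rfl⟩

theorem datum {ℓ : ℕ} {S : Type} [Group S] [Finite S] [hℓ : Fact ℓ.Prime] {U V T : Subgroup S}
    {n : S} (h : RoD ℓ U V T n) : LieType ℓ S := by
  -- the series end
  have hVp : IsPGroup ℓ V := by
    rw [← h.nU]
    exact h.pU.map _
  obtain ⟨k₁, hk₁⟩ : ∃ k, U.lowerCentralSeries k = ⊥ := by
    rw [← Subgroup.isNilpotent_iff_lowerCentralSeries]
    exact h.pU.isNilpotent
  obtain ⟨k₂, hk₂⟩ : ∃ k, V.lowerCentralSeries k = ⊥ := by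
    rw [← Subgroup.isNilpotent_iff_lowerCentralSeries]
    exact hVp.isNilpotent
  set k : ℕ := k₁ + k₂ + 1 with hk
  have hUk : ∀ j, k ≤ j → U.lowerCentralSeries j = ⊥ := by
    intro j hj
    rw [eq_bot_iff, ← hk₁]
    exact U.lowerCentralSeries_antitone (by omega)
  have hVk : ∀ j, k ≤ j → V.lowerCentralSeries j = ⊥ := by
    intro j hj
    rw [eq_bot_iff, ← hk₂]
    exact V.lowerCentralSeries_antitone (by omega)
  have hTV : ∀ t ∈ T, V.map (MulAut.conj t).toMonoidHom = V := by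
    intro t ht
    have h1 : n⁻¹ * t * n ∈ T := by
      have h2 := h.nT t ht
      have h3 := T.mul_mem (T.mul_mem (T.inv_mem h.nn) h2) h.nn
      have h4 : (n * n)⁻¹ * (n * t * n⁻¹) * (n * n) = n⁻¹ * t * n := by group
      rwa [h4] at h3
    have h5 := h.TU _ h1
    rw [← h.nU, Subgroup.map_map]
    have h6 : (MulAut.conj t).toMonoidHom.comp (MulAut.conj n).toMonoidHom =
        (MulAut.conj n).toMonoidHom.comp (MulAut.conj (n⁻¹ * t * n)).toMonoidHom := by
      ext x
      show t * (n * x * n⁻¹) * t⁻¹ = n * (n⁻¹ * t * n * x * (n⁻¹ * t * n)⁻¹) * n⁻¹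
      group
    rw [h6, ← Subgroup.map_map, h5]
  have hposle : (⨆ b ∈ {b ∈ PH k | Nn (fun _ : Fin 1 => ee) b}, XX U V b) ≤ U := by
    apply iSup₂_le
    rintro b ⟨⟨j, hj, rfl | rfl⟩, hb⟩
    · rw [XX_pos]
      exact U.lowerCentralSeries_le_self j
    · exfalso
      obtain ⟨c, hc, h1⟩ := hb
      rw [← neg_smul] at h1
      simp only [Finset.univ_unique, Fin.default_eq_zero, Finset.sum_singleton] at h1
      have h2 := ee_inj h1
      have h3 : (0 : ℝ) < 2 ^ j := by positivity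
      have h4 := hc 0
      linarith
  have hnegle : (⨆ b ∈ {b ∈ PH k | Nn (fun _ : Fin 1 => ee) (-b)}, XX U V b) ≤ V := by
    apply iSup₂_le
    rintro b ⟨⟨j, hj, rfl | rfl⟩, hb⟩
    · exfalso
      obtain ⟨c, hc, h1⟩ := hb
      rw [← neg_smul] at h1
      simp only [Finset.univ_unique, Fin.default_eq_zero, Finset.sum_singleton] at h1
      have h2 := ee_inj h1
      have h3 : (0 : ℝ) < 2 ^ j := by positivity
      have h4 := hc 0
      linarith
    · rw [XX_neg]
      exact V.lowerCentralSeries_le_self j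
  have hk0 : 0 < k := by omega
  have hone : ee = (2 ^ 0 : ℝ) • ee := by rw [pow_zero, one_smul]
  have hU : XX U V ee = U := by
    have h1 := XX_pos U V 0
    rw [← hone, Subgroup.lowerCentralSeries_zero] at h1
    exact h1
  have hV : XX U V (-ee) = V := by
    have h1 := XX_neg U V 0
    rw [← hone, Subgroup.lowerCentralSeries_zero] at h1
    exact h1
  have hmem : ee ∈ PH k := ⟨0, hk0, Or.inl hone⟩
  have hmem' : -ee ∈ PH k := ⟨0, hk0, Or.inr (by rw [← hone])⟩
  refine ⟨{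
    m := 1
    r := 1
    a := fun _ => ee
    Φ := PH k
    X := XX U V
    T := T
    n := fun _ => n
    fin := ?_
    base := ?_
    mem := fun _ => hmem
    ne0 := ?_
    sgn := ?_
    refl := ?_
    short := ?_
    pgrp := ?_
    nt := fun _ => by rw [hU]; exact h.ne
    nest := ?_
    cop := h.cop
    tX := ?_
    nX := ?_
    nT := fun _ => h.nT
    nn := fun _ => h.nn
    nmem := fun _ => by rw [hU, hV]; exact h.nm
    comm := ?_
    cell := ?_
    opp := ?_
    gen := ?_ }⟩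
  · have h1 : PH k ⊆ (fun j : ℕ => (2 ^ j : ℝ) • ee) '' Set.Iio k ∪
        (fun j : ℕ => -((2 ^ j : ℝ) • ee)) '' Set.Iio k := by
      rintro v ⟨j, hj, rfl | rfl⟩
      · exact Or.inl ⟨j, hj, rfl⟩
      · exact Or.inr ⟨j, hj, rfl⟩
    exact (((Set.finite_Iio k).image _).union ((Set.finite_Iio k).image _)).subset h1
  · rw [Fintype.linearIndependent_iff]
    intro g hg i
    simp only [Finset.univ_unique, Fin.default_eq_zero, Finset.sum_singleton] at hg
    rcases smul_eq_zero.mp hg with h1 | h1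
    · rw [Subsingleton.elim i 0]
      exact h1
    · exact absurd h1 ee_ne
  · rintro b ⟨j, hj, rfl | rfl⟩ h1
    · rcases smul_eq_zero.mp h1 with h2 | h2
      · exact absurd h2 (by positivity)
      · exact ee_ne h2
    · rw [neg_eq_zero] at h1
      rcases smul_eq_zero.mp h1 with h2 | h2
      · exact absurd h2 (by positivity)
      · exact ee_ne h2
  · rintro b ⟨j, hj, rfl | rfl⟩
    · exact Or.inl (nn_ee (by positivity))
    · right
      rw [neg_neg]
      exact nn_ee (by positivity)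
  · rintro _ b ⟨j, hj, rfl | rfl⟩
    · exact ⟨j, hj, Or.inr (rf_ee _)⟩
    · exact ⟨j, hj, Or.inl (rf_ee' _)⟩
  · rintro _ c hc ⟨j, hj, h1 | h1⟩
    · rw [ee_inj h1]
      exact one_le_pow₀ (by norm_num)
    · exfalso
      rw [← neg_smul] at h1
      have h2 := ee_inj h1
      have h3 : (0 : ℝ) < 2 ^ j := by positivity
      linarith
  · rintro b ⟨j, hj, rfl | rfl⟩
    · rw [XX_pos]
      exact h.pU.to_le (U.lowerCentralSeries_le_self j)
    · rw [XX_neg]
      exact hVp.to_le (V.lowerCentralSeries_le_self j)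
  · rintro b ⟨i, hi, rfl | rfl⟩ c hc ⟨j, hj, h1 | h1⟩
    · rw [h1, XX_pos, XX_pos]
      apply U.lowerCentralSeries_antitone
      rw [smul_smul] at h1
      have h2 := ee_inj h1
      have h3 : (2 : ℝ) ^ i ≤ 2 ^ j := by
        rw [← h2]
        have : (0 : ℝ) < 2 ^ i := by positivity
        nlinarith
      exact (pow_le_pow_iff_right₀ (by norm_num)).mp h3
    · exfalso
      rw [smul_smul, ← neg_smul] at h1
      have h2 := ee_inj h1
      have h3 : (0 : ℝ) < 2 ^ i := by positivity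
      have h4 : (0 : ℝ) < 2 ^ j := by positivity
      nlinarith
    · exfalso
      rw [← neg_smul, smul_smul] at h1
      have h2 := ee_inj h1
      have h3 : (0 : ℝ) < 2 ^ i := by positivity
      have h4 : (0 : ℝ) < 2 ^ j := by positivity
      nlinarith
    · rw [h1, XX_neg, XX_neg]
      apply V.lowerCentralSeries_antitone
      rw [smul_neg, smul_smul] at h1
      have h2 := ee_inj (neg_injective h1)
      have h3 : (2 : ℝ) ^ i ≤ 2 ^ j := by
        rw [← h2]
        have : (0 : ℝ) < 2 ^ i := by positivity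
        nlinarith
      exact (pow_le_pow_iff_right₀ (by norm_num)).mp h3
  · rintro t ht b ⟨j, hj, rfl | rfl⟩ x hx
    · rw [XX_pos] at hx ⊢
      exact conj_lcs (h.TU t ht) j hx
    · rw [XX_neg] at hx ⊢
      exact conj_lcs (hTV t ht) j hx
  · rintro _ b ⟨j, hj, rfl | rfl⟩ x hx
    · rw [rf_ee, XX_neg]
      rw [XX_pos] at hx
      exact conj_lcs h.nU j hx
    · rw [rf_ee', XX_pos]
      rw [XX_neg] at hx
      exact conj_lcs h.nV j hx
  · -- the commutator relations
    have key : ∀ (W : Subgroup S) (i j : ℕ), ∀ x ∈ W.lowerCentralSeries i,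
        ∀ y ∈ W.lowerCentralSeries j, x * y * x⁻¹ * y⁻¹ ∈ W.lowerCentralSeries (max i j + 1) := by
      intro W i j x hx y hy
      rw [Subgroup.lowerCentralSeries_succ]
      rcases le_total i j with hij | hij
      · rw [max_eq_right hij, Subgroup.commutator_comm]
        exact Subgroup.commutator_mem_commutator (W.lowerCentralSeries_le_self i hx) hy
      · rw [max_eq_left hij]
        exact Subgroup.commutator_mem_commutator hx (W.lowerCentralSeries_le_self j hy)
    have hd : ∀ i j : ℕ, ∃ p q : ℝ, 1 ≤ p ∧ 1 ≤ q ∧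
        (2 ^ (max i j + 1) : ℝ) = p * 2 ^ i + q * 2 ^ j := by
      intro i j
      rcases le_total i j with hij | hij
      · refine ⟨2 ^ (j - i), 1, one_le_pow₀ (by norm_num), le_rfl, ?_⟩
        rw [max_eq_right hij, ← pow_add, Nat.sub_add_cancel hij]
        ring
      · refine ⟨1, 2 ^ (i - j), le_rfl, one_le_pow₀ (by norm_num), ?_⟩
        rw [max_eq_left hij, ← pow_add, Nat.sub_add_cancel hij]
        ring
    rintro b ⟨i, hi, rfl | rfl⟩ c ⟨j, hj, rfl | rfl⟩ hbc x hx y hy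
    · rw [XX_pos] at hx hy
      have h1 := key U i j x hx y hy
      by_cases hm : max i j + 1 < k
      · obtain ⟨p, q, hp, hq, hpq⟩ := hd i j
        refine (le_iSup₂_of_le (f := fun d (_ : d ∈ {d ∈ PH k | ∃ p q : ℝ, 1 ≤ p ∧ 1 ≤ q ∧
          d = p • (2 ^ i : ℝ) • ee + q • (2 ^ j : ℝ) • ee}) => XX U V d)
          ((2 ^ (max i j + 1) : ℝ) • ee) ?_ le_rfl) ?_
        · refine ⟨⟨_, hm, Or.inl rfl⟩, p, q, hp, hq, ?_⟩
          rw [smul_smul, smul_smul, ← add_smul, hpq]
        · rw [XX_pos]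
          exact h1
      · rw [hUk _ (by omega), Subgroup.mem_bot] at h1
        rw [h1]
        exact Subgroup.one_mem _
    · exfalso
      refine hbc (2 ^ j / 2 ^ i) (by positivity) ?_
      rw [smul_smul, div_mul_cancel₀ _ (by positivity)]
    · exfalso
      refine hbc (2 ^ j / 2 ^ i) (by positivity) ?_
      rw [smul_neg, neg_neg, smul_smul, div_mul_cancel₀ _ (by positivity)]
    · rw [XX_neg] at hx hy
      have h1 := key V i j x hx y hy
      by_cases hm : max i j + 1 < k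
      · obtain ⟨p, q, hp, hq, hpq⟩ := hd i j
        refine (le_iSup₂_of_le (f := fun d (_ : d ∈ {d ∈ PH k | ∃ p q : ℝ, 1 ≤ p ∧ 1 ≤ q ∧
          d = p • -((2 ^ i : ℝ) • ee) + q • -((2 ^ j : ℝ) • ee)}) => XX U V d)
          (-((2 ^ (max i j + 1) : ℝ) • ee)) ?_ le_rfl) ?_
        · refine ⟨⟨_, hm, Or.inr rfl⟩, p, q, hp, hq, ?_⟩
          rw [smul_neg, smul_neg, smul_smul, smul_smul, ← neg_add, ← add_smul, hpq]
        · rw [XX_neg]
          exact h1
      · rw [hVk _ (by omega), Subgroup.mem_bot] at h1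
        rw [h1]
        exact Subgroup.one_mem _
  · intro _ x hx hx1
    rw [hU] at hx
    obtain ⟨y, hy, z, hz, t, ht, h1⟩ := h.cell x hx hx1
    refine ⟨y, ?_, z, ?_, t, ht, h1⟩
    · rw [hU]
      exact hy
    · rw [hU]
      exact hz
  · rw [eq_bot_iff, ← h.opp]
    exact inf_le_inf hposle (sup_le_sup_left hnegle T)
  · rw [eq_top_iff, ← h.gen]
    refine sup_le_sup_left (sup_le ?_ ?_) T
    · exact le_iSup₂_of_le ee hmem hU.ge
    · exact le_iSup₂_of_le (-ee) hmem' hV.ge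

/-- the groups of rank one have the internal data -/
theorem rod {ℓ : ℕ} {S : Type} [Group S] [Finite S] (h : RankOne ℓ S)
    (hab : ∃ a b : S, a * b ≠ b * a) : ∃ (U V T : Subgroup S) (n : S), RoD ℓ U V T n := by
  obtain ⟨Ω, hΩ, act, o, p, U, hfaith, hop, ⟨s, hso, hsp⟩, hUp, hUo, hUreg, hUtr, hUn, -, hT⟩ := h
  set T : Subgroup S := MulAction.stabilizer S o ⊓ MulAction.stabilizer S p with hTdef
  have hTo : ∀ t ∈ T, t • o = o := fun t ht => ht.1
  have hTp : ∀ t ∈ T, t • p = p := fun t ht => ht.2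
  have hmemT : ∀ t : S, t • o = o → t • p = p → t ∈ T := fun t h1 h2 => ⟨h1, h2⟩
  -- `U ≠ 1`
  have hne : U ≠ ⊥ := by
    intro hU
    have hpt : ∀ x : Ω, x = o ∨ x = p := by
      intro x
      by_cases hx : x = o
      · exact Or.inl hx
      · right
        obtain ⟨u, hu, hux⟩ := hUtr x hx
        rw [hU, Subgroup.mem_bot] at hu
        rw [← hux, hu, one_smul]
    have htwo : ∀ g : S, g = 1 ∨ (g • o = p ∧ g • p = o) := by
      intro g
      rcases hpt (g • o) with h1 | h1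
      · left
        apply hfaith
        intro x
        rcases hpt x with rfl | rfl
        · exact h1
        · rcases hpt (g • x) with h2 | h2
          · exfalso
            rw [← h1] at h2
            exact hop (MulAction.injective g h2).symm
          · exact h2
      · right
        refine ⟨h1, ?_⟩
        rcases hpt (g • p) with h2 | h2
        · exact h2
        · exfalso
          exact hop (MulAction.injective g (h1.trans h2.symm))
    obtain ⟨a, b, hab⟩ := hab
    apply hab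
    rcases htwo a with rfl | ⟨ha1, ha2⟩
    · rw [one_mul, mul_one]
    rcases htwo b with rfl | ⟨hb1, hb2⟩
    · rw [one_mul, mul_one]
    have h1 : (b * a)⁻¹ * (a * b) = 1 := by
      apply hfaith
      intro x
      rw [mul_smul, inv_smul_eq_iff, mul_smul, mul_smul]
      rcases hpt x with rfl | rfl
      · rw [hb1, ha2, ha1, hb2]
      · rw [hb2, ha1, ha2, hb1]
    rw [inv_mul_eq_one] at h1
    exact h1.symm
  -- decomposition of the stabiliser
  have hdec : ∀ g : S, g • o = o → ∃ u ∈ U, ∃ t ∈ T, g = u * t := by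
    intro g hg
    have h1 : g • p ≠ o := by
      intro h2
      rw [← hg] at h2
      exact hop (MulAction.injective g h2).symm
    obtain ⟨u, hu, hup⟩ := hUtr _ h1
    refine ⟨u, hu, u⁻¹ * g, hmemT _ ?_ ?_, by group⟩
    · rw [mul_smul, hg, inv_smul_eq_iff, hUo u hu]
    · rw [mul_smul, inv_smul_eq_iff, hup]
  have hTU' : ∀ t ∈ T, ∀ u ∈ U, t * u * t⁻¹ ∈ U := fun t ht u hu => hUn t (hTo t ht) u hu
  have hTU : ∀ t ∈ T, U.map (MulAut.conj t).toMonoidHom = U := by
    intro t ht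
    apply le_antisymm
    · rintro _ ⟨u, hu, rfl⟩
      exact hTU' t ht u hu
    · intro u hu
      refine ⟨t⁻¹ * u * t, ?_, ?_⟩
      · have := hTU' t⁻¹ (T.inv_mem ht) u hu
        rwa [inv_inv] at this
      · show t * (t⁻¹ * u * t) * t⁻¹ = u
        group
  -- the opposite group
  let V₀ : Subgroup S := U.map (MulAut.conj s).toMonoidHom
  have hV₀ : ∀ v, v ∈ V₀ ↔ s⁻¹ * v * s ∈ U := by
    intro v
    constructor
    · rintro ⟨u, hu, rfl⟩
      show s⁻¹ * (s * u * s⁻¹) * s ∈ U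
      have : s⁻¹ * (s * u * s⁻¹) * s = u := by group
      rwa [this]
    · intro hv
      refine ⟨_, hv, ?_⟩
      show s * (s⁻¹ * v * s) * s⁻¹ = v
      group
  have hso' : s⁻¹ • p = o := by rw [inv_smul_eq_iff, hso]
  have hsp' : s⁻¹ • o = p := by rw [inv_smul_eq_iff, hsp]
  have hV₀p : ∀ v ∈ V₀, v • p = p := by
    intro v hv
    have h1 := hUo _ ((hV₀ v).mp hv)
    rw [mul_smul, mul_smul, inv_smul_eq_iff, hso] at h1
    exact h1
  have hV₀tr : ∀ x : Ω, x ≠ p → ∃ v ∈ V₀, v • x = o := by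
    intro x hx
    have h1 : s⁻¹ • x ≠ o := by
      intro h2
      apply hx
      rw [inv_smul_eq_iff, hso] at h2
      exact h2
    obtain ⟨u, hu, hux⟩ := hUtr _ h1
    refine ⟨s * u⁻¹ * s⁻¹, ⟨u⁻¹, U.inv_mem hu, rfl⟩, ?_⟩
    rw [mul_smul, mul_smul, ← hux, inv_smul_smul, hsp]
  obtain ⟨n, hnm, hno, hnp⟩ : ∃ n ∈ U ⊔ V₀, n • o = p ∧ n • p = o := by
    obtain ⟨⟨u, hu⟩, hu1⟩ := Subgroup.ne_bot_iff_exists_ne_one.mp hne
    have hup : u • p ≠ p := by
      intro h1
      exact hu1 (Subtype.ext (hUreg _ hu h1))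
    obtain ⟨v, hv, hvo⟩ := hV₀tr _ hup
    have hvo' : v • o ≠ o := by
      intro h1
      rw [← h1] at hvo
      have h2 := MulAction.injective v hvo
      have h3 : u • p = u • o := by rw [h2, hUo _ hu]
      exact hop (MulAction.injective u h3).symm
    obtain ⟨u', hu', hu'p⟩ := hUtr _ hvo'
    refine ⟨u'⁻¹ * v * u, ?_, ?_, ?_⟩
    · exact Subgroup.mul_mem _ (Subgroup.mul_mem _ (Subgroup.mem_sup_left (U.inv_mem hu'))
        (Subgroup.mem_sup_right hv)) (Subgroup.mem_sup_left hu)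
    · rw [mul_smul, mul_smul, hUo _ hu, ← hu'p, inv_smul_smul]
    · rw [mul_smul, mul_smul, hvo, inv_smul_eq_iff, hUo _ hu']
  have hno' : n⁻¹ • p = o := by rw [inv_smul_eq_iff, hno]
  have hnp' : n⁻¹ • o = p := by rw [inv_smul_eq_iff, hnp]
  have hnn : n * n ∈ T := hmemT _ (by rw [mul_smul, hno, hnp]) (by rw [mul_smul, hnp, hno])
  have hst : s⁻¹ * n ∈ T := hmemT _ (by rw [mul_smul, hno, hso']) (by rw [mul_smul, hnp, hsp'])
  have hnU : U.map (MulAut.conj n).toMonoidHom = V₀ := by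
    have h1 : (MulAut.conj n).toMonoidHom =
        (MulAut.conj s).toMonoidHom.comp (MulAut.conj (s⁻¹ * n)).toMonoidHom := by
      ext x
      show n * x * n⁻¹ = s * (s⁻¹ * n * x * (s⁻¹ * n)⁻¹) * s⁻¹
      group
    rw [h1, ← Subgroup.map_map, hTU _ hst]
  have hnV : V₀.map (MulAut.conj n).toMonoidHom = U := by
    rw [← hnU, Subgroup.map_map]
    have h1 : (MulAut.conj n).toMonoidHom.comp (MulAut.conj n).toMonoidHom =
        (MulAut.conj (n * n)).toMonoidHom := by
      ext x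
      show n * (n * x * n⁻¹) * n⁻¹ = n * n * x * (n * n)⁻¹
      group
    rw [h1, hTU _ hnn]
  have hnT : ∀ t ∈ T, n * t * n⁻¹ ∈ T := by
    intro t ht
    apply hmemT
    · rw [mul_smul, mul_smul, hnp', hTp t ht, hnp]
    · rw [mul_smul, mul_smul, hno', hTo t ht, hno]
  -- the big cell
  have hbig : ∀ g : S, g • o ≠ o → ∃ y ∈ U, ∃ z ∈ U, ∃ t ∈ T, g = y * (n * t) * z := by
    intro g hg
    obtain ⟨y, hy, hyg⟩ := hUtr _ hg
    have h1 : (n⁻¹ * y⁻¹ * g) • o = o := by
      rw [mul_smul, mul_smul, ← hyg, inv_smul_smul, hno']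
    obtain ⟨u, hu, t, ht, hut⟩ := hdec _ h1
    refine ⟨y, hy, t⁻¹ * u * t, ?_, t, ht, ?_⟩
    · have := hTU' t⁻¹ (T.inv_mem ht) u hu
      rwa [inv_inv] at this
    · have h2 : g = y * n * (n⁻¹ * y⁻¹ * g) := by group
      rw [h2, hut]
      group
  refine ⟨U, V₀, T, n, ⟨hne, hUp, hT, hTU, hnU, hnV, hnT, hnn, hnm, ?_, ?_, ?_⟩⟩
  · intro x hx hx1
    apply hbig
    intro h1
    rw [mul_smul, mul_smul, hnp'] at h1
    rw [← hnp] at h1
    exact hx1 (hUreg x hx (MulAction.injective n h1))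
  · rw [eq_bot_iff]
    rintro x ⟨hx1, hx2⟩
    rw [Subgroup.mem_bot]
    apply hUreg x hx1
    have h1 : T ⊔ V₀ ≤ MulAction.stabilizer S p := sup_le (fun t ht => hTp t ht)
      (fun v hv => hV₀p v hv)
    exact h1 hx2
  · rw [eq_top_iff]
    intro g _
    have hUm : ∀ u ∈ U, u ∈ T ⊔ (U ⊔ V₀) := fun u hu =>
      Subgroup.mem_sup_right (Subgroup.mem_sup_left hu)
    have hTm : ∀ t ∈ T, t ∈ T ⊔ (U ⊔ V₀) := fun t ht => Subgroup.mem_sup_left ht
    by_cases hg : g • o = o
    · obtain ⟨u, hu, t, ht, rfl⟩ := hdec g hg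
      exact Subgroup.mul_mem _ (hUm u hu) (hTm t ht)
    · obtain ⟨y, hy, z, hz, t, ht, rfl⟩ := hbig g hg
      exact Subgroup.mul_mem _ (Subgroup.mul_mem _ (hUm y hy)
        (Subgroup.mul_mem _ (Subgroup.mem_sup_right hnm) (hTm t ht))) (hUm z hz)

/-- ROL: the nonabelian groups of rank one have a root group datum -/
theorem rol {ℓ : ℕ} [Fact ℓ.Prime] {S : Type} [Group S] [Finite S] (h : RankOne ℓ S)
    (hab : ∃ a b : S, a * b ≠ b * a) : LieType ℓ S := by
  obtain ⟨U, V, T, n, h1⟩ := rod h hab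
  exact datum h1

end Pool.Agent.PP.X1.H18
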