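import Pool.Agent.Helper12_AWB.B100

/-! Copy (generated) of the module `Pool.Agent.Helper18_X1.Upg` with import lines for the bundle Helper12_AWB. -/

/-!
# Squad X1, module UPG
-/

set_option autoImplicit false

open scoped BigOperators

noncomputable section

namespace Pool.Agent.PP.X1.H18

open Pool.Agent.PP.X1 RGD

/-- a linear functional with value `1` on the simple roots -/
theorem exists_height {ℓ : ℕ} {G : Type} [Group G] (R : RGD ℓ G) :
    ∃ h : R.E →ₗ[ℝ] ℝ, ∀ i, h (R.a i) = 1 := by
  obtain ⟨g, hg⟩ := LinearMap.exists_extend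
    ((Finsupp.linearCombination ℝ (fun _ : Fin R.r => (1 : ℝ))).comp R.base.repr)
  refine ⟨g, fun i => ?_⟩
  have hi : R.a i ∈ Submodule.span ℝ (Set.range R.a) := Submodule.subset_span ⟨i, rfl⟩
  have h1 : g (R.a i) = (g.comp (Submodule.span ℝ (Set.range R.a)).subtype) ⟨R.a i, hi⟩ := rfl
  rw [h1, hg, LinearMap.comp_apply, R.base.repr_eq_single i ⟨R.a i, hi⟩ rfl]
  simp

theorem height_pos {ℓ : ℕ} {G : Type} [Group G] (R : RGD ℓ G) (h : R.E →ₗ[ℝ] ℝ)
    (hh : ∀ i, h (R.a i) = 1) {b : R.E} (hb : b ∈ R.pos) : 0 < h b := by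
  obtain ⟨hb1, k, hk, hbk⟩ := hb
  have h1 : h b = ∑ i, k i := by
    rw [hbk, map_sum]
    refine Finset.sum_congr rfl fun i _ => ?_
    rw [map_smul, hh, smul_eq_mul, mul_one]
  rw [h1]
  refine lt_of_le_of_ne (Finset.sum_nonneg fun i _ => hk i) fun h0 => ?_
  apply R.ne0 b hb1
  rw [hbk]
  refine Finset.sum_eq_zero fun i hi => ?_
  rw [(Finset.sum_eq_zero_iff_of_nonneg fun i _ => hk i).mp h0.symm i hi, zero_smul]

theorem upg : UpgStmt := by
  intro ℓ hℓ G _ _ R
  obtain ⟨h, hh⟩ := exists_height R
  have hp : ∀ b ∈ R.pos, 0 < h b := fun b hb => height_pos R h hh hb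
  have key : ∀ (n : ℕ) (A : Set R.E), A.ncard = n → R.Clo A → A ⊆ R.pos →
      IsPGroup ℓ (R.gp A) := by
    intro n
    induction n using Nat.strong_induction_on with
    | _ n ih =>
    intro A hn hA hpos
    have hfin : A.Finite := R.fin.subset hA.sub
    by_cases hne : A = ∅
    · rw [hne, gp_empty]
      exact IsPGroup.of_bot
    obtain ⟨b, hb, hmin⟩ := Set.exists_min_image A h hfin (Set.nonempty_iff_ne_empty.mpr hne)
    have hA' : R.Clo (A \ {b}) := by
      refine ⟨fun c hc => hA.sub hc.1, ?_, ?_⟩
      · intro c hc t ht htc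
        refine ⟨hA.up c hc.1 t ht htc, ?_⟩
        intro h1
        have h2 : t • c = b := h1
        apply hc.2
        have h3 : h b = t * h c := by rw [← h2, map_smul, smul_eq_mul]
        have h4 := hmin c hc.1
        have h5 := hp c (hpos hc.1)
        have h6 : t = 1 := by
          apply le_antisymm _ ht
          by_contra h7
          rw [not_le] at h7
          nlinarith
        rw [h6, one_smul] at h2
        exact h2
      · intro c hc d hd p q hp1 hq1 hcd
        refine ⟨hA.add c hc.1 d hd.1 p q hp1 hq1 hcd, ?_⟩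
        intro h1
        have h2 : p • c + q • d = b := h1
        have h3 : h b = p * h c + q * h d := by
          rw [← h2, map_add, map_smul, map_smul, smul_eq_mul, smul_eq_mul]
        have h4 := hmin c hc.1
        have h5 := hmin d hd.1
        have h6 := hp b (hpos hb)
        have h7 := hp c (hpos hc.1)
        have h8 := hp d (hpos hd.1)
        nlinarith
    have hlt : (A \ {b}).ncard < n := by
      rw [← hn]
      exact Set.ncard_sdiff_singleton_lt_of_mem hb hfin
    have h1 := ih _ hlt (A \ {b}) rfl hA' (Set.sdiff_subset.trans hpos)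
    have h2 : R.gp A = R.X b ⊔ R.gp (A \ {b}) := by
      apply le_antisymm
      · apply R.gp_le
        intro c hc
        by_cases hcb : c = b
        · rw [hcb]
          exact le_sup_left
        · have h0 : c ∈ A \ {b} := ⟨hc, hcb⟩
          exact (R.X_le_gp h0).trans le_sup_right
      · exact sup_le (R.X_le_gp hb) (R.gp_mono Set.sdiff_subset)
    rw [h2]
    refine IsPGroup.to_sup_of_normal_right' (R.pgrp b (hA.sub hb)) h1 ?_
    intro x hx
    apply Subgroup.mem_normalizer_fintype
    have h3 : R.gp (A \ {b}) ≤ (R.gp (A \ {b})).comap (MulAut.conj x).toMonoidHom := by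
      apply R.gp_le
      intro c hc y hy
      rw [Subgroup.mem_comap]
      show x * y * x⁻¹ ∈ _
      have h4 : x * y * x⁻¹ * y⁻¹ ∈ R.gp (A \ {b}) := by
        refine R.comm_gp (hA.sub hb) (hA.sub hc.1) ?_ ?_ hx hy
        · intro s hs hcs
          have h5 := hp b (hpos hb)
          have h6 := hp c (hpos hc.1)
          rw [hcs, map_neg, map_smul, smul_eq_mul] at h6
          nlinarith
        · intro p q hp1 hq1 hbc
          refine ⟨hA.add b hb c hc.1 p q hp1 hq1 hbc, ?_⟩
          intro h7
          have h8 : p • b + q • c = b := h7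
          have h9 : h b = p * h b + q * h c := by
            conv_lhs => rw [← h8]
            rw [map_add, map_smul, map_smul, smul_eq_mul, smul_eq_mul]
          have h10 := hp b (hpos hb)
          have h11 := hp c (hpos hc.1)
          nlinarith
      have h5 : x * y * x⁻¹ = x * y * x⁻¹ * y⁻¹ * y := by group
      rw [h5]
      exact Subgroup.mul_mem _ h4 (R.X_le_gp hc hy)
    exact fun y hy => h3 hy
  intro A hA hpos
  exact key _ A rfl hA hpos

end Pool.Agent.PP.X1.H18
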