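import Pool.Agent.Helper12_AWB.B100

/-! Copy (generated) of the module `Pool.Agent.Helper21_X2.Clr` with import lines for the bundle Helper12_AWB. -/

/-!
# AWC, part X2: modules CLR and CLB
-/

namespace Pool.Agent.PP.X2.H21

open Pool.Agent.Helper51_AWC Pool.Agent.Helper79_WRA Pool.Agent.PP Pool.Agent.PP.X2

/-- CLR -/
theorem clr (lym : LymStmt) : ClrStmt := by
  intro ℓ 𝒜 H _ _ N E T hE hEN hL hM hET
  refine ⟨E.subgroupOf T, hE.subgroupOf T, ?_, (lym ℓ 𝒜 H E hL).2.1 T hET, ?_⟩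
  · intro x hx
    exact hEN hx
  · intro S _ _ hS hℓ K hK f hf hfE
    let e := K.equivMapOfInjective T.subtype T.subtype_injective
    refine hM S hS hℓ (K.map T.subtype) ?_ (f.comp e.symm.toMonoidHom) ?_ ?_
    · rintro _ ⟨x, hx, rfl⟩
      exact hK hx
    · exact hf.comp e.symm.surjective
    · intro x hx
      show f (e.symm x) = 1
      apply hfE
      have h1 : ((e (e.symm x) : K.map T.subtype) : H) = ((e.symm x : K) : T) :=
        Subgroup.coe_equivMapOfInjective_apply K T.subtype T.subtype_injective (e.symm x)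
      rw [e.apply_symm_apply] at h1
      show (((e.symm x : K) : T) : H) ∈ E
      rw [← h1]
      exact hx

/-- CLB -/
theorem clb (nrb : NrbStmt) (hclr : ClrStmt) : ClbStmt := by
  intro ℓ 𝒜 F H _ _ _ N M hM hN b hb hb'
  obtain ⟨E, hE, hEN, hL, hMod⟩ := hN
  exact hclr ℓ 𝒜 H N E (stabF b) hE hEN hL hMod (nrb ℓ 𝒜 F H E M hE hM hL b hb hb')

end Pool.Agent.PP.X2.H21
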