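import Pool.Agent.Helper12_AWB.B100

/-! Copy (generated) of the module `Pool.Agent.Helper2_X2.Nrm` with import lines for the bundle Helper12_AWB. -/

/-! X2, module NRM. -/

namespace Pool.Agent.PP.X2.H2

open Pool.Agent.Helper51_AWC Pool.Agent.Helper79_WRA Pool.Agent.PP
open scoped commutatorElement

/-- the factors of `E` are normalised by `E` -/
theorem factor_le_normalizer {ℓ : ℕ} {A : Fam} {H : Type} [Group H] {E : Subgroup H} {I : Type}
    {K : I → Subgroup H} (h : LayD ℓ A E I K) (i : I) :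
    E ≤ Subgroup.normalizer (K i : Set H) := by
  rw [← h.sup]
  refine iSup_le fun j => ?_
  by_cases hji : j = i
  · rw [hji]
    exact Subgroup.le_normalizer
  · rw [Subgroup.le_normalizer_iff]
    intro x hx y hy
    rw [h.comm j i hji x hx y hy, mul_inv_cancel_right]
    exact hy

theorem factor_le {ℓ : ℕ} {A : Fam} {H : Type} [Group H] {E : Subgroup H} {I : Type}
    {K : I → Subgroup H} (h : LayD ℓ A E I K) (i : I) : K i ≤ E := by
  rw [← h.sup]
  exact le_iSup K i

/-- conjugation by an element of the normaliser -/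
def conjK {H : Type} [Group H] (K : Subgroup H) (m : H)
    (h1 : ∀ k ∈ K, m * k * m⁻¹ ∈ K) (h2 : ∀ k ∈ K, m⁻¹ * k * m ∈ K) : MulAut K where
  toFun k := ⟨m * k * m⁻¹, h1 k k.2⟩
  invFun k := ⟨m⁻¹ * k * m, h2 k k.2⟩
  left_inv k := by
    apply Subtype.ext
    show m⁻¹ * (m * k * m⁻¹) * m = k
    group
  right_inv k := by
    apply Subtype.ext
    show m * (m⁻¹ * k * m) * m⁻¹ = k
    group
  map_mul' k l := by
    apply Subtype.ext
    show m * ((k : H) * l) * m⁻¹ = (m * k * m⁻¹) * (m * l * m⁻¹)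
    group

theorem comm_aux {G : Type} [Group G] {c c' k k' : G} (h1 : Commute c k) (h2 : Commute c k')
    (h3 : Commute c' k) (h4 : Commute c' k') (h5 : Commute c c') :
    ⁅c * k, c' * k'⁆ = ⁅k, k'⁆ := by
  have e1 : (c * k) * (c' * k') = (c * c') * (k * k') := h3.symm.mul_mul_mul_comm c k'
  have e2 : (c' * k') * (c * k) = (c * c') * (k' * k) := by
    rw [h2.symm.mul_mul_mul_comm c' k, h5.eq]
  have e3 : Commute (c * c') (k * k' * (k' * k)⁻¹) := by
    refine Commute.mul_left ?_ ?_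
    · exact (h1.mul_right h2).mul_right (h2.mul_right h1).inv_right
    · exact (h3.mul_right h4).mul_right (h4.mul_right h3).inv_right
  have e4 : ⁅c * k, c' * k'⁆ = (c * k) * (c' * k') * ((c' * k') * (c * k))⁻¹ := by
    rw [commutatorElement_def]
    group
  have e5 : ⁅k, k'⁆ = k * k' * (k' * k)⁻¹ := by
    rw [commutatorElement_def]
    group
  rw [e4, e5, e1, e2, mul_inv_rev (c * c'), ← mul_assoc, mul_assoc (c * c'), e3.eq,
    mul_inv_cancel_right]

/-- NRM -/
theorem nrm (hqua : QuaStmt) : NrmStmt := by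
  intro ℓ A H _ _ E M I _ K hK hEM hME i
  rw [Subgroup.le_normalizer_iff] at hEM hME
  by_cases hi : K i ≤ M
  · exact Or.inl hi
  right
  obtain ⟨S, _, _, hS, -, -, hcov⟩ := hK.cov i
  obtain ⟨q1, -, -, -, -, -, q7⟩ := hqua (K i) S hS hcov
  have hKE : ∀ x ∈ K i, x ∈ E := fun x hx => factor_le hK i hx
  have hnK : ∀ x ∈ E, ∀ y ∈ K i, x * y * x⁻¹ ∈ K i :=
    Subgroup.le_normalizer_iff.1 (factor_le_normalizer hK i)
  -- `K i ∩ M` is central in `K i`
  have hcen : M.subgroupOf (K i) ≤ Subgroup.center (K i) := by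
    have hN : (M.subgroupOf (K i)).Normal := by
      refine ⟨fun n hn g => ?_⟩
      rw [Subgroup.mem_subgroupOf] at hn ⊢
      exact hEM g (hKE g g.2) n hn
    rcases q1 _ hN with h | h
    · exact h
    · exact absurd (Subgroup.subgroupOf_eq_top.1 h) hi
  -- `M ∩ E` centralises `K i`
  have h0 : ∀ m ∈ M, m ∈ E → ∀ k ∈ K i, m * k = k * m := by
    intro m hm hmE
    have h1 : ∀ k ∈ K i, m * k * m⁻¹ ∈ K i := hnK m hmE
    have h2 : ∀ k ∈ K i, m⁻¹ * k * m ∈ K i := by
      intro k hk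
      have := hnK m⁻¹ (inv_mem hmE) k hk
      rwa [inv_inv] at this
    have h3 : conjK (K i) m h1 h2 = 1 := by
      apply q7
      intro x
      apply hcen
      rw [Subgroup.mem_subgroupOf]
      show (x : H)⁻¹ * (m * x * m⁻¹) ∈ M
      have h4 := hEM (x : H)⁻¹ (inv_mem (hKE x x.2)) m hm
      rw [inv_inv] at h4
      have h5 : (x : H)⁻¹ * (m * x * m⁻¹) = ((x : H)⁻¹ * m * x) * m⁻¹ := by group
      rw [h5]
      exact mul_mem h4 (inv_mem hm)
    intro k hk
    have h4 : ((conjK (K i) m h1 h2) ⟨k, hk⟩ : H) = k := by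
      rw [h3]
      rfl
    have h5 : m * k * m⁻¹ = k := h4
    rw [mul_inv_eq_iff_eq_mul] at h5
    exact h5
  -- general elements of `M`
  intro x hx m hm
  set T : Subgroup (K i) := (Subgroup.centralizer ({m} : Set H)).subgroupOf (K i) with hT
  have hTop : commutator (K i) ≤ T := by
    rw [commutator_def, Subgroup.commutator_le]
    intro k _ k' _
    rw [hT, Subgroup.mem_subgroupOf, Subgroup.mem_centralizer_singleton_iff]
    -- c(k) = m k m⁻¹ k⁻¹
    have hc : ∀ k ∈ K i, m * k * m⁻¹ * k⁻¹ ∈ M ∧ m * k * m⁻¹ * k⁻¹ ∈ E := by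
      intro k hk
      constructor
      · have h5 : m * k * m⁻¹ * k⁻¹ = m * (k * m⁻¹ * k⁻¹) := by group
        rw [h5]
        exact mul_mem hm (hEM k (hKE k hk) _ (inv_mem hm))
      · exact mul_mem (hME m hm k (hKE k hk)) (inv_mem (hKE k hk))
    -- elements of `M ∩ E` commute with `m K m⁻¹`
    have hc2 : ∀ c ∈ M, c ∈ E → ∀ k ∈ K i, Commute c (m * k * m⁻¹) := by
      intro c hcM hcE k hk
      have h5 : m⁻¹ * c * m ∈ M := mul_mem (mul_mem (inv_mem hm) hcM) hm
      have h6 : m⁻¹ * c * m ∈ E := by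
        have := hME m⁻¹ (inv_mem hm) c hcE
        rwa [inv_inv] at this
      have h7 := h0 _ h5 h6 k hk
      show c * (m * k * m⁻¹) = (m * k * m⁻¹) * c
      have h8 : c * (m * k * m⁻¹) = m * ((m⁻¹ * c * m) * k) * m⁻¹ := by group
      rw [h8, h7]
      group
    obtain ⟨a1, a2⟩ := hc k k.2
    obtain ⟨b1, b2⟩ := hc k' k'.2
    set c : H := m * k * m⁻¹ * (k : H)⁻¹ with hcdef
    set c' : H := m * k' * m⁻¹ * (k' : H)⁻¹ with hcdef'
    have e1 : m * k * m⁻¹ = c * k := by rw [hcdef]; group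
    have e2 : m * k' * m⁻¹ = c' * k' := by rw [hcdef']; group
    have f1 : Commute c (k : H) := h0 c a1 a2 k k.2
    have f2 : Commute c (k' : H) := h0 c a1 a2 k' k'.2
    have f3 : Commute c' (k : H) := h0 c' b1 b2 k k.2
    have f4 : Commute c' (k' : H) := h0 c' b1 b2 k' k'.2
    have f5 : Commute c c' := by
      rw [hcdef']
      exact (hc2 c a1 a2 k' k'.2).mul_right f2.inv_right
    have g1 := comm_aux f1 f2 f3 f4 f5
    rw [← e1, ← e2] at g1
    have g2 : ⁅m * (k : H) * m⁻¹, m * (k' : H) * m⁻¹⁆ = m * ⁅(k : H), (k' : H)⁆ * m⁻¹ := by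
      rw [commutatorElement_def, commutatorElement_def]
      group
    rw [g2] at g1
    have g3 : ((⁅k, k'⁆ : K i) : H) = ⁅(k : H), (k' : H)⁆ := rfl
    rw [g3]
    rw [mul_inv_eq_iff_eq_mul] at g1
    first
      | exact g1
      | exact g1.symm
  rw [hcov.1] at hTop
  have hx' : (⟨x, hx⟩ : K i) ∈ T := hTop (Subgroup.mem_top _)
  rw [hT, Subgroup.mem_subgroupOf, Subgroup.mem_centralizer_singleton_iff] at hx'
  first
    | exact hx'
    | exact hx'.symm

end Pool.Agent.PP.X2.H2
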