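import Pool.Agent.Helper12_AWB.B100

/-! Copy (generated) of the module `Pool.Agent.Helper31_X2.Qua` with import lines for the bundle Helper12_AWB. -/

/-!
# QUA: quasisimple groups
-/

set_option autoImplicit false

noncomputable section

namespace Pool.Agent.PP.X2.H31

open Pool.Agent.PP Pool.Agent.PP.X2
open scoped commutatorElement

theorem comm_mul_central {G : Type} [Group G] (x y u v : G) (hu : u ∈ Subgroup.center G)
    (hv : v ∈ Subgroup.center G) : ⁅x * u, y * v⁆ = ⁅x, y⁆ := by
  have h1 : u * (y * v) = (y * v) * u := (Subgroup.mem_center_iff.1 hu (y * v)).symm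
  have h2 : v * x⁻¹ = x⁻¹ * v := (Subgroup.mem_center_iff.1 hv x⁻¹).symm
  calc ⁅x * u, y * v⁆ = x * (u * (y * v)) * u⁻¹ * x⁻¹ * v⁻¹ * y⁻¹ := by
        rw [commutatorElement_def]; group
    _ = x * ((y * v) * u) * u⁻¹ * x⁻¹ * v⁻¹ * y⁻¹ := by rw [h1]
    _ = x * y * (v * x⁻¹) * v⁻¹ * y⁻¹ := by group
    _ = x * y * (x⁻¹ * v) * v⁻¹ * y⁻¹ := by rw [h2]
    _ = ⁅x, y⁆ := by rw [commutatorElement_def]; group

/-- commutators of elements of `M Z(K)` are commutators of elements of `M` -/
theorem comm_le_of_cover {K : Type} [Group K] (M : Subgroup K)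
    (h : ∀ x : K, ∃ m ∈ M, ∃ z ∈ Subgroup.center K, x = m * z) : commutator K ≤ ⁅M, M⁆ := by
  rw [commutator_def, Subgroup.commutator_le]
  intro x _ y _
  obtain ⟨m, hm, z, hz, rfl⟩ := h x
  obtain ⟨m', hm', z', hz', rfl⟩ := h y
  rw [comm_mul_central _ _ _ _ hz hz']
  exact Subgroup.commutator_mem_commutator hm hm'

theorem center_bot {S : Type} [Group S] (hS : NonabSimple S) : Subgroup.center S = ⊥ := by
  obtain ⟨h1, a, b, hab⟩ := hS
  rcases h1.eq_bot_or_eq_top_of_normal (Subgroup.center S) inferInstance with h | h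
  · exact h
  · exfalso
    have ha : b ∈ Subgroup.center S := by rw [h]; trivial
    exact hab (Subgroup.mem_center_iff.1 ha a)

theorem normal_dich {K S : Type} [Group K] [Group S] (hS : NonabSimple S) (hK : CovS K S)
    (M : Subgroup K) (hM : M.Normal) : M ≤ Subgroup.center K ∨ M = ⊤ := by
  obtain ⟨hp, f, hf, hk⟩ := hK
  have hn : (M.map f).Normal := hM.map f hf
  rcases hS.1.eq_bot_or_eq_top_of_normal (M.map f) hn with h | h
  · left
    intro x hx
    apply hk
    rw [MonoidHom.mem_ker]
    have : f x ∈ M.map f := ⟨x, hx, rfl⟩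
    rw [h] at this
    exact this
  · right
    have hc : commutator K ≤ ⁅M, M⁆ := by
      apply comm_le_of_cover
      intro x
      have hx : f x ∈ M.map f := by rw [h]; trivial
      obtain ⟨m, hm, hmx⟩ := hx
      refine ⟨m, hm, m⁻¹ * x, hk ?_, by group⟩
      rw [MonoidHom.mem_ker, map_mul, map_inv, hmx, inv_mul_cancel]
    have h2 : ⁅M, M⁆ ≤ M := Subgroup.commutator_le_left M M
    rw [hp] at hc
    exact top_le_iff.1 (hc.trans h2)

theorem ker_eq {K S S' : Type} [Group K] [Group S] [Group S'] (hS : NonabSimple S)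
    (hS' : NonabSimple S') (hK : CovS K S) (f : K →* S') (hf : Function.Surjective f) :
    f.ker = Subgroup.center K := by
  apply le_antisymm
  · rcases normal_dich hS hK f.ker inferInstance with h | h
    · exact h
    · exfalso
      obtain ⟨h1, a, b, hab⟩ := hS'
      obtain ⟨x, rfl⟩ := hf a
      obtain ⟨y, rfl⟩ := hf b
      have hx : x ∈ f.ker := by rw [h]; trivial
      have hy : y ∈ f.ker := by rw [h]; trivial
      rw [MonoidHom.mem_ker] at hx hy
      exact hab (by rw [hx, hy])
  · intro z hz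
    rw [MonoidHom.mem_ker]
    have h1 : f z ∈ Subgroup.center S' := by
      rw [Subgroup.mem_center_iff]
      intro s
      obtain ⟨x, rfl⟩ := hf s
      rw [← map_mul, ← map_mul, Subgroup.mem_center_iff.1 hz x]
    rw [center_bot hS'] at h1
    exact h1

theorem nonab {K S : Type} [Group K] [Group S] (hS : NonabSimple S) (hK : CovS K S) :
    ¬ ∀ x y : K, x * y = y * x := by
  intro h
  obtain ⟨hp, f, hf, hk⟩ := hK
  obtain ⟨h1, a, b, hab⟩ := hS
  obtain ⟨x, rfl⟩ := hf a
  obtain ⟨y, rfl⟩ := hf b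
  exact hab (by rw [← map_mul, ← map_mul, h])

theorem perf_map {K L : Type} [Group K] [Group L] (g : K →* L) (hg : Function.Surjective g)
    (hp : commutator K = ⊤) : commutator L = ⊤ := by
  have h1 : (commutator K).map g = commutator L := by
    rw [commutator_def, commutator_def, Subgroup.map_commutator,
      Subgroup.map_top_of_surjective g hg]
  rw [← h1, hp, Subgroup.map_top_of_surjective g hg]

theorem quot {K S : Type} [Group K] [Group S] (hS : NonabSimple S) (hK : CovS K S)
    (L : Type) [Group L] (g : K →* L) (hg : Function.Surjective g) :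
    (∀ x, g x = 1) ∨ CovS L S := by
  rcases normal_dich hS hK g.ker inferInstance with h | h
  · right
    obtain ⟨hp, f, hf, hk⟩ := id hK
    have hfk : f.ker = Subgroup.center K := ker_eq hS hS hK f hf
    have hle : g.ker ≤ f.ker := by rw [hfk]; exact h
    refine ⟨perf_map g hg hp, MonoidHom.liftOfSurjective g hg ⟨f, hle⟩, ?_, ?_⟩
    · intro s
      obtain ⟨x, rfl⟩ := hf s
      exact ⟨g x, MonoidHom.liftOfRightInverse_comp_apply g _ _ ⟨f, hle⟩ x⟩
    · intro y hy
      obtain ⟨x, rfl⟩ := hg y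
      have h2 : (MonoidHom.liftOfSurjective g hg ⟨f, hle⟩) (g x) = f x :=
        MonoidHom.liftOfRightInverse_comp_apply g _ _ ⟨f, hle⟩ x
      rw [MonoidHom.mem_ker, h2] at hy
      have h3 : x ∈ Subgroup.center K := hk hy
      rw [Subgroup.mem_center_iff]
      intro l
      obtain ⟨y, rfl⟩ := hg l
      rw [← map_mul, ← map_mul, Subgroup.mem_center_iff.1 h3 y]
  · left
    intro x
    have : x ∈ g.ker := by rw [h]; trivial
    exact this

theorem iso {K S : Type} [Group K] [Group S] (hS : NonabSimple S) (hK : CovS K S)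
    (S' : Type) [Group S'] (hS' : NonabSimple S') (f : K →* S') (hf : Function.Surjective f) :
    Nonempty (S ≃* S') := by
  obtain ⟨hp, f0, hf0, hk0⟩ := id hK
  have h1 : f0.ker = f.ker := by
    rw [ker_eq hS hS hK f0 hf0, ker_eq hS hS' hK f hf]
  exact ⟨((QuotientGroup.quotientKerEquivOfSurjective f0 hf0).symm.trans
    (QuotientGroup.quotientMulEquivOfEq h1)).trans
    (QuotientGroup.quotientKerEquivOfSurjective f hf)⟩

theorem cext {K S : Type} [Group K] [Group S] (hK : CovS K S)
    (A : Type) [Group A] (g : A →* K) (hg : Function.Surjective g)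
    (hz : g.ker ≤ Subgroup.center A) :
    CovS (commutator A) S ∧ (commutator A).map g = ⊤ := by
  obtain ⟨hp, f, hf, hk⟩ := hK
  have hm : (commutator A).map g = ⊤ := by
    rw [commutator_def, Subgroup.map_commutator, Subgroup.map_top_of_surjective g hg,
      ← commutator_def, hp]
  have hcov : ∀ x : A, ∃ m ∈ commutator A, ∃ z ∈ Subgroup.center A, x = m * z := by
    intro x
    have hx : g x ∈ (commutator A).map g := by rw [hm]; trivial
    obtain ⟨m, hmm, hmx⟩ := hx
    refine ⟨m, hmm, m⁻¹ * x, hz ?_, by group⟩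
    rw [MonoidHom.mem_ker, map_mul, map_inv, hmx, inv_mul_cancel]
  have hcc := comm_le_of_cover (commutator A) hcov
  refine ⟨⟨?_, f.comp (g.comp (commutator A).subtype), ?_, ?_⟩, hm⟩
  · rw [eq_top_iff]
    rintro ⟨c, hc⟩ -
    have h1 : c ∈ (commutator (commutator A)).map (commutator A).subtype := by
      rw [commutator_def (commutator A), Subgroup.map_commutator]
      have h2 : (⊤ : Subgroup (commutator A)).map (commutator A).subtype = commutator A := by
        rw [← MonoidHom.range_eq_map, Subgroup.range_subtype]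
      rw [h2]
      exact hcc hc
    obtain ⟨c', hc', h3⟩ := h1
    have h4 : c' = ⟨c, hc⟩ := Subtype.ext h3
    rw [← h4]
    exact hc'
  · intro s
    obtain ⟨k, rfl⟩ := hf s
    have hk2 : k ∈ (commutator A).map g := by rw [hm]; trivial
    obtain ⟨c, hc, rfl⟩ := hk2
    exact ⟨⟨c, hc⟩, rfl⟩
  · rintro ⟨r, hr⟩ hrk
    have h1 : g r ∈ Subgroup.center K := hk hrk
    have hu : ∀ a : A, ∃ u ∈ Subgroup.center A, r * a * r⁻¹ = a * u := by
      intro a
      refine ⟨a⁻¹ * (r * a * r⁻¹), hz ?_, by group⟩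
      rw [MonoidHom.mem_ker]
      simp only [map_mul, map_inv]
      rw [← Subgroup.mem_center_iff.1 h1 (g a)]
      group
    have h2 : commutator A ≤ Subgroup.centralizer {r} := by
      rw [commutator_def, Subgroup.commutator_le]
      intro a _ b _
      obtain ⟨u, hu1, hu2⟩ := hu a
      obtain ⟨v, hv1, hv2⟩ := hu b
      have h3 : r * ⁅a, b⁆ * r⁻¹ = ⁅a, b⁆ := by
        have h4 : r * ⁅a, b⁆ * r⁻¹ = ⁅r * a * r⁻¹, r * b * r⁻¹⁆ := by
          rw [commutatorElement_def, commutatorElement_def]; group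
        rw [h4, hu2, hv2, comm_mul_central _ _ _ _ hu1 hv1]
      rw [Subgroup.mem_centralizer_singleton_iff]
      calc ⁅a, b⁆ * r = (r * ⁅a, b⁆ * r⁻¹) * r := by rw [h3]
        _ = r * ⁅a, b⁆ := by group
    rw [Subgroup.mem_center_iff]
    rintro ⟨c, hc⟩
    apply Subtype.ext
    have := h2 hc
    rw [Subgroup.mem_centralizer_singleton_iff] at this
    exact this

theorem aut {K : Type} [Group K] (hp : commutator K = ⊤) (α : MulAut K)
    (h : ∀ x, x⁻¹ * α x ∈ Subgroup.center K) : α = 1 := by
  have h1 : commutator K ≤ (MonoidHom.eqLocus (α : K ≃* K).toMonoidHom (MonoidHom.id K)) := by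
    rw [commutator_def, Subgroup.commutator_le]
    intro a _ b _
    show α ⁅a, b⁆ = ⁅a, b⁆
    have ha : α a = a * (a⁻¹ * α a) := by group
    have hb : α b = b * (b⁻¹ * α b) := by group
    rw [map_commutatorElement, ha, hb, comm_mul_central _ _ _ _ (h a) (h b)]
  apply MulEquiv.ext
  intro x
  have hx : x ∈ commutator K := by rw [hp]; trivial
  exact h1 hx

theorem qua : QuaStmt := by
  intro K S _ _ hS hK
  exact ⟨fun M hM => normal_dich hS hK M hM, nonab hS hK, fun f hf => ker_eq hS hS hK f hf,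
    fun S' _ hS' f hf => iso hS hK S' hS' f hf, fun L _ g hg => quot hS hK L g hg,
    fun A _ g hg hz => cext hK A g hg hz, fun α h => aut hK.1 α h⟩

end Pool.Agent.PP.X2.H31
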