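import Pool.Agent.Helper12_AWB.B100

/-! Copy (generated) of the module `Pool.Agent.Helper41_X2.Clq` with import lines for the bundle Helper12_AWB. -/

/-!
# Squad X2, modules CLQ and CLP: the class under quotients and central extensions
-/

open scoped commutatorElement

noncomputable section

namespace Pool.Agent.PP.X2.H41

open Pool.Agent.Helper51_AWC Pool.Agent.Helper79_WRA Pool.Agent.PP Pool.Agent.PP.X2

theorem clq (hL : LymStmt) : ClqStmt := by
  intro ℓ 𝒜 H H' _ _ _ _ p N hp hN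
  obtain ⟨E, hEn, hEN, hLay, hMod⟩ := hN
  refine ⟨E.map p, hEn.map p hp, Subgroup.map_mono hEN, (hL ℓ 𝒜 H E hLay).1 H' p, ?_⟩
  intro S _ _ hS hℓ K hK f hf hfE
  have hmem : ∀ x : (N ⊓ K.comap p : Subgroup H), (p.comp (N ⊓ K.comap p).subtype) x ∈ K := by
    intro x
    exact (Subgroup.mem_inf.1 x.2).2
  refine hMod S hS hℓ (N ⊓ K.comap p) inf_le_left
    (f.comp ((p.comp (N ⊓ K.comap p).subtype).codRestrict K hmem)) ?_ ?_
  · intro s
    obtain ⟨k, rfl⟩ := hf s
    obtain ⟨n, hn, hnk⟩ := Subgroup.mem_map.1 (hK k.2)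
    refine ⟨⟨n, Subgroup.mem_inf.2 ⟨hn, ?_⟩⟩, ?_⟩
    · rw [Subgroup.mem_comap, hnk]
      exact k.2
    · change f ⟨p n, _⟩ = f k
      congr 1
      exact Subtype.ext hnk
  · intro x hx
    exact hfE _ (Subgroup.mem_map_of_mem p hx)

theorem clp (hL : LymStmt) (hM : MdaStmt) : ClpStmt := by
  intro ℓ 𝒜 H D _ _ _ _ ψ N hψ hker hN
  obtain ⟨E, hEn, hEN, hLay, hMod⟩ := hN
  have hBn : (E.comap ψ).Normal := hEn.comap ψ
  have hle : ⁅E.comap ψ, E.comap ψ⁆ ≤ E.comap ψ := Subgroup.commutator_le_left _ _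
  have hrange : E ≤ ψ.range := by
    intro x _
    exact hψ x
  refine ⟨⁅E.comap ψ, E.comap ψ⁆, Subgroup.commutator_normal _ _,
    hle.trans (Subgroup.comap_mono hEN), ((hL ℓ 𝒜 H E hLay).2.2 D ψ hrange hker).1, ?_⟩
  intro S _ _ hS hℓ K hK f hf hfE
  have hnorm : K ≤ Subgroup.normalizer ((E.comap ψ : Subgroup D) : Set D) := by
    rw [Subgroup.normalizer_eq_top_iff.2 hBn]
    exact le_top
  have htriv : ∀ x : K, (x : D) ∈ E.comap ψ → f x = 1 := by
    refine hM D S hS K (E.comap ψ) f hf hnorm ?_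
    intro x y hx hy
    have h1 : ((⁅x, y⁆ : K) : D) ∈ ⁅E.comap ψ, E.comap ψ⁆ := by
      have h2 : ((⁅x, y⁆ : K) : D) = ⁅(x : D), (y : D)⁆ := rfl
      rw [h2]
      exact Subgroup.commutator_mem_commutator hx hy
    have h3 := hfE _ h1
    rw [map_commutatorElement, commutatorElement_eq_one_iff_mul_comm] at h3
    exact h3
  have hk : (ψ.subgroupMap K).ker ≤ f.ker := by
    intro x hx
    rw [MonoidHom.mem_ker] at hx ⊢
    apply htriv
    have h1 : ψ (x : D) = 1 := congrArg Subtype.val hx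
    rw [Subgroup.mem_comap, h1]
    exact E.one_mem
  have hs := MonoidHom.subgroupMap_surjective ψ K
  set g := (MonoidHom.liftOfSurjective (ψ.subgroupMap K) hs) ⟨f, hk⟩ with hg
  have hgf : ∀ x : K, g (ψ.subgroupMap K x) = f x := by
    intro x
    exact MonoidHom.liftOfRightInverse_comp_apply _ _ _ ⟨f, hk⟩ x
  refine hMod S hS hℓ (K.map ψ) (by
    rw [Subgroup.map_le_iff_le_comap]
    exact hK) g ?_ ?_
  · intro s
    obtain ⟨x, rfl⟩ := hf s
    exact ⟨_, hgf x⟩
  · intro y hy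
    obtain ⟨x, rfl⟩ := hs y
    rw [hgf]
    exact htriv x hy

end Pool.Agent.PP.X2.H41
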