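import Pool.Agent.Helper12_AWB.B100
import Pool.Agent.Helper12_AWB.B157

/-! Copy (generated) of the module `Pool.Agent.Helper55_X2.R2c` with import lines for the bundle Helper12_AWB. -/

/-!
# AWC, part X2, module R2C: the case of a nonabelian chief factor that is not simple
-/

open scoped BigOperators

noncomputable section

namespace Pool.Agent.PP.X2.H55

open Pool.Agent.PP Pool.Agent.PP.X2 Pool.Agent.Helper51_AWC Pool.Agent.Helper79_WRA

/-- every component is normalised by `N` -/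
theorem comps_norm {ℓ : ℕ} {F G : Type} [Field F] [Group G] {N : Subgroup G} {b : N → F} {I : Type}
    {K : I → Subgroup G} {bK : I → G → F} {act : G → Equiv.Perm I} (h : Comps ℓ N b I K bK act)
    (i : I) : N ≤ Subgroup.normalizer (K i : Set G) := by
  rw [← h.sup]
  refine iSup_le fun j => ?_
  by_cases hij : i = j
  · subst hij
    exact Subgroup.le_normalizer
  · intro x hx
    rw [Subgroup.mem_normalizer_iff]
    intro y
    constructor
    · intro hy
      rw [← h.comm i j hij y hy x hx, mul_inv_cancel_right]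
      exact hy
    · intro hy
      have h1 := h.comm i j hij _ hy x hx
      have h2 : x * y * x⁻¹ * x = x * (x * y * x⁻¹) := h1
      have h3 : y = x * y * x⁻¹ := by
        have h4 : x * y = x * (x * y * x⁻¹) := by rw [← h2, inv_mul_cancel_right]
        exact mul_left_cancel h4
      rw [h3]
      exact hy

/-- R2C from CLE and HYT -/
theorem r2c_of (hps3 : Ps3Stmt) (hdbln : DblnStmt) (hsum : SumStmt) (hcom : ComStmt)
    (hjii : JiiStmt) (hcle : CleStmt) (hhyt : HytStmt) : R2cStmt := by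
  intro ℓ hℓ F hFi hF 𝒜 G hG hfin N hCh hO hna hns hE hhyp hY e he hpos b hb hst heb
  have hN : N.Normal := hCh.1
  have hdz : ¬ DZ ℓ b := fun h => he.2.1 ((hps3 ℓ F hF G N hN b hb hst e he.1 heb).2 h hpos)
  obtain ⟨τ, hτ⟩ := H59.exists_lift ℓ F hF
  have hcl : IsCl (ext0 N b) := by
    intro x y
    have hy : y ∈ stabF (ext0 N b) := by rw [hst]; exact Subgroup.mem_top y
    exact hy x
  have hS : SBlk N (ext0 N b) := by
    refine ⟨fun x hx => ?_, hcl, ?_⟩
    · unfold ext0
      rw [dif_neg hx]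
    · have : (fun t : N => ext0 N b t) = b := by
        funext t
        unfold ext0
        rw [dif_pos t.2]
      rw [this]
      exact hb
  obtain ⟨I, hI, hI', K, bK, act, hK⟩ := hcom ℓ F hF G N hCh hO hna hns b hb hst hdz
  refine hsum ℓ F hF τ hτ G N hN (ext0 N b) hS ?_ e he.1 heb
  refine hjii ℓ F hF G N b hS I K bK act hK ?_ τ hτ
  intro i τ' hτ'
  refine hdbln ℓ F hF τ' hτ' (Subgroup.normalizer (K i : Set G))
    ((K i).subgroupOf (Subgroup.normalizer (K i : Set G))) inferInstance _ (hK.sblk i) (hK.pos i) ?_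
  rintro H₁ _ _ Q₁ hQ ⟨ε⟩ hmu _ ⟨j, hj⟩
  obtain ⟨E, hE1, hE2, hE3, hE4⟩ := hE
  refine hY H₁ Q₁ hQ (lt_of_le_of_lt hmu (hK.mu i)) ?_ ?_
  · exact hcle ℓ 𝒜 G N E (K i) hE1 hE2 hE3 hE4 (hK.le i) (comps_norm hK i) H₁ Q₁ hQ
      ⟨ε.trans (Subgroup.subgroupOfEquivOfLe Subgroup.le_normalizer)⟩
  · refine (hhyt ℓ F 𝒜 G hhyp).2.2 H₁ ((MonoidHom.prodMap
      (Subgroup.normalizer (K i : Set G)).subtype (Subgroup.normalizer (K i : Set G)).subtype).comp j)
      ?_
    intro x y hxy
    apply hj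
    have h1 : ((j x).1 : G) = (j y).1 := congrArg Prod.fst hxy
    have h2 : ((j x).2 : G) = (j y).2 := congrArg Prod.snd hxy
    exact Prod.ext (Subtype.ext h1) (Subtype.ext h2)

/-- R2C. -/
theorem r2c (hcle : CleStmt) (hhyt : HytStmt) : R2cStmt :=
  r2c_of Pool.Agent.AWR.H39.ps3 H96.dbln_ H96.sum_ H96.com_ H96.jii_ hcle hhyt

end Pool.Agent.PP.X2.H55
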