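import Pool.Agent.Helper12_AWB.B100

/-! Copy (generated) of the module `Pool.Agent.Helper69_X2.Lyb` with import lines for the bundle Helper12_AWB. -/

/-!
# AWC, part X2: module LYB
-/

set_option autoImplicit false

namespace Pool.Agent.PP.X2.H69

open Pool.Agent.Helper51_AWC Pool.Agent.Helper79_WRA Pool.Agent.PP Pool.Agent.PP.X2

section elts

variable {K : Type} [Group K] (ℓ : ℕ)

/-- the subgroup generated by the `ℓ`-elements is normal -/
theorem oup_normal : (Subgroup.closure {x : K | ∃ n : ℕ, x ^ ℓ ^ n = 1}).Normal := by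
  constructor
  intro x hx g
  induction hx using Subgroup.closure_induction with
  | mem x hx =>
    obtain ⟨n, hn⟩ := hx
    refine Subgroup.subset_closure ⟨n, ?_⟩
    rw [conj_pow, hn, mul_one, mul_inv_cancel]
  | one => rw [mul_one, mul_inv_cancel]; exact Subgroup.one_mem _
  | mul x y _ _ hx hy =>
    have h : g * (x * y) * g⁻¹ = (g * x * g⁻¹) * (g * y * g⁻¹) := by group
    rw [h]
    exact Subgroup.mul_mem _ hx hy
  | inv x _ hx =>
    have h : g * x⁻¹ * g⁻¹ = (g * x * g⁻¹)⁻¹ := by group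
    rw [h]
    exact Subgroup.inv_mem _ hx

/-- a nontrivial `ℓ`-element lifts to an `ℓ`-element -/
theorem lift_elt [Finite K] [Fact ℓ.Prime] {S : Type} [Group S] [Finite S] (hℓ : ℓ ∣ Nat.card S)
    (f : K →* S) (hf : Function.Surjective f) :
    ∃ y : K, (∃ n : ℕ, y ^ ℓ ^ n = 1) ∧ f y ≠ 1 := by
  obtain ⟨s, hs⟩ := exists_prime_orderOf_dvd_card' ℓ hℓ
  obtain ⟨x, hx⟩ := hf s
  have hpos : 0 < orderOf x := orderOf_pos x
  obtain ⟨a, b, hb, hab⟩ := Nat.exists_eq_pow_mul_and_not_dvd hpos.ne' ℓ (Fact.out : ℓ.Prime).ne_one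
  refine ⟨x ^ b, ⟨a, ?_⟩, ?_⟩
  · rw [← pow_mul, mul_comm, ← hab, pow_orderOf_eq_one]
  · rw [map_pow, hx]
    intro h
    rw [← orderOf_dvd_iff_pow_eq_one, hs] at h
    exact hb h

/-- a quasisimple group over a simple group of order divisible by `ℓ` is generated by its
`ℓ`-elements -/
theorem gen_top (hqua : QuaStmt) [Finite K] [Fact ℓ.Prime] {S : Type} [Group S] [Finite S]
    (hS : NonabSimple S) (hℓ : ℓ ∣ Nat.card S) (hK : CovS K S) :
    Subgroup.closure {x : K | ∃ n : ℕ, x ^ ℓ ^ n = 1} = ⊤ := by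
  obtain ⟨hM, -, hker, -⟩ := hqua K S hS hK
  rcases hM _ (oup_normal ℓ) with h | h
  · exfalso
    obtain ⟨f, hf, -⟩ := hK.2
    obtain ⟨y, hy, hy1⟩ := lift_elt ℓ hℓ f hf
    apply hy1
    have h1 : y ∈ Subgroup.center K := h (Subgroup.subset_closure hy)
    rw [← hker f hf] at h1
    exact h1
  · exact h

end elts

/-- LYB: first properties of `Lay`. -/
theorem lyb (hqua : QuaStmt) : LybStmt := by
  intro ℓ _ 𝒜 H _ _ E hE
  obtain ⟨I, hI, K, hK⟩ := hE
  have hle : ∀ i, K i ≤ E := fun i => by rw [← hK.sup]; exact le_iSup K i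
  have h1 : ⁅E, E⁆ = E := by
    apply le_antisymm
    · rw [Subgroup.commutator_le]
      intro x hx y hy
      exact E.mul_mem (E.mul_mem (E.mul_mem hx hy) (E.inv_mem hx)) (E.inv_mem hy)
    · rw [← hK.sup]
      refine iSup_le fun i => ?_
      obtain ⟨S, _, _, hS, hℓ, _, hcov⟩ := hK.cov i
      have h2 : ⁅K i, K i⁆ = K i := by
        have h3 : (commutator (K i)).map (K i).subtype = ⁅K i, K i⁆ := by
          rw [commutator_def, Subgroup.map_commutator]
          have h4 : (⊤ : Subgroup (K i)).map (K i).subtype = K i := by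
            rw [← MonoidHom.range_eq_map, Subgroup.range_subtype]
          rw [h4]
        rw [← h3, hcov.1, ← MonoidHom.range_eq_map, Subgroup.range_subtype]
      rw [hK.sup]
      calc K i = ⁅K i, K i⁆ := h2.symm
        _ ≤ ⁅E, E⁆ := Subgroup.commutator_mono (hle i) (hle i)
  refine ⟨h1, ?_, ?_⟩
  · intro hab
    rw [← h1, eq_bot_iff, Subgroup.commutator_le]
    intro x hx y hy
    rw [Subgroup.mem_bot, commutatorElement_def, hab x hx y hy]
    group
  · have h2 : (⨆ i, K i) ≤ Subgroup.closure {x | x ∈ E ∧ ∃ n : ℕ, x ^ ℓ ^ n = 1} := by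
      refine iSup_le fun i => ?_
      obtain ⟨S, _, _, hS, hℓ, _, hcov⟩ := hK.cov i
      have h3 := gen_top ℓ hqua hS hℓ hcov
      have h4 : K i = (Subgroup.closure {x : K i | ∃ n : ℕ, x ^ ℓ ^ n = 1}).map (K i).subtype := by
        rw [h3, ← MonoidHom.range_eq_map, Subgroup.range_subtype]
      rw [h4, MonoidHom.map_closure, Subgroup.closure_le]
      rintro x ⟨y, ⟨n, hn⟩, rfl⟩
      refine Subgroup.subset_closure ⟨hle i y.2, n, ?_⟩
      rw [← map_pow, hn, map_one]
    rw [hK.sup] at h2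
    exact h2

end Pool.Agent.PP.X2.H69
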