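import Pool.Agent.Helper12_AWB.B100

/-! Copy (generated) of the module `Pool.Agent.Helper6_X2.Nre` with import lines for the bundle Helper12_AWB. -/

/-! # AWC, part X2: the modules NRE, NRB, CLE -/

set_option autoImplicit false

namespace Pool.Agent.PP.X2.H6

open Pool.Agent.Helper51_AWC Pool.Agent.Helper79_WRA Pool.Agent.PP

section Split

variable {H : Type} [Group H] {I : Type} (K : I → Subgroup H)

/-- the subgroup generated by the factors with the property `p` -/
def part (p : I → Prop) : Subgroup H := ⨆ i : {i // p i}, K i.1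

theorem le_part (p : I → Prop) (i : I) (hi : p i) : K i ≤ part K p :=
  le_iSup (fun i : {i // p i} => K i.1) ⟨i, hi⟩

theorem part_le (p : I → Prop) (B : Subgroup H) (h : ∀ i, p i → K i ≤ B) : part K p ≤ B :=
  iSup_le fun i => h i.1 i.2

theorem part_comm (hc : ∀ i j, i ≠ j → ∀ x ∈ K i, ∀ y ∈ K j, x * y = y * x) (p q : I → Prop)
    (hpq : ∀ i, p i → ¬ q i) (x : H) (hx : x ∈ part K p) (y : H) (hy : y ∈ part K q) :
    x * y = y * x := by
  have h1 : part K p ≤ Subgroup.centralizer (part K q : Set H) := by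
    refine part_le K p _ fun i hi => ?_
    intro a ha
    rw [Subgroup.mem_centralizer_iff]
    have h2 : part K q ≤ Subgroup.centralizer ({a} : Set H) := by
      refine part_le K q _ fun j hj => ?_
      intro b hb
      rw [Subgroup.mem_centralizer_iff]
      intro c hc'
      rw [Set.mem_singleton_iff.mp hc']
      exact hc i j (fun h => hpq i hi (h ▸ hj)) a ha b hb
    intro b hb
    exact (Subgroup.mem_centralizer_iff.mp (h2 hb) a rfl).symm
  exact (Subgroup.mem_centralizer_iff.mp (h1 hx) y hy).symm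

theorem split (hc : ∀ i j, i ≠ j → ∀ x ∈ K i, ∀ y ∈ K j, x * y = y * x) (p : I → Prop)
    (x : H) (hx : x ∈ ⨆ i, K i) :
    ∃ a ∈ part K p, ∃ b ∈ part K (fun i => ¬ p i), x = a * b := by
  classical
  refine Subgroup.iSup_induction K (C := fun x => ∃ a ∈ part K p,
    ∃ b ∈ part K (fun i => ¬ p i), x = a * b) hx ?_ ?_ ?_
  · intro i y hy
    by_cases hi : p i
    · exact ⟨y, le_part K p i hi hy, 1, one_mem _, by rw [mul_one]⟩
    · exact ⟨1, one_mem _, y, le_part K (fun i => ¬ p i) i hi hy, by rw [one_mul]⟩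
  · exact ⟨1, one_mem _, 1, one_mem _, by rw [one_mul]⟩
  · rintro y z ⟨a, ha, b, hb, rfl⟩ ⟨a', ha', b', hb', rfl⟩
    refine ⟨a * a', mul_mem ha ha', b * b', mul_mem hb hb', ?_⟩
    have h1 := part_comm K hc p (fun i => ¬ p i) (fun i h h' => h' h) a' ha' b hb
    rw [mul_assoc, mul_assoc, ← mul_assoc b, ← h1, mul_assoc]

/-- elements commuting with all factors commute with the group -/
theorem comm_iSup (x : H) (h : ∀ i, ∀ y ∈ K i, x * y = y * x) (y : H) (hy : y ∈ ⨆ i, K i) :
    x * y = y * x := by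
  have h2 : (⨆ i, K i) ≤ Subgroup.centralizer ({x} : Set H) := by
    refine iSup_le fun j => ?_
    intro b hb
    rw [Subgroup.mem_centralizer_iff]
    intro c hc'
    rw [Set.mem_singleton_iff.mp hc']
    exact h j b hb
  exact Subgroup.mem_centralizer_iff.mp (h2 hy) x rfl

end Split

theorem lay_part {ℓ : ℕ} {𝒜 : Fam} {H : Type} [Group H] {E : Subgroup H} {I : Type} [Finite I]
    {K : I → Subgroup H} (hL : LayD ℓ 𝒜 E I K) (p : I → Prop) : Lay ℓ 𝒜 (part K p) :=
  ⟨{i // p i}, inferInstance, fun i => K i.1,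
    ⟨fun i j hij => hL.comm i.1 j.1 (fun h => hij (Subtype.ext h)), rfl, fun i => hL.cov i.1⟩⟩

/-- commutators modulo commuting elements -/
theorem comm_eq {H : Type} [Group H] (a b a' b' : H) (h1 : b * a' = a' * b) (h2 : b * b' = b' * b)
    (h3 : b' * a = a * b') :
    (a * b) * (a' * b') * (a * b)⁻¹ * (a' * b')⁻¹ = a * a' * a⁻¹ * a'⁻¹ := by
  have e1 : (a * b) * (a' * b') = a * a' * (b * b') := by
    rw [mul_assoc, ← mul_assoc b, h1]
    group
  have e2 : (a' * b') * (a * b) = a' * a * (b * b') := by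
    rw [mul_assoc, ← mul_assoc b', h3, h2]
    group
  have e3 : (a * b) * (a' * b') * (a * b)⁻¹ * (a' * b')⁻¹ =
      ((a * b) * (a' * b')) * ((a' * b') * (a * b))⁻¹ := by group
  rw [e3, e1, e2]
  group

/-- NRE -/
theorem nre (hP : PrmStmt) (hN : NrmStmt) : NreStmt := by
  intro ℓ 𝒜 H _ _ E M hE hM hLay
  obtain ⟨I, hI, K, hL⟩ := hLay
  have hNE : Subgroup.normalizer (E : Set H) = ⊤ := by
    rw [Subgroup.normalizer_eq_top_iff]
    exact hE
  have hNM : Subgroup.normalizer (M : Set H) = ⊤ := by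
    rw [Subgroup.normalizer_eq_top_iff]
    exact hM
  obtain ⟨-, hperm, -, -⟩ := hP ℓ 𝒜 H E I K hL
  have hnrm := hN ℓ 𝒜 H E M I K hL (by rw [hNM]; exact le_top) (by rw [hNE]; exact le_top)
  set p : I → Prop := fun i => K i ≤ M with hp
  refine ⟨part K p, ?_, ?_, part_le K p M fun i hi => hi, lay_part hL p, ?_⟩
  · refine ⟨fun x hx g => ?_⟩
    have h1 : (part K p).map (MulAut.conj g).toMonoidHom ≤ part K p := by
      rw [part, Subgroup.map_iSup]
      refine iSup_le fun i => ?_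
      obtain ⟨j, hj⟩ := hperm g (by rw [hNE]; exact Subgroup.mem_top g) i.1
      rw [hj]
      refine le_part K p j ?_
      change K j ≤ M
      rw [← hj]
      rintro _ ⟨y, hy, rfl⟩
      exact hM.conj_mem y (i.2 hy) g
    exact h1 ⟨x, hx, rfl⟩
  · refine part_le K p E fun i _ => ?_
    rw [← hL.sup]
    exact le_iSup K i
  · -- the decomposition
    have key : ∀ x ∈ E, x ∈ M → ∃ a ∈ part K p, ∃ b ∈ E, x = a * b ∧
        ∀ y ∈ E, b * y = y * b := by
      intro x hx hxM
      rw [← hL.sup] at hx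
      obtain ⟨a, ha, b, hb, rfl⟩ := split K hL.comm p x hx
      have haM : a ∈ M := part_le K p M (fun i hi => hi) ha
      have hbM : b ∈ M := by
        have := mul_mem (inv_mem haM) hxM
        rwa [inv_mul_cancel_left] at this
      have hbE : b ∈ E := by
        rw [← hL.sup]
        exact part_le K _ _ (fun i _ => le_iSup K i) hb
      refine ⟨a, ha, b, hbE, rfl, fun y hy => ?_⟩
      rw [← hL.sup] at hy
      refine comm_iSup K b (fun i y hy => ?_) y hy
      rcases hnrm i with h | h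
      · exact part_comm K hL.comm (fun i => ¬ p i) p (fun i h h' => h h') b hb y
          (le_part K p i h hy)
      · exact (h y hy b hbM).symm
    intro x hx hxM y hy hyM
    obtain ⟨a, ha, b, hb, rfl, hbc⟩ := key x hx hxM
    obtain ⟨a', ha', b', hb', rfl, hbc'⟩ := key y hy hyM
    have haE : ∀ c ∈ part K p, c ∈ E := by
      intro c hc
      rw [← hL.sup]
      exact part_le K p _ (fun i _ => le_iSup K i) hc
    rw [comm_eq a b a' b' (hbc a' (haE a' ha')) (hbc b' hb') (hbc' a (haE a ha))]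
    exact mul_mem (mul_mem (mul_mem ha ha') (inv_mem ha)) (inv_mem ha')

/-- NRB -/
theorem nrb (hN : NrmStmt) : NrbStmt := by
  intro ℓ 𝒜 F H _ _ _ E M hE hM hLay b hb0 hb1
  obtain ⟨I, hI, K, hL⟩ := hLay
  have hNE : Subgroup.normalizer (E : Set H) = ⊤ := by
    rw [Subgroup.normalizer_eq_top_iff]
    exact hE
  have hNM : Subgroup.normalizer (M : Set H) = ⊤ := by
    rw [Subgroup.normalizer_eq_top_iff]
    exact hM
  have hnrm := hN ℓ 𝒜 H E M I K hL (by rw [hNM]; exact le_top) (by rw [hNE]; exact le_top)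
  rw [← hL.sup]
  refine iSup_le fun i => ?_
  intro g hg x
  by_cases hx : x ∈ M
  · rcases hnrm i with h | h
    · exact hb1 x hx g (h hg)
    · rw [h g hg x hx, mul_inv_cancel_right]
  · rw [hb0 x hx, hb0]
    intro h1
    apply hx
    have h2 := hM.conj_mem _ h1 g⁻¹
    have h3 : g⁻¹ * (g * x * g⁻¹) * g⁻¹⁻¹ = x := by group
    rwa [h3] at h2

/-- CLE -/
theorem cle (hN : NrmStmt) (hB : LybStmt) (hM : LymStmt) : CleStmt := by
  intro ℓ _ 𝒜 G _ _ N E K hE hEN hLay hNE hKN hNK H₁ _ _ Q₁ hQ₁ hiso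
  obtain ⟨e⟩ := hiso
  obtain ⟨I, hI, L, hL⟩ := hLay
  have hNEt : Subgroup.normalizer (E : Set G) = ⊤ := by
    rw [Subgroup.normalizer_eq_top_iff]
    exact hE
  have hnrm := hN ℓ 𝒜 G E K I L hL (hEN.trans hNK) (by rw [hNEt]; exact le_top)
  set p : I → Prop := fun i => L i ≤ K with hp
  set E₂ := part L p with hE₂
  have hE₂K : E₂ ≤ K := part_le L p K fun i hi => hi
  have hE₂L : Lay ℓ 𝒜 E₂ := lay_part hL p
  have hE₂E : E₂ ≤ E := by
    rw [← hL.sup]
    exact part_le L p _ fun i _ => le_iSup L i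
  have hperf := (hB ℓ 𝒜 G E₂ hE₂L).1
  -- the decomposition of the elements of `K`
  have key : ∀ x ∈ K, ∃ a ∈ E₂, ∃ b : G, x = a * b ∧ ∀ y ∈ N, b * y = y * b := by
    intro x hx
    obtain ⟨u, hu, z, hz, rfl⟩ := Subgroup.mem_sup_of_normal_right.mp (hNE (hKN hx))
    rw [Subgroup.mem_center_iff] at hz
    rw [← hL.sup] at hu
    obtain ⟨a, ha, b, hb, rfl⟩ := split L hL.comm p u hu
    have hbz : b * z ∈ K := by
      have := mul_mem (inv_mem (hE₂K ha)) hx
      rwa [mul_assoc, inv_mul_cancel_left] at this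
    refine ⟨a, ha, b * z, by rw [mul_assoc], ?_⟩
    have h1 : ∀ y ∈ E, (b * z) * y = y * (b * z) := by
      intro y hy
      rw [← hL.sup] at hy
      refine comm_iSup L (b * z) (fun i y hy => ?_) y hy
      rcases hnrm i with h | h
      · have h2 := part_comm L hL.comm (fun i => ¬ p i) p (fun i h h' => h h') b hb y
          (le_part L p i h hy)
        rw [mul_assoc, ← hz y, ← mul_assoc, h2, mul_assoc]
      · exact (h y hy _ hbz).symm
    intro y hy
    obtain ⟨v, hv, w, hw, rfl⟩ := Subgroup.mem_sup_of_normal_right.mp (hNE hy)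
    rw [Subgroup.mem_center_iff] at hw
    rw [← mul_assoc, h1 v hv, mul_assoc v, hw (b * z), ← mul_assoc]
  have hKK : ⁅K, K⁆ = E₂ := by
    apply le_antisymm
    · rw [Subgroup.commutator_le]
      intro x hx y hy
      obtain ⟨a, ha, b, rfl, hbc⟩ := key x hx
      obtain ⟨a', ha', b', rfl, hbc'⟩ := key y hy
      have haN : ∀ c ∈ E₂, c ∈ N := fun c hc => hEN (hE₂E hc)
      have hb'N : b' ∈ N := by
        have := mul_mem (inv_mem (haN a' ha')) (hKN hy)
        rwa [inv_mul_cancel_left] at this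
      rw [commutatorElement_def, comm_eq a b a' b' (hbc a' (haN a' ha')) (hbc b' hb'N)
        (hbc' a (haN a ha))]
      exact mul_mem (mul_mem (mul_mem ha ha') (inv_mem ha)) (inv_mem ha')
    · rw [← hperf]
      exact Subgroup.commutator_mono hE₂K hE₂K
  -- transfer to `Q₁`
  have hsub : E₂.subgroupOf K = ⁅(⊤ : Subgroup K), (⊤ : Subgroup K)⁆ := by
    have h1 : (⁅(⊤ : Subgroup K), (⊤ : Subgroup K)⁆ : Subgroup K).map K.subtype = E₂ := by
      rw [Subgroup.map_commutator, ← MonoidHom.range_eq_map, Subgroup.range_subtype, hKK]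
    rw [← h1, Subgroup.subgroupOf, Subgroup.comap_map_eq_self_of_injective K.subtype_injective]
  let φ : K →* H₁ := Q₁.subtype.comp e.symm.toMonoidHom
  have hφ : φ.range = Q₁ := by
    rw [MonoidHom.range_comp]
    have : e.symm.toMonoidHom.range = ⊤ := MonoidHom.range_eq_top.2 e.symm.surjective
    rw [this, ← MonoidHom.range_eq_map, Subgroup.range_subtype]
  have hmap : (E₂.subgroupOf K).map φ = ⁅Q₁, Q₁⁆ := by
    rw [hsub, Subgroup.map_commutator, ← MonoidHom.range_eq_map, hφ]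
  refine ⟨⁅Q₁, Q₁⁆, ?_, Subgroup.commutator_le_left Q₁ Q₁, ?_, ?_⟩
  · exact Subgroup.commutator_normal Q₁ Q₁
  · rw [← hmap]
    exact (hM ℓ 𝒜 K _ ((hM ℓ 𝒜 G E₂ hE₂L).2.1 K hE₂K)).1 H₁ φ
  · intro S _ _ hS _ K' hK' f hf hf1
    exfalso
    obtain ⟨-, s, t, hst⟩ := hS
    obtain ⟨x, rfl⟩ := hf s
    obtain ⟨y, rfl⟩ := hf t
    apply hst
    have h1 := hf1 (x * y * x⁻¹ * y⁻¹) (by
      exact Subgroup.commutator_mem_commutator (hK' x.2) (hK' y.2))
    rw [map_mul, map_mul, map_mul, map_inv, map_inv] at h1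
    rw [mul_inv_eq_one, mul_inv_eq_iff_eq_mul] at h1
    exact h1

end Pool.Agent.PP.X2.H6
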