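import Pool.Agent.Helper12_AWB.B100

/-! Copy (generated) of the module `Pool.Agent.Helper77_X2.LFC` with import lines for the bundle Helper12_AWB. -/

set_option autoImplicit false

noncomputable section

namespace Pool.Agent.PP.X2.H77

open Pool.Agent.Helper51_AWC Pool.Agent.Helper79_WRA Pool.Agent.PP

/-- `O_ℓ(B) ≠ 1` lifts through central `ℓ'`-extensions. -/
theorem core_lift {ℓ : ℕ} [Fact ℓ.Prime] {A B : Type} [Group A] [Finite A] [Group B] [Finite B]
    (f : A →* B) (hf : Function.Surjective f) (hk : f.ker ≤ Subgroup.center A)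
    (hB : opCore ℓ B ≠ ⊥) : opCore ℓ A ≠ ⊥ := by
  intro hA
  obtain ⟨hO1, hO2, -⟩ := opCore_spec ℓ B
  obtain ⟨O, hO⟩ : ∃ O, O = opCore ℓ B := ⟨_, rfl⟩
  rw [← hO] at hO1 hO2 hB
  obtain ⟨R, hR⟩ : ∃ R : Subgroup A, R = O.comap f := ⟨_, rfl⟩
  have hRn : R.Normal := by rw [hR]; exact hO1.comap f
  have hmem : ∀ x : R, f (x : A) ∈ O := by
    intro x
    have h1 : (x : A) ∈ O.comap f := by rw [← hR]; exact x.2
    exact h1
  obtain ⟨g, hg⟩ : ∃ g : R →* O, ∀ x : R, ((g x : O) : B) = f (x : A) :=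
    ⟨(f.comp R.subtype).codRestrict O hmem, fun x => rfl⟩
  have hgs : Function.Surjective g := by
    intro y
    obtain ⟨a, ha⟩ := hf (y : B)
    have haR : a ∈ R := by rw [hR]; show f a ∈ O; rw [ha]; exact y.2
    refine ⟨⟨a, haR⟩, Subtype.ext ?_⟩
    rw [hg]; exact ha
  obtain ⟨P⟩ : Nonempty (Sylow ℓ R) := inferInstance
  have hPg : (P : Subgroup R).map g = ⊤ := by
    rw [← Subgroup.index_eq_one]
    obtain ⟨n, hn⟩ := hO2.index ((P : Subgroup R).map g)
    have h1 : ((P : Subgroup R).map g).index ∣ (P : Subgroup R).index :=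
      Subgroup.index_map_dvd _ hgs
    rw [hn] at h1 ⊢
    rcases Nat.eq_zero_or_pos n with h0 | h0
    · rw [h0, pow_zero]
    · exfalso
      have h2 : ℓ ∣ (P : Subgroup R).index := (dvd_pow_self ℓ h0.ne').trans h1
      exact P.not_dvd_index h2
  have hPn : (P : Subgroup R).Normal := by
    refine ⟨fun x hx r => ?_⟩
    have h1 : g r ∈ (P : Subgroup R).map g := by rw [hPg]; exact Subgroup.mem_top _
    obtain ⟨p, hp, hpr⟩ := Subgroup.mem_map.1 h1
    have h2 : f (p : A) = f (r : A) := by rw [← hg, ← hg, hpr]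
    have h3 : (p : A)⁻¹ * (r : A) ∈ f.ker := by
      rw [MonoidHom.mem_ker, map_mul, map_inv, h2, inv_mul_cancel]
    have h4 := Subgroup.mem_center_iff.1 (hk h3)
    have h5 : r * x * r⁻¹ = p * x * p⁻¹ := by
      apply Subtype.ext
      show (r : A) * x * (r : A)⁻¹ = p * x * (p : A)⁻¹
      have h6 := h4 (x : A)
      have h7 : (r : A) = p * ((p : A)⁻¹ * r) := by group
      have h8 : (r : A) * x = p * x * ((p : A)⁻¹ * r) := by
        calc (r : A) * x = p * ((p : A)⁻¹ * r * x) := by group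
          _ = p * (x * ((p : A)⁻¹ * r)) := by rw [h6]
          _ = p * x * ((p : A)⁻¹ * r) := by group
      rw [h8]; group
    rw [h5]
    exact (P : Subgroup R).mul_mem ((P : Subgroup R).mul_mem hp hx) ((P : Subgroup R).inv_mem hp)
  have hPc : (P : Subgroup R).Characteristic := P.characteristic_of_normal hPn
  have hPA : ((P : Subgroup R).map R.subtype).Normal := ConjAct.normal_of_characteristic_of_normal
  have h1 := (opCore_spec ℓ A).2.2 _ hPA (P.isPGroup'.map R.subtype)
  rw [hA, le_bot_iff] at h1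
  have h2 : (P : Subgroup R) = ⊥ := by
    exact (Subgroup.map_eq_bot_iff_of_injective _ R.subtype_injective).1 h1
  rw [h2, Subgroup.map_bot] at hPg
  apply hB
  rw [Subgroup.eq_bot_iff_forall]
  intro y hy
  have h3 : (⟨y, hy⟩ : O) ∈ (⊥ : Subgroup O) := by rw [hPg]; exact Subgroup.mem_top _
  rw [Subgroup.mem_bot] at h3
  exact congrArg Subtype.val h3

/-- LFC. -/
theorem lfc (hM : LymStmt) (hB : LybStmt) : LfcStmt := by
  intro ℓ _ 𝒜 A B _ _ _ _ f hf hk hnd
  refine ⟨core_lift f hf hk, ?_, ?_⟩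
  · intro hL
    have hfr : Oup ℓ B ≤ f.range := by
      rw [MonoidHom.range_eq_top.2 hf]; exact le_top
    obtain ⟨h1, h2, h3⟩ := (hM ℓ 𝒜 B (Oup ℓ B) hL).2.2 A f hfr hk
    obtain ⟨E', hE'⟩ : ∃ E' : Subgroup A, E' = ⁅(Oup ℓ B).comap f, (Oup ℓ B).comap f⁆ := ⟨_, rfl⟩
    rw [← hE'] at h1 h2 h3
    have hEq : Oup ℓ A = E' := by
      apply le_antisymm
      · rw [Oup, Subgroup.closure_le]
        rintro a ⟨n, hn⟩
        have hfa : f a ∈ Oup ℓ B := by
          apply Subgroup.subset_closure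
          exact ⟨n, by rw [← map_pow, hn, map_one]⟩
        obtain ⟨y, hy, z, hz, hyz⟩ := h3 a hfa
        have hzc := Subgroup.mem_center_iff.1 (hk hz)
        have hcomm : Commute y z := hzc y
        have h4 : z ^ ℓ ^ n ∈ E' := by
          have h5 : y ^ ℓ ^ n * z ^ ℓ ^ n = 1 := by rw [← hcomm.mul_pow, ← hyz, hn]
          have h6 : z ^ ℓ ^ n = (y ^ ℓ ^ n)⁻¹ := by
            rw [eq_comm, inv_eq_iff_mul_eq_one]; exact h5
          rw [h6]
          exact E'.inv_mem (E'.pow_mem hy _)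
        have h5 : z ^ Nat.card f.ker = 1 := by
          have := pow_card_eq_one' (x := (⟨z, hz⟩ : f.ker))
          exact congrArg Subtype.val this
        have hcop : Nat.Coprime (ℓ ^ n) (Nat.card f.ker) :=
          Nat.Coprime.pow_left _ ((Nat.Prime.coprime_iff_not_dvd Fact.out).2 hnd)
        have h6 : z ∈ E' := by
          have hb := Nat.gcd_eq_gcd_ab (ℓ ^ n) (Nat.card f.ker)
          rw [hcop] at hb
          have h7 : z = (z ^ ℓ ^ n) ^ (Nat.gcdA (ℓ ^ n) (Nat.card f.ker)) *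
              (z ^ Nat.card f.ker) ^ (Nat.gcdB (ℓ ^ n) (Nat.card f.ker)) := by
            rw [← zpow_natCast, ← zpow_natCast, ← zpow_mul, ← zpow_mul, ← zpow_add, ← hb]
            simp
          rw [h7, h5, one_zpow, mul_one]
          exact E'.zpow_mem h4 _
        show a ∈ E'
        rw [hyz]
        exact E'.mul_mem hy h6
      · have h4 := (hB ℓ 𝒜 A E' h1).2.2
        refine h4.trans ?_
        rw [Oup, Subgroup.closure_le]
        rintro x ⟨-, n, hn⟩
        exact Subgroup.subset_closure ⟨n, hn⟩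
    rw [hEq]; exact h1
  · intro hI S _ _ hS hdvd hinv
    exact hI S hS hdvd (hinv.of_central hS f hk)

end Pool.Agent.PP.X2.H77
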