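import Pool.Agent.Helper12_AWB.B100
import Pool.Agent.Helper12_AWB.B111
import Pool.Agent.Helper12_AWB.B156

/-! Copy (generated) of the module `Pool.Agent.Helper86_X2.LqcCore` with import lines for the bundle Helper12_AWB. -/

/-!
# AWC, part X2, module LQC: LQN with the induction hypothesis only for centralisers

Copy of `Helper9_PP/Lq.lean` and `Helper17_PP/Lqn.lean` with the weaker hypothesis.
-/

open scoped BigOperators

noncomputable section

namespace Pool.Agent.PP.X2.H86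

open Pool.Agent.Helper51_AWC Pool.Agent.Helper79_WRA Pool.Agent.PP

/-- the induction hypothesis of LQC -/
def IHC (ℓ : ℕ) (F : Type) [Field F] {X : Type} [Group X] [Finite X] (Y : Subgroup X) : Prop :=
  ∀ (G : Type) [Group G] [Finite G] (j : G →* X) (Z : Subgroup G) (u : G),
    Function.Injective j → Z.Normal → Z.map j = Y → u ≠ 1 → (∃ n : ℕ, u ^ ℓ ^ n = 1) →
    Subgroup.zpowers u ⊓ Z = ⊥ →
    mu ((Subgroup.centralizer ({u} : Set G) ⊓ Z).subgroupOf
      (Subgroup.centralizer ({u} : Set G))) < mu Y →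
    YH ℓ F ((Subgroup.centralizer ({u} : Set G) ⊓ Z).subgroupOf
      (Subgroup.centralizer ({u} : Set G)))

variable {ℓ : ℕ} {F : Type} [Field F] {X : Type} [Group X] [Finite X]

/-- the hypothesis of the relative theorem of Knörr and Robinson, from the induction -/
theorem hyp_c (hps : Ps1Stmt) (hB : BrmStmt) (hF : GoodF ℓ F) (Y : Subgroup X)
    (hC : ¬ ℓ ∣ Nat.card (Subgroup.centralizer (Y : Set X)))
    (ih : IHC ℓ F Y)
    {G : Type} [Group G] [Finite G] (j : G →* X) (hj : Function.Injective j) (Z : Subgroup G)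
    (hZ : Z.Normal) (hZY : Z.map j = Y) (e : G → F) (he : IsIdem e) (hp : Pos ℓ e Z) (u : G)
    (hu1 : u ≠ 1) (hu : ∃ n : ℕ, u ^ ℓ ^ n = 1) (h0 : Subgroup.zpowers u ⊓ Z = ⊥) :
    YY ℓ ((Subgroup.centralizer ({u} : Set G) ⊓ Z).subgroupOf
      (Subgroup.centralizer ({u} : Set G)))
      (fun t : Subgroup.centralizer ({u} : Set G) => e t) = 0 := by
  set C : Subgroup G := Subgroup.centralizer ({u} : Set G) with hCdef
  have hmap : ((C ⊓ Z).subgroupOf C).map (j.comp C.subtype) =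
      Subgroup.centralizer ({j u} : Set X) ⊓ Y := by
    rw [← Subgroup.map_map, Subgroup.subgroupOf_map_subtype]
    ext t
    rw [Subgroup.mem_map, Subgroup.mem_inf, Subgroup.mem_centralizer_singleton_iff]
    constructor
    · rintro ⟨z, hz, rfl⟩
      have hz1 : z ∈ C := hz.2
      have hz2 : z ∈ Z := hz.1.2
      rw [hCdef, Subgroup.mem_centralizer_singleton_iff] at hz1
      refine ⟨?_, ?_⟩
      · rw [← map_mul, ← map_mul, hz1]
      · rw [← hZY]
        exact ⟨z, hz2, rfl⟩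
    · rintro ⟨h1, h2⟩
      rw [← hZY] at h2
      obtain ⟨z, hz, rfl⟩ := h2
      have hz1 : z ∈ C := by
        rw [hCdef, Subgroup.mem_centralizer_singleton_iff]
        apply hj
        rw [map_mul, map_mul]
        exact h1
      exact ⟨z, ⟨⟨hz1, hz⟩, hz1⟩, rfl⟩
  have hju : ∃ n : ℕ, (j u) ^ ℓ ^ n = 1 := by
    obtain ⟨n, hn⟩ := hu
    exact ⟨n, by rw [← map_pow, hn, map_one]⟩
  have hju1 : j u ≠ 1 := by
    intro h
    exact hu1 (hj (h.trans (map_one j).symm))
  have hinj : Function.Injective (j.comp C.subtype) :=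
    hj.comp C.subtype_injective
  refine ih G j Z u hj hZ hZY hu1 hu h0 ?_ _ (H67.idem_cent hB hF he hu) ?_
  · exact H9.mu_lt Y (j.comp C.subtype) hinj (j u) (H9.not_cent hF.prime hC hju1 hju) _ hmap
  · have h1 := hps ℓ F hF G (Subgroup.zpowers u) Z (H97.isPGroup_zp hu) hZ h0 e he hp C
      (H9.cent_zp u).le (fun g hg => H97.cent_le_norm hg)
    rw [H9.cent_zp, ← hCdef] at h1
    have h3 : (fun t : C => br (Subgroup.zpowers u) e t) = fun t : C => e t := by
      funext t
      unfold br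
      rw [if_pos]
      rw [H9.cent_zp]
      exact t.2
    rw [h3] at h1
    exact h1

/-- the alternating sums of `X` and of the normal subgroup `X₀` of index `ℓ` agree -/
theorem lqc_eq (hrkr : RkrStmt) (hlqr : LqrStmt) (hps : Ps1Stmt) (hB : BrmStmt)
    (hcux : CuxStmt) (hosi : OsiStmt) (ℓ : ℕ) (F : Type) [Field F] (hF : GoodF ℓ F)
    (X : Type) [Group X] [Finite X] (Y X₀ : Subgroup X) (hY : Y.Normal) (hn : X₀.Normal)
    (hYX : Y ≤ X₀) (hi : X₀.index = ℓ)
    (hC : ¬ ℓ ∣ Nat.card (Subgroup.centralizer (Y : Set X)))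
    (ih : IHC ℓ F Y)
    (e : X → F) (he : IsIdem e) (hp : Pos ℓ e Y) :
    YY ℓ Y e = YY ℓ (Y.subgroupOf X₀) (fun t : X₀ => e t) := by
  have hsupp : ∀ x, x ∉ X₀ → e x = 0 := fun x hx => H9.supp_idem hosi hF hn hi he hx
  have he₀ : IsIdem (fun t : X₀ => e t) := H9.idem_res he hsupp
  have hp₀ : Pos ℓ (fun t : X₀ => e t) (Y.subgroupOf X₀) := H9.pos_res hYX hp
  obtain ⟨h1, h2⟩ := hrkr ℓ F hF X Y hY e he (fun u hu1 hu h0 =>
    hyp_c hps hB hF Y hC ih (MonoidHom.id X) Function.injective_id Y hY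
      (Subgroup.map_id Y) e he hp u hu1 hu h0)
  have h3 := h2 X₀ hn hYX ⟨1, by rw [hi, pow_one]⟩
  have h4 := (hrkr ℓ F hF X₀ (Y.subgroupOf X₀) (hY.subgroupOf X₀) (fun t : X₀ => e t) he₀
    (fun u hu1 hu h0 => hyp_c hps hB hF Y hC ih X₀.subtype X₀.subtype_injective
      (Y.subgroupOf X₀) (hY.subgroupOf X₀)
      (by rw [Subgroup.subgroupOf_map_subtype, inf_eq_left.2 hYX]) (fun t : X₀ => e t) he₀ hp₀ u
      hu1 hu h0)).1
  have h5 := (hcux ℓ F X X₀ Y hYX e).2
  have hl : (ℓ : ℤ) ≠ 0 := Nat.cast_ne_zero.2 hF.prime.ne_zero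
  rw [← h1, ← h4, ← h5]
  apply mul_left_cancel₀ hl
  have h6 : (ℓ : ℤ) * ∑ d ∈ chainsOn (psubIn ℓ Y) ⊥, (-1) ^ (d.card + 1) *
      ((Nat.card (stab d) : ℤ) * (rk (fun t : stab d => br (top d) e t) (cfs F (stab d)) : ℤ)) =
      (ℓ : ℤ) * ∑ d ∈ chainsOn (psubIn ℓ Y) ⊥, (-1) ^ (d.card + 1) *
      ((Nat.card ↥(X₀ ⊓ stab d) : ℤ) *
      (rk (fun t : ↥(X₀ ⊓ stab d) => br (top d) e t) (cfs F ↥(X₀ ⊓ stab d)) : ℤ)) +
      ((ℓ : ℤ) + 1) * ∑ d ∈ chainsOn (psubIn ℓ Y) ⊥, (-1) ^ (d.card + 1) *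
      ((Nat.card (stab d) : ℤ) *
      (rk (fun t : stab d => br (top d) e t) (cfsO F (X₀.subgroupOf (stab d))) : ℤ)) := by
    rw [Finset.mul_sum, Finset.mul_sum, Finset.mul_sum, ← Finset.sum_add_distrib]
    refine Finset.sum_congr rfl fun d hd => ?_
    have h7 := congrArg (Nat.cast : ℕ → ℤ)
      (H9.term_id hlqr hB hosi hF hn hi he (H67.chainsOn_top hd))
    push_cast at h7
    rw [mul_left_comm, h7]
    ring
  rw [h6, h3, mul_zero, add_zero]

/-- LQC, from the modules of PP -/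
theorem lqc_core (hrkr : RkrStmt) (hlqr : LqrStmt) (hps : Ps1Stmt) (hB : BrmStmt)
    (hcux : CuxStmt) (hOSI : OsiStmt) : LqcStmt := by
  classical
  intro ℓ hl F _ hF
  have key : ∀ (n : ℕ) (X : Type) [Group X] [Finite X] (Y X₀ : Subgroup X), Y.Normal → X₀.Normal →
      Y ≤ X₀ → X₀.index = ℓ ^ n → ¬ ℓ ∣ Nat.card (Subgroup.centralizer (Y : Set X)) →
      IHC ℓ F Y →
      ∀ e : X → F, IsIdem e → Pos ℓ e Y →
        YY ℓ (Y.subgroupOf X₀) (fun t : X₀ => e t) = 0 → YY ℓ Y e = 0 := by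
    intro n
    induction n with
    | zero =>
      intro X _ _ Y X₀ _ _ hYX h0 _ _ e _ _ hYY
      rw [pow_zero, Subgroup.index_eq_one] at h0
      rw [H75.YY_subgroup ℓ X₀ Y hYX e, h0] at hYY
      simp only [inf_top_eq] at hYY
      exact hYY
    | succ n ih =>
      intro X _ _ Y X₀ hY hX₀ hYX h0 hC hIH e he hpos hYY
      obtain ⟨X₁, hX₁, h01, h1⟩ := H17.exists_index X₀ h0
      have hYX₁ : Y ≤ X₁ := hYX.trans h01
      have hs : ∀ t, t ∉ X₁ → e t = 0 := by
        intro t ht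
        apply hOSI ℓ F hF X e he t
        intro hreg
        exact ht (H17.reg_mem hX₁ h1 hreg)
      rw [lqc_eq hrkr hlqr hps hB hcux hOSI ℓ F hF X Y X₁ hY hX₁ hYX₁ h1 hC hIH e he hpos]
      refine ih X₁ (Y.subgroupOf X₁) (X₀.subgroupOf X₁) (hY.subgroupOf X₁) (hX₀.subgroupOf X₁)
        (Subgroup.comap_mono hYX) ?_ ?_ ?_ (fun t : X₁ => e t) (H17.idem_sub he hs)
        (H17.pos_sub hYX₁ hpos) ?_
      · have h2 : (X₀.subgroupOf X₁).index * X₁.index = X₀.index :=
          Subgroup.relIndex_mul_index h01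
        rw [h1, h0, pow_succ] at h2
        exact Nat.eq_of_mul_eq_mul_right hl.out.pos h2
      · intro hdiv
        apply hC
        refine hdiv.trans ?_
        let f : Subgroup.centralizer ((Y.subgroupOf X₁ : Subgroup X₁) : Set X₁) →*
            Subgroup.centralizer (Y : Set X) :=
          { toFun := fun z => ⟨z.1.1, by
              rw [Subgroup.mem_centralizer_iff]
              intro y hy
              have := Subgroup.mem_centralizer_iff.1 z.2 ⟨y, hYX₁ hy⟩ hy
              exact congrArg Subtype.val this⟩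
            map_one' := rfl
            map_mul' := fun _ _ => rfl }
        have hf : Function.Injective f := by
          intro a b hab
          have h3 : ((f a : Subgroup.centralizer (Y : Set X)) : X) = (f b : X) := by rw [hab]
          exact Subtype.ext (Subtype.ext h3)
        exact Subgroup.card_dvd_of_injective f hf
      · intro G _ _ j Z u hj hZ hZY hu1 hu h0' hmu
        refine hIH G (X₁.subtype.comp j) Z u (X₁.subtype_injective.comp hj) hZ ?_ hu1 hu h0'
          (lt_of_lt_of_le hmu (H17.mu_subgroupOf Y X₁ hYX₁))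
        rw [← Subgroup.map_map, hZY, Subgroup.map_subgroupOf_eq_of_le hYX₁]
      · let φ : X₀.subgroupOf X₁ →* X := X₁.subtype.comp (X₀.subgroupOf X₁).subtype
        have hφ : Function.Injective φ :=
          X₁.subtype_injective.comp (X₀.subgroupOf X₁).subtype_injective
        have h2 := H75.YY_transport ℓ φ hφ
          ((Y.subgroupOf X₁).subgroupOf (X₀.subgroupOf X₁)) e
        have h3 : ((Y.subgroupOf X₁).subgroupOf (X₀.subgroupOf X₁)).map φ = Y := by
          have h5 : Y.subgroupOf X₁ ≤ X₀.subgroupOf X₁ := Subgroup.comap_mono hYX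
          rw [← Subgroup.map_map, Subgroup.map_subgroupOf_eq_of_le h5,
            Subgroup.map_subgroupOf_eq_of_le hYX₁]
        have h4 : φ.range = X₀ := by
          rw [MonoidHom.range_comp, Subgroup.range_subtype, Subgroup.map_subgroupOf_eq_of_le h01]
        rw [h3, h4, ← H75.YY_subgroup ℓ X₀ Y hYX e, hYY] at h2
        exact h2
  intro X _ _ Y X₀ hY hX₀ hYX ⟨n, hn⟩ hC hIH e he hpos hYY
  exact key n X Y X₀ hY hX₀ hYX hn hC hIH e he hpos hYY

end Pool.Agent.PP.X2.H86
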