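import Pool.Agent.Helper66_AWS.S039
import Pool.Agent.Helper12_AWB.B111
import Pool.Agent.Helper12_AWB.B075
import Pool.Agent.Helper12_AWB.B073
import Pool.Agent.Helper12_AWB.B055
import Pool.Agent.Helper12_AWB.B047
import Pool.Agent.Helper12_AWB.B076
import Pool.Agent.Helper50_PP.Ffa
import Pool.Agent.Helper12_AWB.B058
import Pool.Agent.Helper66_PP.Pos1

/-! Copy (generated) of the module `Pool.Agent.Helper86_X2.Lqc` with import lines for the bundle Helper12_AWB. -/

/-!
# AWC, part X2, module LQC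
-/

noncomputable section

namespace Pool.Agent.PP.X2.H86

open Pool.Agent.PP

theorem lqc : LqcStmt :=
  lqc_core
    (H67.rkr H63.smt H43.smo H20.brm H43.can H47F.fxu Pool.Agent.Helper26_PP.cux
      (Pool.Agent.Helper26_PP.gue H94.nch H20.nls))
    (H60L.lqr H75.lqm (H65.fis H50.fld)) H66.ps1 H20.brm Pool.Agent.Helper26_PP.cux
    (H47O.osi H63.sma H74.rgl)

end Pool.Agent.PP.X2.H86
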