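import Pool.Agent.Helper12_AWB.B157
import Pool.Agent.Helper12_AWB.B100
import Pool.Agent.Helper66_AWS.S003
import Pool.Agent.Helper66_AWS.S011
import Pool.Agent.Helper66_AWS.S015
import Pool.Agent.Helper66_AWS.S016
import Pool.Agent.Helper66_AWS.S017
import Pool.Agent.Helper66_AWS.S018
import Pool.Agent.Helper66_AWS.S019
import Pool.Agent.Helper66_AWS.S020
import Pool.Agent.Helper66_AWS.S021
import Pool.Agent.Helper66_AWS.S022
import Pool.Agent.Helper66_AWS.S023
import Pool.Agent.Helper66_AWS.S024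
import Pool.Agent.Helper66_AWS.S025
import Pool.Agent.Helper66_AWS.S026
import Pool.Agent.Helper66_AWS.S027
import Pool.Agent.Helper66_AWS.S028
import Pool.Agent.Helper66_AWS.S029
import Pool.Agent.Helper66_AWS.S030
import Pool.Agent.Helper66_AWS.S031
import Pool.Agent.Helper66_AWS.S032
import Pool.Agent.Helper66_AWS.S033
import Pool.Agent.Helper66_AWS.S034
import Pool.Agent.Helper66_AWS.S035
import Pool.Agent.Helper66_AWS.S036
import Pool.Agent.Helper66_AWS.S037
import Pool.Agent.Helper66_AWS.S038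
import Pool.Agent.Helper66_AWS.S040
import Pool.Agent.Helper66_AWS.S041
import Pool.Agent.Helper66_AWS.S042
import Pool.Agent.Helper66_AWS.S043
import Pool.Agent.Helper66_AWS.S044

/-! Copy (generated) of the module `Pool.Agent.Helper18_X2.AsmA` with import lines for the bundle Helper12_AWB. -/

/-!
# AWC, part X2: the assembly, first part
-/

noncomputable section

namespace Pool.Agent.PP.X2.A

open Pool.Agent.PP Pool.Agent.PP.X2

/-! ## Quasisimple groups -/

theorem qua_ : QuaStmt := H31.qua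

theorem qmc_ : QmcStmt := H39.qmc

theorem lyb_ : LybStmt := H69.lyb qua_

theorem lym_ : LymStmt := H27.lym qua_

theorem lyu_ : LyuStmt := H11.lyu

theorem prm_ : PrmStmt := H94.prm qua_

theorem nrm_ : NrmStmt := H2.nrm qua_

theorem nre_ : NreStmt := H6.nre prm_ nrm_

theorem nrb_ : NrbStmt := H6.nrb nrm_

theorem mda_ : MdaStmt := H85.mda

/-! ## The class -/

theorem clr_ : ClrStmt := H21.clr lym_

theorem cls_ : ClsStmt := H69.cls nre_ mda_

theorem clb_ : ClbStmt := H21.clb nrb_ clr_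

theorem clq_ : ClqStmt := H41.clq lym_

theorem clp_ : ClpStmt := H41.clp lym_ mda_

theorem cle_ : CleStmt := H6.cle nrm_ lyb_ lym_

theorem cln_ : ClnStmt := H56.cln qua_ lyb_

theorem sqf_ : SqfStmt := H76.sqf

theorem clg_ : ClgStmt := H56.clg prm_ sqf_ qua_

/-! ## Fixed points -/

theorem fix_ : FixStmt := H85.fix

theorem fxp_ : FxpStmt := H85.fxp fix_

theorem fxi_ : FxiStmt := H85.fxi

theorem lfc_ : LfcStmt := H77.lfc lym_ lyb_

theorem alt_ : AltStmt := H39.alt qmc_ lyb_ fxi_ lfc_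

theorem fxc_ (orb : OrbfStmt) : FxcStmt := H51.fxc prm_ fxp_ orb alt_ sqf_ lyu_

theorem hyt_ : HytStmt := H77.hyt

/-! ## The character theoretic part -/

theorem s1m_ (enc : EncStmt) : S1mStmt := H17.s1m H67.s1nx enc hyt_

theorem s1c_ (enc : EncStmt) : S1cStmt :=
  H57.s1c H9.addStmt H96.fr_ Pool.Agent.AWR.H39.ps3 H96.sum_ H96.dbln_ (s1m_ enc) hyt_

theorem r2c_ : R2cStmt := H55.r2c cle_ hyt_

theorem mainC_ (orb : OrbfStmt) (enc : EncStmt) : MainCStmt :=
  H90.topc H96.fr_ H55.dz2 H96.rcn (H96.trn H20.nls) H96.yzr H66.ps1 Pool.Agent.AWR.H39.ps3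
    Pool.Agent.AWR.H39.gr1 Pool.Agent.AWR.H39.gr2 Pool.Agent.AWR.H39.mus H9.addStmt H20.brm
    H96.main_ clb_ clq_ clp_ cls_ cln_ (fxc_ orb) hyt_ (s1c_ enc) r2c_

theorem relC_ (orb : OrbfStmt) (enc : EncStmt) : RelCStmt :=
  H94.relC (mainC_ orb enc) (fxc_ orb) hyt_

end Pool.Agent.PP.X2.A
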