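import Pool.Agent.Helper12_AWB.B100
import Pool.Agent.Helper12_AWB.B157

/-! Copy (generated) of the module `Pool.Agent.Helper29_X2.Enc` with import lines for the bundle Helper12_AWB. -/

/-!
# AWC, part X2, module ENC: the end of the proof of S1 in the group `D`, for the class
-/

open scoped BigOperators

noncomputable section

namespace Pool.Agent.PP.X2.H29

open Pool.Agent.Helper51_AWC Pool.Agent.Helper79_WRA Pool.Agent.PP

theorem zpowers_pgroup {G : Type} [Group G] {ℓ : ℕ} {u : G} (h : ∃ n : ℕ, u ^ ℓ ^ n = 1) :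
    IsPGroup ℓ (Subgroup.zpowers u) := by
  obtain ⟨n, hn⟩ := h
  rintro ⟨x, hx⟩
  obtain ⟨z, rfl⟩ := Subgroup.mem_zpowers_iff.1 hx
  refine ⟨n, Subtype.ext ?_⟩
  show (u ^ z) ^ ℓ ^ n = 1
  rw [← zpow_natCast, ← zpow_mul, mul_comm, zpow_mul, zpow_natCast, hn, one_zpow]

theorem centralizer_zpowers {G : Type} [Group G] (u : G) :
    Subgroup.centralizer ((Subgroup.zpowers u : Subgroup G) : Set G) =
      Subgroup.centralizer ({u} : Set G) := by
  rw [Subgroup.zpowers_eq_closure, Subgroup.centralizer_closure]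

/-- ENC with all hypotheses -/
theorem enc_aux (hOSI : OsiStmt) (hYZR : YzrStmt) (hLQC : LqcStmt) (hFNC : FncStmt)
    (hFXC : FxcStmt) (hCLM : ClmStmt) (hHYT : HytStmt) : EncStmt := by
  classical
  intro ℓ hl F _ hF 𝒜 hcl S _ _ hS hdS hAS D _ _ M hM hO hns hCM hZ hZM hmu hhyp hY f hf hfaith
    hpos
  -- the homomorphism to `S`
  obtain ⟨φ, hφs, hφk⟩ : ∃ φ : M →* S, Function.Surjective φ ∧ φ.ker ≤ Subgroup.center M := by
    obtain ⟨T, hT1, hT2, hT3, -⟩ := hns
    have hT : IsSocle T S := ⟨hS, hT1, hT2, hT3⟩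
    have hMT := H96.map_eq_socle hS hT hM hZM hmu
    obtain ⟨ε⟩ := hT3
    let q : M →* T := ((QuotientGroup.mk' (Subgroup.center D)).comp M.subtype).codRestrict T
      fun x => by
        rw [← hMT]
        exact ⟨x, x.2, rfl⟩
    have hqs : Function.Surjective q := by
      rintro ⟨t, ht⟩
      have ht' := ht
      rw [← hMT] at ht'
      obtain ⟨x, hx, hxt⟩ := ht'
      exact ⟨⟨x, hx⟩, Subtype.ext hxt⟩
    refine ⟨ε.toMonoidHom.comp q, ε.surjective.comp hqs, ?_⟩
    intro x hx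
    have h0 : q x = 1 := by
      apply ε.injective
      rw [map_one]
      exact hx
    have h1 : QuotientGroup.mk' (Subgroup.center D) (x : D) = 1 := congrArg Subtype.val h0
    have h3 : (x : D) ∈ Subgroup.center D := (QuotientGroup.eq_one_iff _).1 h1
    rw [Subgroup.mem_center_iff]
    intro y
    exact Subtype.ext (Subgroup.mem_center_iff.1 h3 y)
  -- the centralisers of the `ℓ`-subgroups
  have key : ∀ (G : Type) [Group G] [Finite G] (j : G →* D), Function.Injective j →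
      ∀ Z : Subgroup G, Z.Normal → Nonempty (Z ≃* M) → ∀ P : Subgroup G, IsPGroup ℓ P →
      ∀ X : Subgroup G, Subgroup.centralizer (P : Set G) ≤ X →
      X ≤ Subgroup.normalizer (P : Set G) →
      ((Subgroup.centralizer (P : Set G) ⊓ Z).subgroupOf X).Normal →
      mu ((Subgroup.centralizer (P : Set G) ⊓ Z).subgroupOf X) < mu M →
      YH ℓ F ((Subgroup.centralizer (P : Set G) ⊓ Z).subgroupOf X) := by
    intro G _ _ j hj Z hZn hε P hP X h1 h2 hn hlt
    obtain ⟨ε⟩ := hε
    have hOZ : opCore ℓ Z = ⊥ := H96.opCore_bot_of_equiv ε (H96.opCore_normal hO hM)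
    have hclsZ : Cls ℓ 𝒜 Z := by
      refine hCLM ℓ 𝒜 S hS hdS hAS G Z hZn ⟨φ.comp ε.toMonoidHom, hφs.comp ε.surjective, ?_⟩
      intro x hx
      have h3 : ε x ∈ φ.ker := hx
      have h4 := hφk h3
      rw [Subgroup.mem_center_iff] at h4 ⊢
      intro y
      apply ε.injective
      rw [map_mul, map_mul]
      exact h4 (ε y)
    rcases hFXC ℓ 𝒜 hcl G Z hZn hOZ hclsZ P hP X h1 h2 with h | h
    · intro e _ _
      exact hYZR ℓ F hl.out X _ hn h e
    · refine hY X _ hn hlt h ?_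
      have hjX : Function.Injective (j.comp X.subtype) := hj.comp Subtype.val_injective
      refine (hHYT ℓ F 𝒜 D hhyp).1 X (j.comp X.subtype) ?_
      rw [(MonoidHom.ker_eq_bot_iff (j.comp X.subtype)).2 hjX]
      exact bot_le
  obtain ⟨⟨m, hm⟩, hv⟩ := H96.lqv (S := S) hS hO hns hM hCM hZM hmu
  obtain ⟨D₀, hle, hD₀, hrel, n, hn⟩ := H63.exists_D0 hM hm ℓ
  obtain ⟨h1, h2, hc, -, h5⟩ := hv D₀ hle hD₀ hrel
  have hs : ∀ t, t ∉ D₀ → f t = 0 := by
    intro t ht
    apply hOSI ℓ F hF D f hf t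
    intro hreg
    exact ht (H63.reg_mem_pow hD₀ hn hreg)
  have hf₀ : IsIdem (fun t : D₀ => f t) := H17.idem_sub hf hs
  have hpos₀ : Pos ℓ (fun t : D₀ => f t) (M.subgroupOf D₀) := H17.pos_sub hle hpos
  have hcardZ : Nat.card (Subgroup.center D₀) ∣ Nat.card (Subgroup.center D) := by
    rw [hc]
    exact Subgroup.card_comap_dvd_of_injective _ _ D₀.subtype_injective
  have hmu₀ : mu (M.subgroupOf D₀) = mu M := H63.mu_subgroupOf_eq hle hc
  have hstep : YY ℓ (M.subgroupOf D₀) (fun t : D₀ => f t) = 0 := by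
    refine hFNC ℓ F hF D₀ (M.subgroupOf D₀) (hM.subgroupOf D₀) ?_ ?_ ?_ ?_ _ hf₀ hpos₀ ?_
    · apply le_antisymm
      · intro x hx
        rw [hc, Subgroup.mem_subgroupOf, ← hCM, Subgroup.mem_centralizer_iff]
        intro y hy
        exact congrArg Subtype.val
          (Subgroup.mem_centralizer_iff.1 hx ⟨y, hle hy⟩ hy)
      · exact Subgroup.center_le_centralizer _
    · exact fun h => hZ (h.trans hcardZ)
    · rw [hc]
      intro x hx
      exact hZM hx
    · intro P hP _ X hX1 hX2 hX3 hlt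
      rw [hmu₀] at hlt
      exact key D₀ D₀.subtype D₀.subtype_injective (M.subgroupOf D₀) (hM.subgroupOf D₀)
        ⟨Subgroup.subgroupOfEquivOfLe hle⟩ P hP X hX1 hX2 hX3 hlt
    · intro hp
      have hHD₀ : Hyp ℓ F 𝒜 D₀ := by
        refine (hHYT ℓ F 𝒜 D hhyp).1 D₀ D₀.subtype ?_
        rw [(MonoidHom.ker_eq_bot_iff _).2 D₀.subtype_injective]
        exact bot_le
      refine hHD₀ S hS hdS hAS D₀ h1 h2 ?_ _ hf₀ (h5 F f hfaith) hp
      have hsj : Function.Surjective
          ((QuotientGroup.mk' (Subgroup.center D₀)).comp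
            (Subgroup.topEquiv : (⊤ : Subgroup D₀) ≃* D₀).toMonoidHom) :=
        (QuotientGroup.mk'_surjective (Subgroup.center D₀)).comp
          (Subgroup.topEquiv : (⊤ : Subgroup D₀) ≃* D₀).surjective
      exact ⟨⊤, _, hsj⟩
  refine hLQC ℓ F hF D M D₀ hM hD₀ hle ⟨n, hn⟩ ?_ ?_ f hf hpos hstep
  · rw [hCM]
    exact hZ
  · intro G _ _ j Z u hj hZn hZj hu hun _ hlt
    have hcu := centralizer_zpowers u
    have hk := key G j hj Z hZn
      ⟨(Z.equivMapOfInjective j hj).trans (MulEquiv.subgroupCongr hZj)⟩ (Subgroup.zpowers u)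
      (zpowers_pgroup hun) (Subgroup.centralizer ({u} : Set G)) hcu.le
      (by
        rw [← hcu]
        exact Subgroup.centralizer_le_normalizer _)
    rw [hcu] at hk
    refine hk ?_ hlt
    constructor
    intro x hx g
    rw [Subgroup.mem_subgroupOf] at hx ⊢
    exact ⟨(g * x * g⁻¹).2, hZn.conj_mem _ hx.2 g⟩

/-- ENC: the end of the proof of S1 in the group `D` (LQU for the class). -/
theorem enc (hLQC : LqcStmt) (hFNC : FncStmt) (hFXC : FxcStmt) (hCLM : ClmStmt)
    (hHYT : HytStmt) : EncStmt :=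
  enc_aux H96.osi_ H96.yzr hLQC hFNC hFXC hCLM hHYT

end Pool.Agent.PP.X2.H29
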