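import Pool.Agent.Helper12_AWB.B100
import Pool.Agent.Helper12_AWB.B156
import Pool.Agent.Helper12_AWB.B098
import Pool.Agent.Helper12_AWB.B056
import Pool.Agent.Helper12_AWB.B047
import Pool.Agent.Helper12_AWB.B046
import Pool.Agent.Helper12_AWB.B075
import Pool.Agent.Helper12_AWB.B055
import Pool.Agent.Helper50_PP.Dic
import Pool.Agent.Helper50_PP.Bid
import Pool.Agent.Helper12_AWB.B113
import Pool.Agent.Helper50_PP.Ffa

/-! Copy (generated) of the module `Pool.Agent.Helper19_X2.FinC` with import lines for the bundle Helper12_AWB. -/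

/-!
# AWC, part X2, module FINC: the final theorem

The proof follows `Pool.Agent.Helper75_PP.Fin2`.
-/

open scoped BigOperators

set_option linter.unusedSectionVars false

noncomputable section

namespace Pool.Agent.PP.X2.H19

open Pool.Agent.Helper51_AWC Pool.Agent.Helper79_WRA Pool.Agent.PP Pool.Agent.PP.H75

/-- Lemma Q, as in `Helper96_PP.Asm` -/
theorem lemQ_ : LemQStmt := by
  intro M _
  let _ := Ideal.Quotient.field M
  intro G _ _ N hN e he χ hχ he1 ψ hψ hover b b' hb hb1 hb' hne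
  exact H94.lemQ N hN hχ hψ hover he he1 hb hb1 hb' hne

/-- dividing by `O_ℓ` -/
theorem opCore_quot {ℓ : ℕ} [Fact ℓ.Prime] {A B : Type} [Group A] [Finite A] [Group B] [Finite B]
    {p : A →* B} (hp : Function.Surjective p) (hk : p.ker = opCore ℓ A) : opCore ℓ B = ⊥ := by
  obtain ⟨a1, a2, a3⟩ := opCore_spec ℓ A
  obtain ⟨b1, b2, -⟩ := opCore_spec ℓ B
  have h1 : IsPGroup ℓ ((opCore ℓ B).comap p) := by
    apply b2.comap_of_ker_isPGroup
    rw [hk]
    exact a2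
  have h2 : (opCore ℓ B).comap p ≤ opCore ℓ A := a3 _ (b1.comap p) h1
  rw [eq_bot_iff]
  intro y hy
  obtain ⟨x, rfl⟩ := hp y
  have h3 : x ∈ p.ker := by
    rw [hk]
    exact h2 hy
  exact Subgroup.mem_bot.2 h3

/-- FINC: the final theorem. -/
theorem finC (clg : ClgStmt) (clq : ClqStmt) (stc : StcStmt) (vc : VcStmt) (relc : RelCStmt) :
    FinCStmt := by
  intro ℓ hℓ M _ hM 𝒜 h𝒜 G _ _ hc N E hN hE hEN hlay hmod hgood χ hχ ψ hψ hχψ hL
  let _ := Ideal.Quotient.field M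
  have hfact := Fact.mk hℓ
  have dic : DicStmt := H50.dic H20.ibn H20.nls H20.brm
  have hF : GoodF ℓ (FF M) := H50.fld ℓ hℓ M hM
  have hn := H75.opCore_normal (A := G) ℓ
  obtain ⟨e, he, h1, h2⟩ := H50.bid ℓ hℓ M hM G χ hχ
  set p : G →* G ⧸ opCore ℓ G := QuotientGroup.mk' (opCore ℓ G) with hp
  have hker : p.ker = opCore ℓ G := QuotientGroup.ker_mk' _
  have hsurj : Function.Surjective p := QuotientGroup.mk'_surjective (opCore ℓ G)
  have hkp : IsPGroup ℓ p.ker := by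
    rw [hker]
    exact H75.opCore_isPGroup hℓ
  have hkc : p.ker ≤ Subgroup.center G := by
    rw [hker]
    exact hc
  have hpos : Pos ℓ (push p e) (N.map p) :=
    H75.pos_rel lemQ_ H50.bid H50.fld hℓ hM hsurj hker hkc hN hχ he h1 hψ hχψ hL
  have heq := altSum_central H20.nls H20.brm H63.smt H94.nch dic hℓ M hM hF hsurj hker hkp hkc χ hχ
    e he h1 h2
  have hQ : HypQ ℓ (FF M) 𝒜 (G ⧸ opCore ℓ G) := by
    intro S _ _ hS hlS hAS D _ _ hO hD hinv hcc e' he' hcl hpos'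
    apply H9.addStmt ℓ (FF M) hF D ⊤ inferInstance e' he'
    intro f hf hef
    have hfe : mulF f e' = f := by
      rw [mulF_comm_cl hf.1.1]
      exact hef
    have hposf : Pos ℓ f ⊤ := H46.pos_mono hf.1 hfe hpos'
    obtain ⟨ϑ, hϑ, k1, k2, k3⟩ := H75.block_case H20.nls H20.brm H63.smt H94.nch dic H50.bid
      H50.chp H50.ldp H50.fld hℓ hM hO hf hposf
    rw [← k3, hgood S hS hlS hAS D hO hcc hD (hinv.of_surjective p hsurj) ϑ hϑ
      (H75.faithful_char hf hef hcl hϑ k1) k2, mul_zero]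
  have hH : Hyp ℓ (FF M) 𝒜 (G ⧸ opCore ℓ G) := vc ℓ (FF M) hF 𝒜 h𝒜 _ (stc ℓ (FF M) hF 𝒜 _ hQ)
  have hcls : Cls ℓ 𝒜 N := clg ℓ 𝒜 G N E hE hEN hlay hmod
  have hcls' : Cls ℓ 𝒜 (N.map p) := clq ℓ 𝒜 G (G ⧸ opCore ℓ G) p N hsurj hcls
  have hNp : (N.map p).Normal := hN.map p hsurj
  have hOp : opCore ℓ (N.map p) = ⊥ := H96.opCore_normal (opCore_quot hsurj hker) hNp
  have h0 : YY ℓ (⊤ : Subgroup (G ⧸ opCore ℓ G)) (push p e) = 0 :=
    relc ℓ (FF M) hF 𝒜 h𝒜 _ (N.map p) hNp hOp hcls' hH _ (push_isIdem hsurj he.1) hpos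
  rw [h0, mul_zero] at heq
  rcases mul_eq_zero.1 heq with h | h
  · exact absurd h (by exact_mod_cast (Nat.card_pos (α := G)).ne')
  · exact h

end Pool.Agent.PP.X2.H19
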