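import Pool.Agent.Helper66_AWS.S045
import Pool.Agent.Helper66_AWS.S000
import Pool.Agent.Helper66_AWS.S046
import Pool.Agent.Helper66_AWS.S047
import Pool.Agent.Helper66_AWS.S048

/-! Copy (generated) of the module `Pool.Agent.Helper18_X2.AsmB` with import lines for the bundle Helper12_AWB. -/

/-!
# AWC, part X2: the assembly, second part
-/

noncomputable section

namespace Pool.Agent.PP.X2.A

open Pool.Agent.PP Pool.Agent.PP.X2

theorem orb_ : OrbfStmt := H10.orb qua_ fix_

theorem fxc0_ : FxcStmt := fxc_ orb_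

theorem enc_ (clm : ClmStmt) : EncStmt := H29.enc H86.lqc H52.fnc fxc0_ clm hyt_

theorem mainC0_ (clm : ClmStmt) : MainCStmt := mainC_ orb_ (enc_ clm)

theorem relC0_ (clm : ClmStmt) : RelCStmt := relC_ orb_ (enc_ clm)

theorem vc_ (clm : ClmStmt) : VcStmt := H29.vc (mainC0_ clm) clm hyt_

theorem finC_ (clm : ClmStmt) : FinCStmt := H19.finC clg_ clq_ H91.stc (vc_ clm) (relC0_ clm)

end Pool.Agent.PP.X2.A
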