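import Pool.Agent.Helper66_BN.Stmts

/-! Copy (generated) of the module `Pool.Agent.Helper66_BN.Bnm` with import lines for the bundle Helper12_AWB. -/

/-!
# Squad PP, part BN: the alternating sum vanishes in the situation `RkD`
-/

open scoped BigOperators

noncomputable section

namespace Pool.Agent.PP.BN.H66

open Pool.Agent.PP Pool.Agent.Helper51_AWC Pool.Agent.Helper79_WRA

variable {F D : Type} [Field F] [Group D]

/-- the character of the centre determined by `e ≠ 0` -/
theorem exists_zeta {e : D → F} (he : e ≠ 0)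
    (h : ∀ z ∈ Subgroup.center D, z ≠ 1 → ∃ c : F, ∀ x, e (z * x) = c * e x) :
    ∃ ζ : Subgroup.center D →* F, OverZ ζ e := by
  classical
  have h' : ∀ z : Subgroup.center D, ∃ c : F, ∀ x, e (z * x) = c * e x := by
    intro z
    by_cases hz : (z : D) = 1
    · exact ⟨1, fun x => by rw [hz, one_mul, one_mul]⟩
    · exact h z z.2 hz
  obtain ⟨x₀, hx₀⟩ : ∃ x, e x ≠ 0 := by
    by_contra hcon
    push Not at hcon
    exact he (funext hcon)
  choose c hc using h'
  refine ⟨⟨⟨c, ?_⟩, ?_⟩, fun z x => hc z x⟩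
  · have h1 := hc 1 x₀
    rw [OneMemClass.coe_one, one_mul] at h1
    exact (mul_right_cancel₀ hx₀ (by rw [← h1, one_mul]) : c 1 = 1)
  · intro z w
    have h1 := hc (z * w) x₀
    rw [Subgroup.coe_mul, mul_assoc, hc z, hc w, ← mul_assoc] at h1
    exact (mul_right_cancel₀ hx₀ h1).symm

theorem ibr_ne_zero (hibf : IbfStmt) {ℓ : ℕ} (hF : GoodF ℓ F) [Finite D] {f : D → F}
    (hf : f ∈ IBr F D) : f ≠ 0 :=
  (hibf ℓ F hF D).2.ne_zero ⟨f, hf⟩

/-- BNM -/
theorem bnm (hch : ChStmt) (hbru : BruStmt) (hnlu : NluStmt) (hcnb : CnbStmt) (hibf : IbfStmt) :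
    BnmStmt := by
  intro ℓ _ F _ hF D _ _ M U T n h e he hz hpos
  rw [hch ℓ F D M U T n h e he.1]
  by_cases h0 : e = 0
  · subst h0
    have h1 : ∀ (X : Type) [Group X] [Finite X],
        {f : X → F | f ∈ IBr F X ∧ actF (fun _ => (0 : F)) f = f}.ncard = 0 := by
      intro X _ _
      have h2 : {f : X → F | f ∈ IBr F X ∧ actF (fun _ => (0 : F)) f = f} = ∅ := by
        ext f
        simp only [Set.mem_setOf_eq, Set.mem_empty_iff_false, iff_false, not_and]
        intro hf h3
        refine ibr_ne_zero hibf hF hf ?_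
        rw [← h3]
        funext x
        simp only [actF, zero_mul, finsum_zero, Pi.zero_apply]
      rw [h2, Set.ncard_empty]
    have h4 := h1 D
    have h5 := h1 (Subgroup.normalizer (U : Set D))
    have h6 : lnum (Subgroup.normalizer (U : Set D)) (0 : D → F) = 0 := h5
    have h7 : {f : D → F | f ∈ IBr F D ∧ actF (0 : D → F) f = f}.ncard = 0 := h4
    rw [h6, h7]
    simp
  · obtain ⟨ζ, hζ⟩ := exists_zeta h0 hz
    obtain ⟨-, -, h1⟩ := hbru ℓ F hF D M U T n h ζ
    obtain ⟨h2, -⟩ := h1 e he hζ h0 hpos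
    have hpU : IsPGroup ℓ U := by
      have h3 := h.bn.pU.map M.subtype
      rwa [Subgroup.map_subgroupOf_eq_of_le h.UM] at h3
    rw [hnlu ℓ F hF D U hpU e he.1, h2, hcnb ℓ F hF D M U T n h ζ e he hζ h0 hpos, sub_self]

end Pool.Agent.PP.BN.H66
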