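import Pool.Agent.Helper66_BN.Stmts

/-! Copy (generated) of the module `Pool.Agent.Helper66_BN.Co2` with import lines for the bundle Helper12_AWB. -/

/-!
# Squad PP, part BN: the correspondence and the centre
-/

open scoped BigOperators

noncomputable section

namespace Pool.Agent.PP.BN.H66

open Pool.Agent.PP Pool.Agent.Helper51_AWC Pool.Agent.Helper79_WRA

variable {F D : Type} [Field F] [Group D]

theorem sum_inj {A B : Type} (j : A → B) (hj : Function.Injective j) (f : B → F)
    (h : ∀ b, b ∉ Set.range j → f b = 0) : ∑ᶠ b, f b = ∑ᶠ a, f (j a) := by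
  rw [← finsum_mem_range hj, ← finsum_mem_univ]
  refine finsum_mem_inter_support_eq' f _ _ fun b hb => ?_
  simp only [Set.mem_univ, true_iff]
  by_contra hcon
  exact hb (h b hcon)

/-- the trace of an irreducible representation is not zero -/
theorem tr_ne {G : Type} [Group G] {k : ℕ} {ρ : G →* Matrix (Fin k) (Fin k) F} (h : IsIrr ρ) :
    ∃ g, tr ρ g ≠ 0 := by
  by_contra hcon
  push Not at hcon
  have h1 : ∀ A : Matrix (Fin k) (Fin k) F, A.trace = 0 := by
    intro A
    have hA : A ∈ Submodule.span F (Set.range ρ) := by rw [h.2]; trivial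
    induction hA using Submodule.span_induction with
    | mem x hx =>
      obtain ⟨g, rfl⟩ := hx
      exact hcon g
    | zero => exact Matrix.trace_zero _ _
    | add x y _ _ hx hy => rw [Matrix.trace_add, hx, hy, add_zero]
    | smul a x _ hx => rw [Matrix.trace_smul, hx, smul_zero]
  have h2 := h1 (Matrix.single ⟨0, h.1⟩ ⟨0, h.1⟩ 1)
  rw [Matrix.trace_single_eq_same] at h2
  exact one_ne_zero h2

/-- central elements act as scalars -/
theorem central_scalar {G : Type} [Group G] {k : ℕ} {ρ : G →* Matrix (Fin k) (Fin k) F}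
    (h : IsIrr ρ) {z : G} (hz : ∀ g : G, z * g = g * z) : ∃ w : F, ρ z = Matrix.scalar (Fin k) w := by
  have h1 : ∀ A : Matrix (Fin k) (Fin k) F, Commute A (ρ z) := by
    intro A
    have hA : A ∈ Submodule.span F (Set.range ρ) := by rw [h.2]; trivial
    induction hA using Submodule.span_induction with
    | mem x hx =>
      obtain ⟨g, rfl⟩ := hx
      show ρ g * ρ z = ρ z * ρ g
      rw [← map_mul, ← map_mul, hz]
    | zero => exact Commute.zero_left _
    | add x y _ _ hx hy => exact hx.add_left hy
    | smul a x _ hx => exact hx.smul_left a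
  obtain ⟨w, hw⟩ := Matrix.mem_range_scalar_of_commute_single (M := ρ z)
    (fun i j _ => h1 (Matrix.single i j 1))
  exact ⟨w, hw.symm⟩

/-- CO2 -/
theorem co2 : Co2Stmt := by
  intro ℓ _ F _ hF D _ _ M U T n hD ζ φ κ hc
  obtain ⟨k, ρ, v, h1, h2, h3, h4, h5, h6⟩ := hc
  have hZM : Subgroup.center D ≤ M := hD.zT.trans hD.TM
  have hZN : Subgroup.center D ≤ Subgroup.normalizer (U : Set D) := by
    intro z hz
    rw [Subgroup.mem_normalizer_iff]
    intro u
    rw [(Subgroup.mem_center_iff.1 hz u).symm, mul_assoc, mul_inv_cancel, mul_one]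
  -- the two inclusions
  let jM : Subgroup.center D → M := fun z => ⟨z, hZM z.2⟩
  let jB : Subgroup.center D → M.subgroupOf (Subgroup.normalizer (U : Set D)) :=
    fun z => ⟨⟨z, hZN z.2⟩, hZM z.2⟩
  have hjM : Function.Injective jM := fun a b hab => Subtype.ext (congrArg (fun t : M => (t : D)) hab)
  have hjB : Function.Injective jB := fun a b hab => Subtype.ext
    (congrArg (fun t : M.subgroupOf (Subgroup.normalizer (U : Set D)) =>
      ((t : Subgroup.normalizer (U : Set D)) : D)) hab)
  have hez : ∀ x : D, x ∉ Subgroup.center D → ez ζ x = 0 := by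
    intro x hx
    simp only [ez, dif_neg hx]
  -- the scalars
  have hsc : ∀ z : Subgroup.center D, ρ (jM z) = Matrix.scalar (Fin k) (κ (jB z)) := by
    intro z
    obtain ⟨w, hw⟩ := central_scalar h1 (z := jM z) (fun g => Subtype.ext
      (Subgroup.mem_center_iff.1 z.2 g).symm)
    have h7 := h5 (jB z)
    have h8 : (ρ (jM z)).mulVec v = κ (jB z) • v := h7
    rw [hw, Matrix.scalar_apply, ← Matrix.smul_one_eq_diagonal, Matrix.smul_mulVec,
      Matrix.one_mulVec] at h8
    have h9 : w = κ (jB z) := by
      by_contra hne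
      have h10 : (w - κ (jB z)) • v = 0 := by rw [sub_smul, h8, sub_self]
      rcases smul_eq_zero.1 h10 with h11 | h11
      · exact hne (sub_eq_zero.1 h11)
      · exact h4 h11
    rw [hw, h9]
  have hκ : ∀ a b, κ (a * b) = κ a * κ b := by
    intro a b
    have h7 : κ (a * b) • v = (κ a * κ b) • v := by
      rw [← h5 (a * b)]
      have h8 : (⟨(((a * b : M.subgroupOf (Subgroup.normalizer (U : Set D))) :
          Subgroup.normalizer (U : Set D)) : D), (a * b).2⟩ : M) =
          ⟨((a : Subgroup.normalizer (U : Set D)) : D), a.2⟩ *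
          ⟨((b : Subgroup.normalizer (U : Set D)) : D), b.2⟩ := rfl
      rw [h8, map_mul, ← Matrix.mulVec_mulVec, h5, Matrix.mulVec_smul, h5, smul_smul, mul_comm]
    by_contra hne
    have h10 : (κ (a * b) - κ a * κ b) • v = 0 := by rw [sub_smul, h7, sub_self]
    rcases smul_eq_zero.1 h10 with h11 | h11
    · exact hne (sub_eq_zero.1 h11)
    · exact h4 h11
  have hκ1 : κ 1 = 1 := by
    have h7 := h5 1
    have h8 : (ρ 1).mulVec v = κ 1 • v := h7
    rw [map_one, Matrix.one_mulVec] at h8
    by_contra hne
    have h10 : (κ 1 - 1) • v = 0 := by rw [sub_smul, ← h8, one_smul, sub_self]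
    rcases smul_eq_zero.1 h10 with h11 | h11
    · exact hne (sub_eq_zero.1 h11)
    · exact h4 h11
  set s : F := ∑ᶠ z : Subgroup.center D, ez ζ z * κ (jB z) with hs
  have hM : ∀ x : M, actF (fun t : M => ez ζ t) φ x = s * φ x := by
    intro x
    unfold actF
    rw [sum_inj jM hjM]
    · rw [hs, finsum_mul' _ _ (Set.toFinite _)]
      refine finsum_congr fun z => ?_
      rw [← h2]
      show ez ζ z * (ρ (jM z * x)).trace = _
      rw [map_mul, hsc, mul_assoc]
      congr 1
      rw [Matrix.scalar_apply, ← Matrix.smul_one_eq_diagonal, Matrix.smul_mul, one_mul,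
        Matrix.trace_smul, smul_eq_mul]
      rfl
    · intro t ht
      have h7 : (t : D) ∉ Subgroup.center D := fun h8 => ht ⟨⟨t, h8⟩, rfl⟩
      show ez ζ (t : D) * _ = 0
      rw [hez _ h7, zero_mul]
  have hB : ∀ x : M.subgroupOf (Subgroup.normalizer (U : Set D)),
      actF (fun t : M.subgroupOf (Subgroup.normalizer (U : Set D)) =>
        ez ζ ((t : Subgroup.normalizer (U : Set D)) : D)) κ x = s * κ x := by
    intro x
    unfold actF
    rw [sum_inj jB hjB]
    · rw [hs, finsum_mul' _ _ (Set.toFinite _)]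
      refine finsum_congr fun z => ?_
      rw [hκ, mul_assoc]
    · intro t ht
      have h7 : ((t : Subgroup.normalizer (U : Set D)) : D) ∉ Subgroup.center D :=
        fun h8 => ht ⟨⟨_, h8⟩, rfl⟩
      show ez ζ ((t : Subgroup.normalizer (U : Set D)) : D) * _ = 0
      rw [hez _ h7, zero_mul]
  have hl : (actF (fun t : M => ez ζ t) φ = φ) ↔ s = 1 := by
    constructor
    · intro h
      obtain ⟨g, hg⟩ := tr_ne h1
      rw [h2] at hg
      have h7 := congrFun h g
      rw [hM] at h7
      exact mul_right_cancel₀ hg (by rw [h7, one_mul])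
    · intro h
      funext x
      rw [hM, h, one_mul]
  have hr : (actF (fun t : M.subgroupOf (Subgroup.normalizer (U : Set D)) =>
      ez ζ ((t : Subgroup.normalizer (U : Set D)) : D)) κ = κ) ↔ s = 1 := by
    constructor
    · intro h
      have h7 := congrFun h 1
      rw [hB, hκ1, mul_one] at h7
      exact h7
    · intro h
      funext x
      rw [hB, h, one_mul]
  rw [hl, hr]

end Pool.Agent.PP.BN.H66
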