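import Pool.Agent.Helper12_AWB.B156
import Pool.Agent.Helper66_AWS.S052
import Pool.Agent.Helper36_PP.StmtsCY

/-! Copy (generated) of the module `Pool.Agent.Helper66_BN.Fin3` with import lines for the bundle Helper12_AWB. -/

/-!
# Squad PP: the final theorem, relative form, without the simple groups of rank one in
characteristic `ℓ` and those with a cyclic TI Sylow `ℓ`-subgroup
-/

open scoped BigOperators

set_option linter.unusedSectionVars false

noncomputable section

namespace Pool.Agent.PP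

open Pool.Agent.Helper51_AWC Pool.Agent.Helper79_WRA

/-- `GoodC2` only for the simple groups `S` which are neither of rank one in characteristic `ℓ` nor
have a cyclic TI Sylow `ℓ`-subgroup. -/
def GoodC3 (ℓ : ℕ) (M : Ideal (integralClosure ℤ ℂ)) {G : Type} [Group G] (N : Subgroup G) :
    Prop :=
  ∀ (S : Type) [Group S] [Finite S], NonabSimple S → ℓ ∣ Nat.card S → Involves N S →
    ¬ RankOne ℓ S → ¬ CyTI ℓ S →
    ∀ (D : Type) [Group D] [Finite D], opCore ℓ D = ⊥ → Subgroup.center D ≤ commutator D →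
      NearlySimpleF ℓ D S → Involves G (D ⧸ Subgroup.center D) →
      ∀ χ ∈ Irr D, (∀ z ∈ Subgroup.center D, χ z = χ 1 → z = 1) → LargeDefect ℓ M χ →
        altSum ℓ M χ = 0

/-- The final theorem, relative form, with the two unconditional families. -/
def FinStmt3 : Prop := ∀ (ℓ : ℕ), ℓ.Prime → ∀ (M : Ideal (integralClosure ℤ ℂ)) [M.IsMaximal],
  (ℓ : integralClosure ℤ ℂ) ∈ M → ∀ (G : Type) [Group G] [Finite G],
  opCore ℓ G ≤ Subgroup.center G → ∀ N : Subgroup G, N.Normal → GoodC3 ℓ M N →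
  ∀ χ ∈ Irr G, ∀ ψ ∈ Irr N, (∑ᶠ n : N, χ n * starRingEnd ℂ (ψ n)) ≠ 0 → LargeDefect ℓ M ψ →
    altSum ℓ M χ = 0

namespace BN.H66

open Pool.Agent.PP.H75

/-- the final theorem, relative form, with the two unconditional families -/
theorem fin3 (hg1 : G1Stmt) (hg2 : G2Stmt) (hbnm : BnmStmt) (hcyf : CyfStmt) (hcyt : CytStmt)
    (relq : RelQStmt) (lemq : LemQStmt) (add : AddStmt) (nls : NlsStmt) (brm : BrmStmt)
    (smt : SmtStmt) (nch : NchStmt) (dic : DicStmt) (bid : BidStmt) (chp : ChpStmt)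
    (ldp : LdpStmt) (fld : FldStmt) : FinStmt3 := by
  intro ℓ hℓ M _ hM G _ _ hc N hN hgood χ hχ ψ hψ hχψ hL
  let _ := Ideal.Quotient.field M
  have hfact := Fact.mk hℓ
  have hF : GoodF ℓ (FF M) := fld ℓ hℓ M hM
  have hn := opCore_normal (A := G) ℓ
  obtain ⟨e, he, h1, h2⟩ := bid ℓ hℓ M hM G χ hχ
  set p : G →* G ⧸ opCore ℓ G := QuotientGroup.mk' (opCore ℓ G) with hp
  have hker : p.ker = opCore ℓ G := QuotientGroup.ker_mk' _
  have hsurj : Function.Surjective p := QuotientGroup.mk'_surjective (opCore ℓ G)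
  have hkp : IsPGroup ℓ p.ker := by
    rw [hker]
    exact opCore_isPGroup hℓ
  have hkc : p.ker ≤ Subgroup.center G := by
    rw [hker]
    exact hc
  have hpos : Pos ℓ (push p e) (N.map p) :=
    pos_rel lemq bid fld hℓ hM hsurj hker hkc hN hχ he h1 hψ hχψ hL
  have heq := altSum_central nls brm smt nch dic hℓ M hM hF hsurj hker hkp hkc χ hχ e he h1 h2
  have hgoodQ : GoodQ ℓ (FF M) (N.map p) := by
    intro S _ _ hS hlS hNS D _ _ hO hD hinv hcc e' he' hcl hpos'
    by_cases hR : RankOne ℓ S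
    · refine bnx_one hg1 hg2 hbnm ℓ (FF M) hF S hS hR D hO hD.nearlySimpleL e' he' ?_ hpos'
      intro z hz1 hz2
      obtain ⟨c, -, hc⟩ := hcl z hz1 hz2
      exact ⟨c, hc⟩
    by_cases hC : CyTI ℓ S
    · obtain ⟨P, hP, hcyc⟩ := hC
      obtain ⟨U, hU, ⟨φ⟩⟩ := hcyt ℓ D S hO hS hD.nearlySimpleL P hP
      have hcU : IsCyclic U := isCyclic_of_surjective φ.symm.toMonoidHom φ.symm.surjective
      exact hcyf ℓ (FF M) hF D U hU hcU hO e' he' hpos'
    apply add ℓ (FF M) hF D ⊤ inferInstance e' he'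
    intro f hf hef
    have hfe : mulF f e' = f := by
      rw [mulF_comm_cl hf.1.1]
      exact hef
    have hposf : Pos ℓ f ⊤ := H46.pos_mono hf.1 hfe hpos'
    obtain ⟨ϑ, hϑ, k1, k2, k3⟩ := block_case nls brm smt nch dic bid chp ldp fld hℓ hM hO hf hposf
    rw [← k3, hgood S hS hlS (hNS.of_surjective (p.subgroupMap N) (p.subgroupMap_surjective N)) hR
      hC D hO hcc hD (hinv.of_surjective p hsurj) ϑ hϑ (faithful_char hf hef hcl hϑ k1) k2,
      mul_zero]
  have h0 : YY ℓ (⊤ : Subgroup (G ⧸ opCore ℓ G)) (push p e) = 0 :=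
    relq ℓ (FF M) hF _ (N.map p) (hN.map p hsurj) hgoodQ _ (push_isIdem hsurj he.1) hpos
  rw [h0, mul_zero] at heq
  rcases mul_eq_zero.1 heq with h | h
  · exact absurd h (by exact_mod_cast (Nat.card_pos (α := G)).ne')
  · exact h

end BN.H66

end Pool.Agent.PP
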