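import Pool.Agent.Helper66_BN.Stmts

/-! Copy (generated) of the module `Pool.Agent.Helper5_BN.Co1` with import lines for the bundle Helper12_AWB. -/

/-!
# Squad PP, part BN, module BC1: the correspondence is a bijection
-/

open scoped BigOperators

noncomputable section

namespace Pool.Agent.PP.BN.H5

open Pool.Agent.PP Pool.Agent.Helper51_AWC Pool.Agent.Helper79_WRA

section

variable {F D : Type} [Field F] [Group D]

theorem sup_dec {U T : Subgroup D} (h : ∀ t ∈ T, ∀ u ∈ U, t * u * t⁻¹ ∈ U) {x : D}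
    (hx : x ∈ U ⊔ T) : ∃ u ∈ U, ∃ t ∈ T, x = u * t := by
  let K : Subgroup D :=
    { carrier := {x | ∃ u ∈ U, ∃ t ∈ T, x = u * t}
      mul_mem' := by
        rintro _ _ ⟨u, hu, t, ht, rfl⟩ ⟨u', hu', t', ht', rfl⟩
        exact ⟨u * (t * u' * t⁻¹), U.mul_mem hu (h t ht u' hu'), t * t', T.mul_mem ht ht',
          by group⟩
      one_mem' := ⟨1, U.one_mem, 1, T.one_mem, (mul_one 1).symm⟩
      inv_mem' := by
        rintro _ ⟨u, hu, t, ht, rfl⟩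
        exact ⟨t⁻¹ * u⁻¹ * t⁻¹⁻¹, h t⁻¹ (T.inv_mem ht) u⁻¹ (U.inv_mem hu), t⁻¹, T.inv_mem ht,
          by group⟩ }
  have hUK : U ≤ K := fun u hu => ⟨u, hu, 1, T.one_mem, (mul_one u).symm⟩
  have hTK : T ≤ K := fun t ht => ⟨1, U.one_mem, t, ht, (one_mul t).symm⟩
  exact sup_le hUK hTK hx

variable {ℓ : ℕ} {M U T : Subgroup D} {n : M}

theorem T_le (hR : RkD ℓ M U T n) : T ≤ Subgroup.normalizer (U : Set D) := by
  have h : T ≤ Subgroup.normalizer (U : Set D) ⊓ M := by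
    rw [hR.norm]
    exact le_sup_right
  exact h.trans inf_le_left

theorem U_le : U ≤ Subgroup.normalizer (U : Set D) := Subgroup.le_normalizer

theorem nU {x u : D} (hx : x ∈ Subgroup.normalizer (U : Set D)) (hu : u ∈ U) :
    x * u * x⁻¹ ∈ U := (Subgroup.mem_normalizer_iff.1 hx u).1 hu

/-- the group `B` -/
abbrev BB (M U : Subgroup D) : Subgroup (Subgroup.normalizer (U : Set D)) :=
  M.subgroupOf (Subgroup.normalizer (U : Set D))

/-- the element of `M` -/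
def toM (b : BB M U) : M := ⟨((b : Subgroup.normalizer (U : Set D)) : D), b.2⟩

/-- the element of `B` -/
def mk (x : D) (hx : x ∈ Subgroup.normalizer (U : Set D)) (hM : x ∈ M) : BB M U := ⟨⟨x, hx⟩, hM⟩

theorem dec (hR : RkD ℓ M U T n) (b : BB M U) : ∃ (u : D) (hu : u ∈ U) (t : D) (ht : t ∈ T),
    b = mk u (U_le hu) (hR.UM hu) * mk t (T_le hR ht) (hR.TM ht) := by
  have hb : ((b : Subgroup.normalizer (U : Set D)) : D) ∈ U ⊔ T := by
    rw [← hR.norm]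
    exact ⟨b.1.2, b.2⟩
  obtain ⟨u, hu, t, ht, h⟩ := sup_dec (fun t ht u hu => nU (T_le hR ht) hu) hb
  exact ⟨u, hu, t, ht, Subtype.ext (Subtype.ext h)⟩

/-- the subgroup `U` of `B` -/
def UB (M U : Subgroup D) : Subgroup (BB M U) :=
  (U.subgroupOf (Subgroup.normalizer (U : Set D))).subgroupOf (BB M U)

/-- the subgroup `T` of `B` -/
def TB (M U T : Subgroup D) : Subgroup (BB M U) :=
  (T.subgroupOf (Subgroup.normalizer (U : Set D))).subgroupOf (BB M U)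

theorem mem_UB {b : BB M U} : b ∈ UB M U ↔ ((b : Subgroup.normalizer (U : Set D)) : D) ∈ U :=
  Iff.rfl

theorem mem_TB {b : BB M U} : b ∈ TB M U T ↔ ((b : Subgroup.normalizer (U : Set D)) : D) ∈ T :=
  Iff.rfl

/-- from `T` in `M` to `B` -/
def tB (hR : RkD ℓ M U T n) : T.subgroupOf M →* BB M U where
  toFun t := mk ((t : M) : D) (T_le hR t.2) (t : M).2
  map_one' := rfl
  map_mul' _ _ := rfl

/-- from `T` in `B` to `T` in `M` -/
def tM (M U T : Subgroup D) : TB M U T →* T.subgroupOf M where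
  toFun t := ⟨toM (t : BB M U), t.2⟩
  map_one' := rfl
  map_mul' _ _ := rfl

theorem wts (hw : WtsStmt) [Fact ℓ.Prime] (hF : GoodF ℓ F) [Finite D] (hR : RkD ℓ M U T n) :
    (∀ φ : BB M U → F, φ ∈ IBr F (BB M U) ↔ ∃ κ : BB M U →* F, φ = κ) ∧
    (∀ κ : BB M U →* F, ∀ u ∈ UB M U, κ u = 1) ∧
    (∀ μ : TB M U T →* F, ∃ κ : BB M U →* F, ∀ t : TB M U T, κ t = μ t) := by
  obtain ⟨h1, h2, h3⟩ := hw ℓ F hF (BB M U) (UB M U) (TB M U T)
    ⟨fun a ha g => mem_UB.2 (nU (U := U) (x := ((g : Subgroup.normalizer (U : Set D)) : D))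
      (u := ((a : Subgroup.normalizer (U : Set D)) : D)) g.1.2 ha)⟩
    (fun g => by
      obtain ⟨k, hk⟩ := hR.bn.pU ⟨toM (g : BB M U), g.2⟩
      refine ⟨k, ?_⟩
      have h4 := congrArg (fun z : U.subgroupOf M => ((z : M) : D)) hk
      exact Subtype.ext (Subtype.ext (Subtype.ext h4)))
    (fun a ha b hb => by
      have h4 := hR.bn.com (toM a) ha (toM b) hb
      exact Subtype.ext (Subtype.ext (congrArg (fun z : M => (z : D)) h4)))
    (by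
      refine eq_top_iff.2 fun b _ => ?_
      obtain ⟨u, hu, t, ht, rfl⟩ := dec hR b
      exact Subgroup.mul_mem_sup (show _ ∈ UB M U from hu) (show _ ∈ TB M U T from ht))
  refine ⟨h1, h2, h3 ?_⟩
  have h5 : Nat.card (TB M U T) = Nat.card (T.subgroupOf M) := by
    refine Nat.card_congr ⟨fun t => tM M U T t, fun t => ⟨tB hR t, t.2⟩, fun _ => rfl, fun _ => rfl⟩
  rw [h5]
  exact hR.bn.cop

theorem act_eq (hR : RkD ℓ M U T n) (κ : BB M U →* F) (hκ : ∀ u ∈ UB M U, κ u = 1) {k : ℕ}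
    (ρ : M →* Matrix (Fin k) (Fin k) F) (v : Fin k → F)
    (hU : ∀ u ∈ U.subgroupOf M, (ρ u).mulVec v = v)
    (hT : ∀ t : T.subgroupOf M, (ρ t).mulVec v = κ (tB hR t) • v) (b : BB M U) :
    (ρ ⟨((b : Subgroup.normalizer (U : Set D)) : D), b.2⟩).mulVec v = κ b • v := by
  obtain ⟨u, hu, t, ht, rfl⟩ := dec hR b
  have h1 := hU ⟨u, hR.UM hu⟩ hu
  have h2 := hT ⟨⟨t, hR.TM ht⟩, ht⟩
  have h3 : κ (mk u (U_le hu) (hR.UM hu)) = 1 := hκ _ hu
  have h4 : (⟨(((mk u (U_le hu) (hR.UM hu) * mk t (T_le hR ht) (hR.TM ht) : BB M U) :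
      Subgroup.normalizer (U : Set D)) : D),
      (mk u (U_le hu) (hR.UM hu) * mk t (T_le hR ht) (hR.TM ht) : BB M U).2⟩ : M) =
      ⟨u, hR.UM hu⟩ * ⟨t, hR.TM ht⟩ := rfl
  rw [h4, map_mul ρ, map_mul κ, h3, one_mul, ← Matrix.mulVec_mulVec]
  have h5 : (ρ ⟨t, hR.TM ht⟩).mulVec v = κ (mk t (T_le hR ht) (hR.TM ht)) • v := h2
  rw [h5, Matrix.mulVec_smul, h1]

theorem hom_of {k : ℕ} {ρ : M →* Matrix (Fin k) (Fin k) F} {v : Fin k → F} (hv : v ≠ 0)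
    {κ : BB M U → F}
    (h : ∀ b : BB M U, (ρ ⟨((b : Subgroup.normalizer (U : Set D)) : D), b.2⟩).mulVec v = κ b • v) :
    ∃ κ' : BB M U →* F, κ = κ' := by
  refine ⟨⟨⟨κ, ?_⟩, ?_⟩, rfl⟩
  · have h1 := h 1
    have h2 : (⟨(((1 : BB M U) : Subgroup.normalizer (U : Set D)) : D), (1 : BB M U).2⟩ : M) = 1 :=
      rfl
    rw [h2, map_one, Matrix.one_mulVec] at h1
    exact (smul_left_injective F hv (by simpa using h1)).symm
  · intro a b
    have h1 := h (a * b)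
    have h2 : (⟨(((a * b : BB M U) : Subgroup.normalizer (U : Set D)) : D),
        (a * b : BB M U).2⟩ : M) = ⟨((a : Subgroup.normalizer (U : Set D)) : D), a.2⟩ *
        ⟨((b : Subgroup.normalizer (U : Set D)) : D), b.2⟩ := rfl
    rw [h2, map_mul, ← Matrix.mulVec_mulVec, h b, Matrix.mulVec_smul, h a, smul_smul] at h1
    have h3 := smul_left_injective F hv h1
    change κ (a * b) = κ a * κ b
    rw [← h3]
    exact mul_comm _ _

/-- the weight of a pair in correspondence -/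
theorem hw_of (hR : RkD ℓ M U T n) (κ : BB M U →* F) (hκ : ∀ u ∈ UB M U, κ u = 1) {k : ℕ}
    {ρ : M →* Matrix (Fin k) (Fin k) F} {v : Fin k → F} (hv : v ≠ 0)
    (h : ∀ b : BB M U, (ρ ⟨((b : Subgroup.normalizer (U : Set D)) : D), b.2⟩).mulVec v = κ b • v)
    (hw : ∀ w : Fin k → F, (∀ u ∈ U.subgroupOf M, (ρ u).mulVec w = w) → ∃ c : F, w = c • v) :
    HW (U.subgroupOf M) (T.subgroupOf M) ρ v (κ.comp (tB hR)) := by
  refine ⟨hv, fun u hu => ?_, fun t => ?_, hw⟩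
  · have h1 := h (mk (u : D) (U_le hu) u.2)
    have h2 : κ (mk (u : D) (U_le hu) u.2) = 1 := hκ _ hu
    rw [h2, one_smul] at h1
    exact h1
  · exact h (tB hR t)

end

theorem co1 (hehw : EhwStmt) (hunq : UnqStmt) (hexi : ExiStmt) (hwts : WtsStmt)
    (hibc : IbcStmt) : Co1Stmt := by
  intro ℓ _ F _ hF D _ _ M U T n hR
  obtain ⟨h1, h2, h3⟩ := wts hwts hF hR
  refine ⟨fun κ hκ => ?_, fun k ρ hρ hz => ?_, ?_, ?_, ?_⟩
  · obtain ⟨κ', rfl⟩ := (h1 κ).1 hκ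
    obtain ⟨k, ρ, v, hρ, hz, hv⟩ := hexi ℓ F hF M (U.subgroupOf M) (T.subgroupOf M) n hR.bn
      (κ'.comp (tB hR))
    exact ⟨tr ρ, k, ρ, v, hρ, rfl, hz, hv.1,
      act_eq hR κ' (h2 κ') ρ v hv.2.1 (fun t => hv.2.2.1 t), hv.2.2.2⟩
  · obtain ⟨v, μ, hv⟩ := hehw ℓ F hF M (U.subgroupOf M) (T.subgroupOf M) n hR.bn k ρ hρ
    obtain ⟨κ, hκ⟩ := h3 (μ.comp (tM M U T))
    refine ⟨κ, (h1 κ).2 ⟨κ, rfl⟩, k, ρ, v, hρ, rfl, hz, hv.1,
      act_eq hR κ (h2 κ) ρ v hv.2.1 (fun t => ?_), hv.2.2.2⟩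
    rw [hv.2.2.1 t]
    have h4 := hκ ⟨tB hR t, t.2⟩
    exact congrArg (fun c : F => c • v) h4.symm
  · rintro φ φ' κ ⟨k, ρ, v, hρ, rfl, hz, hv, hb, hw⟩ ⟨k', ρ', v', hρ', rfl, hz', hv', hb', hw'⟩
    obtain ⟨κ', rfl⟩ := hom_of hv hb
    exact hunq ℓ F hF M (U.subgroupOf M) (T.subgroupOf M) n hR.bn k k' ρ ρ' hρ hρ' hz hz' v v' _
      (hw_of hR κ' (h2 κ') hv hb hw) (hw_of hR κ' (h2 κ') hv' hb' hw')
  · rintro φ κ κ' ⟨k, ρ, v, hρ, rfl, hz, hv, hb, hw⟩ ⟨k', ρ', v', hρ', htr, hz', hv', hb', hw'⟩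
    obtain ⟨κ, rfl⟩ := hom_of hv hb
    obtain ⟨κ', rfl⟩ := hom_of hv' hb'
    obtain ⟨X, Y, -, hXY, hYX, hX⟩ := hibc ℓ F hF M k k' ρ ρ' hρ hρ' htr.symm
    have h4 : ∀ m : M, (ρ' m).mulVec (X.mulVec v) = X.mulVec ((ρ m).mulVec v) := by
      intro m
      rw [Matrix.mulVec_mulVec, Matrix.mulVec_mulVec, hX]
    have h5 : X.mulVec v ≠ 0 := by
      intro h0
      apply hv
      have h6 := congrArg (fun z => Y.mulVec z) h0
      simp only [Matrix.mulVec_mulVec, hYX, Matrix.one_mulVec, Matrix.mulVec_zero] at h6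
      exact h6
    have hwt := hw_of hR κ (h2 κ) hv hb hw
    obtain ⟨c, hc⟩ := hw' (X.mulVec v) (fun u hu => by rw [h4, hwt.2.1 u hu])
    funext b
    have h7 := h4 ⟨((b : Subgroup.normalizer (U : Set D)) : D), b.2⟩
    rw [hb b, Matrix.mulVec_smul, hc, Matrix.mulVec_smul, hb' b, smul_comm] at h7
    have hcv : c • v' ≠ 0 := by rw [← hc]; exact h5
    exact (smul_left_injective F hcv h7).symm
  · rintro φ κ ⟨k, ρ, v, hρ, rfl, hz, hv, hb, hw⟩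
    exact ⟨⟨k, ρ, hρ, rfl⟩, (h1 κ).2 (hom_of hv hb)⟩

end Pool.Agent.PP.BN.H5
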