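import Pool.Agent.Helper66_BN.Stmts

/-! Copy (generated) of the module `Pool.Agent.Helper21_BN.Bnl` with import lines for the bundle Helper12_AWB. -/

/-!
# Squad PP, part BN, module BNL
-/

open scoped BigOperators

noncomputable section

namespace Pool.Agent.PP.BN.H21

open Pool.Agent.Helper51_AWC Pool.Agent.Helper79_WRA Pool.Agent.PP

/-- On the normaliser of `U` the idempotent acts like its Brauer image. -/
theorem nlu (hnls : NlsStmt) : NluStmt := by
  intro ℓ _ F _ hF D _ _ U hU e he
  have hUX : U ≤ Subgroup.normalizer (U : Set D) := Subgroup.le_normalizer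
  have hn : (U.subgroupOf (Subgroup.normalizer (U : Set D))).Normal :=
    (Subgroup.normal_subgroupOf_iff_le_normalizer hUX).2 le_rfl
  have hp : IsPGroup ℓ (U.subgroupOf (Subgroup.normalizer (U : Set D))) :=
    hU.comap_of_injective (Subgroup.subtype _) (Subgroup.subtype_injective _)
  have hcl : IsCl (fun t : Subgroup.normalizer (U : Set D) => e t) := by
    intro x y
    exact he x y
  have hbr : br (U.subgroupOf (Subgroup.normalizer (U : Set D)))
      (fun t : Subgroup.normalizer (U : Set D) => e t) =
      fun t : Subgroup.normalizer (U : Set D) => br U e t := by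
    funext t
    have hiff : t ∈ Subgroup.centralizer
        ((U.subgroupOf (Subgroup.normalizer (U : Set D)) : Subgroup _) : Set _) ↔
        (t : D) ∈ Subgroup.centralizer (U : Set D) := by
      rw [Subgroup.mem_centralizer_iff, Subgroup.mem_centralizer_iff]
      constructor
      · intro h r hr
        have := h ⟨r, hUX hr⟩ hr
        exact congrArg Subtype.val this
      · intro h r hr
        apply Subtype.ext
        exact h r hr
    unfold br
    by_cases ht : (t : D) ∈ Subgroup.centralizer (U : Set D)
    · rw [if_pos ht, if_pos (hiff.2 ht)]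
    · rw [if_neg ht, if_neg (fun h => ht (hiff.1 h))]
  unfold lnum
  congr 1
  ext f
  change _ ∧ _ ↔ _ ∧ _
  apply and_congr_right
  rintro ⟨k, ρ, hρ, rfl⟩
  rw [((hnls ℓ F hF _ _ hn hp k ρ hρ).2 _ hcl).2, hbr]

end Pool.Agent.PP.BN.H21
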