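import Pool.Agent.Helper66_BN.Stmts
import Pool.Agent.Helper12_AWB.B047

/-! Copy (generated) of the module `Pool.Agent.Helper24_BN.Bwt` with import lines for the bundle Helper12_AWB. -/

/-!
# Squad PP, part BN: module BWT
-/

open scoped BigOperators

noncomputable section

namespace Pool.Agent.PP.BN.H24

open Pool.Agent.PP Pool.Agent.Helper51_AWC Pool.Agent.Helper79_WRA

variable {F : Type} [Field F] {B : Type} [Group B]

/-- An irreducible matrix representation with commuting matrices has degree one. -/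
theorem deg_one {n : ℕ} {ρ : B →* Matrix (Fin n) (Fin n) F} (h : IsIrr ρ)
    (hc : ∀ x y, ρ x * ρ y = ρ y * ρ x) : n = 1 := by
  obtain ⟨hn, hs⟩ := h
  have hall : ∀ A C : Matrix (Fin n) (Fin n) F, A * C = C * A := by
    intro A
    have hA : A ∈ Submodule.span F (Set.range ρ) := by rw [hs]; trivial
    induction hA using Submodule.span_induction with
    | mem x hx =>
      obtain ⟨t, rfl⟩ := hx
      intro C
      have hC : C ∈ Submodule.span F (Set.range ρ) := by rw [hs]; trivial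
      induction hC using Submodule.span_induction with
      | mem y hy =>
        obtain ⟨s, rfl⟩ := hy
        exact hc t s
      | zero => rw [mul_zero, zero_mul]
      | add y z _ _ hy hz => rw [mul_add, add_mul, hy, hz]
      | smul c y _ hy => rw [mul_smul_comm, smul_mul_assoc, hy]
    | zero => intro C; rw [mul_zero, zero_mul]
    | add y z _ _ hy hz => intro C; rw [mul_add, add_mul, hy, hz]
    | smul c y _ hy => intro C; rw [mul_smul_comm, smul_mul_assoc, hy]
  by_contra hne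
  have h2 : 1 < n := by omega
  have h01 : (⟨0, hn⟩ : Fin n) ≠ ⟨1, h2⟩ := by
    intro hh
    exact absurd (congrArg Fin.val hh) (by norm_num)
  have h3 := congrFun (congrFun (hall (Matrix.single ⟨0, hn⟩ ⟨1, h2⟩ 1)
    (Matrix.single ⟨1, h2⟩ ⟨0, hn⟩ 1)) ⟨0, hn⟩) ⟨0, hn⟩
  rw [Matrix.single_mul_single_same, Matrix.single_mul_single_same] at h3
  rw [Matrix.single_apply_same, Matrix.single_apply_of_ne] at h3
  · rw [one_mul] at h3
    exact one_ne_zero h3
  · intro hh
    exact h01 hh.1.symm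

theorem lin_mem (κ : B →* F) : (fun b => κ b) ∈ IBr F B := by
  let ρ : B →* Matrix (Fin 1) (Fin 1) F :=
    { toFun := fun b => fun _ _ => κ b
      map_one' := by
        ext i j
        rw [Subsingleton.elim i 0, Subsingleton.elim j 0]
        show κ 1 = (1 : Matrix (Fin 1) (Fin 1) F) 0 0
        rw [map_one, Matrix.one_apply_eq]
      map_mul' := fun x y => by
        ext i j
        rw [Matrix.mul_apply, Fin.sum_univ_one]
        exact map_mul κ x y }
  refine ⟨1, ρ, ⟨one_pos, ?_⟩, ?_⟩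
  · rw [eq_top_iff]
    intro A _
    have hA : A = A 0 0 • ρ 1 := by
      ext i j
      rw [Subsingleton.elim i 0, Subsingleton.elim j 0, map_one]
      simp
    rw [hA]
    exact Submodule.smul_mem _ _ (Submodule.subset_span ⟨1, rfl⟩)
  · funext x
    show κ x = Matrix.trace (ρ x)
    rw [Matrix.trace_fin_one]
    rfl

theorem lin_of_one {n : ℕ} (hn : n = 1) (ρ : B →* Matrix (Fin n) (Fin n) F) :
    ∃ κ : B →* F, ∀ b, (ρ b).trace = κ b := by
  subst hn
  refine ⟨{ toFun := fun b => ρ b 0 0, map_one' := ?_, map_mul' := fun x y => ?_ }, fun b => ?_⟩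
  · rw [map_one, Matrix.one_apply_eq]
  · rw [map_mul, Matrix.mul_apply, Fin.sum_univ_one]
  · rw [Matrix.trace_fin_one]
    rfl

theorem wts : WtsStmt := by
  intro ℓ _ F _ hF B _ _ U T hUn hU hT hUT
  have hch := hF.char
  have hℓ := hF.prime
  have hdec : ∀ b : B, ∃ u ∈ U, ∃ t ∈ T, b = u * t := by
    intro b
    have hb : b ∈ ((U ⊔ T : Subgroup B) : Set B) := by
      rw [hUT]
      trivial
    rw [Subgroup.normal_mul] at hb
    obtain ⟨u, hu, t, ht, rfl⟩ := hb
    exact ⟨u, hu, t, ht, rfl⟩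
  have htrivial : ∀ κ : B →* F, ∀ u ∈ U, κ u = 1 := by
    intro κ u hu
    obtain ⟨k, hk⟩ := hU ⟨u, hu⟩
    have h1 : u ^ ℓ ^ k = 1 := congrArg Subtype.val hk
    have h2 : κ u ^ (ℓ ^ k) = 1 := by rw [← map_pow, h1, map_one]
    have hex : ExpChar F ℓ := ExpChar.prime hℓ
    have h3 := (ExpChar.pow_prime_pow_mul_eq_one_iff ℓ k 1 (κ u)).1 (by rw [mul_one, h2])
    rwa [pow_one] at h3
  refine ⟨fun φ => ⟨?_, ?_⟩, htrivial, ?_⟩
  · rintro ⟨n, ρ, hρ, rfl⟩
    have hone : ∀ u ∈ U, ρ u = 1 := fun u hu =>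
      Pool.Agent.PP.H20.nls_triv hℓ hch U hUn hU ρ hρ u hu
    have hcomm : ∀ x y, ρ x * ρ y = ρ y * ρ x := by
      intro x y
      obtain ⟨u, hu, t, ht, rfl⟩ := hdec x
      obtain ⟨v, hv, s, hs, rfl⟩ := hdec y
      rw [map_mul, map_mul, hone u hu, hone v hv, one_mul, one_mul, ← map_mul, ← map_mul,
        hT t ht s hs]
    obtain ⟨κ, hκ⟩ := lin_of_one (deg_one hρ hcomm) ρ
    exact ⟨κ, funext hκ⟩
  · rintro ⟨κ, rfl⟩
    exact lin_mem κ
  · intro hT' μ
    have hmk : ∀ u ∈ U, (QuotientGroup.mk' U) u = 1 := fun u hu =>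
      (QuotientGroup.eq_one_iff u).2 hu
    let f : T →* B ⧸ U := (QuotientGroup.mk' U).comp T.subtype
    have hinj : Function.Injective f := by
      rw [injective_iff_map_eq_one]
      rintro ⟨t, ht⟩ h1
      have h2 : t ∈ U := (QuotientGroup.eq_one_iff t).1 h1
      obtain ⟨k, hk⟩ := hU ⟨t, h2⟩
      have h3 : t ^ ℓ ^ k = 1 := congrArg Subtype.val hk
      have h4 : orderOf (⟨t, ht⟩ : T) ∣ ℓ ^ k := by
        apply orderOf_dvd_of_pow_eq_one
        apply Subtype.ext
        exact h3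
      have h5 : orderOf (⟨t, ht⟩ : T) ∣ Nat.card T := orderOf_dvd_natCard _
      have h6 : Nat.Coprime (ℓ ^ k) (Nat.card T) :=
        Nat.Coprime.pow_left _ ((Nat.Prime.coprime_iff_not_dvd hℓ).2 hT')
      have h7 : orderOf (⟨t, ht⟩ : T) = 1 := Nat.dvd_one.1 (by
        have := Nat.dvd_gcd h4 h5
        rwa [h6] at this)
      exact orderOf_eq_one_iff.1 h7
    have hsur : Function.Surjective f := by
      intro q
      obtain ⟨b, rfl⟩ := QuotientGroup.mk'_surjective U q
      obtain ⟨u, hu, t, ht, rfl⟩ := hdec b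
      refine ⟨⟨t, ht⟩, ?_⟩
      show (QuotientGroup.mk' U) t = (QuotientGroup.mk' U) (u * t)
      rw [map_mul, hmk u hu, one_mul]
    let e : T ≃* B ⧸ U := MulEquiv.ofBijective f ⟨hinj, hsur⟩
    refine ⟨μ.comp (e.symm.toMonoidHom.comp (QuotientGroup.mk' U)), fun t => ?_⟩
    show μ (e.symm (QuotientGroup.mk' U (t : B))) = μ t
    have h8 : QuotientGroup.mk' U (t : B) = e t := rfl
    rw [h8, MulEquiv.symm_apply_apply]

end Pool.Agent.PP.BN.H24
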