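import Pool.Agent.Helper66_BN.Stmts
import Pool.Agent.Helper12_AWB.B046

/-! Copy (generated) of the module `Pool.Agent.Helper29_BN.Unq` with import lines for the bundle Helper12_AWB. -/

/-!
# Squad PP, part BN, module BUN: the weight determines the representation
-/

open scoped BigOperators

noncomputable section

namespace Pool.Agent.PP.BN.H29

open Pool.Agent.PP Pool.Agent.Helper51_AWC Pool.Agent.Helper79_WRA

variable {F G : Type} [Field F] [Group G]

/-- an `ℓ`-group of matrices in characteristic `ℓ` has a nonzero fixed vector in every nonzero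
invariant subspace -/
theorem fixed_in {ℓ : ℕ} (hℓ : ℓ.Prime) (hF : CharP F ℓ) (R : Type) [Group R] [Finite R]
    (hR : IsPGroup ℓ R) {n : ℕ} (ρ : R →* Matrix (Fin n) (Fin n) F)
    (P : Submodule F (Fin n → F)) (hP : ∀ r : R, ∀ x ∈ P, (ρ r).mulVec x ∈ P)
    (v0 : Fin n → F) (hv0P : v0 ∈ P) (hv0 : v0 ≠ 0) :
    ∃ v : Fin n → F, v ∈ P ∧ v ≠ 0 ∧ ∀ r, (ρ r).mulVec v = v := by
  have : Fact ℓ.Prime := ⟨hℓ⟩
  have hfin := Fintype.ofFinite R
  let _ : Algebra (ZMod ℓ) F := ZMod.algebra F ℓ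
  let W : Submodule (ZMod ℓ) (Fin n → F) :=
    Submodule.span (ZMod ℓ) (Set.range fun r => (ρ r).mulVec v0)
  have hWfin : Finite W := by
    have : Module.Finite (ZMod ℓ) W := Module.Finite.span_of_finite _ (Set.finite_range _)
    exact Module.finite_of_finite (ZMod ℓ)
  have hWP : ∀ w ∈ W, w ∈ P := by
    intro w hw
    induction hw using Submodule.span_induction with
    | mem x hx =>
      obtain ⟨s, rfl⟩ := hx
      exact hP s v0 hv0P
    | zero => exact P.zero_mem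
    | add x y _ _ hx hy => exact P.add_mem hx hy
    | smul c x _ hx =>
      have : c • x = (algebraMap (ZMod ℓ) F c) • x := by
        rw [algebraMap_smul]
      rw [this]
      exact P.smul_mem _ hx
  have hstab : ∀ r : R, ∀ w ∈ W, (ρ r).mulVec w ∈ W := by
    intro r w hw
    induction hw using Submodule.span_induction with
    | mem x hx =>
      obtain ⟨s, rfl⟩ := hx
      apply Submodule.subset_span
      refine ⟨r * s, ?_⟩
      show (ρ (r * s)).mulVec v0 = (ρ r).mulVec ((ρ s).mulVec v0)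
      rw [map_mul, Matrix.mulVec_mulVec]
    | zero => rw [Matrix.mulVec_zero]; exact W.zero_mem
    | add x y _ _ hx hy => rw [Matrix.mulVec_add]; exact W.add_mem hx hy
    | smul c x _ hx =>
      have : (ρ r).mulVec (c • x) = c • (ρ r).mulVec x := Matrix.mulVec_smul _ _ _
      rw [this]; exact W.smul_mem c hx
  let _ : MulAction R W :=
    { smul := fun r w => ⟨(ρ r).mulVec w, hstab r w w.2⟩
      one_smul := fun w => Subtype.ext (by
        show (ρ 1).mulVec (w : Fin n → F) = w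
        rw [map_one, Matrix.one_mulVec])
      mul_smul := fun r s w => Subtype.ext (by
        show (ρ (r * s)).mulVec (w : Fin n → F) = (ρ r).mulVec ((ρ s).mulVec w)
        rw [map_mul, Matrix.mulVec_mulVec]) }
  have hv0W : v0 ∈ W := Submodule.subset_span ⟨1, by
    show (ρ 1).mulVec v0 = v0
    rw [map_one, Matrix.one_mulVec]⟩
  have hdvd : ℓ ∣ Nat.card W := by
    have h1 : addOrderOf (⟨v0, hv0W⟩ : W) = ℓ := by
      apply addOrderOf_eq_prime
      · apply Subtype.ext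
        funext i
        show ((ℓ • (⟨v0, hv0W⟩ : W) : W) : Fin n → F) i = 0
        rw [Submodule.coe_smul_of_tower]
        show ℓ • (v0 i) = 0
        rw [nsmul_eq_mul, CharP.cast_eq_zero, zero_mul]
      · intro h
        exact hv0 (congrArg Subtype.val h)
    have h2 : addOrderOf (⟨v0, hv0W⟩ : W) ∣ Nat.card W := addOrderOf_dvd_natCard _
    rw [h1] at h2
    exact h2
  obtain ⟨b, hb, hne⟩ := hR.exists_fixed_point_of_prime_dvd_card_of_fixed_point W hdvd
    (a := (0 : W)) (by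
      intro r
      apply Subtype.ext
      show (ρ r).mulVec ((0 : W) : Fin n → F) = 0
      rw [ZeroMemClass.coe_zero, Matrix.mulVec_zero])
  refine ⟨b, hWP b b.2, ?_, ?_⟩
  · intro h
    apply hne
    apply Subtype.ext
    exact h.symm
  · intro r
    exact congrArg Subtype.val (hb r)

/-- the contragredient representation of a subgroup -/
def dual (U : Subgroup G) {k : ℕ} (ρ : G →* Matrix (Fin k) (Fin k) F) :
    U →* Matrix (Fin k) (Fin k) F where
  toFun u := (ρ (u : G)⁻¹).transpose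
  map_one' := by
    rw [OneMemClass.coe_one, inv_one, map_one, Matrix.transpose_one]
  map_mul' u u' := by
    rw [Subgroup.coe_mul, mul_inv_rev, map_mul, Matrix.transpose_mul]

theorem dual_dot (U : Subgroup G) {k : ℕ} (ρ : G →* Matrix (Fin k) (Fin k) F) (u : U)
    (φ x : Fin k → F) : dotProduct ((dual U ρ u).mulVec φ) x =
      dotProduct φ ((ρ (u : G)⁻¹).mulVec x) := by
  show dotProduct ((ρ (u : G)⁻¹).transpose.mulVec φ) x = _
  rw [Matrix.mulVec_transpose, ← Matrix.dotProduct_mulVec]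

/-- an invariant functional which vanishes at the fixed vector `v` -/
theorem inv_fun {ℓ : ℕ} (hℓ : ℓ.Prime) (hF : CharP F ℓ) [Finite G] (U : Subgroup G)
    (hU : IsPGroup ℓ U) {k : ℕ} (hk : 2 ≤ k) (ρ : G →* Matrix (Fin k) (Fin k) F)
    (v : Fin k → F) (hv : ∀ u ∈ U, (ρ u).mulVec v = v) :
    ∃ φ : Fin k → F, φ ≠ 0 ∧ dotProduct φ v = 0 ∧
      ∀ u ∈ U, ∀ x, dotProduct φ ((ρ u).mulVec x) = dotProduct φ x := by
  classical
  let P : Submodule F (Fin k → F) :=
    { carrier := {φ | dotProduct φ v = 0}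
      add_mem' := by
        intro a b ha hb
        show dotProduct (a + b) v = 0
        rw [add_dotProduct, ha, hb, add_zero]
      zero_mem' := zero_dotProduct v
      smul_mem' := by
        intro c a ha
        show dotProduct (c • a) v = 0
        rw [smul_dotProduct, ha, smul_zero] }
  have hP : ∀ r : U, ∀ x ∈ P, (dual U ρ r).mulVec x ∈ P := by
    intro r x hx
    show dotProduct _ v = 0
    rw [dual_dot, hv _ (U.inv_mem r.2)]
    exact hx
  obtain ⟨φ0, h0, h1⟩ : ∃ φ0 ∈ P, φ0 ≠ 0 := by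
    let i0 : Fin k := ⟨0, by omega⟩
    let i1 : Fin k := ⟨1, by omega⟩
    have hne : i1 ≠ i0 := by
      intro h
      have := congrArg Fin.val h
      exact absurd this one_ne_zero
    by_cases hv0 : v i0 = 0
    · refine ⟨Pi.single i0 1, ?_, ?_⟩
      · show dotProduct _ v = 0
        rw [single_dotProduct, one_mul, hv0]
      · intro h
        have := congrFun h i0
        rw [Pi.single_eq_same] at this
        exact one_ne_zero this
    · refine ⟨Pi.single i1 (v i0) - Pi.single i0 (v i1), ?_, ?_⟩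
      · show dotProduct _ v = 0
        rw [sub_dotProduct, single_dotProduct, single_dotProduct, mul_comm, sub_self]
      · intro h
        have := congrFun h i1
        rw [Pi.sub_apply, Pi.single_eq_same, Pi.single_eq_of_ne hne, sub_zero] at this
        exact hv0 this
  obtain ⟨φ, hφP, hφ0, hφ⟩ := fixed_in hℓ hF U hU (dual U ρ) P hP φ0 h0 h1
  refine ⟨φ, hφ0, hφP, ?_⟩
  intro u hu x
  have h2 := hφ ⟨u, hu⟩⁻¹
  have h3 := dual_dot U ρ (⟨u, hu⟩⁻¹) φ x
  rw [h2] at h3
  rw [h3]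
  congr 3
  show u = (u⁻¹)⁻¹
  rw [inv_inv]

/-- evaluation of an invariant functional -/
theorem fun_eval [Finite G] (U : Subgroup G) {k : ℕ} (ρ : G →* Matrix (Fin k) (Fin k) F)
    (n : G) (v φ : Fin k → F) (hφ : ∀ u ∈ U, ∀ x, dotProduct φ ((ρ u).mulVec x) = dotProduct φ x)
    (a : U → F) : dotProduct φ (∑ᶠ u : U, a u • (ρ (u * n)).mulVec v) =
      (∑ᶠ u : U, a u) * dotProduct φ ((ρ n).mulVec v) := by
  have := Fintype.ofFinite U
  rw [finsum_eq_sum_of_fintype, finsum_eq_sum_of_fintype, dotProduct_sum, Finset.sum_mul]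
  apply Finset.sum_congr rfl
  intro u _
  rw [dotProduct_smul, map_mul, ← Matrix.mulVec_mulVec, hφ u u.2, smul_eq_mul]

/-- the value of an invariant functional at the opposite vector is not zero -/
theorem fun_ne [Finite G] (U : Subgroup G) {k : ℕ} (ρ : G →* Matrix (Fin k) (Fin k) F)
    (n : G) (v φ : Fin k → F) (hφ0 : φ ≠ 0)
    (hφ : ∀ u ∈ U, ∀ x, dotProduct φ ((ρ u).mulVec x) = dotProduct φ x)
    (hc : ∀ x : Fin k → F, ∃ a : U → F, x = ∑ᶠ u : U, a u • (ρ (u * n)).mulVec v) :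
    dotProduct φ ((ρ n).mulVec v) ≠ 0 := by
  intro h
  apply hφ0
  apply dotProduct_eq_zero φ
  intro x
  obtain ⟨a, ha⟩ := hc x
  rw [ha, fun_eval U ρ n v φ hφ a, h, mul_zero]

/-- the action of the two kinds of elements on a vector of weight `μ` -/
theorem act_borel {U T : Subgroup G} {k : ℕ} {ρ : G →* Matrix (Fin k) (Fin k) F}
    {v : Fin k → F} {μ : T →* F} (hv : ∀ u ∈ U, (ρ u).mulVec v = v)
    (hT : ∀ t : T, (ρ t).mulVec v = μ t • v) {u t : G} (hu : u ∈ U) (ht : t ∈ T) :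
    (ρ (u * t)).mulVec v = μ ⟨t, ht⟩ • v := by
  rw [map_mul, ← Matrix.mulVec_mulVec]
  have := hT ⟨t, ht⟩
  rw [this, Matrix.mulVec_smul, hv u hu]

theorem act_cell {U T : Subgroup G} {k : ℕ} {ρ : G →* Matrix (Fin k) (Fin k) F}
    {v : Fin k → F} {μ : T →* F} (hv : ∀ u ∈ U, (ρ u).mulVec v = v)
    (hT : ∀ t : T, (ρ t).mulVec v = μ t • v) (n : G) {u t u' : G} (ht : t ∈ T) (hu' : u' ∈ U) :
    (ρ (u * n * t * u')).mulVec v = μ ⟨t, ht⟩ • (ρ u).mulVec ((ρ n).mulVec v) := by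
  have := hT ⟨t, ht⟩
  rw [map_mul, map_mul, map_mul, ← Matrix.mulVec_mulVec, hv u' hu', ← Matrix.mulVec_mulVec, this,
    Matrix.mulVec_smul, Matrix.mulVec_mulVec]

/-- both of dimension at least two -/
theorem dim_two {ℓ : ℕ} (hF : GoodF ℓ F) [Finite G] {U T : Subgroup G} {n : G}
    (h : Rk1 ℓ U T n) {k l : ℕ} (hk : 2 ≤ k) (hl : 2 ≤ l)
    (ρ : G →* Matrix (Fin k) (Fin k) F) (σ : G →* Matrix (Fin l) (Fin l) F)
    (hρ : IsIrr ρ) (hσ : IsIrr σ) (v : Fin k → F) (w : Fin l → F) (μ : T →* F)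
    (hv : ∀ u ∈ U, (ρ u).mulVec v = v) (hvT : ∀ t : T, (ρ t).mulVec v = μ t • v)
    (hw : ∀ u ∈ U, (σ u).mulVec w = w) (hwT : ∀ t : T, (σ t).mulVec w = μ t • w)
    (hcv : ∀ x : Fin k → F, ∃ a : U → F, x = ∑ᶠ u : U, a u • (ρ (u * n)).mulVec v)
    (hcw : ∀ x : Fin l → F, ∃ a : U → F, x = ∑ᶠ u : U, a u • (σ (u * n)).mulVec w) :
    tr ρ = tr σ := by
  by_contra hne
  obtain ⟨φ, hφ0, hφv, hφ⟩ := inv_fun hF.prime hF.char U h.pU hk ρ v hv
  obtain ⟨ψ, hψ0, hψw, hψ⟩ := inv_fun hF.prime hF.char U h.pU hl σ w hw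
  have hc := fun_ne U ρ n v φ hφ0 hφ hcv
  have hc' := fun_ne U σ n w ψ hψ0 hψ hcw
  -- a group ring element which separates
  let nn : Bool → ℕ := fun b => bif b then k else l
  let rr : ∀ b : Bool, G →* Matrix (Fin (nn b)) (Fin (nn b)) F := fun b =>
    match b with
    | true => ρ
    | false => σ
  let BB : ∀ b : Bool, Matrix (Fin (nn b)) (Fin (nn b)) F := fun b =>
    match b with
    | true => ρ n
    | false => 0
  obtain ⟨a, ha⟩ := H20.ibj ℓ F hF G Bool nn rr
    (by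
      intro b
      match b with
      | true => exact hρ
      | false => exact hσ)
    (by
      intro b b' hbb
      match b, b', hbb with
      | true, true, _ => rfl
      | false, false, _ => rfl
      | true, false, hbb => exact absurd hbb hne
      | false, true, hbb => exact absurd hbb.symm hne) BB
  have ha1 : ev ρ a = ρ n := ha true
  have ha2 : ev σ a = 0 := ha false
  have hg : ∀ g : G, dotProduct ψ ((σ n).mulVec w) * dotProduct φ ((ρ g).mulVec v) =
      dotProduct φ ((ρ n).mulVec v) * dotProduct ψ ((σ g).mulVec w) := by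
    intro g
    rcases h.cell g with ⟨u, hu, t, ht, rfl⟩ | ⟨u, hu, t, ht, u', hu', rfl⟩
    · rw [act_borel hv hvT hu ht, act_borel hw hwT hu ht, dotProduct_smul, dotProduct_smul, hφv,
        hψw, smul_zero, mul_zero, mul_zero]
    · rw [act_cell hv hvT n ht hu', act_cell hw hwT n ht hu', dotProduct_smul, dotProduct_smul,
        hφ u hu, hψ u hu, smul_eq_mul, smul_eq_mul]
      ring
  have hev : ∀ {j : ℕ} (τ : G →* Matrix (Fin j) (Fin j) F) (x χ : Fin j → F),
      dotProduct χ ((ev τ a).mulVec x) = ∑ᶠ g, a g * dotProduct χ ((τ g).mulVec x) := by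
    intro j τ x χ
    have := Fintype.ofFinite G
    rw [ev, finsum_eq_sum_of_fintype, finsum_eq_sum_of_fintype, Matrix.sum_mulVec,
      dotProduct_sum]
    apply Finset.sum_congr rfl
    intro g _
    rw [Matrix.smul_mulVec, dotProduct_smul, smul_eq_mul]
  have e1 : dotProduct ψ ((σ n).mulVec w) * dotProduct φ ((ev ρ a).mulVec v) =
      dotProduct φ ((ρ n).mulVec v) * dotProduct ψ ((ev σ a).mulVec w) := by
    have := Fintype.ofFinite G
    rw [hev, hev, finsum_eq_sum_of_fintype, finsum_eq_sum_of_fintype, Finset.mul_sum,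
      Finset.mul_sum]
    apply Finset.sum_congr rfl
    intro g _
    rw [mul_left_comm, hg g, mul_left_comm]
  rw [ha1, ha2, Matrix.zero_mulVec, dotProduct_zero, mul_zero] at e1
  exact (mul_ne_zero hc' hc) e1

/-- matrices of size one -/
theorem mulVec_one (A : Matrix (Fin 1) (Fin 1) F) (x : Fin 1 → F) : A.mulVec x = A 0 0 • x := by
  funext i
  have hi : i = 0 := Subsingleton.elim _ _
  subst hi
  show dotProduct (fun j => A 0 j) x = _
  rw [dotProduct, Fin.sum_univ_one]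
  rfl

/-- a linear character fixing a vector of weight `μ` -/
theorem lin_char {U T : Subgroup G} {ρ : G →* Matrix (Fin 1) (Fin 1) F}
    {v : Fin 1 → F} {μ : T →* F} (hv0 : v ≠ 0) (hv : ∀ u ∈ U, (ρ u).mulVec v = v)
    (hT : ∀ t : T, (ρ t).mulVec v = μ t • v) :
    (∀ x y, ρ (x * y) 0 0 = ρ x 0 0 * ρ y 0 0) ∧ (∀ u ∈ U, ρ u 0 0 = 1) ∧
      (∀ t : T, ρ t 0 0 = μ t) ∧ ∀ x, ρ x 0 0 ≠ 0 := by
  have hmul : ∀ x y, ρ (x * y) 0 0 = ρ x 0 0 * ρ y 0 0 := by
    intro x y
    rw [map_mul, Matrix.mul_apply, Fin.sum_univ_one]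
  have hv00 : v 0 ≠ 0 := by
    intro h
    apply hv0
    funext i
    have hi : i = 0 := Subsingleton.elim _ _
    rw [hi, h]
    rfl
  refine ⟨hmul, ?_, ?_, ?_⟩
  · intro u hu
    have h1 := congrFun (hv u hu) 0
    rw [mulVec_one, Pi.smul_apply, smul_eq_mul] at h1
    exact mul_right_cancel₀ hv00 (by rw [h1, one_mul])
  · intro t
    have h1 := congrFun (hT t) 0
    rw [mulVec_one, Pi.smul_apply, Pi.smul_apply, smul_eq_mul, smul_eq_mul] at h1
    exact mul_right_cancel₀ hv00 h1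
  · intro x h1
    have h2 := hmul x x⁻¹
    rw [h1, zero_mul, mul_inv_cancel, map_one, Matrix.one_apply_eq] at h2
    exact one_ne_zero h2

/-- one of dimension one -/
theorem dim_one {ℓ : ℕ} (hF : GoodF ℓ F) [Finite G] {U T : Subgroup G} {n : G}
    (h : Rk1 ℓ U T n) {l : ℕ}
    (ρ : G →* Matrix (Fin 1) (Fin 1) F) (σ : G →* Matrix (Fin l) (Fin l) F)
    (hσ : IsIrr σ) (hρs : SZ U ρ) (hσs : SZ U σ)
    (v : Fin 1 → F) (w : Fin l → F) (μ : T →* F) (hv0 : v ≠ 0) (hw0 : w ≠ 0)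
    (hv : ∀ u ∈ U, (ρ u).mulVec v = v) (hvT : ∀ t : T, (ρ t).mulVec v = μ t • v)
    (hw : ∀ u ∈ U, (σ u).mulVec w = w) (hwT : ∀ t : T, (σ t).mulVec w = μ t • w)
    (hcw : ∀ x : Fin l → F, ∃ a : U → F, x = ∑ᶠ u : U, a u • (σ (u * n)).mulVec w) :
    tr ρ = tr σ := by
  classical
  have hfU := Fintype.ofFinite U
  obtain ⟨hmul, hU, hT, hne⟩ := lin_char hv0 hv hvT
  -- the order of `U` is zero in `F`
  have hcard : (Fintype.card U : F) = 0 := by
    have h1 := congrFun (congrFun hρs 0) 0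
    rw [finsum_eq_sum_of_fintype, Matrix.sum_apply] at h1
    have h5 : ∀ u : U, ρ (u : G) 0 0 = 1 := fun u => hU _ u.2
    rw [Finset.sum_congr rfl (fun u _ => h5 u)] at h1
    rw [Finset.sum_const, Finset.card_univ, nsmul_eq_mul, mul_one] at h1
    exact h1
  -- the big cell
  have hbig : ∀ u ∈ U, u ≠ 1 → ∃ u1 ∈ U, ∃ t, ∃ ht : t ∈ T, ∃ u2 ∈ U,
      n * u * n = u1 * n * t * u2 ∧ μ ⟨t, ht⟩ = ρ n 0 0 := by
    intro u hu hu1
    rcases h.cell (n * u * n) with ⟨u', hu', t, ht, he⟩ | ⟨u', hu', t, ht, u'', hu'', he⟩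
    · exfalso
      apply hu1
      refine h.opp u hu u' hu' (t * (n * n)⁻¹) (T.mul_mem ht (T.inv_mem h.nn)) ?_
      have : n * u * n⁻¹ = n * u * n * (n * n)⁻¹ := by group
      rw [this, he, mul_assoc]
    · refine ⟨u', hu', t, ht, u'', hu'', he, ?_⟩
      have h2 := congrArg (fun x => ρ x 0 0) he
      simp only [hmul] at h2
      rw [hU u hu, hU u' hu', hU u'' hu'', mul_one, one_mul, mul_one] at h2
      have h3 : ρ t 0 0 = μ ⟨t, ht⟩ := hT ⟨t, ht⟩
      rw [h3] at h2
      exact (mul_left_cancel₀ (hne n) h2).symm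
  -- the dimension of the second representation is one
  have hl : l = 1 := by
    by_contra hl1
    have hl2 : 2 ≤ l := by
      have := hσ.1
      omega
    obtain ⟨ψ, hψ0, hψw, hψ⟩ := inv_fun hF.prime hF.char U h.pU hl2 σ w hw
    have hc' := fun_ne U σ n w ψ hψ0 hψ hcw
    have hsum : ∑ u : U, dotProduct ψ ((σ (n * u * n)).mulVec w) = 0 := by
      have h1 : ∀ u : U, dotProduct ψ ((σ (n * u * n)).mulVec w) =
          dotProduct ψ ((σ n).mulVec ((σ (u : G)).mulVec ((σ n).mulVec w))) := by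
        intro u
        rw [map_mul, map_mul, ← Matrix.mulVec_mulVec, ← Matrix.mulVec_mulVec]
      rw [Finset.sum_congr rfl (fun u _ => h1 u)]
      rw [← dotProduct_sum, ← Matrix.mulVec_sum, ← Matrix.sum_mulVec]
      have h2 : ∑ u : U, σ (u : G) = 0 := by
        rw [← finsum_eq_sum_of_fintype]
        exact hσs
      rw [h2, Matrix.zero_mulVec, Matrix.mulVec_zero, dotProduct_zero]
    have hterm : ∀ u : U, dotProduct ψ ((σ (n * u * n)).mulVec w) =
        ρ n 0 0 * dotProduct ψ ((σ n).mulVec w) -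
          if u = 1 then ρ n 0 0 * dotProduct ψ ((σ n).mulVec w) else 0 := by
      intro u
      by_cases hu : u = 1
      · rw [if_pos hu, sub_self, hu, OneMemClass.coe_one, mul_one]
        have h3 := hwT ⟨n * n, h.nn⟩
        rw [h3, dotProduct_smul, hψw, smul_zero]
      · rw [if_neg hu, sub_zero]
        obtain ⟨u1, hu1, t, ht, u2, hu2, he, hmu⟩ := hbig (u : G) u.2 (fun h4 => hu (Subtype.ext h4))
        rw [he, act_cell hw hwT n ht hu2, dotProduct_smul, hψ u1 hu1, hmu, smul_eq_mul]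
    rw [Finset.sum_congr rfl (fun u _ => hterm u), Finset.sum_sub_distrib, Finset.sum_const,
      Finset.card_univ, nsmul_eq_mul, hcard, zero_mul, zero_sub, Finset.sum_ite_eq',
      if_pos (Finset.mem_univ _)] at hsum
    exact (mul_ne_zero (hne n) hc') (neg_eq_zero.mp hsum)
  subst hl
  obtain ⟨hmul', hU', hT', hne'⟩ := lin_char hw0 hw hwT
  -- a nontrivial element of `U`
  obtain ⟨u0, hu0⟩ : ∃ u : U, u ≠ 1 := by
    by_contra hcon
    push Not at hcon
    have : Fintype.card U = 1 := Fintype.card_eq_one_iff.mpr ⟨1, hcon⟩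
    rw [this, Nat.cast_one] at hcard
    exact one_ne_zero hcard
  have hn : σ n 0 0 = ρ n 0 0 := by
    obtain ⟨u1, hu1, t, ht, u2, hu2, he, hmu⟩ := hbig (u0 : G) u0.2
      (fun h4 => hu0 (Subtype.ext h4))
    have h2 := congrArg (fun x => σ x 0 0) he
    simp only [hmul'] at h2
    rw [hU' u0 u0.2, hU' u1 hu1, hU' u2 hu2, mul_one, one_mul, mul_one] at h2
    have h3 : σ t 0 0 = μ ⟨t, ht⟩ := hT' ⟨t, ht⟩
    rw [h3, hmu] at h2
    exact mul_left_cancel₀ (hne' n) h2
  funext g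
  show (ρ g).trace = (σ g).trace
  rw [Matrix.trace_fin_one, Matrix.trace_fin_one]
  rcases h.cell g with ⟨u, hu, t, ht, rfl⟩ | ⟨u, hu, t, ht, u', hu', rfl⟩
  · have h3 : σ t 0 0 = μ ⟨t, ht⟩ := hT' ⟨t, ht⟩
    have h4 : ρ t 0 0 = μ ⟨t, ht⟩ := hT ⟨t, ht⟩
    rw [hmul, hmul', hU u hu, hU' u hu, h3, h4]
  · have h3 : σ t 0 0 = μ ⟨t, ht⟩ := hT' ⟨t, ht⟩
    have h4 : ρ t 0 0 = μ ⟨t, ht⟩ := hT ⟨t, ht⟩
    rw [hmul, hmul', hmul, hmul', hmul, hmul', hU u hu, hU' u hu, hU u' hu', hU' u' hu', h3, h4, hn]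

/-- BUN. -/
theorem unq : CycStmt → UnqStmt := by
  intro hcyc ℓ _ F _ hF G _ _ U T n h k l ρ σ hρ hσ hρs hσs v w μ hv hw
  obtain ⟨hv0, hvU, hvT, -⟩ := hv
  obtain ⟨hw0, hwU, hwT, -⟩ := hw
  have hcv := hcyc ℓ F hF G U T n h k ρ hρ v μ hv0 hvU hvT
  have hcw := hcyc ℓ F hF G U T n h l σ hσ w μ hw0 hwU hwT
  by_cases hk : k = 1
  · subst hk
    exact dim_one hF h ρ σ hσ hρs hσs v w μ hv0 hw0 hvU hvT hwU hwT hcw
  · by_cases hl : l = 1
    · subst hl
      exact (dim_one hF h σ ρ hρ hσs hρs w v μ hw0 hv0 hwU hwT hvU hvT hcv).symm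
    · have := hρ.1
      have := hσ.1
      exact dim_two hF h (by omega) (by omega) ρ σ hρ hσ v w μ hvU hvT hwU hwT hcv hcw

end Pool.Agent.PP.BN.H29
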