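import Pool.Agent.Helper66_BN.Stmts

/-! Copy (generated) of the module `Pool.Agent.Helper48_BN.Btr` with import lines for the bundle Helper12_AWB. -/

/-! # Squad BN: module BTR (TrzStmt) -/

set_option autoImplicit false

open scoped BigOperators

noncomputable section

namespace Pool.Agent.PP.BN.H48

open Pool.Agent.Helper51_AWC Pool.Agent.Helper79_WRA

open Classical in
/-- the number of elements which conjugate `r` to itself -/
theorem count_cent {F : Type} [Field F] {D : Type} [Group D] [Fintype D] (r : D) (c : F) :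
    ∑ g : D, (if g⁻¹ * r * g = r then c else 0) =
      (Nat.card (Subgroup.centralizer ({r} : Set D)) : F) * c := by
  rw [← Finset.sum_filter, Finset.sum_const, nsmul_eq_mul]
  congr 2
  rw [Nat.card_eq_fintype_card, ← Fintype.card_subtype]
  apply Fintype.card_congr
  refine Equiv.subtypeEquivRight ?_
  intro g
  rw [Subgroup.mem_centralizer_singleton_iff]
  constructor
  · intro h
    have h1 : g * (g⁻¹ * r * g) = g * r := by rw [h]
    have h2 : r * g = g * r := by
      rw [← h1]; group
    exact h2.symm
  · intro h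
    rw [mul_assoc, ← h]
    group

open Classical in
theorem trz : TrzStmt := by
  intro ℓ _ F _ hF D _ _ a ha hz k ρ
  have := Fintype.ofFinite D
  have hchar := hF.char
  -- representatives of the classes
  let rep : D → D := fun x => Quotient.out (ConjClasses.mk x)
  have hrep : ∀ x, IsConj (rep x) x := by
    intro x
    apply ConjClasses.mk_eq_mk_iff_isConj.1
    exact Quotient.out_eq (ConjClasses.mk x)
  have hrepc : ∀ x y : D, IsConj x y → rep x = rep y := by
    intro x y h
    show Quotient.out (ConjClasses.mk x) = Quotient.out (ConjClasses.mk y)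
    rw [ConjClasses.mk_eq_mk_iff_isConj.2 h]
  let n : D → F := fun x => (Nat.card (Subgroup.centralizer ({x} : Set D)) : F)
  let b : D → F := fun x => if x = rep x then a x * (n x)⁻¹ else 0
  -- the sum of the conjugates
  have key : ∀ y : D, ∑ g : D, b (g⁻¹ * y * g) = a y := by
    intro y
    set r := rep y with hr
    have hconj : ∀ g : D, IsConj y (g⁻¹ * y * g) := by
      intro g
      rw [isConj_iff]
      exact ⟨g⁻¹, by group⟩
    have hrr : rep r = r := (hrepc _ _ (hrep y))
    have h1 : ∀ g : D, b (g⁻¹ * y * g) = if g⁻¹ * y * g = r then b r else 0 := by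
      intro g
      have h2 : rep (g⁻¹ * y * g) = r := (hrepc _ _ (hconj g)).symm
      by_cases h3 : g⁻¹ * y * g = r
      · rw [if_pos h3, h3]
      · rw [if_neg h3]
        show (if g⁻¹ * y * g = rep (g⁻¹ * y * g) then _ else _) = _
        rw [h2, if_neg h3]
    rw [Finset.sum_congr rfl (fun g _ => h1 g)]
    obtain ⟨h, hh⟩ := isConj_iff.1 (hrep y)
    -- `h * r * h⁻¹ = y`
    have h4 : ∑ g : D, (if g⁻¹ * y * g = r then b r else 0) =
        ∑ g : D, (if g⁻¹ * r * g = r then b r else 0) := by
      rw [← Equiv.sum_comp (Equiv.mulLeft h) (fun g => if g⁻¹ * y * g = r then b r else 0)]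
      apply Finset.sum_congr rfl
      intro g _
      have h5 : (Equiv.mulLeft h g)⁻¹ * y * (Equiv.mulLeft h g) = g⁻¹ * r * g := by
        rw [Equiv.coe_mulLeft, ← hh]
        show (h * g)⁻¹ * (h * rep y * h⁻¹) * (h * g) = g⁻¹ * r * g
        rw [← hr]
        group
      rw [h5]
    rw [h4, count_cent]
    have h6 : b r = a r * (n r)⁻¹ := by
      show (if r = rep r then _ else _) = _
      rw [if_pos hrr.symm]
    have h7 : a r = a y := by
      rw [← hh]
      exact (ha r h).symm
    by_cases h8 : a r = 0
    · rw [h6, h8, ← h7, h8]; simp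
    · have h9 : n r ≠ 0 := by
        intro h10
        exact hz r h8 ((CharP.cast_eq_zero_iff F ℓ _).1 h10)
      rw [h6, ← h7]
      show n r * (a r * (n r)⁻¹) = a r
      field_simp
  refine ⟨∑ x : D, b x • ρ x, ?_⟩
  unfold ev
  rw [finsum_eq_sum_of_fintype, finsum_eq_sum_of_fintype]
  have h1 : ∀ g : D, ρ g * (∑ x : D, b x • ρ x) * ρ g⁻¹ = ∑ y : D, b (g⁻¹ * y * g) • ρ y := by
    intro g
    rw [Finset.mul_sum, Finset.sum_mul]
    rw [← (MulAut.conj g).toEquiv.sum_comp (fun y => b (g⁻¹ * y * g) • ρ y)]
    apply Finset.sum_congr rfl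
    intro x _
    have h2 : (MulAut.conj g).toEquiv x = g * x * g⁻¹ := rfl
    rw [h2]
    have h3 : g⁻¹ * (g * x * g⁻¹) * g = x := by group
    rw [h3, map_mul, map_mul, mul_smul_comm, smul_mul_assoc]
  rw [Finset.sum_congr rfl (fun g _ => h1 g), Finset.sum_comm]
  apply Finset.sum_congr rfl
  intro y _
  rw [← Finset.sum_smul, key y]

end Pool.Agent.PP.BN.H48
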