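import Pool.Agent.Helper66_BN.Stmts

/-! Copy (generated) of the module `Pool.Agent.Helper71_BN.Pcm` with import lines for the bundle Helper12_AWB. -/

/-!
# Squad PP, part BN: PCM, the class function which separates the two kinds of representations
-/

open scoped BigOperators

noncomputable section

namespace Pool.Agent.PP.BN.H71

open Pool.Agent.Helper51_AWC Pool.Agent.Helper79_WRA Pool.Agent.PP

/-- Sum over a group as a sum over cosets. -/
theorem sum_quot {G V : Type} [Group G] [Fintype G] [AddCommMonoid V] (H : Subgroup G) [Fintype H]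
    [Fintype (G ⧸ H)] (f : G → V) : ∑ g, f g = ∑ q : G ⧸ H, ∑ h : H, f (q.out * h) := by
  rw [← Fintype.sum_prod_type' (f := fun (q : G ⧸ H) (h : H) => f (q.out * h))]
  symm
  refine Fintype.sum_bijective (fun x : (G ⧸ H) × H => x.1.out * x.2) ⟨?_, ?_⟩ _ _ fun _ => rfl
  · rintro ⟨q, h⟩ ⟨q', h'⟩ heq
    simp only at heq
    have e1 : ((q.out * (h : G) : G) : G ⧸ H) = q := by
      rw [QuotientGroup.mk_mul_of_mem _ h.2, QuotientGroup.out_eq']
    have e2 : ((q'.out * (h' : G) : G) : G ⧸ H) = q' := by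
      rw [QuotientGroup.mk_mul_of_mem _ h'.2, QuotientGroup.out_eq']
    have e3 : q = q' := by rw [← e1, ← e2, heq]
    subst e3
    have e4 : (h : G) = h' := mul_left_cancel heq
    rw [Subtype.ext e4]
  · intro g
    have h1 : ((g : G ⧸ H).out)⁻¹ * g ∈ H := by
      rw [← QuotientGroup.eq, QuotientGroup.out_eq']
    exact ⟨⟨(g : G ⧸ H), ⟨_, h1⟩⟩, by simp⟩

/-- A function invariant under left multiplication by a subgroup of order divisible by the
characteristic has sum zero. -/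
theorem sum_inv {ℓ : ℕ} {F G : Type} [Field F] [CharP F ℓ] [Group G] [Fintype G] (C : Subgroup G)
    (hC : ℓ ∣ Nat.card C) (f : G → F) (hf : ∀ c ∈ C, ∀ g, f (c * g) = f g) : ∑ g, f g = 0 := by
  classical
  have h1 : ∑ g, f g = ∑ g, f g⁻¹ := (Equiv.sum_comp (Equiv.inv G) f).symm
  rw [h1, sum_quot C]
  refine Finset.sum_eq_zero fun q _ => ?_
  have h2 : ∀ h : C, f (q.out * (h : G))⁻¹ = f (q.out)⁻¹ := fun h => by
    rw [mul_inv_rev]
    exact hf _ (C.inv_mem h.2) _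
  rw [Finset.sum_congr rfl fun h _ => h2 h, Finset.sum_const, Finset.card_univ, nsmul_eq_mul,
    ← Nat.card_eq_fintype_card, (CharP.cast_eq_zero_iff F ℓ _).2 hC, zero_mul]

section

variable {ℓ : ℕ} {F D : Type} [Field F] [Group D] [Finite D]

theorem not_dvd_index [Fact ℓ.Prime] {M U T : Subgroup D} {n : M} (h : RkD ℓ M U T n) :
    ¬ ℓ ∣ (U.subgroupOf M).index := by
  have hp : IsPGroup ℓ (U.subgroupOf M) := h.bn.pU
  obtain ⟨S, hS⟩ := hp.exists_le_sylow
  have h1 : IsPGroup ℓ ((S : Subgroup M).map M.subtype) := S.2.map _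
  obtain ⟨g, hg⟩ := h.syl _ h1
  have h2 : Nat.card ((S : Subgroup M).map M.subtype) ≤ Nat.card (conjS g U) :=
    Subgroup.card_le_of_le hg
  have h3 : Nat.card ((S : Subgroup M).map M.subtype) = Nat.card S :=
    Subgroup.card_map_of_injective M.subtype_injective
  have h4 : Nat.card (conjS g U) = Nat.card U := (Nat.card_congr (conjSEquiv g U).toEquiv).symm
  have h5 : Nat.card (U.subgroupOf M) = Nat.card U :=
    Nat.card_congr (Subgroup.subgroupOfEquivOfLe h.UM).toEquiv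
  have h6 : U.subgroupOf M = S := Subgroup.eq_of_le_of_card_ge hS (by omega)
  rw [h6]
  exact S.not_dvd_index

end

section reps

variable {ℓ : ℕ} {F G : Type} [Field F] [Group G] [Finite G]

/-- The trace from `U` to `G` of a trace from `1` to `U` equal to one. -/
theorem trace_up [Fintype G] (U : Subgroup G) {k : ℕ} (ρ : G →* Matrix (Fin k) (Fin k) F)
    (φ : Matrix (Fin k) (Fin k) F) (h : ∑ᶠ u : U, ρ u * φ * ρ (u⁻¹ : G) = 1) :
    ∑ g : G, ρ g * φ * ρ g⁻¹ = (U.index : F) • (1 : Matrix (Fin k) (Fin k) F) := by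
  classical
  have : Fintype (G ⧸ U) := Fintype.ofFinite _
  rw [sum_quot U]
  rw [finsum_eq_sum_of_fintype] at h
  have h1 : ∀ q : G ⧸ U, ∑ u : U, ρ (q.out * u) * φ * ρ (q.out * u)⁻¹ = 1 := by
    intro q
    have h2 : ∀ u : U, ρ (q.out * u) * φ * ρ (q.out * (u : G))⁻¹ =
        ρ q.out * (ρ u * φ * ρ (u⁻¹ : G)) * ρ (q.out)⁻¹ := fun u => by
      rw [mul_inv_rev, map_mul, map_mul]
      simp only [Matrix.mul_assoc]
    rw [Finset.sum_congr rfl fun u _ => h2 u, ← Finset.sum_mul, ← Finset.mul_sum, h, mul_one,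
      ← map_mul, mul_inv_cancel, map_one]
  rw [Finset.sum_congr rfl fun q _ => h1 q, Finset.sum_const, Finset.card_univ,
    ← Nat.card_eq_fintype_card, ← Subgroup.index_eq_card, ← Nat.cast_smul_eq_nsmul F]

/-- The action of `b`, averaged over the group, for all irreducible representations. -/
theorem avg [Fintype G] (hF : GoodF ℓ F) (ibj : IbjStmt) (ibf : IbfStmt) (ibc : IbcStmt)
    (U : Subgroup G) (hU : (U.index : F) ≠ 0)
    (fre : ∀ (k : ℕ) (ρ : G →* Matrix (Fin k) (Fin k) F), IsIrr ρ → ¬ SZ U ρ →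
      ∃ φ : Matrix (Fin k) (Fin k) F, ∑ᶠ u : U, ρ u * φ * ρ (u⁻¹ : G) = 1) :
    ∃ b : G → F, ∀ (k : ℕ) (τ : G →* Matrix (Fin k) (Fin k) F), IsIrr τ →
      (SZ U τ → ∑ g : G, τ g * ev τ b * τ g⁻¹ = 0) ∧
      (¬ SZ U τ → ∑ g : G, τ g * ev τ b * τ g⁻¹ = 1) := by
  classical
  have hfin : Finite (IBr F G) := (ibf ℓ F hF G).1
  have h0 : ∀ i : IBr F G, ∃ (n : ℕ) (ρ : G →* Matrix (Fin n) (Fin n) F), IsIrr ρ ∧
      (i : G → F) = tr ρ := fun i => i.2
  choose n ρ hρ hi using h0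
  have h1 : ∀ i : IBr F G, ∃ φ : Matrix (Fin (n i)) (Fin (n i)) F, (SZ U (ρ i) → φ = 0) ∧
      (¬ SZ U (ρ i) → ∑ᶠ u : U, ρ i u * φ * ρ i (u⁻¹ : G) = 1) := by
    intro i
    by_cases hz : SZ U (ρ i)
    · exact ⟨0, fun _ => rfl, fun h => absurd hz h⟩
    · obtain ⟨φ, hφ⟩ := fre _ _ (hρ i) hz
      exact ⟨φ, fun h => absurd h hz, fun _ => hφ⟩
  choose φ hφ0 hφ1 using h1
  obtain ⟨b, hb⟩ := ibj ℓ F hF G (IBr F G) n ρ hρ (by
    intro i j hij
    simp only at hij
    exact Subtype.ext (by rw [hi i, hi j, hij])) fun i => (U.index : F)⁻¹ • φ i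
  refine ⟨b, fun k τ hτ => ?_⟩
  obtain ⟨i, hti⟩ : ∃ i : IBr F G, (i : G → F) = tr τ := ⟨⟨tr τ, k, τ, hτ, rfl⟩, rfl⟩
  obtain ⟨X, Y, -, hXY, hYX, hX⟩ := ibc ℓ F hF G _ _ (ρ i) τ (hρ i) hτ (by rw [← hi i, hti])
  have e1 : ∀ g, τ g = X * ρ i g * Y := fun g => by
    rw [hX g, Matrix.mul_assoc, hXY, Matrix.mul_one]
  have e2 : ev τ b = X * ((U.index : F)⁻¹ • φ i) * Y := by
    rw [← hb i]
    simp only [ev, finsum_eq_sum_of_fintype]
    rw [Matrix.mul_sum, Matrix.sum_mul]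
    refine Finset.sum_congr rfl fun g _ => ?_
    rw [e1 g, Matrix.mul_smul, Matrix.smul_mul]
  have e3 : ∑ g : G, τ g * ev τ b * τ g⁻¹ =
      X * ((U.index : F)⁻¹ • ∑ g : G, ρ i g * φ i * ρ i g⁻¹) * Y := by
    rw [Finset.smul_sum, Matrix.mul_sum, Matrix.sum_mul]
    refine Finset.sum_congr rfl fun g _ => ?_
    rw [e2, e1 g, e1 g⁻¹]
    have : X * ρ i g * Y * (X * ((U.index : F)⁻¹ • φ i) * Y) * (X * ρ i g⁻¹ * Y) =
        X * (ρ i g * ((Y * X) * ((U.index : F)⁻¹ • φ i) * (Y * X)) * ρ i g⁻¹) * Y := by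
      simp only [Matrix.mul_assoc]
    rw [this, hYX, Matrix.one_mul, Matrix.mul_one, Matrix.mul_smul, Matrix.smul_mul]
  have e4 : SZ U τ ↔ SZ U (ρ i) := by
    have : ∑ᶠ u : U, τ u = X * (∑ᶠ u : U, ρ i u) * Y := by
      simp only [finsum_eq_sum_of_fintype]
      rw [Matrix.mul_sum, Matrix.sum_mul]
      exact Finset.sum_congr rfl fun g _ => e1 g
    rw [SZ, SZ, this]
    constructor
    · intro h
      have h2 : Y * (X * (∑ᶠ u : U, ρ i u) * Y) * X = 0 := by rw [h]; simp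
      have h3 : Y * (X * (∑ᶠ u : U, ρ i u) * Y) * X =
          (Y * X) * (∑ᶠ u : U, ρ i u) * (Y * X) := by
        simp only [Matrix.mul_assoc]
      rw [h3, hYX, Matrix.one_mul, Matrix.mul_one] at h2
      exact h2
    · intro h
      rw [h]; simp
  rw [e3, e4]
  refine ⟨fun h => ?_, fun h => ?_⟩
  · rw [hφ0 i h]; simp
  · rw [trace_up U (ρ i) (φ i) (hφ1 i h), smul_smul, inv_mul_cancel₀ hU, one_smul,
      Matrix.mul_one, hXY]

end reps

section main

variable {ℓ : ℕ} {F D : Type} [Field F] [Group D] [Finite D]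

/-- the conjugate representation -/
def cj {M : Subgroup D} [M.Normal] {k : ℕ} (σ : M →* Matrix (Fin k) (Fin k) F) (y : D) :
    M →* Matrix (Fin k) (Fin k) F := σ.comp (MulAut.conjNormal y : M ≃* M).toMonoidHom

omit [Finite D] in
theorem cj_apply {M : Subgroup D} [M.Normal] {k : ℕ} (σ : M →* Matrix (Fin k) (Fin k) F) (y : D)
    (s : M) : cj σ y s = σ (MulAut.conjNormal y s) := rfl

omit [Finite D] in
theorem cj_irr {M : Subgroup D} [M.Normal] {k : ℕ} {σ : M →* Matrix (Fin k) (Fin k) F}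
    (h : IsIrr σ) (y : D) : IsIrr (cj σ y) := by
  refine ⟨h.1, ?_⟩
  rw [← h.2]
  congr 1
  ext X
  constructor
  · rintro ⟨s, rfl⟩; exact ⟨_, rfl⟩
  · rintro ⟨s, rfl⟩
    refine ⟨(MulAut.conjNormal y : M ≃* M).symm s, ?_⟩
    rw [cj_apply]
    congr 1
    exact (MulAut.conjNormal y : M ≃* M).apply_symm_apply s

omit [Finite D] in
theorem cj_mul {M : Subgroup D} [M.Normal] {k : ℕ} (σ : M →* Matrix (Fin k) (Fin k) F) (y : D)
    (m s : M) : cj σ (y * m) s = cj σ y m * cj σ y s * cj σ y m⁻¹ := by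
  rw [← map_mul, ← map_mul, cj_apply, cj_apply]
  congr 1
  ext
  simp only [MulAut.conjNormal_apply, Subgroup.coe_mul, Subgroup.coe_inv]
  group

theorem cj_sz {M U : Subgroup D} [M.Normal] (hfr : M ⊔ Subgroup.normalizer (U : Set D) = ⊤)
    {k : ℕ} (σ : M →* Matrix (Fin k) (Fin k) F) (y : D) :
    SZ (U.subgroupOf M) (cj σ y) ↔ SZ (U.subgroupOf M) σ := by
  classical
  have : Fintype (U.subgroupOf M) := Fintype.ofFinite _
  obtain ⟨m, hm, z, hz, rfl⟩ : ∃ m ∈ M, ∃ z ∈ Subgroup.normalizer (U : Set D), m * z = y := by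
    have h1 : y ∈ ((M ⊔ Subgroup.normalizer (U : Set D) : Subgroup D) : Set D) := by
      rw [hfr]; trivial
    rw [Subgroup.normal_mul] at h1
    exact h1
  have hz' := hz
  rw [Subgroup.mem_normalizer_iff] at hz
  have hbij : Function.Bijective (fun u : U.subgroupOf M =>
      (⟨MulAut.conjNormal z (u : M), by
        rw [Subgroup.mem_subgroupOf, MulAut.conjNormal_apply]
        exact (hz _).1 (Subgroup.mem_subgroupOf.1 u.2)⟩ : U.subgroupOf M)) := by
    rw [Finite.injective_iff_bijective.symm]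
    intro u v huv
    exact Subtype.ext ((MulAut.conjNormal z : M ≃* M).injective (congrArg Subtype.val huv))
  have h2 : ∑ᶠ u : U.subgroupOf M, cj σ (m * z) u =
      σ ⟨m, hm⟩ * (∑ᶠ u : U.subgroupOf M, σ u) * σ (⟨m, hm⟩ : M)⁻¹ := by
    simp only [finsum_eq_sum_of_fintype]
    rw [← Fintype.sum_bijective _ hbij (fun u => σ (MulAut.conjNormal z (u : M))) (fun u => σ u)
      fun u => rfl, Finset.mul_sum, Finset.sum_mul]
    refine Finset.sum_congr rfl fun u _ => ?_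
    rw [← map_mul, ← map_mul, cj_apply]
    congr 1
    ext
    simp only [MulAut.conjNormal_apply, Subgroup.coe_mul, Subgroup.coe_inv]
    group
  rw [SZ, SZ, h2]
  constructor
  · intro h
    have h3 : σ (⟨m, hm⟩ : M)⁻¹ * (σ ⟨m, hm⟩ * (∑ᶠ u : U.subgroupOf M, σ u) *
        σ (⟨m, hm⟩ : M)⁻¹) * σ ⟨m, hm⟩ = 0 := by rw [h]; simp
    have h4 : σ (⟨m, hm⟩ : M)⁻¹ * (σ ⟨m, hm⟩ * (∑ᶠ u : U.subgroupOf M, σ u) *
        σ (⟨m, hm⟩ : M)⁻¹) * σ ⟨m, hm⟩ = (σ (⟨m, hm⟩ : M)⁻¹ * σ ⟨m, hm⟩) *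
          (∑ᶠ u : U.subgroupOf M, σ u) * (σ (⟨m, hm⟩ : M)⁻¹ * σ ⟨m, hm⟩) := by
      simp only [Matrix.mul_assoc]
    rw [h4, ← map_mul, inv_mul_cancel, map_one, Matrix.one_mul, Matrix.mul_one] at h3
    exact h3
  · intro h
    rw [h]; simp

theorem pcm (fre : FreStmt) (ibj : IbjStmt) (ibf : IbfStmt) (ibc : IbcStmt) : PcmStmt := by
  intro ℓ _ F _ hF D _ _ M U T n h
  classical
  have : Fintype D := Fintype.ofFinite D
  have : Fintype M := Fintype.ofFinite M
  have : Fintype (D ⧸ M) := Fintype.ofFinite _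
  have : M.Normal := h.normal
  have := hF.char
  have hU : ((U.subgroupOf M).index : F) ≠ 0 := by
    rw [Ne, CharP.cast_eq_zero_iff F ℓ]
    exact not_dvd_index h
  have hM : (M.index : F) ≠ 0 := by
    rw [Ne, CharP.cast_eq_zero_iff F ℓ]
    exact h.index
  obtain ⟨b, hb⟩ := avg (G := M) hF ibj ibf ibc (U.subgroupOf M) hU
    (fun k ρ hρ hz => fre ℓ F hF M _ _ n h.bn k ρ hρ hz)
  obtain ⟨b', hb'1, hb'0⟩ : ∃ b' : D → F, (∀ x : M, b' x = b x) ∧ ∀ x, x ∉ M → b' x = 0 :=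
    ⟨fun x => if hx : x ∈ M then b ⟨x, hx⟩ else 0, fun x => by simp, fun x hx => by simp [hx]⟩
  refine ⟨fun x => (M.index : F)⁻¹ * ∑ g : D, b' (g⁻¹ * x * g), ?_, ?_, ?_, ?_⟩
  · intro x y
    simp only
    congr 1
    rw [← Equiv.sum_comp (Equiv.mulLeft y)]
    refine Finset.sum_congr rfl fun g _ => ?_
    congr 1
    simp only [Equiv.coe_mulLeft]
    group
  · intro x hx
    simp only
    rw [Finset.sum_eq_zero, mul_zero]
    intro g _
    refine hb'0 _ fun h1 => hx ?_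
    have h2 := h.normal.conj_mem _ h1 g
    have h3 : g * (g⁻¹ * x * g) * g⁻¹ = x := by group
    rwa [h3] at h2
  · intro x hx hdvd
    apply hx
    simp only
    rw [sum_inv (ℓ := ℓ) (Subgroup.centralizer ({x} : Set D)) hdvd, mul_zero]
    intro c hc g
    congr 1
    have h1 : x * c = c * x := Subgroup.mem_centralizer_iff.1 hc x rfl
    calc (c * g)⁻¹ * x * (c * g) = g⁻¹ * (c⁻¹ * (x * c)) * g := by group
      _ = g⁻¹ * x * g := by rw [h1]; group
  · intro k σ hσ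
    have key : ev σ (fun t : M => (M.index : F)⁻¹ * ∑ g : D, b' (g⁻¹ * (t : D) * g)) =
        (M.index : F)⁻¹ • ∑ q : D ⧸ M, ∑ m : M,
          cj σ q.out m * ev (cj σ q.out) b * cj σ q.out m⁻¹ := by
      have e1 : ev σ (fun t : M => (M.index : F)⁻¹ * ∑ g : D, b' (g⁻¹ * (t : D) * g)) =
          (M.index : F)⁻¹ • ∑ g : D, ev (cj σ g) b := by
        simp only [ev, finsum_eq_sum_of_fintype]
        have e2 : ∀ t : M, ((M.index : F)⁻¹ * ∑ g : D, b' (g⁻¹ * (t : D) * g)) • σ t =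
            (M.index : F)⁻¹ • ∑ g : D, b' (g⁻¹ * (t : D) * g) • σ t := fun t => by
          rw [mul_smul, Finset.sum_smul]
        rw [Finset.sum_congr rfl fun t _ => e2 t, ← Finset.smul_sum, Finset.sum_comm]
        congr 1
        refine Finset.sum_congr rfl fun g _ => ?_
        rw [← Equiv.sum_comp (MulAut.conjNormal g : M ≃* M).toEquiv]
        refine Finset.sum_congr rfl fun s _ => ?_
        change b' (g⁻¹ * ((MulAut.conjNormal g s : M) : D) * g) • σ (MulAut.conjNormal g s) =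
          b s • cj σ g s
        rw [MulAut.conjNormal_apply, cj_apply, ← hb'1]
        congr 2
        group
      rw [e1, sum_quot M]
      congr 1
      refine Finset.sum_congr rfl fun q _ => Finset.sum_congr rfl fun m _ => ?_
      simp only [ev, finsum_eq_sum_of_fintype]
      rw [Finset.mul_sum, Finset.sum_mul]
      refine Finset.sum_congr rfl fun s _ => ?_
      rw [cj_mul, Matrix.mul_smul, Matrix.smul_mul]
    rw [key]
    constructor
    · intro hz
      rw [Finset.sum_eq_zero, smul_zero]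
      intro q _
      exact (hb k (cj σ q.out) (cj_irr hσ _)).1 ((cj_sz h.frat σ _).2 hz)
    · intro hz
      have h1 : ∀ q : D ⧸ M, ∑ m : M, cj σ q.out m * ev (cj σ q.out) b * cj σ q.out m⁻¹ = 1 :=
        fun q => (hb k (cj σ q.out) (cj_irr hσ _)).2 fun h2 => hz ((cj_sz h.frat σ _).1 h2)
      rw [Finset.sum_congr rfl fun q _ => h1 q, Finset.sum_const, Finset.card_univ,
        ← Nat.card_eq_fintype_card, ← Subgroup.index_eq_card, ← Nat.cast_smul_eq_nsmul F,
        smul_smul, inv_mul_cancel₀ hM, one_smul]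

end main

end Pool.Agent.PP.BN.H71
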