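import Pool.Agent.Helper66_BN.Stmts
import Pool.Agent.Helper12_AWB.B155
import Pool.Agent.Helper46_PP.Alg
import Pool.Agent.Helper12_AWB.B046

/-! Copy (generated) of the module `Pool.Agent.Helper75_BN.Bru` with import lines for the bundle Helper12_AWB. -/

/-!
# Squad PP, part BN, module BBR: the Brauer map at `U`
-/

open scoped BigOperators

set_option linter.unusedSectionVars false

noncomputable section

namespace Pool.Agent.PP.BN.H75

open Pool.Agent.Helper51_AWC Pool.Agent.Helper79_WRA Pool.Agent.PP Pool.Agent.PP.H94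

section bru

variable {F D : Type} [Field F] [Group D] [Finite D] {ζ : Subgroup.center D →* F}

theorem ez_mem {x : D} (h : x ∈ Subgroup.center D) :
    ez ζ x = ζ ⟨x, h⟩ / (Nat.card (Subgroup.center D) : F) := by
  unfold ez
  rw [dif_pos h]

theorem ez_not_mem {x : D} (h : x ∉ Subgroup.center D) : ez ζ x = 0 := by
  unfold ez
  rw [dif_neg h]

theorem ez_cl : IsCl (ez ζ) := by
  intro x y
  by_cases h : x ∈ Subgroup.center D
  · have h1 : y * x * y⁻¹ = x := by
      rw [Subgroup.mem_center_iff.1 h y, mul_inv_cancel_right]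
    rw [h1]
  · rw [ez_not_mem h, ez_not_mem]
    intro h'
    apply h
    have h1 := Subgroup.mem_center_iff.1 h' y
    have h2 : x = y * x * y⁻¹ := by
      have h3 : y * (y * x * y⁻¹) = y * x := by rw [h1]; group
      exact (mul_left_cancel h3).symm
    rw [h2]
    exact h'

theorem ez_over : OverZ ζ (ez ζ) := by
  intro z x
  by_cases h : x ∈ Subgroup.center D
  · have h' : (z : D) * x ∈ Subgroup.center D := Subgroup.mul_mem _ z.2 h
    rw [ez_mem h, ez_mem h']
    have : (⟨z * x, h'⟩ : Subgroup.center D) = z * ⟨x, h⟩ := rfl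
    rw [this, map_mul, mul_div_assoc]
  · rw [ez_not_mem h, ez_not_mem, mul_zero]
    intro h'
    apply h
    have := Subgroup.mul_mem _ (Subgroup.inv_mem _ z.2) h'
    rwa [inv_mul_cancel_left] at this

theorem ez_mul (hZ : ((Nat.card (Subgroup.center D) : ℕ) : F) ≠ 0) {e : D → F}
    (he : OverZ ζ e) : mulF (ez ζ) e = e := by
  classical
  have := Fintype.ofFinite D
  have := Fintype.ofFinite (Subgroup.center D)
  funext x
  unfold mulF
  rw [finsum_eq_sum_of_fintype]
  have h1 : ∑ t : D, ez ζ t * e (t⁻¹ * x) =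
      ∑ z : Subgroup.center D, ez ζ (z : D) * e ((z : D)⁻¹ * x) := by
    symm
    apply Finset.sum_of_injOn (fun z : Subgroup.center D => (z : D))
    · intro a _ b _ h
      exact Subtype.ext h
    · intro a _
      exact Finset.mem_coe.2 (Finset.mem_univ _)
    · intro t _ ht
      rw [ez_not_mem, zero_mul]
      intro h
      exact ht ⟨⟨t, h⟩, Finset.mem_coe.2 (Finset.mem_univ _), rfl⟩
    · intro a _
      rfl
  rw [h1]
  have h2 : ∀ z : Subgroup.center D, ez ζ (z : D) * e ((z : D)⁻¹ * x) =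
      e x / (Nat.card (Subgroup.center D) : F) := by
    intro z
    rw [ez_mem z.2]
    have h3 := he z⁻¹ x
    have h4 : (((z⁻¹ : Subgroup.center D) : D)) = (z : D)⁻¹ := rfl
    rw [h4] at h3
    rw [h3]
    have h5 : ζ z * ζ z⁻¹ = 1 := by rw [← map_mul, mul_inv_cancel, map_one]
    calc ζ ⟨z, z.2⟩ / (Nat.card (Subgroup.center D) : F) * (ζ z⁻¹ * e x) =
        (ζ z * ζ z⁻¹) * e x / (Nat.card (Subgroup.center D) : F) := by ring
      _ = _ := by rw [h5, one_mul]
  rw [Finset.sum_congr rfl (fun z _ => h2 z), Finset.sum_const, Finset.card_univ,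
    ← Nat.card_eq_fintype_card, nsmul_eq_mul, mul_div_cancel₀ _ hZ]

theorem ez_idem (hZ : ((Nat.card (Subgroup.center D) : ℕ) : F) ≠ 0) : IsIdem (ez ζ) :=
  ⟨ez_cl, ez_mul hZ ez_over⟩

theorem br_ez (U : Subgroup D) : br U (ez ζ) = ez ζ := by
  funext x
  unfold br
  by_cases h : x ∈ Subgroup.centralizer (U : Set D)
  · rw [if_pos h]
  · rw [if_neg h, ez_not_mem]
    intro h'
    exact h (Subgroup.center_le_centralizer _ h')

theorem br_sub (U : Subgroup D) (a b : D → F) :
    br U (fun x => a x - b x) = fun x => br U a x - br U b x := by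
  funext x
  unfold br
  by_cases h : x ∈ Subgroup.centralizer (U : Set D)
  · rw [if_pos h, if_pos h, if_pos h]
  · rw [if_neg h, if_neg h, if_neg h, sub_zero]

/-- an idempotent acting as zero everywhere is zero -/
theorem idem_zero (ibn : IbnStmt) {ℓ : ℕ} (hF : GoodF ℓ F) {H : Type} [Group H] [Finite H]
    {g : H → F} (hg : mulF g g = g)
    (h : ∀ (n : ℕ) (ρ : H →* Matrix (Fin n) (Fin n) F), IsIrr ρ → ev ρ g = 0) : g = 0 := by
  obtain ⟨k, hk⟩ := ibn ℓ F hF H g h
  have h1 : ∀ j : ℕ, (mulF g)^[j] g = g := by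
    intro j
    induction j with
    | zero => rfl
    | succ j ih => rw [Function.iterate_succ_apply', ih, hg]
  rw [h1] at hk
  exact hk

/-- an idempotent with support in the elements of defect zero is not positive -/
theorem pos_zero {ℓ : ℕ} (hF : GoodF ℓ F) {e : D → F} (he : IsIdem e)
    (hs : ∀ x, e x ≠ 0 → ¬ ℓ ∣ Nat.card (Subgroup.centralizer ({x} : Set D)))
    (hp : Pos ℓ e ⊤) : e = 0 := by
  classical
  have := Fintype.ofFinite (ConjClasses (⊤ : Subgroup D))
  apply H66.posx hF (⊤ : Subgroup D) (b := e) _ _ he.1 _ he he.2 hp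
  · rw [Subgroup.index_top]
    exact fun h => hF.prime.one_lt.ne' (Nat.dvd_one.1 h)
  · intro x hx
    exact absurd (Subgroup.mem_top x) hx
  · have hcl : IsCl (fun t : (⊤ : Subgroup D) => e t) := fun x y => he.1 x y
    unfold DZ
    rw [H66.cl_eq_sum hcl]
    refine Submodule.sum_mem _ fun c _ => ?_
    by_cases h0 : e ((c.out : (⊤ : Subgroup D)) : D) = 0
    · rw [h0, zero_smul]
      exact Submodule.zero_mem _
    · refine Submodule.smul_mem _ _ (Submodule.subset_span ⟨_, ?_, rfl⟩)
      have h1 := hs _ h0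
      intro h2
      apply h1
      have h3 : Nat.card (Subgroup.centralizer ({(c.out : (⊤ : Subgroup D))} :
          Set (⊤ : Subgroup D))) =
          Nat.card (Subgroup.centralizer ({((c.out : (⊤ : Subgroup D)) : D)} : Set D)) := by
        refine Nat.card_congr
          { toFun := fun g => ⟨g.1.1, ?_⟩
            invFun := fun g => ⟨⟨g.1, Subgroup.mem_top _⟩, ?_⟩
            left_inv := fun g => rfl
            right_inv := fun g => rfl }
        · have := g.2
          rw [Subgroup.mem_centralizer_singleton_iff] at this ⊢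
          exact congrArg Subtype.val this
        · have := g.2
          rw [Subgroup.mem_centralizer_singleton_iff] at this ⊢
          exact Subtype.ext this
      rw [← h3]
      exact h2

variable {ℓ : ℕ}

/-- the evaluation at a function over `ζ` on `C = R Z` -/
theorem ev_over (hℓ : ℓ.Prime) {C R : Subgroup D} (hR : IsPGroup ℓ R)
    (hZ : ¬ ℓ ∣ Nat.card (Subgroup.center D)) (hRC : R ≤ C) (hZC : Subgroup.center D ≤ C)
    (hC : ∀ c ∈ C, ∃ r ∈ R, ∃ z ∈ Subgroup.center D, c = z * r) {k : ℕ}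
    (σ : C →* Matrix (Fin k) (Fin k) F) (hσ : ∀ r (hr : r ∈ R), σ ⟨r, hRC hr⟩ = 1)
    {g : D → F} (hg : OverZ ζ g) :
    ev σ (fun t : C => g t) =
      (∑ᶠ r : R, g r) • ∑ᶠ z : Subgroup.center D, ζ z • σ ⟨z, hZC z.2⟩ := by
  classical
  have := Fintype.ofFinite D
  have := Fintype.ofFinite C
  have := Fintype.ofFinite R
  have := Fintype.ofFinite (Subgroup.center D)
  have hfact := Fact.mk hℓ
  have hinf : ∀ x, x ∈ R → x ∈ Subgroup.center D → x = 1 := by
    intro x hx hz
    obtain ⟨m, hm⟩ := hR ⟨x, hx⟩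
    have h1 : x ^ ℓ ^ m = 1 := congrArg Subtype.val hm
    have h2 : orderOf x ∣ ℓ ^ m := orderOf_dvd_of_pow_eq_one h1
    have h3 : orderOf x ∣ Nat.card (Subgroup.center D) := by
      have := orderOf_dvd_natCard (⟨x, hz⟩ : Subgroup.center D)
      rwa [Subgroup.orderOf_mk] at this
    have hcop : Nat.Coprime (ℓ ^ m) (Nat.card (Subgroup.center D)) :=
      Nat.Coprime.pow_left _ ((Nat.Prime.coprime_iff_not_dvd hℓ).2 hZ)
    rw [← orderOf_eq_one_iff]
    exact Nat.eq_one_of_dvd_coprimes hcop h2 h3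
  let φ : (Subgroup.center D) × R → C := fun p =>
    ⟨(p.1 : D) * p.2, C.mul_mem (hZC p.1.2) (hRC p.2.2)⟩
  have hφ : Function.Bijective φ := by
    constructor
    · rintro ⟨z, r⟩ ⟨z', r'⟩ h
      have h1 : (z : D) * r = z' * r' := congrArg Subtype.val h
      have h2 : (z' : D)⁻¹ * z = r' * (r : D)⁻¹ := by
        rw [eq_mul_inv_iff_mul_eq, mul_assoc, h1, inv_mul_cancel_left]
      have h3 := hinf ((z' : D)⁻¹ * z) (by
        rw [h2]
        exact R.mul_mem r'.2 (R.inv_mem r.2)) (Subgroup.mul_mem _ (Subgroup.inv_mem _ z'.2) z.2)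
      have h4 : (z : D) = z' := (inv_mul_eq_one.1 h3).symm
      have h5 : (r : D) = r' := by
        rw [h4] at h1
        exact mul_left_cancel h1
      exact Prod.ext (Subtype.ext h4) (Subtype.ext h5)
    · intro c
      obtain ⟨r, hr, z, hz, hc⟩ := hC c c.2
      exact ⟨(⟨z, hz⟩, ⟨r, hr⟩), Subtype.ext hc.symm⟩
  unfold ev
  rw [finsum_eq_sum_of_fintype, finsum_eq_sum_of_fintype, finsum_eq_sum_of_fintype,
    ← Equiv.sum_comp (Equiv.ofBijective φ hφ), Fintype.sum_prod_type, Finset.sum_smul_sum,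
    Finset.sum_comm]
  apply Finset.sum_congr rfl
  intro r _
  apply Finset.sum_congr rfl
  intro z _
  change g ((z : D) * r) • σ (φ (z, r)) = g r • ζ z • σ ⟨z, hZC z.2⟩
  have h1 : φ (z, r) = (⟨z, hZC z.2⟩ : C) * ⟨r, hRC r.2⟩ := rfl
  rw [h1, map_mul, hσ r r.2, mul_one, hg z r, smul_smul, mul_comm (ζ z)]

/-- the Brauer image is zero or the idempotent of the centre -/
theorem br_dichotomy (nls : NlsStmt) (brm : BrmStmt) (ibn : IbnStmt) (hF : GoodF ℓ F)
    {U : Subgroup D} (hU : IsPGroup ℓ U) (hZ : ¬ ℓ ∣ Nat.card (Subgroup.center D))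
    (hCU : Subgroup.centralizer (U : Set D) ≤ U ⊔ Subgroup.center D) {e : D → F}
    (he : IsIdem e) (heζ : OverZ ζ e) : br U e = 0 ∨ br U e = ez ζ := by
  classical
  have hchar := hF.char
  have hfact := Fact.mk hF.prime
  set C := Subgroup.centralizer (U : Set D) with hCdef
  have hZ0 : ((Nat.card (Subgroup.center D) : ℕ) : F) ≠ 0 := by
    intro h
    exact hZ ((CharP.cast_eq_zero_iff F ℓ _).1 h)
  have hZC : Subgroup.center D ≤ C := Subgroup.center_le_centralizer _
  have hCN : C ≤ Subgroup.normalizer (U : Set D) := by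
    intro x hx
    rw [Subgroup.mem_normalizer_iff]
    intro y
    have hx' := Subgroup.mem_centralizer_iff.1 hx
    constructor
    · intro hy
      rw [← hx' y hy, mul_inv_cancel_right]
      exact hy
    · intro hy
      have h1 := hx' _ hy
      have h2 : y = x * y * x⁻¹ := by
        have h3 : x * y * x⁻¹ * x = x * (x * y * x⁻¹) := h1
        have h4 : x * y = x * (x * y * x⁻¹) := by rw [← h3, inv_mul_cancel_right]
        exact mul_left_cancel h4
      rw [h2]
      exact hy
  obtain ⟨b1, b2, b3⟩ := brm ℓ F hF D U C hU le_rfl hCN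
  -- the two idempotents on `C`
  set f : C → F := fun t : C => br U e t with hf
  set a : C → F := fun t : C => br U (ez ζ) t with ha
  have hfi : IsIdem f := b3 e he
  have hai : IsIdem a := b3 (ez ζ) (ez_idem hZ0)
  have haf : mulF a f = f := by
    rw [ha, hf, ← b2 (ez ζ) e, ← b1 (ez ζ) e ez_cl he.1, ez_mul hZ0 heζ]
  set R : Subgroup D := U ⊓ C with hR
  have hRp : IsPGroup ℓ R := hU.to_le inf_le_left
  have hRC : R ≤ C := inf_le_right
  have hdec : ∀ c ∈ C, ∃ r ∈ R, ∃ z ∈ Subgroup.center D, c = z * r := by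
    intro c hc
    have hc' := hCU hc
    rw [sup_comm] at hc'
    obtain ⟨z, hz, u, hu, rfl⟩ := Subgroup.mem_sup_of_normal_left.1 hc'
    refine ⟨u, ⟨hu, ?_⟩, z, hz, rfl⟩
    have := C.mul_mem (C.inv_mem (hZC hz)) hc
    rwa [inv_mul_cancel_left] at this
  have hRn : (R.subgroupOf C).Normal := by
    constructor
    intro x hx g
    rw [Subgroup.mem_subgroupOf] at hx ⊢
    have hcomm := Subgroup.mem_centralizer_iff.1 g.2 (x : D) hx.1
    have h1 : ((g * x * g⁻¹ : C) : D) = x := by
      change (g : D) * x * (g : D)⁻¹ = x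
      rw [← hcomm, mul_inv_cancel_right]
    rw [h1]
    exact hx
  have hσ1 : ∀ {k : ℕ} (σ : C →* Matrix (Fin k) (Fin k) F), IsIrr σ →
      ∀ r (hr : r ∈ R), σ ⟨r, hRC hr⟩ = 1 := by
    intro k σ hσ r hr
    exact (nls ℓ F hF C (R.subgroupOf C) hRn (hRp.comap_of_injective _ (Subgroup.subtype_injective _))
      k σ hσ).1 ⟨r, hRC hr⟩ hr
  -- the evaluations
  have hfe : f = fun t : C => e t := by
    funext t
    rw [hf]
    change br U e t = e t
    unfold br
    rw [if_pos t.2]
  have hae : a = fun t : C => ez ζ t := by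
    rw [ha, br_ez]
  set s : F := ∑ᶠ r : R, e r with hs
  set s₀ : F := ∑ᶠ r : R, ez ζ (r : D) with hs₀
  have hs₀1 : s₀ = (Nat.card (Subgroup.center D) : F)⁻¹ := by
    have := Fintype.ofFinite R
    rw [hs₀, finsum_eq_sum_of_fintype, Finset.sum_eq_single (1 : R)]
    · rw [OneMemClass.coe_one, ez_mem (Subgroup.one_mem _)]
      have : (⟨1, Subgroup.one_mem _⟩ : Subgroup.center D) = 1 := rfl
      rw [this, map_one, one_div]
    · intro r _ hr
      apply ez_not_mem
      intro hz
      apply hr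
      obtain ⟨m, hm⟩ := hRp r
      have h1 : (r : D) ^ ℓ ^ m = 1 := congrArg Subtype.val hm
      have h2 : orderOf (r : D) ∣ ℓ ^ m := orderOf_dvd_of_pow_eq_one h1
      have h3 : orderOf (r : D) ∣ Nat.card (Subgroup.center D) := by
        have := orderOf_dvd_natCard (⟨r, hz⟩ : Subgroup.center D)
        rwa [Subgroup.orderOf_mk] at this
      have hcop : Nat.Coprime (ℓ ^ m) (Nat.card (Subgroup.center D)) :=
        Nat.Coprime.pow_left _ ((Nat.Prime.coprime_iff_not_dvd hF.prime).2 hZ)
      apply Subtype.ext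
      rw [OneMemClass.coe_one, ← orderOf_eq_one_iff]
      exact Nat.eq_one_of_dvd_coprimes hcop h2 h3
    · intro h
      exact absurd (Finset.mem_univ _) h
  have hevf : ∀ {k : ℕ} (σ : C →* Matrix (Fin k) (Fin k) F), IsIrr σ → ev σ f =
      s • ∑ᶠ z : Subgroup.center D, ζ z • σ ⟨z, hZC z.2⟩ := by
    intro k σ hσ
    rw [hfe]
    exact ev_over hF.prime hRp hZ hRC hZC hdec σ (hσ1 σ hσ) heζ
  have heva : ∀ {k : ℕ} (σ : C →* Matrix (Fin k) (Fin k) F), IsIrr σ → ev σ a =
      s₀ • ∑ᶠ z : Subgroup.center D, ζ z • σ ⟨z, hZC z.2⟩ := by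
    intro k σ hσ
    rw [hae]
    exact ev_over hF.prime hRp hZ hRC hZC hdec σ (hσ1 σ hσ) ez_over
  have hs₀0 : s₀ ≠ 0 := by
    rw [hs₀1]
    exact inv_ne_zero hZ0
  -- `ev σ f = (s / s₀) ev σ a`
  have hrel : ∀ {k : ℕ} (σ : C →* Matrix (Fin k) (Fin k) F), IsIrr σ →
      ev σ f = (s * s₀⁻¹) • ev σ a := by
    intro k σ hσ
    rw [hevf σ hσ, heva σ hσ, smul_smul, mul_assoc, inv_mul_cancel₀ hs₀0, mul_one]
  by_cases h1 : s * s₀⁻¹ = 1
  · right
    have hz : a - f = 0 := by
      apply idem_zero ibn hF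
      · exact (H46.isIdem_sub hai hfi haf).1.2
      · intro k σ hσ
        have h2 : ev σ (a - f) = ev σ a - ev σ f := by
          have := Fintype.ofFinite C
          unfold ev
          rw [finsum_eq_sum_of_fintype, finsum_eq_sum_of_fintype, finsum_eq_sum_of_fintype,
            ← Finset.sum_sub_distrib]
          apply Finset.sum_congr rfl
          intro t _
          rw [Pi.sub_apply, sub_smul]
        rw [h2, hrel σ hσ, h1, one_smul, sub_self]
    funext x
    by_cases hx : x ∈ C
    · have h3 := congrFun (sub_eq_zero.1 hz) ⟨x, hx⟩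
      change br U (ez ζ) x = br U e x at h3
      rw [← h3, br_ez]
    · unfold br
      rw [if_neg hx, ez_not_mem (fun h => hx (hZC h))]
  · left
    have hz : f = 0 := by
      apply idem_zero ibn hF hfi.2
      intro k σ hσ
      have h2 : ev σ f * ev σ f = ev σ f := by
        rw [← H20.ev_mulF, hfi.2]
      have h3 : ev σ a * ev σ a = ev σ a := by
        rw [← H20.ev_mulF, hai.2]
      rw [hrel σ hσ, smul_mul_smul_comm, h3] at h2
      rw [hrel σ hσ]
      have h4 : (s * s₀⁻¹) • ((s * s₀⁻¹ - 1) • ev σ a) = 0 := by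
        rw [sub_smul, one_smul, smul_sub, smul_smul, h2, sub_self]
      rcases smul_eq_zero.1 h4 with h5 | h5
      · rw [h5, zero_smul]
      · rcases smul_eq_zero.1 h5 with h6 | h6
        · exact absurd (sub_eq_zero.1 h6) h1
        · rw [h6, smul_zero]
    funext x
    by_cases hx : x ∈ C
    · exact congrFun hz ⟨x, hx⟩
    · unfold br
      rw [if_neg hx]
      rfl

end bru

/-- BRU -/
theorem bru (dze : DzeStmt) (nls : NlsStmt) (brm : BrmStmt) (ibn : IbnStmt) : BruStmt := by
  intro ℓ hfact F _ hF D _ _ M U T n h ζ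
  have hchar := hF.char
  -- the centre has order prime to `ℓ`
  have hZ : ¬ ℓ ∣ Nat.card (Subgroup.center D) := by
    intro hd
    have h1 : Nat.card (Subgroup.center D) ∣ Nat.card T := Subgroup.card_dvd_of_le h.zT
    have h2 : Nat.card (T.subgroupOf M) = Nat.card T :=
      Nat.card_congr (Subgroup.subgroupOfEquivOfLe h.TM).toEquiv
    apply h.bn.cop
    rw [h2]
    exact hd.trans h1
  have hZ0 : ((Nat.card (Subgroup.center D) : ℕ) : F) ≠ 0 := by
    intro h0
    exact hZ ((CharP.cast_eq_zero_iff F ℓ _).1 h0)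
  have hU : IsPGroup ℓ U := by
    intro x
    obtain ⟨m, hm⟩ := h.bn.pU ⟨⟨x, h.UM x.2⟩, x.2⟩
    refine ⟨m, ?_⟩
    have h1 := congrArg (fun y : U.subgroupOf M => ((y : M) : D)) hm
    exact Subtype.ext h1
  refine ⟨ez_idem hZ0, br_ez U, ?_⟩
  intro e he heζ hne hp
  have hbr : br U e = ez ζ := by
    rcases br_dichotomy nls brm ibn hF hU hZ h.cent he heζ with h0 | h0
    · exact absurd (pos_zero hF he (dze ℓ F hF D M U T n h e he h0) hp) hne
    · exact h0
  have hmul := ez_mul hZ0 heζ
  refine ⟨hbr, hmul, (H46.isIdem_sub (ez_idem hZ0) he hmul).1, ?_⟩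
  rw [br_sub, hbr, br_ez]
  funext x
  exact sub_self _

end Pool.Agent.PP.BN.H75
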