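import Pool.Agent.Helper66_BN.Stmts

/-! Copy (generated) of the module `Pool.Agent.Helper75_BN.Cyc` with import lines for the bundle Helper12_AWB. -/

/-!
# Squad PP, part BN, module BCY: cyclicity over `U`
-/

open scoped BigOperators

set_option linter.unusedSectionVars false

noncomputable section

namespace Pool.Agent.PP.BN.H75

open Pool.Agent.Helper51_AWC Pool.Agent.Helper79_WRA Pool.Agent.PP

section cyc

variable {F G : Type} [Field F] [Group G] {k : ℕ} {ρ : G →* Matrix (Fin k) (Fin k) F}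

/-- the orbit of a nonzero vector spans -/
theorem mem_orbit_span (hρ : IsIrr ρ) {v : Fin k → F} (hv : v ≠ 0) (w : Fin k → F) :
    w ∈ Submodule.span F (Set.range fun g => (ρ g).mulVec v) := by
  obtain ⟨i, hi⟩ := Function.ne_iff.1 hv
  have hi' : v i ≠ 0 := hi
  -- a matrix carrying `v` to `w`
  let X : Matrix (Fin k) (Fin k) F := Matrix.vecMulVec w (Pi.single i (v i)⁻¹)
  have hX : X.mulVec v = w := by
    funext j
    change ∑ l, w j * (Pi.single i (v i)⁻¹ : Fin k → F) l * v l = w j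
    rw [Finset.sum_eq_single i]
    · rw [Pi.single_eq_same, mul_assoc, inv_mul_cancel₀ hi', mul_one]
    · intro l _ hl
      rw [Pi.single_eq_of_ne hl, mul_zero, zero_mul]
    · intro h
      exact absurd (Finset.mem_univ _) h
  have hmem : X ∈ Submodule.span F (Set.range ρ) := by rw [hρ.2]; trivial
  have key : ∀ Y ∈ Submodule.span F (Set.range ρ),
      Y.mulVec v ∈ Submodule.span F (Set.range fun g => (ρ g).mulVec v) := by
    intro Y hY
    induction hY using Submodule.span_induction with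
    | mem x hx =>
      obtain ⟨g, rfl⟩ := hx
      exact Submodule.subset_span ⟨g, rfl⟩
    | zero => rw [Matrix.zero_mulVec]; exact Submodule.zero_mem _
    | add x y _ _ hx hy => rw [Matrix.add_mulVec]; exact Submodule.add_mem _ hx hy
    | smul c x _ hx => rw [Matrix.smul_mulVec]; exact Submodule.smul_mem _ c hx
  rw [← hX]
  exact key X hmem

theorem rho_mul (g h : G) (x : Fin k → F) :
    (ρ (g * h)).mulVec x = (ρ g).mulVec ((ρ h).mulVec x) := by
  rw [map_mul, Matrix.mulVec_mulVec]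

theorem rho_sum {ι : Type} (s : Finset ι) (g : G) (f : ι → Fin k → F) :
    (ρ g).mulVec (∑ i ∈ s, f i) = ∑ i ∈ s, (ρ g).mulVec (f i) :=
  map_sum (Matrix.mulVecLin (ρ g)) f s

variable {ℓ : ℕ} {U T : Subgroup G} {n : G}

/-- the span of `U n v` -/
def SU (U : Subgroup G) (n : G) (ρ : G →* Matrix (Fin k) (Fin k) F) (v : Fin k → F) :
    Submodule F (Fin k → F) :=
  Submodule.span F (Set.range fun u : U => (ρ (u * n)).mulVec v)

/-- `ρ(g) v` lies in `F v` or in the span of `U n v` -/
theorem orbit_cases (h : Rk1 ℓ U T n) {v : Fin k → F} {μ : T →* F}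
    (hU : ∀ u ∈ U, (ρ u).mulVec v = v) (hT : ∀ t : T, (ρ t).mulVec v = μ t • v) (g : G) :
    ((∃ u ∈ U, ∃ t ∈ T, g = u * t) ∧ ∃ c : F, (ρ g).mulVec v = c • v) ∨
      (ρ g).mulVec v ∈ SU U n ρ v := by
  rcases h.cell g with ⟨u, hu, t, ht, rfl⟩ | ⟨u, hu, t, ht, u', hu', rfl⟩
  · left
    refine ⟨⟨u, hu, t, ht, rfl⟩, μ ⟨t, ht⟩, ?_⟩
    rw [rho_mul, hT ⟨t, ht⟩, Matrix.mulVec_smul, hU u hu]
  · right
    rw [rho_mul, hU u' hu', rho_mul, hT ⟨t, ht⟩, Matrix.mulVec_smul]
    exact Submodule.smul_mem _ _ (Submodule.subset_span ⟨⟨u, hu⟩, rfl⟩)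

theorem exists_decomp (h : Rk1 ℓ U T n) (hρ : IsIrr ρ) {v : Fin k → F} {μ : T →* F} (hv : v ≠ 0)
    (hU : ∀ u ∈ U, (ρ u).mulVec v = v) (hT : ∀ t : T, (ρ t).mulVec v = μ t • v) (w : Fin k → F) :
    ∃ c : F, ∃ s ∈ SU U n ρ v, w = c • v + s := by
  have hw := mem_orbit_span hρ hv w
  induction hw using Submodule.span_induction with
  | mem x hx =>
    obtain ⟨g, rfl⟩ := hx
    rcases orbit_cases h hU hT g with ⟨-, c, hc⟩ | hs
    · exact ⟨c, 0, Submodule.zero_mem _, by rw [add_zero]; exact hc⟩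
    · exact ⟨0, _, hs, by rw [zero_smul, zero_add]⟩
  | zero => exact ⟨0, 0, Submodule.zero_mem _, by rw [zero_smul, zero_add]⟩
  | add x y _ _ hx hy =>
    obtain ⟨c, s, hs, rfl⟩ := hx
    obtain ⟨d, t, ht, rfl⟩ := hy
    exact ⟨c + d, s + t, Submodule.add_mem _ hs ht, by rw [add_smul]; abel⟩
  | smul a x _ hx =>
    obtain ⟨c, s, hs, rfl⟩ := hx
    exact ⟨a * c, a • s, Submodule.smul_mem _ _ hs, by rw [smul_add, smul_smul]⟩

/-- the span of `U n v` is everything if it contains `v` -/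
theorem span_top (h : Rk1 ℓ U T n) (hρ : IsIrr ρ) {v : Fin k → F} {μ : T →* F} (hv : v ≠ 0)
    (hU : ∀ u ∈ U, (ρ u).mulVec v = v) (hT : ∀ t : T, (ρ t).mulVec v = μ t • v)
    (hvS : v ∈ SU U n ρ v) (w : Fin k → F) : w ∈ SU U n ρ v := by
  obtain ⟨c, s, hs, rfl⟩ := exists_decomp h hρ hv hU hT w
  exact Submodule.add_mem _ (Submodule.smul_mem _ _ hvS) hs

variable [Finite G]

/-- `|U| < dim V` if `v` is not in the span of `U n v` -/
theorem card_lt (h : Rk1 ℓ U T n) (hρ : IsIrr ρ) {v : Fin k → F} {μ : T →* F} (hv : v ≠ 0)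
    (hU : ∀ u ∈ U, (ρ u).mulVec v = v) (hT : ∀ t : T, (ρ t).mulVec v = μ t • v)
    (hvS : v ∉ SU U n ρ v) : Nat.card U < k := by
  classical
  have := Fintype.ofFinite U
  -- the vectors `n u n⁻¹ v`
  have hli : LinearIndependent F (fun u : U => (ρ (n * u * n⁻¹)).mulVec v) := by
    rw [Fintype.linearIndependent_iff]
    have key : ∀ a : U → F, ∑ u, a u • (ρ (n * u * n⁻¹)).mulVec v = 0 → a 1 = 0 := by
      intro a ha
      by_contra h1
      apply hvS
      have e1 : a 1 • v = - ∑ u ∈ Finset.univ.erase (1 : U),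
          a u • (ρ (n * u * n⁻¹)).mulVec v := by
        rw [← Finset.add_sum_erase _ _ (Finset.mem_univ (1 : U))] at ha
        have e2 : (ρ (n * ((1 : U) : G) * n⁻¹)).mulVec v = v := by
          rw [OneMemClass.coe_one, mul_one, mul_inv_cancel, map_one, Matrix.one_mulVec]
        rw [e2] at ha
        exact eq_neg_of_add_eq_zero_left ha
      have e3 : a 1 • v ∈ SU U n ρ v := by
        rw [e1]
        apply Submodule.neg_mem
        apply Submodule.sum_mem
        intro u hu
        apply Submodule.smul_mem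
        rcases orbit_cases h hU hT (n * u * n⁻¹) with ⟨⟨u', hu', t, ht, hg⟩, -⟩ | hs
        · exfalso
          apply Finset.ne_of_mem_erase hu
          exact Subtype.ext (h.opp u u.2 u' hu' t ht hg)
        · exact hs
      have e4 := Submodule.smul_mem _ (a 1)⁻¹ e3
      rwa [smul_smul, inv_mul_cancel₀ h1, one_smul] at e4
    intro a ha u₀
    have h1 := key (fun u => a (u₀ * u)) (by
      have h2 := congrArg (fun x => (ρ (n * ((u₀⁻¹ : U) : G) * n⁻¹)).mulVec x) ha
      simp only [Matrix.mulVec_zero] at h2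
      rw [rho_sum] at h2
      rw [← h2, ← Equiv.sum_comp (Equiv.mulLeft u₀) (fun u => (ρ (n * ((u₀⁻¹ : U) : G) *
        n⁻¹)).mulVec (a u • (ρ (n * u * n⁻¹)).mulVec v))]
      apply Finset.sum_congr rfl
      intro u _
      rw [Equiv.coe_mulLeft, Matrix.mulVec_smul, ← rho_mul]
      congr 3
      push_cast
      group)
    rw [mul_one] at h1
    exact h1
  have hle : Nat.card U ≤ k := by
    have h1 := hli.fintype_card_le_finrank
    rwa [Module.finrank_fin_fun, ← Nat.card_eq_fintype_card] at h1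
  apply lt_of_le_of_ne hle
  intro heq
  apply hvS
  have htop : Submodule.span F (Set.range fun u : U => (ρ (n * u * n⁻¹)).mulVec v) = ⊤ := by
    apply hli.span_eq_top_of_card_eq_finrank'
    rw [Module.finrank_fin_fun, ← Nat.card_eq_fintype_card, heq]
  have hmem : (ρ n).mulVec v ∈
      Submodule.span F (Set.range fun u : U => (ρ (n * u * n⁻¹)).mulVec v) := by
    rw [htop]; trivial
  have key : ∀ x ∈ Submodule.span F (Set.range fun u : U => (ρ (n * u * n⁻¹)).mulVec v),
      (ρ n⁻¹).mulVec x ∈ SU U n ρ v := by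
    intro x hx
    induction hx using Submodule.span_induction with
    | mem x hx =>
      obtain ⟨u, rfl⟩ := hx
      have e1 : n⁻¹ * (n * (u : G) * n⁻¹) = (u * n) * (n * n)⁻¹ := by group
      change (ρ n⁻¹).mulVec ((ρ (n * u * n⁻¹)).mulVec v) ∈ _
      rw [← rho_mul, e1, rho_mul]
      have e2 : (ρ (n * n)⁻¹).mulVec v = μ (⟨n * n, h.nn⟩ : T)⁻¹ • v :=
        hT (⟨n * n, h.nn⟩ : T)⁻¹
      rw [e2, Matrix.mulVec_smul]
      exact Submodule.smul_mem _ _ (Submodule.subset_span ⟨u, rfl⟩)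
    | zero => rw [Matrix.mulVec_zero]; exact Submodule.zero_mem _
    | add x y _ _ hx hy => rw [Matrix.mulVec_add]; exact Submodule.add_mem _ hx hy
    | smul c x _ hx => rw [Matrix.mulVec_smul]; exact Submodule.smul_mem _ c hx
  have h1 := key _ hmem
  rwa [← rho_mul, inv_mul_cancel, map_one, Matrix.one_mulVec] at h1

/-- the trace vector `(∑ U) n v` -/
def tv [Fintype U] (n : G) (ρ : G →* Matrix (Fin k) (Fin k) F) (v : Fin k → F) : Fin k → F :=
  ∑ u : U, (ρ (u * n)).mulVec v

theorem tv_fixed [Fintype U] (v : Fin k → F) :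
    ∀ u ∈ U, (ρ u).mulVec (tv (U := U) n ρ v) = tv (U := U) n ρ v := by
  intro u hu
  unfold tv
  rw [rho_sum, ← Equiv.sum_comp (Equiv.mulLeft (⟨u, hu⟩ : U))
    (fun w : U => (ρ ((w : G) * n)).mulVec v)]
  apply Finset.sum_congr rfl
  intro w _
  rw [Equiv.coe_mulLeft, ← rho_mul, Subgroup.coe_mul, mul_assoc]

/-- the element `n⁻¹ t n` of `T` -/
def tn (h : Rk1 ℓ U T n) : T →* T where
  toFun t := ⟨n⁻¹ * t * n, by
    rw [h.nT]
    have e : n * (n⁻¹ * (t : G) * n) * n⁻¹ = t := by group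
    rw [e]
    exact t.2⟩
  map_one' := by
    apply Subtype.ext
    change n⁻¹ * ((1 : T) : G) * n = 1
    rw [OneMemClass.coe_one, mul_one, inv_mul_cancel]
  map_mul' s t := by
    apply Subtype.ext
    change n⁻¹ * ((s * t : T) : G) * n = n⁻¹ * s * n * (n⁻¹ * t * n)
    rw [Subgroup.coe_mul]
    group

theorem tv_weight [Fintype U] (h : Rk1 ℓ U T n) {v : Fin k → F} {μ : T →* F}
    (hT : ∀ t : T, (ρ t).mulVec v = μ t • v) (t : T) :
    (ρ t).mulVec (tv (U := U) n ρ v) = (μ.comp (tn h)) t • tv (U := U) n ρ v := by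
  unfold tv
  have hinv : ∀ u ∈ U, (t : G)⁻¹ * u * t ∈ U := by
    intro u hu
    have := h.TU (t : G)⁻¹ (T.inv_mem t.2) u hu
    rwa [inv_inv] at this
  let φ : U ≃ U :=
    { toFun := fun u => ⟨t * u * (t : G)⁻¹, h.TU t t.2 u u.2⟩
      invFun := fun u => ⟨(t : G)⁻¹ * u * t, hinv u u.2⟩
      left_inv := fun u => Subtype.ext (by
        change (t : G)⁻¹ * (t * u * (t : G)⁻¹) * t = u
        group)
      right_inv := fun u => Subtype.ext (by
        change (t : G) * ((t : G)⁻¹ * u * t) * (t : G)⁻¹ = u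
        group) }
  rw [rho_sum, Finset.smul_sum, ← Equiv.sum_comp φ (fun u : U => (μ.comp (tn h)) t •
    (ρ (u * n)).mulVec v)]
  apply Finset.sum_congr rfl
  intro u _
  have e1 : (t : G) * (u * n) = (φ u * n) * (tn h t : T) := by
    change (t : G) * (u * n) = (t * u * (t : G)⁻¹ * n) * (n⁻¹ * t * n)
    group
  rw [← rho_mul, e1, rho_mul, hT (tn h t), Matrix.mulVec_smul]
  rfl

/-- the relation `τ² = c τ` -/
theorem tv_tv [Fintype U] (h : Rk1 ℓ U T n) (hcard : ((Nat.card U : ℕ) : F) = 0)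
    {v : Fin k → F} {μ : T →* F}
    (hU : ∀ u ∈ U, (ρ u).mulVec v = v) (hT : ∀ t : T, (ρ t).mulVec v = μ t • v) :
    ∃ c : F, tv (U := U) n ρ (tv (U := U) n ρ v) = c • tv (U := U) n ρ v := by
  classical
  -- for `u ≠ 1` : `(∑ U) n u n v = c_u (∑ U) n v`
  have hterm : ∀ u : U, ∃ c : F,
      ∑ u' : U, (ρ ((u' : G) * n * (u * n))).mulVec v = c • tv (U := U) n ρ v := by
    intro u
    by_cases hu : u = 1
    · refine ⟨0, ?_⟩
      rw [zero_smul, hu]
      have e1 : ∀ u' : U, (ρ ((u' : G) * n * (((1 : U) : G) * n))).mulVec v =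
          μ ⟨n * n, h.nn⟩ • v := by
        intro u'
        have e2 : (u' : G) * n * (((1 : U) : G) * n) = u' * (n * n) := by
          rw [OneMemClass.coe_one, one_mul, mul_assoc]
        rw [e2, rho_mul, hT ⟨n * n, h.nn⟩, Matrix.mulVec_smul, hU u' u'.2]
      rw [Finset.sum_congr rfl (fun u' _ => e1 u'), Finset.sum_const, Finset.card_univ,
        ← Nat.card_eq_fintype_card, ← Nat.cast_smul_eq_nsmul F, hcard, zero_smul]
    · rcases h.cell (n * (u * n)) with ⟨u₁, hu₁, t, ht, hg⟩ | ⟨u₁, hu₁, t, ht, u₂, hu₂, hg⟩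
      · exfalso
        apply hu
        apply Subtype.ext
        apply h.opp u u.2 u₁ hu₁ (t * (n * n)⁻¹) (T.mul_mem ht (T.inv_mem h.nn))
        rw [← mul_assoc, ← hg]
        group
      · refine ⟨μ ⟨t, ht⟩, ?_⟩
        have e1 : ∀ u' : U, (ρ ((u' : G) * n * (u * n))).mulVec v =
            μ ⟨t, ht⟩ • (ρ ((u' * ⟨u₁, hu₁⟩ : U) * n)).mulVec v := by
          intro u'
          have e2 : (u' : G) * n * (u * n) = ((u' * ⟨u₁, hu₁⟩ : U) * n) * t * u₂ := by
            rw [mul_assoc (u' : G) n, hg, Subgroup.coe_mul]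
            group
          rw [e2, rho_mul, hU u₂ hu₂, rho_mul, hT ⟨t, ht⟩, Matrix.mulVec_smul]
        rw [Finset.sum_congr rfl (fun u' _ => e1 u'), ← Finset.smul_sum]
        congr 1
        exact Equiv.sum_comp (Equiv.mulRight (⟨u₁, hu₁⟩ : U))
          (fun u' : U => (ρ ((u' : G) * n)).mulVec v)
  choose c hc using hterm
  refine ⟨∑ u, c u, ?_⟩
  rw [Finset.sum_smul]
  rw [← Finset.sum_congr rfl (fun u _ => hc u)]
  change ∑ u' : U, (ρ (u' * n)).mulVec (∑ u : U, (ρ (u * n)).mulVec v) = _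
  rw [Finset.sum_comm]
  apply Finset.sum_congr rfl
  intro u' _
  rw [rho_sum]
  apply Finset.sum_congr rfl
  intro u _
  rw [← rho_mul]

/-- the case where the trace vector is a multiple -/
theorem card_ge [Fintype U] (h : Rk1 ℓ U T n) (hρ : IsIrr ρ) {w : Fin k → F} {μ : T →* F}
    (hw : w ≠ 0) (hU : ∀ u ∈ U, (ρ u).mulVec w = w) (hT : ∀ t : T, (ρ t).mulVec w = μ t • w)
    {c : F} (hc : tv (U := U) n ρ w = c • w) : k ≤ Nat.card U := by
  classical
  by_cases hwS : w ∈ SU U n ρ w
  · have htop : SU U n ρ w = ⊤ := by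
      rw [eq_top_iff]
      intro x _
      exact span_top h hρ hw hU hT hwS x
    have h1 := finrank_range_le_card (R := F) (fun u : U => (ρ (u * n)).mulVec w)
    have h2 : (Set.range fun u : U => (ρ (u * n)).mulVec w).finrank F = k := by
      rw [Set.finrank]
      change Module.finrank F (SU U n ρ w) = k
      rw [htop, finrank_top, Module.finrank_fin_fun]
    rw [h2, ← Nat.card_eq_fintype_card] at h1
    exact h1
  · have hc0 : c = 0 := by
      by_contra hne
      apply hwS
      have h1 : tv (U := U) n ρ w ∈ SU U n ρ w := by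
        unfold tv
        apply Submodule.sum_mem
        intro u _
        exact Submodule.subset_span ⟨u, rfl⟩
      rw [hc] at h1
      have h2 := Submodule.smul_mem _ c⁻¹ h1
      rwa [smul_smul, inv_mul_cancel₀ hne, one_smul] at h2
    rw [hc0, zero_smul] at hc
    let f : U → Fin k → F := fun u => if u = 1 then w else (ρ (u * n)).mulVec w
    have hf1 : w ∈ Submodule.span F (Set.range f) := by
      apply Submodule.subset_span
      exact ⟨1, if_pos rfl⟩
    have hfu : ∀ u : U, (ρ (u * n)).mulVec w ∈ Submodule.span F (Set.range f) := by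
      intro u
      by_cases hu : u = 1
      · rw [hu]
        have h1 : (ρ (((1 : U) : G) * n)).mulVec w =
            - ∑ u ∈ Finset.univ.erase (1 : U), (ρ (u * n)).mulVec w := by
          unfold tv at hc
          rw [← Finset.add_sum_erase _ _ (Finset.mem_univ (1 : U))] at hc
          exact eq_neg_of_add_eq_zero_left hc
        rw [h1]
        apply Submodule.neg_mem
        apply Submodule.sum_mem
        intro u hu
        apply Submodule.subset_span
        exact ⟨u, if_neg (Finset.ne_of_mem_erase hu)⟩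
      · apply Submodule.subset_span
        exact ⟨u, if_neg hu⟩
    have htop : Submodule.span F (Set.range f) = ⊤ := by
      rw [eq_top_iff]
      intro x _
      obtain ⟨c, s, hs, rfl⟩ := exists_decomp h hρ hw hU hT x
      apply Submodule.add_mem _ (Submodule.smul_mem _ _ hf1)
      have hle : SU U n ρ w ≤ Submodule.span F (Set.range f) := by
        unfold SU
        rw [Submodule.span_le]
        rintro _ ⟨u, rfl⟩
        exact hfu u
      exact hle hs
    have h1 := finrank_range_le_card (R := F) f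
    have h2 : (Set.range f).finrank F = k := by
      rw [Set.finrank, htop, finrank_top, Module.finrank_fin_fun]
    rw [h2, ← Nat.card_eq_fintype_card] at h1
    exact h1

/-- (4.1) -/
theorem mem_SU (h : Rk1 ℓ U T n) (hcard : ((Nat.card U : ℕ) : F) = 0) (hρ : IsIrr ρ)
    {v : Fin k → F} {μ : T →* F} (hv : v ≠ 0) (hU : ∀ u ∈ U, (ρ u).mulVec v = v)
    (hT : ∀ t : T, (ρ t).mulVec v = μ t • v) : v ∈ SU U n ρ v := by
  classical
  by_contra hvS
  have := Fintype.ofFinite U
  have hlt := card_lt h hρ hv hU hT hvS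
  -- the vectors `u n v` are linearly independent
  have hdim : k ≤ 1 + Module.finrank F (SU U n ρ v) := by
    have htop : Submodule.span F {v} ⊔ SU U n ρ v = ⊤ := by
      rw [eq_top_iff]
      intro x _
      obtain ⟨c, s, hs, rfl⟩ := exists_decomp h hρ hv hU hT x
      exact Submodule.add_mem_sup (Submodule.smul_mem _ _ (Submodule.mem_span_singleton_self v)) hs
    have h1 := Submodule.finrank_add_le_finrank_add_finrank (Submodule.span F {v}) (SU U n ρ v)
    rw [htop, finrank_top, Module.finrank_fin_fun, finrank_span_singleton hv] at h1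
    exact h1
  have hli : LinearIndependent F (fun u : U => (ρ (u * n)).mulVec v) := by
    rw [linearIndependent_iff_card_eq_finrank_span]
    apply le_antisymm
    · rw [← Nat.card_eq_fintype_card]
      change Nat.card U ≤ Module.finrank F (SU U n ρ v)
      omega
    · exact finrank_range_le_card _
  have hw : tv (U := U) n ρ v ≠ 0 := by
    intro h0
    have h1 := Fintype.linearIndependent_iff.1 hli (fun _ => 1) (by
      unfold tv at h0
      simpa only [one_smul] using h0) 1
    exact one_ne_zero h1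
  obtain ⟨c, hc⟩ := tv_tv h hcard hU hT
  have h2 := card_ge h hρ hw (tv_fixed v) (tv_weight h hT) hc
  omega

end cyc

/-- CYC, (4.1) -/
theorem cyc_of {ℓ : ℕ} {F : Type} [Field F] (hF : GoodF ℓ F) {G : Type} [Group G] [Finite G]
    {U T : Subgroup G} {n : G} (h : Rk1 ℓ U T n) (hne : U ≠ ⊥) {k : ℕ}
    {ρ : G →* Matrix (Fin k) (Fin k) F} (hρ : IsIrr ρ) {v : Fin k → F} {μ : T →* F}
    (hv : v ≠ 0) (hU : ∀ u ∈ U, (ρ u).mulVec v = v) (hT : ∀ t : T, (ρ t).mulVec v = μ t • v)
    (w : Fin k → F) : ∃ a : U → F, w = ∑ᶠ u : U, a u • (ρ (u * n)).mulVec v := by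
  classical
  have := Fintype.ofFinite U
  have hfact := Fact.mk hF.prime
  have hchar := hF.char
  have hcard : ((Nat.card U : ℕ) : F) = 0 := by
    rw [CharP.cast_eq_zero_iff F ℓ]
    obtain ⟨j, hj⟩ := IsPGroup.iff_card.1 h.pU
    rw [hj]
    apply dvd_pow_self
    rintro rfl
    apply hne
    rw [pow_zero] at hj
    exact Subgroup.card_eq_one.1 hj
  have h1 := span_top h hρ hv hU hT (mem_SU h hcard hρ hv hU hT) w
  unfold SU at h1
  obtain ⟨a, ha⟩ := (Submodule.mem_span_range_iff_exists_fun F).1 h1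
  refine ⟨a, ?_⟩
  rw [finsum_eq_sum_of_fintype]
  exact ha.symm

/-- CYC -/
theorem cyc : CycStmt := by
  intro ℓ _ F _ hF G _ _ U T n h k ρ hρ v μ hv hU hT w
  exact cyc_of hF h h.ne hρ hv hU hT w

end Pool.Agent.PP.BN.H75
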