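import Pool.Agent.Helper12_AWB.B147

/-! Copy (generated) of the module `Pool.Agent.Helper96_BN.BCB` with import lines for the bundle Helper12_AWB. -/

/-!
# Squad PP, part BN, module BCB: the number of irreducible modular characters
-/

open scoped BigOperators

set_option linter.unusedSectionVars false

noncomputable section

namespace Pool.Agent.PP.BN.H96

open Pool.Agent.PP

/-- the action on a trace depends only on the value of the representation -/
theorem actF_ev {F H : Type} [Field F] [Group H] [Finite H] {n : ℕ}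
    {ρ : H →* Matrix (Fin n) (Fin n) F} {a b : H → F} (h : ev ρ a = ev ρ b) :
    actF a (tr ρ) = actF b (tr ρ) := by
  funext x
  rw [H20.actF_tr, H20.actF_tr, h]

theorem actF_ev_zero {F H : Type} [Field F] [Group H] [Finite H] {n : ℕ}
    {ρ : H →* Matrix (Fin n) (Fin n) F} (hρ : IsIrr ρ) {a : H → F} (h : ev ρ a = 0) :
    actF a (tr ρ) ≠ tr ρ := by
  intro h1
  obtain ⟨g, hg⟩ := Helper58_CL.tr_ne_zero hρ
  apply hg
  rw [← h1, H20.actF_tr, h, zero_mul, Matrix.trace_zero]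

/-- the idempotent of the centre is a class function -/
theorem ez_cl {F D : Type} [Field F] [Group D] (ζ : Subgroup.center D →* F) : IsCl (ez ζ) := by
  intro x y
  by_cases hx : x ∈ Subgroup.center D
  · have h1 : y * x * y⁻¹ = x := by
      rw [Subgroup.mem_center_iff.1 hx y, mul_inv_cancel_right]
    rw [h1]
  · have h1 : y * x * y⁻¹ ∉ Subgroup.center D := by
      intro h
      apply hx
      have h2 := (inferInstance : (Subgroup.center D).Normal).conj_mem _ h y⁻¹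
      have h3 : y⁻¹ * (y * x * y⁻¹) * y⁻¹⁻¹ = x := by group
      rwa [h3] at h2
    unfold ez
    rw [dif_neg hx, dif_neg h1]

theorem ez_off {F D : Type} [Field F] [Group D] (ζ : Subgroup.center D →* F) {x : D}
    (hx : x ∉ Subgroup.center D) : ez ζ x = 0 := by
  unfold ez
  rw [dif_neg hx]

section

variable {ℓ : ℕ} [Fact ℓ.Prime] {F : Type} [Field F] {D : Type} [Group D] [Finite D]
  {M U T : Subgroup D} {n : M}

theorem pU (hR : RkD ℓ M U T n) : IsPGroup ℓ U :=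
  hR.bn.pU.of_equiv (Subgroup.subgroupOfEquivOfLe hR.UM)

/-- Characters that correspond lie in the sets of the counting lemma simultaneously. -/
theorem mem_iff (hF : GoodF ℓ F) (hco1 : Co1Stmt) (hco2 : Co2Stmt) (hco3 : Co3Stmt)
    (hR : RkD ℓ M U T n) [M.Normal] (ζ : Subgroup.center D →* F) {α : D → F}
    (hα : ∀ (k : ℕ) (σ : M →* Matrix (Fin k) (Fin k) F), IsIrr σ →
      (SZ (U.subgroupOf M) σ → ev σ (fun t : M => α t) = ev σ (fun t : M => ez ζ t)) ∧
      (¬ SZ (U.subgroupOf M) σ → ev σ (fun t : M => α t) = 0))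
    {φ : M → F} {κ : M.subgroupOf (Subgroup.normalizer (U : Set D)) → F} (hc : Cor M U φ κ)
    (x y : Subgroup.normalizer (U : Set D)) :
    φ ∈ phiSet M α (x : D) (y : D) ↔
      κ ∈ phiSet (M.subgroupOf (Subgroup.normalizer (U : Set D)))
        (fun t : Subgroup.normalizer (U : Set D) => ez ζ t) x y := by
  obtain ⟨-, -, c3, c4, c5⟩ := hco1 ℓ F hF D M U T n hR
  obtain ⟨h1, h2⟩ := c5 φ κ hc
  have h3 : actF (fun t : M => α t) φ = actF (fun t : M => ez ζ t) φ := by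
    obtain ⟨k, ρ, v, hρ, rfl, hsz, -⟩ := hc
    exact actF_ev ((hα k ρ hρ).1 hsz)
  have h4 := hco2 ℓ F hF D M U T n hR ζ φ κ hc
  have h5 : ∀ x : Subgroup.normalizer (U : Set D),
      (∀ l, φ (MulAut.conjNormal (x : D) l) = φ l) ↔ ∀ l, κ (MulAut.conjNormal x l) = κ l := by
    intro x
    have h6 := hco3 ℓ F D M U φ κ hR.UM hc x
    constructor
    · intro h l
      have h7 : (fun l => φ (MulAut.conjNormal (x : D) l)) = φ := funext h
      rw [h7] at h6
      exact congrFun (c4 _ _ _ h6 hc) l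
    · intro h l
      have h7 : (fun l => κ (MulAut.conjNormal x l)) = κ := funext h
      rw [h7] at h6
      exact congrFun (c3 _ _ _ h6 hc) l
  unfold phiSet
  constructor
  · rintro ⟨-, a2, a3, a4⟩
    refine ⟨h2, ?_, (h5 x).1 a3, (h5 y).1 a4⟩
    exact h4.1 (h3.symm.trans a2)
  · rintro ⟨-, a2, a3, a4⟩
    refine ⟨h1, ?_, (h5 x).2 a3, (h5 y).2 a4⟩
    exact h3.trans (h4.2 a2)

end

/-- BCB. -/
theorem cnb (halp : AlpStmt) (hcmq : CmqStmt) (hco1 : Co1Stmt) (hco2 : Co2Stmt)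
    (hco3 : Co3Stmt) : CnbStmt := by
  intro ℓ _ F _ hF D _ _ M U T n hR ζ e he hov he0 hpos
  have hMn := hR.normal
  obtain ⟨α, hαcl, hαM, hαD, hαM2⟩ := halp ℓ F hF D M U T n hR ζ e he hov he0 hpos
  obtain ⟨c1, c2, c3, c4, c5⟩ := hco1 ℓ F hF D M U T n hR
  have hset : {f : D → F | f ∈ IBr F D ∧ actF e f = f} =
      {f : D → F | f ∈ IBr F D ∧ actF α f = f} := by
    ext f
    constructor
    · rintro ⟨⟨m, ρ, hρ, rfl⟩, h2⟩
      refine ⟨⟨m, ρ, hρ, rfl⟩, ?_⟩
      rw [actF_ev (hαD m ρ hρ)]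
      exact h2
    · rintro ⟨⟨m, ρ, hρ, rfl⟩, h2⟩
      refine ⟨⟨m, ρ, hρ, rfl⟩, ?_⟩
      rw [← actF_ev (hαD m ρ hρ)]
      exact h2
  rw [hset]
  have hb0 : ∀ x : Subgroup.normalizer (U : Set D),
      x ∉ M.subgroupOf (Subgroup.normalizer (U : Set D)) → ez ζ (x : D) = 0 := by
    intro x hx
    apply ez_off
    intro h
    exact hx (hR.TM (hR.zT h))
  refine hcmq ℓ F hF D M (Subgroup.normalizer (U : Set D)) hR.frat α
    (fun t : Subgroup.normalizer (U : Set D) => ez ζ t) hαcl hαM (fun x y => ez_cl ζ x y) hb0 ?_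
  intro τ hτ x y hk
  unfold csum
  classical
  let g : (M → F) → (M.subgroupOf (Subgroup.normalizer (U : Set D)) → F) := fun φ =>
    if h : ∃ κ, Cor M U φ κ then h.choose else 0
  have hg : ∀ φ ∈ phiSet M α (x : D) (y : D), Cor M U φ (g φ) := by
    intro φ hφ
    have hex : ∃ κ, Cor M U φ κ := by
      obtain ⟨⟨k, ρ, hρ, rfl⟩, a2, -, -⟩ := hφ
      by_cases hsz : SZ (U.subgroupOf M) ρ
      · obtain ⟨κ, -, hκ⟩ := c2 k ρ hρ hsz
        exact ⟨κ, hκ⟩
      · exact absurd a2 (actF_ev_zero hρ ((hαM2 k ρ hρ).2 hsz))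
    have h1 : g φ = hex.choose := dif_pos hex
    rw [h1]
    exact hex.choose_spec
  refine finsum_mem_eq_of_bijOn g ⟨?_, ?_, ?_⟩ ?_
  · intro φ hφ
    exact (mem_iff hF hco1 hco2 hco3 hR ζ hαM2 (hg φ hφ) x y).1 hφ
  · intro φ hφ φ' hφ' heq
    have h1 := hg φ hφ
    rw [heq] at h1
    exact c3 _ _ _ h1 (hg φ' hφ')
  · intro κ hκ
    obtain ⟨φ, hc⟩ := c1 κ hκ.1
    have hφ := (mem_iff hF hco1 hco2 hco3 hR ζ hαM2 hc x y).2 hκ
    exact ⟨φ, hφ, c4 _ _ _ (hg φ hφ) hc⟩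
  · intro φ hφ
    have hc := hg φ hφ
    have hκ := (mem_iff hF hco1 hco2 hco3 hR ζ hαM2 hc x y).1 hφ
    rw [co4 ℓ F hF D M U φ (g φ) hR.UM (pU hR) hc hκ.1 x y hk hφ.2.2.1 hφ.2.2.2 hκ.2.2.1
      hκ.2.2.2]

end Pool.Agent.PP.BN.H96
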