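import Pool.Agent.Helper36_PP.StmtsCY
import Pool.Agent.Helper12_AWB.B112

/-! Copy (generated) of the module `Pool.Agent.Helper96_BN.Tic` with import lines for the bundle Helper12_AWB. -/

/-!
# Squad PP, part CY, module TIC: the chains of a group with a TI Sylow subgroup
-/

open scoped BigOperators

noncomputable section

namespace Pool.Agent.PP.CY.H96

open Pool.Agent.PP Pool.Agent.Helper51_AWC

/-- every `ℓ`-subgroup is contained in a conjugate of a Sylow subgroup -/
theorem le_conj {ℓ : ℕ} [Fact ℓ.Prime] {G : Type} [Group G] [Finite G] {P : Subgroup G}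
    (hP : IsPGroup ℓ P) (hi : ¬ ℓ ∣ P.index) (Q : Subgroup G) (hQ : IsPGroup ℓ Q) :
    ∃ g : G, Q ≤ conjS g P := by
  obtain ⟨R, hR⟩ := hQ.exists_le_sylow
  obtain ⟨g, hg⟩ := MulAction.exists_smul_eq G (hP.toSylow hi) R
  refine ⟨g, fun x hx => ?_⟩
  have h1 : x ∈ (g • (hP.toSylow hi)) := by rw [hg]; exact hR hx
  exact h1

/-- TIC. -/
theorem tic : TicStmt := by
  intro ℓ _ F _ G _ _ P hP _ e he
  have h1 : lnum (⊤ : Subgroup G) e = {f : G → F | f ∈ IBr F G ∧ actF e f = f}.ncard := by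
    rw [H75.lnum_eq]
    exact H75.cnt_equiv Subgroup.topEquiv e
  rw [BN.H9.tic hP.pgrp hP.ne (le_conj hP.pgrp hP.sylow) ?_ he, h1, mul_sub]
  intro g x hx hx1 hgx
  by_contra h
  exact hx1 (hP.ti g h x hx hgx)

end Pool.Agent.PP.CY.H96
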