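import Pool.Agent.Helper36_PP.StmtsCY

/-! Copy (generated) of the module `Pool.Agent.Helper47_PP.Cyt` with import lines for the bundle Helper12_AWB. -/

/-!
# Squad PP, part CY, module CYT: Sylow subgroups of nearly simple groups
-/

set_option autoImplicit false

open scoped BigOperators

namespace Pool.Agent.PP.H47C

open Pool.Agent.Helper51_AWC

/-- transport along an isomorphism -/
theorem tis_equiv {ℓ : ℕ} {T S : Type} [Group T] [Group S] (e : T ≃* S) {P : Subgroup S}
    (h : TiS ℓ P) : TiS ℓ (P.map (e.symm : S →* T)) := by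
  have hmem : ∀ t : T, t ∈ P.map (e.symm : S →* T) ↔ e t ∈ P := by
    intro t
    rw [Subgroup.mem_map]
    constructor
    · rintro ⟨s, hs, rfl⟩
      have : e ((e.symm : S →* T) s) = s := e.apply_symm_apply s
      rwa [this]
    · intro ht
      exact ⟨e t, ht, e.symm_apply_apply t⟩
  refine ⟨h.pgrp.map _, ?_, ?_, ?_⟩
  · rw [Subgroup.index_map_equiv]
    exact h.sylow
  · intro h0
    apply h.ne
    rw [Subgroup.map_eq_bot_iff_of_injective _ e.symm.injective] at h0
    exact h0
  · intro g hg x hx hgx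
    rw [hmem] at hx hgx
    rw [map_mul, map_mul, map_inv] at hgx
    have hg' : e g ∉ Subgroup.normalizer (P : Set S) := by
      intro h1
      apply hg
      rw [Subgroup.mem_normalizer_iff] at h1 ⊢
      intro y
      rw [hmem, hmem, map_mul, map_mul, map_inv]
      exact h1 (e y)
    have h2 := h.ti (e g) hg' (e x) hx hgx
    rw [← map_one e] at h2
    exact e.injective h2

/-- a normal subgroup of index prime to `ℓ` -/
theorem tis_normal {ℓ : ℕ} [Fact ℓ.Prime] {G : Type} [Group G] [Finite G] (T : Subgroup G)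
    [T.Normal] (hT : ¬ ℓ ∣ T.index) {P : Subgroup T} (h : TiS ℓ P) :
    TiS ℓ (P.map T.subtype) := by
  refine ⟨h.pgrp.map _, ?_, ?_, ?_⟩
  · rw [Subgroup.index_map_subtype, (Fact.out : ℓ.Prime).dvd_mul]
    rintro (h1 | h1)
    · exact h.sylow h1
    · exact hT h1
  · intro h0
    apply h.ne
    rw [Subgroup.map_eq_bot_iff_of_injective _ T.subtype_injective] at h0
    exact h0
  · intro g hg x hx hgx
    by_contra hx1
    apply hg
    obtain ⟨y, hy, rfl⟩ := Subgroup.mem_map.1 hx
    set P₁ : Sylow ℓ T := h.pgrp.toSylow h.sylow with hP₁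
    have hP₁' : (P₁ : Subgroup T) = P := rfl
    obtain ⟨t, ht⟩ := MulAction.exists_smul_eq T P₁ ((MulAut.conjNormal g : MulAut T) • P₁)
    have hcoe : ∀ w : T, t⁻¹ * w * t ∈ P ↔ (MulAut.conjNormal g : MulAut T)⁻¹ w ∈ P := by
      intro w
      have h1 : w ∈ ((t • P₁ : Sylow ℓ T) : Subgroup T) ↔ t⁻¹ * w * t ∈ P := by
        rw [Sylow.coe_subgroup_smul, Subgroup.mem_pointwise_smul_iff_inv_smul_mem, ← map_inv,
          MulAut.smul_def, MulAut.conj_apply, inv_inv, hP₁']
      have h2 : w ∈ (((MulAut.conjNormal g : MulAut T) • P₁ : Sylow ℓ T) : Subgroup T) ↔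
          (MulAut.conjNormal g : MulAut T)⁻¹ w ∈ P := by
        rw [Sylow.pointwise_smul_def, Subgroup.mem_pointwise_smul_iff_inv_smul_mem,
          MulAut.smul_def, hP₁']
      rw [← h1, ← h2, ht]
    have hinv : ∀ w : T, (((MulAut.conjNormal g : MulAut T)⁻¹ w : T) : G) = g⁻¹ * w * g := by
      intro w
      rw [← map_inv, MulAut.conjNormal_apply, inv_inv]
    -- the conjugate of `y`
    set w : T := ⟨g * y * g⁻¹, (inferInstance : T.Normal).conj_mem y.1 y.2 g⟩ with hw
    have hwP : w ∈ P := by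
      obtain ⟨w', hw', h1⟩ := Subgroup.mem_map.1 hgx
      have : w' = w := Subtype.ext h1
      rwa [← this]
    have hw2 : (MulAut.conjNormal g : MulAut T)⁻¹ w ∈ P := by
      have : (MulAut.conjNormal g : MulAut T)⁻¹ w = y := by
        apply Subtype.ext
        rw [hinv]
        change g⁻¹ * (g * (y : G) * g⁻¹) * g = y
        group
      rw [this]
      exact hy
    have hw3 := (hcoe w).2 hw2
    have htN : t ∈ Subgroup.normalizer (P : Set T) := by
      by_contra htN
      have h1 := h.ti t htN (t⁻¹ * w * t) hw3 (by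
        have : t * (t⁻¹ * w * t) * t⁻¹ = w := by group
        rw [this]
        exact hwP)
      have h2 : w = 1 := by
        have : w = t * (t⁻¹ * w * t) * t⁻¹ := by group
        rw [this, h1]
        group
      apply hx1
      have h3 : g * (y : G) * g⁻¹ = 1 := congrArg Subtype.val h2
      have h4 : (y : G) = g⁻¹ * (g * (y : G) * g⁻¹) * g := by group
      change (y : G) = 1
      rw [h4, h3]
      group
    rw [Subgroup.mem_normalizer_iff] at htN
    apply Subgroup.mem_normalizer_fintype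
    rintro _ ⟨v, hv, rfl⟩
    set v' : T := ⟨g * v * g⁻¹, (inferInstance : T.Normal).conj_mem v.1 v.2 g⟩ with hv'
    have h1 : (MulAut.conjNormal g : MulAut T)⁻¹ v' ∈ P := by
      have : (MulAut.conjNormal g : MulAut T)⁻¹ v' = v := by
        apply Subtype.ext
        rw [hinv]
        change g⁻¹ * (g * (v : G) * g⁻¹) * g = v
        group
      rw [this]
      exact hv
    have h2 := (hcoe v').2 h1
    have h3 := (htN (t⁻¹ * v' * t)).1 h2
    have h4 : t * (t⁻¹ * v' * t) * t⁻¹ = v' := by group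
    rw [h4] at h3
    exact ⟨v', h3, rfl⟩

/-- a central extension by a group of order prime to `ℓ` -/
theorem tis_central {ℓ : ℕ} [Fact ℓ.Prime] {D E : Type} [Group D] [Finite D] [Group E]
    (π : D →* E) (hπ : Function.Surjective π) (hc : ∀ z, π z = 1 → ∀ d : D, z * d = d * z)
    (hZ : ¬ ℓ ∣ Nat.card π.ker) {P : Subgroup E} (h : TiS ℓ P) :
    ∃ U : Subgroup D, TiS ℓ U ∧ Nonempty (U ≃* P) := by
  have hE : Finite E := Finite.of_surjective π hπ
  obtain ⟨U, hU⟩ := Sylow.mapSurjective_surjective hπ ℓ (h.pgrp.toSylow h.sylow)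
  have hmap : (U : Subgroup D).map π = P := congrArg (fun Q : Sylow ℓ E => (Q : Subgroup E)) hU
  -- `ℓ`-elements of the kernel
  have hker : ∀ z, π z = 1 → ∀ n : ℕ, z ^ (ℓ ^ n) = 1 → z = 1 := by
    intro z hz n hn
    have h1 : orderOf z ∣ ℓ ^ n := orderOf_dvd_of_pow_eq_one hn
    have h2 : orderOf z ∣ Nat.card π.ker := by
      have := orderOf_dvd_natCard (⟨z, hz⟩ : π.ker)
      rwa [← Subgroup.orderOf_coe] at this
    obtain ⟨i, _, hi⟩ := (Nat.dvd_prime_pow Fact.out).1 h1
    rw [← orderOf_eq_one_iff]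
    rcases Nat.eq_zero_or_pos i with h0 | h0
    · rw [hi, h0, pow_zero]
    · exact absurd ((dvd_pow_self ℓ h0.ne').trans (hi ▸ h2)) hZ
  have hUp : ∀ u ∈ (U : Subgroup D), ∃ n : ℕ, u ^ (ℓ ^ n) = 1 := by
    intro u hu
    obtain ⟨n, hn⟩ := U.isPGroup' ⟨u, hu⟩
    exact ⟨n, congrArg Subtype.val hn⟩
  have hinj : ∀ u ∈ (U : Subgroup D), π u = 1 → u = 1 := by
    intro u hu h1
    obtain ⟨n, hn⟩ := hUp u hu
    exact hker u h1 n hn
  refine ⟨U, ⟨U.isPGroup', U.not_dvd_index, ?_, ?_⟩, ?_⟩
  · intro h0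
    apply h.ne
    rw [← hmap, h0, Subgroup.map_bot]
  · intro g hg x hx hgx
    by_contra hx1
    apply hg
    have hgN : π g ∈ Subgroup.normalizer (P : Set E) := by
      by_contra hgN
      have h1 := h.ti (π g) hgN (π x) (by rw [← hmap]; exact Subgroup.mem_map_of_mem π hx) (by
        rw [← map_inv, ← map_mul, ← map_mul, ← hmap]
        exact Subgroup.mem_map_of_mem π hgx)
      exact hx1 (hinj x hx h1)
    rw [Subgroup.mem_normalizer_iff] at hgN
    apply Subgroup.mem_normalizer_fintype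
    intro u hu
    have h1 : π (g * u * g⁻¹) ∈ P := by
      rw [map_mul, map_mul, map_inv]
      refine (hgN (π u)).1 ?_
      rw [← hmap]
      exact Subgroup.mem_map_of_mem π hu
    rw [← hmap] at h1
    obtain ⟨u', hu', h2⟩ := Subgroup.mem_map.1 h1
    set z := u'⁻¹ * (g * u * g⁻¹) with hz
    have hz1 : π z = 1 := by
      rw [hz, map_mul, map_inv, h2, inv_mul_cancel]
    have hz2 : g * u * g⁻¹ = u' * z := by rw [hz]; group
    obtain ⟨n, hn⟩ := hUp u hu
    obtain ⟨n', hn'⟩ := hUp u' hu'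
    have hz3 : z ^ (ℓ ^ (n + n')) = 1 := by
      have hcomm : Commute u' z := (hc z hz1 u').symm
      have h3 : (g * u * g⁻¹) ^ (ℓ ^ (n + n')) = 1 := by
        rw [conj_pow, pow_add, pow_mul, hn, one_pow, mul_one, mul_inv_cancel]
      have h4 : u' ^ (ℓ ^ (n + n')) = 1 := by
        rw [add_comm, pow_add, pow_mul, hn', one_pow]
      rw [hz2, hcomm.mul_pow, h4, one_mul] at h3
      exact h3
    have hz4 := hker z hz1 _ hz3
    rw [hz4, mul_one] at hz2
    change g * u * g⁻¹ ∈ (U : Subgroup D)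
    rw [hz2]
    exact hu'
  · have hinj' : Function.Injective (π.comp (U : Subgroup D).subtype) := by
      rw [injective_iff_map_eq_one]
      intro u hu
      exact Subtype.ext (hinj u.1 u.2 hu)
    refine ⟨(MonoidHom.ofInjective hinj').trans (MulEquiv.subgroupCongr ?_)⟩
    rw [MonoidHom.range_comp, Subgroup.range_subtype, hmap]

/-- the center has order prime to `ℓ` -/
theorem center_card {ℓ : ℕ} [Fact ℓ.Prime] {D : Type} [Group D] [Finite D]
    (h : opCore ℓ D = ⊥) : ¬ ℓ ∣ Nat.card (Subgroup.center D) := by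
  intro hdvd
  obtain ⟨z, hz⟩ := exists_prime_orderOf_dvd_card' ℓ hdvd
  have hn : (Subgroup.zpowers (z : D)).Normal := by
    refine ⟨fun n hn g => ?_⟩
    have hnc : n ∈ Subgroup.center D :=
      (Subgroup.zpowers_le.2 z.2 : Subgroup.zpowers (z : D) ≤ Subgroup.center D) hn
    have : g * n * g⁻¹ = n := by
      rw [(Subgroup.mem_center_iff.1 hnc g), mul_assoc, mul_inv_cancel, mul_one]
    rwa [this]
  have hp : IsPGroup ℓ (Subgroup.zpowers (z : D)) := by
    apply IsPGroup.of_card (n := 1)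
    rw [Nat.card_zpowers, Subgroup.orderOf_coe, hz, pow_one]
  have hle : Subgroup.zpowers (z : D) ≤ opCore ℓ D := le_sSup ⟨hn, hp⟩
  rw [h, le_bot_iff, Subgroup.zpowers_eq_bot] at hle
  have h1 : z = 1 := Subtype.ext hle
  rw [h1, orderOf_one] at hz
  exact (Fact.out : ℓ.Prime).one_lt.ne hz

/-- CYT: the Sylow subgroups of nearly simple groups. -/
theorem cyt : CytStmt := by
  intro ℓ _ D S _ _ _ _ hop _ hns P hP
  obtain ⟨T, hTn, -, ⟨e⟩, -, hTi⟩ := hns
  have h1 := tis_equiv e hP
  have h2 := tis_normal T hTi h1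
  obtain ⟨U, hU, ⟨f⟩⟩ := tis_central (QuotientGroup.mk' (Subgroup.center D))
    (QuotientGroup.mk'_surjective _) (by
      intro z hz d
      have hz' : z ∈ Subgroup.center D := by
        rw [← MonoidHom.mem_ker, QuotientGroup.ker_mk'] at hz
        exact hz
      exact (Subgroup.mem_center_iff.1 hz' d).symm) (by
      rw [QuotientGroup.ker_mk']
      exact center_card hop) h2
  exact ⟨U, hU, ⟨f.trans (((P.map (e.symm : S →* T)).equivMapOfInjective T.subtype
    T.subtype_injective).symm.trans (e.symm.subgroupMap P).symm)⟩⟩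

end Pool.Agent.PP.H47C
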