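import Pool.Agent.Helper66_AWS.S070

/-! Copy (generated) of the module `Pool.Agent.Helper99_BN.Cns` with import lines for the bundle Helper12_AWB. -/

/-!
# Squad PP, part BN, module BCN: a constituent of the restriction (Clifford's theorem)
-/

open scoped BigOperators

noncomputable section

namespace Pool.Agent.PP.BN.H99

open Pool.Agent.PP

variable {F H : Type} [Field F] [Group H]

theorem inv_bot {m : ℕ} (ρ : H →* Matrix (Fin m) (Fin m) F) : Inv ρ ⊥ := by
  intro g w hw
  rw [Submodule.mem_bot] at hw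
  rw [hw, Matrix.mulVec_zero]
  exact Submodule.zero_mem _

theorem inv_sup {m : ℕ} {ρ : H →* Matrix (Fin m) (Fin m) F} {W W' : Submodule F (Fin m → F)}
    (h : Inv ρ W) (h' : Inv ρ W') : Inv ρ (W ⊔ W') := by
  intro g w hw
  obtain ⟨a, ha, b, hb, rfl⟩ := Submodule.mem_sup.1 hw
  rw [Matrix.mulVec_add]
  exact Submodule.add_mem_sup (h g a ha) (h' g b hb)

theorem inv_inf {m : ℕ} {ρ : H →* Matrix (Fin m) (Fin m) F} {W W' : Submodule F (Fin m → F)}
    (h : Inv ρ W) (h' : Inv ρ W') : Inv ρ (W ⊓ W') :=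
  fun g w hw => ⟨h g w hw.1, h' g w hw.2⟩

/-- An irreducible representation has no invariant subspaces. -/
theorem top_of_inv {m : ℕ} {ρ : H →* Matrix (Fin m) (Fin m) F} (hρ : IsIrr ρ)
    {W : Submodule F (Fin m → F)} (h : Inv ρ W) (hW : W ≠ ⊥) : W = ⊤ := by
  have h1 : ∀ A : Matrix (Fin m) (Fin m) F, ∀ w ∈ W, A.mulVec w ∈ W := by
    intro A w hw
    have hA : A ∈ Submodule.span F (Set.range ρ) := by
      rw [hρ.2]
      trivial
    induction hA using Submodule.span_induction with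
    | mem a ha =>
      obtain ⟨g, rfl⟩ := ha
      exact h g w hw
    | zero =>
      rw [Matrix.zero_mulVec]
      exact Submodule.zero_mem _
    | add a b _ _ h1 h2 =>
      rw [Matrix.add_mulVec]
      exact Submodule.add_mem _ h1 h2
    | smul c a _ h1 =>
      rw [Matrix.smul_mulVec]
      exact Submodule.smul_mem _ _ h1
  obtain ⟨w, hw, hw0⟩ := Submodule.exists_mem_ne_zero_of_ne_bot hW
  obtain ⟨i, hi⟩ := Function.ne_iff.1 hw0
  rw [eq_top_iff]
  intro v _
  have h2 := h1 (Matrix.vecMulVec v (Pi.single i (w i)⁻¹)) w hw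
  have h3 : (Matrix.vecMulVec v (Pi.single i (w i)⁻¹)).mulVec w = v := by
    rw [Matrix.vecMulVec_mulVec]
    have h4 : (Pi.single i (w i)⁻¹ : Fin m → F) ⬝ᵥ w = 1 := by
      rw [single_dotProduct]
      exact inv_mul_cancel₀ hi
    rw [h4]
    simp
  rwa [h3] at h2

section

variable {D : Type} [Group D] {M : Subgroup D} {m : ℕ}

/-- the translate of a subspace -/
def tra (ρ : D →* Matrix (Fin m) (Fin m) F) (g : D) (W : Submodule F (Fin m → F)) :
    Submodule F (Fin m → F) := W.map (Matrix.toLin' (ρ g))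

theorem mem_tra {ρ : D →* Matrix (Fin m) (Fin m) F} {g : D} {W : Submodule F (Fin m → F)}
    {v : Fin m → F} : v ∈ tra ρ g W ↔ ∃ w ∈ W, (ρ g).mulVec w = v := by
  unfold tra
  rw [Submodule.mem_map]
  simp only [Matrix.toLin'_apply]

theorem mem_tra' {ρ : D →* Matrix (Fin m) (Fin m) F} {g : D} {W : Submodule F (Fin m → F)}
    {v : Fin m → F} : v ∈ tra ρ g W ↔ (ρ g⁻¹).mulVec v ∈ W := by
  rw [mem_tra]
  constructor
  · rintro ⟨w, hw, rfl⟩
    rw [Matrix.mulVec_mulVec, ← map_mul, inv_mul_cancel, map_one, Matrix.one_mulVec]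
    exact hw
  · intro h
    refine ⟨_, h, ?_⟩
    rw [Matrix.mulVec_mulVec, ← map_mul, mul_inv_cancel, map_one, Matrix.one_mulVec]

theorem inv_tra (hM : M.Normal) {ρ : D →* Matrix (Fin m) (Fin m) F} (g : D)
    {W : Submodule F (Fin m → F)} (h : Inv (ρ.comp M.subtype) W) :
    Inv (ρ.comp M.subtype) (tra ρ g W) := by
  intro x v hv
  rw [mem_tra'] at hv ⊢
  have h1 : g⁻¹ * (x : D) * g ∈ M := by
    have := hM.conj_mem x x.2 g⁻¹
    rwa [inv_inv] at this
  have h2 := h ⟨_, h1⟩ _ hv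
  have h3 : (ρ g⁻¹).mulVec (((ρ.comp M.subtype) x).mulVec v) =
      ((ρ.comp M.subtype) ⟨_, h1⟩).mulVec ((ρ g⁻¹).mulVec v) := by
    rw [Matrix.mulVec_mulVec, Matrix.mulVec_mulVec]
    congr 1
    change ρ g⁻¹ * ρ x = ρ (g⁻¹ * (x : D) * g) * ρ g⁻¹
    rw [← map_mul, ← map_mul]
    congr 1
    group
  rw [h3]
  exact h2

/-- Clifford's theorem: a minimal invariant subspace has an invariant complement. -/
theorem clifford (hM : M.Normal) {ρ : D →* Matrix (Fin m) (Fin m) F} (hρ : IsIrr ρ)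
    {W : Submodule F (Fin m → F)} (hW : Inv (ρ.comp M.subtype) W) (hW0 : W ≠ ⊥)
    (hmin : ∀ W', Inv (ρ.comp M.subtype) W' → W' ≤ W → W' = ⊥ ∨ W' = W) :
    ∃ W', Inv (ρ.comp M.subtype) W' ∧ IsCompl W W' := by
  classical
  let P : Submodule F (Fin m → F) → Prop := fun W' => Inv (ρ.comp M.subtype) W' ∧ W ⊓ W' = ⊥
  obtain ⟨W', ⟨hi, hd⟩, hmax⟩ : ∃ W', P W' ∧ ∀ W'', P W'' → W' ≤ W'' → W'' = W' := by
    obtain ⟨W', hW', hmax⟩ := (wellFounded_gt (α := Submodule F (Fin m → F))).has_min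
      {W' | P W'} ⟨⊥, inv_bot _, by rw [inf_bot_eq]⟩
    refine ⟨W', hW', fun W'' h1 h2 => ?_⟩
    by_contra h3
    exact hmax W'' h1 (lt_of_le_of_ne h2 (Ne.symm h3))
  refine ⟨W', hi, disjoint_iff.2 hd, ?_⟩
  rw [codisjoint_iff]
  by_contra hne
  -- some translate of W is not contained in W + W'
  have h1 : ∃ g : D, ¬ tra ρ g W ≤ W ⊔ W' := by
    by_contra hcon
    push Not at hcon
    apply hne
    have h2 : (⨆ g : D, tra ρ g W) ≤ W ⊔ W' := iSup_le hcon
    have h3 : (⨆ g : D, tra ρ g W) = ⊤ := by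
      apply top_of_inv hρ
      · intro g v hv
        induction hv using Submodule.iSup_induction' with
        | mem g' w hw =>
          apply Submodule.mem_iSup_of_mem (g * g')
          rw [mem_tra'] at hw ⊢
          have h4 : (ρ (g * g')⁻¹).mulVec ((ρ g).mulVec w) = (ρ g'⁻¹).mulVec w := by
            rw [Matrix.mulVec_mulVec, ← map_mul]
            congr 2
            group
          rw [h4]
          exact hw
        | zero =>
          rw [Matrix.mulVec_zero]
          exact Submodule.zero_mem _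
        | add a b _ _ ha hb =>
          rw [Matrix.mulVec_add]
          exact Submodule.add_mem _ ha hb
      · intro h0
        apply hW0
        rw [eq_bot_iff, ← h0]
        intro w hw
        apply Submodule.mem_iSup_of_mem 1
        rw [mem_tra', inv_one, map_one, Matrix.one_mulVec]
        exact hw
    rw [eq_top_iff, ← h3]
    exact h2
  obtain ⟨g, hg⟩ := h1
  -- the intersection is trivial
  have h2 : tra ρ g W ⊓ (W ⊔ W') = ⊥ := by
    have h3 : Inv (ρ.comp M.subtype) (tra ρ g W ⊓ (W ⊔ W')) :=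
      inv_inf (inv_tra hM g hW) (inv_sup hW hi)
    have h4 := hmin _ (inv_tra hM g⁻¹ h3) (by
      intro v hv
      rw [mem_tra'] at hv
      have h5 : (ρ g⁻¹⁻¹).mulVec v ∈ tra ρ g W := hv.1
      rw [mem_tra', Matrix.mulVec_mulVec, ← map_mul, inv_inv, inv_mul_cancel, map_one,
        Matrix.one_mulVec] at h5
      exact h5)
    rcases h4 with h4 | h4
    · rw [eq_bot_iff]
      intro v hv
      have h5 : (ρ g⁻¹).mulVec v ∈ tra ρ g⁻¹ (tra ρ g W ⊓ (W ⊔ W')) := by
        rw [mem_tra]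
        exact ⟨v, hv, rfl⟩
      rw [h4, Submodule.mem_bot] at h5
      have h6 : v = (ρ g).mulVec ((ρ g⁻¹).mulVec v) := by
        rw [Matrix.mulVec_mulVec, ← map_mul, mul_inv_cancel, map_one, Matrix.one_mulVec]
      rw [h6, h5, Matrix.mulVec_zero]
      exact Submodule.zero_mem _
    · exfalso
      apply hg
      intro v hv
      rw [mem_tra'] at hv
      rw [← h4, mem_tra', inv_inv, Matrix.mulVec_mulVec, ← map_mul, mul_inv_cancel, map_one,
        Matrix.one_mulVec] at hv
      exact hv.2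
  have h3 : P (W' ⊔ tra ρ g W) := by
    refine ⟨inv_sup hi (inv_tra hM g hW), ?_⟩
    rw [eq_bot_iff]
    rintro v ⟨hv1, hv2⟩
    obtain ⟨a, ha, b, hb, rfl⟩ := Submodule.mem_sup.1 hv2
    have h4 : b ∈ tra ρ g W ⊓ (W ⊔ W') := by
      refine ⟨hb, ?_⟩
      have h5 : b = (a + b) - a := by abel
      rw [h5]
      exact Submodule.sub_mem _ (Submodule.mem_sup_left hv1) (Submodule.mem_sup_right ha)
    rw [h2, Submodule.mem_bot] at h4
    rw [h4, add_zero] at hv1 ⊢
    rw [← hd]
    exact ⟨hv1, ha⟩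
  have h4 := hmax _ h3 le_sup_left
  apply hg
  have h5 : tra ρ g W ≤ W' := by
    rw [← h4]
    exact le_sup_right
  exact h5.trans le_sup_right

theorem cns : CnsStmt := by
  classical
  intro ℓ _ F _ hF D _ _ M hM _ m ρ hρ
  have := hF.closed
  have hm : 0 < m := hρ.1
  -- a minimal invariant subspace
  obtain ⟨W, ⟨hW, hW0⟩, hmin0⟩ := (wellFounded_lt (α := Submodule F (Fin m → F))).has_min
    {W | Inv (ρ.comp M.subtype) W ∧ W ≠ ⊥} ⟨⊤, fun _ _ _ => trivial, by
      have : Nonempty (Fin m) := ⟨⟨0, hm⟩⟩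
      exact top_ne_bot⟩
  have hmin : ∀ W', Inv (ρ.comp M.subtype) W' → W' ≤ W → W' = ⊥ ∨ W' = W := by
    intro W' h1 h2
    by_contra h3
    push Not at h3
    exact hmin0 W' ⟨h1, h3.1⟩ (lt_of_le_of_ne h2 h3.2)
  obtain ⟨W', hW', hc⟩ := clifford hM hρ hW hW0 hmin
  set k := Module.finrank F W with hk
  let b : Module.Basis (Fin k) F W := Module.finBasis F W
  let pr : (Fin m → F) →ₗ[F] W := Submodule.projectionOnto W W' hc
  let ix : (Fin k → F) →ₗ[F] (Fin m → F) := W.subtype ∘ₗ b.equivFun.symm.toLinearMap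
  let iy : (Fin m → F) →ₗ[F] (Fin k → F) := b.equivFun.toLinearMap ∘ₗ pr
  have hpr : ∀ w : W, pr w = w := fun w => Submodule.projectionOnto_apply_left hc w
  have hpr0 : ∀ w ∈ W', pr w = 0 := fun w hw =>
    Submodule.projectionOnto_apply_right hc ⟨w, hw⟩
  have hyx : ∀ v, iy (ix v) = v := by
    intro v
    change b.equivFun (pr ((b.equivFun.symm v : W) : Fin m → F)) = v
    rw [hpr, LinearEquiv.apply_symm_apply]
  have hxy : ∀ v, ix (iy v) = (pr v : Fin m → F) := by
    intro v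
    change ((b.equivFun.symm (b.equivFun (pr v)) : W) : Fin m → F) = _
    rw [LinearEquiv.symm_apply_apply]
  -- the projection commutes with the action
  have hcomm : ∀ (g : M) (v : Fin m → F), (pr ((ρ g).mulVec v) : Fin m → F) =
      (ρ g).mulVec (pr v : Fin m → F) := by
    intro g v
    obtain ⟨a, ha, c, hc', rfl⟩ := Submodule.mem_sup.1
      (show v ∈ W ⊔ W' by rw [hc.sup_eq_top]; trivial)
    have h1 : pr (a + c) = ⟨a, ha⟩ := by
      rw [map_add, hpr0 c hc', add_zero]
      exact hpr ⟨a, ha⟩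
    have h9 : pr ((ρ g).mulVec c) = 0 := hpr0 _ (hW' g c hc')
    have h10 : pr ((ρ g).mulVec a) = ⟨(ρ g).mulVec a, hW g a ha⟩ := hpr ⟨_, hW g a ha⟩
    rw [h1, Matrix.mulVec_add, map_add, h9, h10, add_zero]
  let X : Matrix (Fin m) (Fin k) F := LinearMap.toMatrix' ix
  let Y : Matrix (Fin k) (Fin m) F := LinearMap.toMatrix' iy
  have hX : ∀ v, X.mulVec v = ix v := fun v => LinearMap.toMatrix'_mulVec ix v
  have hY : ∀ v, Y.mulVec v = iy v := fun v => LinearMap.toMatrix'_mulVec iy v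
  have hYX : Y * X = 1 := by
    apply Matrix.ext_of_mulVec_single
    intro i
    rw [← Matrix.mulVec_mulVec, hX, hY, hyx, Matrix.one_mulVec]
  have hXYc : ∀ g : M, X * Y * ρ g = ρ g * (X * Y) := by
    intro g
    apply Matrix.ext_of_mulVec_single
    intro i
    rw [← Matrix.mulVec_mulVec, ← Matrix.mulVec_mulVec, ← Matrix.mulVec_mulVec,
      ← Matrix.mulVec_mulVec, hY, hX, hY, hX, hxy, hxy, hcomm]
  let σ : M →* Matrix (Fin k) (Fin k) F :=
    { toFun := fun g => Y * ρ g * X
      map_one' := by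
        have : ρ ((1 : M) : D) = 1 := map_one ρ
        rw [this, Matrix.mul_one, hYX]
      map_mul' := by
        intro g g'
        have h1 : ρ ((g * g' : M) : D) = ρ g * ρ g' := map_mul ρ _ _
        rw [h1]
        calc Y * (ρ g * ρ g') * X = (Y * X) * Y * (ρ g * ρ g') * X := by
              rw [hYX, Matrix.one_mul]
          _ = Y * (X * Y * ρ g) * ρ g' * X := by simp only [Matrix.mul_assoc]
          _ = Y * ρ g * X * (Y * ρ g' * X) := by
              rw [hXYc]
              simp only [Matrix.mul_assoc] }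
  have hσ : ∀ g : M, σ g = Y * ρ g * X := fun g => rfl
  have h1 : ∀ g : M, ρ g * X = X * σ g := by
    intro g
    rw [hσ]
    calc ρ g * X = ρ g * (X * (Y * X)) := by rw [hYX, Matrix.mul_one]
      _ = ρ g * (X * Y) * X := by simp only [Matrix.mul_assoc]
      _ = X * Y * ρ g * X := by rw [hXYc]
      _ = X * (Y * ρ g * X) := by simp only [Matrix.mul_assoc]
  have h2 : ∀ g : M, Y * ρ g = σ g * Y := by
    intro g
    rw [hσ]
    calc Y * ρ g = (Y * X) * Y * ρ g := by rw [hYX, Matrix.one_mul]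
      _ = Y * (X * Y * ρ g) := by simp only [Matrix.mul_assoc]
      _ = Y * (ρ g * (X * Y)) := by rw [hXYc]
      _ = Y * ρ g * X * Y := by simp only [Matrix.mul_assoc]
  refine ⟨k, σ, X, Y, ?_, hYX, h1, h2⟩
  have hWn : Nontrivial W := Submodule.nontrivial_iff_ne_bot.2 hW0
  apply irr_of_inv
  · exact Module.finrank_pos
  · intro Z hZ
    have h3 : Inv (ρ.comp M.subtype) (Z.map ix) := by
      intro g v hv
      obtain ⟨z, hz, rfl⟩ := Submodule.mem_map.1 hv
      refine Submodule.mem_map.2 ⟨(σ g).mulVec z, hZ g z hz, ?_⟩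
      rw [← hX, ← hX, Matrix.mulVec_mulVec, ← h1, ← Matrix.mulVec_mulVec]
      rfl
    have h4 : Z.map ix ≤ W := by
      intro v hv
      obtain ⟨z, hz, rfl⟩ := Submodule.mem_map.1 hv
      exact (b.equivFun.symm z).2
    rcases hmin _ h3 h4 with h5 | h5
    · left
      rw [eq_bot_iff]
      intro z hz
      have h6 : ix z ∈ Z.map ix := Submodule.mem_map_of_mem hz
      rw [h5, Submodule.mem_bot] at h6
      rw [Submodule.mem_bot, ← hyx z, h6, map_zero]
    · right
      rw [eq_top_iff]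
      intro z _
      have h6 : ix z ∈ W := (b.equivFun.symm z).2
      rw [← h5] at h6
      obtain ⟨z', hz', h7⟩ := Submodule.mem_map.1 h6
      have h8 : z' = z := by rw [← hyx z', h7, hyx]
      rwa [← h8]

end

end Pool.Agent.PP.BN.H99
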