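import Pool.Agent.Helper66_AWS.S050
import Pool.Agent.Helper66_AWS.S051
import Pool.Agent.Helper12_AWB.B147
import Pool.Agent.Helper66_AWS.S053
import Pool.Agent.Helper66_AWS.S054
import Pool.Agent.Helper12_AWB.B112
import Pool.Agent.Helper66_AWS.S001
import Pool.Agent.Helper66_AWS.S055
import Pool.Agent.Helper66_AWS.S056
import Pool.Agent.Helper66_AWS.S057
import Pool.Agent.Helper66_AWS.S008
import Pool.Agent.Helper66_AWS.S058
import Pool.Agent.Helper66_AWS.S059
import Pool.Agent.Helper66_AWS.S060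
import Pool.Agent.Helper66_AWS.S061
import Pool.Agent.Helper66_AWS.S062
import Pool.Agent.Helper66_AWS.S063
import Pool.Agent.Helper66_AWS.S064
import Pool.Agent.Helper12_AWB.B243
import Pool.Agent.Helper66_AWS.S065
import Pool.Agent.Helper12_AWB.B155
import Pool.Agent.Helper66_AWS.S066
import Pool.Agent.Helper12_AWB.B154
import Pool.Agent.Helper66_AWS.S067
import Pool.Agent.Helper12_AWB.B247
import Pool.Agent.Helper12_AWB.B160
import Pool.Agent.Helper66_AWS.S068
import Pool.Agent.Helper66_AWS.S069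
import Pool.Agent.Helper66_AWS.S071
import Pool.Agent.Helper12_AWB.B157

/-! Copy (generated) of the module `Pool.Agent.Helper66_BN.AsmBN` with import lines for the bundle Helper12_AWB. -/

/-!
# Squad PP, part BN: assembly
-/

open scoped BigOperators

noncomputable section

namespace Pool.Agent.PP.BN.H66

open Pool.Agent.PP

theorem ehw_ : EhwStmt := H65.bhw H75.cyc

theorem dze_ : DzeStmt := H90.dze H20.nls H20.brm H20.ibn H20.eig

theorem bru_ : BruStmt := H75.bru dze_ H20.nls H20.brm H20.ibn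

theorem fre_ : FreStmt := H21.fre H75.cyc ehw_

theorem pcm_ : PcmStmt := H71.pcm fre_ H20.ibj H20.ibf H20.ibc

theorem alp_ : AlpStmt := H40.bal bru_ dze_ pcm_ H48.trz H99.cns ehw_ H20.ibn H20.eig

theorem co1_ : Co1Stmt := H5.co1 ehw_ (H29.unq H75.cyc) (H96.exi ehw_) H24.wts H20.ibc

theorem cmq_ : CmqStmt := H96.cmq Pool.Agent.PP.H96.cl_

theorem cnb_ : CnbStmt := H96.cnb alp_ cmq_ co1_ co2 co3

theorem bnm_ : BnmStmt := bnm H9.ch bru_ (H21.nlu H20.nls) cnb_ H20.ibf

theorem bn_ : BnStmt := bnx H27.g1 H11.g2 bnm_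

theorem brk_ : BrkStmt := CY66.brk H55.mac H36.spl H20.nls

theorem inj_ : InjStmt := CY66.inj H55.mac H36.spl H20.nls

theorem cyf_ (hsur : SurStmt) : CyfStmt :=
  CY66.cyf CY.H96.tic (CY66.cyn CY.H96.npr CY.H75.fre H63.exk brk_ inj_ hsur (CY.H5.ebr H20.nls)
    H20.ibc H20.eig H20.nls H20.brm)

/-- the final theorem, relative form, with the two unconditional families -/
theorem fin3_ (hsur : SurStmt) : FinStmt3 :=
  fin3 H27.g1 H11.g2 bnm_ (cyf_ hsur) H47C.cyt Pool.Agent.PP.H96.relQ_ Pool.Agent.PP.H96.lemQ_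
    Pool.Agent.PP.H9.addStmt Pool.Agent.PP.H20.nls Pool.Agent.PP.H20.brm Pool.Agent.PP.H63.smt
    Pool.Agent.PP.H94.nch
    (Pool.Agent.PP.H50.dic Pool.Agent.PP.H20.ibn Pool.Agent.PP.H20.nls Pool.Agent.PP.H20.brm)
    Pool.Agent.PP.H50.bid Pool.Agent.PP.H50.chp Pool.Agent.PP.H50.ldp Pool.Agent.PP.H50.fld

end Pool.Agent.PP.BN.H66
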