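import Pool.Agent.Helper66_AWS.S072

/-! Copy (generated) of the module `Pool.Agent.Helper66_BN.Fam` with import lines for the bundle Helper12_AWB. -/

/-!
# Squad PP: the two unconditional families of nearly simple groups, in terms of characters
-/

open scoped BigOperators

set_option linter.unusedSectionVars false

noncomputable section

namespace Pool.Agent.PP.BN.H66

open Pool.Agent.PP Pool.Agent.Helper51_AWC Pool.Agent.Helper79_WRA

variable {F D : Type} [Field F] [Group D] [Finite D]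

theorem sum_inj' {A B V : Type} [AddCommMonoid V] (j : A → B) (hj : Function.Injective j)
    (f : B → V) (h : ∀ b, b ∉ Set.range j → f b = 0) : ∑ᶠ b, f b = ∑ᶠ a, f (j a) := by
  rw [← finsum_mem_range hj, ← finsum_mem_univ]
  refine finsum_mem_inter_support_eq' f _ _ fun b hb => ?_
  simp only [Set.mem_univ, true_iff]
  by_contra hcon
  exact hb (h b hcon)

/-- a block idempotent lies over a character of the centre -/
theorem blk_over {ℓ : ℕ} (hF : GoodF ℓ F) (hZ : ¬ ℓ ∣ Nat.card (Subgroup.center D)) {e : D → F}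
    (he : IsBlk e) : ∃ ζ : Subgroup.center D →* F, OverZ ζ e := by
  classical
  have hfin := Fintype.ofFinite D
  have hfinZ := Fintype.ofFinite (Subgroup.center D)
  have hchar := hF.char
  have hZ' : ((Nat.card (Subgroup.center D) : ℕ) : F) ≠ 0 := by
    intro h
    exact hZ ((CharP.cast_eq_zero_iff F ℓ _).1 h)
  obtain ⟨k, ρ, hρ, hne⟩ := H90.exists_rep H20.ibn hF he.1 he.2.1
  have : Nonempty (Fin k) := ⟨⟨0, hρ.1⟩⟩
  have h1 : ∀ z : Subgroup.center D, ∃ w : F, ρ z = Matrix.scalar (Fin k) w := fun z =>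
    central_scalar hρ fun g => (Subgroup.mem_center_iff.1 z.2 g).symm
  choose w hw using h1
  have hw1 : w 1 = 1 := by
    apply (Matrix.scalar_inj (n := Fin k)).1
    rw [← hw, map_one, OneMemClass.coe_one, map_one]
  have hwm : ∀ z z', w (z * z') = w z * w z' := by
    intro z z'
    apply (Matrix.scalar_inj (n := Fin k)).1
    rw [← hw, map_mul, ← hw, ← hw, Subgroup.coe_mul, map_mul]
  have hwi : ∀ z, w z⁻¹ * w z = 1 := by
    intro z
    rw [← hwm, inv_mul_cancel, hw1]
  let ζ : Subgroup.center D →* F :=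
    { toFun := fun z => w z⁻¹
      map_one' := by rw [inv_one, hw1]
      map_mul' := fun z z' => by rw [mul_inv_rev, hwm, mul_comm] }
  have hez : IsIdem (ez ζ) := H75.ez_idem hZ'
  have hev : ev ρ (ez ζ) = 1 := by
    unfold ev
    rw [sum_inj' (fun z : Subgroup.center D => (z : D)) Subtype.val_injective]
    · have h2 : ∀ z : Subgroup.center D, ez ζ (z : D) • ρ z =
          ((Nat.card (Subgroup.center D) : F)⁻¹) • (1 : Matrix (Fin k) (Fin k) F) := by
        intro z
        have h3 : ez ζ (z : D) = w z⁻¹ / (Nat.card (Subgroup.center D) : F) := H75.ez_mem z.2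
        rw [h3, hw, Matrix.scalar_apply, ← Matrix.smul_one_eq_diagonal, smul_smul, div_mul_eq_mul_div,
          hwi, one_div]
      rw [finsum_congr h2, finsum_eq_sum_of_fintype, Finset.sum_const, Finset.card_univ,
        ← Nat.card_eq_fintype_card, ← Nat.cast_smul_eq_nsmul F, smul_smul,
        mul_inv_cancel₀ hZ', one_smul]
    · intro x hx
      rw [H75.ez_not_mem fun h => hx ⟨⟨x, h⟩, rfl⟩, zero_smul]
  have hmul : mulF e (ez ζ) = e := by
    rcases he.2.2 (ez ζ) hez with h | h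
    · exact h
    · exfalso
      have h3 : ev ρ (mulF e (ez ζ)) = ev ρ e * ev ρ (ez ζ) := H20.ev_mulF ρ e (ez ζ)
      rw [h, hev, mul_one] at h3
      apply hne
      rw [← h3]
      unfold ev
      simp only [Pi.zero_apply, zero_smul, finsum_zero]
  refine ⟨ζ, fun z x => ?_⟩
  have h4 : ∀ y, e y = ∑ᶠ t, e t * ez ζ (t⁻¹ * y) := fun y => (congrFun hmul y).symm
  rw [h4 (z * x), h4 x, mul_finsum]
  refine finsum_congr fun t => ?_
  have h5 : t⁻¹ * ((z : D) * x) = (z : D) * (t⁻¹ * x) := by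
    rw [← mul_assoc, Subgroup.mem_center_iff.1 z.2, mul_assoc]
  rw [h5, H75.ez_over z]
  ring

/-- the alternating sum vanishes for the nearly simple groups whose simple group is of rank one in
characteristic `ℓ` or has a cyclic TI Sylow `ℓ`-subgroup -/
theorem fam (hsur : SurStmt) : ∀ (ℓ : ℕ), ℓ.Prime →
    ∀ (M : Ideal (integralClosure ℤ ℂ)) [M.IsMaximal], (ℓ : integralClosure ℤ ℂ) ∈ M →
    ∀ (S : Type) [Group S] [Finite S], NonabSimple S → (RankOne ℓ S ∨ CyTI ℓ S) →
    ∀ (D : Type) [Group D] [Finite D], opCore ℓ D = ⊥ → NearlySimpleL ℓ D S →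
    ∀ χ ∈ Irr D, LargeDefect ℓ M χ → altSum ℓ M χ = 0 := by
  intro ℓ hℓ M _ hM S _ _ hS hcase D _ _ hO hD χ hχ hL
  let _ := Ideal.Quotient.field M
  have hfact := Fact.mk hℓ
  have hF : GoodF ℓ (FF M) := H50.fld ℓ hℓ M hM
  obtain ⟨e, he, h1, h2⟩ := H50.bid ℓ hℓ M hM D χ hχ
  have hpos : Pos ℓ e ⊤ := (H50.ldp ℓ hℓ M hM D hO χ hχ e he h1).1 hL
  have hker : (MonoidHom.id D).ker = opCore ℓ D := by
    rw [hO, MonoidHom.ker_id]
  have hkp : IsPGroup ℓ (MonoidHom.id D).ker := by
    rw [MonoidHom.ker_id]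
    exact IsPGroup.of_bot
  have hkc : (MonoidHom.id D).ker ≤ Subgroup.center D := by
    rw [MonoidHom.ker_id]
    exact bot_le
  have h3 := Pool.Agent.PP.H75.altSum_central H20.nls H20.brm H63.smt H94.nch
    (H50.dic H20.ibn H20.nls H20.brm) hℓ M hM hF (p := MonoidHom.id D)
    Function.surjective_id hker hkp hkc χ hχ e he h1 h2
  rw [MonoidHom.ker_id, Subgroup.card_bot, Pool.Agent.PP.H75.push_id, Nat.cast_one, one_pow,
    one_mul] at h3
  have h4 : YY ℓ (⊤ : Subgroup D) e = 0 := by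
    rcases hcase with hR | ⟨P, hP, hcyc⟩
    · obtain ⟨ζ, hζ⟩ := blk_over hF (H27.center_cop hℓ hO) he
      exact bnx_one H27.g1 H11.g2 bnm_ ℓ (FF M) hF S hS hR D hO hD e he.1
        (fun z hz _ => ⟨ζ ⟨z, hz⟩, fun x => hζ ⟨z, hz⟩ x⟩) hpos
    · obtain ⟨U, hU, ⟨φ⟩⟩ := H47C.cyt ℓ D S hO hS hD P hP
      have hcU : IsCyclic U := isCyclic_of_surjective φ.symm.toMonoidHom φ.symm.surjective
      exact cyf_ hsur ℓ (FF M) hF D U hU hcU hO e he.1 hpos
  rw [h4] at h3
  rcases mul_eq_zero.1 h3 with h | h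
  · exact absurd h (by exact_mod_cast (Nat.card_pos (α := D)).ne')
  · exact h

end Pool.Agent.PP.BN.H66
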