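import Pool.Agent.Helper66_AWS.S073
import Pool.Agent.Helper12_AWB.B155

/-! Copy (generated) of the module `Pool.Agent.Helper66_BN.Plug` with import lines for the bundle Helper12_AWB. -/

/-!
# Squad PP, parts BN and CY: the final theorem and the families without hypotheses
-/

noncomputable section

namespace Pool.Agent.PP.BN.H66

open Pool.Agent.PP Pool.Agent.Helper51_AWC

/-- the final theorem, relative form, with the two unconditional families -/
theorem fin3F : FinStmt3 := fin3_ H55.sur

/-- the two unconditional families of nearly simple groups -/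
theorem famF : ∀ (ℓ : ℕ), ℓ.Prime →
    ∀ (M : Ideal (integralClosure ℤ ℂ)) [M.IsMaximal], (ℓ : integralClosure ℤ ℂ) ∈ M →
    ∀ (S : Type) [Group S] [Finite S], NonabSimple S → (RankOne ℓ S ∨ CyTI ℓ S) →
    ∀ (D : Type) [Group D] [Finite D], opCore ℓ D = ⊥ → NearlySimpleL ℓ D S →
    ∀ χ ∈ Irr D, LargeDefect ℓ M χ → altSum ℓ M χ = 0 := fam H55.sur

end Pool.Agent.PP.BN.H66
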