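import Pool.Agent.Helper66_BN.Stmts
import Mathlib.Topology.Compactification.OnePoint.ProjectiveLine
import Mathlib.LinearAlgebra.Matrix.ProjectiveSpecialLinearGroup
import Mathlib.FieldTheory.Finite.Basic

/-! Copy (generated) of the module `Pool.Agent.Helper96_BN.Bps` with import lines for the bundle Helper12_AWB. -/

/-!
# Squad PP, part BN, module BPS: PSL2 has rank one in its own characteristic
-/

set_option linter.unusedSectionVars false

noncomputable section

namespace Pool.Agent.PP.BN.H96

open Pool.Agent.PP Matrix OnePoint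

variable {K : Type} [Field K]

/-- the action of SL2 on the projective line -/
def act (K : Type) [Field K] : SpecialLinearGroup (Fin 2) K →* Equiv.Perm (OnePoint K) := by
  classical
  exact (MulAction.toPermHom (GL (Fin 2) K) (OnePoint K)).comp SpecialLinearGroup.toGL

open Classical in
theorem act_inf (g : SpecialLinearGroup (Fin 2) K) :
    act K g ∞ = if g.1 1 0 = 0 then ∞ else ((g.1 0 0 / g.1 1 0 : K) : OnePoint K) := by
  have := smul_infty_eq_ite (SpecialLinearGroup.toGL g)
  exact this

open Classical in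
theorem act_coe (g : SpecialLinearGroup (Fin 2) K) (k : K) :
    act K g (k : OnePoint K) = if g.1 1 0 * k + g.1 1 1 = 0 then ∞ else
      (((g.1 0 0 * k + g.1 0 1) / (g.1 1 0 * k + g.1 1 1) : K) : OnePoint K) := by
  have := smul_some_eq_ite (g := SpecialLinearGroup.toGL g) (k := k)
  exact this

theorem act_inf_iff (g : SpecialLinearGroup (Fin 2) K) : act K g ∞ = ∞ ↔ g.1 1 0 = 0 := by
  classical
  rw [act_inf]
  split_ifs with h
  · simp [h]
  · simp [h]

theorem det2 (g : SpecialLinearGroup (Fin 2) K) : g.1 0 0 * g.1 1 1 - g.1 0 1 * g.1 1 0 = 1 := by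
  have := g.2
  rwa [det_fin_two] at this

theorem act_zero_iff (g : SpecialLinearGroup (Fin 2) K) :
    act K g ((0 : K) : OnePoint K) = ((0 : K) : OnePoint K) ↔ g.1 0 1 = 0 := by
  classical
  rw [act_coe]
  have hd := det2 g
  simp only [mul_zero, zero_add]
  split_ifs with h
  · constructor
    · intro h'
      exact absurd h' (infty_ne_coe _)
    · intro h'
      rw [h, h'] at hd
      simp at hd
  · rw [coe_eq_coe]
    constructor
    · intro h'
      rcases div_eq_zero_iff.mp h' with h1 | h1
      · exact h1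
      · exact absurd h1 h
    · intro h'
      rw [h', zero_div]

theorem act_one_iff (g : SpecialLinearGroup (Fin 2) K) :
    act K g = 1 ↔ g ∈ Subgroup.center (SpecialLinearGroup (Fin 2) K) := by
  classical
  constructor
  · intro h
    have h1 : g.1 1 0 = 0 := (act_inf_iff g).mp (by rw [h]; rfl)
    have h2 : g.1 0 1 = 0 := (act_zero_iff g).mp (by rw [h]; rfl)
    have h3 : act K g ((1 : K) : OnePoint K) = ((1 : K) : OnePoint K) := by rw [h]; rfl
    have hd := det2 g
    rw [h1, h2] at hd
    rw [act_coe, h1, h2] at h3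
    simp only [mul_one, zero_add, add_zero] at h3
    have h4 : g.1 1 1 ≠ 0 := by
      intro h5
      rw [h5] at hd
      simp at hd
    rw [if_neg h4, coe_eq_coe, div_eq_iff h4, one_mul] at h3
    rw [Matrix.SpecialLinearGroup.mem_center_iff]
    refine ⟨g.1 1 1, ?_, ?_⟩
    · rw [h3] at hd
      simp only [Fintype.card_fin]
      rw [pow_two]
      simpa using hd
    · ext i j
      fin_cases i <;> fin_cases j <;> simp [scalar_apply, h1, h2, h3]
  · intro h
    obtain ⟨r, hr, hs⟩ := Matrix.SpecialLinearGroup.mem_center_iff.mp h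
    have e00 : g.1 0 0 = r := by rw [← hs]; simp [scalar_apply]
    have e11 : g.1 1 1 = r := by rw [← hs]; simp [scalar_apply]
    have e01 : g.1 0 1 = 0 := by rw [← hs]; simp [scalar_apply]
    have e10 : g.1 1 0 = 0 := by rw [← hs]; simp [scalar_apply]
    have hr0 : r ≠ 0 := by
      intro h0
      rw [h0] at hr
      simp at hr
    apply Equiv.ext
    intro x
    cases x with
    | infty => rw [(act_inf_iff g).mpr e10]; rfl
    | coe k =>
      rw [act_coe, e00, e11, e01, e10]
      simp only [zero_mul, zero_add, add_zero]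
      rw [if_neg hr0, mul_div_cancel_left₀ _ hr0]
      rfl

/-- the action of PSL2 on the projective line -/
def actP (K : Type) [Field K] : ProjectiveSpecialLinearGroup (Fin 2) K →* Equiv.Perm (OnePoint K) :=
  QuotientGroup.lift (Subgroup.center (SpecialLinearGroup (Fin 2) K)) (act K)
    (fun g hg => (act_one_iff g).mpr hg)

theorem actP_mk (g : SpecialLinearGroup (Fin 2) K) :
    actP K (QuotientGroup.mk' (Subgroup.center (SpecialLinearGroup (Fin 2) K)) g) = act K g := rfl

theorem mul2 (A B : SpecialLinearGroup (Fin 2) K) (i j : Fin 2) :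
    (A * B).1 i j = A.1 i 0 * B.1 0 j + A.1 i 1 * B.1 1 j := by
  show (A.1 * B.1) i j = _
  rw [Matrix.mul_apply, Fin.sum_univ_two]

/-- upper unipotent matrices -/
def uni (K : Type) [Field K] : Multiplicative K →* SpecialLinearGroup (Fin 2) K where
  toFun a := ⟨!![1, Multiplicative.toAdd a; 0, 1], by simp [det_fin_two]⟩
  map_one' := by
    ext i j
    fin_cases i <;> fin_cases j <;> simp
  map_mul' a b := by
    ext i j
    refine Eq.trans ?_ (mul2 _ _ i j).symm
    fin_cases i <;> fin_cases j <;> simp [add_comm]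

/-- diagonal matrices -/
def tor (K : Type) [Field K] : Kˣ →* SpecialLinearGroup (Fin 2) K where
  toFun a := ⟨!![(a : K), 0; 0, ((a⁻¹ : Kˣ) : K)], by simp [det_fin_two]⟩
  map_one' := by
    ext i j
    fin_cases i <;> fin_cases j <;> simp
  map_mul' a b := by
    ext i j
    refine Eq.trans ?_ (mul2 _ _ i j).symm
    fin_cases i <;> fin_cases j <;> simp [mul_comm]

/-- the Weyl element -/
def wey (K : Type) [Field K] : SpecialLinearGroup (Fin 2) K :=
  ⟨!![0, 1; -1, 0], by simp [det_fin_two]⟩

theorem uni00 (a : Multiplicative K) : (uni K a).1 0 0 = 1 := rfl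
theorem uni01 (a : Multiplicative K) : (uni K a).1 0 1 = Multiplicative.toAdd a := rfl
theorem uni10 (a : Multiplicative K) : (uni K a).1 1 0 = 0 := rfl
theorem uni11 (a : Multiplicative K) : (uni K a).1 1 1 = 1 := rfl
theorem tor00 (a : Kˣ) : (tor K a).1 0 0 = a := rfl
theorem tor01 (a : Kˣ) : (tor K a).1 0 1 = 0 := rfl
theorem tor10 (a : Kˣ) : (tor K a).1 1 0 = 0 := rfl
theorem tor11 (a : Kˣ) : (tor K a).1 1 1 = ((a⁻¹ : Kˣ) : K) := rfl

theorem act_uni (a : K) (k : K) :
    act K (uni K (Multiplicative.ofAdd a)) (k : OnePoint K) = ((k + a : K) : OnePoint K) := by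
  classical
  rw [act_coe, uni00, uni01, uni10, uni11]
  simp

theorem act_uni_inf (a : Multiplicative K) : act K (uni K a) ∞ = ∞ := by
  rw [act_inf_iff, uni10]

/-- **BPS.** `PSL₂(K)` has rank one in the characteristic of `K`. -/
theorem psl (ℓ : ℕ) [Fact ℓ.Prime] (K : Type) [Field K] [Finite K] [CharP K ℓ] :
    RankOne ℓ (ProjectiveSpecialLinearGroup (Fin 2) K) := by
  classical
  let pr := QuotientGroup.mk' (Subgroup.center (SpecialLinearGroup (Fin 2) K))
  let _ : MulAction (ProjectiveSpecialLinearGroup (Fin 2) K) (OnePoint K) :=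
    MulAction.compHom (OnePoint K) (actP K)
  have hsm : ∀ (s : SpecialLinearGroup (Fin 2) K) (x : OnePoint K), pr s • x = act K s x :=
    fun s x => rfl
  have hsur : ∀ s : ProjectiveSpecialLinearGroup (Fin 2) K, ∃ g, pr g = s :=
    fun s => QuotientGroup.mk'_surjective _ s
  have : Finite (OnePoint K) := inferInstanceAs (Finite (Option K))
  have hker : ∀ g, pr g = 1 ↔ act K g = 1 := by
    intro g
    rw [act_one_iff]
    exact QuotientGroup.eq_one_iff g
  refine ⟨OnePoint K, inferInstance, inferInstance, ∞, ((0 : K) : OnePoint K),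
    (pr.comp (uni K)).range, ?_, ?_, ?_, ?_, ?_, ?_, ?_, ?_, ?_⟩
  · intro s hs
    obtain ⟨g, rfl⟩ := hsur s
    rw [hker]
    exact Equiv.ext hs
  · exact infty_ne_coe _
  · refine ⟨pr (wey K), ?_, ?_⟩
    · rw [hsm, act_inf]
      simp [wey]
    · rw [hsm, act_coe]
      simp [wey]
  · intro x
    obtain ⟨x, a, rfl⟩ := x
    refine ⟨1, ?_⟩
    apply Subtype.ext
    show ((pr.comp (uni K)) a) ^ (ℓ ^ 1) = 1
    rw [pow_one, ← map_pow]
    have : a ^ ℓ = 1 := by
      apply Multiplicative.toAdd.injective
      rw [toAdd_pow, toAdd_one, nsmul_eq_mul, CharP.cast_eq_zero, zero_mul]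
    rw [this, map_one]
  · rintro u ⟨a, rfl⟩
    exact act_uni_inf a
  · rintro u ⟨a, rfl⟩ h
    have h1 : act K (uni K a) ((0 : K) : OnePoint K) = ((0 : K) : OnePoint K) := h
    rw [act_zero_iff] at h1
    have h2 : a = 1 := by
      rw [uni01] at h1
      exact h1
    rw [h2, map_one]
  · intro x hx
    cases x with
    | infty => exact absurd rfl hx
    | coe k =>
      refine ⟨pr (uni K (Multiplicative.ofAdd k)), ⟨_, rfl⟩, ?_⟩
      rw [hsm, act_uni, zero_add]
  · intro s hs u hu
    obtain ⟨g, rfl⟩ := hsur s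
    obtain ⟨a, rfl⟩ := hu
    rw [hsm, act_inf_iff] at hs
    refine ⟨Multiplicative.ofAdd (g.1 0 0 * g.1 0 0 * Multiplicative.toAdd a), ?_⟩
    have hd := det2 g
    rw [hs] at hd
    have : uni K (Multiplicative.ofAdd (g.1 0 0 * g.1 0 0 * Multiplicative.toAdd a)) * g =
        g * uni K a := by
      ext i j
      show (_ * _ : SpecialLinearGroup (Fin 2) K).1 i j =
        (_ * _ : SpecialLinearGroup (Fin 2) K).1 i j
      rw [mul2, mul2]
      have e1 : ∀ j : Fin 2, j = 0 ∨ j = 1 := by decide
      rcases e1 i with rfl | rfl <;> rcases e1 j with rfl | rfl <;>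
        simp only [uni00, uni01, uni10, uni11, hs, toAdd_ofAdd]
      · ring
      · linear_combination (g.1 0 0 * Multiplicative.toAdd a) * hd
      · ring
      · ring
    rw [MonoidHom.comp_apply, MonoidHom.comp_apply, eq_mul_inv_iff_mul_eq, ← map_mul, ← map_mul, this]
  · have hst : (MulAction.stabilizer (ProjectiveSpecialLinearGroup (Fin 2) K) (∞ : OnePoint K) ⊓
        MulAction.stabilizer (ProjectiveSpecialLinearGroup (Fin 2) K) ((0 : K) : OnePoint K) :
        Subgroup _) = (pr.comp (tor K)).range := by
      ext s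
      constructor
      · rintro ⟨h1, h2⟩
        obtain ⟨g, rfl⟩ := hsur s
        have h1' : act K g ∞ = ∞ := h1
        have h2' : act K g ((0 : K) : OnePoint K) = ((0 : K) : OnePoint K) := h2
        rw [act_inf_iff] at h1'
        rw [act_zero_iff] at h2'
        have hd := det2 g
        rw [h1', h2'] at hd
        have h0 : g.1 0 0 ≠ 0 := by
          intro h
          rw [h] at hd
          simp at hd
        refine ⟨Units.mk0 _ h0, ?_⟩
        have : tor K (Units.mk0 _ h0) = g := by
          ext i j
          show (tor K _).1 i j = g.1 i j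
          have e1 : ∀ j : Fin 2, j = 0 ∨ j = 1 := by decide
          rcases e1 i with rfl | rfl <;> rcases e1 j with rfl | rfl
          · rw [tor00, Units.val_mk0]
          · rw [tor01, h2']
          · rw [tor10, h1']
          · rw [tor11, Units.val_inv_eq_inv_val, Units.val_mk0]
            exact inv_eq_of_mul_eq_one_right (by linear_combination hd)
        rw [MonoidHom.comp_apply, this]
      · rintro ⟨a, rfl⟩
        refine ⟨?_, ?_⟩
        · show act K (tor K a) ∞ = ∞
          rw [act_inf_iff, tor10]
        · show act K (tor K a) ((0 : K) : OnePoint K) = ((0 : K) : OnePoint K)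
          rw [act_zero_iff, tor01]
    rw [hst]
    have hs : Function.Surjective (pr.comp (tor K)).rangeRestrict :=
      MonoidHom.rangeRestrict_surjective _
    refine ⟨isCyclic_of_surjective _ hs, ?_⟩
    intro hdv
    have h1 : Nat.card (pr.comp (tor K)).range ∣ Nat.card Kˣ :=
      Subgroup.card_dvd_of_surjective _ hs
    have h2 := hdv.trans h1
    have := Fintype.ofFinite K
    rw [Nat.card_units, Nat.card_eq_fintype_card] at h2
    obtain ⟨n, hp, hc⟩ := FiniteField.card K ℓ
    have h3 : ℓ ∣ Fintype.card K := by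
      rw [hc]
      exact dvd_pow_self _ n.ne_zero
    have h4 : 1 ≤ Fintype.card K := Fintype.card_pos
    have h5 : ℓ ∣ 1 := by
      have := (Nat.dvd_sub h3 h2)
      rwa [Nat.sub_sub_self h4] at this
    exact hp.one_lt.ne' (Nat.dvd_one.mp h5)

end Pool.Agent.PP.BN.H96
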