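import Pool.Agent.Helper36_PP.StmtsCY
import Pool.Agent.Helper66_AWS.S068

/-! Copy (generated) of the module `Pool.Agent.Helper36_PP.Psc` with import lines for the bundle Helper12_AWB. -/

/-!
PSC: the groups `PSL_2(K)` and primes `ℓ ≠ 2` different from the characteristic of `K`.
-/

open scoped BigOperators

set_option linter.unusedSectionVars false

noncomputable section

namespace Pool.Agent.PP.H36

open Pool.Agent.PP

/-- if the centralisers of the nontrivial `ℓ`-elements are cyclic, the Sylow `ℓ`-subgroups are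
cyclic and trivial intersection sets -/
theorem cyti_of_cent (ℓ : ℕ) [Fact ℓ.Prime] (G : Type) [Group G] [Finite G] (hd : ℓ ∣ Nat.card G)
    (hc : ∀ (x : G) (k : ℕ), x ≠ 1 → x ^ ℓ ^ k = 1 → IsCyclic (Subgroup.centralizer ({x} : Set G))) :
    CyTI ℓ G := by
  classical
  obtain ⟨P⟩ : Nonempty (Sylow ℓ G) := inferInstance
  have hne : (P : Subgroup G) ≠ ⊥ := P.ne_bot_of_dvd_card hd
  -- the elements of `P`
  have hpow : ∀ x ∈ (P : Subgroup G), ∃ k : ℕ, x ^ ℓ ^ k = 1 := by
    intro x hx
    obtain ⟨k, hk⟩ := P.isPGroup' ⟨x, hx⟩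
    exact ⟨k, congrArg Subtype.val hk⟩
  -- a central element
  have hnt : Nontrivial P := (Subgroup.nontrivial_iff_ne_bot _).mpr hne
  have hz := P.isPGroup'.center_nontrivial
  obtain ⟨z, hz1⟩ := exists_ne (1 : Subgroup.center P)
  have hz1' : ((z : P) : G) ≠ 1 := by
    intro h
    apply hz1
    apply Subtype.ext
    apply Subtype.ext
    exact h
  obtain ⟨k, hk⟩ := hpow ((z : P) : G) (z : P).2
  have hcz := hc _ k hz1' hk
  have hle : ∀ x ∈ (P : Subgroup G), x ∈ Subgroup.centralizer ({((z : P) : G)} : Set G) := by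
    intro x hx
    rw [Subgroup.mem_centralizer_singleton_iff]
    have := Subgroup.mem_center_iff.mp z.2 ⟨x, hx⟩
    exact congrArg Subtype.val this
  have hcyc : IsCyclic P := by
    refine isCyclic_of_injective (Subgroup.inclusion (fun x hx => hle x hx) : P →*
      Subgroup.centralizer ({((z : P) : G)} : Set G)) (Subgroup.inclusion_injective _)
  have hcomm : ∀ x ∈ (P : Subgroup G), ∀ w ∈ (P : Subgroup G), x * w = w * x := by
    intro x hx w hw
    have h2 : (⟨x, hx⟩ * ⟨w, hw⟩ : P) = ⟨w, hw⟩ * ⟨x, hx⟩ := by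
      obtain ⟨y, hy⟩ := hcyc.exists_generator
      obtain ⟨i, hi⟩ := Subgroup.mem_zpowers_iff.mp (hy ⟨x, hx⟩)
      obtain ⟨j, hj⟩ := Subgroup.mem_zpowers_iff.mp (hy ⟨w, hw⟩)
      rw [← hi, ← hj, ← zpow_add, ← zpow_add, add_comm]
    exact congrArg Subtype.val h2
  refine ⟨P, ⟨P.isPGroup', P.not_dvd_index, hne, ?_⟩, hcyc⟩
  intro g hg x hx hgx
  by_contra hx1
  apply hg
  set w := g * x * g⁻¹ with hw
  have hw1 : w ≠ 1 := by
    intro h
    apply hx1
    have : x = g⁻¹ * w * g := by rw [hw]; group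
    rw [this, h]
    group
  obtain ⟨k', hk'⟩ := hpow w hgx
  have hcw := hc w k' hw1 hk'
  -- the elements of `P` and of its conjugate commute
  have hcm : ∀ u ∈ (P : Subgroup G), ∀ v ∈ (P : Subgroup G),
      (g * u * g⁻¹) * v = v * (g * u * g⁻¹) := by
    intro u hu v hv
    have h1 : g * u * g⁻¹ ∈ Subgroup.centralizer ({w} : Set G) := by
      rw [Subgroup.mem_centralizer_singleton_iff, hw]
      have := hcomm u hu x hx
      calc g * u * g⁻¹ * (g * x * g⁻¹) = g * (u * x) * g⁻¹ := by group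
        _ = g * (x * u) * g⁻¹ := by rw [this]
        _ = g * x * g⁻¹ * (g * u * g⁻¹) := by group
    have h2 : v ∈ Subgroup.centralizer ({w} : Set G) := by
      rw [Subgroup.mem_centralizer_singleton_iff]
      exact hcomm v hv w hgx
    obtain ⟨y, hy⟩ := hcw.exists_generator
    obtain ⟨i, hi⟩ := Subgroup.mem_zpowers_iff.mp (hy ⟨_, h1⟩)
    obtain ⟨j, hj⟩ := Subgroup.mem_zpowers_iff.mp (hy ⟨_, h2⟩)
    have h3 : (⟨_, h1⟩ * ⟨_, h2⟩ : Subgroup.centralizer ({w} : Set G)) = ⟨_, h2⟩ * ⟨_, h1⟩ := by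
      rw [← hi, ← hj, ← zpow_add, ← zpow_add, add_comm]
    exact congrArg Subtype.val h3
  apply Subgroup.mem_normalizer_fintype
  intro u hu
  -- `g u g⁻¹` normalises `P`
  set t := g * u * g⁻¹ with ht
  have htN : t ∈ Subgroup.normalizer ((P : Subgroup G) : Set G) := by
    rw [Subgroup.mem_normalizer_iff]
    intro v
    constructor
    · intro hv
      rw [hcm u hu v hv, mul_inv_cancel_right]
      exact hv
    · intro hv
      have h1 := hcm u hu _ hv
      have h2 : v = t * v * t⁻¹ := by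
        have : t * (t * v * t⁻¹) = t * v := by
          rw [h1, inv_mul_cancel_right]
        exact (mul_left_cancel this).symm
      rw [h2]
      exact hv
  -- the subgroup generated by `P` and `t` is an `ℓ`-group
  obtain ⟨n, hn⟩ := hpow u hu
  have htp : IsPGroup ℓ (Subgroup.zpowers t) := by
    rw [IsPGroup.iff_card]
    have h1 : t ^ ℓ ^ n = 1 := by
      rw [ht, conj_pow, hn]
      group
    obtain ⟨j, _, hj⟩ := (Nat.dvd_prime_pow Fact.out).mp (orderOf_dvd_of_pow_eq_one h1)
    exact ⟨j, by rw [Nat.card_zpowers, hj]⟩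
  have hsup : IsPGroup ℓ ((P : Subgroup G) ⊔ Subgroup.zpowers t : Subgroup G) :=
    P.isPGroup'.to_sup_of_normal_left' htp (by
      rw [Subgroup.zpowers_le]
      exact htN)
  have heq : (P : Subgroup G) ⊔ Subgroup.zpowers t = P := P.is_maximal' hsup le_sup_left
  have : t ∈ (P : Subgroup G) ⊔ Subgroup.zpowers t :=
    (le_sup_right : Subgroup.zpowers t ≤ _) (Subgroup.mem_zpowers t)
  rw [heq] at this
  exact this

/-- cyclic centralisers of `ℓ`-elements modulo a centre of exponent two -/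
theorem cent_quot (ℓ : ℕ) [Fact ℓ.Prime] (h2 : ℓ ≠ 2) (G : Type) [Group G] [Finite G]
    (hZ : ∀ z ∈ Subgroup.center G, z ^ 2 = 1)
    (hc : ∀ (x : G) (k : ℕ), x ≠ 1 → x ^ ℓ ^ k = 1 → IsCyclic (Subgroup.centralizer ({x} : Set G)))
    (x : G ⧸ Subgroup.center G) (k : ℕ) (hx : x ≠ 1) (hk : x ^ ℓ ^ k = 1) :
    IsCyclic (Subgroup.centralizer ({x} : Set (G ⧸ Subgroup.center G))) := by
  have hodd : Odd (ℓ ^ k) := ((Fact.out : ℓ.Prime).odd_of_ne_two h2).pow
  have hz1 : ∀ z ∈ Subgroup.center G, z ^ ℓ ^ k = z := by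
    intro z hz
    obtain ⟨m, hm⟩ := hodd
    rw [hm, pow_succ, pow_mul, hZ z hz, one_pow, one_mul]
  obtain ⟨y, rfl⟩ := QuotientGroup.mk_surjective x
  have hyz : y ^ ℓ ^ k ∈ Subgroup.center G := by
    rw [← QuotientGroup.eq_one_iff, QuotientGroup.mk_pow]
    exact hk
  -- the lift
  set w := y ^ (ℓ ^ k + 1) with hw
  have hwy : (w : G ⧸ Subgroup.center G) = y := by
    rw [hw, QuotientGroup.mk_pow, pow_succ, hk, one_mul]
  have hwk : w ^ ℓ ^ k = 1 := by
    obtain ⟨m, hm⟩ := hodd
    have h3 : (y ^ ℓ ^ k) ^ (ℓ ^ k + 1) = 1 := by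
      have : ℓ ^ k + 1 = 2 * (m + 1) := by omega
      rw [this, pow_mul, hZ _ hyz, one_pow]
    rw [hw, ← pow_mul, mul_comm, pow_mul]
    exact h3
  have hw1 : w ≠ 1 := by
    intro h
    apply hx
    rw [← hwy, h]
    rfl
  have hcw := hc w k hw1 hwk
  have hcen : ∀ g : G, (g : G ⧸ Subgroup.center G) * y = y * g → g * w = w * g := by
    intro g hg
    rw [← hwy, ← QuotientGroup.mk_mul, ← QuotientGroup.mk_mul, QuotientGroup.eq] at hg
    set z := (g * w)⁻¹ * (w * g) with hz
    have h3 : w * g = g * w * z := by rw [hz]; group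
    have h4 : g⁻¹ * w * g = w * z := by
      rw [mul_assoc, h3]; group
    have h5 : (g⁻¹ * w * g) ^ ℓ ^ k = 1 := by
      have := conj_pow (a := g⁻¹) (b := w) (i := ℓ ^ k)
      rw [inv_inv] at this
      rw [this, hwk]
      group
    have h6 : Commute w z := (Subgroup.mem_center_iff.mp hg w)
    rw [h4, h6.mul_pow, hwk, one_mul, hz1 z hg] at h5
    rw [h3, h5, mul_one]
  -- the map of the centralisers
  let f : Subgroup.centralizer ({w} : Set G) →*
      Subgroup.centralizer ({(y : G ⧸ Subgroup.center G)} : Set (G ⧸ Subgroup.center G)) :=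
    { toFun := fun g => ⟨((g : G) : G ⧸ Subgroup.center G), by
        rw [Subgroup.mem_centralizer_singleton_iff]
        have := Subgroup.mem_centralizer_singleton_iff.mp g.2
        rw [← hwy, ← QuotientGroup.mk_mul, ← QuotientGroup.mk_mul, this]⟩
      map_one' := rfl
      map_mul' := fun _ _ => rfl }
  apply isCyclic_of_surjective f
  intro c
  obtain ⟨g, hg⟩ := QuotientGroup.mk_surjective (c : G ⧸ Subgroup.center G)
  refine ⟨⟨g, ?_⟩, Subtype.ext hg⟩
  rw [Subgroup.mem_centralizer_singleton_iff]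
  apply hcen
  have := Subgroup.mem_centralizer_singleton_iff.mp c.2
  rw [hg]
  exact this

theorem line2 {E : Type} [Field E] (v w : Fin 2 → E) (hv : v ≠ 0) (h : v 0 * w 1 = v 1 * w 0) :
    ∃ c : E, w = c • v := by
  by_cases h0 : v 0 = 0
  · have h1 : v 1 ≠ 0 := by
      intro h1
      apply hv
      funext i
      fin_cases i
      · exact h0
      · exact h1
    refine ⟨w 1 / v 1, ?_⟩
    have h3 : w 0 = 0 := by
      rw [h0, zero_mul] at h
      exact (mul_eq_zero.mp h.symm).resolve_left h1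
    funext i
    fin_cases i
    · show w 0 = w 1 / v 1 * v 0
      rw [h0, h3, mul_zero]
    · show w 1 = w 1 / v 1 * v 1
      field_simp
  · refine ⟨w 0 / v 0, ?_⟩
    funext i
    fin_cases i
    · show w 0 = w 0 / v 0 * v 0
      field_simp
    · show w 1 = w 0 / v 0 * v 1
      field_simp
      linear_combination h

theorem cent_sl2 (ℓ : ℕ) [Fact ℓ.Prime] (h2 : ℓ ≠ 2) (K : Type) [Field K] [Finite K]
    (hK : (ℓ : K) ≠ 0) (x : Matrix.SpecialLinearGroup (Fin 2) K) (k : ℕ) (hx : x ≠ 1)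
    (hk : x ^ ℓ ^ k = 1) :
    IsCyclic (Subgroup.centralizer ({x} : Set (Matrix.SpecialLinearGroup (Fin 2) K))) := by
  classical
  let ι : K →+* AlgebraicClosure K := algebraMap K (AlgebraicClosure K)
  have hι : Function.Injective ι := ι.injective
  -- the action
  let m : Matrix.SpecialLinearGroup (Fin 2) K → Matrix (Fin 2) (Fin 2) (AlgebraicClosure K) :=
    fun g => (g : Matrix (Fin 2) (Fin 2) K).map ι
  have hmul : ∀ g h, m (g * h) = m g * m h := by
    intro g h
    have h3 : ((g * h : Matrix.SpecialLinearGroup (Fin 2) K) : Matrix (Fin 2) (Fin 2) K) =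
      (g : Matrix (Fin 2) (Fin 2) K) * (h : Matrix (Fin 2) (Fin 2) K) :=
      Matrix.SpecialLinearGroup.coe_mul g h
    show ((g * h : Matrix.SpecialLinearGroup (Fin 2) K) : Matrix (Fin 2) (Fin 2) K).map ι = _
    rw [h3, Matrix.map_mul]
  have hone : m 1 = 1 := by
    show ((1 : Matrix.SpecialLinearGroup (Fin 2) K) : Matrix (Fin 2) (Fin 2) K).map ι = _
    rw [Matrix.SpecialLinearGroup.coe_one, Matrix.map_one _ (map_zero ι) (map_one ι)]
  have hinj : ∀ g, m g = 1 → g = 1 := by
    intro g hg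
    apply Matrix.SpecialLinearGroup.ext
    intro i j
    apply hι
    have h3 := congrFun (congrFun hg i) j
    rw [← hone] at h3
    exact h3
  have hdet : ∀ g, m g 0 0 * m g 1 1 - m g 0 1 * m g 1 0 = 1 := by
    intro g
    have h3 : (g : Matrix (Fin 2) (Fin 2) K).det = 1 := g.det_coe
    rw [Matrix.det_fin_two] at h3
    have h4 := congrArg ι h3
    rw [map_sub, map_mul, map_mul, map_one] at h4
    exact h4
  have hcoord : ∀ (A : Matrix (Fin 2) (Fin 2) (AlgebraicClosure K)) (w : Fin 2 → AlgebraicClosure K)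
      (c : AlgebraicClosure K), A.mulVec w = c • w →
      A 0 0 * w 0 + A 0 1 * w 1 = c * w 0 ∧ A 1 0 * w 0 + A 1 1 * w 1 = c * w 1 := by
    intro A w c h
    have h0 := congrFun h 0
    have h1 := congrFun h 1
    simp only [Matrix.mulVec, dotProduct, Fin.sum_univ_two, Pi.smul_apply, smul_eq_mul] at h0 h1
    exact ⟨h0, h1⟩
  -- the eigenvalues
  obtain ⟨a, ha⟩ := Module.End.exists_eigenvalue (Matrix.toLin' (m x))
  obtain ⟨v, hv⟩ := ha.exists_hasEigenvector
  have hv0 : v ≠ 0 := hv.2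
  have hva : (m x).mulVec v = a • v := by
    have := hv.apply_eq_smul
    rwa [Matrix.toLin'_apply] at this
  obtain ⟨e1, e2⟩ := hcoord _ _ _ hva
  have hD := hdet x
  have hchar : a * (m x 0 0 + m x 1 1 - a) = 1 := by
    by_cases h0 : v 0 = 0
    · have h1 : v 1 ≠ 0 := by
        intro h1
        apply hv0
        funext i
        fin_cases i
        · exact h0
        · exact h1
      apply mul_right_cancel₀ h1
      linear_combination (m x 1 0) * e1 - (m x 0 0 - a) * e2 + hD * v 1
    · apply mul_right_cancel₀ h0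
      linear_combination (-(m x 1 1 - a)) * e1 + (m x 0 1) * e2 + hD * v 0
  set b := m x 0 0 + m x 1 1 - a with hb
  have hab1 : a * a ≠ 1 := by
    intro haa
    -- `a = 1`
    have hpow : ∀ j : ℕ, (m (x ^ j)).mulVec v = (a ^ j) • v := by
      intro j
      induction j with
      | zero => rw [pow_zero, pow_zero, hone, Matrix.one_mulVec, one_smul]
      | succ j ih =>
        rw [pow_succ', pow_succ', hmul, ← Matrix.mulVec_mulVec, ih, Matrix.mulVec_smul, hva,
          smul_smul, mul_comm]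
    have ham : a ^ ℓ ^ k = 1 := by
      have h3 := hpow (ℓ ^ k)
      rw [hk, hone, Matrix.one_mulVec] at h3
      have h4 : ((1 : AlgebraicClosure K) - a ^ ℓ ^ k) • v = 0 := by
        rw [sub_smul, one_smul, ← h3, sub_self]
      rcases smul_eq_zero.mp h4 with h5 | h5
      · exact (sub_eq_zero.mp h5).symm
      · exact absurd h5 hv0
    have ha1 : a = 1 := by
      obtain ⟨j, hj⟩ : Odd (ℓ ^ k) := ((Fact.out : ℓ.Prime).odd_of_ne_two h2).pow
      rw [hj, pow_succ, pow_mul, sq, haa, one_pow, one_mul] at ham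
      exact ham
    have htr : (x : Matrix (Fin 2) (Fin 2) K) 0 0 + (x : Matrix (Fin 2) (Fin 2) K) 1 1 = 2 := by
      apply hι
      rw [map_add, map_ofNat]
      have h3 : m x 0 0 + m x 1 1 = 2 := by
        rw [ha1] at hchar
        linear_combination hchar + ha1
      exact h3
    have hdx : (x : Matrix (Fin 2) (Fin 2) K) 0 0 * (x : Matrix (Fin 2) (Fin 2) K) 1 1 -
        (x : Matrix (Fin 2) (Fin 2) K) 0 1 * (x : Matrix (Fin 2) (Fin 2) K) 1 0 = 1 := by
      have h3 : (x : Matrix (Fin 2) (Fin 2) K).det = 1 := x.det_coe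
      rwa [Matrix.det_fin_two] at h3
    have hN : ((x : Matrix (Fin 2) (Fin 2) K) - 1) * ((x : Matrix (Fin 2) (Fin 2) K) - 1) = 0 := by
      ext i j
      fin_cases i <;> fin_cases j <;>
        simp [Matrix.mul_apply, Fin.sum_univ_two, Matrix.sub_apply, Matrix.one_apply]
      · linear_combination (x.1 0 0) * htr - hdx
      · linear_combination (x.1 0 1) * htr
      · linear_combination (x.1 1 0) * htr
      · linear_combination (x.1 1 1) * htr - hdx
    have hpw : ∀ j : ℕ, ((x : Matrix (Fin 2) (Fin 2) K)) ^ j =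
        1 + (j : K) • ((x : Matrix (Fin 2) (Fin 2) K) - 1) := by
      intro j
      induction j with
      | zero => rw [pow_zero, Nat.cast_zero, zero_smul, add_zero]
      | succ j ih =>
        have h3 : (x : Matrix (Fin 2) (Fin 2) K) = 1 + ((x : Matrix (Fin 2) (Fin 2) K) - 1) := by
          abel
        rw [pow_succ, ih]
        conv_lhs => rw [h3]
        rw [add_sub_cancel_left, mul_add, add_mul, add_mul, mul_one, mul_one, one_mul, smul_mul_assoc,
          hN, smul_zero, add_zero, Nat.cast_succ, add_smul, one_smul]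
        abel
    have h3 := hpw (ℓ ^ k)
    rw [← Matrix.SpecialLinearGroup.coe_pow, hk, Matrix.SpecialLinearGroup.coe_one] at h3
    have h4 : ((ℓ ^ k : ℕ) : K) • ((x : Matrix (Fin 2) (Fin 2) K) - 1) = 0 := by
      have := congrArg (fun A => A - 1) h3
      simp only [sub_self, add_sub_cancel_left] at this
      exact this.symm
    rcases smul_eq_zero.mp h4 with h5 | h5
    · rw [Nat.cast_pow] at h5
      exact hK (eq_zero_of_pow_eq_zero h5)
    · apply hx
      apply Matrix.SpecialLinearGroup.ext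
      intro i j
      have := congrFun (congrFun h5 i) j
      rw [Matrix.sub_apply, Matrix.zero_apply, sub_eq_zero] at this
      rw [this, Matrix.SpecialLinearGroup.coe_one]
  -- the second eigenvector
  obtain ⟨v', hv'0, hv'⟩ : ∃ v' : Fin 2 → AlgebraicClosure K, v' ≠ 0 ∧ (m x).mulVec v' = b • v' := by
    obtain ⟨v', h3, h4⟩ := Matrix.exists_mulVec_eq_zero_iff (M := m x - b • 1) |>.mpr (by
      rw [Matrix.det_fin_two]
      simp only [Matrix.sub_apply, Matrix.smul_apply, Matrix.one_apply, smul_eq_mul]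
      simp
      linear_combination hD - hchar)
    refine ⟨v', h3, ?_⟩
    rw [Matrix.sub_mulVec, Matrix.smul_mulVec, Matrix.one_mulVec, sub_eq_zero] at h4
    exact h4
  have hb1 : b * b ≠ 1 := by
    intro h
    apply hab1
    have : a * a * (b * b) = 1 := by
      calc a * a * (b * b) = (a * b) * (a * b) := by ring
        _ = 1 := by rw [hchar, one_mul]
    rwa [h, mul_one] at this
  -- commuting matrices preserve the lines
  have hline : ∀ (c : AlgebraicClosure K) (u : Fin 2 → AlgebraicClosure K), c * c ≠ 1 → u ≠ 0 →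
      (m x).mulVec u = c • u → ∀ g : Matrix.SpecialLinearGroup (Fin 2) K, g * x = x * g →
      ∃ t : AlgebraicClosure K, (m g).mulVec u = t • u := by
    intro c u hc hu hxu g hg
    apply line2 u _ hu
    have h3 : (m x).mulVec ((m g).mulVec u) = c • (m g).mulVec u := by
      rw [Matrix.mulVec_mulVec, ← hmul, ← hg, hmul, ← Matrix.mulVec_mulVec, hxu,
        Matrix.mulVec_smul]
    obtain ⟨f1, f2⟩ := hcoord _ _ _ hxu
    obtain ⟨f3, f4⟩ := hcoord _ _ _ h3
    set w := (m g).mulVec u
    have h4 : (c * c - 1) * (u 0 * w 1 - u 1 * w 0) = 0 := by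
      linear_combination (u 0 * w 1 - u 1 * w 0) * hD - (c * w 1) * f1 + (c * w 0) * f2 -
        (m x 0 0 * u 0 + m x 0 1 * u 1) * f4 + (m x 1 0 * u 0 + m x 1 1 * u 1) * f3
    rcases mul_eq_zero.mp h4 with h5 | h5
    · exact absurd (sub_eq_zero.mp h5) hc
    · exact sub_eq_zero.mp h5
  have huniq : ∀ t t' : AlgebraicClosure K, t • v = t' • v → t = t' := by
    intro t t' h
    have h3 : (t - t') • v = 0 := by rw [sub_smul, h, sub_self]
    rcases smul_eq_zero.mp h3 with h5 | h5
    · exact sub_eq_zero.mp h5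
    · exact absurd h5 hv0
  have hcom : ∀ g : Subgroup.centralizer ({x} : Set (Matrix.SpecialLinearGroup (Fin 2) K)),
      (g : Matrix.SpecialLinearGroup (Fin 2) K) * x = x * g := fun g =>
    Subgroup.mem_centralizer_singleton_iff.mp g.2
  let lam : Subgroup.centralizer ({x} : Set (Matrix.SpecialLinearGroup (Fin 2) K)) → AlgebraicClosure K :=
    fun g => (hline a v hab1 hv0 hva g (hcom g)).choose
  have hlam : ∀ g, (m g.1).mulVec v = lam g • v := fun g =>
    (hline a v hab1 hv0 hva g (hcom g)).choose_spec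
  let f : Subgroup.centralizer ({x} : Set (Matrix.SpecialLinearGroup (Fin 2) K)) →* AlgebraicClosure K :=
    { toFun := lam
      map_one' := by
        apply huniq
        rw [← hlam, one_smul]
        show (m 1).mulVec v = v
        rw [hone, Matrix.one_mulVec]
      map_mul' := by
        intro g h
        apply huniq
        rw [← hlam]
        show (m (g.1 * h.1)).mulVec v = _
        rw [hmul, ← Matrix.mulVec_mulVec, hlam, Matrix.mulVec_smul, hlam, smul_smul, mul_comm] }
  have hdvv : v 0 * v' 1 - v 1 * v' 0 ≠ 0 := by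
    intro h
    obtain ⟨c, hc⟩ := line2 v v' hv0 (sub_eq_zero.mp h)
    have h3 : (m x).mulVec v' = a • v' := by
      rw [hc, Matrix.mulVec_smul, hva, smul_smul, smul_smul, mul_comm]
    rw [hv'] at h3
    have h4 : (b - a) • v' = 0 := by rw [sub_smul, h3, sub_self]
    rcases smul_eq_zero.mp h4 with h5 | h5
    · rw [sub_eq_zero] at h5
      rw [h5] at hchar
      exact hab1 hchar
    · exact hv'0 h5
  apply isCyclic_of_subgroup_isDomain f
  rw [injective_iff_map_eq_one]
  intro g hg
  have h3 : (m g.1).mulVec v = (1 : AlgebraicClosure K) • v := by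
    rw [hlam]
    exact congrArg (fun t => t • v) hg
  obtain ⟨t, ht⟩ := hline b v' hb1 hv'0 hv' g.1 (hcom g)
  obtain ⟨f1, f2⟩ := hcoord _ _ _ h3
  obtain ⟨f3, f4⟩ := hcoord _ _ _ ht
  have hDg := hdet g.1
  have ht1 : t = 1 := by
    apply mul_right_cancel₀ hdvv
    linear_combination (v 0 * v' 1 - v 1 * v' 0) * hDg - (m g.1 0 0 * v 0 + m g.1 0 1 * v 1) * f4 +
      (m g.1 1 0 * v 0 + m g.1 1 1 * v 1) * f3 - (t * v' 1) * f1 + (t * v' 0) * f2
  rw [ht1] at f3 f4
  apply Subtype.ext
  apply hinj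
  have g00 : m g.1 0 0 = 1 := by
    apply mul_right_cancel₀ hdvv
    linear_combination (v' 1) * f1 - (v 1) * f3
  have g01 : m g.1 0 1 = 0 := by
    apply mul_right_cancel₀ hdvv
    linear_combination (v 0) * f3 - (v' 0) * f1
  have g10 : m g.1 1 0 = 0 := by
    apply mul_right_cancel₀ hdvv
    linear_combination (v' 1) * f2 - (v 1) * f4
  have g11 : m g.1 1 1 = 1 := by
    apply mul_right_cancel₀ hdvv
    linear_combination (v 0) * f4 - (v' 0) * f2
  ext i j
  fin_cases i <;> fin_cases j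
  · exact g00
  · exact g01
  · exact g10
  · exact g11

/-- `PSL_2(K)` has cyclic trivial intersection Sylow `ℓ`-subgroups if `ℓ ≠ 2` is different from the
characteristic of `K` -/
theorem psl_cyti (ℓ : ℕ) [Fact ℓ.Prime] (h2 : ℓ ≠ 2) (K : Type) [Field K] [Finite K]
    (hK : (ℓ : K) ≠ 0) (hd : ℓ ∣ Nat.card (Matrix.ProjectiveSpecialLinearGroup (Fin 2) K)) :
    CyTI ℓ (Matrix.ProjectiveSpecialLinearGroup (Fin 2) K) := by
  have hfin : Finite (Matrix.ProjectiveSpecialLinearGroup (Fin 2) K) := by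
    unfold Matrix.ProjectiveSpecialLinearGroup
    infer_instance
  apply cyti_of_cent ℓ _ hd
  intro x k hx hk
  exact cent_quot ℓ h2 (Matrix.SpecialLinearGroup (Fin 2) K) (by
    intro z hz
    obtain ⟨r, hr, hrz⟩ := Matrix.SpecialLinearGroup.mem_center_iff.mp hz
    rw [Fintype.card_fin] at hr
    apply Matrix.SpecialLinearGroup.ext
    intro i j
    rw [Matrix.SpecialLinearGroup.coe_pow, ← hrz, ← map_pow, hr, map_one, Matrix.SpecialLinearGroup.coe_one])
    (cent_sl2 ℓ h2 K hK) x k hx hk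

/-- groups whose order is not divisible by `ℓ ^ 2` -/
theorem cyti_of_not_sq (ℓ : ℕ) [hℓ : Fact ℓ.Prime] (S : Type) [Group S] [Finite S]
    (hd : ℓ ∣ Nat.card S) (h2 : ¬ ℓ ^ 2 ∣ Nat.card S) : CyTI ℓ S := by
  classical
  obtain ⟨P⟩ : Nonempty (Sylow ℓ S) := inferInstance
  have hcard : Nat.card P = ℓ := by
    obtain ⟨k, hk⟩ := IsPGroup.iff_card.mp P.isPGroup'
    have h3 : Nat.card P ∣ Nat.card S := Subgroup.card_subgroup_dvd_card _
    have h4 : ℓ ∣ Nat.card P := P.dvd_card_of_dvd_card hd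
    rcases k with _ | _ | k
    · rw [hk, pow_zero] at h4
      exact absurd (Nat.dvd_one.mp h4) hℓ.out.ne_one
    · rw [hk, zero_add, pow_one]
    · exfalso
      apply h2
      rw [hk] at h3
      exact (pow_dvd_pow ℓ (by omega)).trans h3
  have hne : (P : Subgroup S) ≠ ⊥ := P.ne_bot_of_dvd_card hd
  refine ⟨P, ⟨P.isPGroup', P.not_dvd_index, hne, ?_⟩, isCyclic_of_prime_card hcard⟩
  intro g hg x hx hgx
  by_contra hx1
  apply hg
  apply Subgroup.mem_normalizer_fintype
  intro u hu
  have hx1' : (⟨x, hx⟩ : P) ≠ 1 := by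
    intro h
    exact hx1 (congrArg Subtype.val h)
  have hu' : (⟨u, hu⟩ : P) ∈ Subgroup.zpowers (⟨x, hx⟩ : P) :=
    mem_zpowers_of_prime_card hcard hx1'
  obtain ⟨i, hi⟩ := Subgroup.mem_zpowers_iff.mp hu'
  have hi' : x ^ i = u := congrArg Subtype.val hi
  show g * u * g⁻¹ ∈ (P : Subgroup S)
  rw [← hi', ← conj_zpow]
  exact (P : Subgroup S).zpow_mem hgx i

theorem cyti_equiv {ℓ : ℕ} {S T : Type} [Group S] [Group T] (e : S ≃* T) (h : CyTI ℓ T) :
    CyTI ℓ S := by
  obtain ⟨P, hP, hc⟩ := h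
  refine ⟨P.map (e.symm : T →* S), Pool.Agent.PP.H47C.tis_equiv e hP, ?_⟩
  exact isCyclic_of_surjective ((e.symm : T →* S).subgroupMap P)
    ((e.symm : T →* S).subgroupMap_surjective P)

end Pool.Agent.PP.H36
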