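import Pool.Agent.Helper66_AWS.S049
import Pool.Agent.Helper66_AWS.S078
import Pool.Agent.Helper66_AWS.S079
import Pool.Agent.Helper66_AWS.S080

/-! Copy (generated) of the module `Pool.Agent.Helper18_X2.AsmC` with import lines for the bundle Helper12_AWB. -/

/-!
# AWC, part X2: the assembly, third part
-/

noncomputable section

namespace Pool.Agent.PP.X2.A

open Pool.Agent.PP Pool.Agent.PP.X2

theorem clm_ : ClmStmt := H47.clm qmc_

/-- the final theorem of part X2, without hypotheses -/
theorem finC0 : FinCStmt := finC_ clm_

theorem mainC0 : MainCStmt := mainC0_ clm_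

theorem relC0 : RelCStmt := relC0_ clm_

end Pool.Agent.PP.X2.A
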