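import Pool.Agent.Helper12_AWB.B100

/-! Copy (generated) of the module `Pool.Agent.Helper18_X2.Cys` with import lines for the bundle Helper12_AWB. -/

/-!
# AWC, part X2, module CYS
-/

set_option autoImplicit false

noncomputable section

namespace Pool.Agent.PP.X2.H18

open Pool.Agent.Helper51_AWC Pool.Agent.PP

/-- Sections of groups with a cyclic TI Sylow subgroup. -/
theorem cys0 (ℓ : ℕ) [hℓ : Fact ℓ.Prime] (G : Type) [Group G] [Finite G] (hG : CyTI ℓ G)
    (S : Type) [Group S] [Finite S] (hl : ℓ ∣ Nat.card S) (hi : Involves G S) : CyTI ℓ S := by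
  classical
  obtain ⟨P, hP, hPc⟩ := hG
  obtain ⟨K, f, hf⟩ := hi
  obtain ⟨Q⟩ : Nonempty (Sylow ℓ K) := inferInstance
  -- a conjugate of `P` contains `Q`
  have hg : ∃ g : G, ∀ y : K, y ∈ Q → g⁻¹ * (y : G) * g ∈ P := by
    have hQp : IsPGroup ℓ ((Q : Subgroup K).map K.subtype) := Q.isPGroup'.map _
    obtain ⟨P₁, hP₁⟩ := hQp.exists_le_sylow
    let P₀ : Sylow ℓ G := hP.pgrp.toSylow hP.sylow
    obtain ⟨g, hg⟩ := MulAction.exists_smul_eq G P₀ P₁
    refine ⟨g, fun y hy => ?_⟩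
    have h1 : (y : G) ∈ P₁ := hP₁ ⟨y, hy, rfl⟩
    rw [← hg] at h1
    have h2 : (y : G) ∈ (g • P₀ : Sylow ℓ G).toSubgroup := h1
    rw [Sylow.coe_subgroup_smul, Subgroup.mem_pointwise_smul_iff_inv_smul_mem] at h2
    have h3 : (MulAut.conj g)⁻¹ • (y : G) ∈ P := h2
    rw [← map_inv, MulAut.smul_def, MulAut.conj_apply, inv_inv] at h3
    exact h3
  obtain ⟨g, hg⟩ := hg
  have hg' : ∀ y : K, g⁻¹ * (y : G) * g ∈ P → y ∈ Q := by
    let Q₂ : Subgroup K := (P.comap (MulAut.conj g⁻¹).toMonoidHom).comap K.subtype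
    have hQ₂ : IsPGroup ℓ Q₂ :=
      (hP.pgrp.comap_of_injective _ (MulAut.conj g⁻¹).injective).comap_of_injective _
        K.subtype_injective
    have hmem : ∀ y : K, y ∈ Q₂ ↔ g⁻¹ * (y : G) * g ∈ P := by
      intro y
      show (MulAut.conj g⁻¹) (y : G) ∈ P ↔ _
      rw [MulAut.conj_apply, inv_inv]
    have hle : (Q : Subgroup K) ≤ Q₂ := fun y hy => (hmem y).mpr (hg y hy)
    have he := Q.is_maximal' hQ₂ hle
    intro y hy
    have : y ∈ Q₂ := (hmem y).mpr hy
    rw [he] at this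
    exact this
  -- the trivial intersection property in `K`
  have hti : ∀ x k : K, x ∈ Q → x ≠ 1 → k * x * k⁻¹ ∈ Q → ∀ y ∈ Q, k * y * k⁻¹ ∈ Q := by
    intro x k hx hx1 hkx y hy
    have h1 : g⁻¹ * (k : G) * g ∈ Subgroup.normalizer (P : Set G) := by
      by_contra hn
      have h2 := hP.ti _ hn (g⁻¹ * (x : G) * g) (hg x hx) (by
        have h3 := hg _ hkx
        have h4 : g⁻¹ * (k : G) * g * (g⁻¹ * (x : G) * g) * (g⁻¹ * (k : G) * g)⁻¹ =
            g⁻¹ * ((k * x * k⁻¹ : K) : G) * g := by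
          push_cast
          group
        rw [h4]
        exact h3)
      apply hx1
      apply Subtype.ext
      have h5 : (x : G) = g * (g⁻¹ * (x : G) * g) * g⁻¹ := by group
      rw [h5, h2]
      simp
    apply hg'
    have h6 := (Subgroup.mem_normalizer_iff.mp h1 (g⁻¹ * (y : G) * g)).mp (hg y hy)
    have h4 : g⁻¹ * (k : G) * g * (g⁻¹ * (y : G) * g) * (g⁻¹ * (k : G) * g)⁻¹ =
        g⁻¹ * ((k * y * k⁻¹ : K) : G) * g := by
      push_cast
      group
    rw [h4] at h6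
    exact h6
  have hQc : IsCyclic Q := by
    let φ : Q →* P :=
      { toFun := fun y => ⟨g⁻¹ * ((y : K) : G) * g, hg y y.2⟩
        map_one' := by
          apply Subtype.ext
          simp
        map_mul' := by
          intro a b
          apply Subtype.ext
          simp only [Subgroup.coe_mul]
          group }
    refine isCyclic_of_injective φ ?_
    intro a b hab
    have h1 : g⁻¹ * ((a : K) : G) * g = g⁻¹ * ((b : K) : G) * g := congrArg Subtype.val hab
    have h2 : ((a : K) : G) = ((b : K) : G) := by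
      have := mul_right_cancel h1
      exact mul_left_cancel this
    exact Subtype.ext (Subtype.ext h2)
  let Q' : Sylow ℓ S := Q.mapSurjective hf
  have hQ' : (Q' : Subgroup S) = (Q : Subgroup K).map f := rfl
  refine ⟨(Q : Subgroup K).map f, ⟨?_, ?_, ?_, ?_⟩, ?_⟩
  · exact Q.isPGroup'.map f
  · rw [← hQ']
    exact Q'.not_dvd_index
  · rw [← hQ']
    exact Q'.ne_bot_of_dvd_card hl
  · intro s hs y hy hsy
    by_contra hy1
    apply hs
    obtain ⟨x, hx, rfl⟩ := hy
    obtain ⟨k, rfl⟩ := hf s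
    have hx1 : x ≠ 1 := by
      rintro rfl
      exact hy1 (map_one f)
    let L : Subgroup K := ((Q : Subgroup K).map f).comap f
    have hQL : (Q : Subgroup K) ≤ L := Subgroup.le_comap_map f _
    have hkL : k * x * k⁻¹ ∈ L := by
      show f (k * x * k⁻¹) ∈ (Q : Subgroup K).map f
      rw [map_mul, map_mul, map_inv]
      exact hsy
    have hp : IsPGroup ℓ (Subgroup.zpowers (⟨k * x * k⁻¹, hkL⟩ : L)) := by
      obtain ⟨n, hn⟩ := Q.isPGroup' ⟨x, hx⟩
      have hn' : x ^ ℓ ^ n = 1 := congrArg Subtype.val hn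
      have hn2 : (⟨k * x * k⁻¹, hkL⟩ : L) ^ ℓ ^ n = 1 := by
        apply Subtype.ext
        simp only [SubmonoidClass.coe_pow, Subgroup.coe_one]
        rw [conj_pow, hn', mul_one, mul_inv_cancel]
      obtain ⟨m, -, hm⟩ := (Nat.dvd_prime_pow hℓ.out).mp (orderOf_dvd_of_pow_eq_one hn2)
      exact IsPGroup.of_card (n := m) ((Nat.card_zpowers _).trans hm)
    obtain ⟨R, hR⟩ := hp.exists_le_sylow
    obtain ⟨l, hl'⟩ := MulAction.exists_smul_eq L R (Q.subtype hQL)
    have h1 : (⟨k * x * k⁻¹, hkL⟩ : L) ∈ R := hR (Subgroup.mem_zpowers _)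
    have h2 : (l * ⟨k * x * k⁻¹, hkL⟩ * l⁻¹ : L) ∈ (Q.subtype hQL).toSubgroup := by
      rw [← hl', Sylow.coe_subgroup_smul, Subgroup.mem_pointwise_smul_iff_inv_smul_mem]
      show (MulAut.conj l)⁻¹ • (l * ⟨k * x * k⁻¹, hkL⟩ * l⁻¹ : L) ∈ (R : Subgroup L)
      rw [← map_inv, MulAut.smul_def, MulAut.conj_apply, inv_inv]
      have : l⁻¹ * (l * ⟨k * x * k⁻¹, hkL⟩ * l⁻¹) * l = (⟨k * x * k⁻¹, hkL⟩ : L) := by group
      rw [this]
      exact h1
    have h3 : (l : K) * (k * x * k⁻¹) * (l : K)⁻¹ ∈ Q := by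
      rw [Sylow.coe_subtype, Subgroup.mem_subgroupOf] at h2
      exact h2
    have h4 : ((l : K) * k) * x * ((l : K) * k)⁻¹ ∈ Q := by
      have : ((l : K) * k) * x * ((l : K) * k)⁻¹ = (l : K) * (k * x * k⁻¹) * (l : K)⁻¹ := by group
      rw [this]
      exact h3
    have h5 := hti x ((l : K) * k) hx hx1 h4
    have h6 : f ((l : K) * k) ∈ Subgroup.normalizer (((Q : Subgroup K).map f : Subgroup S) : Set S) := by
      apply Subgroup.mem_normalizer_fintype
      rintro _ ⟨y, hy, rfl⟩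
      refine ⟨(l : K) * k * y * ((l : K) * k)⁻¹, h5 y hy, ?_⟩
      simp only [map_mul, map_inv]
    have h7 : f (l : K) ∈ Subgroup.normalizer (((Q : Subgroup K).map f : Subgroup S) : Set S) :=
      Subgroup.le_normalizer l.2
    have h8 := Subgroup.mul_mem _ (Subgroup.inv_mem _ h7) h6
    rw [← map_inv, ← map_mul] at h8
    have h9 : (l : K)⁻¹ * ((l : K) * k) = k := by group
    rw [h9] at h8
    exact h8
  · exact isCyclic_of_surjective (f.subgroupMap (Q : Subgroup K))
      (f.subgroupMap_surjective (Q : Subgroup K))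

theorem cys : CysStmt := by
  intro ℓ _ G _ _ hG S _ _ _ hl hi
  exact cys0 ℓ G hG S hl hi

end Pool.Agent.PP.X2.H18
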