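import Pool.Agent.Helper12_AWB.B100

/-! Copy (generated) of the module `Pool.Agent.Helper9_X2.Psc` with import lines for the bundle Helper12_AWB. -/

/-!
# AWC, part X2, module PSC: automorphisms of `PSL_2(K)` which stabilise both unipotent subgroups
-/

set_option autoImplicit false

noncomputable section

namespace Pool.Agent.PP.X2.H9

open Pool.Agent.PP Pool.Agent.PP.X2

variable {K : Type} [Field K]

/-- equality in `PSL_2` -/
theorem mk_eq {A B : Matrix.SpecialLinearGroup (Fin 2) K}
    (h : QuotientGroup.mk' (Subgroup.center (Matrix.SpecialLinearGroup (Fin 2) K)) A =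
      QuotientGroup.mk' (Subgroup.center (Matrix.SpecialLinearGroup (Fin 2) K)) B) :
    ∃ c : K, c ^ 2 = 1 ∧ ∀ i j, (B : Matrix (Fin 2) (Fin 2) K) i j =
      c * (A : Matrix (Fin 2) (Fin 2) K) i j := by
  have h1 : A⁻¹ * B ∈ Subgroup.center (Matrix.SpecialLinearGroup (Fin 2) K) :=
    QuotientGroup.eq.1 h
  obtain ⟨c, hc, hc'⟩ := Matrix.SpecialLinearGroup.mem_center_iff.1 h1
  refine ⟨c, by simpa using hc, ?_⟩
  intro i j
  have h2 : (B : Matrix (Fin 2) (Fin 2) K) =
      (A : Matrix (Fin 2) (Fin 2) K) * Matrix.scalar (Fin 2) c := by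
    rw [hc', ← Matrix.SpecialLinearGroup.coe_mul, mul_inv_cancel_left]
  rw [h2, Matrix.scalar_apply, Matrix.mul_diagonal, mul_comm]

theorem uS_add (x y : K) : uS (x + y) = uS x * uS y := by
  apply Subtype.ext
  rw [Matrix.SpecialLinearGroup.coe_mul]
  simp [uS, Matrix.mul_fin_two, add_comm]

theorem vS_add (x y : K) : vS (x + y) = vS x * vS y := by
  apply Subtype.ext
  rw [Matrix.SpecialLinearGroup.coe_mul]
  simp [vS, Matrix.mul_fin_two, add_comm]

theorem uP_add (x y : K) : uP (x + y) = uP x * uP y := by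
  unfold uP; rw [uS_add, map_mul]

theorem vP_add (x y : K) : vP (x + y) = vP x * vP y := by
  unfold vP; rw [vS_add, map_mul]

theorem uP_zero : uP (0 : K) = 1 := by
  have h := uP_add (0 : K) 0
  rw [add_zero] at h
  exact (mul_eq_left.1 h.symm)

theorem vP_zero : vP (0 : K) = 1 := by
  have h := vP_add (0 : K) 0
  rw [add_zero] at h
  exact (mul_eq_left.1 h.symm)

theorem uP_inj {x y : K} (h : uP x = uP y) : x = y := by
  obtain ⟨c, -, h1⟩ := mk_eq h
  have h2 := h1 0 0
  have h3 := h1 0 1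
  simp [uS] at h2 h3
  rw [← h2, one_mul] at h3
  exact h3.symm

theorem vP_inj {x y : K} (h : vP x = vP y) : x = y := by
  obtain ⟨c, -, h1⟩ := mk_eq h
  have h2 := h1 0 0
  have h3 := h1 1 0
  simp [vS] at h2 h3
  rw [← h2, one_mul] at h3
  exact h3.symm

theorem mat_left (p q t : K) : ((uS p * vS q * uS p * uS t :
    Matrix.SpecialLinearGroup (Fin 2) K) : Matrix (Fin 2) (Fin 2) K) =
    !![1 + p * q, (1 + p * q) * t + p * (2 + p * q); q, q * t + (1 + p * q)] := by
  simp only [Matrix.SpecialLinearGroup.coe_mul]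
  ext i j
  fin_cases i <;> fin_cases j <;> simp [uS, vS] <;> ring

theorem mat_right (p q s : K) : ((vS s * (uS p * vS q * uS p) :
    Matrix.SpecialLinearGroup (Fin 2) K) : Matrix (Fin 2) (Fin 2) K) =
    !![1 + p * q, p * (2 + p * q); s * (1 + p * q) + q, s * (p * (2 + p * q)) + (1 + p * q)] := by
  simp only [Matrix.SpecialLinearGroup.coe_mul]
  ext i j
  fin_cases i <;> fin_cases j <;> simp [uS, vS] <;> ring

/-- the Weyl element -/
theorem weyl {x : K} (hx : x ≠ 0) (y : K) :
    (uP x * vP (-x⁻¹) * uP x) * uP y = vP (-(x⁻¹ ^ 2 * y)) * (uP x * vP (-x⁻¹) * uP x) := by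
  unfold uP vP
  rw [← map_mul, ← map_mul, ← map_mul, ← map_mul]
  congr 1
  apply Subtype.ext
  rw [mat_left, mat_right]
  have h1 : x * -x⁻¹ = -1 := by rw [mul_neg, mul_inv_cancel₀ hx]
  have h2 : x⁻¹ ^ 2 * y * x = x⁻¹ * y := by field_simp
  rw [h1]
  ext i j
  fin_cases i <;> fin_cases j
  · simp
  · simp
  · simp
  · simp only [Fin.mk_one, Fin.isValue, Matrix.of_apply, Matrix.cons_val_one, Matrix.cons_val_fin_one]
    linear_combination h2

theorem weyl_inv {p q t s : K} (ht : t ≠ 0)
    (h : (uP p * vP q * uP p) * uP t = vP s * (uP p * vP q * uP p)) :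
    p * q = -1 ∧ s = -(q ^ 2 * t) := by
  unfold uP vP at h
  rw [← map_mul, ← map_mul, ← map_mul, ← map_mul] at h
  obtain ⟨c, hc, h1⟩ := mk_eq h
  rw [mat_left, mat_right] at h1
  have e00 : 1 + p * q = c * (1 + p * q) := h1 0 0
  have e01 : p * (2 + p * q) = c * ((1 + p * q) * t + p * (2 + p * q)) := h1 0 1
  have e11 : s * (p * (2 + p * q)) + (1 + p * q) = c * (q * t + (1 + p * q)) := h1 1 1
  have hpq : 1 + p * q = 0 := by
    by_contra hne
    have hc1 : c = 1 := by
      have : (c - 1) * (1 + p * q) = 0 := by linear_combination -e00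
      rcases mul_eq_zero.1 this with h2 | h2
      · exact sub_eq_zero.1 h2
      · exact absurd h2 hne
    rw [hc1, one_mul] at e01
    have : (1 + p * q) * t = 0 := by linear_combination -e01
    rcases mul_eq_zero.1 this with h2 | h2
    · exact hne h2
    · exact ht h2
  have hp0 : p ≠ 0 := by
    rintro rfl
    rw [zero_mul, add_zero] at hpq
    exact one_ne_zero hpq
  have hpq' : p * q = -1 := by linear_combination hpq
  have hc1 : c = 1 := by
    have h2 : (c - 1) * p = 0 := by
      have e : 2 + p * q = 1 := by linear_combination hpq'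
      rw [e, hpq] at e01
      linear_combination -e01
    rcases mul_eq_zero.1 h2 with h3 | h3
    · exact sub_eq_zero.1 h3
    · exact absurd h3 hp0
  refine ⟨hpq', ?_⟩
  have e : 2 + p * q = 1 := by linear_combination hpq'
  rw [e, hpq, hc1] at e11
  -- e11 : s * (p * 1) + 0 = 1 * (q * t + 0)
  have e2 : s * p = q * t := by linear_combination e11
  have : p * (s + q ^ 2 * t) = 0 := by
    linear_combination e2 + q * t * hpq'
  rcases mul_eq_zero.1 this with h3 | h3
  · exact absurd h3 hp0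
  · linear_combination h3

/-- an automorphism which stabilises both unipotent subgroups -/
structure Good (α : MulAut (PS K)) (a b : K → K) : Prop where
  u : ∀ x, α (uP x) = uP (a x)
  v : ∀ x, α (vP x) = vP (b x)

namespace Good

variable {α : MulAut (PS K)} {a b : K → K} (h : Good α a b)

include h

theorem a_add (x y : K) : a (x + y) = a x + a y := by
  apply uP_inj
  rw [← h.u, uP_add, uP_add, map_mul, h.u, h.u]

theorem b_add (x y : K) : b (x + y) = b x + b y := by
  apply vP_inj
  rw [← h.v, vP_add, vP_add, map_mul, h.v, h.v]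

theorem a_zero : a 0 = 0 := by
  have := h.a_add 0 0
  rw [add_zero] at this
  linear_combination -this

theorem b_zero : b 0 = 0 := by
  have := h.b_add 0 0
  rw [add_zero] at this
  linear_combination -this

theorem a_neg (x : K) : a (-x) = -a x := by
  have := h.a_add x (-x)
  rw [add_neg_cancel, h.a_zero] at this
  linear_combination -this

theorem b_neg (x : K) : b (-x) = -b x := by
  have := h.b_add x (-x)
  rw [add_neg_cancel, h.b_zero] at this
  linear_combination -this

theorem a_ne {x : K} (hx : x ≠ 0) : a x ≠ 0 := by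
  intro h0
  apply hx
  apply uP_inj
  apply α.injective
  rw [h.u, h0, uP_zero, map_one]

theorem key {x y : K} (hx : x ≠ 0) (hy : y ≠ 0) :
    a x * b x⁻¹ = 1 ∧ b (x⁻¹ ^ 2 * y) = b x⁻¹ ^ 2 * a y := by
  have h1 := congrArg α (weyl hx y)
  simp only [map_mul, h.u, h.v] at h1
  obtain ⟨h2, h3⟩ := weyl_inv (h.a_ne hy) h1
  rw [h.b_neg] at h2 h3
  rw [h.b_neg] at h3
  constructor
  · linear_combination -h2
  · linear_combination -h3

theorem inv_rel {z : K} (hz : z ≠ 0) : a z⁻¹ * b z = 1 := by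
  have := (h.key (inv_ne_zero hz) hz).1
  rwa [inv_inv] at this

theorem main {x y : K} (hx : x ≠ 0) (hy : y ≠ 0) : a y * a (x ^ 2 * y⁻¹) = a x ^ 2 := by
  obtain ⟨h1, h2⟩ := h.key hx hy
  have hz : x⁻¹ ^ 2 * y ≠ 0 := mul_ne_zero (pow_ne_zero _ (inv_ne_zero hx)) hy
  have h3 := h.inv_rel hz
  have e : (x⁻¹ ^ 2 * y)⁻¹ = x ^ 2 * y⁻¹ := by
    rw [mul_inv, inv_pow, inv_inv]
  rw [e, h2] at h3
  linear_combination a x ^ 2 * h3 - a y * a (x ^ 2 * y⁻¹) * (a x * b x⁻¹ + 1) * h1

variable {d : K} (hd : d ≠ 0) (had : a d = d)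

include hd had

theorem inv {r : K} (hr : a (d * r) = d * r) : a (d * r⁻¹) = d * r⁻¹ := by
  by_cases h0 : r = 0
  · rw [h0, inv_zero, mul_zero, h.a_zero]
  have h1 := h.main hd (mul_ne_zero hd h0)
  rw [hr, had] at h1
  have e : d ^ 2 * (d * r)⁻¹ = d * r⁻¹ := by field_simp
  rw [e] at h1
  have h2 : d * r ≠ 0 := mul_ne_zero hd h0
  apply mul_left_cancel₀ h2
  rw [h1]
  field_simp

theorem jor {r s : K} (hr : a (d * r) = d * r) (hs : a (d * s) = d * s) :
    a (d * (r ^ 2 * s)) = d * (r ^ 2 * s) := by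
  by_cases h0 : r = 0
  · rw [h0]; simp [h.a_zero]
  by_cases h1 : s = 0
  · rw [h1]; simp [h.a_zero]
  have h2 := h.main (mul_ne_zero hd h0) (mul_ne_zero hd (inv_ne_zero h1))
  rw [hr, h.inv hd had hs] at h2
  have e : (d * r) ^ 2 * (d * s⁻¹)⁻¹ = d * (r ^ 2 * s) := by field_simp
  rw [e] at h2
  have h3 : d * s⁻¹ ≠ 0 := mul_ne_zero hd (inv_ne_zero h1)
  apply mul_left_cancel₀ h3
  rw [h2]
  field_simp

theorem half (h2 : (2 : K) ≠ 0) {z : K} (hz : a (d * (2 * z)) = d * (2 * z)) :
    a (d * z) = d * z := by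
  have e : d * (2 * z) = d * z + d * z := by ring
  rw [e, h.a_add] at hz
  have : 2 * (a (d * z) - d * z) = 0 := by linear_combination hz
  rcases mul_eq_zero.1 this with h3 | h3
  · exact absurd h3 h2
  · exact sub_eq_zero.1 h3

theorem add {r s : K} (hr : a (d * r) = d * r) (hs : a (d * s) = d * s) :
    a (d * (r + s)) = d * (r + s) := by
  rw [mul_add, h.a_add, hr, hs]

theorem neg {r : K} (hr : a (d * r) = d * r) : a (d * -r) = d * -r := by
  rw [mul_neg, h.a_neg, hr]

theorem one : a (d * 1) = d * 1 := by rw [mul_one, had]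

theorem root [Finite K] (h2 : (2 : K) = 0) {r : K} (hr : a (d * r ^ 2) = d * r ^ 2) :
    a (d * r) = d * r := by
  by_cases h0 : r = 0
  · rw [h0, mul_zero, h.a_zero]
  have h1 := h.main (mul_ne_zero hd h0) hd
  rw [had] at h1
  have e : (d * r) ^ 2 * d⁻¹ = d * r ^ 2 := by field_simp
  rw [e, hr] at h1
  have h3 : (a (d * r) - d * r) ^ 2 = 0 := by
    linear_combination -h1 + (d * r) * (d * r - a (d * r)) * h2
  exact sub_eq_zero.1 (pow_eq_zero_iff two_ne_zero |>.1 h3)

theorem mul [Finite K] {r s : K} (hr : a (d * r) = d * r) (hs : a (d * s) = d * s) :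
    a (d * (r * s)) = d * (r * s) := by
  by_cases h2 : (2 : K) = 0
  · have hch : ringChar K = 2 := by
      have h3 : ringChar K ∣ 2 := ringChar.dvd (by exact_mod_cast h2)
      rcases (Nat.dvd_prime Nat.prime_two).1 h3 with h4 | h4
      · exact absurd h4 (CharP.ringChar_ne_one)
      · exact h4
    obtain ⟨t, rfl⟩ := FiniteField.isSquare_of_char_two hch r
    rw [← pow_two] at hr ⊢
    exact h.jor hd had (h.root hd had h2 hr) hs
  · apply h.half hd had h2
    have h1 := h.jor hd had (h.add hd had hr (h.one hd had)) hs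
    have h3 := h.jor hd had hr hs
    have h4 := h.add hd had (h.add hd had h1 (h.neg hd had h3)) (h.neg hd had hs)
    have e : (r + 1) ^ 2 * s + -(r ^ 2 * s) + -s = 2 * (r * s) := by ring
    rwa [e] at h4

theorem swap [Finite K] (r : K) : b (d⁻¹ * r) = d⁻¹ * r ↔ a (d * r) = d * r := by
  by_cases h0 : r = 0
  · rw [h0, mul_zero, mul_zero, h.a_zero, h.b_zero]
  have hz : d⁻¹ * r ≠ 0 := mul_ne_zero (inv_ne_zero hd) h0
  have h1 := h.inv_rel hz
  have e : (d⁻¹ * r)⁻¹ = d * r⁻¹ := by rw [mul_inv, inv_inv]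
  rw [e] at h1
  constructor
  · intro h2
    rw [h2] at h1
    have h3 : a (d * r⁻¹) = d * r⁻¹ := by
      apply mul_right_cancel₀ hz
      rw [h1]
      field_simp
    have := h.inv hd had h3
    rwa [inv_inv] at this
  · intro h2
    rw [h.inv hd had h2] at h1
    have h3 : d * r⁻¹ ≠ 0 := mul_ne_zero hd (inv_ne_zero h0)
    apply mul_left_cancel₀ h3
    rw [h1]
    field_simp

end Good

/-- PSC -/
theorem psc : PscStmt := by
  intro K _ _ Q hU hV d hd hfix
  have hG : ∀ α ∈ Q, ∃ a b : K → K, Good α a b ∧ a d = d := by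
    intro α hα
    choose a ha using hU α hα
    choose b hb using hV α hα
    refine ⟨a, b, ⟨ha, hb⟩, ?_⟩
    apply uP_inj
    rw [← ha, hfix α hα]
  have hiff : ∀ α, ∀ a b : K → K, Good α a b → ∀ x : K, α (uP (d * x)) = uP (d * x) ↔
      a (d * x) = d * x := by
    intro α a b h x
    rw [h.u]
    exact ⟨fun h1 => uP_inj h1, fun h1 => by rw [h1]⟩
  have hiff' : ∀ α, ∀ a b : K → K, Good α a b → ∀ x : K, α (vP (d⁻¹ * x)) = vP (d⁻¹ * x) ↔
      b (d⁻¹ * x) = d⁻¹ * x := by
    intro α a b h x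
    rw [h.v]
    exact ⟨fun h1 => vP_inj h1, fun h1 => by rw [h1]⟩
  let K₀ : Subfield K :=
    { carrier := {x | ∀ α ∈ Q, α (uP (d * x)) = uP (d * x)}
      mul_mem' := by
        intro r s hr hs α hα
        obtain ⟨a, b, h, had⟩ := hG α hα
        exact (hiff α a b h _).2 (h.mul hd had ((hiff α a b h _).1 (hr α hα))
          ((hiff α a b h _).1 (hs α hα)))
      one_mem' := by
        intro α hα
        rw [mul_one]
        exact hfix α hα
      add_mem' := by
        intro r s hr hs α hα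
        rw [mul_add, uP_add, map_mul, hr α hα, hs α hα]
      zero_mem' := by
        intro α hα
        rw [mul_zero, uP_zero, map_one]
      neg_mem' := by
        intro r hr α hα
        obtain ⟨a, b, h, had⟩ := hG α hα
        exact (hiff α a b h _).2 (h.neg hd had ((hiff α a b h _).1 (hr α hα)))
      inv_mem' := by
        intro r hr α hα
        obtain ⟨a, b, h, had⟩ := hG α hα
        exact (hiff α a b h _).2 (h.inv hd had ((hiff α a b h _).1 (hr α hα))) }
  refine ⟨K₀, fun x => Iff.rfl, fun x => ?_⟩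
  constructor
  · intro h1 α hα
    obtain ⟨a, b, h, had⟩ := hG α hα
    exact (hiff α a b h _).2 ((h.swap hd had x).1 ((hiff' α a b h _).1 (h1 α hα)))
  · intro h1 α hα
    obtain ⟨a, b, h, had⟩ := hG α hα
    exact (hiff' α a b h _).2 ((h.swap hd had x).2 ((hiff α a b h _).1 (h1 α hα)))

end Pool.Agent.PP.X2.H9
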