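import Pool.Agent.Helper12_AWB.B100
import Pool.Agent.Helper66_AWS.S075

/-! Copy (generated) of the module `Pool.Agent.Helper71_X2.Psb` with import lines for the bundle Helper12_AWB. -/

/-!
# AWC, part X2, module PSB: the Sylow `ℓ`-subgroups of `PSL_2(K)`
-/

set_option autoImplicit false

noncomputable section

namespace Pool.Agent.PP.X2.H71

open Pool.Agent.PP Pool.Agent.PP.X2 OnePoint
open Pool.Agent.PP.BN.H96 (act actP act_inf act_coe act_inf_iff act_zero_iff act_one_iff uni wey det2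
  mul2 act_uni act_uni_inf uni00 uni01 uni10 uni11)

variable {K : Type} [Field K]

/-- the projection -/
abbrev pr (K : Type) [Field K] : Matrix.SpecialLinearGroup (Fin 2) K →* PS K :=
  QuotientGroup.mk' (Subgroup.center (Matrix.SpecialLinearGroup (Fin 2) K))

theorem pr_surj (s : PS K) : ∃ g, pr K g = s := QuotientGroup.mk'_surjective _ s

theorem actP_pr (g : Matrix.SpecialLinearGroup (Fin 2) K) : actP K (pr K g) = act K g := rfl

theorem uS_eq (x : K) : uS x = uni K (Multiplicative.ofAdd x) := rfl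

theorem uP_eq (x : K) : uP x = pr K (uni K (Multiplicative.ofAdd x)) := rfl

theorem actP_uP (a k : K) : actP K (uP a) (k : OnePoint K) = ((k + a : K) : OnePoint K) :=
  act_uni a k

theorem actP_uP_inf (a : K) : actP K (uP a) ∞ = ∞ := act_uni_inf _

theorem mul_apply (s t : PS K) (x : OnePoint K) : actP K (s * t) x = actP K s (actP K t x) := by
  rw [map_mul]
  rfl

theorem inv_apply_eq {s : PS K} {x y : OnePoint K} (h : actP K s x = y) : actP K s⁻¹ y = x := by
  rw [map_inv, Equiv.Perm.inv_eq_iff_eq]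
  exact h.symm

theorem uP_add (x y : K) : uP (x + y) = uP x * uP y := by
  rw [uP_eq, uP_eq, uP_eq, ← map_mul, ← map_mul]
  rfl

theorem uP_zero : uP (0 : K) = 1 := by
  have h := uP_add (0 : K) 0
  rw [add_zero] at h
  exact (mul_eq_left.1 h.symm)

theorem uP_neg (x : K) : uP (-x) = (uP x)⁻¹ := by
  rw [eq_inv_iff_mul_eq_one, ← uP_add, neg_add_cancel, uP_zero]

/-- an element `uP a` with a finite fixed point is trivial -/
theorem uP_fix {a k : K} (h : actP K (uP a) (k : OnePoint K) = (k : OnePoint K)) : uP a = 1 := by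
  rw [actP_uP, coe_eq_coe] at h
  have h1 : a = 0 := by
    have h2 : k + a = k + 0 := by rw [h, add_zero]
    exact add_left_cancel h2
  rw [h1, uP_zero]

theorem wey_inf : actP K (pr K (wey K)) ∞ = ((0 : K) : OnePoint K) := by
  classical
  rw [actP_pr, act_inf]
  simp [wey]

/-- transitivity -/
theorem exists_inf (p : OnePoint K) : ∃ h : PS K, actP K h ∞ = p := by
  cases p with
  | infty => exact ⟨1, by rw [map_one]; rfl⟩
  | coe k =>
    refine ⟨uP k * pr K (wey K), ?_⟩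
    rw [mul_apply, wey_inf, actP_uP, zero_add]

theorem exists_coe {x y : OnePoint K} (hx : x ≠ ∞) (hy : y ≠ ∞) : ∃ a : K, actP K (uP a) x = y := by
  cases x with
  | infty => exact absurd rfl hx
  | coe k =>
    cases y with
    | infty => exact absurd rfl hy
    | coe m => exact ⟨m - k, by rw [actP_uP, add_sub_cancel]⟩

/-- the stabiliser of `∞` normalises `U` -/
theorem stab_norm {s : PS K} (hs : actP K s ∞ = ∞) (a : K) : ∃ b : K, s * uP a * s⁻¹ = uP b := by
  obtain ⟨g, rfl⟩ := pr_surj s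
  rw [actP_pr, act_inf_iff] at hs
  refine ⟨g.1 0 0 * g.1 0 0 * a, ?_⟩
  have hd := det2 g
  rw [hs] at hd
  have : uni K (Multiplicative.ofAdd (g.1 0 0 * g.1 0 0 * a)) * g =
      g * uni K (Multiplicative.ofAdd a) := by
    ext i j
    show (_ * _ : Matrix.SpecialLinearGroup (Fin 2) K).1 i j =
      (_ * _ : Matrix.SpecialLinearGroup (Fin 2) K).1 i j
    rw [mul2, mul2]
    have e1 : ∀ j : Fin 2, j = 0 ∨ j = 1 := by decide
    rcases e1 i with rfl | rfl <;> rcases e1 j with rfl | rfl <;>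
      simp only [uni00, uni01, uni10, uni11, hs, toAdd_ofAdd]
    · ring
    · linear_combination (g.1 0 0 * a) * hd
    · ring
    · ring
  rw [uP_eq, uP_eq, mul_inv_eq_iff_eq_mul, ← map_mul, ← map_mul, this]

/-- the conjugate of `U` at the point `p` depends only on `p` -/
theorem conj_iff {h h' : PS K} (he : actP K h ∞ = actP K h' ∞) (x : PS K) :
    (∃ t : K, x = h * uP t * h⁻¹) → ∃ t : K, x = h' * uP t * h'⁻¹ := by
  rintro ⟨t, rfl⟩
  have h1 : actP K (h'⁻¹ * h) ∞ = ∞ := by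
    rw [mul_apply, he]
    exact inv_apply_eq rfl
  obtain ⟨b, hb⟩ := stab_norm h1 t
  refine ⟨b, ?_⟩
  rw [← hb]
  group

theorem pow_char (ℓ : ℕ) [CharP K ℓ] (a : K) : (uP a) ^ ℓ = 1 := by
  have h1 : (Multiplicative.ofAdd a) ^ ℓ = 1 := by
    apply Multiplicative.toAdd.injective
    rw [toAdd_pow, toAdd_one, nsmul_eq_mul, CharP.cast_eq_zero, zero_mul]
  rw [uP_eq, ← map_pow, ← map_pow, h1, map_one, map_one]

theorem actP_one_iff (s : PS K) : actP K s = 1 ↔ s = 1 := by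
  obtain ⟨g, rfl⟩ := pr_surj s
  rw [actP_pr, act_one_iff]
  exact (QuotientGroup.eq_one_iff g).symm

/-- elements of `ℓ`-power order fixing two points are trivial -/
theorem fix_two (ℓ : ℕ) [Fact ℓ.Prime] [CharP K ℓ] {s : PS K} (h1 : actP K s ∞ = ∞)
    (h2 : actP K s ((0 : K) : OnePoint K) = ((0 : K) : OnePoint K)) {n : ℕ}
    (h3 : s ^ (ℓ ^ n) = 1) : s = 1 := by
  classical
  obtain ⟨g, rfl⟩ := pr_surj s
  rw [actP_pr, act_inf_iff] at h1
  rw [actP_pr, act_zero_iff] at h2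
  have hd := det2 g
  rw [h1, h2] at hd
  have h0 : g.1 0 0 ≠ 0 := by
    intro h
    rw [h] at hd
    simp at hd
  have h11 : g.1 1 1 = (g.1 0 0)⁻¹ := by
    rw [eq_comm]
    exact inv_eq_of_mul_eq_one_right (by linear_combination hd)
  -- the action
  have hact : ∀ k : K, actP K (pr K g) (k : OnePoint K) =
      ((g.1 0 0 * g.1 0 0 * k : K) : OnePoint K) := by
    intro k
    rw [actP_pr, act_coe, h1, h2, h11, zero_mul, zero_add, add_zero, if_neg (inv_ne_zero h0)]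
    congr 1
    field_simp
  have hpow : ∀ m : ℕ, actP K ((pr K g) ^ m) ((1 : K) : OnePoint K) =
      (((g.1 0 0 * g.1 0 0) ^ m : K) : OnePoint K) := by
    intro m
    induction m with
    | zero => rw [pow_zero, pow_zero, map_one]; rfl
    | succ m ih => rw [pow_succ', pow_succ', mul_apply, ih, hact]
  have h4 := hpow (ℓ ^ n)
  rw [h3, map_one] at h4
  have h5 : ((1 : K) : OnePoint K) = (((g.1 0 0 * g.1 0 0) ^ (ℓ ^ n) : K) : OnePoint K) := h4
  rw [coe_eq_coe] at h5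
  have h6 : g.1 0 0 * g.1 0 0 = 1 := by
    have h7 : (g.1 0 0 * g.1 0 0 - 1) ^ (ℓ ^ n) = 0 := by
      rw [sub_pow_char_pow, one_pow, ← h5, sub_self]
    exact sub_eq_zero.1 (pow_eq_zero_iff (pow_ne_zero n (Fact.out : ℓ.Prime).ne_zero) |>.1 h7)
  rw [← actP_one_iff]
  apply Equiv.ext
  intro x
  cases x with
  | infty =>
    rw [actP_pr, (act_inf_iff g).2 h1]
    rfl
  | coe k =>
    rw [hact, h6, one_mul]
    rfl

/-- `U` as a subgroup -/
def UU (K : Type) [Field K] : Subgroup (PS K) := ((pr K).comp (uni K)).range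

theorem mem_UU {x : PS K} : x ∈ UU K ↔ ∃ t : K, x = uP t := by
  constructor
  · rintro ⟨a, rfl⟩
    exact ⟨Multiplicative.toAdd a, rfl⟩
  · rintro ⟨t, rfl⟩
    exact ⟨Multiplicative.ofAdd t, rfl⟩

/-- `ℓ`-subgroups of the stabiliser of `∞` -/
theorem le_UU (ℓ : ℕ) [Fact ℓ.Prime] [CharP K ℓ] {R : Subgroup (PS K)} (hR : IsPGroup ℓ R)
    (h : ∀ r ∈ R, actP K r ∞ = ∞) : R ≤ UU K := by
  have hU : IsPGroup ℓ (UU K) := by
    rintro ⟨x, hx⟩
    obtain ⟨t, rfl⟩ := mem_UU.1 hx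
    exact ⟨1, by
      apply Subtype.ext
      show (uP t) ^ (ℓ ^ 1) = 1
      rw [pow_one]
      exact pow_char ℓ t⟩
  have hn : R ≤ Subgroup.normalizer (UU K : Set (PS K)) := by
    intro r hr
    have key : ∀ s : PS K, actP K s ∞ = ∞ → ∀ x ∈ UU K, s * x * s⁻¹ ∈ UU K := by
      intro s hs x hx
      obtain ⟨t, rfl⟩ := mem_UU.1 hx
      obtain ⟨b, hb⟩ := stab_norm hs t
      rw [hb]
      exact mem_UU.2 ⟨b, rfl⟩
    rw [Subgroup.mem_normalizer_iff]
    intro x
    constructor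
    · exact key r (h r hr) x
    · intro hx
      have h1 := key r⁻¹ (inv_apply_eq (h r hr)) _ hx
      have h2 : r⁻¹ * (r * x * r⁻¹) * r⁻¹⁻¹ = x := by group
      rwa [h2] at h1
  have hsup : IsPGroup ℓ (R ⊔ UU K : Subgroup (PS K)) := IsPGroup.to_sup_of_normal_right' hR hU hn
  intro r hr
  have h1 : actP K r ((0 : K) : OnePoint K) ≠ ∞ := by
    intro h2
    have h3 : actP K r ((0 : K) : OnePoint K) = actP K r ∞ := by rw [h2, h r hr]
    exact coe_ne_infty _ ((actP K r).injective h3)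
  obtain ⟨a, ha⟩ := exists_coe h1 (coe_ne_infty (0 : K))
  have h2 : uP a * r ∈ (R ⊔ UU K : Subgroup (PS K)) :=
    Subgroup.mul_mem _ (Subgroup.mem_sup_right (mem_UU.2 ⟨a, rfl⟩)) (Subgroup.mem_sup_left hr)
  obtain ⟨n, hn'⟩ := hsup ⟨_, h2⟩
  have h3 : (uP a * r) ^ (ℓ ^ n) = 1 := by
    have := congrArg Subtype.val hn'
    exact this
  have h4 : uP a * r = 1 := by
    apply fix_two ℓ _ _ h3
    · rw [mul_apply, h r hr, actP_uP_inf]
    · rw [mul_apply, ha]
  have h5 : r = uP (-a) := by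
    rw [uP_neg, eq_inv_iff_mul_eq_one, ← mul_eq_one_iff_eq_inv'.2 (mul_eq_one_iff_eq_inv'.1 h4)]
    have h6 : r = (uP a)⁻¹ := eq_inv_of_mul_eq_one_right h4
    rw [h6, inv_mul_cancel, mul_inv_cancel]
  exact mem_UU.2 ⟨-a, h5⟩

/-- the Sylow subgroups -/
theorem sylow_eq (ℓ : ℕ) [Fact ℓ.Prime] [Finite K] [CharP K ℓ] (P : Sylow ℓ (PS K)) :
    ∃ g : PS K, ∀ x, x ∈ P ↔ ∃ t : K, x = g * uP t * g⁻¹ := by
  classical
  have : Finite (OnePoint K) := inferInstanceAs (Finite (Option K))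
  have hc : ¬ ℓ ∣ Nat.card (OnePoint K) := by
    have h1 : Nat.card (OnePoint K) = Nat.card K + 1 := Finite.card_option
    have := Fintype.ofFinite K
    obtain ⟨n, hp, hcard⟩ := FiniteField.card K ℓ
    have h3 : ℓ ∣ Nat.card K := by
      rw [Nat.card_eq_fintype_card, hcard]
      exact dvd_pow_self _ n.ne_zero
    rw [h1]
    intro h4
    have h5 : ℓ ∣ 1 := (Nat.dvd_add_right h3).1 h4
    exact hp.one_lt.ne' (Nat.dvd_one.mp h5)
  let _ : MulAction P (OnePoint K) :=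
    MulAction.compHom (OnePoint K) ((actP K).comp (P : Subgroup (PS K)).subtype)
  obtain ⟨p, hp⟩ := P.isPGroup'.nonempty_fixed_point_of_prime_not_dvd_card (OnePoint K) hc
  have hp' : ∀ s ∈ P, actP K s p = p := fun s hs => hp ⟨s, hs⟩
  obtain ⟨g, hg⟩ := exists_inf p
  refine ⟨g, ?_⟩
  -- the conjugate of `P` by `g⁻¹`
  let R : Subgroup (PS K) := (P : Subgroup (PS K)).map (MulAut.conj g⁻¹).toMonoidHom
  have hR : IsPGroup ℓ R := P.isPGroup'.map _
  have hR1 : R ≤ UU K := by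
    apply le_UU ℓ hR
    rintro _ ⟨s, hs, rfl⟩
    show actP K (g⁻¹ * s * g⁻¹⁻¹) ∞ = ∞
    rw [inv_inv, mul_apply, mul_apply, hg, hp' s hs]
    exact inv_apply_eq hg
  have hU : IsPGroup ℓ (UU K) := by
    rintro ⟨x, hx⟩
    obtain ⟨t, rfl⟩ := mem_UU.1 hx
    exact ⟨1, by
      apply Subtype.ext
      show (uP t) ^ (ℓ ^ 1) = 1
      rw [pow_one]
      exact pow_char ℓ t⟩
  have hP : (P : Subgroup (PS K)) ≤ (UU K).map (MulAut.conj g).toMonoidHom := by
    intro s hs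
    refine ⟨g⁻¹ * s * g, hR1 ⟨s, hs, ?_⟩, ?_⟩
    · show g⁻¹ * s * g⁻¹⁻¹ = _
      rw [inv_inv]
    · show g * (g⁻¹ * s * g) * g⁻¹ = s
      group
  have hmax := P.is_maximal' (hU.map (MulAut.conj g).toMonoidHom) hP
  intro x
  have h1 : x ∈ P ↔ x ∈ (UU K).map (MulAut.conj g).toMonoidHom := by
    rw [hmax]
    rfl
  rw [h1]
  constructor
  · rintro ⟨y, hy, rfl⟩
    obtain ⟨t, rfl⟩ := mem_UU.1 hy
    exact ⟨t, rfl⟩
  · rintro ⟨t, rfl⟩
    exact ⟨uP t, mem_UU.2 ⟨t, rfl⟩, rfl⟩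

theorem wey_conj (t : K) : pr K (wey K) * uP t * (pr K (wey K))⁻¹ = vP (-t) := by
  have h : wey K * uS t = vS (-t) * wey K := by
    apply Subtype.ext
    rw [Matrix.SpecialLinearGroup.coe_mul, Matrix.SpecialLinearGroup.coe_mul]
    simp [uS, vS, wey, Matrix.mul_fin_two]
  rw [mul_inv_eq_iff_eq_mul]
  show pr K (wey K) * pr K (uS t) = pr K (vS (-t)) * pr K (wey K)
  rw [← map_mul, ← map_mul, h]

/-- PSB -/
theorem psb : PsbStmt := by
  intro ℓ _ K _ _ _
  -- the point of a Sylow subgroup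
  have hne : ∀ (P P' : Sylow ℓ (PS K)) (g g' : PS K), (∀ x, x ∈ P ↔ ∃ t : K, x = g * uP t * g⁻¹) →
      (∀ x, x ∈ P' ↔ ∃ t : K, x = g' * uP t * g'⁻¹) → P ≠ P' → actP K g ∞ ≠ actP K g' ∞ := by
    intro P P' g g' h1 h2 h3 h4
    apply h3
    ext x
    exact (h1 x).trans (Iff.trans ⟨conj_iff h4 x, conj_iff h4.symm x⟩ (h2 x).symm)
  refine ⟨?_, ⟨?_, ?_⟩, ?_⟩
  · have h1 : orderOf (uP (1 : K)) = ℓ := by
      apply orderOf_eq_prime (pow_char ℓ 1)
      intro h
      have h2 := actP_uP (1 : K) 0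
      rw [h, map_one] at h2
      have h3 : ((0 : K) : OnePoint K) = ((0 + 1 : K) : OnePoint K) := h2
      rw [coe_eq_coe] at h3
      simp at h3
    rw [← h1]
    exact orderOf_dvd_natCard _
  · intro P P' hPP x hx hx'
    obtain ⟨g, hg⟩ := sylow_eq ℓ P
    obtain ⟨g', hg'⟩ := sylow_eq ℓ P'
    have h1 := hne P P' g g' hg hg' hPP
    obtain ⟨t, ht⟩ := (hg x).1 hx
    obtain ⟨t', ht'⟩ := (hg' x).1 hx'
    -- `g' ∞` is fixed by `x`
    have h2 : actP K x (actP K g' ∞) = actP K g' ∞ := by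
      rw [ht', mul_apply, mul_apply, inv_apply_eq rfl, actP_uP_inf]
    have h3 : actP K (uP t) (actP K (g⁻¹ * g') ∞) = actP K (g⁻¹ * g') ∞ := by
      have h4 : uP t = g⁻¹ * x * g := by rw [ht]; group
      rw [h4, ← mul_apply]
      have h5 : g⁻¹ * x * g * (g⁻¹ * g') = g⁻¹ * (x * g') := by group
      rw [h5, mul_apply, mul_apply, h2, ← mul_apply]
    have h4 : actP K (g⁻¹ * g') ∞ ≠ ∞ := by
      intro h5
      apply h1
      rw [mul_apply] at h5
      have h6 := congrArg (actP K g) h5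
      rw [← mul_apply, mul_inv_cancel, map_one] at h6
      exact h6.symm
    rw [ht]
    generalize hy : actP K (g⁻¹ * g') ∞ = y at h3 h4
    cases y with
    | infty => exact absurd rfl h4
    | coe k => rw [uP_fix h3, mul_one, mul_inv_cancel]
  · intro P P₁ P₂ h1 h2
    obtain ⟨g, hg⟩ := sylow_eq ℓ P
    obtain ⟨g₁, hg₁⟩ := sylow_eq ℓ P₁
    obtain ⟨g₂, hg₂⟩ := sylow_eq ℓ P₂
    have hh : ∀ g' : PS K, actP K g' ∞ ≠ actP K g ∞ → actP K (g⁻¹ * g') ∞ ≠ ∞ := by
      intro g' h3 h5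
      apply h3
      rw [mul_apply] at h5
      have h6 := congrArg (actP K g) h5
      rw [← mul_apply, mul_inv_cancel, map_one] at h6
      exact h6
    obtain ⟨a, ha⟩ := exists_coe (hh g₁ (hne P₁ P g₁ g hg₁ hg h1))
      (hh g₂ (hne P₂ P g₂ g hg₂ hg h2))
    refine ⟨g * uP a * g⁻¹, (hg _).2 ⟨a, rfl⟩, ?_⟩
    have h3 : actP K (g * uP a * g⁻¹ * g₁) ∞ = actP K g₂ ∞ := by
      have h4 : g * uP a * g⁻¹ * g₁ = g * (uP a * (g⁻¹ * g₁)) := by group
      rw [h4, mul_apply, mul_apply, ha, ← mul_apply]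
      congr 2
      group
    intro x
    rw [hg₂, hg₁]
    constructor
    · intro h5
      obtain ⟨t, ht⟩ := conj_iff h3.symm x h5
      exact ⟨t, by rw [ht]; group⟩
    · rintro ⟨t, ht⟩
      apply conj_iff h3 x
      refine ⟨t, ?_⟩
      have h6 : x = (g * uP a * g⁻¹) * ((g * uP a * g⁻¹)⁻¹ * x * (g * uP a * g⁻¹)) *
        (g * uP a * g⁻¹)⁻¹ := by group
      rw [h6, ht]
      group
  · intro P₁ P₂ h1
    obtain ⟨g₁, hg₁⟩ := sylow_eq ℓ P₁
    obtain ⟨g₂, hg₂⟩ := sylow_eq ℓ P₂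
    have h2 := hne P₁ P₂ g₁ g₂ hg₁ hg₂ h1
    have h3 : actP K (g₁⁻¹ * g₂) ∞ ≠ ∞ := by
      intro h5
      apply h2
      rw [mul_apply] at h5
      have h6 := congrArg (actP K g₁) h5
      rw [← mul_apply, mul_inv_cancel, map_one] at h6
      exact h6.symm
    obtain ⟨a, ha⟩ := exists_coe (coe_ne_infty (0 : K)) h3
    refine ⟨g₁ * uP a, ?_, ?_⟩
    · intro x
      rw [hg₁]
      have h4 : actP K g₁ ∞ = actP K (g₁ * uP a) ∞ := by rw [mul_apply, actP_uP_inf]
      exact ⟨conj_iff h4 x, conj_iff h4.symm x⟩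
    · intro x
      rw [hg₂]
      have h4 : actP K (g₁ * uP a * pr K (wey K)) ∞ = actP K g₂ ∞ := by
        rw [mul_apply, mul_apply, wey_inf, ha, ← mul_apply]
        congr 2
        group
      constructor
      · intro h5
        obtain ⟨t, ht⟩ := conj_iff h4.symm x h5
        refine ⟨-t, ?_⟩
        rw [← wey_conj, ht]
        group
      · rintro ⟨t, ht⟩
        apply conj_iff h4 x
        refine ⟨-t, ?_⟩
        have h7 := wey_conj (-t)
        rw [neg_neg] at h7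
        rw [ht, ← h7]
        group

end Pool.Agent.PP.X2.H71
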