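import Pool.Agent.Helper12_AWB.B100

/-! Copy (generated) of the module `Pool.Agent.Helper57_X2.Psd` with import lines for the bundle Helper12_AWB. -/

/-! # AWC X2F: module PSD -/

open Matrix

noncomputable section

namespace Pool.Agent.PP.X2.H57

open Pool.Agent.PP.X2

variable {K : Type} [Field K]

/-- the embedding of `SL_2(K₀)` twisted by `diag(d, 1)` -/
def tw (K₀ : Subfield K) (d : K) (hd : d ≠ 0) :
    Matrix.SpecialLinearGroup (Fin 2) K₀ →* Matrix.SpecialLinearGroup (Fin 2) K where
  toFun M := ⟨!![(M.1 0 0 : K), d * (M.1 0 1 : K); d⁻¹ * (M.1 1 0 : K), (M.1 1 1 : K)], by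
    have h := M.2
    rw [Matrix.det_fin_two] at h
    have h' := congrArg (fun x : K₀ => (x : K)) h
    simp only [Subfield.coe_sub, Subfield.coe_mul, Subfield.coe_one] at h'
    rw [Matrix.det_fin_two_of, ← h']
    field_simp⟩
  map_one' := by
    ext i j
    fin_cases i <;> fin_cases j <;> simp
  map_mul' A B := by
    ext i j
    fin_cases i <;> fin_cases j <;>
      simp [Matrix.mul_apply, Fin.sum_univ_two, Matrix.SpecialLinearGroup.coe_mul] <;>
      field_simp

theorem tw_trans01 (K₀ : Subfield K) (d : K) (hd : d ≠ 0) (x : K₀) :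
    tw K₀ d hd (uS x) = uS (d * (x : K)) := by
  ext i j
  fin_cases i <;> fin_cases j <;> simp [tw, uS]

theorem tw_trans10 (K₀ : Subfield K) (d : K) (hd : d ≠ 0) (x : K₀) :
    tw K₀ d hd (vS x) = vS (d⁻¹ * (x : K)) := by
  ext i j
  fin_cases i <;> fin_cases j <;> simp [tw, vS]

/-- the homomorphism to `PSL_2(K)` -/
def twP (K₀ : Subfield K) (d : K) (hd : d ≠ 0) :
    Matrix.SpecialLinearGroup (Fin 2) K₀ →* PS K :=
  (QuotientGroup.mk' (Subgroup.center (Matrix.SpecialLinearGroup (Fin 2) K))).comp (tw K₀ d hd)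

theorem center_iff {F : Type} [Field F] (M : Matrix.SpecialLinearGroup (Fin 2) F) :
    M ∈ Subgroup.center (Matrix.SpecialLinearGroup (Fin 2) F) ↔
      M.1 0 1 = 0 ∧ M.1 1 0 = 0 ∧ M.1 0 0 = M.1 1 1 := by
  rw [Matrix.SpecialLinearGroup.mem_center_iff]
  constructor
  · rintro ⟨r, _, hr⟩
    have h := fun i j => congrFun (congrFun hr i) j
    refine ⟨?_, ?_, ?_⟩
    · have := h 0 1
      simpa using this.symm
    · have := h 1 0
      simpa using this.symm
    · have h0 := h 0 0
      have h1 := h 1 1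
      simp at h0 h1
      exact h0.symm.trans h1
  · rintro ⟨h1, h2, h3⟩
    refine ⟨M.1 0 0, ?_, ?_⟩
    · have h := M.2
      rw [Matrix.det_fin_two, h1, h2, ← h3] at h
      simp only [Fintype.card_fin]
      rw [sq]
      simpa using h
    · ext i j
      fin_cases i <;> fin_cases j
      · simp
      · simpa using h1.symm
      · simpa using h2.symm
      · simpa using h3

theorem twP_ker (K₀ : Subfield K) (d : K) (hd : d ≠ 0) :
    (twP K₀ d hd).ker = Subgroup.center (Matrix.SpecialLinearGroup (Fin 2) K₀) := by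
  ext M
  rw [MonoidHom.mem_ker, twP, MonoidHom.comp_apply, QuotientGroup.mk'_apply,
    QuotientGroup.eq_one_iff, center_iff, center_iff]
  constructor
  · rintro ⟨h1, h2, h3⟩
    refine ⟨?_, ?_, ?_⟩
    · have h1' : d * (M.1 0 1 : K) = 0 := h1
      have := (mul_eq_zero.1 h1').resolve_left hd
      exact_mod_cast this
    · have h2' : d⁻¹ * (M.1 1 0 : K) = 0 := h2
      have := (mul_eq_zero.1 h2').resolve_left (inv_ne_zero hd)
      exact_mod_cast this
    · have h3' : (M.1 0 0 : K) = (M.1 1 1 : K) := h3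
      exact_mod_cast h3'
  · rintro ⟨h1, h2, h3⟩
    refine ⟨?_, ?_, ?_⟩
    · change d * (M.1 0 1 : K) = 0
      rw [h1]; simp
    · change d⁻¹ * (M.1 1 0 : K) = 0
      rw [h2]; simp
    · change (M.1 0 0 : K) = (M.1 1 1 : K)
      rw [h3]

theorem twP_range (K₀ : Subfield K) (d : K) (hd : d ≠ 0) :
    (twP K₀ d hd).range =
      Subgroup.closure {z : PS K | ∃ x ∈ K₀, z = uP (d * x) ∨ z = vP (d⁻¹ * x)} := by
  apply le_antisymm
  · rintro _ ⟨M, rfl⟩
    refine Matrix.SL2.transvection_induction
      (fun M => twP K₀ d hd M ∈ Subgroup.closure {z : PS K | ∃ x ∈ K₀, z = uP (d * x) ∨ z = vP (d⁻¹ * x)})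
      (fun i j hij a => ?_) (fun A B hA hB => ?_) M
    · apply Subgroup.subset_closure
      refine ⟨(a : K), a.2, ?_⟩
      fin_cases i <;> fin_cases j
      · exact absurd rfl hij
      · left
        have : Matrix.SpecialLinearGroup.transvection hij a = uS a := by
          ext i j
          fin_cases i <;> fin_cases j <;> simp [uS, Matrix.SpecialLinearGroup.transvection_coe]
        change twP K₀ d hd (Matrix.SpecialLinearGroup.transvection hij a) = _
        rw [this, twP, MonoidHom.comp_apply, tw_trans01]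
        rfl
      · right
        have : Matrix.SpecialLinearGroup.transvection hij a = vS a := by
          ext i j
          fin_cases i <;> fin_cases j <;> simp [vS, Matrix.SpecialLinearGroup.transvection_coe]
        change twP K₀ d hd (Matrix.SpecialLinearGroup.transvection hij a) = _
        rw [this, twP, MonoidHom.comp_apply, tw_trans10]
        rfl
      · exact absurd rfl hij
    · rw [map_mul]
      exact Subgroup.mul_mem _ hA hB
  · rw [Subgroup.closure_le]
    rintro z ⟨x, hx, rfl | rfl⟩
    · refine ⟨uS (⟨x, hx⟩ : K₀), ?_⟩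
      rw [twP, MonoidHom.comp_apply, tw_trans01]
      rfl
    · refine ⟨vS (⟨x, hx⟩ : K₀), ?_⟩
      rw [twP, MonoidHom.comp_apply, tw_trans10]
      rfl

theorem psd : PsdStmt := by
  intro K _ K₀ d hd
  rw [← twP_range K₀ d hd]
  exact ⟨((QuotientGroup.quotientMulEquivOfEq (twP_ker K₀ d hd)).symm.trans
    (QuotientGroup.quotientKerEquivRange (twP K₀ d hd))).symm⟩

end Pool.Agent.PP.X2.H57
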