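import Pool.Agent.Helper12_AWB.B100

/-! Copy (generated) of the module `Pool.Agent.Helper57_X2.Pse` with import lines for the bundle Helper12_AWB. -/

/-! # AWC X2F: module PSE -/

open Matrix

noncomputable section

namespace Pool.Agent.PP.X2.H57

open Pool.Agent.PP.X2 Pool.Agent.Helper51_AWC Pool.Agent.Helper79_WRA Pool.Agent.PP

theorem uP_zero {K : Type} [Field K] : (uP (0 : K)) = 1 := by
  have : (uS (0 : K)) = 1 := by
    ext i j
    fin_cases i <;> fin_cases j <;> simp [uS]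
  rw [uP, this, map_one]

theorem pse (hRKF : RkfStmt) (hPSB : PsbStmt) (hPSC : PscStmt) (hPSD : PsdStmt) : PsqStmt := by
  intro ℓ hℓ K _ _ _ Q hQ
  obtain ⟨hdvd, htr, hsy⟩ := hPSB ℓ K
  rcases hRKF ℓ (PS K) hdvd htr Q hQ with h | ⟨P₁, P₂, hne, hs1, hs2, hO, hn⟩
  · exact Or.inl h
  right
  obtain ⟨g, hg1, hg2⟩ := hsy P₁ P₂ hne
  -- a fixed unipotent element
  obtain ⟨d, hd0, hd⟩ : ∃ d : K, d ≠ 0 ∧ ∀ α ∈ Q, α (g * uP d * g⁻¹) = g * uP d * g⁻¹ := by
    letI : MulAction Q P₁ :=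
      { smul := fun q x => ⟨(q : MulAut (PS K)) x, hs1 q q.2 x x.2⟩
        one_smul := fun x => Subtype.ext rfl
        mul_smul := fun a b x => Subtype.ext rfl }
    have hP : ℓ ∣ Nat.card P₁ := P₁.dvd_card_of_dvd_card hdvd
    have h1 : (1 : P₁) ∈ MulAction.fixedPoints Q P₁ := fun q => Subtype.ext (map_one _)
    obtain ⟨b, hb, hb1⟩ := hQ.exists_fixed_point_of_prime_dvd_card_of_fixed_point P₁ hP h1
    obtain ⟨d, hd⟩ := (hg1 b).1 b.2
    refine ⟨d, ?_, ?_⟩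
    · rintro rfl
      apply hb1
      apply Subtype.ext
      rw [hd, uP_zero]
      simp
    · intro α hα
      rw [← hd]
      exact congrArg Subtype.val (hb ⟨α, hα⟩)
  -- the conjugate group
  set Q' : Subgroup (MulAut (PS K)) := Q.map (MulAut.conj (MulAut.conj g)⁻¹).toMonoidHom with hQ'
  have happ : ∀ (α : MulAut (PS K)) (z : PS K),
      (MulAut.conj (MulAut.conj g)⁻¹ α) z = g⁻¹ * α (g * z * g⁻¹) * g := by
    intro α z
    rw [MulAut.conj_apply, inv_inv, MulAut.mul_apply, MulAut.mul_apply, MulAut.conj_inv_apply,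
      MulAut.conj_apply]
  have hfix : ∀ z : PS K, (∀ α' ∈ Q', α' z = z) ↔ ∀ α ∈ Q, α (g * z * g⁻¹) = g * z * g⁻¹ := by
    intro z
    constructor
    · intro h α hα
      have h1 := h _ (Subgroup.mem_map_of_mem _ hα)
      have h2 : g⁻¹ * α (g * z * g⁻¹) * g = z := (happ α z).symm.trans h1
      calc α (g * z * g⁻¹) = g * (g⁻¹ * α (g * z * g⁻¹) * g) * g⁻¹ := by group
        _ = g * z * g⁻¹ := by rw [h2]
    · rintro h _ ⟨α, hα, rfl⟩
      have : (MulAut.conj (MulAut.conj g)⁻¹ α) z = z := by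
        rw [happ, h α hα]
        group
      exact this
  have hu : ∀ α' ∈ Q', ∀ x : K, ∃ y : K, α' (uP x) = uP y := by
    rintro _ ⟨α, hα, rfl⟩ x
    obtain ⟨y, hy⟩ := (hg1 _).1 (hs1 α hα _ ((hg1 (g * uP x * g⁻¹)).2 ⟨x, rfl⟩))
    refine ⟨y, ?_⟩
    have : (MulAut.conj (MulAut.conj g)⁻¹ α) (uP x) = uP y := by
      rw [happ, hy]
      group
    exact this
  have hv : ∀ α' ∈ Q', ∀ x : K, ∃ y : K, α' (vP x) = vP y := by
    rintro _ ⟨α, hα, rfl⟩ x
    obtain ⟨y, hy⟩ := (hg2 _).1 (hs2 α hα _ ((hg2 (g * vP x * g⁻¹)).2 ⟨x, rfl⟩))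
    refine ⟨y, ?_⟩
    have : (MulAut.conj (MulAut.conj g)⁻¹ α) (vP x) = vP y := by
      rw [happ, hy]
      group
    exact this
  obtain ⟨K₀, hK1, hK2⟩ := hPSC K Q' hu hv d hd0 ((hfix _).2 hd)
  -- the intersections
  have hC1 : ∀ z : PS K, z ∈ fixN Q ⊓ (P₁ : Subgroup (PS K)) ↔
      ∃ x ∈ K₀, z = g * uP (d * x) * g⁻¹ := by
    intro z
    constructor
    · rintro ⟨hz1, hz2⟩
      obtain ⟨t, ht⟩ := (hg1 z).1 hz2
      have hdt : d * (d⁻¹ * t) = t := by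
        rw [← mul_assoc, mul_inv_cancel₀ hd0, one_mul]
      refine ⟨d⁻¹ * t, ?_, ?_⟩
      · rw [← hK1, hdt, hfix, ← ht]
        exact hz1
      · rw [hdt]
        exact ht
    · rintro ⟨x, hx, rfl⟩
      refine ⟨?_, (hg1 _).2 ⟨_, rfl⟩⟩
      exact (hfix _).1 ((hK1 x).2 hx)
  have hC2 : ∀ z : PS K, z ∈ fixN Q ⊓ (P₂ : Subgroup (PS K)) ↔
      ∃ x ∈ K₀, z = g * vP (d⁻¹ * x) * g⁻¹ := by
    intro z
    constructor
    · rintro ⟨hz1, hz2⟩
      obtain ⟨t, ht⟩ := (hg2 z).1 hz2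
      have hdt : d⁻¹ * (d * t) = t := by
        rw [← mul_assoc, inv_mul_cancel₀ hd0, one_mul]
      refine ⟨d * t, ?_, ?_⟩
      · rw [← hK2, hdt, hfix, ← ht]
        exact hz1
      · rw [hdt]
        exact ht
    · rintro ⟨x, hx, rfl⟩
      refine ⟨?_, (hg2 _).2 ⟨_, rfl⟩⟩
      exact (hfix _).1 ((hK2 x).2 hx)
  by_cases h4 : 4 ≤ Nat.card K₀
  · right
    refine ⟨K₀, inferInstance, inferInstance, ?_, h4, ?_⟩
    · exact RingHom.charP (algebraMap K₀ K) (algebraMap K₀ K).injective ℓ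
    · obtain ⟨e⟩ := hPSD K K₀ d hd0
      have hT : (Oup ℓ (fixN Q)).map (fixN Q).subtype =
          (Subgroup.closure {z : PS K | ∃ x ∈ K₀, z = uP (d * x) ∨ z = vP (d⁻¹ * x)}).map
            (MulAut.conj g).toMonoidHom := by
        rw [hO]
        apply le_antisymm
        · apply sup_le
          · intro z hz
            obtain ⟨x, hx, rfl⟩ := (hC1 z).1 hz
            exact ⟨uP (d * x), Subgroup.subset_closure ⟨x, hx, Or.inl rfl⟩, rfl⟩
          · intro z hz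
            obtain ⟨x, hx, rfl⟩ := (hC2 z).1 hz
            exact ⟨vP (d⁻¹ * x), Subgroup.subset_closure ⟨x, hx, Or.inr rfl⟩, rfl⟩
        · rw [MonoidHom.map_closure, Subgroup.closure_le]
          rintro _ ⟨z, ⟨x, hx, rfl | rfl⟩, rfl⟩
          · exact Subgroup.mem_sup_left ((hC1 _).2 ⟨x, hx, rfl⟩)
          · exact Subgroup.mem_sup_right ((hC2 _).2 ⟨x, hx, rfl⟩)
      have e1 := (Oup ℓ (fixN Q)).equivMapOfInjective (fixN Q).subtype
        (fixN Q).subtype_injective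
      have e2 := (Subgroup.closure {z : PS K | ∃ x ∈ K₀, z = uP (d * x) ∨ z = vP (d⁻¹ * x)}).equivMapOfInjective
        (MulAut.conj g).toMonoidHom (MulAut.conj g).injective
      exact ⟨e1.trans ((MulEquiv.subgroupCongr hT).trans (e2.symm.trans e))⟩
  · left
    intro hdv
    apply h4
    have h22 : 4 ≤ ℓ ^ 2 := by
      have := hℓ.out.two_le
      nlinarith
    rcases hn 2 hdv with h | h
    · have hsurj : Function.Surjective (fun x : K₀ =>
          (⟨g * uP (d * (x : K)) * g⁻¹, (hC1 _).2 ⟨x, x.2, rfl⟩⟩ :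
            (fixN Q ⊓ (P₁ : Subgroup (PS K)) : Subgroup (PS K)))) := by
        rintro ⟨z, hz⟩
        obtain ⟨x, hx, hzx⟩ := (hC1 z).1 hz
        exact ⟨⟨x, hx⟩, Subtype.ext hzx.symm⟩
      have h1 := Nat.card_le_card_of_surjective _ hsurj
      have h2 := Nat.le_of_dvd Nat.card_pos h
      omega
    · have hsurj : Function.Surjective (fun x : K₀ =>
          (⟨g * vP (d⁻¹ * (x : K)) * g⁻¹, (hC2 _).2 ⟨x, x.2, rfl⟩⟩ :
            (fixN Q ⊓ (P₂ : Subgroup (PS K)) : Subgroup (PS K)))) := by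
        rintro ⟨z, hz⟩
        obtain ⟨x, hx, hzx⟩ := (hC2 z).1 hz
        exact ⟨⟨x, hx⟩, Subtype.ext hzx.symm⟩
      have h1 := Nat.card_le_card_of_surjective _ hsurj
      have h2 := Nat.le_of_dvd Nat.card_pos h
      omega

end Pool.Agent.PP.X2.H57
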