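import Pool.Agent.Helper12_AWB.B100

/-! Copy (generated) of the module `Pool.Agent.Helper48_X2.Rkf` with import lines for the bundle Helper12_AWB. -/

/-!
# RKF: fixed points of an `ℓ`-group of automorphisms of a group with the property `TrS`
-/

open scoped Pointwise

noncomputable section

namespace Pool.Agent.PP.X2.H48

open Pool.Agent.Helper51_AWC Pool.Agent.Helper79_WRA Pool.Agent.PP Pool.Agent.PP.X2

variable {S : Type} [Group S]

/-- `P` is stable under `Q` -/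
def Stab {ℓ : ℕ} (Q : Subgroup (MulAut S)) (P : Sylow ℓ S) : Prop := ∀ α ∈ Q, ∀ x ∈ P, α x ∈ P

lemma mem_smulS {ℓ : ℕ} (α : MulAut S) (P : Sylow ℓ S) (x : S) :
    x ∈ α • P ↔ α⁻¹ x ∈ P :=
  Subgroup.mem_pointwise_smul_iff_inv_smul_mem (S := (P : Subgroup S))

lemma smul_eq_of_stab {ℓ : ℕ} {Q : Subgroup (MulAut S)} {P : Sylow ℓ S} (h : Stab Q P)
    {α : MulAut S} (hα : α ∈ Q) : α • P = P := by
  apply SetLike.ext
  intro x
  rw [mem_smulS]
  constructor
  · intro hx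
    have h1 := h α hα _ hx
    rw [MulAut.apply_inv_self] at h1
    exact h1
  · intro hx
    exact h α⁻¹ (Q.inv_mem hα) x hx

lemma stab_of_smul {ℓ : ℕ} {Q : Subgroup (MulAut S)} {P : Sylow ℓ S}
    (h : ∀ α ∈ Q, α • P = P) : Stab Q P := by
  intro α hα x hx
  have h1 : α x ∈ α • P := by
    rw [mem_smulS, MulAut.inv_apply_self]
    exact hx
  rw [h α hα] at h1
  exact h1

lemma stab_iff_fixed {ℓ : ℕ} {Q : Subgroup (MulAut S)} {P : Sylow ℓ S} :
    P ∈ MulAction.fixedPoints Q (Sylow ℓ S) ↔ Stab Q P := by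
  constructor
  · intro h
    apply stab_of_smul
    intro α hα
    exact h ⟨α, hα⟩
  · intro h q
    exact smul_eq_of_stab h q.2

lemma exists_stab {ℓ : ℕ} [Fact ℓ.Prime] [Finite S] {Q : Subgroup (MulAut S)}
    (hQ : IsPGroup ℓ Q) : ∃ P : Sylow ℓ S, Stab Q P := by
  obtain ⟨P, hP⟩ := hQ.nonempty_fixed_point_of_prime_not_dvd_card (Sylow ℓ S)
    (not_dvd_card_sylow ℓ S)
  exact ⟨P, stab_iff_fixed.mp hP⟩

/-- an `ℓ`-group acting on an `ℓ`-group `≠ 1` has a fixed point `≠ 1` -/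
lemma exists_fixed {ℓ : ℕ} [Fact ℓ.Prime] [Finite S] (hd : ℓ ∣ Nat.card S)
    {Q : Subgroup (MulAut S)} (hQ : IsPGroup ℓ Q) {P : Sylow ℓ S} (hP : Stab Q P) :
    ∃ x ∈ P, x ≠ 1 ∧ x ∈ fixN Q := by
  let act : MulAction Q P :=
    { smul := fun q x => ⟨(q : MulAut S) x, hP q q.2 x x.2⟩
      one_smul := fun x => Subtype.ext rfl
      mul_smul := fun q q' x => Subtype.ext rfl }
  have h1 : ℓ ∣ Nat.card P := P.dvd_card_of_dvd_card hd
  have h2 : (1 : P) ∈ MulAction.fixedPoints Q P := by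
    intro q
    apply Subtype.ext
    show (q : MulAut S) 1 = 1
    exact map_one _
  obtain ⟨x, hx, hne⟩ := hQ.exists_fixed_point_of_prime_dvd_card_of_fixed_point P h1 h2
  refine ⟨x, x.2, ?_, ?_⟩
  · intro h
    exact hne (Subtype.ext h.symm)
  · intro α hα
    exact congrArg Subtype.val (hx ⟨α, hα⟩)

/-- Case A -/
lemma caseA {ℓ : ℕ} [Fact ℓ.Prime] [Finite S] (hd : ℓ ∣ Nat.card S)
    {Q : Subgroup (MulAut S)} (hQ : IsPGroup ℓ Q) {P : Sylow ℓ S} (hP : Stab Q P)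
    (hu : ∀ P' : Sylow ℓ S, Stab Q P' → P' = P) : opCore ℓ (fixN Q) ≠ ⊥ := by
  obtain ⟨x, hx, hx1, hxC⟩ := exists_fixed hd hQ hP
  obtain ⟨N, hN⟩ : ∃ N : Subgroup (fixN Q), N = (P : Subgroup S).comap (fixN Q).subtype := ⟨_, rfl⟩
  have hmem : ∀ c : fixN Q, c ∈ N ↔ (c : S) ∈ P := by
    intro c
    rw [hN]
    exact Iff.rfl
  have hnorm : N.Normal := by
    refine ⟨fun y hy c => ?_⟩
    rw [hmem] at hy ⊢
    have h1 : Stab Q (MulAut.conj (c : S) • P) := by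
      intro α hα z hz
      rw [mem_smulS] at hz ⊢
      have h2 : (MulAut.conj (c : S))⁻¹ (α z) = α ((MulAut.conj (c : S))⁻¹ z) := by
        have h3 : α (c : S) = c := c.2 α hα
        rw [← map_inv, MulAut.conj_apply, MulAut.conj_apply, map_mul, map_mul, inv_inv, map_inv,
          h3]
      rw [h2]
      exact hP α hα _ hz
    have h4 := hu _ h1
    have h5 : (c : S) * (y : S) * (c : S)⁻¹ ∈ MulAut.conj (c : S) • P := by
      rw [mem_smulS, ← MulAut.conj_apply, MulAut.inv_apply_self]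
      exact hy
    rw [h4] at h5
    exact h5
  have hpg : IsPGroup ℓ N := by
    rw [hN]
    exact P.isPGroup'.comap_subtype
  have hle : N ≤ opCore ℓ (fixN Q) := by
    unfold opCore
    exact le_sSup ⟨hnorm, hpg⟩
  intro hbot
  rw [hbot, le_bot_iff] at hle
  have h1 : (⟨x, hxC⟩ : fixN Q) ∈ N := (hmem _).mpr hx
  rw [hle, Subgroup.mem_bot] at h1
  exact hx1 (congrArg Subtype.val h1)

/-- (a) -/
lemma caseB_a {ℓ : ℕ} [Fact ℓ.Prime] [Finite S] (hT : TrS ℓ S)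
    {Q : Subgroup (MulAut S)} {P₁ P₂ P₃ : Sylow ℓ S} (h1 : Stab Q P₁) (h2 : Stab Q P₂)
    (h3 : Stab Q P₃) (h12 : P₁ ≠ P₂) (h13 : P₃ ≠ P₁) :
    ∃ u ∈ P₁, u ∈ fixN Q ∧ ∀ x, x ∈ P₃ ↔ u⁻¹ * x * u ∈ P₂ := by
  obtain ⟨u, hu, hux⟩ := hT.2 P₁ P₂ P₃ (Ne.symm h12) h13
  refine ⟨u, hu, ?_, hux⟩
  intro α hα
  have hw1 : u⁻¹ * α u ∈ P₁ := mul_mem (inv_mem hu) (h1 α hα u hu)
  have hnorm : ∀ β ∈ Q, ∀ y ∈ P₂, (u⁻¹ * β u) * y * (u⁻¹ * β u)⁻¹ ∈ P₂ := by
    intro β hβ y hy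
    have h4 : β⁻¹ y ∈ P₂ := h2 β⁻¹ (Q.inv_mem hβ) y hy
    have h5 : u * β⁻¹ y * u⁻¹ ∈ P₃ := by
      rw [hux]
      have : u⁻¹ * (u * β⁻¹ y * u⁻¹) * u = β⁻¹ y := by group
      rw [this]
      exact h4
    have h6 := h3 β hβ _ h5
    rw [map_mul, map_mul, map_inv, MulAut.apply_inv_self, hux] at h6
    have : u⁻¹ * β u * y * (u⁻¹ * β u)⁻¹ = u⁻¹ * (β u * y * (β u)⁻¹) * u := by group
    rw [this]
    exact h6
  have hw2 : u⁻¹ * α u ∈ Subgroup.normalizer (P₂ : Set S) := by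
    rw [← Sylow.smul_eq_iff_mem_normalizer]
    apply SetLike.ext
    intro y
    rw [Sylow.smul_def, mem_smulS, ← map_inv, MulAut.conj_apply, inv_inv]
    constructor
    · intro h
      have h7 := hnorm α hα _ h
      have : u⁻¹ * α u * ((u⁻¹ * α u)⁻¹ * y * (u⁻¹ * α u)) * (u⁻¹ * α u)⁻¹ = y := by group
      rw [this] at h7
      exact h7
    · intro h
      have h4 : α y ∈ P₂ := h2 α hα y h
      -- conjugation by the inverse
      have h5 : u * y * u⁻¹ ∈ P₃ := by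
        rw [hux]
        have : u⁻¹ * (u * y * u⁻¹) * u = y := by group
        rw [this]
        exact h
      have h6 := h3 α⁻¹ (Q.inv_mem hα) _ h5
      rw [map_mul, map_mul, map_inv, hux] at h6
      have h7 := h2 α hα _ h6
      rw [map_mul, map_mul, map_mul, map_mul, map_inv, map_inv, MulAut.apply_inv_self,
        MulAut.apply_inv_self] at h7
      have : (u⁻¹ * α u)⁻¹ * y * (u⁻¹ * α u) = (α u)⁻¹ * (u * y * u⁻¹) * α u := by group
      rw [this]
      exact h7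
  have hw3 : u⁻¹ * α u ∈ (P₁ : Subgroup S) ⊓ Subgroup.normalizer (P₂ : Set S) := ⟨hw1, hw2⟩
  rw [P₁.isPGroup'.inf_normalizer_sylow P₂] at hw3
  have h8 := hT.1 P₁ P₂ h12 _ hw3.1 hw3.2
  have h9 : α u = u := by
    rw [inv_mul_eq_one] at h8
    exact h8.symm
  exact h9

/-- (b) -/
lemma caseB_b {ℓ : ℕ} [Fact ℓ.Prime] [Finite S] (hT : TrS ℓ S)
    {Q : Subgroup (MulAut S)} {P₁ P₂ : Sylow ℓ S} (h1 : Stab Q P₁) (h2 : Stab Q P₂)
    (h12 : P₁ ≠ P₂) (R : Subgroup S) (hR : R ≤ fixN Q) (hp : IsPGroup ℓ R) :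
    R ≤ P₁ ∨ ∃ u ∈ P₁, u ∈ fixN Q ∧ ∀ x ∈ R, u⁻¹ * x * u ∈ P₂ := by
  by_cases hb : R = ⊥
  · left
    rw [hb]
    exact bot_le
  · obtain ⟨x, hx1⟩ := Subgroup.ne_bot_iff_exists_ne_one.mp hb
    obtain ⟨x, hx⟩ := x
    replace hx1 : x ≠ 1 := fun h => hx1 (Subtype.ext h)
    obtain ⟨P₃, hP₃⟩ := hp.exists_le_sylow
    have h3 : Stab Q P₃ := by
      apply stab_of_smul
      intro α hα
      by_contra hne
      have e1 : (x : S) ∈ P₃ := hP₃ hx
      have e2 : (x : S) ∈ α • P₃ := by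
        rw [mem_smulS]
        have e3 : α⁻¹ (x : S) = x := hR hx α⁻¹ (Q.inv_mem hα)
        rw [e3]
        exact e1
      exact hx1 (hT.1 _ _ hne _ e2 e1)
    by_cases h31 : P₃ = P₁
    · left
      rw [← h31]
      exact hP₃
    · right
      obtain ⟨u, hu, huC, hux⟩ := caseB_a hT h1 h2 h3 h12 h31
      exact ⟨u, hu, huC, fun y hy => (hux y).mp (hP₃ hy)⟩

theorem rkf : RkfStmt := by
  intro ℓ _ S _ _ hd hT Q hQ
  obtain ⟨P₁, h1⟩ := exists_stab hQ
  by_cases hu : ∀ P' : Sylow ℓ S, Stab Q P' → P' = P₁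
  · exact Or.inl (caseA hd hQ h1 hu)
  · push Not at hu
    obtain ⟨P₂, h2, h21⟩ := hu
    have h12 : P₁ ≠ P₂ := Ne.symm h21
    refine Or.inr ⟨P₁, P₂, h12, h1, h2, ?_, ?_⟩
    · apply le_antisymm
      · rw [Subgroup.map_le_iff_le_comap]
        unfold Oup
        rw [Subgroup.closure_le]
        rintro x ⟨n, hn⟩
        show (x : S) ∈ (fixN Q ⊓ (P₁ : Subgroup S)) ⊔ (fixN Q ⊓ (P₂ : Subgroup S))
        have hn' : (x : S) ^ ℓ ^ n = 1 := by
          have := congrArg Subtype.val hn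
          exact this
        have hp : IsPGroup ℓ (Subgroup.zpowers (x : S)) := by
          rw [isPGroup_iff_pow_pow_eq_one]
          rintro ⟨g, m, rfl⟩
          refine ⟨n, Subtype.ext ?_⟩
          show ((x : S) ^ m) ^ ℓ ^ n = 1
          rw [← zpow_natCast, ← zpow_mul, mul_comm, zpow_mul, zpow_natCast, hn', one_zpow]
        have hR : Subgroup.zpowers (x : S) ≤ fixN Q := by
          rw [Subgroup.zpowers_le]
          exact x.2
        rcases caseB_b hT h1 h2 h12 _ hR hp with h | ⟨u, hu, huC, h⟩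
        · exact Subgroup.mem_sup_left ⟨x.2, h (Subgroup.mem_zpowers _)⟩
        · have h4 : u⁻¹ * (x : S) * u ∈ fixN Q ⊓ (P₂ : Subgroup S) :=
            ⟨(fixN Q).mul_mem ((fixN Q).mul_mem ((fixN Q).inv_mem huC) x.2) huC,
              h _ (Subgroup.mem_zpowers _)⟩
          have h5 : (x : S) = u * (u⁻¹ * (x : S) * u) * u⁻¹ := by group
          rw [h5]
          have h6 : u ∈ (fixN Q ⊓ (P₁ : Subgroup S)) ⊔ (fixN Q ⊓ (P₂ : Subgroup S)) :=
            Subgroup.mem_sup_left ⟨huC, hu⟩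
          exact mul_mem (mul_mem h6 (Subgroup.mem_sup_right h4)) (inv_mem h6)
      · have h4 : ∀ P : Sylow ℓ S, fixN Q ⊓ (P : Subgroup S) ≤
            (Oup ℓ (fixN Q)).map (fixN Q).subtype := by
          rintro P x ⟨hxC, hxP⟩
          obtain ⟨n, hn⟩ := P.isPGroup' ⟨x, hxP⟩
          have hn' : x ^ ℓ ^ n = 1 := congrArg Subtype.val hn
          refine ⟨⟨x, hxC⟩, Subgroup.subset_closure ⟨n, Subtype.ext hn'⟩, rfl⟩
        exact sup_le (h4 P₁) (h4 P₂)
    · intro n hn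
      obtain ⟨K, hK⟩ := Sylow.exists_subgroup_card_pow_prime (G := fixN Q) ℓ hn
      have hinj : Function.Injective (fixN Q).subtype := Subtype.val_injective
      have hcard : Nat.card (K.map (fixN Q).subtype : Subgroup S) = ℓ ^ n := by
        rw [Subgroup.card_map_of_injective hinj, hK]
      have hp : IsPGroup ℓ (K.map (fixN Q).subtype : Subgroup S) := IsPGroup.of_card hcard
      have hR : (K.map (fixN Q).subtype : Subgroup S) ≤ fixN Q := Subgroup.map_subtype_le K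
      rcases caseB_b hT h1 h2 h12 _ hR hp with h | ⟨u, hu, huC, h⟩
      · left
        rw [← hcard]
        exact Subgroup.card_dvd_of_le (le_inf hR h)
      · right
        have hcard2 : Nat.card ((K.map (fixN Q).subtype).map (MulAut.conj u⁻¹).toMonoidHom :
            Subgroup S) = ℓ ^ n := by
          rw [Subgroup.card_map_of_injective (MulAut.conj u⁻¹).injective, hcard]
        rw [← hcard2]
        apply Subgroup.card_dvd_of_le
        rintro _ ⟨y, hy, rfl⟩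
        have e1 : (MulAut.conj u⁻¹).toMonoidHom y = u⁻¹ * y * u := by
          show MulAut.conj u⁻¹ y = _
          rw [MulAut.conj_apply, inv_inv]
        rw [e1]
        exact ⟨(fixN Q).mul_mem ((fixN Q).mul_mem ((fixN Q).inv_mem huC) (hR hy)) huC, h y hy⟩

end Pool.Agent.PP.X2.H48
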