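import Pool.Agent.Helper66_AWS.S081
import Pool.Agent.Helper12_AWB.B100
import Pool.Agent.Helper66_AWS.S082
import Pool.Agent.Helper66_AWS.S083
import Pool.Agent.Helper66_AWS.S084
import Pool.Agent.Helper66_AWS.S085
import Pool.Agent.Helper66_AWS.S086
import Pool.Agent.Helper66_AWS.S087
import Pool.Agent.Helper66_AWS.S088

/-! Copy (generated) of the module `Pool.Agent.Helper18_X2.AsmD` with import lines for the bundle Helper12_AWB. -/

set_option autoImplicit false

/-!
Assembly of the modules on the closed family (`StmtsF.lean`): `ClfStmt` without hypotheses.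
-/

namespace Pool.Agent.PP.X2.A

open Pool.Agent.PP.X2

theorem psq_ : PsqStmt := H57.pse H48.rkf H71.psb H9.psc H57.psd

theorem clf_ : ClfStmt := H24.clf H18.cys psq_ H71.psb

end Pool.Agent.PP.X2.A
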