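import Pool.Agent.Helper66_AWS.S074
import Pool.Agent.Helper12_AWB.B100

/-! Copy (generated) of the module `Pool.Agent.Helper18_X2.FamL` with import lines for the bundle Helper12_AWB. -/

/-!
# AWC, part X1: the nearly simple groups over groups of Lie type, in terms of characters
-/

open scoped BigOperators

noncomputable section

namespace Pool.Agent.PP.X2.H18

open Pool.Agent.Helper51_AWC Pool.Agent.Helper79_WRA Pool.Agent.PP Pool.Agent.PP.BN

/-- the alternating sum vanishes for the nearly simple groups whose simple group is of Lie type in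
characteristic `ℓ` -/
theorem famL (nsx : X1.NsxStmt) : ∀ (ℓ : ℕ), ℓ.Prime →
    ∀ (M : Ideal (integralClosure ℤ ℂ)) [M.IsMaximal], (ℓ : integralClosure ℤ ℂ) ∈ M →
    ∀ (S : Type) [Group S] [Finite S], NonabSimple S → ℓ ∣ Nat.card S → X1.LieType ℓ S →
    ∀ (D : Type) [Group D] [Finite D], opCore ℓ D = ⊥ → NearlySimpleL ℓ D S →
    ∀ χ ∈ Irr D, LargeDefect ℓ M χ → altSum ℓ M χ = 0 := by
  intro ℓ hℓ M _ hM S _ _ hS hl hR D _ _ hO hD χ hχ hL
  let _ := Ideal.Quotient.field M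
  have hfact := Fact.mk hℓ
  have hF : GoodF ℓ (FF M) := H50.fld ℓ hℓ M hM
  obtain ⟨e, he, h1, h2⟩ := H50.bid ℓ hℓ M hM D χ hχ
  have hpos : Pos ℓ e ⊤ := (H50.ldp ℓ hℓ M hM D hO χ hχ e he h1).1 hL
  have hker : (MonoidHom.id D).ker = opCore ℓ D := by
    rw [hO, MonoidHom.ker_id]
  have hkp : IsPGroup ℓ (MonoidHom.id D).ker := by
    rw [MonoidHom.ker_id]
    exact IsPGroup.of_bot
  have hkc : (MonoidHom.id D).ker ≤ Subgroup.center D := by
    rw [MonoidHom.ker_id]
    exact bot_le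
  have h3 := Pool.Agent.PP.H75.altSum_central H20.nls H20.brm H63.smt H94.nch
    (H50.dic H20.ibn H20.nls H20.brm) hℓ M hM hF (p := MonoidHom.id D)
    Function.surjective_id hker hkp hkc χ hχ e he h1 h2
  rw [MonoidHom.ker_id, Subgroup.card_bot, Pool.Agent.PP.H75.push_id, Nat.cast_one, one_pow,
    one_mul] at h3
  have h4 : YY ℓ (⊤ : Subgroup D) e = 0 := by
    obtain ⟨ζ, hζ⟩ := BN.H66.blk_over hF (H27.center_cop hℓ hO) he
    exact nsx ℓ (FF M) hF S hS hl hR D hO hD e he.1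
      (fun z hz _ => ⟨ζ ⟨z, hz⟩, fun x => hζ ⟨z, hz⟩ x⟩) hpos
  rw [h4] at h3
  rcases mul_eq_zero.1 h3 with h | h
  · exact absurd h (by exact_mod_cast (Nat.card_pos (α := D)).ne')
  · exact h

/-- root group data and isomorphisms -/
theorem lie_equiv (quo : X1.QuoStmt) {ℓ : ℕ} {S T : Type} [Group S] [Group T] (e : S ≃* T)
    (h : X1.LieType ℓ S) : X1.LieType ℓ T := by
  obtain ⟨R⟩ := h
  refine quo ℓ S T R e.toMonoidHom e.surjective ?_
  intro x hx
  have h1 : e x = 1 := hx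
  have h2 : x = 1 := e.injective (by rw [h1, map_one])
  rw [h2]
  exact R.T.one_mem

/-- the simple groups of Lie type in characteristic `ℓ` contain the groups `PSL_n(K)` -/
theorem psl_lie (quo : X1.QuoStmt) (sln : X1.SlnStmt) (ℓ : ℕ) [Fact ℓ.Prime] (K : Type) [Field K]
    [Finite K] [CharP K ℓ] (n : ℕ) :
    X1.LieType ℓ (Matrix.ProjectiveSpecialLinearGroup (Fin (n + 1)) K) := by
  obtain ⟨R, hR⟩ := sln ℓ K n
  refine quo ℓ _ _ R (QuotientGroup.mk' (Subgroup.center
    (Matrix.SpecialLinearGroup (Fin (n + 1)) K))) (QuotientGroup.mk'_surjective _) ?_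
  rw [QuotientGroup.ker_mk']
  exact hR

end Pool.Agent.PP.X2.H18
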