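import Pool.Agent.Helper12_AWB.B100

/-! Copy (generated) of the module `Pool.Agent.Helper20_X1.Par` with import lines for the bundle Helper12_AWB. -/

/-!
# PAR: the parabolic subgroups of a group with a root group datum
-/

open scoped BigOperators

noncomputable section

namespace Pool.Agent.PP.X1.H20

variable {ℓ : ℕ} {G : Type} [Group G] (R : RGD ℓ G)

/-- the coefficient functionals of the simple roots -/
theorem coef (j : Fin R.r) : ∃ φ : R.E →ₗ[ℝ] ℝ, ∀ i, φ (R.a i) = if i = j then 1 else 0 := by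
  classical
  obtain ⟨φ, hφ⟩ := LinearMap.exists_extend
    ((Finsupp.lapply j : (Fin R.r →₀ ℝ) →ₗ[ℝ] ℝ).comp R.base.repr)
  refine ⟨φ, fun i => ?_⟩
  have h0 : R.a i ∈ Submodule.span ℝ (Set.range R.a) := Submodule.subset_span ⟨i, rfl⟩
  have h1 : (φ ∘ₗ (Submodule.span ℝ (Set.range R.a)).subtype) ⟨R.a i, h0⟩ =
      ((Finsupp.lapply j : (Fin R.r →₀ ℝ) →ₗ[ℝ] ℝ).comp R.base.repr) ⟨R.a i, h0⟩ := by
    rw [hφ]
  have h2 : R.base.repr ⟨R.a i, h0⟩ = Finsupp.single i 1 := R.base.repr_eq_single i _ rfl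
  rw [LinearMap.comp_apply, LinearMap.comp_apply, h2, Finsupp.lapply_apply,
    Finsupp.single_apply] at h1
  exact h1

/-- the coefficient of `b` at the simple root `a j` -/
def cf (j : Fin R.r) : R.E →ₗ[ℝ] ℝ := (coef R j).choose

theorem cf_a (j i : Fin R.r) : cf R j (R.a i) = if i = j then 1 else 0 := (coef R j).choose_spec i

theorem cf_sum (j : Fin R.r) (k : Fin R.r → ℝ) : cf R j (∑ i, k i • R.a i) = k j := by
  classical
  rw [map_sum, Finset.sum_eq_single j]
  · rw [map_smul, cf_a, if_pos rfl, smul_eq_mul, mul_one]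
  · intro i _ hi
    rw [map_smul, cf_a, if_neg hi, smul_zero]
  · intro h
    exact absurd (Finset.mem_univ j) h

theorem cf_nn {b : R.E} (h : Nn R.a b) (j : Fin R.r) : 0 ≤ cf R j b := by
  obtain ⟨k, hk, rfl⟩ := h
  rw [cf_sum]
  exact hk j

theorem cf_lev {J : Finset (Fin R.r)} {b : R.E} (h : b ∈ R.lev J) {j : Fin R.r} (hj : j ∉ J) :
    cf R j b = 0 := by
  have h1 := h.2
  have h2 : Submodule.span ℝ (R.a '' (J : Set (Fin R.r))) ≤ LinearMap.ker (cf R j) := by
    rw [Submodule.span_le]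
    rintro _ ⟨i, hi, rfl⟩
    show cf R j (R.a i) = 0
    rw [cf_a, if_neg]
    rintro rfl
    exact hj hi
  exact h2 h1

/-- a nonnegative combination with zero coefficients outside `J` is in the span -/
theorem span_of_cf {J : Finset (Fin R.r)} {b : R.E} (h : Nn R.a b)
    (h0 : ∀ j, j ∉ J → cf R j b = 0) : b ∈ Submodule.span ℝ (R.a '' (J : Set (Fin R.r))) := by
  obtain ⟨k, hk, rfl⟩ := h
  refine Submodule.sum_mem _ fun i _ => ?_
  by_cases hi : i ∈ J
  · exact Submodule.smul_mem _ _ (Submodule.subset_span ⟨i, hi, rfl⟩)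
  · have := h0 i hi
    rw [cf_sum] at this
    rw [this, zero_smul]
    exact Submodule.zero_mem _

theorem pos_lev {J : Finset (Fin R.r)} {b : R.E} (h : b ∈ R.pos \ R.lev J) :
    ∃ j, j ∉ J ∧ 0 < cf R j b := by
  by_contra hc
  push Not at hc
  apply h.2
  refine ⟨h.1.1, span_of_cf R h.1.2 fun j hj => ?_⟩
  exact le_antisymm (hc j hj) (cf_nn R h.1.2 j)

theorem pos_of_cf {J : Finset (Fin R.r)} {b : R.E} (hb : b ∈ R.Φ) {j : Fin R.r} (hj : j ∉ J)
    (h : 0 < cf R j b) : b ∈ R.pos \ R.lev J := by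
  refine ⟨?_, fun h1 => ?_⟩
  · rcases R.pos_or_neg hb with h1 | h1
    · exact h1
    · exfalso
      have := cf_nn R h1.2 j
      rw [map_neg] at this
      linarith
  · have := cf_lev R h1 hj
    linarith

theorem a_not_lev {J : Finset (Fin R.r)} {i : Fin R.r} (hi : i ∉ J) :
    R.a i ∈ R.pos \ R.lev J := by
  apply pos_of_cf R (R.mem i) hi
  rw [cf_a, if_pos rfl]
  exact one_pos

theorem le_normalizer {K H : Subgroup G} (h : ∀ x ∈ K, ∀ y ∈ H, x * y * x⁻¹ ∈ H) :
    K ≤ Subgroup.normalizer (H : Set G) := by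
  intro x hx
  rw [Subgroup.mem_normalizer_iff]
  intro y
  refine ⟨fun hy => h x hx y hy, fun hy => ?_⟩
  have := h x⁻¹ (K.inv_mem hx) _ hy
  have h1 : x⁻¹ * (x * y * x⁻¹) * x⁻¹⁻¹ = y := by group
  rwa [h1] at this

theorem conj_gp {H : Subgroup G} {A : Set R.E} {x : G} (h : ∀ c ∈ A, ∀ y ∈ R.X c, x * y * x⁻¹ ∈ H)
    {y : G} (hy : y ∈ R.gp A) : x * y * x⁻¹ ∈ H := by
  have h2 : R.gp A ≤ H.comap (MulAut.conj x).toMonoidHom := by
    apply R.gp_le
    intro c hc y hy
    rw [Subgroup.mem_comap]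
    exact h c hc y hy
  exact h2 hy

/-- the parabolic subgroup normalises its radical -/
theorem P_norm {J : Finset (Fin R.r)} : R.PJ J ≤ Subgroup.normalizer (R.UJ J : Set G) := by
  apply sup_le
  · apply le_normalizer
    intro t ht x hx
    exact R.T_gp (fun b hb => hb.1.1) ht hx
  · apply R.gp_le
    intro b hb
    apply le_normalizer
    intro x hx y hy
    have hbΦ : b ∈ R.Φ := by
      rcases hb with h | h
      · exact h.1
      · exact h.1
    have hcf : ∀ j, j ∉ J → 0 ≤ cf R j b := by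
      intro j hj
      rcases hb with h | h
      · exact cf_nn R h.2 j
      · exact (cf_lev R h hj).ge
    refine conj_gp R (A := R.pos \ R.lev J) ?_ hy
    intro c hc y hy
    obtain ⟨j, hj, hjc⟩ := pos_lev R hc
    have h1 : x * y * x⁻¹ * y⁻¹ ∈ R.gp (R.pos \ R.lev J) := by
      refine R.comm_gp hbΦ hc.1.1 ?_ ?_ hx hy
      · intro s hs h
        rw [h, map_neg, map_smul, smul_eq_mul] at hjc
        have := mul_nonneg hs.le (hcf j hj)
        linarith
      · intro p q hp hq hpq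
        apply pos_of_cf R hpq hj
        rw [map_add, map_smul, map_smul, smul_eq_mul, smul_eq_mul]
        have h2 := mul_nonneg (zero_le_one.trans hp) (hcf j hj)
        have h3 : 0 < q * cf R j c := mul_pos (by linarith) hjc
        linarith
    have h2 : x * y * x⁻¹ = x * y * x⁻¹ * y⁻¹ * y := by group
    rw [h2]
    exact (R.UJ J).mul_mem h1 (R.X_le_gp hc hy)

theorem P_norm' {J : Finset (Fin R.r)} {g x : G} (hg : g ∈ R.PJ J) (hx : x ∈ R.UJ J) :
    g * x * g⁻¹ ∈ R.UJ J :=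
  (Subgroup.mem_normalizer_iff.mp (P_norm R hg) x).mp hx

theorem UJ_le_U (J : Finset (Fin R.r)) : R.UJ J ≤ R.U := R.gp_mono fun _ h => h.1

theorem B_le_P (J : Finset (Fin R.r)) : R.B ≤ R.PJ J :=
  sup_le_sup_left (R.gp_mono Set.subset_union_left) _

theorem nt' {i : Fin R.r} {w : List (Fin R.r)} (hw : R.sw w (R.a i) ∈ R.neg)
    (h : ∀ x ∈ R.X (R.a i), R.nw w * x * (R.nw w)⁻¹ ∈ R.U) : False := by
  apply R.nt i
  rw [eq_bot_iff]
  intro x hx
  have h1 := h x hx
  have h2 : R.nw w * x * (R.nw w)⁻¹ ∈ R.V :=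
    R.X_le_V hw ((R.X_nw (R.mem i)).mpr hx)
  have h3 : R.nw w * x * (R.nw w)⁻¹ ∈ R.U ⊓ R.V := ⟨h1, h2⟩
  rw [R.U_inf_V, Subgroup.mem_bot] at h3
  rw [Subgroup.mem_bot]
  have h4 : x = (R.nw w)⁻¹ * (R.nw w * x * (R.nw w)⁻¹) * R.nw w := by group
  rw [h4, h3]
  group

theorem neg_neg_pos {b : R.E} (hb : b ∈ R.neg) (hb' : -b ∈ R.Φ) : -b ∈ R.pos := ⟨hb', hb.2⟩

/-- descending induction on words -/
theorem word_induct (dsc : DscStmt) (P : List (Fin R.r) → Prop)
    (h0 : ∀ w, (∀ x, R.sw w x = x) → P w)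
    (h1 : ∀ w i, R.sw w (R.a i) ∈ R.neg → P (w ++ [i]) → P w) : ∀ w, P w := by
  classical
  have key : ∀ n : ℕ, ∀ w : List (Fin R.r), {b | b ∈ R.pos ∧ R.sw w b ∈ R.neg}.ncard ≤ n → P w := by
    intro n
    induction n with
    | zero =>
      intro w hw
      apply h0
      by_contra hc
      push Not at hc
      obtain ⟨i, hi⟩ := (dsc ℓ G R w hc).1
      have hf : {b | b ∈ R.pos ∧ R.sw w b ∈ R.neg}.Finite := R.fin.subset fun b hb => hb.1.1
      have := (Set.ncard_eq_zero hf).mp (Nat.le_zero.mp hw)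
      have h2 : R.a i ∈ {b | b ∈ R.pos ∧ R.sw w b ∈ R.neg} := ⟨R.a_pos i, hi⟩
      rw [this] at h2
      exact h2
    | succ n ih =>
      intro w hw
      by_cases hc : ∀ x, R.sw w x = x
      · exact h0 w hc
      · push Not at hc
        obtain ⟨i, hi⟩ := (dsc ℓ G R w hc).1
        apply h1 w i hi
        apply ih
        have hf : {b | b ∈ R.pos ∧ R.sw w b ∈ R.neg}.Finite := R.fin.subset fun b hb => hb.1.1
        have h2 : (R.s i '' {b | b ∈ R.pos ∧ R.sw (w ++ [i]) b ∈ R.neg}) ⊂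
            {b | b ∈ R.pos ∧ R.sw w b ∈ R.neg} := by
          refine ⟨?_, ?_⟩
          · rintro _ ⟨b, ⟨hb, hb'⟩, rfl⟩
            rw [R.sw_append, R.sw_cons, R.sw_nil] at hb'
            refine ⟨?_, hb'⟩
            by_cases hr : b ∈ R.ray i
            · exfalso
              obtain ⟨hbΦ, c, hc0, rfl⟩ := hr
              rw [R.s_smul, R.s_self, smul_neg, R.sw_neg, R.sw_smul] at hb'
              have h3 := hb'.2
              rw [neg_neg] at h3
              refine R.not_nn_neg (b := c • R.sw w (R.a i)) ?_ h3 ?_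
              · rw [← R.sw_smul]
                exact R.sw_mem hbΦ
              · rw [← smul_neg]
                exact R.nn_smul hc0.le hi.2
            · exact R.s_pos hb hr
          · intro h3
            obtain ⟨b, ⟨hb, hb'⟩, hb2⟩ := h3 (show R.a i ∈ {b | b ∈ R.pos ∧ R.sw w b ∈ R.neg} from
              ⟨R.a_pos i, hi⟩)
            apply R.s_not_ray (i := i) hb
            rw [hb2]
            exact ⟨R.mem i, 1, one_pos, (one_smul _ _).symm⟩
        have h3 := Set.ncard_lt_ncard h2 hf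
        rw [Set.ncard_image_of_injective _ (fun x y h => by
          rw [← R.s_s i x, h, R.s_s])] at h3
        omega
  intro w
  exact key _ w le_rfl

theorem triv_T (wrd : WrdStmt) {w : List (Fin R.r)} (h : ∀ x, R.sw w x = x) : R.nw w ∈ R.T := by
  have := (wrd ℓ G R).2.1 w [] (fun x => h x)
  rw [R.nw_nil, inv_one, one_mul] at this
  exact this

theorem par (lng : LngStmt) (dsc : DscStmt) (wrd : WrdStmt) (fac : FacStmt) (bru : BruhStmt)
    (syl : SylStmt) : ParStmt := by
  classical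
  intro ℓ _ G _ _ R J
  obtain ⟨bru1, bru2, bru3, -, -, bru6⟩ := bru ℓ G R
  have n_mem : ∀ (J : Finset (Fin R.r)) (i : Fin R.r), i ∈ J → R.n i ∈ R.PJ J := by
    intro J i hi
    have := bru1 J [i] (fun j hj => by
      rw [List.mem_singleton] at hj
      rwa [hj])
    rwa [R.nw_cons, R.nw_nil, mul_one] at this
  have cells : ∀ g : G, ∃ w : List (Fin R.r), ∃ b ∈ R.B, ∃ b' ∈ R.B, g = b * R.nw w * b' := by
    intro g
    obtain ⟨w, -, b, hb, b', hb', h⟩ := bru2 Finset.univ g (by rw [bru3]; exact Subgroup.mem_top g)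
    exact ⟨w, b, hb, b', hb', h⟩
  -- (2)
  have p2 : ∀ (J : Finset (Fin R.r)) (g : G), (∀ x ∈ R.UJ J, g * x * g⁻¹ ∈ R.U) → g ∈ R.PJ J := by
    intro J g hg
    have hw : ∀ w : List (Fin R.r), (∀ x ∈ R.UJ J, R.nw w * x * (R.nw w)⁻¹ ∈ R.U) →
        R.nw w ∈ R.PJ J := by
      apply word_induct R dsc
      · intro w hw _
        exact (le_sup_left : R.T ≤ R.PJ J) (triv_T R wrd hw)
      · intro w i hi ih hx
        have hiJ : i ∈ J := by
          by_contra hc
          exact nt' R hi fun x hx' => hx x (R.X_le_gp (a_not_lev R hc) hx')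
        have h1 : R.nw (w ++ [i]) = R.nw w * R.n i := by
          rw [R.nw_append, R.nw_cons, R.nw_nil, mul_one]
        have h2 := ih (fun x hx' => by
          rw [h1]
          have h3 : R.nw w * R.n i * x * (R.nw w * R.n i)⁻¹ =
            R.nw w * (R.n i * x * (R.n i)⁻¹) * (R.nw w)⁻¹ := by group
          rw [h3]
          exact hx _ (P_norm' R (n_mem J i hiJ) hx'))
        rw [h1] at h2
        have h3 := (R.PJ J).mul_mem h2 ((R.PJ J).inv_mem (n_mem J i hiJ))
        rwa [mul_inv_cancel_right] at h3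
    obtain ⟨w, b, hb, b', hb', rfl⟩ := cells g
    refine (R.PJ J).mul_mem ((R.PJ J).mul_mem (B_le_P R J hb) (hw w ?_)) (B_le_P R J hb')
    intro x hx
    have h1 := hg _ (P_norm' R ((R.PJ J).inv_mem (B_le_P R J hb')) hx)
    have h2 := R.B_U (R.B.inv_mem hb) h1
    have h3 : b⁻¹ * (b * R.nw w * b' * (b'⁻¹ * x * b'⁻¹⁻¹) * (b * R.nw w * b')⁻¹) * b⁻¹⁻¹ =
      R.nw w * x * (R.nw w)⁻¹ := by group
    rwa [h3] at h2
  refine ⟨fun g => ⟨fun hg x hx => P_norm' R hg hx, fun h => p2 J g fun x hx =>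
    UJ_le_U R J (h x hx)⟩, p2 J, ?_, ?_, ?_, ?_⟩
  · -- (3)
    intro Q hQ hQp hQn
    have h1 : Q ≤ R.U := by
      have hUn : R.U ≤ Subgroup.normalizer (Q : Set G) :=
        le_normalizer fun x hx y hy => hQn x (B_le_P R J (R.U_le_B hx)) y hy
      have h2 : IsPGroup ℓ ((R.U ⊔ Q : Subgroup G)) :=
        (syl ℓ G R).1.to_sup_of_normal_right' hQp hUn
      obtain ⟨g, hg⟩ := (syl ℓ G R).2.2.2.2 _ h2
      have h3 : g ∈ R.B := (syl ℓ G R).2.2.1 g fun x hx => hg x
        ((le_sup_left : R.U ≤ R.U ⊔ Q) hx)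
      intro x hx
      have h4 := hg x ((le_sup_right : Q ≤ R.U ⊔ Q) hx)
      have h5 := R.B_U (R.B.inv_mem h3) h4
      have h6 : g⁻¹ * (g * x * g⁻¹) * g⁻¹⁻¹ = x := by group
      rwa [h6] at h5
    obtain ⟨w, hwJ, hw⟩ := (lng ℓ G R J).2
    intro x hx
    have h2 : R.nw w.reverse ∈ R.PJ J := bru1 J _ fun i hi => hwJ i (List.mem_reverse.mp hi)
    have h3 := hQn _ ((R.PJ J).inv_mem h2) x hx
    rw [inv_inv] at h3
    have h4 := ((fac ℓ G R w.reverse).2.1 x).mp ⟨h1 hx, h1 h3⟩
    rw [List.reverse_reverse] at h4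
    refine R.gp_mono ?_ h4
    rintro b ⟨hb, hb'⟩
    refine ⟨hb, fun hl => ?_⟩
    exact R.not_pos_neg hb' (hw b ⟨hb, hl⟩)
  · -- (4)
    intro J'
    constructor
    · intro h i hi
      by_contra hc
      obtain ⟨w, hw, b, hb, b', hb', h1⟩ := bru2 J' _ (h (n_mem J i hi))
      have h2 := bru6 [i] w ⟨b, hb, b', hb', by rw [R.nw_cons, R.nw_nil, mul_one]; exact h1⟩
        (R.a i)
      have h3 := ((lng ℓ G R J').1 w hw).2 (R.a i)
      have h4 := (h3.mpr (a_not_lev R hc)).1
      rw [← h2, R.sw_cons, R.sw_nil, R.s_self] at h4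
      exact R.not_nn_neg (R.mem i) (R.nn_a i) h4.2
    · intro h
      refine sup_le_sup_left (R.gp_mono (Set.union_subset_union_right _ ?_)) _
      rintro b ⟨hb, hb'⟩
      exact ⟨hb, Submodule.span_mono (Set.image_mono (by exact_mod_cast h)) hb'⟩
  · -- (5)
    intro J'
    constructor
    · intro h i hi
      by_contra hc
      apply nt' R (i := i) (w := [i])
      · rw [R.sw_cons, R.sw_nil, R.s_self]
        exact ⟨R.neg_a_mem i, by rw [neg_neg]; exact R.nn_a i⟩
      · intro x hx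
        rw [R.nw_cons, R.nw_nil, mul_one]
        exact UJ_le_U R J' (P_norm' R (n_mem J' i hi) (h (R.X_le_gp (a_not_lev R hc) hx)))
    · intro h
      refine R.gp_mono ?_
      rintro b ⟨hb, hb'⟩
      refine ⟨hb, fun hl => hb' ⟨hl.1, ?_⟩⟩
      exact Submodule.span_mono (Set.image_mono (by exact_mod_cast h)) hl.2
  · -- (6)
    intro H hH
    refine ⟨Finset.univ.filter fun i => R.n i ∈ H, ?_⟩
    apply le_antisymm
    · have hw : ∀ w : List (Fin R.r), R.nw w ∈ H →
          R.nw w ∈ R.PJ (Finset.univ.filter fun i => R.n i ∈ H) := by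
        apply word_induct R dsc
        · intro w hw _
          exact (le_sup_left : R.T ≤ R.PJ _) (triv_T R wrd hw)
        · intro w i hi ih hwH
          have hX : R.X (-R.a i) ≤ H := by
            intro x hx
            have h1 : R.nw w * x * (R.nw w)⁻¹ ∈ R.U := by
              refine R.X_le_U (b := R.sw w (-R.a i)) ?_ ((R.X_nw (R.neg_a_mem i)).mpr hx)
              refine ⟨R.sw_mem (R.neg_a_mem i), ?_⟩
              rw [R.sw_neg]
              exact hi.2
            have h2 := hH (R.U_le_B h1)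
            have h3 := H.mul_mem (H.mul_mem (H.inv_mem hwH) h2) hwH
            have h4 : (R.nw w)⁻¹ * (R.nw w * x * (R.nw w)⁻¹) * R.nw w = x := by group
            rwa [h4] at h3
          have hX' : R.X (R.a i) ≤ H := (R.X_le_U (R.a_pos i)).trans (R.U_le_B.trans hH)
          have hn : R.n i ∈ H := (sup_le hX' hX) (R.nmem i)
          have hn' : R.n i ∈ R.PJ (Finset.univ.filter fun i => R.n i ∈ H) :=
            n_mem _ i (Finset.mem_filter.mpr ⟨Finset.mem_univ i, hn⟩)
          have h1 : R.nw (w ++ [i]) = R.nw w * R.n i := by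
            rw [R.nw_append, R.nw_cons, R.nw_nil, mul_one]
          have h2 := ih (by rw [h1]; exact H.mul_mem hwH hn)
          rw [h1] at h2
          have h3 := (R.PJ _).mul_mem h2 ((R.PJ _).inv_mem hn')
          rwa [mul_inv_cancel_right] at h3
      intro g hg
      obtain ⟨w, b, hb, b', hb', rfl⟩ := cells g
      refine (R.PJ _).mul_mem ((R.PJ _).mul_mem (B_le_P R _ hb) (hw w ?_)) (B_le_P R _ hb')
      have h1 := H.mul_mem (H.mul_mem (H.inv_mem (hH hb)) hg) (H.inv_mem (hH hb'))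
      have h2 : b⁻¹ * (b * R.nw w * b') * b'⁻¹ = R.nw w := by group
      rwa [h2] at h1
    · intro g hg
      obtain ⟨w, hw, b, hb, b', hb', rfl⟩ := bru2 _ g hg
      refine H.mul_mem (H.mul_mem (hH hb) ?_) (hH hb')
      clear hg
      induction w with
      | nil => rw [R.nw_nil]; exact H.one_mem
      | cons i w ih =>
        rw [R.nw_cons]
        refine H.mul_mem (Finset.mem_filter.mp (hw i List.mem_cons_self)).2 (ih fun j hj => ?_)
        exact hw j (List.mem_cons_of_mem _ hj)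

end Pool.Agent.PP.X1.H20
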