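import Pool.Agent.Helper66_AWS.S091

/-! Copy (generated) of the module `Pool.Agent.Helper20_X1.Pd2` with import lines for the bundle Helper12_AWB. -/

/-!
# PD2: factorisation into a positive and a negative part
-/

open scoped BigOperators

noncomputable section

namespace Pool.Agent.PP.X1.H20

variable {ℓ : ℕ} {G : Type} [Group G] (R : RGD ℓ G)

/-- transfer by the inverse of a simple reflection -/
theorem gp_n_inv {i : Fin R.r} {S S' : Set R.E} (hS' : S' ⊆ R.Φ) (h : ∀ b ∈ S, R.s i b ∈ S')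
    {y : G} (hy : y ∈ R.gp S) : (R.n i)⁻¹ * y * R.n i ∈ R.gp S' := by
  rw [← R.gp_nw (w := [i]) hS']
  have h1 : R.nw [i] * ((R.n i)⁻¹ * y * R.n i) * (R.nw [i])⁻¹ = y := by
    rw [R.nw_cons, R.nw_nil, mul_one]
    group
  rw [h1]
  refine R.gp_mono ?_ hy
  intro b hb
  exact ⟨R.s i b, h b hb, by rw [R.sw_cons, R.sw_nil, R.s_s]⟩

/-- a negative root whose reflection is positive is in the negative ray -/
theorem neg_ray_of {i : Fin R.r} {b : R.E} (hb : b ∈ R.neg) (h : R.s i b ∈ R.pos) :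
    -b ∈ R.ray i := by
  by_cases hr : R.s i b ∈ R.ray i
  · have h1 := R.s_ray hr
    rw [R.s_s] at h1
    rw [h1, neg_neg]
    exact hr
  · exfalso
    have h1 := R.s_pos h hr
    rw [R.s_s] at h1
    exact R.not_pos_neg h1 hb

/-- peeling off the negative ray -/
theorem peel_neg (i : Fin R.r) {A : Set R.E} (hA : R.Clo A) (hn : A ⊆ R.neg) {g : G}
    (hg : g ∈ R.gp A) : ∃ x ∈ R.gp (A ∩ {b | -b ∈ R.ray i}), ∃ y ∈ R.gp (A \ {b | -b ∈ R.ray i}),
      g = x * y := by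
  classical
  have h1 : R.gp (A ∩ {b | -b ∈ R.ray i}) ≤
      Subgroup.normalizer (R.gp (A \ {b | -b ∈ R.ray i}) : Set G) := by
    apply R.gp_le
    intro b hb
    apply le_normalizer
    intro x hx y hy
    refine conj_gp R (A := A \ {b | -b ∈ R.ray i}) ?_ hy
    intro c hc y hy
    have hcn := hn hc.1
    -- a coefficient outside `i`
    have hj : ∃ j, j ≠ i ∧ cf R j c < 0 := by
      by_contra hcon
      push Not at hcon
      apply hc.2
      obtain ⟨k, hk, hck⟩ := hcn.2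
      have h0 : ∀ j, j ≠ i → k j = 0 := by
        intro j hji
        have h2 := hcon j hji
        have h3 : cf R j (-c) = k j := by rw [hck, cf_sum]
        rw [map_neg] at h3
        have := hk j
        linarith
      have h2 : -c = k i • R.a i := by
        rw [hck, Finset.sum_eq_single i]
        · intro j _ hji
          rw [h0 j hji, zero_smul]
        · intro h
          exact absurd (Finset.mem_univ i) h
      have h3 : 0 < k i := by
        rcases (hk i).lt_or_eq with h4 | h4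
        · exact h4
        · exfalso
          apply R.ne0 c hcn.1
          rw [← h4, zero_smul] at h2
          exact neg_eq_zero.mp h2
      refine ⟨?_, k i, h3, h2⟩
      have h4 : c = R.s i (k i • R.a i) := by
        rw [R.s_smul, R.s_self, smul_neg, ← h2, neg_neg]
      have h5 := hcn.1
      rw [h4, R.s_mem_iff] at h5
      rw [h2]
      exact h5
    obtain ⟨j, hji, hjc⟩ := hj
    obtain ⟨hbA, -, c0, hc0, hbc⟩ := hb
    have hcfb : cf R j b = 0 := by
      have h2 : b = -(c0 • R.a i) := by rw [← hbc, neg_neg]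
      rw [h2, map_neg, map_smul, cf_a, if_neg (Ne.symm hji), smul_zero, neg_zero]
    have h2 : x * y * x⁻¹ * y⁻¹ ∈ R.gp (A \ {b | -b ∈ R.ray i}) := by
      refine R.comm_gp (hA.sub hbA) (hA.sub hc.1) ?_ ?_ hx hy
      · intro s hs h
        rw [h, map_neg, map_smul, hcfb, smul_zero, neg_zero] at hjc
        exact lt_irrefl _ hjc
      · intro p q hp hq hpq
        refine ⟨hA.add b hbA c hc.1 p q hp hq hpq, ?_⟩
        rintro ⟨-, d, hd, h3⟩
        have h4 : cf R j (-(p • b + q • c)) = 0 := by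
          rw [h3, map_smul, cf_a, if_neg (Ne.symm hji), smul_zero]
        rw [map_neg, map_add, map_smul, map_smul, hcfb, smul_zero, zero_add, smul_eq_mul] at h4
        have h5 : q * cf R j c < 0 := mul_neg_of_pos_of_neg (by linarith) hjc
        linarith
    have h3 : x * y * x⁻¹ = x * y * x⁻¹ * y⁻¹ * y := by group
    rw [h3]
    exact (R.gp _).mul_mem h2 (R.X_le_gp hc hy)
  have h2 : g ∈ R.gp (A ∩ {b | -b ∈ R.ray i}) ⊔ R.gp (A \ {b | -b ∈ R.ray i}) := by
    rw [← R.gp_union, Set.inter_union_sdiff]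
    exact hg
  rw [← SetLike.mem_coe, Subgroup.coe_mul_of_left_le_normalizer_right _ _ h1] at h2
  obtain ⟨x, hx, y, hy, rfl⟩ := h2
  exact ⟨x, hx, y, hy, rfl⟩

theorem pd2 (clo : CloStmt) (pel : PelStmt) : Pd2Stmt := by
  classical
  intro ℓ G _ R v
  induction v using List.reverseRecOn with
  | nil =>
    intro A hA hv g hg
    refine ⟨g, R.gp_mono (show A ⊆ A ∩ R.pos from fun b hb => ⟨hb, hv b hb⟩) hg, 1,
      Subgroup.one_mem _, (mul_one g).symm⟩
  | append_singleton v i ih =>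
    intro A hA hv g hg
    obtain ⟨clo1, clo2, -, -, clo5, clo6, -, -⟩ := clo ℓ G R
    have hA₁ : R.Clo (R.sw [i] '' A) := clo6 [i] A hA
    have hs : ∀ b ∈ R.sw [i] '' A, R.s i b ∈ A := by
      rintro _ ⟨b, hb, rfl⟩
      rw [R.sw_cons, R.sw_nil, R.s_s]
      exact hb
    have hv₁ : ∀ b ∈ R.sw [i] '' A, R.sw v b ∈ R.pos := by
      rintro _ ⟨b, hb, rfl⟩
      have := hv b hb
      rwa [R.sw_append] at this
    have hg₁ : R.nw [i] * g * (R.nw [i])⁻¹ ∈ R.gp (R.sw [i] '' A) := (R.gp_nw hA.sub).mpr hg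
    obtain ⟨x₁, hx₁, y₁, hy₁, h₁⟩ := ih _ hA₁ hv₁ _ hg₁
    rw [R.nw_cons, R.nw_nil, mul_one] at h₁
    have hg₂ : g = (R.n i)⁻¹ * (x₁ * y₁) * R.n i := by
      rw [← h₁]
      group
    have hAp : R.Clo (R.sw [i] '' A ∩ R.pos) := clo5 _ _ hA₁ clo1
    have hAn : R.Clo (R.sw [i] '' A ∩ R.neg) := clo5 _ _ hA₁ clo2
    obtain ⟨x, hx, y, hy, h₂⟩ := (pel ℓ G R i).2.1 _ hAp (fun b hb => hb.2) _
      ((R.gp _).inv_mem hx₁)
    have h₃ : x₁ = y⁻¹ * x⁻¹ := by
      rw [← mul_inv_rev, ← h₂, inv_inv]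
    have hApos : A ∩ R.pos ⊆ R.Φ := fun b hb => hb.2.1
    have hAneg : A ∩ R.neg ⊆ R.Φ := fun b hb => hb.2.1
    have hy' : (R.n i)⁻¹ * y⁻¹ * R.n i ∈ R.gp (A ∩ R.pos) := by
      refine gp_n_inv R hApos ?_ ((R.gp _).inv_mem hy)
      rintro b ⟨⟨hb, hb'⟩, hr⟩
      exact ⟨hs b hb, R.s_pos hb' hr⟩
    by_cases hc : ∃ b ∈ R.sw [i] '' A, -b ∈ R.ray i
    · -- the negative ray occurs
      have hemp : R.sw [i] '' A ∩ R.pos ∩ R.ray i = ∅ := by
        rw [Set.eq_empty_iff_forall_notMem]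
        rintro d ⟨⟨hd, -⟩, hdΦ, e, he, hde⟩
        obtain ⟨b, hb, hbΦ, c, hc0, hbc⟩ := hc
        have h4 := (hv₁ d hd).2
        have h5 := (hv₁ b hb).2
        have h6 : b = -(c • R.a i) := by rw [← hbc, neg_neg]
        rw [hde, R.sw_smul] at h4
        rw [h6, R.sw_neg, R.sw_smul] at h5
        refine R.not_nn_neg (b := R.sw v (R.a i)) (R.sw_mem (R.mem i)) ?_ ?_
        · have := R.nn_smul (inv_nonneg.mpr he.le) h4
          rwa [smul_smul, inv_mul_cancel₀ he.ne', one_smul] at this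
        · have := R.nn_smul (inv_nonneg.mpr hc0.le) h5
          rwa [smul_neg, smul_smul, inv_mul_cancel₀ hc0.ne', one_smul] at this
      rw [hemp, R.gp_empty, Subgroup.mem_bot] at hx
      obtain ⟨y₂, hy₂, y₃, hy₃, h₄⟩ := peel_neg R i hAn (fun b hb => hb.2) hy₁
      have hy₂' : (R.n i)⁻¹ * y₂ * R.n i ∈ R.gp (A ∩ R.pos) := by
        refine gp_n_inv R hApos ?_ hy₂
        rintro b ⟨⟨hb, hb'⟩, hr⟩
        have h5 : R.s i b = -b := by
          have := R.s_ray hr
          rw [R.s_neg, neg_inj] at this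
          exact this
        refine ⟨hs b hb, ?_⟩
        rw [h5]
        exact R.ray_pos hr
      have hy₃' : (R.n i)⁻¹ * y₃ * R.n i ∈ R.gp (A ∩ R.neg) := by
        refine gp_n_inv R hAneg ?_ hy₃
        rintro b ⟨⟨hb, hb'⟩, hr⟩
        refine ⟨hs b hb, ?_⟩
        rcases R.pos_or_neg (R.s_mem (i := i) hb'.1) with h5 | h5
        · exact absurd (neg_ray_of R hb' h5) hr
        · exact h5
      refine ⟨(R.n i)⁻¹ * y⁻¹ * R.n i * ((R.n i)⁻¹ * y₂ * R.n i), (R.gp _).mul_mem hy' hy₂',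
        (R.n i)⁻¹ * y₃ * R.n i, hy₃', ?_⟩
      rw [hg₂, h₃, h₄, hx]
      group
    · have hx' : (R.n i)⁻¹ * x⁻¹ * R.n i ∈ R.gp (A ∩ R.neg) := by
        refine gp_n_inv R hAneg ?_ ((R.gp _).inv_mem hx)
        rintro b ⟨⟨hb, hb'⟩, hr⟩
        refine ⟨hs b hb, ?_⟩
        rw [R.s_ray hr]
        exact R.neg_of_ray hr
      have hy₁' : (R.n i)⁻¹ * y₁ * R.n i ∈ R.gp (A ∩ R.neg) := by
        refine gp_n_inv R hAneg ?_ hy₁
        rintro b ⟨hb, hb'⟩
        refine ⟨hs b hb, ?_⟩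
        rcases R.pos_or_neg (R.s_mem (i := i) hb'.1) with h5 | h5
        · exact absurd ⟨b, hb, neg_ray_of R hb' h5⟩ hc
        · exact h5
      refine ⟨(R.n i)⁻¹ * y⁻¹ * R.n i, hy', (R.n i)⁻¹ * x⁻¹ * R.n i * ((R.n i)⁻¹ * y₁ * R.n i),
        (R.gp _).mul_mem hx' hy₁', ?_⟩
      rw [hg₂, h₃]
      group

end Pool.Agent.PP.X1.H20
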