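import Pool.Agent.Helper12_AWB.B100

/-! Copy (generated) of the module `Pool.Agent.Helper21_X1.Min` with import lines for the bundle Helper12_AWB. -/

/-!
# Squad X1, module MIN

Every nonzero space of fixed points leads to an irreducible torus submodule of the fixed points
which is stable under the operators.
-/

set_option autoImplicit false

noncomputable section

namespace Pool.Agent.PP.X1.H21

open Pool.Agent.PP Matrix

variable {F G : Type} [Field F] [Group G] {ℓ : ℕ}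

theorem T_le_PJ (R : RGD ℓ G) (J : Finset (Fin R.r)) : R.T ≤ R.PJ J := le_sup_left

theorem U_le_PJ (R : RGD ℓ G) (J : Finset (Fin R.r)) : R.U ≤ R.PJ J :=
  (R.gp_mono Set.subset_union_left).trans le_sup_right

theorem T_conj (R : RGD ℓ G) (w : List (Fin R.r)) {t : G} (ht : t ∈ R.T) :
    (R.nw w)⁻¹ * t * R.nw w ∈ R.T := by
  rw [← R.T_nw (w := w)]
  have h : R.nw w * ((R.nw w)⁻¹ * t * R.nw w) * (R.nw w)⁻¹ = t := by group
  rwa [h]

/-- the number of the positive roots made negative by `w⁻¹` -/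
def nu (R : RGD ℓ G) (w : List (Fin R.r)) : ℕ :=
  {b | b ∈ R.pos ∧ R.sw w.reverse b ∈ R.neg}.ncard

theorem pos_finite (R : RGD ℓ G) : R.pos.Finite := R.fin.subset R.pos_sub

theorem nu_le (R : RGD ℓ G) (w : List (Fin R.r)) : nu R w ≤ R.pos.ncard :=
  Set.ncard_le_ncard (fun _ h => h.1) (pos_finite R)

theorem sw_reverse_cons (R : RGD ℓ G) (i : Fin R.r) (w : List (Fin R.r)) (b : R.E) :
    R.sw (i :: w).reverse b = R.sw w.reverse (R.s i b) := by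
  rw [List.reverse_cons, R.sw_append, R.sw_cons, R.sw_nil]

theorem nu_lt (R : RGD ℓ G) {i : Fin R.r} {w : List (Fin R.r)}
    (h : R.sw w.reverse (R.a i) ∈ R.pos) : nu R w < nu R (i :: w) := by
  classical
  set A : Set R.E := {b | b ∈ R.pos ∧ R.sw w.reverse b ∈ R.neg} with hA
  set A' : Set R.E := {b | b ∈ R.pos ∧ R.sw (i :: w).reverse b ∈ R.neg} with hA'
  have hAf : A.Finite := (pos_finite R).subset fun _ h => h.1
  have hA'f : A'.Finite := (pos_finite R).subset fun _ h => h.1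
  have hray : ∀ b ∈ A, b ∉ R.ray i := by
    rintro b ⟨-, hb2⟩ ⟨hb, c, hc, rfl⟩
    rw [R.sw_smul] at hb2
    refine R.not_pos_neg (b := c • R.sw w.reverse (R.a i)) ⟨hb2.1, ?_⟩ hb2
    exact R.nn_smul hc.le h.2
  have hsub : R.s i '' A ⊆ A' := by
    rintro _ ⟨b, hb, rfl⟩
    refine ⟨R.s_pos hb.1 (hray b hb), ?_⟩
    rw [sw_reverse_cons, R.s_s]
    exact hb.2
  have hai : R.a i ∈ A' := by
    refine ⟨R.a_pos i, ?_⟩
    rw [sw_reverse_cons, R.s_self, R.sw_neg]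
    refine ⟨?_, ?_⟩
    · rw [← R.sw_neg]
      exact R.sw_mem (R.neg_a_mem i)
    · rw [neg_neg]
      exact h.2
  have hai2 : R.a i ∉ R.s i '' A := by
    rintro ⟨b, hb, hb2⟩
    have h1 : b = -R.a i := by rw [← R.s_self i, ← hb2, R.s_s]
    have h2 := hb.1
    rw [h1] at h2
    exact R.not_nn_neg (R.neg_a_mem i) h2.2 (by rw [neg_neg]; exact R.nn_a i)
  have h1 : (R.s i '' A).ncard = A.ncard :=
    Set.ncard_image_of_injective _ fun x y hxy => by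
      rw [← R.s_s i x, ← R.s_s i y, hxy]
  have h2 : (R.s i '' A).ncard < A'.ncard :=
    Set.ncard_lt_ncard ⟨hsub, fun h3 => hai2 (h3 hai)⟩ hA'f
  rw [h1] at h2
  exact h2

theorem ts_map {P : Subgroup G} (R : RGD ℓ G) {k : ℕ} (ρ : P →* Matrix (Fin k) (Fin k) F)
    {w : List (Fin R.r)} {Λ : Submodule F (Fin k → F)} (hΛ : TS R ρ Λ)
    (h : ∀ t ∈ R.T, ∀ v, (Aw R ρ w).mulVec ((ro ρ t).mulVec v) =
      (ro ρ (R.nw w * t * (R.nw w)⁻¹)).mulVec ((Aw R ρ w).mulVec v)) :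
    TS R ρ (Λ.map (Aw R ρ w).mulVecLin) := by
  rintro t ht _ ⟨v, hv, rfl⟩
  refine ⟨(ro ρ ((R.nw w)⁻¹ * t * R.nw w)).mulVec v, hΛ _ (T_conj R w ht) v hv, ?_⟩
  rw [mulVecLin_apply, mulVecLin_apply, h _ (T_conj R w ht)]
  have h1 : R.nw w * ((R.nw w)⁻¹ * t * R.nw w) * (R.nw w)⁻¹ = t := by group
  rw [h1]

theorem min_ (hACA : AcaStmt) (hACB : AcbStmt) : MinStmt := by
  intro ℓ _ F _ hF G _ _ R J k ρ hne
  classical
  obtain ⟨ha1, ha2, ha3, ha4, ha5, ha6⟩ := hACA ℓ F hF G R J k ρ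
  obtain ⟨Λ, ⟨hΛ0, hΛf, hΛT⟩, hΛmin⟩ := WellFounded.has_min
    (wellFounded_lt (α := Submodule F (Fin k → F)))
    {W | W ≠ ⊥ ∧ W ≤ fx R.U ρ ∧ TS R ρ W} ⟨fx R.U ρ, hne, le_rfl, fun t ht v hv => ha5 t ht v hv⟩
  have hΛirr : ∀ L' : Submodule F (Fin k → F), L' ≤ Λ → TS R ρ L' → L' = ⊥ ∨ L' = Λ := by
    intro L' hL' hT
    by_cases h0 : L' = ⊥
    · exact Or.inl h0
    · refine Or.inr ?_
      by_contra hcon
      exact hΛmin L' ⟨h0, hL'.trans hΛf, hT⟩ (lt_of_le_of_ne hL' hcon)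
  obtain ⟨v₀, hv₀, hv₀0⟩ := Submodule.exists_mem_ne_zero_of_ne_bot hΛ0
  -- a word with the largest number of roots made negative
  obtain ⟨w, ⟨hwJ, v₁, hv₁, hv₁0⟩, hwmax⟩ : ∃ w : List (Fin R.r),
      ((∀ j ∈ w, j ∈ J) ∧ ∃ v ∈ Λ, (Aw R ρ w).mulVec v ≠ 0) ∧
      ∀ w' : List (Fin R.r), ((∀ j ∈ w', j ∈ J) ∧ ∃ v ∈ Λ, (Aw R ρ w').mulVec v ≠ 0) →
        nu R w' ≤ nu R w := by
    set S : Set ℕ := {n | ∃ w : List (Fin R.r), ((∀ j ∈ w, j ∈ J) ∧
      ∃ v ∈ Λ, (Aw R ρ w).mulVec v ≠ 0) ∧ nu R w = n} with hS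
    have hSn : S.Nonempty := ⟨nu R [], [], ⟨by simp, v₀, hv₀, by rw [ha6]; exact hv₀0⟩, rfl⟩
    have hSb : BddAbove S := ⟨R.pos.ncard, by
      rintro n ⟨w, -, rfl⟩
      exact nu_le R w⟩
    obtain ⟨w, hw, hw2⟩ := Nat.sSup_mem hSn hSb
    refine ⟨w, hw, fun w' hw' => ?_⟩
    rw [hw2]
    exact le_csSup hSb ⟨w', hw', rfl⟩
  have hLf : Λ.map (Aw R ρ w).mulVecLin ≤ fx R.U ρ := by
    rintro _ ⟨v, hv, rfl⟩
    rw [mulVecLin_apply]
    exact (ha1 w hwJ v (hΛf hv)).1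
  refine ⟨Λ.map (Aw R ρ w).mulVecLin, ?_, hLf, ts_map R ρ hΛT (ha2 w hwJ), ?_, ?_⟩
  · intro h0
    have h1 : (Aw R ρ w).mulVecLin v₁ ∈ Λ.map (Aw R ρ w).mulVecLin :=
      Submodule.mem_map_of_mem hv₁
    rw [h0, Submodule.mem_bot, mulVecLin_apply] at h1
    exact hv₁0 h1
  · -- the operators
    rintro i hi _ ⟨v, hv, rfl⟩
    rw [mulVecLin_apply]
    have hiw : ∀ j ∈ i :: w, j ∈ J := by
      intro j hj
      rcases List.mem_cons.1 hj with rfl | hj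
      · exact hi
      · exact hwJ j hj
    rcases R.pos_or_neg (R.sw_mem (w := w.reverse) (R.mem i)) with hp | hn
    · rw [← ((ha1 w hwJ v (hΛf hv)).2 i hi).1 hp]
      have h0 : (Aw R ρ (i :: w)).mulVec v = 0 := by
        by_contra hcon
        have h1 := hwmax (i :: w) ⟨hiw, v, hv, hcon⟩
        have h2 := nu_lt R hp
        omega
      rw [h0]
      exact Submodule.zero_mem _
    · set t₀ : G := (R.nw w)⁻¹ * (R.n i * R.n i) * R.nw w with ht₀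
      have ht₀T : t₀ ∈ R.T := T_conj R w (R.nn i)
      have hback : (ro ρ t₀).mulVec ((ro ρ t₀⁻¹).mulVec v) = v := by
        rw [mulVec_mulVec, ← ro_mul ρ (T_le_PJ R J ht₀T) (T_le_PJ R J (R.T.inv_mem ht₀T)),
          mul_inv_cancel, ro_one, one_mulVec]
      have hv' : (ro ρ t₀⁻¹).mulVec v ∈ Λ := hΛT _ (R.T.inv_mem ht₀T) v hv
      have h1 := ((ha1 w hwJ _ (hΛf hv')).2 i hi).2 hn
      rw [← ht₀, hback] at h1
      have h2 : (Aw R ρ (i :: w)).mulVec ((ro ρ t₀⁻¹).mulVec v) ∈ fx R.U ρ :=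
        (ha1 (i :: w) hiw _ (hΛf hv')).1
      have h3 := (hACB ℓ F hF G R J k ρ i hi).1 _ h2
      have h4 : (tauM R ρ i).mulVec ((Aw R ρ (i :: w)).mulVec ((ro ρ t₀⁻¹).mulVec v)) ∈
          Λ.map (Aw R ρ (i :: w)).mulVecLin :=
        ((hACB ℓ F hF G R J k ρ i hi).2.2 _ (ts_map R ρ hΛT (ha2 (i :: w) hiw))).1 _
          (by
            have h5 := Submodule.mem_map_of_mem (f := (Aw R ρ (i :: w)).mulVecLin) hv'
            rwa [mulVecLin_apply] at h5)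
      obtain ⟨v', hv'2, hv'3⟩ := h4
      rw [mulVecLin_apply] at hv'3
      have h6 := ((ha1 w hwJ _ (hΛf hv'2)).2 i hi).2 hn
      rw [← ht₀] at h6
      rw [← h1, h3, ← hv'3, h6]
      refine ⟨(ro ρ t₀).mulVec v', hΛT _ ht₀T v' hv'2, ?_⟩
      rw [mulVecLin_apply]
  · -- irreducibility
    intro L' hL' hT
    set Λ' : Submodule F (Fin k → F) := Λ ⊓ L'.comap (Aw R ρ w).mulVecLin with hΛ'
    have hΛ'T : TS R ρ Λ' := by
      rintro t ht v ⟨hv1, hv2⟩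
      refine ⟨hΛT t ht v hv1, ?_⟩
      rw [SetLike.mem_coe, Submodule.mem_comap, mulVecLin_apply] at hv2 ⊢
      rw [ha2 w hwJ t ht]
      exact hT _ (R.T_nw.2 ht) _ hv2
    rcases hΛirr Λ' inf_le_left hΛ'T with h0 | h0
    · left
      rw [eq_bot_iff]
      intro x hx
      obtain ⟨v, hv, rfl⟩ := hL' hx
      have h1 : v ∈ Λ' := ⟨hv, hx⟩
      rw [h0, Submodule.mem_bot] at h1
      rw [h1, map_zero]
      exact Submodule.zero_mem _
    · right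
      refine le_antisymm hL' ?_
      rintro _ ⟨v, hv, rfl⟩
      have h1 : v ∈ Λ' := by rw [h0]; exact hv
      exact h1.2

end Pool.Agent.PP.X1.H21
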