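import Pool.Agent.Helper12_AWB.B100

/-! Copy (generated) of the module `Pool.Agent.Helper32_X1.Pel` with import lines for the bundle Helper12_AWB. -/

/-!
# Squad X1: module PEL (peeling off the ray of a simple root)
-/

set_option autoImplicit false

noncomputable section

namespace Pool.Agent.PP.X1.H32

open Pool.Agent.PP.X1

theorem le_normalizer_of_conj {G : Type} [Group G] {H K : Subgroup G}
    (h : ∀ x ∈ H, ∀ y ∈ K, x * y * x⁻¹ ∈ K) : H ≤ Subgroup.normalizer (K : Set G) := by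
  intro x hx
  rw [Subgroup.mem_normalizer_iff]
  intro y
  refine ⟨h x hx y, fun hy => ?_⟩
  have h1 := h x⁻¹ (H.inv_mem hx) _ hy
  have h2 : x⁻¹ * (x * y * x⁻¹) * x⁻¹⁻¹ = y := by group
  rwa [h2] at h1

section

variable {ℓ : ℕ} {G : Type} [Group G] (R : RGD ℓ G)

/-- a positive root which is a multiple of `a i` is in the ray -/
theorem ray_of_smul {i : Fin R.r} {c : R.E} (hc : c ∈ R.pos) {u : ℝ} (h : c = u • R.a i) :
    c ∈ R.ray i := by
  refine ⟨hc.1, u, ?_, h⟩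
  by_contra hu
  push Not at hu
  apply R.not_nn_neg hc.1 hc.2
  rw [h, ← neg_smul]
  exact R.nn_smul (by linarith) (R.nn_a i)

theorem add_not_ray {i : Fin R.r} {b c : R.E} (hb : b ∈ R.ray i) (hc : c ∈ R.pos)
    (hci : c ∉ R.ray i) {p q : ℝ} (hq : 1 ≤ q) : p • b + q • c ∉ R.ray i := by
  rintro ⟨-, t, -, ht⟩
  obtain ⟨-, s, -, rfl⟩ := hb
  apply hci
  apply ray_of_smul R hc (u := (t - p * s) / q)
  have hq0 : q ≠ 0 := by linarith
  have h1 : q • c = (t - p * s) • R.a i := by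
    rw [sub_smul, ← ht, smul_smul]
    abel
  rw [div_eq_inv_mul, mul_smul, ← h1, smul_smul, inv_mul_cancel₀ hq0, one_smul]

theorem not_opp {i : Fin R.r} {b c : R.E} (hb : b ∈ R.ray i) (hc : c ∈ R.pos) (s : ℝ)
    (hs : 0 < s) : c ≠ -(s • b) := by
  intro h
  apply R.not_nn_neg hc.1 hc.2
  rw [h, neg_neg]
  exact R.nn_smul hs.le (R.ray_pos hb).2

theorem add_pos {b c : R.E} (hb : b ∈ R.pos) (hc : c ∈ R.pos) {p q : ℝ} (hp : 1 ≤ p)
    (hq : 1 ≤ q) (h : p • b + q • c ∈ R.Φ) : p • b + q • c ∈ R.pos :=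
  ⟨h, R.nn_add (R.nn_smul (by linarith) hb.2) (R.nn_smul (by linarith) hc.2)⟩

theorem a_ray (i : Fin R.r) : R.a i ∈ R.ray i := ⟨R.mem i, 1, one_pos, (one_smul _ _).symm⟩

theorem s_image (i : Fin R.r) : R.sw [i] '' (R.pos \ R.ray i) = R.pos \ R.ray i := by
  ext b
  constructor
  · rintro ⟨c, ⟨hc, hci⟩, rfl⟩
    exact ⟨R.s_pos hc hci, R.s_not_ray hc⟩
  · rintro ⟨hb, hbi⟩
    exact ⟨R.s i b, ⟨R.s_pos hb hbi, R.s_not_ray hb⟩, R.s_s i b⟩

theorem pel4 (i : Fin R.r) : ∀ x ∈ R.X (R.a i), ∀ y ∈ R.gp (R.pos \ R.ray i),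
    x * y * x⁻¹ ∈ R.gp (R.pos \ R.ray i) := by
  intro x hx
  have h : R.gp (R.pos \ R.ray i) ≤
      (R.gp (R.pos \ R.ray i)).comap (MulAut.conj x).toMonoidHom := by
    apply R.gp_le
    intro c hc y hy
    rw [Subgroup.mem_comap]
    show x * y * x⁻¹ ∈ _
    have h1 : x * y * x⁻¹ * y⁻¹ ∈ R.gp (R.pos \ R.ray i) :=
      R.comm_gp (R.mem i) hc.1.1 (not_opp R (a_ray R i) hc.1) (A := R.pos \ R.ray i)
        (fun p q hp hq h => And.intro (add_pos R (R.a_pos i) hc.1 hp hq h)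
          (add_not_ray R (a_ray R i) hc.1 hc.2 hq)) hx hy
    have h2 := (R.gp (R.pos \ R.ray i)).mul_mem h1 (R.X_le_gp hc hy)
    have h3 : x * y * x⁻¹ * y⁻¹ * y = x * y * x⁻¹ := by group
    rwa [h3] at h2
  exact fun y hy => h hy

theorem pel3 (i : Fin R.r) (A : Set R.E) (hA : R.Clo A) (hp : A ⊆ R.pos) :
    R.gp (A ∩ R.ray i) ≤ Subgroup.normalizer (R.gp (A \ R.ray i) : Set G) := by
  apply R.gp_le
  intro b hb
  apply le_normalizer_of_conj
  intro x hx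
  have h : R.gp (A \ R.ray i) ≤
      (R.gp (A \ R.ray i)).comap (MulAut.conj x).toMonoidHom := by
    apply R.gp_le
    intro c hc y hy
    rw [Subgroup.mem_comap]
    show x * y * x⁻¹ ∈ _
    have h1 : x * y * x⁻¹ * y⁻¹ ∈ R.gp (A \ R.ray i) :=
      R.comm_gp (hA.sub hb.1) (hA.sub hc.1) (not_opp R hb.2 (hp hc.1)) (A := A \ R.ray i)
        (fun p q hp' hq h => And.intro (hA.add b hb.1 c hc.1 p q hp' hq h)
          (add_not_ray R hb.2 (hp hc.1) hc.2 hq)) hx hy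
    have h2 := (R.gp (A \ R.ray i)).mul_mem h1 (R.X_le_gp hc hy)
    have h3 : x * y * x⁻¹ * y⁻¹ * y = x * y * x⁻¹ := by group
    rwa [h3] at h2
  exact fun y hy => h hy

end

/-- PEL -/
theorem pel : PelStmt := by
  intro ℓ G _ R i
  have h5 : ∀ y, R.n i * y * (R.n i)⁻¹ ∈ R.gp (R.pos \ R.ray i) ↔ y ∈ R.gp (R.pos \ R.ray i) := by
    intro y
    have h := R.gp_nw (w := [i]) (A := R.pos \ R.ray i) (fun b hb => hb.1.1) (x := y)
    rw [s_image, R.nw_cons, R.nw_nil, mul_one] at h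
    exact h
  refine ⟨?_, ?_, ?_, pel4 R i, h5, ?_, ?_⟩
  · intro x hx hx'
    have h1 : R.n i * x * (R.n i)⁻¹ ∈ R.V := by
      have h2 := R.nX i _ (R.mem i) x hx
      have h3 : rf (R.a i) (R.a i) = -R.a i := R.s_self i
      rw [h3] at h2
      exact R.X_le_V (R.neg_of_ray (a_ray R i)) h2
    have h2 : R.n i * x * (R.n i)⁻¹ ∈ R.U := R.gp_mono Set.sdiff_subset ((h5 x).mpr hx')
    have h3 : R.n i * x * (R.n i)⁻¹ ∈ R.U ⊓ R.V := ⟨h2, h1⟩
    rw [R.U_inf_V, Subgroup.mem_bot] at h3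
    have h4 : x = (R.n i)⁻¹ * (R.n i * x * (R.n i)⁻¹) * R.n i := by group
    rw [h4, h3]
    group
  · intro A hA hp g hg
    have h1 : A = (A ∩ R.ray i) ∪ (A \ R.ray i) := (Set.inter_union_sdiff A (R.ray i)).symm
    rw [h1, R.gp_union] at hg
    rw [← SetLike.mem_coe, Subgroup.coe_mul_of_left_le_normalizer_right _ _
      (pel3 R i A hA hp)] at hg
    obtain ⟨x, hx, y, hy, hxy⟩ := hg
    exact ⟨x, hx, y, hy, hxy.symm⟩
  · intro A hA hp x hx y hy
    exact (Subgroup.mem_normalizer_iff.mp (pel3 R i A hA hp hx) y).mp hy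
  · intro A
    apply R.gp_le
    intro b hb
    exact R.X_ray hb.2
  · intro A A' hA hA'
    by_cases h : A ∩ R.ray i ⊆ A'
    · refine le_trans inf_le_left (R.gp_mono ?_)
      intro b hb
      exact ⟨⟨hb.1, h hb⟩, hb.2⟩
    · refine le_trans inf_le_right (R.gp_mono ?_)
      rw [Set.not_subset] at h
      obtain ⟨b, hb, hbA'⟩ := h
      obtain ⟨hbΦ, s, hs, hbs⟩ := hb.2
      rintro b' ⟨hb'A', hb'⟩
      obtain ⟨hb'Φ, s', hs', hbs'⟩ := hb'
      refine ⟨⟨?_, hb'A'⟩, ⟨hb'Φ, s', hs', hbs'⟩⟩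
      rcases le_or_gt s' s with h1 | h1
      · exfalso
        apply hbA'
        have h2 : b = (s / s') • b' := by
          rw [hbs, hbs', smul_smul, div_mul_cancel₀ _ hs'.ne']
        rw [h2]
        apply hA'.up b' hb'A' _ ((one_le_div hs').mpr h1)
        rw [← h2]
        exact hbΦ
      · have h2 : b' = (s' / s) • b := by
          rw [hbs, hbs', smul_smul, div_mul_cancel₀ _ hs.ne']
        rw [h2]
        apply hA.up b hb.1 _ ((one_le_div hs).mpr h1.le)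
        rw [← h2]
        exact hb'Φ

end Pool.Agent.PP.X1.H32
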