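import Pool.Agent.Helper12_AWB.B100
import Pool.Agent.Helper66_AWS.S063

/-! Copy (generated) of the module `Pool.Agent.Helper26_X1.Brx` with import lines for the bundle Helper12_AWB. -/

/-!
# Squad X1, module BRX: the Brauer images of an idempotent of positive defect
-/

open scoped BigOperators

noncomputable section

namespace Pool.Agent.PP.X1.H26

open Pool.Agent.Helper51_AWC Pool.Agent.Helper79_WRA Pool.Agent.PP Pool.Agent.PP.X1
open Pool.Agent.PP.BN

/-- BRX. -/
theorem brx (dzx : DzxStmt) (cem : CemStmt) (ced : CedStmt) (bas : BasStmt) (nls : NlsStmt)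
    (brm : BrmStmt) (ibn : IbnStmt) : BrxStmt := by
  intro ℓ hfact F _ hF D _ _ M R h ζ
  have hchar := hF.char
  have hN := h.normal
  obtain ⟨-, hZ, -, -, -, -, hU, -, -⟩ := bas ℓ D M R h
  have hZ0 : ((Nat.card (Subgroup.center D) : ℕ) : F) ≠ 0 := by
    intro h0
    exact hZ ((CharP.cast_eq_zero_iff F ℓ _).1 h0)
  refine ⟨H75.ez_idem hZ0, H75.br_ez _, ?_⟩
  intro e he heζ hne hp
  have hne0 : br (up R.U) e ≠ 0 := fun h0 =>
    hne (H75.pos_zero hF he (dzx ℓ F hF D M R h e he h0) hp)
  have hbr : br (up R.U) e = ez ζ := by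
    rcases H75.br_dichotomy nls brm ibn hF hU hZ (ced ℓ D M R h) he heζ with h0 | h0
    · exact absurd h0 hne0
    · exact h0
  have hmul := H75.ez_mul hZ0 heζ
  refine ⟨?_, hbr, hmul, (H46.isIdem_sub (H75.ez_idem hZ0) he hmul).1, ?_⟩
  · intro J hJ
    have hle : up (R.UJ J) ≤ up R.U := by
      apply Subgroup.map_mono
      exact R.gp_mono Set.sdiff_subset
    rcases H75.br_dichotomy nls brm ibn hF (hU.to_le hle) hZ (cem ℓ D M R h J hJ) he heζ
      with h0 | h0
    · exfalso
      apply hne0
      funext x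
      unfold br
      by_cases hx : x ∈ Subgroup.centralizer ((up R.U : Subgroup D) : Set D)
      · rw [if_pos hx]
        have hx' : x ∈ Subgroup.centralizer ((up (R.UJ J) : Subgroup D) : Set D) :=
          Subgroup.centralizer_le hle hx
        have h1 := congrFun h0 x
        unfold br at h1
        rw [if_pos hx'] at h1
        exact h1
      · rw [if_neg hx]
        rfl
    · exact h0
  · rw [H75.br_sub, hbr, H75.br_ez]
    funext x
    exact sub_self _

end Pool.Agent.PP.X1.H26
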