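import Pool.Agent.Helper12_AWB.B100

/-! Copy (generated) of the module `Pool.Agent.Helper26_X1.Nlq` with import lines for the bundle Helper12_AWB. -/

/-!
# Squad X1, module NLQ: on a group with a normal `ℓ`-subgroup a class function acts like its
Brauer image
-/

open scoped BigOperators

noncomputable section

namespace Pool.Agent.PP.X1.H26

open Pool.Agent.Helper51_AWC Pool.Agent.Helper79_WRA Pool.Agent.PP Pool.Agent.PP.X1

/-- NLQ. -/
theorem nlq (hnls : NlsStmt) : NlqStmt := by
  intro ℓ _ F _ hF D _ _ Q X hQ hQX hXN e he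
  have hn : (Q.subgroupOf X).Normal :=
    (Subgroup.normal_subgroupOf_iff_le_normalizer hQX).2 hXN
  have hp : IsPGroup ℓ (Q.subgroupOf X) :=
    hQ.comap_of_injective (Subgroup.subtype _) (Subgroup.subtype_injective _)
  have hcl : IsCl (fun t : X => e t) := by
    intro x y
    exact he x y
  have hbr : br (Q.subgroupOf X) (fun t : X => e t) = fun t : X => br Q e t := by
    funext t
    have hiff : t ∈ Subgroup.centralizer ((Q.subgroupOf X : Subgroup X) : Set X) ↔
        (t : D) ∈ Subgroup.centralizer (Q : Set D) := by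
      rw [Subgroup.mem_centralizer_iff, Subgroup.mem_centralizer_iff]
      constructor
      · intro h r hr
        have := h ⟨r, hQX hr⟩ hr
        exact congrArg Subtype.val this
      · intro h r hr
        apply Subtype.ext
        exact h r hr
    unfold br
    by_cases ht : (t : D) ∈ Subgroup.centralizer (Q : Set D)
    · rw [if_pos ht, if_pos (hiff.2 ht)]
    · rw [if_neg ht, if_neg (fun h => ht (hiff.1 h))]
  unfold lnum
  congr 1
  ext f
  change _ ∧ _ ↔ _ ∧ _
  apply and_congr_right
  rintro ⟨k, ρ, hρ, rfl⟩
  rw [((hnls ℓ F hF _ _ hn hp k ρ hρ).2 _ hcl).2, hbr]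

end Pool.Agent.PP.X1.H26
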