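import Pool.Agent.Helper12_AWB.B100

/-! Copy (generated) of the module `Pool.Agent.Helper29_X1.Dsc` with import lines for the bundle Helper12_AWB. -/

/-!
# Squad X1, module DSC: a word which moves some vector has a descent
-/

open scoped BigOperators

noncomputable section

namespace Pool.Agent.PP.X1.H29

variable {ℓ : ℕ} {G : Type} [Group G] (R : RGD ℓ G)

/-- a negative root that a simple reflection makes positive is mapped into the ray -/
theorem ray_of_neg {i : Fin R.r} {b : R.E} (hb : b ∈ R.neg) (h : R.s i b ∈ R.pos) :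
    R.s i b ∈ R.ray i := by
  by_contra hr
  have h1 := R.s_pos h hr
  rw [R.s_s] at h1
  exact R.not_pos_neg h1 hb

/-- a word maps a simple root to a positive multiple of a simple root only with the factor one -/
theorem eq_one_of_sw {v : List (Fin R.r)} {i j : Fin R.r} {c : ℝ} (hc : 0 < c)
    (h : R.sw v (R.a i) = c • R.a j) : c = 1 := by
  have h1 : c • R.a j ∈ R.Φ := by
    rw [← h]
    exact R.sw_mem (R.mem i)
  have h2 : 1 ≤ c := R.short j c hc h1
  have h3 : R.sw v.reverse (R.a j) = c⁻¹ • R.a i := by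
    have h4 : R.sw v.reverse (R.sw v (R.a i)) = c • R.sw v.reverse (R.a j) := by
      rw [h, R.sw_smul]
    rw [R.sw_reverse_sw] at h4
    rw [h4, smul_smul, inv_mul_cancel₀ hc.ne', one_smul]
  have h5 : c⁻¹ • R.a i ∈ R.Φ := by
    rw [← h3]
    exact R.sw_mem (R.mem j)
  have h6 : 1 ≤ c⁻¹ := R.short i c⁻¹ (inv_pos.2 hc) h5
  have h7 : c ≤ 1 := (one_le_inv₀ hc).1 h6
  exact le_antisymm h7 h2

/-- a word that maps the simple root `a i` to the simple root `a j` intertwines the reflections -/
theorem s_sw {v : List (Fin R.r)} {i j : Fin R.r} (h : R.sw v (R.a i) = R.a j) (x : R.E) :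
    R.s j (R.sw v x) = R.sw v (R.s i x) := by
  have h1 : ∀ y : R.E, R.sw v (x - y) = R.sw v x - R.sw v y := by
    intro y
    rw [sub_eq_add_neg, R.sw_add, R.sw_neg, ← sub_eq_add_neg]
  rw [R.s_eq, R.s_eq i x, ← h, R.sw_inner, R.sw_inner, h1, R.sw_smul]

/-- the deletion property -/
theorem shorter (i : Fin R.r) (u : List (Fin R.r)) (h : R.sw (u ++ [i]) (R.a i) ∈ R.pos) :
    ∃ w : List (Fin R.r), w.length < (u ++ [i]).length ∧ ∀ x, R.sw w x = R.sw (u ++ [i]) x := by
  induction u with
  | nil =>
    exfalso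
    have h1 : R.sw ([] ++ [i]) (R.a i) = -R.a i := R.s_self i
    rw [h1] at h
    exact R.not_nn_neg (R.mem i) (R.nn_a i) h.2
  | cons j u ih =>
    rcases R.pos_or_neg (R.sw_mem (w := u ++ [i]) (R.mem i)) with h1 | h1
    · obtain ⟨w, hw, hx⟩ := ih h1
      refine ⟨j :: w, ?_, fun x => ?_⟩
      · rw [List.cons_append, List.length_cons, List.length_cons]
        omega
      · rw [List.cons_append, R.sw_cons, R.sw_cons, hx]
    · have h2 : R.s j (R.sw (u ++ [i]) (R.a i)) ∈ R.pos := h
      obtain ⟨h3, c, hc, h4⟩ := ray_of_neg R h1 h2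
      have h5 : R.sw (u ++ [i]) (R.a i) = -(c • R.a j) := by
        rw [← R.s_s j (R.sw (u ++ [i]) (R.a i)), h4, R.s_smul, R.s_self, smul_neg]
      rw [R.sw_append] at h5
      have h6 : R.sw u (R.a i) = c • R.a j := by
        have h7 : R.sw [i] (R.a i) = -R.a i := R.s_self i
        rw [h7, R.sw_neg] at h5
        exact neg_injective h5
      have h8 := eq_one_of_sw R hc h6
      rw [h8, one_smul] at h6
      refine ⟨u, ?_, fun x => ?_⟩
      · rw [List.cons_append, List.length_cons, List.length_append]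
        omega
      · rw [List.cons_append, R.sw_cons, R.sw_append, s_sw R h6]
        show R.sw u x = R.sw u (R.s i (R.s i x))
        rw [R.s_s]

theorem descent (n : ℕ) : ∀ w : List (Fin R.r), w.length ≤ n → (∃ x : R.E, R.sw w x ≠ x) →
    ∃ i, R.sw w (R.a i) ∈ R.neg := by
  induction n with
  | zero =>
    intro w hw hx
    obtain ⟨x, hx⟩ := hx
    have h1 : w = [] := List.length_eq_zero_iff.1 (Nat.le_zero.1 hw)
    subst h1
    exact absurd (R.sw_nil x) hx
  | succ n ih =>
    intro w hw hx
    rcases List.eq_nil_or_concat w with h | ⟨u, i, h⟩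
    · subst h
      obtain ⟨x, hx⟩ := hx
      exact absurd (R.sw_nil x) hx
    · have h' : w = u ++ [i] := by rw [h, List.concat_eq_append]
      subst h'
      rcases R.pos_or_neg (R.sw_mem (w := u ++ [i]) (R.mem i)) with h1 | h1
      · obtain ⟨w', hw', he⟩ := shorter R i u h1
        obtain ⟨x, hx⟩ := hx
        obtain ⟨k, hk⟩ := ih w' (by omega) ⟨x, by rw [he]; exact hx⟩
        exact ⟨k, by rw [← he]; exact hk⟩
      · exact ⟨i, h1⟩

/-- DSC: a word which moves some vector has a descent. -/
theorem dsc : DscStmt := by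
  intro ℓ G _ R w hx
  refine ⟨descent R w.length w le_rfl hx, ?_⟩
  refine descent R w.reverse.length w.reverse le_rfl ?_
  by_contra hc
  push Not at hc
  obtain ⟨x, hx⟩ := hx
  have h1 := hc (R.sw w x)
  rw [R.sw_reverse_sw] at h1
  exact hx h1.symm

end Pool.Agent.PP.X1.H29
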