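import Pool.Agent.Helper12_AWB.B100

/-! Copy (generated) of the module `Pool.Agent.Helper36_X1.SlStmts` with import lines for the bundle Helper12_AWB. -/

/-!
# Squad X1: the example `SL_{n+1}(K)`, `K` a finite field of characteristic `ℓ`
-/

open scoped BigOperators

noncomputable section

namespace Pool.Agent.PP.X1.Sl

/-- the root `e_p - e_q` -/
def rt {n : ℕ} (p q : Fin (n + 1)) : EuclideanSpace ℝ (Fin (n + 1)) :=
  EuclideanSpace.single p 1 - EuclideanSpace.single q 1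

/-- the roots -/
def roots (n : ℕ) : Set (EuclideanSpace ℝ (Fin (n + 1))) := {b | ∃ p q, p ≠ q ∧ b = rt p q}

/-- the simple roots -/
def al {n : ℕ} (i : Fin n) : EuclideanSpace ℝ (Fin (n + 1)) := rt i.castSucc i.succ

section

variable (K : Type) [Field K] (n : ℕ)

/-- the matrix `1 + c E_{pq}` -/
def tv (p q : Fin (n + 1)) (c : K) : Matrix.SpecialLinearGroup (Fin (n + 1)) K :=
  if h : p ≠ q then ⟨Matrix.transvection p q c, Matrix.det_transvection_of_ne p q h c⟩ else 1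

/-- the root groups -/
def XX (b : EuclideanSpace ℝ (Fin (n + 1))) :
    Subgroup (Matrix.SpecialLinearGroup (Fin (n + 1)) K) :=
  Subgroup.closure {g | ∃ p q c, p ≠ q ∧ b = rt p q ∧ g = tv K n p q c}

/-- the diagonal matrices -/
def TT : Subgroup (Matrix.SpecialLinearGroup (Fin (n + 1)) K) :=
  Subgroup.closure {g | ∀ p q, p ≠ q → (g : Matrix (Fin (n + 1)) (Fin (n + 1)) K) p q = 0}

/-- the representatives of the simple reflections -/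
def nn (i : Fin n) : Matrix.SpecialLinearGroup (Fin (n + 1)) K :=
  tv K n i.castSucc i.succ 1 * tv K n i.succ i.castSucc (-1) * tv K n i.castSucc i.succ 1

end

/-- SLR: the roots. -/
def SlrStmt : Prop := ∀ n : ℕ, (roots n).Finite ∧ LinearIndependent ℝ (al (n := n)) ∧
  (∀ p q p' q' : Fin (n + 1), p ≠ q → p' ≠ q' → rt p q = rt p' q' → p = p' ∧ q = q') ∧
  (∀ p q : Fin (n + 1), -rt p q = rt q p) ∧ (∀ p q s : Fin (n + 1), rt p q + rt q s = rt p s) ∧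
  (∀ p q : Fin (n + 1), p ≠ q → (Nn (al (n := n)) (rt p q) ↔ p < q)) ∧
  (∀ (i : Fin n) (p q : Fin (n + 1)), rf (al i) (rt p q) =
    rt (Equiv.swap i.castSucc i.succ p) (Equiv.swap i.castSucc i.succ q)) ∧
  (∀ (p q : Fin (n + 1)) (c : ℝ), p ≠ q → 0 < c → c • rt p q ∈ roots n → c = 1) ∧
  ∀ (p q p' q' : Fin (n + 1)) (x y : ℝ), p ≠ q → p' ≠ q' → ¬ (p = q' ∧ q = p') → 1 ≤ x → 1 ≤ y →
    x • rt p q + y • rt p' q' ∈ roots n →
    x = 1 ∧ y = 1 ∧ ((q = p' ∧ p ≠ q') ∨ (q' = p ∧ p' ≠ q))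

/-- SLX: the root groups. -/
def SlxStmt : Prop := ∀ (K : Type) [Field K] [Finite K] (n : ℕ),
  (∀ (p q : Fin (n + 1)) (c : K), p ≠ q →
    (tv K n p q c : Matrix (Fin (n + 1)) (Fin (n + 1)) K) = Matrix.transvection p q c) ∧
  (∀ (p q : Fin (n + 1)), p ≠ q → ∀ g, g ∈ XX K n (rt p q) ↔ ∃ c, g = tv K n p q c) ∧
  (∀ b, b ∉ roots n → XX K n b = ⊥) ∧
  (∀ (p q : Fin (n + 1)) (c d : K), p ≠ q →
    tv K n p q c * tv K n p q d = tv K n p q (c + d)) ∧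
  (∀ (p q : Fin (n + 1)) (c : K), (tv K n p q c)⁻¹ = tv K n p q (-c)) ∧
  (∀ (p q s : Fin (n + 1)) (c d : K), p ≠ q → q ≠ s → p ≠ s →
    tv K n p q c * tv K n q s d * (tv K n p q c)⁻¹ * (tv K n q s d)⁻¹ = tv K n p s (c * d)) ∧
  (∀ (p q p' q' : Fin (n + 1)) (c d : K), p ≠ q → p' ≠ q' → q ≠ p' → p ≠ q' →
    tv K n p q c * tv K n p' q' d = tv K n p' q' d * tv K n p q c) ∧
  ∀ (ℓ : ℕ) [Fact ℓ.Prime] [CharP K ℓ] (p q : Fin (n + 1)), p ≠ q →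
    IsPGroup ℓ (XX K n (rt p q)) ∧ XX K n (rt p q) ≠ ⊥

/-- SLT: the torus and the reflections. -/
def SltStmt : Prop := ∀ (K : Type) [Field K] [Finite K] (n : ℕ),
  (∀ g, g ∈ TT K n ↔ ∀ p q, p ≠ q → (g : Matrix (Fin (n + 1)) (Fin (n + 1)) K) p q = 0) ∧
  (∀ (ℓ : ℕ) [Fact ℓ.Prime] [CharP K ℓ], ¬ ℓ ∣ Nat.card (TT K n)) ∧
  Subgroup.center (Matrix.SpecialLinearGroup (Fin (n + 1)) K) ≤ TT K n ∧
  (∀ t ∈ TT K n, ∀ (p q : Fin (n + 1)) (c : K), p ≠ q →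
    ∃ c', t * tv K n p q c * t⁻¹ = tv K n p q c') ∧
  (∀ (i : Fin n) (p q : Fin (n + 1)) (c : K), p ≠ q →
    ∃ c', nn K n i * tv K n p q c * (nn K n i)⁻¹ =
      tv K n (Equiv.swap i.castSucc i.succ p) (Equiv.swap i.castSucc i.succ q) c') ∧
  (∀ (i : Fin n), ∀ t ∈ TT K n, nn K n i * t * (nn K n i)⁻¹ ∈ TT K n) ∧
  (∀ (i : Fin n), nn K n i * nn K n i ∈ TT K n) ∧
  ∀ (i : Fin n) (c : K), c ≠ 0 → ∃ t ∈ TT K n, ∃ y z : K,
    nn K n i * tv K n i.castSucc i.succ c * (nn K n i)⁻¹ =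
      tv K n i.castSucc i.succ y * (nn K n i * t) * tv K n i.castSucc i.succ z

/-- SLO: the opposite groups, generation. -/
def SloStmt : Prop := ∀ (K : Type) [Field K] [Finite K] (n : ℕ),
  (⨆ b ∈ {b | b ∈ roots n ∧ Nn (al (n := n)) b}, XX K n b) ⊓
    (TT K n ⊔ ⨆ b ∈ {b | b ∈ roots n ∧ Nn (al (n := n)) (-b)}, XX K n b) = ⊥ ∧
  TT K n ⊔ ⨆ b ∈ roots n, XX K n b = ⊤

end Pool.Agent.PP.X1.Sl
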