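import Pool.Agent.Helper12_AWB.B100
import Pool.Agent.Helper66_AWS.S059
import Pool.Agent.Helper66_AWS.S060
import Pool.Agent.Helper66_AWS.S071
import Pool.Agent.Helper12_AWB.B046
import Pool.Agent.Helper12_AWB.B047

/-! Copy (generated) of the module `Pool.Agent.Helper30_X1.Alx` with import lines for the bundle Helper12_AWB. -/

/-!
# Squad X1: module ALX, the class function supported on `M` which acts like `e`

Text: `AWC_X1.md`, section G; compare `Helper40_BN/Bal.lean`.
-/

open scoped BigOperators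

noncomputable section

namespace Pool.Agent.PP.X1.H30

open Pool.Agent.Helper51_AWC Pool.Agent.Helper79_WRA Pool.Agent.PP Pool.Agent.PP.X1
open Pool.Agent.PP.BN.H40

theorem alx (hBrx : BrxStmt) (hDzx : DzxStmt) (hPcx : PcxStmt) (hBas : BasStmt) : AlxStmt := by
  intro ℓ _ F _ hF D _ _ M R hR ζ e he hζ he0 hp
  have hMn := hR.normal
  have hTrz : TrzStmt := Pool.Agent.PP.BN.H48.trz
  have hCns : CnsStmt := Pool.Agent.PP.BN.H99.cns
  have hEig : EigStmt := Pool.Agent.PP.H20.eig
  obtain ⟨hez, -, hbrx⟩ := hBrx ℓ F hF D M R hR ζ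
  obtain ⟨-, -, -, h2, h3⟩ := hbrx e he hζ he0 hp
  have hdz := hDzx ℓ F hF D M R hR _ h2 h3
  obtain ⟨a, ha, haM, had, hacts⟩ := hPcx ℓ F hF D M R hR
  obtain ⟨-, -, -, -, -, -, hpU, -, -⟩ := hBas ℓ D M R hR
  have hpU' : IsPGroup ℓ R.U :=
    hpU.of_equiv (R.U.equivMapOfInjective M.subtype M.subtype_injective).symm
  have hezM : ∀ x, x ∉ M → ez ζ x = 0 := by
    intro x hx
    unfold ez
    rw [dif_neg]
    intro h
    exact hx (hR.zM h)
  have hmM : ∀ x, x ∉ M → mulF (ez ζ) a x = 0 := by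
    intro x hx
    unfold mulF
    have := Fintype.ofFinite D
    rw [finsum_eq_sum_of_fintype]
    refine Finset.sum_eq_zero fun t _ => ?_
    by_cases ht : t ∈ M
    · rw [haM (t⁻¹ * x), mul_zero]
      intro h
      exact hx (by simpa using M.mul_mem ht h)
    · rw [hezM t ht, zero_mul]
  have hαM : ∀ x, x ∉ M → (fun x => ez ζ x - mulF (ez ζ) a x) x = 0 := by
    intro x hx
    change ez ζ x - mulF (ez ζ) a x = 0
    rw [hezM x hx, hmM x hx, sub_zero]
  have hcl : IsCl (fun x => ez ζ x - mulF (ez ζ) a x) := by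
    intro x y
    change ez ζ _ - mulF (ez ζ) a _ = ez ζ x - mulF (ez ζ) a x
    rw [hez.1, H20.isCl_mulF hez.1 ha]
  -- the action on the irreducible representations of `M`
  have hσ : ∀ (k : ℕ) (σ : M →* Matrix (Fin k) (Fin k) F),
      ev σ (fun t : M => (fun x => ez ζ x - mulF (ez ζ) a x) t) =
        ev σ (fun t : M => ez ζ t) - ev σ (fun t : M => ez ζ t) * ev σ (fun t : M => a t) := by
    intro k σ
    change ev σ (fun t : M => ez ζ t - mulF (ez ζ) a t) = _
    rw [ev_sub' σ (fun t : M => ez ζ t) (fun t : M => mulF (ez ζ) a t),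
      H20.ev_res_mul σ hezM]
  have hσ1 : ∀ (k : ℕ) (σ : M →* Matrix (Fin k) (Fin k) F), IsIrr σ →
      (SZ R.U σ → ev σ (fun t : M => (fun x => ez ζ x - mulF (ez ζ) a x) t) =
        ev σ (fun t : M => ez ζ t)) ∧
      (¬ SZ R.U σ → ev σ (fun t : M => (fun x => ez ζ x - mulF (ez ζ) a x) t) = 0) := by
    intro k σ hi
    refine ⟨fun hs => ?_, fun hs => ?_⟩
    · rw [hσ, (hacts k σ hi).1 hs, mul_zero, sub_zero]
    · rw [hσ, (hacts k σ hi).2 hs, mul_one, sub_self]
  refine ⟨fun x => ez ζ x - mulF (ez ζ) a x, hcl, hαM, ?_, hσ1⟩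
  intro m ρ hρ
  obtain ⟨k, σ, X, Y, hi, hYX, hX, hY⟩ := hCns ℓ F hF D M hMn hR.index m ρ hρ
  obtain ⟨w, hw, -, -⟩ := hEig F D m ρ hρ _ hcl
  have h4 := ev_mul_right M ρ σ X hX _ hαM
  have h5 : ev σ (fun t : M => (fun x => ez ζ x - mulF (ez ζ) a x) t) = w • 1 := by
    have h6 := congrArg (fun Z => Y * Z) h4
    change Y * (ev ρ _ * X) = Y * (X * _) at h6
    rw [← Matrix.mul_assoc, ← Matrix.mul_assoc, hYX, Matrix.one_mul, hw, scalar_eq_smul,
      Matrix.mul_smul, Matrix.smul_mul, Matrix.mul_one, hYX] at h6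
    exact h6.symm
  by_cases hs : SZ R.U σ
  · -- the sum of `U` acts as zero on the constituent
    have h6 : ev ρ (fun x => ez ζ x - e x) = 0 := by
      obtain ⟨w', hw', -, hw''⟩ := hEig F D m ρ hρ (fun x => ez ζ x - e x) h2.1
      rcases hw'' h2 with h7 | h7
      · rw [hw', h7, map_zero]
      · exfalso
        rw [h7, map_one] at hw'
        obtain ⟨φ, hφ⟩ := hTrz ℓ F hF D (fun x => ez ζ x - e x) h2.1 hdz m ρ
        obtain ⟨φ', hφ'⟩ := trace_coset ρ (up R.U) φ
        rw [hw', hφ'] at hφ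
        obtain ⟨v, hv0, hvU⟩ := Pool.Agent.PP.H20.fixed_vector hF.prime hF.char R.U hpU' hi.1
          (σ.comp R.U.subtype)
        have hvU' : ∀ u ∈ R.U, (σ u).mulVec v = v := fun u hu => hvU ⟨u, hu⟩
        have f1 := Fintype.ofFinite (up R.U : Subgroup D)
        have f2 := Fintype.ofFinite R.U
        obtain ⟨E, e3⟩ : ∃ E : R.U ≃ (up R.U : Subgroup D), ∀ u : R.U, (E u : D) = ((u : M) : D) :=
          ⟨(R.U.equivMapOfInjective M.subtype M.subtype_injective).toEquiv, fun _ => rfl⟩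
        have h8 : (1 : Matrix (Fin k) (Fin k) F) =
            ∑ u : R.U, σ (u : M) * (Y * φ' * X) * σ (u : M)⁻¹ := by
          have h9 : (1 : Matrix (Fin k) (Fin k) F) = Y * (1 : Matrix (Fin m) (Fin m) F) * X := by
            rw [Matrix.mul_one, hYX]
          rw [h9, hφ, finsum_eq_sum_of_fintype, Matrix.mul_sum, Matrix.sum_mul]
          refine (Equiv.sum_comp E
            (fun u : (up R.U : Subgroup D) => Y * (ρ (u : D) * φ' * ρ (u : D)⁻¹) * X)).symm.trans ?_
          refine Finset.sum_congr rfl fun u _ => ?_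
          have e1 := hY (u : M)
          have e2 := hX (u : M)⁻¹
          rw [e3 u]
          rw [Subgroup.coe_inv] at e2
          calc Y * (ρ ((u : M) : D) * φ' * ρ ((u : M) : D)⁻¹) * X
              = (Y * ρ ((u : M) : D)) * φ' * (ρ ((u : M) : D)⁻¹ * X) := by
                simp only [Matrix.mul_assoc]
            _ = σ (u : M) * (Y * φ' * X) * σ (u : M)⁻¹ := by
                rw [e1, e2]; simp only [Matrix.mul_assoc]
        apply hv0
        have h10 : (1 : Matrix (Fin k) (Fin k) F).mulVec v =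
            (∑ u : R.U, σ (u : M)).mulVec ((Y * φ' * X).mulVec v) := by
          rw [h8, Matrix.sum_mulVec, Matrix.sum_mulVec]
          refine Finset.sum_congr rfl fun u _ => ?_
          rw [← Matrix.mulVec_mulVec, ← Matrix.mulVec_mulVec,
            hvU' _ (R.U.inv_mem u.2)]
        have h11 : ∑ u : R.U, σ (u : M) = 0 := by
          rw [← finsum_eq_sum_of_fintype]; exact hs
        rw [h11, Matrix.zero_mulVec, Matrix.one_mulVec] at h10
        exact h10
    -- `e` acts like `ez`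
    have h7 : ev ρ e = ev ρ (ez ζ) := by
      rw [ev_sub' ρ (ez ζ) e, sub_eq_zero] at h6
      exact h6.symm
    obtain ⟨w', hw', -, -⟩ := hEig F D m ρ hρ (ez ζ) hez.1
    have h8 := ev_mul_right M ρ σ X hX _ hezM
    have h9 : ev σ (fun t : M => ez ζ t) = w' • 1 := by
      have h6 := congrArg (fun Z => Y * Z) h8
      change Y * (ev ρ _ * X) = Y * (X * _) at h6
      rw [← Matrix.mul_assoc, ← Matrix.mul_assoc, hYX, Matrix.one_mul, hw', scalar_eq_smul,
        Matrix.mul_smul, Matrix.smul_mul, Matrix.mul_one, hYX] at h6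
      exact h6.symm
    have h10 : w = w' := smul_one_inj hi.1 (by rw [← h5, ← h9, (hσ1 k σ hi).1 hs])
    rw [hw, h7, hw', h10]
  · -- the sum of `U` does not act as zero
    have h6 : w = 0 := smul_one_inj hi.1 (by rw [← h5, (hσ1 k σ hi).2 hs, zero_smul])
    rw [hw, h6, map_zero]
    obtain ⟨w', hw', -, hw''⟩ := hEig F D m ρ hρ e he.1
    rcases hw'' he with h7 | h7
    · rw [hw', h7, map_zero]
    · exfalso
      rw [h7, map_one] at hw'
      have h8 := ev_zero_of_pos hEig hp ha had hρ hw'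
      have h9 := ev_mul_right M ρ σ X hX _ haM
      rw [h8, Matrix.zero_mul, (hacts k σ hi).2 hs, Matrix.mul_one] at h9
      rw [← h9, Matrix.mul_zero] at hYX
      have h10 := congrFun (congrFun hYX ⟨0, hi.1⟩) ⟨0, hi.1⟩
      simp at h10

end Pool.Agent.PP.X1.H30
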