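import Pool.Agent.Helper66_AWS.S102

/-! Copy (generated) of the module `Pool.Agent.Helper33_X1.Sln` with import lines for the bundle Helper12_AWB. -/

/-!
# Squad X1: the root group datum of `SL_{n+1}(K)`
-/

set_option autoImplicit false

noncomputable section

namespace Pool.Agent.PP.X1.Sl.H33

open Pool.Agent.PP.X1 Pool.Agent.PP.X1.Sl

theorem sln (hR : SlrStmt) (hX : SlxStmt) (hT : SltStmt) (hO : SloStmt) : SlnStmt := by
  intro ℓ _ K _ _ _ n
  obtain ⟨rFin, rInd, rInj, rNeg, rAdd, rNn, rRf, rOne, _⟩ := hR n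
  obtain ⟨_, xMem, _, xAdd, xInv, xComm, xTriv, xP⟩ := hX K n
  obtain ⟨_, tCard, tCen, tNorm, nNorm, nT, nSq, nCell⟩ := hT K n
  obtain ⟨oOpp, oGen⟩ := hO K n
  have hcs : ∀ i : Fin n, i.castSucc ≠ i.succ := fun i => by
    intro h
    have := congrArg Fin.val h
    simp at this
  have tv0 : ∀ p q : Fin (n + 1), p ≠ q → tv K n p q 0 = 1 := by
    intro p q hpq
    have h1 := xAdd p q 0 0 hpq
    rw [add_zero] at h1
    exact mul_eq_left.1 h1
  have xin : ∀ (p q : Fin (n + 1)) (c : K), p ≠ q → tv K n p q c ∈ XX K n (rt p q) :=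
    fun p q c hpq => (xMem p q hpq _).2 ⟨c, rfl⟩
  refine ⟨{ m := n + 1, r := n, a := al, Φ := roots n, X := XX K n, T := TT K n, n := nn K n,
            fin := rFin, base := rInd, mem := ?_, ne0 := ?_, sgn := ?_, refl := ?_, short := ?_,
            pgrp := ?_, nt := ?_, nest := ?_, cop := tCard ℓ, tX := ?_, nX := ?_, nT := nT,
            nn := nSq, nmem := ?_, comm := ?_, cell := ?_, opp := ?_, gen := ?_ }, tCen⟩
  · intro i
    exact ⟨i.castSucc, i.succ, hcs i, rfl⟩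
  · rintro b ⟨p, q, hpq, rfl⟩ h0
    have h1 := rNeg p q
    rw [h0, neg_zero, ← h0] at h1
    exact hpq (rInj p q q p hpq hpq.symm h1).1
  · rintro b ⟨p, q, hpq, rfl⟩
    rcases lt_or_gt_of_ne hpq with h | h
    · exact Or.inl ((rNn p q hpq).2 h)
    · right
      rw [rNeg]
      exact (rNn q p hpq.symm).2 h
  · rintro i b ⟨p, q, hpq, rfl⟩
    rw [rRf]
    exact ⟨_, _, fun h => hpq ((Equiv.swap i.castSucc i.succ).injective h), rfl⟩
  · intro i c hc h
    exact (rOne i.castSucc i.succ c (hcs i) hc h).ge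
  · rintro b ⟨p, q, hpq, rfl⟩
    exact (xP ℓ p q hpq).1
  · intro i
    exact (xP ℓ i.castSucc i.succ (hcs i)).2
  · rintro b ⟨p, q, hpq, rfl⟩ c hc h
    have h1 := rOne p q c hpq (lt_of_lt_of_le one_pos hc) h
    rw [h1, one_smul]
  · rintro t ht b ⟨p, q, hpq, rfl⟩ x hx
    obtain ⟨c, rfl⟩ := (xMem p q hpq x).1 hx
    obtain ⟨c', hc'⟩ := tNorm t ht p q c hpq
    rw [hc']
    exact xin p q c' hpq
  · rintro i b ⟨p, q, hpq, rfl⟩ x hx
    obtain ⟨c, rfl⟩ := (xMem p q hpq x).1 hx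
    obtain ⟨c', hc'⟩ := nNorm i p q c hpq
    rw [hc', rRf]
    exact xin _ _ c' (fun h => hpq ((Equiv.swap i.castSucc i.succ).injective h))
  · intro i
    have h1 : ∀ c, tv K n i.castSucc i.succ c ∈ XX K n (al i) ⊔ XX K n (-al i) := fun c =>
      (le_sup_left : XX K n (al i) ≤ _) (xin _ _ c (hcs i))
    have h2 : ∀ c, tv K n i.succ i.castSucc c ∈ XX K n (al i) ⊔ XX K n (-al i) := fun c =>
      (le_sup_right : XX K n (-al i) ≤ _) (by
        have h3 : -al i = rt i.succ i.castSucc := rNeg _ _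
        rw [h3]
        exact xin _ _ c (hcs i).symm)
    exact mul_mem (mul_mem (h1 1) (h2 (-1))) (h1 1)
  · rintro b ⟨p, q, hpq, rfl⟩ c ⟨p', q', hpq', rfl⟩ hne x hx y hy
    obtain ⟨u, rfl⟩ := (xMem p q hpq x).1 hx
    obtain ⟨v, rfl⟩ := (xMem p' q' hpq' y).1 hy
    have hn : ¬ (p = q' ∧ q = p') := by
      rintro ⟨h1, h2⟩
      apply hne 1 one_pos
      rw [one_smul, rNeg, h1, h2]
    have key : ∀ d, d ∈ roots n → d = rt p q + rt p' q' →
        XX K n d ≤ ⨆ d ∈ {d | d ∈ roots n ∧ ∃ x y : ℝ, 1 ≤ x ∧ 1 ≤ y ∧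
          d = x • rt p q + y • rt p' q'}, XX K n d := by
      intro d hd hd2
      exact le_iSup₂_of_le d ⟨hd, 1, 1, le_rfl, le_rfl, by rw [one_smul, one_smul]; exact hd2⟩ le_rfl
    by_cases h1 : q = p'
    · subst h1
      have h2 : p ≠ q' := fun h => hn ⟨h, rfl⟩
      rw [xComm p q q' u v hpq hpq' h2]
      exact key (rt p q') ⟨p, q', h2, rfl⟩ (rAdd p q q').symm (xin _ _ _ h2)
    · by_cases h2 : q' = p
      · subst h2
        have h3 : p' ≠ q := fun h => h1 h.symm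
        have h4 := xComm p' q' q v u hpq' hpq h3
        have h5 : tv K n q' q u * tv K n p' q' v * (tv K n q' q u)⁻¹ * (tv K n p' q' v)⁻¹ =
            (tv K n p' q' v * tv K n q' q u * (tv K n p' q' v)⁻¹ * (tv K n q' q u)⁻¹)⁻¹ := by
          group
        rw [h5, h4]
        exact inv_mem (key (rt p' q) ⟨p', q, h3, rfl⟩ ((rAdd p' q' q).symm.trans (add_comm _ _))
          (xin _ _ _ h3))
      · have h3 := xTriv p q p' q' u v hpq hpq' h1 (fun h => h2 h.symm)
        rw [h3, mul_assoc, mul_assoc, ← mul_assoc (tv K n p q u), mul_inv_cancel, one_mul,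
          mul_inv_cancel]
        exact one_mem _
  · intro i x hx hx1
    obtain ⟨c, rfl⟩ := (xMem _ _ (hcs i) x).1 hx
    have hc : c ≠ 0 := by
      rintro rfl
      exact hx1 (tv0 _ _ (hcs i))
    obtain ⟨t, ht, y, z, h⟩ := nCell i c hc
    exact ⟨_, xin _ _ y (hcs i), _, xin _ _ z (hcs i), t, ht, h⟩
  · exact oOpp
  · exact oGen

end Pool.Agent.PP.X1.Sl.H33
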