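import Pool.Agent.Helper12_AWB.B100
import Pool.Agent.Helper66_AWS.S096

/-! Copy (generated) of the module `Pool.Agent.Helper35_X1.Cem` with import lines for the bundle Helper12_AWB. -/

/-!
# Squad X1: module CEM, the centralisers of the unipotent radicals
-/

open scoped BigOperators

noncomputable section

namespace Pool.Agent.PP.X1.H35

open Pool.Agent.PP Pool.Agent.PP.X1

/-! ## Elements of order a power of `ℓ` and of order prime to `ℓ` -/

section general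

variable {D : Type} [Group D]

/-- Decomposition of an element of a finite group. -/
lemma decomp [Finite D] (ℓ : ℕ) [hℓ : Fact ℓ.Prime] (c : D) :
    ∃ c₁ c₂ : D, c = c₁ * c₂ ∧ c₁ ∈ Subgroup.zpowers c ∧ c₂ ∈ Subgroup.zpowers c ∧
      (∃ a : ℕ, c₁ ^ (ℓ ^ a) = 1) ∧ ∃ m : ℕ, Nat.Coprime m ℓ ∧ c₂ ^ m = 1 := by
  obtain ⟨a, m, hm, he⟩ := Nat.exists_eq_pow_mul_and_not_dvd (orderOf_pos c).ne' ℓ hℓ.out.ne_one
  have hcop : Nat.Coprime m ℓ := ((Nat.Prime.coprime_iff_not_dvd hℓ.out).mpr hm).symm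
  have hcop2 : IsCoprime ((ℓ ^ a : ℕ) : ℤ) (m : ℤ) :=
    Nat.isCoprime_iff_coprime.mpr (Nat.Coprime.pow_left a hcop.symm)
  obtain ⟨u, v, huv⟩ := hcop2
  have hord : c ^ (((ℓ ^ a : ℕ) : ℤ) * (m : ℤ)) = 1 := by
    rw [← Nat.cast_mul, zpow_natCast, ← he, pow_orderOf_eq_one]
  refine ⟨c ^ (v * m), c ^ (u * ((ℓ ^ a : ℕ) : ℤ)), ?_, ⟨_, rfl⟩, ⟨_, rfl⟩, ⟨a, ?_⟩, m, hcop, ?_⟩
  · rw [← zpow_add, add_comm, huv, zpow_one]
  · rw [← zpow_natCast, ← zpow_mul]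
    have e : v * (m : ℤ) * ((ℓ ^ a : ℕ) : ℤ) = ((ℓ ^ a : ℕ) : ℤ) * (m : ℤ) * v := by ring
    rw [e, zpow_mul, hord, one_zpow]
  · rw [← zpow_natCast, ← zpow_mul]
    have e : u * ((ℓ ^ a : ℕ) : ℤ) * (m : ℤ) = ((ℓ ^ a : ℕ) : ℤ) * (m : ℤ) * u := by ring
    rw [e, zpow_mul, hord, one_zpow]

lemma isPGroup_zpowers {ℓ : ℕ} {x : D} {a : ℕ} (h : x ^ (ℓ ^ a) = 1) :
    IsPGroup ℓ (Subgroup.zpowers x) := by
  rintro ⟨g, j, rfl⟩
  refine ⟨a, ?_⟩
  ext
  simp only [Subgroup.coe_pow, Subgroup.coe_one]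
  rw [← zpow_natCast, ← zpow_mul, mul_comm, zpow_mul, zpow_natCast, h, one_zpow]

/-- An `ℓ`-element which normalises a Sylow `ℓ`-subgroup is in it. -/
lemma mem_of_norm [Finite D] {ℓ : ℕ} [hℓ : Fact ℓ.Prime] {U : Subgroup D} (hU : IsPGroup ℓ U)
    (hi : ¬ ℓ ∣ U.index) {x : D} {a : ℕ} (hx : x ^ (ℓ ^ a) = 1)
    (hn : ∀ u ∈ U, x * u * x⁻¹ ∈ U) : x ∈ U := by
  have h1 : Subgroup.zpowers x ≤ Subgroup.normalizer (U : Set D) := by
    rw [Subgroup.zpowers_le, Subgroup.mem_normalizer_iff]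
    intro u
    constructor
    · exact fun hu => hn u hu
    · intro hu
      have key : ∀ n : ℕ, ∀ v ∈ U, x ^ n * v * (x ^ n)⁻¹ ∈ U := by
        intro n
        induction n with
        | zero => intro v hv; simpa using hv
        | succ n ih =>
          intro v hv
          have e : x ^ (n + 1) * v * (x ^ (n + 1))⁻¹ = x ^ n * (x * v * x⁻¹) * (x ^ n)⁻¹ := by
            rw [pow_succ]; group
          rw [e]
          exact ih _ (hn v hv)
      have h2 := key (ℓ ^ a - 1) _ hu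
      have h3 : x ^ (ℓ ^ a - 1) = x⁻¹ := by
        have h4 : x ^ (ℓ ^ a - 1) * x = 1 := by
          rw [← pow_succ, Nat.sub_add_cancel (Nat.pos_of_ne_zero
            (pow_ne_zero a hℓ.out.ne_zero)), hx]
        exact eq_inv_of_mul_eq_one_left h4
      rw [h3] at h2
      have e : x⁻¹ * (x * u * x⁻¹) * x⁻¹⁻¹ = u := by group
      rwa [e] at h2
  have h2 : IsPGroup ℓ (Subgroup.zpowers x ⊔ U : Subgroup D) :=
    IsPGroup.to_sup_of_normal_right' (isPGroup_zpowers hx) hU h1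
  have h3 : U ≤ Subgroup.zpowers x ⊔ U := le_sup_right
  have h4 : U.relIndex (Subgroup.zpowers x ⊔ U) = 1 := by
    obtain ⟨k, hk⟩ := (IsPGroup.iff_card.mp h2)
    have h5 : U.relIndex (Subgroup.zpowers x ⊔ U) ∣ ℓ ^ k := by
      rw [← hk]
      exact Subgroup.relIndex_dvd_card _ _
    obtain ⟨j, hj, he⟩ := (Nat.dvd_prime_pow hℓ.out).mp h5
    rcases Nat.eq_zero_or_pos j with rfl | hj0
    · rw [he, pow_zero]
    · exfalso
      apply hi
      have h6 : U.relIndex (Subgroup.zpowers x ⊔ U) ∣ U.index :=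
        Subgroup.relIndex_dvd_index_of_le h3
      exact (dvd_pow_self ℓ hj0.ne').trans (he ▸ h6)
  have h5 : Subgroup.zpowers x ⊔ U ≤ U := Subgroup.relIndex_eq_one.mp h4
  exact h5 (Subgroup.mem_sup_left (Subgroup.mem_zpowers x))

lemma eq_one_of_coprime {m n : ℕ} (h : Nat.Coprime m n) {x : D} (h1 : x ^ m = 1)
    (h2 : x ^ n = 1) : x = 1 := by
  have h3 := orderOf_dvd_of_pow_eq_one h1
  have h4 := orderOf_dvd_of_pow_eq_one h2
  have h5 : orderOf x ∣ 1 := by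
    have := Nat.dvd_gcd h3 h4
    rwa [Nat.Coprime.gcd_eq_one h] at this
  exact orderOf_eq_one_iff.mp (Nat.dvd_one.mp h5)

end general

/-! ## The centraliser in the group with the root group datum -/

section grp

variable {ℓ : ℕ} {G : Type} [Group G] (R : RGD ℓ G)

/-- The centraliser of the unipotent radical. -/
def CM (J : Finset (Fin R.r)) : Subgroup G := Subgroup.centralizer (R.UJ J : Set G)

lemma mem_CM {J : Finset (Fin R.r)} {c : G} : c ∈ CM R J ↔ ∀ x ∈ R.UJ J, x * c = c * x := by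
  rw [CM, Subgroup.mem_centralizer_iff]
  rfl

lemma CM_le [Fact ℓ.Prime] [Finite G] (par : ParStmt) (J : Finset (Fin R.r)) :
    CM R J ≤ R.PJ J := by
  intro c hc
  rw [(par ℓ G R J).1]
  intro x hx
  rw [← (mem_CM R).mp hc x hx, mul_assoc, mul_inv_cancel, mul_one]
  exact hx

lemma CM_conj [Fact ℓ.Prime] [Finite G] (par : ParStmt) {J : Finset (Fin R.r)} {g c : G}
    (hg : g ∈ R.PJ J) (hc : c ∈ CM R J) : g * c * g⁻¹ ∈ CM R J := by
  rw [mem_CM] at hc ⊢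
  intro x hx
  have h1 := ((par ℓ G R J).1 g⁻¹).mp ((R.PJ J).inv_mem hg) x hx
  rw [inv_inv] at h1
  have h2 := hc _ h1
  have h3 : x * (g * c * g⁻¹) = g * (g⁻¹ * x * g * c) * g⁻¹ := by group
  rw [h3, h2]
  group

lemma B_le_PJ (bruh : BruhStmt) [Fact ℓ.Prime] [Finite G] (par : ParStmt)
    (J : Finset (Fin R.r)) : R.B ≤ R.PJ J := by
  rw [← (bruh ℓ G R).2.2.2.1, (par ℓ G R ∅).2.2.2.1]
  exact Finset.empty_subset J

/-- The group `C_M B`. -/
def CB [Fact ℓ.Prime] [Finite G] (bruh : BruhStmt) (par : ParStmt) (J : Finset (Fin R.r)) :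
    Subgroup G where
  carrier := {g | ∃ c ∈ CM R J, ∃ b ∈ R.B, g = c * b}
  one_mem' := ⟨1, Subgroup.one_mem _, 1, Subgroup.one_mem _, by rw [mul_one]⟩
  mul_mem' := by
    rintro _ _ ⟨c, hc, b, hb, rfl⟩ ⟨c', hc', b', hb', rfl⟩
    refine ⟨c * (b * c' * b⁻¹), Subgroup.mul_mem _ hc
      (CM_conj R par (B_le_PJ R bruh par J hb) hc'), b * b', Subgroup.mul_mem _ hb hb', ?_⟩
    group
  inv_mem' := by
    rintro _ ⟨c, hc, b, hb, rfl⟩
    refine ⟨b⁻¹ * c⁻¹ * b⁻¹⁻¹, CM_conj R par (Subgroup.inv_mem _ (B_le_PJ R bruh par J hb))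
      (Subgroup.inv_mem _ hc), b⁻¹, Subgroup.inv_mem _ hb, ?_⟩
    group

lemma not_ray {i k : Fin R.r} (h : i ≠ k) : R.a k ∉ R.ray i := by
  classical
  rintro ⟨-, c, hc, he⟩
  have h1 := Fintype.linearIndependent_iff.mp R.base
    (fun j => (if j = k then (1 : ℝ) else 0) - (if j = i then c else 0)) (by
      simp only [sub_smul, ite_smul, one_smul, zero_smul, Finset.sum_sub_distrib,
        Finset.sum_ite_eq', Finset.mem_univ, if_true]
      rw [he, sub_self]) k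
  simp only [if_true, if_neg h.symm, sub_zero] at h1
  exact one_ne_zero h1

lemma s_ak_pos {i k : Fin R.r} (h : i ≠ k) : R.s i (R.a k) ∈ R.pos :=
  R.s_pos (R.a_pos k) (not_ray R h)

/-- If `s_i a_k` is on the ray of `a_k` then it is `a_k`. -/
lemma s_ak_ray {i k : Fin R.r} (h : R.s i (R.a k) ∈ R.ray k) : R.s i (R.a k) = R.a k := by
  obtain ⟨-, c, hc, he⟩ := h
  have h1 : R.a k = (c * c) • R.a k := by
    calc R.a k = R.s i (R.s i (R.a k)) := (R.s_s i _).symm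
      _ = (c * c) • R.a k := by rw [he, R.s_smul, he, smul_smul]
  have h2 : (c * c - 1) • R.a k = 0 := by rw [sub_smul, one_smul, ← h1, sub_self]
  have h3 : c * c - 1 = 0 := (smul_eq_zero.mp h2).resolve_right (R.a_ne k)
  have h4 : c = 1 := by nlinarith
  rw [he, h4, one_smul]

/-- The group `gp (pos \ ray k)` is normal in `B`. -/
lemma B_conj_gp (pel : PelStmt) (clo : R.Clo R.pos) (k : Fin R.r) {b y : G} (hb : b ∈ R.B)
    (hy : y ∈ R.gp (R.pos \ R.ray k)) : b * y * b⁻¹ ∈ R.gp (R.pos \ R.ray k) := by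
  obtain ⟨u, hu, t, ht, rfl⟩ := R.mem_B.mp hb
  have h1 : t * y * t⁻¹ ∈ R.gp (R.pos \ R.ray k) := R.T_gp (fun _ h => h.1.1) ht hy
  obtain ⟨x, hx, v, hv, rfl⟩ := (pel ℓ G R k).2.1 R.pos clo (fun _ h => h) u hu
  have hx' : x ∈ R.X (R.a k) := (pel ℓ G R k).2.2.2.2.2.1 R.pos hx
  have h2 : v * (t * y * t⁻¹) * v⁻¹ ∈ R.gp (R.pos \ R.ray k) :=
    Subgroup.mul_mem _ (Subgroup.mul_mem _ hv h1) (Subgroup.inv_mem _ hv)
  have h3 := (pel ℓ G R k).2.2.2.1 x hx' _ h2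
  have e : x * v * t * y * (x * v * t)⁻¹ = x * (v * (t * y * t⁻¹) * v⁻¹) * x⁻¹ := by group
  rw [e]
  exact h3

/-- The inverse of the element of a word. -/
lemma nw_inv (wrd : WrdStmt) (z : List (Fin R.r)) : ∃ t ∈ R.T, (R.nw z)⁻¹ = t * R.nw z.reverse := by
  have h1 := (wrd ℓ G R).2.1 (z.reverse ++ z) [] (by
    intro x
    rw [R.sw_append, R.sw_reverse_sw]
    rfl)
  have h2 : R.nw ([] : List (Fin R.r)) = 1 := rfl
  rw [h2, inv_one, one_mul, R.nw_append] at h1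
  refine ⟨(R.nw z.reverse * R.nw z)⁻¹, R.T.inv_mem h1, ?_⟩
  group

lemma a_pos_diff {J : Finset (Fin R.r)} {k : Fin R.r} (hk : k ∉ J) :
    R.a k ∈ R.pos \ R.lev J :=
  ⟨R.a_pos k, fun h => R.base.notMem_span_image (by simpa using hk) h.2⟩

end grp

section main

variable {ℓ : ℕ} [Fact ℓ.Prime] {D : Type} [Group D] [Finite D] {M : Subgroup D} (R : RGD ℓ M)

/-- The centraliser of the unipotent radical in `M` is in the Borel subgroup. -/
lemma CM_le_B (hD : RgD ℓ M R) (con : ConStmt) (par : ParStmt) (bruh : BruhStmt) (pel : PelStmt)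
    (lng : LngStmt) (wrd : WrdStmt) {J : Finset (Fin R.r)} (hJ : J ≠ Finset.univ) :
    CM R J ≤ R.B := by
  obtain ⟨J', hJ'⟩ := (par ℓ M R J).2.2.2.2.2 (CB R bruh par J)
    (fun b hb => ⟨1, Subgroup.one_mem _, b, hb, (one_mul b).symm⟩)
  have hle : CM R J ≤ R.PJ J' := by
    rw [← hJ']
    exact fun c hc => ⟨c, hc, 1, Subgroup.one_mem _, (mul_one c).symm⟩
  have hsub : J' ⊆ J := by
    rw [← (par ℓ M R J').2.2.2.1 J, ← hJ']
    rintro _ ⟨c, hc, b, hb, rfl⟩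
    exact Subgroup.mul_mem _ (CM_le R par J hc) (B_le_PJ R bruh par J hb)
  rcases J'.eq_empty_or_nonempty with he | hne
  · rw [he, (bruh ℓ M R).2.2.2.1] at hle
    exact hle
  exfalso
  have hJ'u : J' ≠ Finset.univ := by
    intro h
    apply hJ
    rw [h] at hsub
    exact Finset.univ_subset_iff.mp hsub
  obtain ⟨i, hi, k, hk, hik⟩ := con ℓ D M R hD J' hne hJ'u
  have hne' : i ≠ k := fun h => hk (h ▸ hi)
  have hni : R.n i ∈ R.PJ J' := by
    have := (bruh ℓ M R).1 J' [i] (by simpa using hi)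
    simpa [RGD.nw] using this
  rw [← hJ'] at hni
  obtain ⟨c, hc, b, hb, hcb⟩ := hni
  by_cases hkJ : k ∈ J
  · -- `k` in `J`
    have hnk : R.n k ∈ R.PJ J := by
      have := (bruh ℓ M R).1 J [k] (by simpa using hkJ)
      simpa [RGD.nw] using this
    have hc' : R.n k * c * (R.n k)⁻¹ ∈ R.PJ J' := hle (CM_conj R par hnk hc)
    obtain ⟨z, hz, b₁, hb₁, b₂, hb₂, he⟩ := (bruh ℓ M R).2.1 J' _ hc'
    obtain ⟨t₀, ht₀, het₀⟩ := nw_inv R wrd z
    obtain ⟨t₁, ht₁, het₁⟩ := nw_inv R wrd [k, i]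
    obtain ⟨t₂, ht₂, het₂⟩ := nw_inv R wrd [k]
    have hnk1 : R.nw [k] = R.n k := by simp [RGD.nw]
    have hrk : ([k] : List (Fin R.r)).reverse = [k] := rfl
    have hrki : ([k, i] : List (Fin R.r)).reverse = [i, k] := rfl
    rw [hrk, hnk1] at het₂
    rw [hrki] at het₁
    have hki : R.nw [k, i] = R.n k * R.n i := by simp [RGD.nw]
    rw [hki] at het₁
    have hbB : R.n k * (R.n k)⁻¹ = 1 := mul_inv_cancel _
    -- the inverse of `n k` in the other form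
    have hinv : (R.n k)⁻¹ = R.n k * (R.n k * R.n k)⁻¹ := by group
    have h1 : (R.n k * R.n i)⁻¹ = b⁻¹ * (R.n k * ((R.n k * R.n k)⁻¹ * b₂⁻¹ * t₀) * R.nw z.reverse) *
        b₁⁻¹ := by
      have e1 : R.n k * R.n i = (R.n k * c * (R.n k)⁻¹) * R.n k * b := by rw [hcb]; group
      rw [e1, he]
      have e2 : (b₁ * R.nw z * b₂ * R.n k * b)⁻¹ =
          b⁻¹ * ((R.n k)⁻¹ * b₂⁻¹ * (R.nw z)⁻¹) * b₁⁻¹ := by group
      rw [e2, het₀]
      nth_rewrite 1 [hinv]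
      group
    have hb₃ : (R.n k * R.n k)⁻¹ * b₂⁻¹ * t₀ ∈ R.B :=
      Subgroup.mul_mem _ (Subgroup.mul_mem _ (Subgroup.inv_mem _ (R.T_le_B (R.nn k)))
        (Subgroup.inv_mem _ hb₂)) (R.T_le_B ht₀)
    have hzr : ∀ j ∈ z.reverse, j ∈ J' := fun j hj => hz j (List.mem_reverse.mp hj)
    have hzpos : R.sw z (R.a k) ∈ R.pos :=
      (((lng ℓ M R J').1 z hz).2 _ |>.mpr (a_pos_diff R hk)).1
    have hzrpos : R.sw z.reverse (R.a k) ∈ R.pos :=
      (((lng ℓ M R J').1 z.reverse hzr).2 _ |>.mpr (a_pos_diff R hk)).1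
    obtain ⟨c₂, hc₂, d₂, hd₂, halt⟩ := (bruh ℓ M R).2.2.2.2.1 k z.reverse _ hb₃
    rcases halt with h2 | ⟨h2, -⟩
    swap
    · rw [List.reverse_reverse] at h2
      exact R.not_pos_neg hzpos h2
    have h3 : R.nw [i, k] = (t₁⁻¹ * b⁻¹ * c₂) * R.nw (k :: z.reverse) * (d₂ * b₁⁻¹) := by
      have e1 : R.nw [i, k] = t₁⁻¹ * (R.n k * R.n i)⁻¹ := by rw [het₁]; group
      rw [e1, h1, h2]
      group
    have h4 := (bruh ℓ M R).2.2.2.2.2 [i, k] (k :: z.reverse) ⟨_,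
      Subgroup.mul_mem _ (Subgroup.mul_mem _ (R.T_le_B (R.T.inv_mem ht₁))
        (Subgroup.inv_mem _ hb)) hc₂, _, Subgroup.mul_mem _ hd₂ (Subgroup.inv_mem _ hb₁), h3⟩
      (R.a k)
    have h5 : R.sw [i, k] (R.a k) = -R.s i (R.a k) := by
      change R.s i (R.s k (R.a k)) = _
      rw [R.s_self, R.s_neg]
    have h6 : R.sw (k :: z.reverse) (R.a k) = R.s k (R.sw z.reverse (R.a k)) := rfl
    rw [h5, h6] at h4
    by_cases hr : R.sw z.reverse (R.a k) ∈ R.ray k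
    · rw [R.s_ray hr, neg_inj] at h4
      apply hik
      apply s_ak_ray R
      rw [h4]
      exact hr
    · have h7 := R.s_pos hzrpos hr
      rw [← h4] at h7
      exact R.not_nn_neg (s_ak_pos R hne').1 (s_ak_pos R hne').2 h7.2
  · -- `k` not in `J`
    obtain ⟨y, hy, hy1⟩ : ∃ y ∈ R.X (R.a k), y ≠ 1 := by
      rcases Subgroup.bot_or_exists_ne_one (R.X (R.a k)) with h | h
      · exact absurd h (R.nt k)
      · exact h
    have hyU : y ∈ R.UJ J := R.X_le_gp (a_pos_diff R hkJ) hy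
    have hx : b * y * b⁻¹ ∈ R.UJ J :=
      ((par ℓ M R J).1 b).mp (B_le_PJ R bruh par J hb) y hyU
    have hcx := (mem_CM R).mp hc _ hx
    have h1 : R.n i * y * (R.n i)⁻¹ = b * y * b⁻¹ := by
      rw [hcb]
      have e : c * b * y * (c * b)⁻¹ = c * (b * y * b⁻¹) * c⁻¹ := by group
      rw [e, ← hcx]
      group
    have h2 : R.n i * y * (R.n i)⁻¹ ∈ R.gp (R.pos \ R.ray k) := by
      have h3 : R.n i * y * (R.n i)⁻¹ ∈ R.X (R.s i (R.a k)) := R.nX i _ (R.mem k) y hy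
      refine R.X_le_gp ?_ h3
      exact ⟨s_ak_pos R hne', fun h => hik (s_ak_ray R h)⟩
    rw [h1] at h2
    have h3 := B_conj_gp R pel (H32.clo_pos R) k (Subgroup.inv_mem _ hb) h2
    have e : b⁻¹ * (b * y * b⁻¹) * b⁻¹⁻¹ = y := by group
    rw [e] at h3
    exact hy1 ((pel ℓ M R k).1 y hy h3)

lemma mem_up {A : Subgroup M} {x : D} : x ∈ up A ↔ ∃ h : x ∈ M, (⟨x, h⟩ : M) ∈ A := by
  constructor
  · rintro ⟨y, hy, rfl⟩
    exact ⟨y.2, hy⟩
  · rintro ⟨h, hx⟩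
    exact ⟨⟨x, h⟩, hx, rfl⟩

lemma coe_mem_up {A : Subgroup M} {x : M} : (x : D) ∈ up A ↔ x ∈ A := by
  rw [mem_up]
  exact ⟨fun ⟨_, h⟩ => h, fun h => ⟨x.2, h⟩⟩

lemma UJ_le_U (J : Finset (Fin R.r)) : R.UJ J ≤ R.U := R.gp_mono Set.sdiff_subset

/-- CEM: the centralisers of the unipotent radicals. -/
theorem cem (con : ConStmt) (ced : CedStmt) (bas : BasStmt) (par : ParStmt) (bruh : BruhStmt)
    (pel : PelStmt) (lng : LngStmt) (wrd : WrdStmt) : CemStmt := by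
  intro ℓ _ D _ _ M R hD J hJ c hc
  have hn := hD.normal
  obtain ⟨b1, b2, -, -, -, -, b7, b8, -⟩ := bas ℓ D M R hD
  have hCB := CM_le_B R hD con par bruh pel lng wrd hJ
  have hprime : ℓ.Prime := Fact.out
  -- centre
  have hZ : ∀ z ∈ Subgroup.center D, z ^ Nat.card (Subgroup.center D) = 1 := by
    intro z hz
    exact orderOf_dvd_iff_pow_eq_one.mp (Subgroup.orderOf_dvd_natCard _ hz)
  have hZc : Nat.Coprime (Nat.card (Subgroup.center D)) ℓ :=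
    ((Nat.Prime.coprime_iff_not_dvd hprime).mpr b2).symm
  -- elements of `up U` are `ℓ`-elements
  have hUp : ∀ u ∈ up R.U, ∃ a : ℕ, u ^ (ℓ ^ a) = 1 := by
    intro u hu
    obtain ⟨a, ha⟩ := b7 ⟨u, hu⟩
    refine ⟨a, ?_⟩
    have h2 := congrArg (fun t : up R.U => (t : D)) ha
    simpa using h2
  have hUJU : up (R.UJ J) ≤ up R.U := Subgroup.map_mono (UJ_le_U R J)
  -- `ℓ`-elements of `B` are in `U`
  have F0 : ∀ y : M, y ∈ R.B → ∀ a : ℕ, y ^ (ℓ ^ a) = 1 → y ∈ R.U := by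
    intro y hy a ha
    have h1 : ((y : D)) ^ (ℓ ^ a) = 1 := by
      have := congrArg (fun t : M => (t : D)) ha
      simpa using this
    have h2 : (y : D) ∈ up R.U := by
      refine mem_of_norm b7 b8 h1 ?_
      rintro _ ⟨u, hu, rfl⟩
      have h3 := R.B_U hy hu
      exact ⟨_, h3, rfl⟩
    exact coe_mem_up.mp h2
  -- `C_M` and `U`
  have hQ : CM R J ⊓ R.U ≤ R.UJ J := by
    refine (par ℓ M R J).2.2.1 _ (inf_le_left.trans (CM_le R par J)) ?_ ?_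
    · intro x
      obtain ⟨a, ha⟩ := hUp ((x : M) : D) (coe_mem_up.mpr x.2.2)
      refine ⟨a, ?_⟩
      ext
      simpa using ha
    · intro g hg x hx
      have h1 := CM_conj R par hg hx.1
      refine ⟨h1, ?_⟩
      obtain ⟨a, ha⟩ := hUp (x : D) (coe_mem_up.mpr hx.2)
      refine F0 _ (hCB h1) a ?_
      have h2 : x ^ (ℓ ^ a) = 1 := by
        ext
        simpa using ha
      rw [conj_pow, h2, mul_one, mul_inv_cancel]
  -- membership
  have hCM : ∀ x : M, (x : D) ∈ Subgroup.centralizer ((up (R.UJ J) : Subgroup D) : Set D) →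
      x ∈ CM R J := by
    intro x hx
    rw [mem_CM]
    intro y hy
    have h1 := Subgroup.mem_centralizer_iff.mp hx (y : D) (coe_mem_up.mpr hy)
    ext
    simpa using h1
  have F3 : ∀ x ∈ Subgroup.centralizer ((up (R.UJ J) : Subgroup D) : Set D), x ∈ M →
      ∀ a : ℕ, x ^ (ℓ ^ a) = 1 → x ∈ up (R.UJ J) := by
    intro x hx hxM a ha
    have h1 := hCM ⟨x, hxM⟩ hx
    have h2 : (⟨x, hxM⟩ : M) ^ (ℓ ^ a) = 1 := by
      ext
      simpa using ha
    have h3 := F0 _ (hCB h1) a h2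
    exact mem_up.mpr ⟨hxM, hQ ⟨h1, h3⟩⟩
  -- the coprime argument
  have F2 : ∀ x ∈ Subgroup.centralizer ((up (R.UJ J) : Subgroup D) : Set D), ∀ m : ℕ,
      Nat.Coprime m ℓ → x ^ m = 1 → (∀ u ∈ up R.U, x * u * x⁻¹ * u⁻¹ ∈ up (R.UJ J)) →
      x ∈ Subgroup.center D := by
    intro x hx m hm hxm hu
    have h1 : ∀ u ∈ up R.U, u * x = x * u := by
      intro u huU
      have hz := hu u huU
      have hzx : x * (x * u * x⁻¹ * u⁻¹) * x⁻¹ = x * u * x⁻¹ * u⁻¹ := by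
        rw [← Subgroup.mem_centralizer_iff.mp hx _ hz]
        group
      have hpow : ∀ k : ℕ, x ^ k * u * (x ^ k)⁻¹ = (x * u * x⁻¹ * u⁻¹) ^ k * u := by
        intro k
        induction k with
        | zero => simp
        | succ k ih =>
          have e : x ^ (k + 1) * u * (x ^ (k + 1))⁻¹ = x * (x ^ k * u * (x ^ k)⁻¹) * x⁻¹ := by
            rw [pow_succ']; group
          have e2 : x * ((x * u * x⁻¹ * u⁻¹) ^ k * u) * x⁻¹ =
              (x * (x * u * x⁻¹ * u⁻¹) * x⁻¹) ^ k * (x * u * x⁻¹ * u⁻¹) * u := by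
            rw [conj_pow]; group
          rw [e, ih, e2, hzx, pow_succ]
      have h2 := hpow m
      rw [hxm, one_mul, inv_one, mul_one] at h2
      have h3 : (x * u * x⁻¹ * u⁻¹) ^ m = 1 := (mul_eq_right.mp h2.symm)
      obtain ⟨a, ha⟩ := hUp _ (hUJU hz)
      have h4 : x * u * x⁻¹ * u⁻¹ = 1 :=
        eq_one_of_coprime (Nat.Coprime.pow_right a hm) h3 ha
      have h5 : x * u = u * x := by
        have e : x * u = (x * u * x⁻¹ * u⁻¹) * (u * x) := by group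
        rw [e, h4, one_mul]
      exact h5.symm
    have h2 : x ∈ up R.U ⊔ Subgroup.center D :=
      ced ℓ D M R hD (Subgroup.mem_centralizer_iff.mpr h1)
    rw [← SetLike.mem_coe, Subgroup.mul_normal] at h2
    obtain ⟨u, huU, z, hz, hxe⟩ := h2
    have hxe' : u * z = x := hxe
    subst hxe'
    have hcomm : Commute u z := by
      have := Subgroup.mem_center_iff.mp hz u
      exact this
    obtain ⟨a, ha⟩ := hUp u huU
    have h3 : u ^ (m * Nat.card (Subgroup.center D)) = 1 := by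
      have h4 : (u * z) ^ (m * Nat.card (Subgroup.center D)) = 1 := by
        rw [pow_mul, hxm, one_pow]
      rw [hcomm.mul_pow, mul_comm m, pow_mul z, hZ z hz, one_pow, mul_one] at h4
      rw [mul_comm m]
      exact h4
    have h4 : u = 1 :=
      eq_one_of_coprime (Nat.Coprime.pow_right a (Nat.Coprime.mul_left hm hZc)) h3 ha
    rw [h4, one_mul]
    exact hz
  -- elements of `C` in `M`
  have F4 : ∀ x ∈ Subgroup.centralizer ((up (R.UJ J) : Subgroup D) : Set D), x ∈ M →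
      x ∈ up (R.UJ J) ⊔ Subgroup.center D := by
    intro x hx hxM
    obtain ⟨x₁, x₂, he, hx₁, hx₂, ⟨a, ha⟩, m, hm, hxm⟩ := decomp ℓ x
    have c₁ := (Subgroup.zpowers_le.mpr hx) hx₁
    have c₂ := (Subgroup.zpowers_le.mpr hx) hx₂
    have m₁ := (Subgroup.zpowers_le.mpr hxM) hx₁
    have m₂ := (Subgroup.zpowers_le.mpr hxM) hx₂
    have h1 : x₁ ∈ up (R.UJ J) := F3 x₁ c₁ m₁ a ha
    have h2 : x₂ ∈ Subgroup.center D := by
      refine F2 x₂ c₂ m hm hxm ?_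
      rintro _ ⟨u, hu, rfl⟩
      have h3 : (⟨x₂, m₂⟩ : M) ∈ CM R J := hCM ⟨x₂, m₂⟩ c₂
      have h4 : (⟨x₂, m₂⟩ : M) * u * (⟨x₂, m₂⟩ : M)⁻¹ * u⁻¹ ∈ CM R J := by
        have h5 := CM_conj R par (B_le_PJ R bruh par J (R.U_le_B hu)) (Subgroup.inv_mem _ h3)
        have h6 := Subgroup.mul_mem _ h3 h5
        have e : (⟨x₂, m₂⟩ : M) * (u * (⟨x₂, m₂⟩ : M)⁻¹ * u⁻¹) =
            (⟨x₂, m₂⟩ : M) * u * (⟨x₂, m₂⟩ : M)⁻¹ * u⁻¹ := by group
        rwa [e] at h6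
      have h5 : (⟨x₂, m₂⟩ : M) * u * (⟨x₂, m₂⟩ : M)⁻¹ * u⁻¹ ∈ R.U :=
        Subgroup.mul_mem _ (R.B_U (hCB h3) hu) (Subgroup.inv_mem _ hu)
      exact ⟨_, hQ ⟨h4, h5⟩, rfl⟩
    rw [he]
    exact Subgroup.mul_mem_sup h1 h2
  -- all elements of `C`
  obtain ⟨c₁, c₂, he, hc₁, hc₂, ⟨a, ha⟩, m, hm, hcm⟩ := decomp ℓ c
  have k₁ := (Subgroup.zpowers_le.mpr hc) hc₁
  have k₂ := (Subgroup.zpowers_le.mpr hc) hc₂
  have m₁ : c₁ ∈ M := (b1 _ (isPGroup_zpowers ha)).1 (Subgroup.mem_zpowers c₁)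
  have h1 : c₁ ∈ up (R.UJ J) := F3 c₁ k₁ m₁ a ha
  have h2 : c₂ ∈ Subgroup.center D := by
    refine F2 c₂ k₂ m hm hcm ?_
    rintro _ ⟨u, hu, rfl⟩
    have hcen : (u : D) * c₂⁻¹ * (u : D)⁻¹ ∈
        Subgroup.centralizer ((up (R.UJ J) : Subgroup D) : Set D) := by
      rw [Subgroup.mem_centralizer_iff]
      rintro _ ⟨y, hy, rfl⟩
      have huP := B_le_PJ R bruh par J (R.U_le_B hu)
      have h3 := ((par ℓ M R J).1 u⁻¹).mp (Subgroup.inv_mem _ huP) y hy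
      rw [inv_inv] at h3
      have h4 := Subgroup.mem_centralizer_iff.mp (Subgroup.inv_mem _ k₂) _ (coe_mem_up.mpr h3)
      push_cast at h4
      change (y : D) * ((u : D) * c₂⁻¹ * (u : D)⁻¹) = (u : D) * c₂⁻¹ * (u : D)⁻¹ * (y : D)
      have e : (y : D) * ((u : D) * c₂⁻¹ * (u : D)⁻¹) =
          (u : D) * ((u : D)⁻¹ * (y : D) * (u : D) * c₂⁻¹) * (u : D)⁻¹ := by group
      rw [e, h4]
      group
    change c₂ * (u : D) * c₂⁻¹ * (u : D)⁻¹ ∈ up (R.UJ J)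
    have hw : c₂ * (u : D) * c₂⁻¹ * (u : D)⁻¹ ∈
        Subgroup.centralizer ((up (R.UJ J) : Subgroup D) : Set D) := by
      have e : c₂ * (u : D) * c₂⁻¹ * (u : D)⁻¹ = c₂ * ((u : D) * c₂⁻¹ * (u : D)⁻¹) := by group
      rw [e]
      exact Subgroup.mul_mem _ k₂ hcen
    have hwM : c₂ * (u : D) * c₂⁻¹ * (u : D)⁻¹ ∈ M :=
      M.mul_mem (hn.conj_mem _ u.2 c₂) (M.inv_mem u.2)
    have h3 := F4 _ hw hwM
    rw [← SetLike.mem_coe, Subgroup.mul_normal] at h3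
    obtain ⟨z₁, hz₁, z₂, hz₂, he2⟩ := h3
    have he3 : z₁ * z₂ = c₂ * (u : D) * c₂⁻¹ * (u : D)⁻¹ := he2
    have hzc := Subgroup.mem_center_iff.mp hz₂
    have h4 : c₂ * (u : D) * c₂⁻¹ = (z₁ * (u : D)) * z₂ := by
      have e : c₂ * (u : D) * c₂⁻¹ = (z₁ * z₂) * (u : D) := by rw [he3]; group
      rw [e, mul_assoc, mul_assoc, hzc (u : D)]
    obtain ⟨e₁, he₁⟩ := hUp (u : D) (coe_mem_up.mpr hu)
    obtain ⟨e₂, he₂⟩ := hUp (z₁ * (u : D)) (Subgroup.mul_mem _ (hUJU hz₁) (coe_mem_up.mpr hu))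
    have h5 : z₂ ^ (ℓ ^ (e₁ + e₂)) = 1 := by
      have h6 : (c₂ * (u : D) * c₂⁻¹) ^ (ℓ ^ (e₁ + e₂)) = 1 := by
        rw [conj_pow, pow_add, pow_mul, he₁, one_pow, mul_one, mul_inv_cancel]
      have hcm2 : Commute (z₁ * (u : D)) z₂ := hzc _
      rw [h4, hcm2.mul_pow, pow_add, mul_comm (ℓ ^ e₁), pow_mul, he₂, one_pow, one_mul] at h6
      rw [pow_add, mul_comm (ℓ ^ e₁)]
      exact h6
    have h6 : z₂ = 1 := eq_one_of_coprime (Nat.Coprime.pow_right _ hZc) (hZ z₂ hz₂) h5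
    rw [← he3, h6, mul_one]
    exact hz₁
  rw [he]
  exact Subgroup.mul_mem_sup h1 h2

end main

end Pool.Agent.PP.X1.H35
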