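import Pool.Agent.Helper12_AWB.B100

/-! Copy (generated) of the module `Pool.Agent.Helper37_X1.Bts` with import lines for the bundle Helper12_AWB. -/

/-!
# X1, module BTS: the theorem of Borel and Tits
-/

open scoped BigOperators

noncomputable section

namespace Pool.Agent.PP.X1.H37

variable {ℓ : ℕ} {G : Type} [Group G] (R : RGD ℓ G)

theorem sw_norm (w : List (Fin R.r)) (v : R.E) : ‖R.sw w v‖ = ‖v‖ := by
  rw [norm_eq_sqrt_real_inner, norm_eq_sqrt_real_inner, R.sw_inner]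

/-- the image of a level set under a word -/
theorem sw_level (w : List (Fin R.r)) (ξ : R.E) (t : ℝ) :
    R.sw w '' {b | b ∈ R.Φ ∧ t ≤ inner ℝ ξ b} = {b | b ∈ R.Φ ∧ t ≤ inner ℝ (R.sw w ξ) b} := by
  ext b
  constructor
  · rintro ⟨c, ⟨hc, ht⟩, rfl⟩
    refine ⟨R.sw_mem hc, ?_⟩
    rw [R.sw_inner]
    exact ht
  · rintro ⟨hb, ht⟩
    refine ⟨R.sw w.reverse b, ⟨R.sw_mem hb, ?_⟩, R.sw_sw_reverse w b⟩
    have h1 := R.sw_inner w ξ (R.sw w.reverse b)
    rw [R.sw_sw_reverse] at h1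
    rw [← h1]
    exact ht

theorem nw_level (w : List (Fin R.r)) (ξ : R.E) (t : ℝ) {x : G}
    (hx : x ∈ R.gp {b | b ∈ R.Φ ∧ t ≤ inner ℝ ξ b}) :
    R.nw w * x * (R.nw w)⁻¹ ∈ R.gp {b | b ∈ R.Φ ∧ t ≤ inner ℝ (R.sw w ξ) b} := by
  rw [← sw_level]
  exact (R.gp_nw (fun b hb => hb.1)).2 hx

theorem B_le_PJ (J : Finset (Fin R.r)) : R.B ≤ R.PJ J :=
  sup_le_sup_left (R.gp_mono Set.subset_union_left) _

/-- the inner product with a positive root outside `J` is positive -/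
theorem inner_pos_of_pos {ξ : R.E} (hξ : ∀ i, (0 : ℝ) ≤ inner ℝ ξ (R.a i))
    {J : Finset (Fin R.r)} (hJ : ∀ i, i ∈ J ↔ inner ℝ ξ (R.a i) = (0 : ℝ)) {b : R.E}
    (hb : b ∈ R.pos \ R.lev J) : (0 : ℝ) < inner ℝ ξ b := by
  obtain ⟨⟨hbΦ, k, hk, hbk⟩, hbJ⟩ := hb
  have h1 : (inner ℝ ξ b : ℝ) = ∑ i, k i * inner ℝ ξ (R.a i) := by
    rw [hbk, inner_sum]
    apply Finset.sum_congr rfl
    intro i _
    rw [real_inner_smul_right]
  have h2 : ∀ i ∈ (Finset.univ : Finset (Fin R.r)), 0 ≤ k i * inner ℝ ξ (R.a i) :=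
    fun i _ => mul_nonneg (hk i) (hξ i)
  have h3 : (0 : ℝ) ≤ inner ℝ ξ b := by
    rw [h1]
    exact Finset.sum_nonneg h2
  rcases h3.lt_or_eq with h4 | h4
  · exact h4
  exfalso
  apply hbJ
  refine ⟨hbΦ, ?_⟩
  rw [h1] at h4
  have h5 := (Finset.sum_eq_zero_iff_of_nonneg h2).1 h4.symm
  rw [hbk]
  apply Submodule.sum_mem
  intro i _
  by_cases hi : i ∈ J
  · exact Submodule.smul_mem _ _ (Submodule.subset_span ⟨i, hi, rfl⟩)
  · have h6 := h5 i (Finset.mem_univ i)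
    have h7 : (inner ℝ ξ (R.a i) : ℝ) ≠ 0 := fun h => hi ((hJ i).2 h)
    have h8 : k i = 0 := by
      rcases mul_eq_zero.1 h6 with h | h
      · exact h
      · exact absurd h h7
    rw [h8, zero_smul]
    exact Submodule.zero_mem _

/-- if `ξ` is orthogonal to all simple roots it is orthogonal to all roots -/
theorem inner_root_eq_zero {ξ : R.E} (hξ : ∀ i, inner ℝ ξ (R.a i) = (0 : ℝ)) {b : R.E}
    (hb : b ∈ R.Φ) : (inner ℝ ξ b : ℝ) = 0 := by
  have h : ∀ c : R.E, Nn R.a c → (inner ℝ ξ c : ℝ) = 0 := by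
    rintro c ⟨k, -, rfl⟩
    rw [inner_sum]
    apply Finset.sum_eq_zero
    intro i _
    rw [real_inner_smul_right, hξ, mul_zero]
  rcases R.sgn b hb with h1 | h1
  · exact h b h1
  · have h2 := h _ h1
    rw [inner_neg_right] at h2
    linarith

theorem norm_add_lt_two {V : Type*} [NormedAddCommGroup V] [InnerProductSpace ℝ V] {ξ η : V}
    (h1 : ‖ξ‖ = 1) (h2 : ‖η‖ = 1) (h : η ≠ ξ) : ‖ξ + η‖ < 2 := by
  have h3 := parallelogram_law_with_norm ℝ ξ η
  rw [h1, h2] at h3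
  have h4 : 0 < ‖ξ - η‖ := by
    rw [norm_pos_iff, sub_ne_zero]
    exact h.symm
  have h5 : 0 ≤ ‖ξ + η‖ := norm_nonneg _
  nlinarith [mul_pos h4 h4]

theorem bts (dom : DomStmt) (bru : BruhStmt) (syl : SylStmt) (par : ParStmt) (levS : LevStmt)
    (int : IntStmt) (opt : OptStmt) : BtsStmt := by
  intro ℓ _ G _ _ R Q hQ hQ1
  classical
  obtain ⟨g₁, hg₁⟩ := (syl ℓ G R).2.2.2.2 Q hQ
  obtain ⟨g, ξ, t, hξ1, hξ, ht, hgQ, hopt⟩ := opt ℓ G R Q hQ1 ⟨g₁⁻¹, fun x hx => by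
    rw [inv_inv]
    exact hg₁ x hx⟩
  set J : Finset (Fin R.r) := Finset.univ.filter (fun i => inner ℝ ξ (R.a i) = (0 : ℝ)) with hJdef
  have hJ : ∀ i, i ∈ J ↔ inner ℝ ξ (R.a i) = (0 : ℝ) := by
    intro i
    rw [hJdef, Finset.mem_filter]
    exact ⟨fun h => h.2, fun h => ⟨Finset.mem_univ i, h⟩⟩
  obtain ⟨hlev1, hlev2⟩ := levS ℓ G R ξ hξ t ht J hJ
  -- a nontrivial element
  obtain ⟨q₀, hq₀, hq₀1⟩ : ∃ q ∈ Q, q ≠ 1 := by
    obtain ⟨a, ha⟩ := Subgroup.ne_bot_iff_exists_ne_one.1 hQ1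
    exact ⟨a.1, a.2, fun h => ha (Subtype.ext h)⟩
  refine ⟨g, J, ?_, fun x hx => hlev2 (hgQ x hx), ?_⟩
  · intro hJu
    have h1 : ∀ i, inner ℝ ξ (R.a i) = (0 : ℝ) := by
      intro i
      rw [← hJ i, hJu]
      exact Finset.mem_univ i
    have h2 : {b | b ∈ R.Φ ∧ t ≤ inner ℝ ξ b} = (∅ : Set R.E) := by
      rw [Set.eq_empty_iff_forall_notMem]
      rintro b ⟨hb, hb2⟩
      rw [inner_root_eq_zero R h1 hb] at hb2
      linarith
    have h3 := hgQ q₀ hq₀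
    rw [h2, R.gp_empty, Subgroup.mem_bot] at h3
    apply hq₀1
    have h4 : q₀ = g * (g⁻¹ * q₀ * g) * g⁻¹ := by group
    rw [h4, h3]
    group
  · intro x hx
    -- conjugation by the inverse
    have hx' : ∀ y ∈ Q, x⁻¹ * y * x ∈ Q := by
      let f : Q → Q := fun y => ⟨x * y * x⁻¹, hx y y.2⟩
      have hf : Function.Injective f := by
        intro a b hab
        apply Subtype.ext
        have h1 : x * (a : G) * x⁻¹ = x * (b : G) * x⁻¹ := congrArg Subtype.val hab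
        exact (MulAut.conj x).injective h1
      have hs : Function.Surjective f := Finite.injective_iff_surjective.1 hf
      intro y hy
      obtain ⟨⟨z, hz⟩, hzy⟩ := hs ⟨y, hy⟩
      have h4 : x * z * x⁻¹ = y := congrArg Subtype.val hzy
      rw [← h4]
      have h5 : x⁻¹ * (x * z * x⁻¹) * x = z := by group
      rw [h5]
      exact hz
    obtain ⟨-, hbr2, hbr3, -, -, -⟩ := bru ℓ G R
    obtain ⟨w, -, b, hb, b', hb', hxw⟩ := hbr2 Finset.univ (g⁻¹ * x * g) (by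
      rw [hbr3]
      exact Subgroup.mem_top _)
    have hbJ : b ∈ R.PJ J := B_le_PJ R J hb
    have hb'J : b' ∈ R.PJ J := B_le_PJ R J hb'
    -- the two memberships
    have hA : ∀ y ∈ Q, b⁻¹ * (g⁻¹ * y * g) * b ∈ R.gp {b | b ∈ R.Φ ∧ t ≤ inner ℝ ξ b} := by
      intro y hy
      have h1 := hlev1 b⁻¹ ((R.PJ J).inv_mem hbJ) _ (hgQ y hy)
      rwa [inv_inv] at h1
    have hB : ∀ y ∈ Q, b⁻¹ * (g⁻¹ * y * g) * b ∈
        R.gp {b | b ∈ R.Φ ∧ t ≤ inner ℝ (R.sw w ξ) b} := by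
      intro y hy
      have h1 := hlev1 b' hb'J _ (hgQ _ (hx' y hy))
      have h2 := nw_level R w ξ t h1
      have h3 : R.nw w * (b' * (g⁻¹ * (x⁻¹ * y * x) * g) * b'⁻¹) * (R.nw w)⁻¹ =
          b⁻¹ * (g⁻¹ * y * g) * b := by
        have h4 : g⁻¹ * (x⁻¹ * y * x) * g = (g⁻¹ * x * g)⁻¹ * (g⁻¹ * y * g) * (g⁻¹ * x * g) := by
          group
        rw [h4, hxw]
        group
      rwa [h3] at h2
    have hC : ∀ y ∈ Q, b⁻¹ * (g⁻¹ * y * g) * b ∈
        R.gp {b | b ∈ R.Φ ∧ t + t ≤ inner ℝ (ξ + R.sw w ξ) b} := by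
      intro y hy
      exact int ℓ G R ξ (R.sw w ξ) hξ t t ht ht ⟨hA y hy, hB y hy⟩
    have hη1 : ‖R.sw w ξ‖ = 1 := by rw [sw_norm, hξ1]
    have hwξ : R.sw w ξ = ξ := by
      by_contra hne
      have hc2 := norm_add_lt_two hξ1 hη1 hne
      set c : ℝ := ‖ξ + R.sw w ξ‖ with hc
      have hc0 : 0 < c := by
        rw [hc, norm_pos_iff]
        intro h0
        have h1 : {b | b ∈ R.Φ ∧ t + t ≤ inner ℝ (ξ + R.sw w ξ) b} = (∅ : Set R.E) := by
          rw [Set.eq_empty_iff_forall_notMem]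
          rintro b ⟨-, hb2⟩
          rw [h0, inner_zero_left] at hb2
          linarith
        have h2 := hC q₀ hq₀
        rw [h1, R.gp_empty, Subgroup.mem_bot] at h2
        apply hq₀1
        have h4 : q₀ = g * (b * (b⁻¹ * (g⁻¹ * q₀ * g) * b) * b⁻¹) * g⁻¹ := by group
        rw [h4, h2]
        group
      obtain ⟨v, hv⟩ := dom ℓ G R (c⁻¹ • (ξ + R.sw w ξ))
      have h1 : ‖R.sw v (c⁻¹ • (ξ + R.sw w ξ))‖ = 1 := by
        rw [sw_norm, norm_smul, norm_inv, Real.norm_of_nonneg hc0.le, ← hc,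
          inv_mul_cancel₀ hc0.ne']
      have h2 : {b : R.E | b ∈ R.Φ ∧ t + t ≤ inner ℝ (ξ + R.sw w ξ) b} =
          {b : R.E | b ∈ R.Φ ∧ 2 * t / c ≤ inner ℝ (c⁻¹ • (ξ + R.sw w ξ)) b} := by
        ext b
        simp only [Set.mem_ofPred_eq, real_inner_smul_left]
        rw [div_le_iff₀ hc0]
        have h3 : c⁻¹ * (inner ℝ (ξ + R.sw w ξ) b : ℝ) * c = inner ℝ (ξ + R.sw w ξ) b := by
          field_simp
        rw [h3, two_mul]
      have h3 := hopt (g * b * (R.nw v)⁻¹) (R.sw v (c⁻¹ • (ξ + R.sw w ξ))) (2 * t / c) h1 hv (by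
        intro y hy
        have h4 := hC y hy
        rw [h2] at h4
        have h5 := nw_level R v _ _ h4
        have h6 : R.nw v * (b⁻¹ * (g⁻¹ * y * g) * b) * (R.nw v)⁻¹ =
            (g * b * (R.nw v)⁻¹)⁻¹ * y * (g * b * (R.nw v)⁻¹) := by group
        rwa [h6] at h5)
      rw [div_le_iff₀ hc0] at h3
      nlinarith
    -- the element of the word is in the parabolic subgroup
    have hw : R.nw w ∈ R.PJ J := by
      apply (par ℓ G R J).2.1
      intro y hy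
      have h1 : R.sw w '' (R.pos \ R.lev J) ⊆ R.pos := by
        rintro _ ⟨c, hc, rfl⟩
        have h2 := inner_pos_of_pos R hξ hJ hc
        have h3 : (0 : ℝ) < inner ℝ ξ (R.sw w c) := by
          rw [← R.sw_inner w ξ c, hwξ] at h2
          exact h2
        rcases R.pos_or_neg (R.sw_mem (w := w) hc.1.1) with h4 | h4
        · exact h4
        · exfalso
          obtain ⟨-, k, hk, hk2⟩ := h4
          have h5 : (inner ℝ ξ (-R.sw w c) : ℝ) = ∑ i, k i * inner ℝ ξ (R.a i) := by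
            rw [hk2, inner_sum]
            apply Finset.sum_congr rfl
            intro i _
            rw [real_inner_smul_right]
          have h6 : (0 : ℝ) ≤ inner ℝ ξ (-R.sw w c) := by
            rw [h5]
            exact Finset.sum_nonneg (fun i _ => mul_nonneg (hk i) (hξ i))
          rw [inner_neg_right] at h6
          linarith
      have h2 := (R.gp_nw (w := w) (A := R.pos \ R.lev J) (fun b hb => hb.1.1)).2 hy
      exact R.gp_mono h1 h2
    rw [hxw]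
    exact (R.PJ J).mul_mem ((R.PJ J).mul_mem hbJ hw) hb'J

end Pool.Agent.PP.X1.H37
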