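import Pool.Agent.Helper66_AWS.S110

/-! Copy (generated) of the module `Pool.Agent.Helper39_X1.Orb` with import lines for the bundle Helper12_AWB. -/

/-!
# X1, module ORB: every root is conjugate to a multiple of a simple root
-/

open scoped BigOperators

noncomputable section

namespace Pool.Agent.PP.X1.H39

open Pool.Agent.PP.X1

variable {ℓ : ℕ} {G : Type} [Group G] (R : RGD ℓ G)

theorem inner_s (δ : R.E) (hδ : ∀ i, (inner ℝ δ (R.a i) : ℝ) = 1) (i : Fin R.r) (v : R.E) :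
    (inner ℝ δ (R.s i v) : ℝ) = inner ℝ δ v -
      2 * inner ℝ (R.a i) v / inner ℝ (R.a i) (R.a i) := by
  rw [R.s_eq, inner_sub_right, real_inner_smul_right, hδ, mul_one]

theorem aa_pos (i : Fin R.r) : (0 : ℝ) < inner ℝ (R.a i) (R.a i) := by
  have h3 : (0 : ℝ) ≤ inner ℝ (R.a i) (R.a i) := real_inner_self_nonneg
  exact lt_of_le_of_ne h3 (Ne.symm (inner_self_ne_zero.mpr (R.a_ne i)))

/-- a nonzero nonnegative combination of simple roots has a positive inner product with some simple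
root -/
theorem exists_inner_pos {v : R.E} (hv : Nn R.a v) (h0 : v ≠ 0) :
    ∃ i, (0 : ℝ) < inner ℝ (R.a i) v := by
  obtain ⟨k, hk, hvk⟩ := hv
  by_contra hcon
  push Not at hcon
  have h1 : (inner ℝ v v : ℝ) = ∑ i, k i * inner ℝ (R.a i) v := by
    conv_lhs => rw [hvk, sum_inner]
    refine Finset.sum_congr rfl fun i _ => ?_
    rw [real_inner_smul_left, ← hvk]
  have h2 : ∑ i, k i * inner ℝ (R.a i) v ≤ (0 : ℝ) :=
    Finset.sum_nonpos fun i _ => mul_nonpos_of_nonneg_of_nonpos (hk i) (hcon i)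
  have h3 : (0 : ℝ) ≤ inner ℝ v v := real_inner_self_nonneg
  have h4 : (inner ℝ v v : ℝ) = 0 := le_antisymm (h1.le.trans h2) h3
  exact h0 (inner_self_eq_zero.mp h4)

theorem orb_pos {b : R.E} (hb : b ∈ R.pos) : ∃ (w : List (Fin R.r)) (i : Fin R.r) (c : ℝ),
    1 ≤ c ∧ b = c • R.sw w (R.a i) ∧ c • R.a i ∈ R.Φ := by
  obtain ⟨δ, -, hδ⟩ := exists_delta R
  let S : Set R.E := {x | x ∈ R.pos ∧ ∃ w, x = R.sw w b}
  have hS : S.Finite := R.fin.subset fun x hx => hx.1.1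
  have hSn : S.Nonempty := ⟨b, hb, [], rfl⟩
  obtain ⟨x, ⟨hx, w, hxw⟩, hmin⟩ := Set.exists_min_image S (fun x => (inner ℝ δ x : ℝ)) hS hSn
  obtain ⟨i, hi⟩ := exists_inner_pos R hx.2 (R.ne0 x hx.1)
  have h1 : (inner ℝ δ (R.s i x) : ℝ) < inner ℝ δ x := by
    rw [inner_s R δ hδ]
    have := div_pos (mul_pos (two_pos : (0 : ℝ) < 2) hi) (aa_pos R i)
    linarith
  have h2 : R.s i x ∉ R.pos := fun h => by
    have h3 := hmin (R.s i x) ⟨h, i :: w, by rw [R.sw_cons, ← hxw]⟩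
    exact absurd h3 (not_le.2 h1)
  have h3 : x ∈ R.ray i := by
    by_contra h
    exact h2 (R.s_pos hx h)
  obtain ⟨-, c, hc, hxc⟩ := h3
  have h4 : c • R.a i ∈ R.Φ := hxc ▸ hx.1
  refine ⟨w.reverse, i, c, R.short i c hc h4, ?_, h4⟩
  rw [← R.sw_smul, ← hxc, hxw, R.sw_reverse_sw]

theorem orb_neg {b : R.E} (hb : b ∈ R.neg) : ∃ (w : List (Fin R.r)) (i : Fin R.r) (c : ℝ),
    1 ≤ c ∧ b = c • R.sw w (R.a i) ∧ c • R.a i ∈ R.Φ := by
  obtain ⟨δ, -, hδ⟩ := exists_delta R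
  let S : Set R.E := {x | x ∈ R.neg ∧ ∃ w, x = R.sw w b}
  have hS : S.Finite := R.fin.subset fun x hx => hx.1.1
  have hSn : S.Nonempty := ⟨b, hb, [], rfl⟩
  obtain ⟨x, ⟨hx, w, hxw⟩, hmax⟩ := Set.exists_max_image S (fun x => (inner ℝ δ x : ℝ)) hS hSn
  obtain ⟨i, hi⟩ := exists_inner_pos R hx.2 (neg_ne_zero.mpr (R.ne0 x hx.1))
  rw [inner_neg_right] at hi
  have h1 : (inner ℝ δ x : ℝ) < inner ℝ δ (R.s i x) := by
    rw [inner_s R δ hδ]
    have := div_pos (mul_pos (two_pos : (0 : ℝ) < 2) hi) (aa_pos R i)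
    rw [mul_neg, neg_div] at this
    linarith
  have h2 : R.s i x ∉ R.neg := fun h => by
    have h3 := hmax (R.s i x) ⟨h, i :: w, by rw [R.sw_cons, ← hxw]⟩
    exact absurd h3 (not_le.2 h1)
  have h3 : R.s i x ∈ R.pos := (R.pos_or_neg (R.s_mem hx.1)).resolve_right h2
  have h4 : R.s i x ∈ R.ray i := by
    by_contra h
    have h5 := R.s_pos h3 h
    rw [R.s_s] at h5
    exact R.not_pos_neg h5 hx
  obtain ⟨-, c, hc, hxc⟩ := h4
  have h5 : c • R.a i ∈ R.Φ := hxc ▸ h3.1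
  refine ⟨w.reverse ++ [i], i, c, R.short i c hc h5, ?_, h5⟩
  rw [R.sw_append, R.sw_cons, R.sw_nil, ← R.sw_smul, ← R.s_smul, ← hxc, R.s_s, hxw,
    R.sw_reverse_sw]

theorem orb : OrbStmt := fun _ _ _ R _ hb => (R.pos_or_neg hb).elim (orb_pos R) (orb_neg R)

end Pool.Agent.PP.X1.H39
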