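import Pool.Agent.Helper12_AWB.B100

/-! Copy (generated) of the module `Pool.Agent.Helper41_X1.Wrd` with import lines for the bundle Helper12_AWB. -/

/-!
# Squad X1, module WRD: words with the same action
-/

open scoped BigOperators

set_option linter.unusedSectionVars false

noncomputable section

namespace Pool.Agent.PP.X1.H41

variable {ℓ : ℕ} {G : Type} [Group G] (R : RGD ℓ G)

theorem gp_pair (i : Fin R.r) : R.gp {R.a i, -R.a i} = R.X (R.a i) ⊔ R.X (-R.a i) := by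
  unfold RGD.gp
  exact iSup_pair

theorem pair_sub (i : Fin R.r) : ({R.a i, -R.a i} : Set R.E) ⊆ R.Φ := by
  rintro b (rfl | rfl)
  · exact R.mem i
  · exact R.neg_a_mem i

theorem T_L {i : Fin R.r} {t x : G} (ht : t ∈ R.T) (hx : x ∈ R.X (R.a i) ⊔ R.X (-R.a i)) :
    t * x * t⁻¹ ∈ R.X (R.a i) ⊔ R.X (-R.a i) := by
  rw [← gp_pair] at hx ⊢
  exact R.T_gp (pair_sub R i) ht hx

/-- part 4 -/
theorem four (i : Fin R.r) {t : G} (ht : t ∈ R.T) : R.n i * t * (R.n i)⁻¹ * t⁻¹ ∈ R.Ti i := by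
  refine Subgroup.mem_inf.2 ⟨R.T.mul_mem (R.nT i t ht) (R.T.inv_mem ht), ?_⟩
  have h1 := T_L R ht (Subgroup.inv_mem _ (R.nmem i))
  have h2 : R.n i * t * (R.n i)⁻¹ * t⁻¹ = R.n i * (t * (R.n i)⁻¹ * t⁻¹) := by group
  rw [h2]
  exact Subgroup.mul_mem _ (R.nmem i) h1

theorem Ti_le_T (i : Fin R.r) : R.Ti i ≤ R.T := inf_le_left

theorem TK_le_T (K : Finset (Fin R.r)) : R.TK K ≤ R.T := iSup₂_le fun i _ => Ti_le_T R i

theorem Ti_le_TK {K : Finset (Fin R.r)} {i : Fin R.r} (hi : i ∈ K) : R.Ti i ≤ R.TK K :=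
  le_iSup₂ (f := fun i (_ : i ∈ K) => R.Ti i) i hi

/-- part 3, torus -/
theorem three_T (K : Finset (Fin R.r)) {t x : G} (ht : t ∈ R.T) (hx : x ∈ R.TK K) :
    t * x * t⁻¹ ∈ R.TK K := by
  have h : R.TK K ≤ (R.TK K).comap (MulAut.conj t).toMonoidHom := by
    refine iSup₂_le fun i hi y hy => ?_
    rw [Subgroup.mem_comap]
    show t * y * t⁻¹ ∈ R.TK K
    refine Ti_le_TK R hi (Subgroup.mem_inf.2 ⟨?_, T_L R ht (Subgroup.mem_inf.1 hy).2⟩)
    exact R.T.mul_mem (R.T.mul_mem ht (Subgroup.mem_inf.1 hy).1) (R.T.inv_mem ht)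
  exact h hx

/-- part 3, words -/
theorem three_n {K : Finset (Fin R.r)} {i : Fin R.r} (hi : i ∈ K) {x : G} (hx : x ∈ R.TK K) :
    R.n i * x * (R.n i)⁻¹ ∈ R.TK K := by
  have h1 := Ti_le_TK R hi (four R i (TK_le_T R K hx))
  have h2 : R.n i * x * (R.n i)⁻¹ = R.n i * x * (R.n i)⁻¹ * x⁻¹ * x := by group
  rw [h2]
  exact (R.TK K).mul_mem h1 hx

theorem three_w {K : Finset (Fin R.r)} {w : List (Fin R.r)} (hw : ∀ i ∈ w, i ∈ K) {x : G}
    (hx : x ∈ R.TK K) : R.nw w * x * (R.nw w)⁻¹ ∈ R.TK K := by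
  induction w with
  | nil => simpa using hx
  | cons i w ih =>
    have h1 := ih fun j hj => hw j (List.mem_cons_of_mem _ hj)
    have h2 := three_n R (hw i List.mem_cons_self) h1
    have h3 : R.nw (i :: w) * x * (R.nw (i :: w))⁻¹ =
        R.n i * (R.nw w * x * (R.nw w)⁻¹) * (R.n i)⁻¹ := by
      rw [RGD.nw_cons]; group
    rw [h3]
    exact h2

theorem X_n_inv {i : Fin R.r} {b : R.E} (hb : b ∈ R.Φ) {x : G} (hx : x ∈ R.X b) :
    (R.n i)⁻¹ * x * R.n i ∈ R.X (R.s i b) := by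
  rw [← R.nX' (i := i) (R.s_mem hb), R.s_s]
  have : R.n i * ((R.n i)⁻¹ * x * R.n i) * (R.n i)⁻¹ = x := by group
  rwa [this]

theorem X_w_inv {w : List (Fin R.r)} {b : R.E} (hb : b ∈ R.Φ) {x : G} (hx : x ∈ R.X (R.sw w b)) :
    (R.nw w)⁻¹ * x * R.nw w ∈ R.X b := by
  rw [← R.X_nw (w := w) hb]
  have : R.nw w * ((R.nw w)⁻¹ * x * R.nw w) * (R.nw w)⁻¹ = x := by group
  rwa [this]

/-- part 5 -/
theorem five (h1 : Rk1Stmt) (w : List (Fin R.r)) (i j : Fin R.r) (hij : R.sw w (R.a i) = R.a j) :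
    R.nw w * R.n i * (R.nw w)⁻¹ * (R.n j)⁻¹ ∈ R.Ti j := by
  have hL : R.nw w * R.n i * (R.nw w)⁻¹ * (R.n j)⁻¹ ∈ R.X (R.a j) ⊔ R.X (-R.a j) := by
    refine Subgroup.mul_mem _ ?_ (Subgroup.inv_mem _ (R.nmem j))
    have h2 : R.sw w '' {R.a i, -R.a i} = {R.a j, -R.a j} := by
      rw [Set.image_pair, R.sw_neg, hij]
    rw [← gp_pair, ← h2, R.gp_nw (pair_sub R i), gp_pair]
    exact R.nmem i
  have hneg : R.sw w (-R.a i) = -R.a j := by rw [R.sw_neg, hij]
  have key : ∀ b ∈ R.Φ, ∀ x, x ∈ R.X (R.s j (R.sw w b)) →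
      R.nw w * R.n i * (R.nw w)⁻¹ * (R.n j)⁻¹ * x *
        (R.nw w * R.n i * (R.nw w)⁻¹ * (R.n j)⁻¹)⁻¹ ∈ R.X (R.sw w (R.s i b)) := by
    intro b hb x hx
    have e1 := X_n_inv R (i := j) (R.s_mem (R.sw_mem (w := w) hb)) hx
    rw [R.s_s] at e1
    have e2 := X_w_inv R hb e1
    have e3 := (R.nX' (i := i) hb).2 e2
    have e4 := (R.X_nw (w := w) (R.s_mem (i := i) hb)).2 e3
    have e5 : R.nw w * R.n i * (R.nw w)⁻¹ * (R.n j)⁻¹ * x *
        (R.nw w * R.n i * (R.nw w)⁻¹ * (R.n j)⁻¹)⁻¹ =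
        R.nw w * (R.n i * ((R.nw w)⁻¹ * ((R.n j)⁻¹ * x * R.n j) * R.nw w) * (R.n i)⁻¹) *
          (R.nw w)⁻¹ := by group
    rw [e5]
    exact e4
  refine Subgroup.mem_inf.2 ⟨?_, hL⟩
  refine (h1 ℓ G R j).2.1 _ (le_sup_right (a := R.T) hL) ?_ ?_
  · intro x hx
    have := key (-R.a i) (R.neg_a_mem i) x (by rwa [hneg, R.s_neg, R.s_self, neg_neg])
    rwa [R.s_neg, R.s_self, neg_neg, hij] at this
  · intro x hx
    have := key (R.a i) (R.mem i) x (by rwa [hij, R.s_self])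
    rwa [R.s_self, hneg] at this

/-- reflections and words -/
theorem sw_s (w : List (Fin R.r)) {i j : Fin R.r} (hij : R.sw w (R.a i) = R.a j) (x : R.E) :
    R.sw w (R.s i x) = R.s j (R.sw w x) := by
  rw [R.s_eq, R.s_eq, sub_eq_add_neg, R.sw_add, R.sw_neg, R.sw_smul, ← hij, R.sw_inner,
    R.sw_inner, ← sub_eq_add_neg]

/-- the deletion lemma -/
theorem deletion (i : Fin R.r) (u : List (Fin R.r)) (hu : R.sw u (R.a i) ∈ R.neg) :
    ∃ (u₁ : List (Fin R.r)) (j : Fin R.r) (u₂ : List (Fin R.r)), u = u₁ ++ j :: u₂ ∧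
      R.sw u₂ (R.a i) = R.a j := by
  induction u with
  | nil => exact absurd hu fun h => R.not_pos_neg (R.a_pos i) h
  | cons j u ih =>
    rcases R.pos_or_neg (R.sw_mem (w := u) (R.mem i)) with hp | hn
    · refine ⟨[], j, u, rfl, ?_⟩
      have hr : R.sw u (R.a i) ∈ R.ray j := by
        by_contra hr
        exact R.not_pos_neg (R.s_pos hp hr) hu
      obtain ⟨-, c, hc, h2⟩ := hr
      have hc1 : 1 ≤ c := R.short j c hc (by rw [← h2]; exact R.sw_mem (R.mem i))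
      have h3 : R.sw u.reverse (R.a j) = c⁻¹ • R.a i := by
        have h4 : R.sw u.reverse (R.sw u (R.a i)) = R.a i := R.sw_reverse_sw u _
        rw [h2, R.sw_smul] at h4
        rw [← h4, smul_smul, inv_mul_cancel₀ hc.ne', one_smul]
      have hc2 : 1 ≤ c⁻¹ := R.short i c⁻¹ (inv_pos.2 hc) (by rw [← h3]; exact R.sw_mem (R.mem j))
      have hc3 : c ≤ 1 := by
        have := mul_le_mul_of_nonneg_left hc2 hc.le
        rwa [mul_one, mul_inv_cancel₀ hc.ne'] at this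
      rw [h2, le_antisymm hc3 hc1, one_smul]
    · obtain ⟨u₁, j', u₂, h1, h2⟩ := ih hn
      exact ⟨j :: u₁, j', u₂, by rw [h1]; rfl, h2⟩

/-- part 1 -/
theorem one (h1 : Rk1Stmt) (K : Finset (Fin R.r)) : ∀ (k : ℕ) (w : List (Fin R.r)),
    w.length ≤ k → (∀ i ∈ w, i ∈ K) → (∀ i ∈ K, R.sw w (R.a i) = R.a i) → R.nw w ∈ R.TK K := by
  intro k
  induction k with
  | zero =>
    intro w hk _ _
    have : w = [] := List.eq_nil_of_length_eq_zero (Nat.le_zero.1 hk)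
    subst this
    exact (R.TK K).one_mem
  | succ k ih =>
    intro w hk hw hwa
    rcases List.eq_nil_or_concat w with rfl | ⟨u, i, rfl⟩
    · exact (R.TK K).one_mem
    rw [List.concat_eq_append] at *
    have hiK : i ∈ K := hw i (by simp)
    have h2 := hwa i hiK
    rw [R.sw_append, R.sw_cons, R.sw_nil, R.s_self, R.sw_neg] at h2
    have h3 : R.sw u (R.a i) ∈ R.neg := by
      have h4 : R.sw u (R.a i) = -R.a i := neg_eq_iff_eq_neg.1 h2
      rw [h4]
      exact ⟨R.neg_a_mem i, by rw [neg_neg]; exact R.nn_a i⟩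
    obtain ⟨u₁, j, u₂, rfl, h5⟩ := deletion R i u h3
    have hjK : j ∈ K := hw j (by simp)
    have h6 := five R h1 u₂ i j h5
    set t : G := R.nw u₂ * R.n i * (R.nw u₂)⁻¹ * (R.n j)⁻¹ with ht
    have hn2 : R.n j * R.n j ∈ R.TK K :=
      Ti_le_TK R hjK (Subgroup.mem_inf.2 ⟨R.nn j, Subgroup.mul_mem _ (R.nmem j) (R.nmem j)⟩)
    have ht' : R.n j * t * R.n j ∈ R.TK K := by
      have e : R.n j * t * R.n j = R.n j * t * (R.n j)⁻¹ * (R.n j * R.n j) := by group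
      rw [e]
      exact (R.TK K).mul_mem (three_n R hjK (Ti_le_TK R hjK h6)) hn2
    have hact : ∀ x, R.sw ((u₁ ++ j :: u₂) ++ [i]) x = R.sw (u₁ ++ u₂) x := by
      intro x
      rw [R.sw_append, R.sw_append, R.sw_append, R.sw_cons, R.sw_cons, R.sw_nil, sw_s R u₂ h5,
        R.s_s]
    have h7 : R.nw (u₁ ++ u₂) ∈ R.TK K := by
      refine ih _ ?_ ?_ ?_
      · simp only [List.length_append, List.length_cons, List.length_nil] at hk ⊢
        omega
      · intro l hl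
        refine hw l ?_
        simp only [List.mem_append, List.mem_cons] at hl ⊢
        tauto
      · intro l hl
        rw [← hact]
        exact hwa l hl
    have h8 : R.nw ((u₁ ++ j :: u₂) ++ [i]) =
        R.nw u₁ * (R.n j * t * R.n j) * (R.nw u₁)⁻¹ * R.nw (u₁ ++ u₂) := by
      rw [R.nw_append, R.nw_append, R.nw_append, R.nw_cons, R.nw_cons, R.nw_nil, ht]
      group
    rw [h8]
    refine (R.TK K).mul_mem (three_w R (fun l hl => hw l ?_) ht') h7
    simp only [List.mem_append]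
    tauto

theorem rev_nw (w : List (Fin R.r)) : R.nw w.reverse * R.nw w ∈ R.T := by
  induction w with
  | nil => simp
  | cons i w ih =>
    have e : R.nw (i :: w).reverse * R.nw (i :: w) =
        (R.nw w.reverse * (R.n i * R.n i) * (R.nw w.reverse)⁻¹) * (R.nw w.reverse * R.nw w) := by
      rw [List.reverse_cons, R.nw_append, R.nw_cons, R.nw_cons, R.nw_nil]
      group
    rw [e]
    exact R.T.mul_mem (R.T_nw.2 (R.nn i)) ih

/-- WRD. -/
theorem wrd (h1 : Rk1Stmt) : WrdStmt := by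
  intro ℓ G _ R
  refine ⟨fun K w hw hwa => one R h1 K w.length w le_rfl hw hwa, ?_,
    fun K => ⟨fun t ht x hx => three_T R K ht hx, fun i hi x hx => three_n R hi hx⟩,
    fun i t ht => four R i ht, fun w i j hij => five R h1 w i j hij⟩
  intro v w hvw
  have h2 : R.nw (w.reverse ++ v) ∈ R.TK Finset.univ := by
    refine one R h1 Finset.univ _ _ le_rfl (fun i _ => Finset.mem_univ i) fun i _ => ?_
    rw [R.sw_append, hvw, R.sw_reverse_sw]
  have h3 := TK_le_T R _ h2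
  rw [R.nw_append] at h3
  have h4 : (R.nw w)⁻¹ * R.nw v = (R.nw w.reverse * R.nw w)⁻¹ * (R.nw w.reverse * R.nw v) := by
    group
  rw [h4]
  exact R.T.mul_mem (R.T.inv_mem (rev_nw R w)) h3

end Pool.Agent.PP.X1.H41
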