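import Pool.Agent.Helper12_AWB.B100
import Pool.Agent.Helper66_AWS.S013
import Pool.Agent.Helper66_AWS.S093
import Pool.Agent.Helper66_AWS.S096
import Pool.Agent.Helper66_AWS.S113

/-! Copy (generated) of the module `Pool.Agent.Helper45_X1.Opv` with import lines for the bundle Helper12_AWB. -/

/-!
# OPV: the opposite Sylow subgroup and the parabolic subgroups
-/

open scoped BigOperators

noncomputable section

namespace Pool.Agent.PP.X1.H45

open Pool.Agent.PP.X1.H20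

variable {ℓ : ℕ} {G : Type} [Group G] (R : RGD ℓ G)

/-- the longest word maps positive roots to negative roots and conversely -/
theorem longest (lng : LngStmt) (orb : OrbStmt) : ∃ w : List (Fin R.r),
    (∀ b ∈ R.pos, R.sw w b ∈ R.neg) ∧ (∀ b ∈ R.neg, R.sw w b ∈ R.pos) ∧
    (∀ b ∈ R.pos, R.sw w.reverse b ∈ R.neg) ∧ ∀ b ∈ R.neg, R.sw w.reverse b ∈ R.pos := by
  obtain ⟨-, w, -, hw⟩ := lng ℓ G R Finset.univ
  have h1 : ∀ b ∈ R.pos, R.sw w b ∈ R.neg := by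
    intro b hb
    refine hw b ⟨hb, hb.1, ?_⟩
    obtain ⟨k, -, hk⟩ := hb.2
    rw [hk]
    refine Submodule.sum_mem _ fun i _ => Submodule.smul_mem _ _ ?_
    exact Submodule.subset_span ⟨i, by simp, rfl⟩
  have h2 : ∀ b ∈ R.neg, R.sw w b ∈ R.pos := by
    intro b hb
    have h3 := (h1 _ ⟨H18.neg_mem orb R hb.1, hb.2⟩).2
    rw [R.sw_neg, neg_neg] at h3
    exact ⟨R.sw_mem hb.1, h3⟩
  refine ⟨w, h1, h2, ?_, ?_⟩
  · intro b hb
    rcases R.pos_or_neg (R.sw_mem (w := w.reverse) hb.1) with h | h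
    · exfalso
      have h3 := h1 _ h
      rw [R.sw_sw_reverse] at h3
      exact R.not_pos_neg hb h3
    · exact h
  · intro b hb
    rcases R.pos_or_neg (R.sw_mem (w := w.reverse) hb.1) with h | h
    · exact h
    · exfalso
      have h3 := h2 _ h
      rw [R.sw_sw_reverse] at h3
      exact R.not_pos_neg h3 hb

theorem conj_gp_nw {w : List (Fin R.r)} {A A' : Set R.E} (hA : A ⊆ R.Φ)
    (h : ∀ b ∈ A, R.sw w b ∈ A') {x : G} (hx : x ∈ R.gp A) :
    R.nw w * x * (R.nw w)⁻¹ ∈ R.gp A' := by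
  refine R.gp_mono ?_ ((R.gp_nw (w := w) hA).mpr hx)
  rintro _ ⟨b, hb, rfl⟩
  exact h b hb

theorem conj_gp_inv {w : List (Fin R.r)} {A A' : Set R.E} (hA' : A' ⊆ R.Φ)
    (h : ∀ b ∈ A, R.sw w.reverse b ∈ A') {x : G} (hx : x ∈ R.gp A) :
    (R.nw w)⁻¹ * x * R.nw w ∈ R.gp A' := by
  rw [← R.gp_nw (w := w) hA']
  have h1 : R.nw w * ((R.nw w)⁻¹ * x * R.nw w) * (R.nw w)⁻¹ = x := by group
  rw [h1]
  refine R.gp_mono ?_ hx
  intro b hb
  exact ⟨_, h b hb, R.sw_sw_reverse w b⟩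

theorem eq_one_UV {x : G} (h1 : x ∈ R.U) (h2 : x ∈ R.V) : x = 1 := by
  have h3 : x ∈ R.U ⊓ R.V := ⟨h1, h2⟩
  rwa [R.U_inf_V, Subgroup.mem_bot] at h3

theorem eq_one_UTV {x : G} (h1 : x ∈ R.U) (h2 : x ∈ R.T ⊔ R.V) : x = 1 := by
  have h3 : x ∈ R.U ⊓ (R.T ⊔ R.V) := ⟨h1, h2⟩
  rwa [R.UV, Subgroup.mem_bot] at h3

theorem eq_one_TV (lng : LngStmt) (orb : OrbStmt) {x : G} (h1 : x ∈ R.T) (h2 : x ∈ R.V) :
    x = 1 := by
  obtain ⟨w, -, hw, -, -⟩ := longest R lng orb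
  have h3 : R.nw w * x * (R.nw w)⁻¹ ∈ R.U := conj_gp_nw R R.neg_sub hw h2
  have h4 : R.nw w * x * (R.nw w)⁻¹ ∈ R.T := R.T_nw.mpr h1
  have h5 := eq_one_UTV R h3 ((le_sup_left : R.T ≤ R.T ⊔ R.V) h4)
  have h6 : x = (R.nw w)⁻¹ * (R.nw w * x * (R.nw w)⁻¹) * R.nw w := by group
  rw [h6, h5]
  group

theorem eq_one_BV (lng : LngStmt) (orb : OrbStmt) {x : G} (h1 : x ∈ R.B) (h2 : x ∈ R.V) :
    x = 1 := by
  obtain ⟨u, hu, t, ht, rfl⟩ := R.mem_B.mp h1
  have h3 : u = 1 := by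
    apply eq_one_UTV R hu
    have h4 : u = u * t * t⁻¹ := by group
    rw [h4]
    exact (R.T ⊔ R.V).mul_mem ((le_sup_right : R.V ≤ R.T ⊔ R.V) h2)
      ((le_sup_left : R.T ≤ R.T ⊔ R.V) (R.T.inv_mem ht))
  rw [h3, one_mul] at h2 ⊢
  exact eq_one_TV R lng orb ht h2

/-- (a) -/
theorem opa (dsc : DscStmt) {w : List (Fin R.r)} {v b : G} (hv : v ∈ R.V) (hb : b ∈ R.B)
    (h : R.nw w = v * b) : ∀ x, R.sw w x = x := by
  by_contra hc
  rw [not_forall] at hc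
  obtain ⟨i, hi⟩ := (dsc ℓ G R w hc).1
  apply R.nt i
  rw [eq_bot_iff]
  intro x hx
  rw [Subgroup.mem_bot]
  have h1 : R.nw w * x * (R.nw w)⁻¹ ∈ R.V := R.X_le_V hi ((R.X_nw (R.mem i)).mpr hx)
  have h2 : b * x * b⁻¹ ∈ R.U := R.B_U hb (R.X_le_U (R.a_pos i) hx)
  have h3 : b * x * b⁻¹ ∈ R.V := by
    have h4 : b * x * b⁻¹ = v⁻¹ * (R.nw w * x * (R.nw w)⁻¹) * v := by
      rw [h]
      group
    rw [h4]
    exact R.V.mul_mem (R.V.mul_mem (R.V.inv_mem hv) h1) hv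
  have h5 := eq_one_UV R h2 h3
  have h6 : x = b⁻¹ * (b * x * b⁻¹) * b := by group
  rw [h6, h5]
  group

/-- the negative roots outside the span of `K` -/
theorem neg_lev {K : Finset (Fin R.r)} {b : R.E} (h : b ∈ R.neg \ R.lev K) :
    ∃ j, j ∉ K ∧ cf R j b < 0 := by
  by_contra hc
  push Not at hc
  apply h.2
  refine ⟨h.1.1, ?_⟩
  have h1 : -b ∈ Submodule.span ℝ (R.a '' (K : Set (Fin R.r))) := by
    refine span_of_cf R h.1.2 fun j hj => ?_
    have h2 := cf_nn R h.1.2 j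
    rw [map_neg] at h2 ⊢
    have h3 := hc j hj
    linarith
  have h4 := Submodule.neg_mem _ h1
  rwa [neg_neg] at h4

theorem neg_of_cf {K : Finset (Fin R.r)} {b : R.E} (hb : b ∈ R.Φ) {j : Fin R.r} (hj : j ∉ K)
    (h : cf R j b < 0) : b ∈ R.neg \ R.lev K := by
  refine ⟨?_, fun h1 => ?_⟩
  · rcases R.pos_or_neg hb with h1 | h1
    · exfalso
      have := cf_nn R h1.2 j
      linarith
    · exact h1
  · have := cf_lev R h1 hj
    linarith

/-- the Levi subgroup normalises the opposite radical -/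
theorem L_norm {K : Finset (Fin R.r)} : R.T ⊔ R.gp (R.lev K) ≤
    Subgroup.normalizer (R.gp (R.neg \ R.lev K) : Set G) := by
  apply sup_le
  · apply le_normalizer
    intro t ht x hx
    exact R.T_gp (fun b hb => hb.1.1) ht hx
  · apply R.gp_le
    intro b hb
    apply le_normalizer
    intro x hx y hy
    refine conj_gp R (A := R.neg \ R.lev K) ?_ hy
    intro c hc y hy
    obtain ⟨j, hj, hjc⟩ := neg_lev R hc
    have h0 := cf_lev R hb hj
    have h1 : x * y * x⁻¹ * y⁻¹ ∈ R.gp (R.neg \ R.lev K) := by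
      refine R.comm_gp hb.1 hc.1.1 ?_ ?_ hx hy
      · intro s hs h
        rw [h, map_neg, map_smul, smul_eq_mul, h0] at hjc
        linarith
      · intro p q hp hq hpq
        apply neg_of_cf R hpq hj
        rw [map_add, map_smul, map_smul, smul_eq_mul, smul_eq_mul, h0]
        have h3 : q * cf R j c < 0 := mul_neg_of_pos_of_neg (by linarith) hjc
        linarith
    have h2 : x * y * x⁻¹ = x * y * x⁻¹ * y⁻¹ * y := by group
    rw [h2]
    exact (R.gp (R.neg \ R.lev K)).mul_mem h1 (R.X_le_gp hc hy)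

theorem nw_mem_L {K : Finset (Fin R.r)} {w : List (Fin R.r)} (hw : ∀ i ∈ w, i ∈ K) :
    R.nw w ∈ R.T ⊔ R.gp (R.lev K) := by
  induction w with
  | nil => exact one_mem _
  | cons i w ih =>
    rw [R.nw_cons]
    refine mul_mem ?_ (ih fun j hj => hw j (List.mem_cons_of_mem _ hj))
    have hi : i ∈ K := hw i List.mem_cons_self
    have h1 : R.X (R.a i) ⊔ R.X (-R.a i) ≤ R.T ⊔ R.gp (R.lev K) := by
      refine le_trans (sup_le ?_ ?_) le_sup_right
      · exact R.X_le_gp (H55.mem_lev R hi)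
      · exact R.X_le_gp (H55.neg_mem_lev R hi)
    exact h1 (R.nmem i)

theorem U_fac (K : Finset (Fin R.r)) {u : G} (hu : u ∈ R.U) :
    ∃ x ∈ R.gp (R.pos ∩ R.lev K), ∃ y ∈ R.UJ K, u = x * y := by
  have h1 : R.gp (R.pos ∩ R.lev K) ≤ Subgroup.normalizer (R.UJ K : Set G) := by
    refine le_trans ?_ (P_norm R (J := K))
    exact (R.gp_mono fun b hb => Or.inl hb.1).trans le_sup_right
  have h2 : R.U ≤ R.gp (R.pos ∩ R.lev K) ⊔ R.UJ K := by
    unfold RGD.U RGD.UJ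
    rw [← R.gp_union]
    apply R.gp_mono
    intro b hb
    by_cases h : b ∈ R.lev K
    · exact Or.inl ⟨hb, h⟩
    · exact Or.inr ⟨hb, h⟩
  have h3 := h2 hu
  rw [← SetLike.mem_coe, Subgroup.coe_mul_of_left_le_normalizer_right _ _ h1] at h3
  obtain ⟨x, hx, y, hy, rfl⟩ := h3
  exact ⟨x, hx, y, hy, rfl⟩

/-- (b) -/
theorem opb (lng : LngStmt) (orb : OrbStmt) (dsc : DscStmt) (wrd : WrdStmt) (bru : BruhStmt)
    (K : Finset (Fin R.r)) {v : G} (hv : v ∈ R.gp (R.neg \ R.lev K)) (hP : v ∈ R.PJ K) : v = 1 := by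
  obtain ⟨z, hz, b, hb, b', hb', h1⟩ := (bru ℓ G R).2.1 K v hP
  obtain ⟨u, hu, t, ht, rfl⟩ := R.mem_B.mp hb'
  obtain ⟨x, hx, y, hy, rfl⟩ := U_fac R K hu
  -- x * y * t = (x * t) * (t⁻¹ * y * t)
  have hy' : t⁻¹ * y * t ∈ R.UJ K := by
    have := R.T_gp (A := R.pos \ R.lev K) (fun b hb => hb.1.1) (R.T.inv_mem ht) hy
    rwa [inv_inv] at this
  have hL : x * t ∈ R.T ⊔ R.gp (R.lev K) :=
    mul_mem ((le_sup_right : R.gp (R.lev K) ≤ _) (R.gp_mono (fun b hb => hb.2) hx))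
      ((le_sup_left : R.T ≤ _) ht)
  have hLB : x * t ∈ R.B := mul_mem (R.U_le_B (R.gp_mono (fun b hb => hb.1) hx)) (R.T_le_B ht)
  have hzL := nw_mem_L R hz
  set g : G := (x * t)⁻¹ * (R.nw z)⁻¹ with hg
  have hgL : g ∈ R.T ⊔ R.gp (R.lev K) := mul_mem (inv_mem hL) (inv_mem hzL)
  have hgP : g ∈ R.PJ K := by
    refine (sup_le_sup_left (R.gp_mono ?_) R.T) hgL
    exact fun b hb => Or.inr hb
  have h2 : v * g ∈ R.B := by
    have h3 : v * g = b * (g⁻¹ * (t⁻¹ * y * t) * g⁻¹⁻¹) := by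
      rw [h1, hg]
      group
    rw [h3]
    have h4 := P_norm' R ((R.PJ K).inv_mem hgP) hy'
    exact mul_mem hb (R.U_le_B (UJ_le_U R K h4))
  have h5 : g⁻¹ * v * g ∈ R.gp (R.neg \ R.lev K) := by
    have := (Subgroup.mem_normalizer_iff.mp (L_norm R (inv_mem hgL)) v).mp hv
    rwa [inv_inv] at this
  have h5V : g⁻¹ * v * g ∈ R.V := R.gp_mono (fun b hb => hb.1) h5
  -- nw z = v'' * b''
  have h6 : R.nw z = (g⁻¹ * v * g) * ((v * g)⁻¹ * (x * t)⁻¹) := by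
    rw [hg]
    group
  have h7 : (v * g)⁻¹ * (x * t)⁻¹ ∈ R.B := mul_mem (inv_mem h2) (inv_mem hLB)
  have h8 := opa R dsc h5V h7 h6
  have h9 := triv_T R wrd h8
  have h10 : g⁻¹ * v * g ∈ R.B := by
    have h11 : g⁻¹ * v * g = R.nw z * ((v * g)⁻¹ * (x * t)⁻¹)⁻¹ := by
      rw [eq_mul_inv_iff_mul_eq, ← h6]
    rw [h11]
    exact mul_mem (R.T_le_B h9) (inv_mem h7)
  have h12 := eq_one_BV R lng orb h10 h5V
  have h13 : v = g * (g⁻¹ * v * g) * g⁻¹ := by group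
  rw [h13, h12]
  group

theorem opv (lng : LngStmt) (orb : OrbStmt) (dsc : DscStmt) (wrd : WrdStmt) (bru : BruhStmt) :
    OpvStmt := by
  intro ℓ G _ R
  refine ⟨fun w v hv b hb h => opa R dsc hv hb h, ?_, ?_, ?_, ?_⟩
  · intro K
    rw [eq_bot_iff]
    intro v hv
    rw [Subgroup.mem_bot]
    exact opb R lng orb dsc wrd bru K hv.1 hv.2
  · intro i g hg hP
    obtain ⟨x, hx, y, hy, rfl⟩ := peel_neg R i (H32.clo_neg R) subset_rfl hg
    have hxX : x ∈ R.X (-R.a i) := by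
      have h1 : R.gp (R.neg ∩ {b | -b ∈ R.ray i}) ≤ R.X (-R.a i) := by
        apply R.gp_le
        rintro b ⟨hb, hbΦ, c, hc, hbc⟩
        have h2 : b = c • (-R.a i) := by
          rw [smul_neg, ← hbc, neg_neg]
        have h3 : c • R.a i ∈ R.Φ := by rw [← hbc]; exact hbΦ
        rw [h2]
        refine R.nest _ (R.neg_a_mem i) c (R.short i c hc h3) ?_
        rw [← h2]
        exact hb.1
      exact h1 hx
    have hy' : y ∈ R.gp (R.neg \ R.lev {i}) := by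
      refine R.gp_mono ?_ hy
      rintro b ⟨hb, hb'⟩
      refine ⟨hb, fun hl => hb' ?_⟩
      have h1 := hl.2
      rw [Finset.coe_singleton, Set.image_singleton, Submodule.mem_span_singleton] at h1
      obtain ⟨c, hc⟩ := h1
      have hbΦ : -b ∈ R.Φ := H18.neg_mem orb R hb.1
      refine ⟨hbΦ, -c, ?_, by rw [neg_smul, hc]⟩
      by_contra hcon
      have hc0 : 0 ≤ c := by linarith
      refine R.not_nn_neg hb.1 ?_ hb.2
      rw [← hc]
      exact R.nn_smul hc0 (R.nn_a i)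
    have hyP : y ∈ R.PJ {i} := by
      have h1 : y = x⁻¹ * (x * y) := by group
      rw [h1]
      refine mul_mem (inv_mem ?_) hP
      exact H55.X_le_PJ R (Or.inr (H55.neg_mem_lev R (Finset.mem_singleton_self i))) hxX
    rw [opb R lng orb dsc wrd bru {i} hy' hyP, mul_one]
    exact hxX
  · apply le_antisymm
    · rintro g ⟨hg, hg'⟩
      obtain ⟨u, hu, t, ht, rfl⟩ := R.mem_B.mp hg
      have h3 : u = 1 := by
        apply eq_one_UTV R hu
        have h4 : u = u * t * t⁻¹ := by group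
        rw [h4]
        exact mul_mem hg' ((le_sup_left : R.T ≤ R.T ⊔ R.V) (R.T.inv_mem ht))
      rw [h3, one_mul]
      exact ht
    · exact le_inf R.T_le_B le_sup_left
  · intro g hg hgU
    obtain ⟨w, -, hw2, hw3, -⟩ := longest R lng orb
    have h1 : ∀ x ∈ R.U, (R.nw w * g * (R.nw w)⁻¹) * x * (R.nw w * g * (R.nw w)⁻¹)⁻¹ ∈ R.U := by
      intro x hx
      have h2 : (R.nw w)⁻¹ * x * R.nw w ∈ R.V := conj_gp_inv R R.neg_sub hw3 hx
      have h3 := hg _ h2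
      have h4 : R.nw w * (g * ((R.nw w)⁻¹ * x * R.nw w) * g⁻¹) * (R.nw w)⁻¹ ∈ R.U :=
        conj_gp_nw R R.neg_sub hw2 h3
      have h5 : (R.nw w * g * (R.nw w)⁻¹) * x * (R.nw w * g * (R.nw w)⁻¹)⁻¹ =
          R.nw w * (g * ((R.nw w)⁻¹ * x * R.nw w) * g⁻¹) * (R.nw w)⁻¹ := by group
      rw [h5]
      exact h4
    obtain ⟨z, -, b, hb, b', hb', h6⟩ := (bru ℓ G R).2.1 Finset.univ
      (R.nw w * g * (R.nw w)⁻¹) (by rw [(bru ℓ G R).2.2.1]; exact Subgroup.mem_top _)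
    have h7 : ∀ x ∈ R.U, R.nw z * x * (R.nw z)⁻¹ ∈ R.U := by
      intro x hx
      have h8 := R.B_U (R.B.inv_mem hb') hx
      have h9 := R.B_U (R.B.inv_mem hb) (h1 _ h8)
      rw [h6] at h9
      have h10 : b⁻¹ * (b * R.nw z * b' * (b'⁻¹ * x * b'⁻¹⁻¹) * (b * R.nw z * b')⁻¹) * b⁻¹⁻¹ =
          R.nw z * x * (R.nw z)⁻¹ := by group
      rwa [h10] at h9
    have h11 : ∀ x, R.sw z x = x := by
      by_contra hc
      rw [not_forall] at hc
      obtain ⟨i, hi⟩ := (dsc ℓ G R z hc).1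
      exact nt' R hi fun x hx => h7 x (R.X_le_U (R.a_pos i) hx)
    have h12 := triv_T R wrd h11
    have h13 : R.nw w * g * (R.nw w)⁻¹ ∈ R.B := by
      rw [h6]
      exact mul_mem (mul_mem hb (R.T_le_B h12)) hb'
    obtain ⟨u, hu, t, ht, h14⟩ := R.mem_B.mp h13
    apply eq_one_UTV R hgU
    have h15 : g = ((R.nw w)⁻¹ * u * R.nw w) * ((R.nw w)⁻¹ * t * R.nw w) := by
      have h16 : g = (R.nw w)⁻¹ * (R.nw w * g * (R.nw w)⁻¹) * R.nw w := by group
      rw [h16, h14]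
      group
    rw [h15]
    refine mul_mem ((le_sup_right : R.V ≤ _) (conj_gp_inv R R.neg_sub hw3 hu))
      ((le_sup_left : R.T ≤ _) ?_)
    exact H55.T_inv_nw R ht

end Pool.Agent.PP.X1.H45
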