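import Pool.Agent.Helper12_AWB.B100

/-! Copy (generated) of the module `Pool.Agent.Helper81_X1.Rk1` with import lines for the bundle Helper12_AWB. -/

/-! Module RK1 of squad X1: the group of rank one of a simple root. -/

set_option linter.unusedSectionVars false

noncomputable section

namespace Pool.Agent.PP.X1.H81

variable {ℓ : ℕ} {G : Type} [Group G] (R : RGD ℓ G) (i : Fin R.r)

theorem nX_m {x : G} (hx : x ∈ R.X (R.a i)) : R.n i * x * (R.n i)⁻¹ ∈ R.X (-R.a i) := by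
  have h := (R.nX' (i := i) (R.mem i) (x := x)).2 hx
  rwa [R.s_self] at h

theorem nXm {x : G} (hx : x ∈ R.X (-R.a i)) : R.n i * x * (R.n i)⁻¹ ∈ R.X (R.a i) := by
  have h := (R.nX' (i := i) (R.neg_a_mem i) (x := x)).2 hx
  rwa [R.s_neg, R.s_self, neg_neg] at h

theorem exX {v : G} (hv : v ∈ R.X (-R.a i)) : ∃ x ∈ R.X (R.a i), v = R.n i * x * (R.n i)⁻¹ := by
  refine ⟨(R.n i)⁻¹ * v * R.n i, ?_, by group⟩
  rw [← R.nX' (i := i) (R.mem i), R.s_self]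
  have : R.n i * ((R.n i)⁻¹ * v * R.n i) * (R.n i)⁻¹ = v := by group
  rw [this]
  exact hv

theorem exXm {v : G} (hv : v ∈ R.X (R.a i)) : ∃ x ∈ R.X (-R.a i), v = R.n i * x * (R.n i)⁻¹ := by
  refine ⟨(R.n i)⁻¹ * v * R.n i, ?_, by group⟩
  rw [← R.nX' (i := i) (R.neg_a_mem i), R.s_neg, R.s_self, neg_neg]
  have : R.n i * ((R.n i)⁻¹ * v * R.n i) * (R.n i)⁻¹ = v := by group
  rw [this]
  exact hv

theorem Tn {t : G} (ht : t ∈ R.T) : (R.n i)⁻¹ * t * R.n i ∈ R.T := by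
  rw [← R.nT' (i := i)]
  have : R.n i * ((R.n i)⁻¹ * t * R.n i) * (R.n i)⁻¹ = t := by group
  rw [this]
  exact ht

theorem TX' {t x : G} (ht : t ∈ R.T) (hx : x ∈ R.X (R.a i)) : t⁻¹ * x * t ∈ R.X (R.a i) := by
  have h := R.tX _ (R.T.inv_mem ht) _ (R.mem i) x hx
  rwa [inv_inv] at h

/-- the two cells -/
def Om : Set G := {g | (∃ x ∈ R.X (R.a i), ∃ t ∈ R.T, g = x * t) ∨
    ∃ x ∈ R.X (R.a i), ∃ t ∈ R.T, ∃ y ∈ R.X (R.a i), g = x * (R.n i * t) * y}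

theorem one_Om : (1 : G) ∈ Om R i := Or.inl ⟨1, one_mem _, 1, one_mem _, by simp⟩

theorem X_Om {x g : G} (hx : x ∈ R.X (R.a i)) (hg : g ∈ Om R i) : x * g ∈ Om R i := by
  rcases hg with ⟨x', hx', t, ht, rfl⟩ | ⟨x', hx', t, ht, y, hy, rfl⟩
  · exact Or.inl ⟨x * x', mul_mem hx hx', t, ht, by group⟩
  · exact Or.inr ⟨x * x', mul_mem hx hx', t, ht, y, hy, by group⟩

theorem T_Om {s g : G} (hs : s ∈ R.T) (hg : g ∈ Om R i) : s * g ∈ Om R i := by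
  rcases hg with ⟨x', hx', t, ht, rfl⟩ | ⟨x', hx', t, ht, y, hy, rfl⟩
  · exact Or.inl ⟨s * x' * s⁻¹, R.tX s hs _ (R.mem i) x' hx', s * t, mul_mem hs ht, by group⟩
  · exact Or.inr ⟨s * x' * s⁻¹, R.tX s hs _ (R.mem i) x' hx', (R.n i)⁻¹ * s * R.n i * t,
      mul_mem (Tn R i hs) ht, y, hy, by group⟩

theorem n_Om {g : G} (hg : g ∈ Om R i) : R.n i * g ∈ Om R i := by
  rcases hg with ⟨x, hx, t, ht, rfl⟩ | ⟨x, hx, t, ht, y, hy, rfl⟩
  · exact Or.inr ⟨1, one_mem _, t, ht, t⁻¹ * x * t, TX' R i ht hx, by group⟩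
  · have hnt : R.n i * R.n i * t ∈ R.T := mul_mem (R.nn i) ht
    by_cases hx1 : x = 1
    · subst hx1
      left
      exact ⟨R.n i * R.n i * t * y * (R.n i * R.n i * t)⁻¹, R.tX _ hnt _ (R.mem i) y hy,
        R.n i * R.n i * t, hnt, by group⟩
    · obtain ⟨y1, hy1, z1, hz1, t1, ht1, h⟩ := R.cell i x hx hx1
      right
      refine ⟨y1, hy1, t1 * (R.n i * R.n i * t), mul_mem ht1 hnt,
        (R.n i * R.n i * t)⁻¹ * z1 * (R.n i * R.n i * t) * y, mul_mem (TX' R i hnt hz1) hy, ?_⟩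
      have h1 : R.n i * (x * (R.n i * t) * y) =
          R.n i * x * (R.n i)⁻¹ * (R.n i * R.n i * t) * y := by group
      rw [h1, h]
      group

theorem ninv_Om {g : G} (hg : g ∈ Om R i) : (R.n i)⁻¹ * g ∈ Om R i := by
  have h : (R.n i)⁻¹ * g = (R.n i * R.n i)⁻¹ * (R.n i * g) := by group
  rw [h]
  exact T_Om R i (R.T.inv_mem (R.nn i)) (n_Om R i hg)

theorem Xm_Om {x g : G} (hx : x ∈ R.X (-R.a i)) (hg : g ∈ Om R i) : x * g ∈ Om R i := by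
  obtain ⟨y, hy, rfl⟩ := exX R i hx
  have h : R.n i * y * (R.n i)⁻¹ * g = R.n i * (y * ((R.n i)⁻¹ * g)) := by group
  rw [h]
  exact n_Om R i (X_Om R i hy (ninv_Om R i hg))

/-- the elements which preserve the two cells -/
def St : Subgroup G where
  carrier := {g | (∀ w ∈ Om R i, g * w ∈ Om R i) ∧ ∀ w ∈ Om R i, g⁻¹ * w ∈ Om R i}
  one_mem' := ⟨fun w hw => by rwa [one_mul], fun w hw => by rwa [inv_one, one_mul]⟩
  mul_mem' := by
    rintro a b ⟨ha, ha'⟩ ⟨hb, hb'⟩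
    refine ⟨fun w hw => ?_, fun w hw => ?_⟩
    · rw [mul_assoc]
      exact ha _ (hb _ hw)
    · rw [mul_inv_rev, mul_assoc]
      exact hb' _ (ha' _ hw)
  inv_mem' := by
    rintro a ⟨ha, ha'⟩
    refine ⟨ha', fun w hw => ?_⟩
    rw [inv_inv]
    exact ha _ hw

theorem le_St : R.T ⊔ (R.X (R.a i) ⊔ R.X (-R.a i)) ≤ St R i := by
  refine sup_le ?_ (sup_le ?_ ?_)
  · intro t ht
    exact ⟨fun w hw => T_Om R i ht hw, fun w hw => T_Om R i (R.T.inv_mem ht) hw⟩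
  · intro x hx
    exact ⟨fun w hw => X_Om R i hx hw, fun w hw => X_Om R i (inv_mem hx) hw⟩
  · intro x hx
    exact ⟨fun w hw => Xm_Om R i hx hw, fun w hw => Xm_Om R i (inv_mem hx) hw⟩

theorem mem_Om {g : G} (hg : g ∈ R.T ⊔ (R.X (R.a i) ⊔ R.X (-R.a i))) : g ∈ Om R i := by
  have h := (le_St R i hg).1 1 (one_Om R i)
  rwa [mul_one] at h

/-- an element of the big cell does not normalise the root group -/
theorem big {x t y : G} (hx : x ∈ R.X (R.a i)) (ht : t ∈ R.T) (hy : y ∈ R.X (R.a i))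
    (h : ∀ u ∈ R.X (R.a i), x * (R.n i * t) * y * u * (x * (R.n i * t) * y)⁻¹ ∈ R.X (R.a i)) :
    False := by
  apply R.nt i
  rw [Subgroup.eq_bot_iff_forall]
  intro u hu
  have h1 : y⁻¹ * (t⁻¹ * u * t) * y ∈ R.X (R.a i) :=
    mul_mem (mul_mem (inv_mem hy) (TX' R i ht hu)) hy
  have h2 := h _ h1
  have h3 : x * (R.n i * t) * y * (y⁻¹ * (t⁻¹ * u * t) * y) * (x * (R.n i * t) * y)⁻¹ =
      x * (R.n i * u * (R.n i)⁻¹) * x⁻¹ := by group
  rw [h3] at h2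
  have h4 : R.n i * u * (R.n i)⁻¹ ∈ R.X (R.a i) := by
    have h5 := mul_mem (mul_mem (inv_mem hx) h2) hx
    have h6 : x⁻¹ * (x * (R.n i * u * (R.n i)⁻¹) * x⁻¹) * x = R.n i * u * (R.n i)⁻¹ := by group
    rwa [h6] at h5
  have h7 : R.n i * u * (R.n i)⁻¹ ∈ R.X (-R.a i) := nX_m R i hu
  have h8 : R.n i * u * (R.n i)⁻¹ ∈ R.U ⊓ R.V :=
    ⟨R.X_le_U (R.a_pos i) h4, R.X_le_V ⟨R.neg_a_mem i, by rw [neg_neg]; exact R.nn_a i⟩ h7⟩
  rw [R.U_inf_V, Subgroup.mem_bot] at h8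
  have h9 : u = (R.n i)⁻¹ * (R.n i * u * (R.n i)⁻¹) * R.n i := by group
  rw [h9, h8]
  group

theorem rk1 : Rk1Stmt := by
  intro ℓ G _ R i
  refine ⟨fun g hg => mem_Om R i hg, ?_, ?_⟩
  · intro g hg h1 h2
    rcases mem_Om R i hg with ⟨x, hx, t, ht, rfl⟩ | ⟨x, hx, t, ht, y, hy, rfl⟩
    · by_cases hx1 : x = 1
      · rw [hx1, one_mul]
        exact ht
      · exfalso
        obtain ⟨y1, hy1, z1, hz1, t1, ht1, h⟩ := R.cell i x hx hx1
        apply big R i hy1 ht1 hz1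
        intro u hu
        rw [← h]
        obtain ⟨v, hv, rfl⟩ := exXm R i hu
        have h3 : t⁻¹ * v * t ∈ R.X (-R.a i) := by
          have h := R.tX _ (R.T.inv_mem ht) _ (R.neg_a_mem i) v hv
          rwa [inv_inv] at h
        have h4 := h2 _ h3
        have h5 : x * t * (t⁻¹ * v * t) * (x * t)⁻¹ = x * v * x⁻¹ := by group
        rw [h5] at h4
        have h6 := nXm R i h4
        have h7 : R.n i * x * (R.n i)⁻¹ * (R.n i * v * (R.n i)⁻¹) * (R.n i * x * (R.n i)⁻¹)⁻¹ =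
            R.n i * (x * v * x⁻¹) * (R.n i)⁻¹ := by group
        rw [h7]
        exact h6
    · exact (big R i hx ht hy h1).elim
  · intro v hv hv1
    obtain ⟨x, hx, rfl⟩ := exX R i hv
    have hx1 : x ≠ 1 := by
      rintro rfl
      apply hv1
      group
    obtain ⟨y, hy, z, hz, t, ht, h⟩ := R.cell i x hx hx1
    have h1 : t = (R.n i)⁻¹ * y⁻¹ * (R.n i * x * (R.n i)⁻¹) * z⁻¹ := by
      rw [h]
      group
    have hX : R.X (R.a i) ≤ R.X (R.a i) ⊔ R.X (-R.a i) := le_sup_left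
    have hXm : R.X (-R.a i) ≤ R.X (R.a i) ⊔ R.X (-R.a i) := le_sup_right
    have h2 : t ∈ R.X (R.a i) ⊔ R.X (-R.a i) := by
      rw [h1]
      exact mul_mem (mul_mem (mul_mem (inv_mem (R.nmem i)) (inv_mem (hX hy))) (hXm hv))
        (inv_mem (hX hz))
    exact ⟨y, hy, t, ht, z, hz, h, ht, h2⟩

end Pool.Agent.PP.X1.H81
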