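import Pool.Agent.Helper12_AWB.B100

/-! Copy (generated) of the module `Pool.Agent.Helper90_X1.Opt` with import lines for the bundle Helper12_AWB. -/

/-!
Module OPT of the squad X1: existence of an optimal point.
-/

set_option autoImplicit false

noncomputable section

namespace Pool.Agent.PP.X1.H90

open Pool.Agent.PP.X1

/-- A vector whose inner products with linearly independent vectors are all one. -/
lemma exists_delta {m r : ℕ} (a : Fin r → EuclideanSpace ℝ (Fin m)) (ha : LinearIndependent ℝ a) :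
    ∃ δ : EuclideanSpace ℝ (Fin m), ∀ i, inner ℝ δ (a i) = (1 : ℝ) := by
  classical
  have hinj : Function.Injective (Fintype.linearCombination ℝ a) :=
    linearIndependent_iff_injective_fintypeLinearCombination.1 ha
  obtain ⟨g, hg⟩ := LinearMap.exists_leftInverse_of_injective (Fintype.linearCombination ℝ a)
    (LinearMap.ker_eq_bot.2 hinj)
  let f : EuclideanSpace ℝ (Fin m) →ₗ[ℝ] ℝ := (∑ i, LinearMap.proj i) ∘ₗ g
  refine ⟨(InnerProductSpace.toDual ℝ _).symm (LinearMap.toContinuousLinearMap f), fun i => ?_⟩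
  rw [InnerProductSpace.toDual_symm_apply]
  change f (a i) = 1
  have h1 : Fintype.linearCombination ℝ a (Pi.single i 1) = a i := by
    rw [Fintype.linearCombination_apply_single, one_smul]
  have h2 : g (a i) = Pi.single i 1 := by
    rw [← h1]
    exact LinearMap.congr_fun hg (Pi.single i 1)
  simp [f, h2]

theorem opt : OptStmt := by
  classical
  intro ℓ _ G _ _ R Q hQ hU
  obtain ⟨g₀, hg₀⟩ := hU
  obtain ⟨x₀, hx₀, hx₁⟩ : ∃ y, y ∈ Q ∧ y ≠ 1 := by
    obtain ⟨x, hx⟩ := Subgroup.ne_bot_iff_exists_ne_one.1 hQ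
    exact ⟨x.1, x.2, fun h => hx (Subtype.ext h)⟩
  -- sets which contain a conjugate of `Q` are not empty
  have hne : ∀ (h : G) (A : Set R.E), (∀ x ∈ Q, h⁻¹ * x * h ∈ R.gp A) → A.Nonempty := by
    intro h A hA
    by_contra hcon
    rw [Set.not_nonempty_iff_eq_empty] at hcon
    subst hcon
    have h1 := hA x₀ hx₀
    rw [R.gp_empty, Subgroup.mem_bot] at h1
    apply hx₁
    have h2 : x₀ = h * (h⁻¹ * x₀ * h) * h⁻¹ := by group
    rw [h2, h1]
    group
  obtain ⟨δ, hδ⟩ := exists_delta R.a R.base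
  have hδpos : ∀ b ∈ R.pos, (0 : ℝ) < inner ℝ δ b := by
    rintro b ⟨hb, k, hk, hbk⟩
    have h1 : inner ℝ δ b = ∑ i, k i := by
      rw [hbk, inner_sum]
      refine Finset.sum_congr rfl fun i _ => ?_
      rw [real_inner_smul_right, hδ, mul_one]
    rw [h1]
    refine lt_of_le_of_ne (Finset.sum_nonneg fun i _ => hk i) fun h0 => ?_
    have h2 := (Finset.sum_eq_zero_iff_of_nonneg (fun i _ => hk i)).1 h0.symm
    apply R.ne0 b hb
    rw [hbk]
    refine Finset.sum_eq_zero fun i hi => ?_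
    rw [h2 i hi, zero_smul]
  have hpos : R.pos.Nonempty := hne g₀ R.pos hg₀
  have hδ0 : δ ≠ 0 := by
    intro h
    obtain ⟨b, hb⟩ := hpos
    have := hδpos b hb
    rw [h, inner_zero_left] at this
    exact lt_irrefl _ this
  -- the compact set of dominant unit vectors
  set D : Set R.E := {ξ | ‖ξ‖ = 1 ∧ ∀ i, (0 : ℝ) ≤ inner ℝ ξ (R.a i)} with hD
  have hDc : IsCompact D := by
    have h1 : D = Metric.sphere (0 : R.E) 1 ∩ ⋂ i, {ξ : R.E | (0 : ℝ) ≤ inner ℝ ξ (R.a i)} := by
      ext ξ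
      simp [hD, Set.mem_iInter]
    rw [h1]
    refine (isCompact_sphere _ _).inter_right (isClosed_iInter fun i => ?_)
    exact isClosed_le continuous_const (continuous_id.inner continuous_const)
  have hδn : 0 < ‖δ‖ := norm_pos_iff.2 hδ0
  have hDne : (‖δ‖⁻¹ • δ) ∈ D := by
    refine ⟨?_, fun i => ?_⟩
    · rw [norm_smul, norm_inv, norm_norm, inv_mul_cancel₀ hδn.ne']
    · rw [real_inner_smul_left, hδ]
      positivity
  -- the minimum of the inner products with the elements of a finite set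
  have hmax : ∀ A : Finset R.E, ∀ hA : A.Nonempty, ∃ ξ ∈ D, ∀ η ∈ D,
      A.inf' hA (fun b => (inner ℝ η b : ℝ)) ≤ A.inf' hA (fun b => (inner ℝ ξ b : ℝ)) := by
    intro A hA
    have hc : ContinuousOn (fun ξ : R.E => A.inf' hA (fun b => (inner ℝ ξ b : ℝ))) D := by
      refine Continuous.continuousOn ?_
      refine Continuous.finset_inf'_apply hA fun b _ => ?_
      exact continuous_id.inner continuous_const
    obtain ⟨ξ, hξ, hm⟩ := hDc.exists_isMaxOn ⟨_, hDne⟩ hc
    exact ⟨ξ, hξ, fun η hη => hm hη⟩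
  have : Fintype G := Fintype.ofFinite G
  let C : Finset (G × Finset R.E) :=
    ((Finset.univ : Finset G) ×ˢ R.fin.toFinset.powerset).filter
      (fun p => p.2.Nonempty ∧ ∀ x ∈ Q, p.1⁻¹ * x * p.1 ∈ R.gp (p.2 : Set R.E))
  have hC : ∀ p : G × Finset R.E, p ∈ C ↔ (p.2 : Set R.E) ⊆ R.Φ ∧ p.2.Nonempty ∧
      ∀ x ∈ Q, p.1⁻¹ * x * p.1 ∈ R.gp (p.2 : Set R.E) := by
    intro p
    simp only [C, Finset.mem_filter, Finset.mem_product, Finset.mem_univ, true_and,
      Finset.mem_powerset]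
    refine and_congr_left fun _ => ?_
    rw [← Finset.coe_subset, Set.Finite.coe_toFinset]
  let F : G × Finset R.E → ℝ := fun p => if hp : p.2.Nonempty then
    p.2.inf' hp (fun b => (inner ℝ (hmax p.2 hp).choose b : ℝ)) else 0
  have hF : ∀ (p : G × Finset R.E) (hp : p.2.Nonempty), ∀ η ∈ D,
      p.2.inf' hp (fun b => (inner ℝ η b : ℝ)) ≤ F p := by
    intro p hp η hη
    simp only [F, dif_pos hp]
    exact (hmax p.2 hp).choose_spec.2 η hη
  -- every admissible triple gives an element of `C`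
  have hadm : ∀ (h : G) (η : R.E) (u : ℝ), η ∈ D →
      (∀ x ∈ Q, h⁻¹ * x * h ∈ R.gp {b | b ∈ R.Φ ∧ u ≤ inner ℝ η b}) →
      ∃ p ∈ C, u ≤ F p := by
    intro h η u hη hh
    let A : Finset R.E := R.fin.toFinset.filter (fun b => u ≤ inner ℝ η b)
    have hA : (A : Set R.E) = {b | b ∈ R.Φ ∧ u ≤ inner ℝ η b} := by
      ext b
      simp [A]
    have hAn : A.Nonempty := by
      rw [← Finset.coe_nonempty, hA]
      exact hne h _ hh
    refine ⟨(h, A), ?_, ?_⟩
    · rw [hC]
      refine ⟨?_, hAn, ?_⟩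
      · change (A : Set R.E) ⊆ R.Φ
        rw [hA]
        exact fun b hb => hb.1
      · change ∀ x ∈ Q, h⁻¹ * x * h ∈ R.gp (A : Set R.E)
        rw [hA]
        exact hh
    · refine le_trans ?_ (hF (h, A) hAn η hη)
      rw [Finset.le_inf'_iff]
      intro b hb
      have hb2 : b ∈ (A : Set R.E) := hb
      rw [hA] at hb2
      exact hb2.2
  -- the first admissible triple
  obtain ⟨p₀, hp₀, hu₀⟩ : ∃ p ∈ C, 0 < F p := by
    let A : Finset R.E := R.fin.toFinset.filter (fun b => b ∈ R.pos)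
    have hA : (A : Set R.E) = R.pos := by
      ext b
      simp only [A, Finset.coe_filter, Set.Finite.mem_toFinset]
      exact ⟨fun h => h.2, fun h => ⟨h.1, h⟩⟩
    have hAn : A.Nonempty := by
      rw [← Finset.coe_nonempty, hA]
      exact hpos
    refine ⟨(g₀, A), ?_, ?_⟩
    · rw [hC]
      refine ⟨?_, hAn, ?_⟩
      · change (A : Set R.E) ⊆ R.Φ
        rw [hA]
        exact fun b hb => hb.1
      · change ∀ x ∈ Q, g₀⁻¹ * x * g₀ ∈ R.gp (A : Set R.E)
        rw [hA]
        exact hg₀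
    · refine lt_of_lt_of_le ?_ (hF (g₀, A) hAn _ hDne)
      rw [Finset.lt_inf'_iff]
      intro b hb
      have hb2 : b ∈ (A : Set R.E) := hb
      rw [hA] at hb2
      rw [real_inner_smul_left]
      have := hδpos b hb2
      positivity
  obtain ⟨p, hp, hpm⟩ := Finset.exists_max_image C F ⟨p₀, hp₀⟩
  obtain ⟨hpΦ, hpn, hpQ⟩ := (hC p).1 hp
  obtain ⟨hξD, hξm⟩ := (hmax p.2 hpn).choose_spec
  have hFp : F p = p.2.inf' hpn (fun b => (inner ℝ (hmax p.2 hpn).choose b : ℝ)) := by
    simp only [F, dif_pos hpn]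
  refine ⟨p.1, (hmax p.2 hpn).choose, F p, hξD.1, hξD.2, ?_, ?_, ?_⟩
  · exact hu₀.trans_le (hpm p₀ hp₀)
  · intro x hx
    refine R.gp_mono ?_ (hpQ x hx)
    intro b hb
    refine ⟨hpΦ hb, ?_⟩
    rw [hFp]
    exact Finset.inf'_le _ hb
  · intro h η u h1 h2 h3
    obtain ⟨q, hq, hq2⟩ := hadm h η u ⟨h1, h2⟩ h3
    exact hq2.trans (hpm q hq)

end Pool.Agent.PP.X1.H90
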