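import Pool.Agent.Helper12_AWB.B100

/-! Copy (generated) of the module `Pool.Agent.Helper96_X1.Lev` with import lines for the bundle Helper12_AWB. -/

/-!
# Squad X1: the module LEV

The groups of a level are normal in the parabolic subgroup.
-/

open scoped BigOperators

noncomputable section

namespace Pool.Agent.PP.X1.H96

open Pool.Agent.PP.X1

/-- a subgroup that conjugates `K` into itself is contained in the normaliser -/
theorem le_norm {G : Type} [Group G] {H K : Subgroup G}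
    (h : ∀ g ∈ H, ∀ x ∈ K, g * x * g⁻¹ ∈ K) : H ≤ Subgroup.normalizer (K : Set G) := by
  intro g hg
  rw [Subgroup.mem_normalizer_iff]
  intro x
  constructor
  · exact fun hx => h g hg x hx
  · intro hx
    have h1 := h g⁻¹ (H.inv_mem hg) _ hx
    have h2 : g⁻¹ * (g * x * g⁻¹) * g⁻¹⁻¹ = x := by group
    rwa [h2] at h1

variable {ℓ : ℕ} {G : Type} [Group G] (R : RGD ℓ G)

theorem inner_nn {ξ : R.E} (hξ : ∀ i, (0 : ℝ) ≤ inner ℝ ξ (R.a i)) {v : R.E} (hv : Nn R.a v) :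
    (0 : ℝ) ≤ inner ℝ ξ v := by
  obtain ⟨k, hk, rfl⟩ := hv
  rw [inner_sum]
  apply Finset.sum_nonneg
  intro i _
  rw [real_inner_smul_right]
  exact mul_nonneg (hk i) (hξ i)

theorem inner_lev {ξ : R.E} {J : Finset (Fin R.r)} (hJ : ∀ i ∈ J, inner ℝ ξ (R.a i) = (0 : ℝ))
    {b : R.E} (hb : b ∈ R.lev J) : inner ℝ ξ b = (0 : ℝ) := by
  have h1 : Submodule.span ℝ (R.a '' (J : Set (Fin R.r))) ≤
      LinearMap.ker (innerₛₗ ℝ ξ) := by
    rw [Submodule.span_le]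
    rintro _ ⟨i, hi, rfl⟩
    simp only [SetLike.mem_coe, LinearMap.mem_ker, innerₛₗ_apply_apply]
    exact hJ i hi
  have h2 := h1 hb.2
  rwa [LinearMap.mem_ker, innerₛₗ_apply_apply] at h2

theorem level_sub {ξ : R.E} (hξ : ∀ i, (0 : ℝ) ≤ inner ℝ ξ (R.a i)) {t : ℝ} (ht : 0 < t)
    {J : Finset (Fin R.r)} (hJ : ∀ i ∈ J, inner ℝ ξ (R.a i) = (0 : ℝ)) :
    {b | b ∈ R.Φ ∧ t ≤ inner ℝ ξ b} ⊆ R.pos \ R.lev J := by
  rintro b ⟨hb, hbt⟩
  refine ⟨?_, ?_⟩
  · rcases R.pos_or_neg hb with h | h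
    · exact h
    · exfalso
      have h1 := inner_nn R hξ h.2
      rw [inner_neg_right] at h1
      linarith
  · intro h
    have h1 := inner_lev R hJ h
    linarith

theorem conj_level {ξ : R.E} {t : ℝ} (ht : 0 < t) {b : R.E} (hb : b ∈ R.Φ)
    (hb0 : (0 : ℝ) ≤ inner ℝ ξ b) {x : G} (hx : x ∈ R.X b) {y : G}
    (hy : y ∈ R.gp {b | b ∈ R.Φ ∧ t ≤ inner ℝ ξ b}) :
    x * y * x⁻¹ ∈ R.gp {b | b ∈ R.Φ ∧ t ≤ inner ℝ ξ b} := by
  have h2 : R.gp {b | b ∈ R.Φ ∧ t ≤ inner ℝ ξ b} ≤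
      (R.gp {b | b ∈ R.Φ ∧ t ≤ inner ℝ ξ b}).comap (MulAut.conj x).toMonoidHom := by
    apply R.gp_le
    rintro c ⟨hc, hct⟩ z hz
    rw [Subgroup.mem_comap]
    show x * z * x⁻¹ ∈ _
    have h3 : x * z * x⁻¹ * z⁻¹ ∈ R.gp {b | b ∈ R.Φ ∧ t ≤ inner ℝ ξ b} := by
      apply R.comm_gp hb hc ?_ ?_ hx hz
      · intro s hs h
        rw [h, inner_neg_right, real_inner_smul_right] at hct
        have := mul_nonneg hs.le hb0
        linarith
      · intro p q hp hq hpq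
        refine ⟨hpq, ?_⟩
        rw [inner_add_right, real_inner_smul_right, real_inner_smul_right]
        have h4 : 0 ≤ p * inner ℝ ξ b := mul_nonneg (by linarith) hb0
        have h5 : (inner ℝ ξ c : ℝ) ≤ q * inner ℝ ξ c := by
          have h6 : (0 : ℝ) ≤ inner ℝ ξ c := by linarith
          nlinarith
        linarith
    have h4 : z ∈ R.gp {b | b ∈ R.Φ ∧ t ≤ inner ℝ ξ b} :=
      R.X_le_gp (show c ∈ {b | b ∈ R.Φ ∧ t ≤ inner ℝ ξ b} from ⟨hc, hct⟩) hz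
    have h5 := Subgroup.mul_mem _ h3 h4
    have h6 : x * z * x⁻¹ * z⁻¹ * z = x * z * x⁻¹ := by group
    rwa [h6] at h5
  exact h2 hy

theorem lev : LevStmt := by
  intro ℓ G _ R ξ hξ t ht J hJ
  have hJ' : ∀ i ∈ J, inner ℝ ξ (R.a i) = (0 : ℝ) := fun i hi => (hJ i).mp hi
  refine ⟨?_, R.gp_mono (level_sub R hξ ht hJ')⟩
  have h1 : R.PJ J ≤
      Subgroup.normalizer ((R.gp {b | b ∈ R.Φ ∧ t ≤ inner ℝ ξ b} : Subgroup G) : Set G) := by
    apply sup_le
    · apply le_norm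
      intro g hg x hx
      exact R.T_gp (fun b hb => hb.1) hg hx
    · apply R.gp_le
      intro b hb
      apply le_norm
      intro g hg x hx
      rcases hb with hb | hb
      · exact conj_level R ht hb.1 (inner_nn R hξ hb.2) hg hx
      · exact conj_level R ht hb.1 (inner_lev R hJ' hb).ge hg hx
  intro g hg x hx
  have h2 := h1 hg
  rw [Subgroup.mem_normalizer_iff] at h2
  exact (h2 x).mp hx

end Pool.Agent.PP.X1.H96
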