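import Pool.Agent.Helper66_AWS.S119

/-! Copy (generated) of the module `Pool.Agent.Helper96_X1.Int` with import lines for the bundle Helper12_AWB. -/

/-!
# Squad X1: the module INT

Intersections of the groups of levels.
-/

open scoped BigOperators

noncomputable section

namespace Pool.Agent.PP.X1.H96

open Pool.Agent.PP.X1

theorem level_pos {ℓ : ℕ} {G : Type} [Group G] (R : RGD ℓ G) {ξ : R.E}
    (hξ : ∀ i, (0 : ℝ) ≤ inner ℝ ξ (R.a i)) {b : R.E} (hb : b ∈ R.Φ)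
    (h : (0 : ℝ) < inner ℝ ξ b) : b ∈ R.pos := by
  rcases R.pos_or_neg hb with h1 | h1
  · exact h1
  · exfalso
    have h2 := inner_nn R hξ h1.2
    rw [inner_neg_right] at h2
    linarith

theorem int (hdom : DomStmt) (hclo : CloStmt) (hpd1 : Pd1Stmt) (hpd2 : Pd2Stmt) : IntStmt := by
  intro ℓ G _ R ξ η hξ s t hs ht g hg
  obtain ⟨hg1, hg2⟩ := Subgroup.mem_inf.mp hg
  obtain ⟨cpos, -, -, -, cint, -, -, clev⟩ := hclo ℓ G R
  obtain ⟨v, hv⟩ := hdom ℓ G R η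
  have hpos1 : {b | b ∈ R.Φ ∧ s ≤ inner ℝ ξ b} ⊆ R.pos := by
    rintro b ⟨hb, hbs⟩
    exact level_pos R hξ hb (by linarith)
  obtain ⟨x, hx, y, hy, hxy⟩ := hpd2 ℓ G R v {b | b ∈ R.Φ ∧ t ≤ inner ℝ η b} (clev η t ht)
    (by
      rintro b ⟨hb, hbt⟩
      apply level_pos R hv (R.sw_mem hb)
      rw [R.sw_inner]
      linarith) g hg2
  have hgU : g ∈ R.U := R.gp_mono hpos1 hg1
  have hxU : x ∈ R.U := R.gp_mono Set.inter_subset_right hx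
  have hyV : y ∈ R.V := R.gp_mono Set.inter_subset_right hy
  have hyU : y ∈ R.U := by
    have : y = x⁻¹ * g := by rw [hxy]; group
    rw [this]
    exact R.U.mul_mem (R.U.inv_mem hxU) hgU
  have hy1 : y = 1 := by
    have h1 : y ∈ R.U ⊓ R.V := Subgroup.mem_inf.mpr ⟨hyU, hyV⟩
    rwa [R.U_inf_V, Subgroup.mem_bot] at h1
  have hgx : g = x := by rw [hxy, hy1, mul_one]
  rw [← hgx] at hx
  have h2 := hpd1 ℓ G R {b | b ∈ R.Φ ∧ s ≤ inner ℝ ξ b} ({b | b ∈ R.Φ ∧ t ≤ inner ℝ η b} ∩ R.pos)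
    (clev ξ s hs) (cint _ _ (clev η t ht) cpos) hpos1 Set.inter_subset_right
  have h3 : g ∈ R.gp ({b | b ∈ R.Φ ∧ s ≤ inner ℝ ξ b} ∩
      ({b | b ∈ R.Φ ∧ t ≤ inner ℝ η b} ∩ R.pos)) := by
    rw [← h2]
    exact Subgroup.mem_inf.mpr ⟨hg1, hx⟩
  apply R.gp_mono _ h3
  rintro b ⟨⟨hb, hbs⟩, ⟨-, hbt⟩, -⟩
  refine ⟨hb, ?_⟩
  rw [inner_add_left]
  linarith

end Pool.Agent.PP.X1.H96
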