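import Pool.Agent.Helper66_AWS.S002
import Pool.Agent.Helper66_AWS.S006
import Pool.Agent.Helper66_AWS.S010
import Pool.Agent.Helper66_AWS.S013
import Pool.Agent.Helper66_AWS.S014
import Pool.Agent.Helper66_AWS.S091
import Pool.Agent.Helper66_AWS.S093
import Pool.Agent.Helper66_AWS.S101
import Pool.Agent.Helper66_AWS.S096
import Pool.Agent.Helper66_AWS.S095
import Pool.Agent.Helper66_AWS.S109
import Pool.Agent.Helper66_AWS.S110
import Pool.Agent.Helper66_AWS.S111
import Pool.Agent.Helper66_AWS.S112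
import Pool.Agent.Helper66_AWS.S114
import Pool.Agent.Helper66_AWS.S113
import Pool.Agent.Helper66_AWS.S115
import Pool.Agent.Helper66_AWS.S116
import Pool.Agent.Helper66_AWS.S117
import Pool.Agent.Helper66_AWS.S118
import Pool.Agent.Helper66_AWS.S120
import Pool.Agent.Helper66_AWS.S119
import Pool.Agent.Helper66_AWS.S121
import Pool.Agent.Helper66_AWS.S122
import Pool.Agent.Helper66_AWS.S123

/-! Copy (generated) of the module `Pool.Agent.Helper36_X1.AsmA` with import lines for the bundle Helper12_AWB. -/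

/-!
# Squad X1: assembly, sections A-D
-/

open scoped BigOperators

noncomputable section

namespace Pool.Agent.PP.X1

theorem wrd_ : WrdStmt := H41.wrd H81.rk1
theorem pd1_ : Pd1Stmt := H76.pd1 H11.lng H32.clo H32.pel
theorem pd2_ : Pd2Stmt := H20.pd2 H32.clo H32.pel
theorem fac_ : FacStmt := H5.fac pd2_ H32.pel H32.clo
theorem bru_ : BruhStmt := H55.bru H11.lng H39.orb H29.dsc H32.pel fac_
theorem syl_ : SylStmt := H18.syl H11.lng H39.orb H29.dsc wrd_ H18.upg H32.clo bru_
theorem par_ : ParStmt := H20.par H11.lng H29.dsc wrd_ fac_ bru_ syl_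
theorem trv_ : TrvStmt := H17.trv H81.rk1
theorem int_ : IntStmt := H96.int H39.dom H32.clo pd1_ pd2_
theorem bts_ : BtsStmt := H37.bts H39.dom bru_ syl_ par_ H96.lev int_ H90.opt
theorem ln2_ : Ln2Stmt := H17.ln2 H11.lng H39.orb
theorem opv_ : OpvStmt := H45.opv H11.lng H39.orb H29.dsc wrd_ bru_
theorem prx_ : PrmxStmt := H6.prx syl_ par_ bru_
theorem lft_ : LftStmt := H77.lft H39.dom H18.upg H32.clo

end Pool.Agent.PP.X1
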