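import Pool.Agent.Helper12_AWB.B100
import Pool.Agent.Helper12_AWB.B147

/-! Copy (generated) of the module `Pool.Agent.Helper65_X1.Cnv` with import lines for the bundle Helper12_AWB. -/

/-!
# Squad X1, module CNV: the counting lemma as a sum over `H ∩ A`
-/

open scoped BigOperators

set_option linter.unusedSectionVars false

noncomputable section

namespace Pool.Agent.PP.X1.H65

open Pool.Agent.Helper51_AWC Pool.Agent.Helper79_WRA Pool.Agent.PP

section iso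

variable {F : Type} [Field F] {D : Type} [Group D] [Finite D] {M : Subgroup D} [M.Normal]
  {H : Subgroup D} {P : Subgroup M}

theorem mem_up {x : M} : (x : D) ∈ up P ↔ x ∈ P := by
  unfold up
  rw [Subgroup.mem_map]
  constructor
  · rintro ⟨y, hy, hxy⟩
    have : y = x := Subtype.ext hxy
    rwa [← this]
  · intro h
    exact ⟨x, h, rfl⟩

/-- `P` is isomorphic to `M ∩ H` -/
def eqv (hP : up P = H ⊓ M) : P ≃* M.subgroupOf H where
  toFun p := ⟨⟨((p : M) : D), by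
    have h : ((p : M) : D) ∈ up P := mem_up.2 p.2
    rw [hP] at h
    exact h.1⟩, (p : M).2⟩
  invFun l := ⟨⟨((l : H) : D), l.2⟩, by
    have h : ((l : H) : D) ∈ up P := by
      rw [hP]
      exact ⟨(l : H).2, l.2⟩
    exact (mem_up (x := ⟨((l : H) : D), l.2⟩)).1 h⟩
  left_inv _ := rfl
  right_inv _ := rfl
  map_mul' _ _ := rfl

theorem eqv_coe (hP : up P = H ⊓ M) (p : P) :
    (((eqv hP p : M.subgroupOf H) : H) : D) = ((p : M) : D) := rfl

/-- conjugation by an element of `H` -/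
theorem conj_mem (hP : up P = H ⊓ M) (x : H) {g : M} (hg : g ∈ P) :
    (MulAut.conjNormal (x : D) : MulAut M) g ∈ P := by
  apply mem_up.1
  rw [hP]
  have h1 : (g : D) ∈ up P := mem_up.2 hg
  rw [hP] at h1
  refine ⟨?_, Subtype.property _⟩
  rw [MulAut.conjNormal_apply]
  exact H.mul_mem (H.mul_mem x.2 h1.1) (H.inv_mem x.2)

theorem conj_eqv (hP : up P = H ⊓ M) (x : H) (g : P) :
    (MulAut.conjNormal x : MulAut (M.subgroupOf H)) (eqv hP g) =
      eqv hP ⟨(MulAut.conjNormal (x : D) : MulAut M) g, conj_mem hP x g.2⟩ := by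
  apply Subtype.ext
  apply Subtype.ext
  rw [eqv_coe, MulAut.conjNormal_apply]
  change (x : D) * ((g : M) : D) * (x : D)⁻¹ = _
  rw [MulAut.conjNormal_apply]

theorem ibr_iff {K K' : Type} [Group K] [Group K'] (e : K ≃* K') (φ : K' → F) :
    φ ∘ e ∈ IBr F K ↔ φ ∈ IBr F K' := by
  have key : ∀ {K K' : Type} [Group K] [Group K'] (e : K ≃* K') (φ : K' → F), φ ∈ IBr F K' →
      φ ∘ e ∈ IBr F K := by
    intro K K' _ _ e φ h
    obtain ⟨n, ρ, hρ, rfl⟩ := h
    refine ⟨n, ρ.comp e.toMonoidHom, ⟨hρ.1, ?_⟩, rfl⟩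
    rw [← hρ.2]
    congr 1
    ext y
    constructor
    · rintro ⟨z, rfl⟩
      exact ⟨e z, rfl⟩
    · rintro ⟨z, rfl⟩
      refine ⟨e.symm z, ?_⟩
      change ρ (e (e.symm z)) = ρ z
      rw [MulEquiv.apply_symm_apply]
  refine ⟨fun h => ?_, key e φ⟩
  have h1 := key e.symm _ h
  have h2 : (φ ∘ e) ∘ e.symm = φ := by
    funext z
    change φ (e (e.symm z)) = φ z
    rw [MulEquiv.apply_symm_apply]
  rwa [h2] at h1

theorem actF_iff {K K' : Type} [Group K] [Group K'] (e : K ≃* K') (a : K' → F)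
    (φ : K' → F) : actF (a ∘ e) (φ ∘ e) = φ ∘ e ↔ actF a φ = φ := by
  have key : ∀ x, actF (a ∘ e) (φ ∘ e) x = actF a φ (e x) := by
    intro x
    unfold actF
    rw [← finsum_comp_equiv e.toEquiv]
    refine finsum_congr fun t => ?_
    change a (e t) * φ (e (t * x)) = a (e t) * φ (e t * e x)
    rw [map_mul]
  constructor
  · intro h
    funext z
    have h1 := congrFun h (e.symm z)
    rw [key] at h1
    change actF a φ (e (e.symm z)) = φ (e (e.symm z)) at h1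
    rwa [MulEquiv.apply_symm_apply] at h1
  · intro h
    funext x
    rw [key, h]
    rfl

theorem fxd_iff (hP : up P = H ⊓ M) (φ : M.subgroupOf H → F) (x : H) :
    Fxd P (φ ∘ eqv hP) (MulAut.conjNormal (x : D)) ↔
      ∀ l, φ ((MulAut.conjNormal x : MulAut (M.subgroupOf H)) l) = φ l := by
  constructor
  · intro h l
    obtain ⟨g, rfl⟩ := (eqv hP).surjective l
    rw [conj_eqv]
    exact h g ⟨_, conj_mem hP x g.2⟩ rfl
  · intro h g g' hg
    have h1 := h (eqv hP g)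
    rw [conj_eqv] at h1
    have h2 : g' = ⟨(MulAut.conjNormal (x : D) : MulAut M) g, conj_mem hP x g.2⟩ :=
      Subtype.ext hg
    rw [h2]
    exact h1

theorem isIrr_comp {K K' : Type} [Group K] [Group K'] (e : K ≃* K') {n : ℕ}
    {ρ : K' →* Matrix (Fin n) (Fin n) F} (h : IsIrr ρ) : IsIrr (ρ.comp e.toMonoidHom) := by
  refine ⟨h.1, ?_⟩
  rw [← h.2]
  congr 1
  ext y
  constructor
  · rintro ⟨z, rfl⟩
    exact ⟨e z, rfl⟩
  · rintro ⟨z, rfl⟩
    refine ⟨e.symm z, ?_⟩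
    change ρ (e (e.symm z)) = ρ z
    rw [MulEquiv.apply_symm_apply]

theorem isTC_iff (hP : up P = H ⊓ M) (φ : M.subgroupOf H → F) (x y : H)
    (hk : (x * y * x⁻¹ * y⁻¹ : H) ∈ M.subgroupOf H) (c : F) :
    IsTCa P (φ ∘ eqv hP) (MulAut.conjNormal (x : D)) (MulAut.conjNormal (y : D))
      (cM M x y) c ↔ IsTC (M.subgroupOf H) φ x y c := by
  have hkM : (x : D) * y * (x : D)⁻¹ * (y : D)⁻¹ ∈ M := hk
  have hcM : cM M x y = ⟨(x : D) * y * (x : D)⁻¹ * (y : D)⁻¹, hkM⟩ := by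
    unfold cM
    rw [dif_pos hkM]
  have hcP : cM M x y ∈ P := by
    apply mem_up.1
    rw [hP, hcM]
    exact ⟨(x * y * x⁻¹ * y⁻¹ : H).2, hkM⟩
  have hce : eqv hP ⟨cM M x y, hcP⟩ = ⟨x * y * x⁻¹ * y⁻¹, hk⟩ := by
    apply Subtype.ext
    apply Subtype.ext
    rw [eqv_coe]
    change ((cM M x y : M) : D) = (x : D) * y * (x : D)⁻¹ * (y : D)⁻¹
    rw [hcM]
  constructor
  · rintro ⟨n, ρ, X, Y, hρ, htr, hX, hY, iX, iY, he⟩
    have hro : ∀ g : P, ro ρ (g : M) = ρ.comp (eqv hP).symm.toMonoidHom (eqv hP g) := by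
      intro g
      rw [ro_coe]
      change ρ g = ρ ((eqv hP).symm (eqv hP g))
      rw [MulEquiv.symm_apply_apply]
    refine ⟨n, ρ.comp (eqv hP).symm.toMonoidHom, X, Y, hk, isIrr_comp _ hρ, ?_, hX, hY, ?_, ?_, ?_⟩
    · funext l
      obtain ⟨g, rfl⟩ := (eqv hP).surjective l
      have h1 := congrFun htr g
      unfold tr at h1 ⊢
      rw [← hro, ro_coe, h1]
      rfl
    · intro l
      obtain ⟨g, rfl⟩ := (eqv hP).surjective l
      rw [conj_eqv, ← hro, ← hro]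
      exact iX g g.2
    · intro l
      obtain ⟨g, rfl⟩ := (eqv hP).surjective l
      rw [conj_eqv, ← hro, ← hro]
      exact iY g g.2
    · rw [← hce, ← hro]
      exact he
  · rintro ⟨n, ρ, X, Y, hk', hρ, htr, hX, hY, iX, iY, he⟩
    have hro : ∀ g : P, ro (ρ.comp (eqv hP).toMonoidHom) (g : M) = ρ (eqv hP g) := by
      intro g
      rw [ro_coe]
      rfl
    refine ⟨n, ρ.comp (eqv hP).toMonoidHom, X, Y, isIrr_comp _ hρ, ?_, hX, hY, ?_, ?_, ?_⟩
    · rw [← htr]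
      rfl
    · intro g hg
      have h1 := iX (eqv hP ⟨g, hg⟩)
      rw [conj_eqv, ← hro, ← hro] at h1
      exact h1
    · intro g hg
      have h1 := iY (eqv hP ⟨g, hg⟩)
      rw [conj_eqv, ← hro, ← hro] at h1
      exact h1
    · rw [← hce, ← hro] at he
      exact he

theorem tc_eq (hP : up P = H ⊓ M) (φ : M.subgroupOf H → F) (x y : H)
    (hk : (x * y * x⁻¹ * y⁻¹ : H) ∈ M.subgroupOf H) :
    tca P (φ ∘ eqv hP) (MulAut.conjNormal (x : D)) (MulAut.conjNormal (y : D)) (cM M x y) =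
      tc (M.subgroupOf H) φ x y := by
  have h : IsTCa P (φ ∘ eqv hP) (MulAut.conjNormal (x : D)) (MulAut.conjNormal (y : D))
      (cM M x y) = IsTC (M.subgroupOf H) φ x y := by
    funext c
    exact propext (isTC_iff hP φ x y hk c)
  unfold tca tc
  rw [h]

theorem csum_eq (hP : up P = H ⊓ M) (τ : F → ℂ) (a : D → F) (x y : H)
    (hk : (x * y * x⁻¹ * y⁻¹ : H) ∈ M.subgroupOf H) :
    csum τ (M.subgroupOf H) (fun t : H => a t) x y =
      ∑ᶠ φ ∈ {φ : P → F | φ ∈ IBr F P ∧ actF (fun t : P => a t) φ = φ ∧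
        Fxd P φ (MulAut.conjNormal (x : D)) ∧ Fxd P φ (MulAut.conjNormal (y : D))},
        τ (tca P φ (MulAut.conjNormal (x : D)) (MulAut.conjNormal (y : D)) (cM M x y)) := by
  unfold csum
  refine finsum_mem_eq_of_bijOn (fun φ => φ ∘ eqv hP) ⟨?_, ?_, ?_⟩ ?_
  · rintro φ ⟨h1, h2, h3, h4⟩
    exact ⟨(ibr_iff (eqv hP) φ).2 h1, (actF_iff (eqv hP) _ φ).2 h2, (fxd_iff hP φ x).2 h3,
      (fxd_iff hP φ y).2 h4⟩
  · intro φ _ φ' _ h
    funext l
    obtain ⟨g, rfl⟩ := (eqv hP).surjective l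
    exact congrFun h g
  · rintro ψ ⟨h1, h2, h3, h4⟩
    have h0 : (ψ ∘ (eqv hP).symm) ∘ eqv hP = ψ := by
      funext g
      change ψ ((eqv hP).symm (eqv hP g)) = ψ g
      rw [MulEquiv.symm_apply_apply]
    refine ⟨ψ ∘ (eqv hP).symm, ⟨?_, ?_, ?_, ?_⟩, h0⟩
    · apply (ibr_iff (eqv hP) _).1
      rwa [h0]
    · apply (actF_iff (eqv hP) _ _).1
      rw [h0]
      exact h2
    · apply (fxd_iff hP _ x).1
      rwa [h0]
    · apply (fxd_iff hP _ y).1
      rwa [h0]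
  · intro φ _
    rw [tc_eq hP φ x y hk]

end iso

open Classical in
theorem sum_sub {D : Type} [Finite D] [Group D] (H : Subgroup D) (g : D → ℂ)
    (h : ∀ x, x ∉ H → g x = 0) : ∑ᶠ x : D, g x = ∑ᶠ x : H, g x := by
  have := Fintype.ofFinite D
  rw [finsum_eq_sum_of_fintype, finsum_eq_sum_of_fintype]
  symm
  apply Fintype.sum_of_injective (Subtype.val : H → D) Subtype.val_injective
  · intro x hx
    apply h
    intro hxH
    exact hx ⟨⟨x, hxH⟩, rfl⟩
  · intro x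
    rfl

theorem cnv (hcl : ClStmt) : CnvStmt := by
  classical
  intro ℓ _ F _ hF D _ _ M _ hidx H A P B hP hB hBH hfac a ha ha0 τ hτ
  -- the quotient
  let L : Subgroup H := M.subgroupOf H
  let q : H →* H ⧸ L := QuotientGroup.mk' L
  have hle : H ⊓ A ≤ H := inf_le_left
  let q' : (H ⊓ A : Subgroup D) →* H ⧸ L := q.comp (Subgroup.inclusion hle)
  have hq' : Function.Surjective q' := by
    intro X
    obtain ⟨x, rfl⟩ := QuotientGroup.mk'_surjective L X
    obtain ⟨y, hy, z, hz, hxyz⟩ := hfac x x.2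
    refine ⟨⟨z, hz⟩, ?_⟩
    change q ⟨z, hle hz⟩ = q x
    rw [← inv_mul_eq_one, ← map_inv, ← map_mul]
    apply (QuotientGroup.eq_one_iff _).2
    change (z : D)⁻¹ * (x : D) ∈ M
    rw [hxyz]
    rw [hP] at hy
    have h1 : z⁻¹ * (y * z) = z⁻¹ * y * z⁻¹⁻¹ := by group
    rw [h1]
    exact (inferInstance : M.Normal).conj_mem y hy.2 z⁻¹
  choose s0 hs0 using hq'
  have hcq := BN.H96.cl_quot hcl hF hτ L (a := fun t : H => a t) (fun x y => ha x y)
    (fun h hh => ha0 h hh) q (fun x => QuotientGroup.eq_one_iff x)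
    (fun X => Subgroup.inclusion hle (s0 X)) hs0
  -- regularity is automatic
  have hreg : ∀ X : H ⧸ L, Reg ℓ X := by
    intro X
    unfold Reg
    rw [Nat.coprime_comm]
    apply (Nat.Prime.coprime_iff_not_dvd (Fact.out : ℓ.Prime)).2
    intro hdvd
    apply hidx
    have h1 : orderOf X ∣ Nat.card (H ⧸ L) := orderOf_dvd_natCard X
    have h2 : Nat.card (H ⧸ L) = M.relIndex H := rfl
    rw [h2] at h1
    exact hdvd.trans (h1.trans (Subgroup.relIndex_dvd_index_of_normal M H))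
  -- the kernel
  have hker : Nat.card q'.ker = Nat.card B := by
    have h1 : ∀ x : (H ⊓ A : Subgroup D), x ∈ q'.ker ↔ (x : D) ∈ up B := by
      intro x
      rw [MonoidHom.mem_ker]
      change q (Subgroup.inclusion hle x) = 1 ↔ _
      have h2 : q (Subgroup.inclusion hle x) = 1 ↔ (x : D) ∈ M :=
        QuotientGroup.eq_one_iff (N := L) (Subgroup.inclusion hle x)
      rw [h2, hB]
      exact ⟨fun h => ⟨h, x.2.2⟩, fun h => h.1⟩
    have h3 : Nat.card q'.ker = Nat.card (up B) := by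
      apply Nat.card_congr
      exact
        { toFun := fun x => ⟨((x : (H ⊓ A : Subgroup D)) : D), (h1 x).1 x.2⟩
          invFun := fun x => ⟨⟨(x : D), ⟨hBH x.2, (hB.le x.2).2⟩⟩, (h1 _).2 x.2⟩
          left_inv := fun _ => rfl
          right_inv := fun _ => rfl }
    rw [h3]
    unfold up
    exact (Nat.card_congr (B.equivMapOfInjective M.subtype M.subtype_injective).toEquiv).symm
  have hcard : Nat.card (H ⊓ A : Subgroup D) = Nat.card B * Nat.card (H ⧸ L) := by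
    rw [← hker]
    exact H59.card_dom q' (fun X => ⟨s0 X, hs0 X⟩)
  -- the summands
  obtain ⟨g, hg⟩ : ∃ g : H ⧸ L → H ⧸ L → ℂ, g = fun X Y =>
      if Reg ℓ X ∧ X * Y * X⁻¹ * Y⁻¹ = 1 then csum τ L (fun t : H => a t)
        (Subgroup.inclusion hle (s0 X)) (Subgroup.inclusion hle (s0 Y)) else 0 := ⟨_, rfl⟩
  have hsum : ∑ᶠ (x : (H ⊓ A : Subgroup D)) (y : (H ⊓ A : Subgroup D)), g (q' x) (q' y) =
      (Nat.card B : ℂ) * ((Nat.card B : ℂ) * ∑ᶠ (X : H ⧸ L) (Y : H ⧸ L), g X Y) := by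
    have hsj : Function.Surjective q' := fun X => ⟨s0 X, hs0 X⟩
    have h6 : ∀ x : (H ⊓ A : Subgroup D), ∑ᶠ y : (H ⊓ A : Subgroup D), g (q' x) (q' y) =
        (Nat.card B : ℂ) * ∑ᶠ Y : H ⧸ L, g (q' x) Y := by
      intro x
      rw [← hker]
      exact H59.sum_fib q' hsj (fun Y => g (q' x) Y)
    rw [finsum_congr h6]
    have h8 := H59.sum_fib q' hsj (fun X : H ⧸ L => (Nat.card B : ℂ) * ∑ᶠ Y : H ⧸ L, g X Y)
    rw [hker] at h8
    rw [h8]
    congr 1
    have := Fintype.ofFinite (H ⧸ L)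
    simp only [finsum_eq_sum_of_fintype, Finset.mul_sum]
  have hN : (lnum H a : ℂ) =
      ({θ : H → F | θ ∈ IBr F H ∧ actF (fun t : H => a t) θ = θ}.ncard : ℂ) := rfl
  have hleft : (Nat.card (H ⊓ A : Subgroup D) : ℂ) * Nat.card B * (lnum H a : ℂ) =
      ∑ᶠ (x : (H ⊓ A : Subgroup D)) (y : (H ⊓ A : Subgroup D)), g (q' x) (q' y) := by
    have hgs : ∑ᶠ (X : H ⧸ L) (Y : H ⧸ L), g X Y = (Nat.card (H ⧸ L) : ℂ) *
        ({θ : H → F | θ ∈ IBr F H ∧ actF (fun t : H => a t) θ = θ}.ncard : ℂ) := by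
      rw [hcq]
      refine finsum_congr fun X => finsum_congr fun Y => ?_
      rw [hg]
      simp only
      by_cases hc : Reg ℓ X ∧ X * Y * X⁻¹ * Y⁻¹ = 1
      · rw [if_pos hc, if_pos hc]
      · rw [if_neg hc, if_neg hc]
    rw [hsum, hgs, hcard, hN, Nat.cast_mul]
    ring
  rw [hleft]
  -- the right side
  have hterm : ∀ x y : (H ⊓ A : Subgroup D), g (q' x) (q' y) =
      if ((x : D) ∈ H ⊓ A ∧ (y : D) ∈ H ⊓ A ∧
        (x : D) * (y : D) * (x : D)⁻¹ * (y : D)⁻¹ ∈ up B) then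
      ∑ᶠ φ ∈ {φ : P → F | φ ∈ IBr F P ∧ actF (fun t : P => a t) φ = φ ∧
        Fxd P φ (MulAut.conjNormal (x : D)) ∧ Fxd P φ (MulAut.conjNormal (y : D))},
        τ (tca P φ (MulAut.conjNormal (x : D)) (MulAut.conjNormal (y : D)) (cM M x y))
      else 0 := by
    intro x y
    obtain ⟨x', hx'⟩ : ∃ x' : H, x' = Subgroup.inclusion hle x := ⟨_, rfl⟩
    obtain ⟨y', hy'⟩ : ∃ y' : H, y' = Subgroup.inclusion hle y := ⟨_, rfl⟩
    have hxc : (x' : D) = x := by rw [hx']; rfl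
    have hyc : (y' : D) = y := by rw [hy']; rfl
    have hqx : q' x = q x' := by rw [hx']; rfl
    have hqy : q' y = q y' := by rw [hy']; rfl
    have hcomm : q x' * q y' * (q x')⁻¹ * (q y')⁻¹ = 1 ↔ (x' * y' * x'⁻¹ * y'⁻¹ : H) ∈ L := by
      rw [← map_inv, ← map_inv, ← map_mul, ← map_mul, ← map_mul]
      exact QuotientGroup.eq_one_iff _
    have hcomm2 : (x' * y' * x'⁻¹ * y'⁻¹ : H) ∈ L ↔
        (x : D) * (y : D) * (x : D)⁻¹ * (y : D)⁻¹ ∈ up B := by
      have e1 : ((x' * y' * x'⁻¹ * y'⁻¹ : H) : D) = (x : D) * y * (x : D)⁻¹ * (y : D)⁻¹ := by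
        rw [← hxc, ← hyc]
        rfl
      rw [Subgroup.mem_subgroupOf, e1, hB]
      refine ⟨fun h => ⟨h, ?_⟩, fun h => h.1⟩
      exact A.mul_mem (A.mul_mem (A.mul_mem x.2.2 y.2.2) (A.inv_mem x.2.2)) (A.inv_mem y.2.2)
    rw [hg]
    simp only
    rw [hqx, hqy]
    by_cases hc : (x' * y' * x'⁻¹ * y'⁻¹ : H) ∈ L
    · rw [if_pos ⟨hreg _, hcomm.2 hc⟩, if_pos ⟨x.2, y.2, hcomm2.1 hc⟩]
      have hl : ∀ z : H, (Subgroup.inclusion hle (s0 (q z)))⁻¹ * z ∈ L := by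
        intro z
        apply (QuotientGroup.eq_one_iff (N := L) _).1
        change q ((Subgroup.inclusion hle (s0 (q z)))⁻¹ * z) = 1
        rw [map_mul, map_inv]
        have : q (Subgroup.inclusion hle (s0 (q z))) = q z := hs0 (q z)
        rw [this, inv_mul_cancel]
      obtain ⟨u, hu⟩ : ∃ u, u = Subgroup.inclusion hle (s0 (q x')) := ⟨_, rfl⟩
      obtain ⟨v, hv⟩ : ∃ v, v = Subgroup.inclusion hle (s0 (q y')) := ⟨_, rfl⟩
      have hqu : q u = q x' := by rw [hu]; exact hs0 (q x')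
      have hqv : q v = q y' := by rw [hv]; exact hs0 (q y')
      have h3 : (u * v * u⁻¹ * v⁻¹ : H) ∈ L := by
        apply (QuotientGroup.eq_one_iff (N := L) _).1
        change q (u * v * u⁻¹ * v⁻¹) = 1
        rw [map_mul, map_mul, map_mul, map_inv, map_inv, hqu, hqv]
        exact hcomm.2 hc
      have h4 := BN.H96.cos ℓ F hF τ H L (fun t : H => a t) u v h3 (u⁻¹ * x')
        (by rw [hu]; exact hl x') (v⁻¹ * y') (by rw [hv]; exact hl y')
      rw [mul_inv_cancel_left, mul_inv_cancel_left] at h4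
      rw [← hu, ← hv, ← h4]
      have h5 := csum_eq hP τ a x' y' hc
      rw [hxc, hyc] at h5
      exact h5
    · rw [if_neg fun h => hc (hcomm.1 h.2), if_neg fun h => hc (hcomm2.2 h.2.2)]
  rw [finsum_congr fun x => finsum_congr fun y => hterm x y]
  have hin : ∀ x : D, (∑ᶠ y : D, if (x ∈ H ⊓ A ∧ y ∈ H ⊓ A ∧ x * y * x⁻¹ * y⁻¹ ∈ up B) then
      ∑ᶠ φ ∈ {φ : P → F | φ ∈ IBr F P ∧ actF (fun t : P => a t) φ = φ ∧
        Fxd P φ (MulAut.conjNormal x) ∧ Fxd P φ (MulAut.conjNormal y)},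
        τ (tca P φ (MulAut.conjNormal x) (MulAut.conjNormal y) (cM M x y)) else 0) =
      ∑ᶠ y : (H ⊓ A : Subgroup D),
      if (x ∈ H ⊓ A ∧ (y : D) ∈ H ⊓ A ∧ x * y * x⁻¹ * (y : D)⁻¹ ∈ up B) then
      ∑ᶠ φ ∈ {φ : P → F | φ ∈ IBr F P ∧ actF (fun t : P => a t) φ = φ ∧
        Fxd P φ (MulAut.conjNormal x) ∧ Fxd P φ (MulAut.conjNormal (y : D))},
        τ (tca P φ (MulAut.conjNormal x) (MulAut.conjNormal (y : D)) (cM M x y)) else 0 := by
    intro x
    apply sum_sub (H ⊓ A)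
    intro y hy
    rw [if_neg fun h => hy h.2.1]
  rw [finsum_congr hin]
  symm
  apply sum_sub (H ⊓ A)
  intro x hx
  have : ∀ y : (H ⊓ A : Subgroup D),
      (if (x ∈ H ⊓ A ∧ (y : D) ∈ H ⊓ A ∧ x * y * x⁻¹ * (y : D)⁻¹ ∈ up B) then
      ∑ᶠ φ ∈ {φ : P → F | φ ∈ IBr F P ∧ actF (fun t : P => a t) φ = φ ∧
        Fxd P φ (MulAut.conjNormal x) ∧ Fxd P φ (MulAut.conjNormal (y : D))},
        τ (tca P φ (MulAut.conjNormal x) (MulAut.conjNormal (y : D)) (cM M x y)) else 0) = 0 := by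
    intro y
    rw [if_neg fun h => hx h.1]
  rw [finsum_congr this, finsum_zero]

end Pool.Agent.PP.X1.H65
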