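import Pool.Agent.Helper66_AWS.S125
import Pool.Agent.Helper66_AWS.S002

/-! Copy (generated) of the module `Pool.Agent.Helper69_X1.Cyx` with import lines for the bundle Helper12_AWB. -/

/-!
# Squad X1, module CYX: cyclicity over `U`
-/

open scoped BigOperators

noncomputable section

namespace Pool.Agent.PP.X1.H69

open Pool.Agent.Helper51_AWC Pool.Agent.Helper79_WRA Pool.Agent.PP Pool.Agent.PP.X1

section roots

variable {ℓ : ℕ} {G : Type} [Group G] (R : RGD ℓ G)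

/-- a word in `J` which makes the positive roots of `J` negative makes the negative ones positive -/
theorem pos_of_neg {J : Finset (Fin R.r)} {w : List (Fin R.r)}
    (h2 : ∀ b ∈ R.pos ∩ R.lev J, R.sw w b ∈ R.neg) {d : R.E} (hd : d ∈ R.neg ∩ R.lev J) :
    R.sw w d ∈ R.pos := by
  have hΦ : R.sw w d ∈ R.Φ := R.sw_mem hd.1.1
  refine ⟨hΦ, ?_⟩
  obtain ⟨k, hk, hbk⟩ := hd.1.2
  have h1 : R.sw w d = ∑ i, k i • (-R.sw w (R.a i)) := by
    have h2 : H11.swL R w (-d) = ∑ i, k i • H11.swL R w (R.a i) := by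
      rw [hbk, map_sum]
      simp only [map_smul]
    have h3 : R.sw w (-d) = ∑ i, k i • R.sw w (R.a i) := h2
    rw [R.sw_neg] at h3
    have h4 : R.sw w d = -∑ i, k i • R.sw w (R.a i) := by rw [← h3, neg_neg]
    rw [h4, ← Finset.sum_neg_distrib]
    apply Finset.sum_congr rfl
    intro i _
    rw [smul_neg]
  rw [h1]
  apply H11.nn_sum R hk
  intro i
  by_cases hi : i ∈ J
  · right
    have h4 : R.sw w (R.a i) ∈ R.neg := h2 _ ⟨R.a_pos i, R.mem i,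
      Submodule.subset_span ⟨i, hi, rfl⟩⟩
    exact h4.2
  · left
    have h5 : -d ∈ Submodule.span ℝ (R.a '' (J : Set (Fin R.r))) := Submodule.neg_mem _ hd.2.2
    exact H11.coef_zero R hbk h5 hi

/-- two longest words in `J` have the same action -/
theorem same_action (hlng : LngStmt) (hdsc : DscStmt) {J : Finset (Fin R.r)}
    {w w' : List (Fin R.r)} (hw : ∀ i ∈ w, i ∈ J) (hw' : ∀ i ∈ w', i ∈ J)
    (h2 : ∀ b ∈ R.pos ∩ R.lev J, R.sw w b ∈ R.neg)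
    (h2' : ∀ b ∈ R.pos ∩ R.lev J, R.sw w' b ∈ R.neg) (x : R.E) : R.sw w' x = R.sw w x := by
  have hwr : ∀ i ∈ w.reverse, i ∈ J := fun i hi => hw i (List.mem_reverse.1 hi)
  have hz : ∀ i ∈ w.reverse ++ w', i ∈ J := by
    intro i hi
    rcases List.mem_append.1 hi with h | h
    · exact hwr i h
    · exact hw' i h
  have hpos : ∀ i, R.sw (w.reverse ++ w') (R.a i) ∉ R.neg := by
    intro i hn
    by_cases hi : i ∈ J
    · have ha : R.a i ∈ R.pos ∩ R.lev J := ⟨R.a_pos i, R.mem i,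
        Submodule.subset_span ⟨i, hi, rfl⟩⟩
      have hl' := (hlng ℓ G R J).1 w' hw'
      have hl := (hlng ℓ G R J).1 w.reverse hwr
      have hc : R.sw w' (R.a i) ∈ R.neg ∩ R.lev J := ⟨h2' _ ha, (hl'.1 _).2 ha.2⟩
      rw [R.sw_append] at hn
      have hd : R.sw w.reverse (R.sw w' (R.a i)) ∈ R.neg ∩ R.lev J := ⟨hn, (hl.1 _).2 hc.2⟩
      have h5 := pos_of_neg R h2 hd
      rw [R.sw_sw_reverse] at h5
      exact R.not_pos_neg h5 hc.1
    · have ha : R.a i ∈ R.pos \ R.lev J := by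
        refine ⟨R.a_pos i, fun h => ?_⟩
        have h1 : R.a i ∈ Submodule.span ℝ (R.a '' (J : Set (Fin R.r))) := h.2
        have h3 := R.base.notMem_span_image (s := (J : Set (Fin R.r))) (x := i)
          (by exact_mod_cast hi)
        exact h3 h1
      have h4 := ((hlng ℓ G R J).1 _ hz).2 (R.a i)
      exact R.not_pos_neg (h4.2 ha).1 hn
  by_contra hx
  have hmove : ∃ x : R.E, R.sw (w.reverse ++ w') x ≠ x := by
    refine ⟨x, fun h => hx ?_⟩
    rw [R.sw_append] at h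
    have h3 := congrArg (R.sw w) h
    rwa [R.sw_sw_reverse] at h3
  obtain ⟨⟨i, hi⟩, -⟩ := hdsc ℓ G R _ hmove
  exact hpos i hi

end roots

section main

variable {ℓ : ℕ} {G : Type} [Group G] [Finite G] {R : RGD ℓ G} {F : Type} [Field F]
  {J : Finset (Fin R.r)} {k : ℕ} (ρ : R.PJ J →* Matrix (Fin k) (Fin k) F)
  {L : Submodule F (Fin k → F)}

/-- the space spanned by `U w L` -/
def SS (L : Submodule F (Fin k → F)) (w : List (Fin R.r)) : Submodule F (Fin k → F) :=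
  Submodule.span F {x | ∃ u ∈ R.U, ∃ v' ∈ L, x = (ro ρ (u * R.nw w)).mulVec v'}

theorem n_mem (hbru : BruhStmt) {i : Fin R.r} (hi : i ∈ J) : R.n i ∈ R.PJ J := by
  rw [← nw_single]
  exact nw_mem hbru (by simpa using hi)

/-- (i) of the proof -/
theorem L_sub (hbru : BruhStmt) (hL : L ≤ fx R.U ρ) (hT : TS R ρ L) (hA : AS R J ρ L)
    {i : Fin R.r} (hi : i ∈ J) {v : Fin k → F} (hv : v ∈ L) :
    v ∈ Submodule.span F {x | ∃ y ∈ R.X (R.a i), ∃ v' ∈ L, x = (ro ρ (y * R.n i)).mulVec v'} := by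
  classical
  have hni : R.n i ∈ R.PJ J := n_mem hbru hi
  have hnn : R.n i * R.n i ∈ R.T := R.nn i
  have hnnP := T_le_PJ R J hnn
  obtain ⟨w0, hw0⟩ : ∃ w0, w0 = (ro ρ (R.n i * R.n i)⁻¹).mulVec v := ⟨_, rfl⟩
  have hw0L : w0 ∈ L := by
    rw [hw0]; exact hT _ (R.T.inv_mem hnn) v hv
  have hw0v : (ro ρ (R.n i * R.n i)).mulVec w0 = v := by
    rw [hw0, Matrix.mulVec_mulVec, ← ro_mul ρ hnnP ((R.PJ J).inv_mem hnnP), mul_inv_cancel,
      ro_one, Matrix.one_mulVec]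
  have : Fintype (R.X (R.a i)) := Fintype.ofFinite _
  have hXP : ∀ x ∈ R.X (R.a i), x ∈ R.PJ J := fun x hx => U_le_PJ R J (R.X_le_U (R.a_pos i) hx)
  set Sp := Submodule.span F
    {x | ∃ y ∈ R.X (R.a i), ∃ v' ∈ L, x = (ro ρ (y * R.n i)).mulVec v'} with hSp
  have hsum : (ro ρ (R.n i)).mulVec ((Ai R ρ i).mulVec w0) =
      ∑ x : R.X (R.a i), (ro ρ (R.n i * x * R.n i)).mulVec w0 := by
    rw [Ai_mulVec, mulVec_finsum, finsum_eq_sum_of_fintype]
    refine Finset.sum_congr rfl fun x _ => ?_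
    rw [Matrix.mulVec_mulVec, ← ro_mul ρ hni ((R.PJ J).mul_mem (hXP _ x.2) hni), mul_assoc]
  have h1 : (ro ρ (R.n i)).mulVec ((Ai R ρ i).mulVec w0) ∈ Sp := by
    refine Submodule.subset_span ⟨1, (R.X (R.a i)).one_mem, _, hA i hi w0 hw0L, ?_⟩
    rw [one_mul]
  have h2 : ∀ x : R.X (R.a i), x ≠ 1 → (ro ρ (R.n i * x * R.n i)).mulVec w0 ∈ Sp := by
    rintro ⟨x, hx⟩ hx1
    have hx1' : x ≠ 1 := fun h => hx1 (Subtype.ext h)
    obtain ⟨y, hy, z, hz, t, ht, e⟩ := R.cell i x hx hx1'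
    have e2 : R.n i * x * R.n i = (y * R.n i) * (t * (z * (R.n i * R.n i))) := by
      have e3 : R.n i * x * R.n i = (R.n i * x * (R.n i)⁻¹) * (R.n i * R.n i) := by group
      rw [e3, e]
      simp only [mul_assoc]
    refine Submodule.subset_span ⟨y, hy, (ro ρ t).mulVec v, hT t ht v hv, ?_⟩
    show (ro ρ (R.n i * x * R.n i)).mulVec w0 = _
    have htP := T_le_PJ R J ht
    rw [e2, ro_mul ρ ((R.PJ J).mul_mem (hXP y hy) hni)
      ((R.PJ J).mul_mem htP ((R.PJ J).mul_mem (hXP z hz) hnnP)),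
      ro_mul ρ htP ((R.PJ J).mul_mem (hXP z hz) hnnP), ro_mul ρ (hXP z hz) hnnP,
      ← Matrix.mulVec_mulVec, ← Matrix.mulVec_mulVec, ← Matrix.mulVec_mulVec, hw0v,
      hL hv z (R.X_le_U (R.a_pos i) hz)]
  have h3 : v = (ro ρ (R.n i)).mulVec ((Ai R ρ i).mulVec w0) -
      ∑ x ∈ Finset.univ.erase (1 : R.X (R.a i)), (ro ρ (R.n i * x * R.n i)).mulVec w0 := by
    rw [hsum, ← Finset.add_sum_erase _ _ (Finset.mem_univ (1 : R.X (R.a i))),
      add_sub_cancel_right]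
    show v = (ro ρ (R.n i * 1 * R.n i)).mulVec w0
    rw [mul_one, hw0v]
  rw [h3]
  refine Submodule.sub_mem _ h1 (Submodule.sum_mem _ fun x hx => h2 x ?_)
  exact Finset.ne_of_mem_erase hx

/-- (ii) of the proof -/
theorem SS_step (hbru : BruhStmt) (hL : L ≤ fx R.U ρ) (hT : TS R ρ L) (hA : AS R J ρ L)
    {w : List (Fin R.r)} (hw : ∀ j ∈ w, j ∈ J) {i : Fin R.r} (hi : i ∈ J)
    (hpos : R.sw w (R.a i) ∈ R.pos) : SS ρ L w ≤ SS ρ L (w ++ [i]) := by
  have hni : R.n i ∈ R.PJ J := n_mem hbru hi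
  have hn := nw_mem hbru hw
  have hXP : ∀ x ∈ R.X (R.a i), x ∈ R.PJ J := fun x hx => U_le_PJ R J (R.X_le_U (R.a_pos i) hx)
  rw [SS, Submodule.span_le]
  rintro _ ⟨u, hu, v, hv, rfl⟩
  have h1 := L_sub ρ hbru hL hT hA hi hv
  have h2 : Submodule.span F
      {x | ∃ y ∈ R.X (R.a i), ∃ v' ∈ L, x = (ro ρ (y * R.n i)).mulVec v'} ≤
      (SS ρ L (w ++ [i])).comap (Matrix.mulVecLin (ro ρ (u * R.nw w))) := by
    rw [Submodule.span_le]
    rintro _ ⟨y, hy, v', hv', rfl⟩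
    show (ro ρ (u * R.nw w)).mulVec ((ro ρ (y * R.n i)).mulVec v') ∈ SS ρ L (w ++ [i])
    have h3 : R.nw w * y * (R.nw w)⁻¹ ∈ R.U :=
      R.X_le_U hpos ((R.X_nw (R.mem i)).2 hy)
    refine Submodule.subset_span ⟨u * (R.nw w * y * (R.nw w)⁻¹), R.U.mul_mem hu h3, v', hv', ?_⟩
    rw [Matrix.mulVec_mulVec, ← ro_mul ρ ((R.PJ J).mul_mem (U_le_PJ R J hu) hn)
      ((R.PJ J).mul_mem (hXP y hy) hni), R.nw_append, nw_single]
    congr 2
    group
  exact h2 h1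

theorem SS_max (hbru : BruhStmt) (hL : L ≤ fx R.U ρ) (hT : TS R ρ L) (hA : AS R J ρ L) (n : ℕ) :
    ∀ z : List (Fin R.r), (∀ j ∈ z, j ∈ J) →
      (R.pos ∩ R.lev J).ncard ≤ (H11.Sn R J z).ncard + n →
      ∃ w' : List (Fin R.r), (∀ j ∈ w', j ∈ J) ∧ (∀ b ∈ R.pos ∩ R.lev J, R.sw w' b ∈ R.neg) ∧
        SS ρ L z ≤ SS ρ L w' := by
  have hfin : (R.pos ∩ R.lev J).Finite := R.fin.subset fun _ h => h.1.1
  have hle : ∀ z, (H11.Sn R J z).ncard ≤ (R.pos ∩ R.lev J).ncard := fun z =>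
    Set.ncard_le_ncard (fun _ h => h.1) hfin
  induction n with
  | zero =>
    intro z hz hn
    by_cases h : ∀ b ∈ R.pos ∩ R.lev J, R.sw z b ∈ R.neg
    · exact ⟨z, hz, h, le_rfl⟩
    · exfalso
      push Not at h
      obtain ⟨b, hb, hb2⟩ := h
      obtain ⟨i, hi, hp⟩ := H11.exists_i R hb hb2
      have h1 := H11.Sn_lt R hi hp
      have h2 := hle (z ++ [i])
      omega
  | succ n ih =>
    intro z hz hn
    by_cases h : ∀ b ∈ R.pos ∩ R.lev J, R.sw z b ∈ R.neg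
    · exact ⟨z, hz, h, le_rfl⟩
    · push Not at h
      obtain ⟨b, hb, hb2⟩ := h
      obtain ⟨i, hi, hp⟩ := H11.exists_i R hb hb2
      have h1 := H11.Sn_lt R hi hp
      obtain ⟨w', h3, h4, h5⟩ := ih (z ++ [i]) (by
        intro j hj
        rcases List.mem_append.1 hj with h | h
        · exact hz j h
        · rw [List.mem_singleton] at h
          rw [h]; exact hi) (by omega)
      exact ⟨w', h3, h4, (SS_step ρ hbru hL hT hA hz hi hp).trans h5⟩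

theorem cyx (hfac : FacStmt) (hbru : BruhStmt) (hlng : LngStmt) (hdsc : DscStmt)
    (hwrd : WrdStmt) : CycxStmt := by
  intro ℓ _ F _ _ G _ _ R J k ρ L hL hT hA w hw hneg g hg v hv
  obtain ⟨z, hz, b, hb, b', hb', rfl⟩ := (hbru ℓ G R).2.1 J g hg
  have hnz := nw_mem hbru hz
  have hnw := nw_mem hbru hw
  obtain ⟨u, hu, t, ht, rfl⟩ := R.mem_B.1 hb
  obtain ⟨u', hu', t', ht', rfl⟩ := R.mem_B.1 hb'
  have hv1 : (ro ρ (u' * t')).mulVec v ∈ L := by
    rw [ro_mul ρ (U_le_PJ R J hu') (T_le_PJ R J ht'), ← Matrix.mulVec_mulVec,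
      hL (hT t' ht' v hv) u' hu']
    exact hT t' ht' v hv
  have ht2 : (R.nw z)⁻¹ * t * R.nw z ∈ R.T := by
    rw [← R.T_nw (w := z)]
    have : R.nw z * ((R.nw z)⁻¹ * t * R.nw z) * (R.nw z)⁻¹ = t := by group
    rw [this]
    exact ht
  have h1 : (ro ρ (u * t * R.nw z * (u' * t'))).mulVec v ∈ SS ρ L z := by
    refine Submodule.subset_span ⟨u, hu, (ro ρ ((R.nw z)⁻¹ * t * R.nw z)).mulVec
      ((ro ρ (u' * t')).mulVec v), hT _ ht2 _ hv1, ?_⟩
    have hP1 := (R.PJ J).mul_mem (U_le_PJ R J hu) hnz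
    have hP2 := T_le_PJ R J ht2
    have hP3 := (R.PJ J).mul_mem (U_le_PJ R J hu') (T_le_PJ R J ht')
    rw [Matrix.mulVec_mulVec, Matrix.mulVec_mulVec, ← ro_mul ρ hP1 hP2,
      ← ro_mul ρ ((R.PJ J).mul_mem hP1 hP2) hP3]
    congr 2
    group
  obtain ⟨w', hw', hneg', hle⟩ := SS_max ρ hbru hL hT hA (R.pos ∩ R.lev J).ncard z hz
    (Nat.le_add_left _ _)
  have h2 : SS ρ L w' ≤ SS ρ L w := by
    rw [SS, Submodule.span_le]
    rintro _ ⟨u1, hu1, v1, hvl, rfl⟩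
    have h3 := (hwrd ℓ G R).2.1 w' w (same_action R hlng hdsc hw hw' hneg hneg')
    refine Submodule.subset_span ⟨u1, hu1, (ro ρ ((R.nw w)⁻¹ * R.nw w')).mulVec v1,
      hT _ h3 _ hvl, ?_⟩
    rw [Matrix.mulVec_mulVec, ← ro_mul ρ ((R.PJ J).mul_mem (U_le_PJ R J hu1) hnw)
      (T_le_PJ R J h3)]
    congr 2
    group
  exact h2 (hle h1)

end main

end Pool.Agent.PP.X1.H69
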