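import Pool.Agent.Helper12_AWB.B100
import Pool.Agent.Helper12_AWB.B243

/-! Copy (generated) of the module `Pool.Agent.Helper90_X1.Dzx` with import lines for the bundle Helper12_AWB. -/

/-!
Module DZX of the squad X1: a central idempotent with vanishing Brauer map at `U` is supported on
elements of defect zero.
-/

set_option autoImplicit false

open scoped BigOperators

noncomputable section

namespace Pool.Agent.PP.X1.H90

open Pool.Agent.Helper51_AWC Pool.Agent.Helper79_WRA Pool.Agent.PP Pool.Agent.PP.X1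
open Pool.Agent.PP.BN.H90

/-- From a subgroup `P` to a normal `ℓ`-subgroup `Q` of a group `H` between the centraliser and the
normaliser of `P`. -/
theorem up_step (hN : NlsStmt) (hB : BrmStmt) (hI : IbnStmt) {ℓ : ℕ} {F : Type} [Field F]
    (hF : GoodF ℓ F) {D : Type} [Group D] [Finite D] {P Q H : Subgroup D} (hP : IsPGroup ℓ P)
    (hQ : IsPGroup ℓ Q) (hCN : Subgroup.centralizer (P : Set D) ≤ H)
    (hHP : H ≤ Subgroup.normalizer (P : Set D)) (hHQ : H ≤ Subgroup.normalizer (Q : Set D))
    (hQH : Q ≤ H) {e : D → F} (he : IsIdem e) {x : D} (hxC : x ∈ Subgroup.centralizer (P : Set D))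
    (hx : e x ≠ 0) : ∃ t ∈ Subgroup.centralizer (Q : Set D), e t ≠ 0 := by
  obtain ⟨f, hfdef⟩ : ∃ f : H → F, f = fun t : H => br P e t := ⟨_, rfl⟩
  have hf : IsIdem f := by
    rw [hfdef]
    exact (hB ℓ F hF D P H hP hCN hHP).2.2 e he
  have hf0 : f ≠ 0 := by
    intro h
    have h1 : f ⟨x, hCN hxC⟩ = e x := by
      rw [hfdef]
      exact br_apply_of_mem hxC
    rw [h] at h1
    exact hx h1.symm
  obtain ⟨n, ρ, hρ, hev⟩ := exists_rep hI hF hf hf0
  have hQn : (Q.subgroupOf H).Normal := by
    refine ⟨fun a ha b => ?_⟩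
    rw [Subgroup.mem_subgroupOf] at ha ⊢
    exact (Subgroup.mem_normalizer_iff.1 (hHQ b.2) a).1 ha
  have hQp : IsPGroup ℓ (Q.subgroupOf H) := by
    intro a
    obtain ⟨k, hk⟩ := hQ ⟨((a : H) : D), Subgroup.mem_subgroupOf.1 a.2⟩
    have hk' : ((a : H) : D) ^ ℓ ^ k = 1 := congrArg (fun z : Q => (z : D)) hk
    refine ⟨k, ?_⟩
    apply Subtype.ext
    apply Subtype.ext
    exact hk'
  have h2 := ((hN ℓ F hF H (Q.subgroupOf H) hQn hQp n ρ hρ).2 f hf.1).1
  obtain ⟨t, ht⟩ : ∃ t, br (Q.subgroupOf H) f t ≠ 0 := by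
    by_contra hcon
    push Not at hcon
    apply hev
    rw [h2]
    simp [ev, hcon]
  obtain ⟨ht1, ht2⟩ := of_br_ne ht
  rw [hfdef] at ht2
  obtain ⟨-, ht3⟩ := of_br_ne ht2
  refine ⟨t, ?_, ht3⟩
  rw [Subgroup.mem_centralizer_iff]
  intro y hy
  have h3 := (Subgroup.mem_centralizer_iff.1 ht1) ⟨y, hQH hy⟩ (Subgroup.mem_subgroupOf.2 hy)
  exact congrArg Subtype.val h3

theorem centralizer_le_normalizer' {D : Type} [Group D] (P : Subgroup D) :
    Subgroup.centralizer (P : Set D) ≤ Subgroup.normalizer (P : Set D) := by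
  intro t ht
  rw [Subgroup.mem_normalizer_iff]
  intro y
  rw [Subgroup.mem_centralizer_iff] at ht
  constructor
  · intro hy
    have h1 := ht y hy
    have h2 : t * y * t⁻¹ = y := by rw [← h1]; group
    rwa [h2]
  · intro hy
    have h1 := ht _ hy
    have h2 : t * y * t⁻¹ = y := by
      have h3 : t * y = t * (t * y * t⁻¹) := by
        rw [← h1]; group
      have h4 := mul_left_cancel h3
      exact h4.symm
    rwa [h2] at hy

/-- DZX -/
theorem dzx (hRad : RadStmt) (hCem : CemStmt) (hBas : BasStmt) (hN : NlsStmt) (hB : BrmStmt)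
    (hI : IbnStmt) : DzxStmt := by
  intro ℓ _ F _ hF D _ _ M R hR e he hbr x hx hdvd
  have := hR.normal
  obtain ⟨-, -, -, -, b5, -, b7, -, -⟩ := hBas ℓ D M R hR
  have hU0 : ∀ t ∈ Subgroup.centralizer ((up R.U : Subgroup D) : Set D), e t = 0 := by
    intro t ht
    have h1 : br (up R.U) e t = e t := br_apply_of_mem ht
    rw [← h1, hbr]
    rfl
  -- no nontrivial `ℓ`-subgroup has a nonzero Brauer image
  have key : ∀ k : ℕ, ∀ (P : Subgroup D) (x : D), Nat.card D - Nat.card P = k → IsPGroup ℓ P →
      P ≠ ⊥ → x ∈ Subgroup.centralizer (P : Set D) → e x ≠ 0 → False := by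
    intro k
    induction k using Nat.strong_induction_on with
    | _ k ih =>
      intro P x hk hP hne hxC hx
      by_cases hrad : Rad R P
      · obtain ⟨g, -, J, hJ, rfl⟩ := hrad
        have hx' : g⁻¹ * x * g ∈ Subgroup.centralizer ((up (R.UJ J) : Subgroup D) : Set D) := by
          rw [Subgroup.mem_centralizer_iff]
          intro y hy
          have h1 : g * y * g⁻¹ ∈ conjS g (up (R.UJ J)) := by
            rw [Pool.Agent.PP.BN.H90.mem_conjS]
            have h2 : g⁻¹ * (g * y * g⁻¹) * g = y := by group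
            rw [h2]
            exact hy
          have h2 := (Subgroup.mem_centralizer_iff.1 hxC) _ h1
          calc y * (g⁻¹ * x * g) = g⁻¹ * (g * y * g⁻¹ * x) * g := by group
            _ = g⁻¹ * (x * (g * y * g⁻¹)) * g := by rw [h2]
            _ = g⁻¹ * x * g * y := by group
        have hex : e (g⁻¹ * x * g) ≠ 0 := by
          have h1 := he.1 x g⁻¹
          rw [inv_inv] at h1
          rw [h1]
          exact hx
        have hUJU : up (R.UJ J) ≤ up R.U := Subgroup.map_mono (R.gp_mono Set.sdiff_subset)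
        have hcen : ∀ P : Subgroup D, Subgroup.center D ≤ Subgroup.normalizer (P : Set D) :=
          fun P => (Subgroup.center_le_centralizer _).trans (centralizer_le_normalizer' P)
        have hUP : up R.U ≤ Subgroup.normalizer ((up (R.UJ J) : Subgroup D) : Set D) := by
          have h1 : up R.U ≤ up (R.PJ J) := by
            refine Subgroup.map_mono ?_
            exact (R.gp_mono Set.subset_union_left).trans le_sup_right
          rw [← b5 J] at h1
          exact h1.trans inf_le_left
        obtain ⟨t, ht1, ht2⟩ := up_step hN hB hI hF (P := up (R.UJ J)) (Q := up R.U)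
          (H := up R.U ⊔ Subgroup.center D) (b7.to_le hUJU) b7
          ((hCem ℓ D M R hR J hJ).trans (sup_le_sup_right hUJU _))
          (sup_le hUP (hcen _)) (sup_le Subgroup.le_normalizer (hcen _)) le_sup_left he hx' hex
        exact ht2 (hU0 t ht1)
      · obtain ⟨K, hK, hPK, hKN, hNK, -⟩ := (hRad ℓ D M R hR).1 P hP hne hrad
        obtain ⟨t, ht1, ht2⟩ := up_step hN hB hI hF (P := P) (Q := K)
          (H := Subgroup.normalizer (P : Set D)) hP hK (centralizer_le_normalizer' P) le_rfl hNK
          hKN he hxC hx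
        have hc1 : Nat.card P < Nat.card K := by
          have := Set.Finite.card_lt_card (Set.toFinite (K : Set D))
            (SetLike.coe_ssubset_coe.2 hPK)
          exact this
        have hc2 : Nat.card K ≤ Nat.card D := Subgroup.card_le_card_group K
        exact ih (Nat.card D - Nat.card K) (by omega) K t rfl hK
          (fun h => hne (le_bot_iff.1 (h ▸ hPK.le))) ht1 ht2
  obtain ⟨y, hy⟩ := exists_prime_orderOf_dvd_card' ℓ hdvd
  have hy' : orderOf (y : D) = ℓ := by rw [Subgroup.orderOf_coe, hy]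
  have hp := (Fact.out : ℓ.Prime)
  have hcomm : x ∈ Subgroup.centralizer ((Subgroup.zpowers (y : D) : Subgroup D) : Set D) := by
    have h1 : Subgroup.zpowers (y : D) ≤ Subgroup.centralizer ({x} : Set D) :=
      (Subgroup.zpowers_le).2 y.2
    rw [Subgroup.mem_centralizer_iff]
    intro z hz
    have h2 := Subgroup.mem_centralizer_iff.1 (h1 hz) x rfl
    exact h2.symm
  refine key _ (Subgroup.zpowers (y : D)) x rfl ?_ ?_ hcomm hx
  · apply IsPGroup.of_card (n := 1)
    rw [Nat.card_zpowers, hy', pow_one]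
  · intro h
    have h1 := Subgroup.zpowers_eq_bot.1 h
    rw [h1, orderOf_one] at hy'
    exact hp.one_lt.ne hy'

end Pool.Agent.PP.X1.H90
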