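import Pool.Agent.Helper12_AWB.B100
import Pool.Agent.Helper66_AWS.S113

/-! Copy (generated) of the module `Pool.Agent.Helper9_X1.Ext` with import lines for the bundle Helper12_AWB. -/

/-!
# Squad X1, module EXT: the subgroup of the parabolic subgroup generated by the root groups
-/

open scoped BigOperators

noncomputable section

namespace Pool.Agent.PP.X1.H9

open Pool.Agent.PP.X1 RGD

variable {ℓ : ℕ} {G : Type} [Group G] (R : RGD ℓ G)

/-- the subgroup -/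
def Qg (K : Finset (Fin R.r)) : Subgroup G := R.gp (R.pos ∪ R.lev K)

theorem Ti_le_TK {K : Finset (Fin R.r)} {i : Fin R.r} (hi : i ∈ K) : R.Ti i ≤ R.TK K :=
  le_biSup (f := fun i => R.Ti i) hi

theorem TK_le_T (K : Finset (Fin R.r)) : R.TK K ≤ R.T :=
  iSup₂_le fun _ _ => inf_le_left

theorem TK_le_Qg (K : Finset (Fin R.r)) : R.TK K ≤ Qg R K :=
  iSup₂_le fun _ hi => inf_le_right.trans (sup_le
    (R.X_le_gp (Or.inr (H55.mem_lev R hi))) (R.X_le_gp (Or.inr (H55.neg_mem_lev R hi))))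

theorem nn_mem_Ti (i : Fin R.r) : R.n i * R.n i ∈ R.Ti i :=
  ⟨R.nn i, mul_mem (R.nmem i) (R.nmem i)⟩

/-- conjugation by the inverse of a word in `K` -/
theorem TK_inv_nw (hwrd : WrdStmt) {K : Finset (Fin R.r)} {w : List (Fin R.r)}
    (hw : ∀ i ∈ w, i ∈ K) {t : G} (ht : t ∈ R.TK K) :
    (R.nw w)⁻¹ * t * R.nw w ∈ R.TK K := by
  obtain ⟨-, -, h3, -, -⟩ := hwrd ℓ G R
  induction w generalizing t with
  | nil =>
    rw [nw_nil]
    have h1 : (1 : G)⁻¹ * t * 1 = t := by group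
    rwa [h1]
  | cons i w ih =>
    have hi : i ∈ K := hw i List.mem_cons_self
    have h4 : (R.n i * R.n i)⁻¹ * (R.n i * t * (R.n i)⁻¹) * (R.n i * R.n i)⁻¹⁻¹ ∈ R.TK K :=
      (h3 K).1 _ (R.T.inv_mem (R.nn i)) _ ((h3 K).2 i hi t ht)
    have h5 : (R.n i * R.n i)⁻¹ * (R.n i * t * (R.n i)⁻¹) * (R.n i * R.n i)⁻¹⁻¹ =
        (R.n i)⁻¹ * t * R.n i := by group
    rw [h5] at h4
    have h6 := ih (fun j hj => hw j (List.mem_cons_of_mem _ hj)) h4
    rw [nw_cons]
    have h7 : (R.n i * R.nw w)⁻¹ * t * (R.n i * R.nw w) =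
        (R.nw w)⁻¹ * ((R.n i)⁻¹ * t * R.n i) * R.nw w := by group
    rwa [h7]

/-- the cells -/
def Oq (K : Finset (Fin R.r)) : Set G :=
  {g | ∃ w : List (Fin R.r), (∀ i ∈ w, i ∈ K) ∧ ∃ u ∈ R.U, ∃ s ∈ R.TK K, ∃ u' ∈ R.U,
    g = u * R.nw w * s * u'}

theorem Oq_U {K : Finset (Fin R.r)} {x g : G} (hx : x ∈ R.U) (hg : g ∈ Oq R K) :
    x * g ∈ Oq R K := by
  obtain ⟨w, hw, u, hu, s, hs, u', hu', rfl⟩ := hg
  exact ⟨w, hw, x * u, mul_mem hx hu, s, hs, u', hu', by group⟩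

theorem Oq_T (hwrd : WrdStmt) {K : Finset (Fin R.r)} {t g : G} (ht : t ∈ R.TK K)
    (hg : g ∈ Oq R K) : t * g ∈ Oq R K := by
  obtain ⟨w, hw, u, hu, s, hs, u', hu', rfl⟩ := hg
  refine ⟨w, hw, t * u * t⁻¹, R.T_gp R.pos_sub (TK_le_T R K ht) hu,
    (R.nw w)⁻¹ * t * R.nw w * s, mul_mem (TK_inv_nw R hwrd hw ht) hs, u', hu', by group⟩

/-- a conjugate of an element of `U` by an element of the torus -/
theorem U_inv {s x : G} (hs : s ∈ R.T) (hx : x ∈ R.U) : s⁻¹ * x * s ∈ R.U := by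
  have h1 := R.T_gp R.pos_sub (R.T.inv_mem hs) hx
  rwa [inv_inv] at h1

theorem Oq_n (hpel : PelStmt) (hrk : Rk1Stmt) (hwrd : WrdStmt) {K : Finset (Fin R.r)}
    {i : Fin R.r} (hi : i ∈ K) {g : G} (hg : g ∈ Oq R K) : R.n i * g ∈ Oq R K := by
  obtain ⟨w, hw, u, hu, s, hs, u', hu', rfl⟩ := hg
  obtain ⟨-, p2, -, -, p5, p6, -⟩ := hpel ℓ G R i
  have hclo : R.Clo R.pos := by
    refine ⟨R.pos_sub, ?_, ?_⟩
    · intro b hb c hc hbc
      exact ⟨hbc, R.nn_smul (by linarith) hb.2⟩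
    · intro b hb c hc p q hp hq h
      exact ⟨h, R.nn_add (R.nn_smul (by linarith) hb.2) (R.nn_smul (by linarith) hc.2)⟩
  obtain ⟨x₁, hx₁, y₁, hy₁, hu₁⟩ := p2 R.pos hclo le_rfl u⁻¹ (R.U.inv_mem hu)
  have hu2 : u = y₁⁻¹ * x₁⁻¹ := by rw [← mul_inv_rev, ← hu₁, inv_inv]
  set x := x₁⁻¹ with hx
  set y := y₁⁻¹ with hy
  have hxX : x ∈ R.X (R.a i) := (R.X (R.a i)).inv_mem (p6 _ hx₁)
  have hyX : y ∈ R.gp (R.pos \ R.ray i) := Subgroup.inv_mem _ hy₁
  have hy' : R.n i * y * (R.n i)⁻¹ ∈ R.U := R.gp_mono Set.sdiff_subset ((p5 y).mpr hyX)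
  have hcons : ∀ j ∈ i :: w, j ∈ K := by
    intro j hj
    rcases List.mem_cons.mp hj with rfl | hj
    · exact hi
    · exact hw j hj
  have hmain : R.n i * (u * R.nw w * s * u') =
      (R.n i * y * (R.n i)⁻¹) * ((R.n i * x * R.nw w) * s * u') := by
    rw [hu2]
    group
  rw [hmain]
  apply Oq_U R hy'
  rcases R.pos_or_neg (R.sw_mem (w := w.reverse) (R.mem i)) with hp | hn
  · have hx' : (R.nw w)⁻¹ * x * R.nw w ∈ R.U :=
      R.X_le_U hp (H55.X_inv_nw R (R.mem i) hxX)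
    refine ⟨i :: w, hcons, 1, one_mem _, s, hs, s⁻¹ * ((R.nw w)⁻¹ * x * R.nw w) * s * u',
      mul_mem (U_inv R (TK_le_T R K hs) hx') hu', ?_⟩
    rw [nw_cons]
    group
  · by_cases hx1 : x = 1
    · refine ⟨i :: w, hcons, 1, one_mem _, s, hs, u', hu', ?_⟩
      rw [hx1, nw_cons]
      group
    · have hv : R.n i * x * (R.n i)⁻¹ ∈ R.X (-R.a i) := by
        rw [← R.s_self i]
        exact R.nX i _ (R.mem i) x hxX
      have hv1 : R.n i * x * (R.n i)⁻¹ ≠ 1 := by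
        intro h
        apply hx1
        have h1 : x = (R.n i)⁻¹ * (R.n i * x * (R.n i)⁻¹) * R.n i := by group
        rw [h1, h]
        group
      obtain ⟨yy, hyy, t₁, ht₁, z, hz, hcell, htT⟩ := (hrk ℓ G R i).2.2 _ hv hv1
      have hneg : R.sw (i :: w).reverse (R.a i) ∈ R.pos := by
        have h1 : R.sw (i :: w).reverse (R.a i) = -R.sw w.reverse (R.a i) := by
          rw [List.reverse_cons, sw_append, sw_cons, sw_nil, s_self, sw_neg]
        refine ⟨R.sw_mem (R.mem i), ?_⟩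
        rw [h1]
        exact hn.2
      have hz' : (R.nw (i :: w))⁻¹ * z * R.nw (i :: w) ∈ R.U :=
        R.X_le_U hneg (H55.X_inv_nw R (R.mem i) hz)
      have ht2 : R.n i * t₁ * R.n i ∈ R.TK K := by
        have h1 : R.n i * t₁ * R.n i = (R.n i * t₁ * (R.n i)⁻¹) * (R.n i * R.n i) := by group
        rw [h1]
        exact mul_mem (((hwrd ℓ G R).2.2.1 K).2 i hi _ (Ti_le_TK R hi htT))
          (Ti_le_TK R hi (nn_mem_Ti R i))
      have ht3 : (R.nw w)⁻¹ * (R.n i * t₁ * R.n i) * R.nw w ∈ R.TK K :=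
        TK_inv_nw R hwrd hw ht2
      refine ⟨w, hw, yy, R.X_le_U (R.a_pos i) hyy,
        (R.nw w)⁻¹ * (R.n i * t₁ * R.n i) * R.nw w * s, mul_mem ht3 hs,
        s⁻¹ * ((R.nw (i :: w))⁻¹ * z * R.nw (i :: w)) * s * u',
        mul_mem (U_inv R (TK_le_T R K hs) hz') hu', ?_⟩
      have h2 : R.n i * x * R.nw w = (R.n i * x * (R.n i)⁻¹) * (R.n i * R.nw w) := by group
      rw [h2, hcell, nw_cons]
      group

/-- the generators -/
def Gq (K : Finset (Fin R.r)) : Set G := (R.U : Set G) ∪ {g | ∃ i ∈ K, g = R.n i}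

theorem closure_Oq (hpel : PelStmt) (hrk : Rk1Stmt) (hwrd : WrdStmt) {K : Finset (Fin R.r)}
    {g : G} (hg : g ∈ Subgroup.closure (Gq R K)) : g ∈ Oq R K := by
  induction hg using Subgroup.closure_induction_left with
  | one => exact ⟨[], by simp, 1, one_mem _, 1, one_mem _, 1, one_mem _, by simp⟩
  | mul_left x hx y _ hy =>
    rcases hx with hx | ⟨i, hi, rfl⟩
    · exact Oq_U R hx hy
    · exact Oq_n R hpel hrk hwrd hi hy
  | inv_mul_cancel x hx y _ hy =>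
    rcases hx with hx | ⟨i, hi, rfl⟩
    · exact Oq_U R (R.U.inv_mem hx) hy
    · have h1 : (R.n i)⁻¹ * y = (R.n i * R.n i)⁻¹ * (R.n i * y) := by group
      rw [h1]
      exact Oq_T R hwrd (inv_mem (Ti_le_TK R hi (nn_mem_Ti R i))) (Oq_n R hpel hrk hwrd hi hy)

theorem nw_mem_closure {K : Finset (Fin R.r)} {w : List (Fin R.r)} (hw : ∀ i ∈ w, i ∈ K) :
    R.nw w ∈ Subgroup.closure (Gq R K) := by
  induction w with
  | nil => exact one_mem _
  | cons i w ih =>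
    rw [nw_cons]
    exact mul_mem (Subgroup.subset_closure (Or.inr ⟨i, hw i List.mem_cons_self, rfl⟩))
      (ih fun j hj => hw j (List.mem_cons_of_mem _ hj))

theorem Qg_le (hlng : LngStmt) (horb : OrbStmt) (K : Finset (Fin R.r)) :
    Qg R K ≤ Subgroup.closure (Gq R K) := by
  have hpos : ∀ b ∈ R.pos, R.X b ≤ Subgroup.closure (Gq R K) := fun b hb x hx =>
    Subgroup.subset_closure (Or.inl (R.X_le_U hb hx))
  apply R.gp_le
  rintro b (hb | hb)
  · exact hpos b hb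
  · rcases R.pos_or_neg hb.1 with hp | hn
    · exact hpos b hp
    · obtain ⟨-, w, hw, hwb⟩ := hlng ℓ G R K
      have h1 : -b ∈ R.pos ∩ R.lev K :=
        ⟨⟨H55.neg_mem_Phi R horb hb.1, hn.2⟩, H55.neg_mem_Phi R horb hb.1,
          Submodule.neg_mem _ hb.2⟩
      have h2 := hwb _ h1
      have h3 : R.sw w b ∈ R.pos := by
        refine ⟨R.sw_mem hb.1, ?_⟩
        have h4 := h2.2
        rwa [sw_neg, neg_neg] at h4
      intro x hx
      have h5 : R.nw w * x * (R.nw w)⁻¹ ∈ Subgroup.closure (Gq R K) :=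
        hpos _ h3 ((R.X_nw hb.1).mpr hx)
      have h6 := nw_mem_closure R hw
      have h7 := mul_mem (mul_mem (inv_mem h6) h5) h6
      have h8 : (R.nw w)⁻¹ * (R.nw w * x * (R.nw w)⁻¹) * R.nw w = x := by group
      rwa [h8] at h7

/-- EXT. -/
theorem ext (hlng : LngStmt) (horb : OrbStmt) (hrk : Rk1Stmt) (hwrd : WrdStmt)
    (hpel : PelStmt) (hbru : BruhStmt) : ExtStmt := by
  intro ℓ G _ R K
  have hsub : R.pos ∪ R.lev K ⊆ R.Φ := Set.union_subset R.pos_sub (R.lev_sub K)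
  have hQP : Qg R K ≤ R.PJ K := le_sup_right
  refine ⟨Qg R K, hQP, ?_, R.gp_mono Set.subset_union_left,
    fun b hb => R.X_le_gp (Or.inr hb), rfl, ?_⟩
  · intro g hg x hx
    have h1 : R.PJ K ≤ Subgroup.normalizer (Qg R K : Set G) := by
      refine sup_le ?_ Subgroup.le_normalizer
      intro t ht
      rw [Subgroup.mem_normalizer_iff]
      intro y
      constructor
      · exact fun hy => R.T_gp hsub ht hy
      · intro hy
        have h2 := R.T_gp hsub (R.T.inv_mem ht) hy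
        have h3 : t⁻¹ * (t * y * t⁻¹) * t⁻¹⁻¹ = y := by group
        rwa [h3] at h2
    exact (Subgroup.mem_normalizer_iff.mp (h1 hg) x).mp hx
  · apply le_antisymm
    · rintro t ⟨ht, htQ⟩
      obtain ⟨w, hw, u, hu, s, hs, u', hu', htw⟩ :=
        closure_Oq R hpel hrk hwrd (Qg_le R hlng horb K htQ)
      have hsT := TK_le_T R K hs
      -- the word acts trivially
      have hact : ∀ x, R.sw w x = R.sw [] x := by
        apply (hbru ℓ G R).2.2.2.2.2 w []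
        refine ⟨u⁻¹ * t, mul_mem (R.U_le_B (inv_mem hu)) (R.T_le_B ht), u'⁻¹ * s⁻¹,
          mul_mem (R.U_le_B (inv_mem hu')) (R.T_le_B (inv_mem hsT)), ?_⟩
        rw [htw, nw_nil]
        group
      have hnw : R.nw w ∈ R.TK K := (hwrd ℓ G R).1 K w hw fun i _ => hact _
      have hs' : R.nw w * s ∈ R.TK K := mul_mem hnw hs
      have hsT' := TK_le_T R K hs'
      have h1 : (R.nw w * s)⁻¹ * t ∈ R.U ⊓ (R.T ⊔ R.V) := by
        refine ⟨?_, ?_⟩
        · have h2 : (R.nw w * s)⁻¹ * t = (R.nw w * s)⁻¹ * u * (R.nw w * s) * u' := by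
            rw [htw]
            group
          show (R.nw w * s)⁻¹ * t ∈ R.U
          rw [h2]
          exact mul_mem (U_inv R hsT' hu) hu'
        · exact le_sup_left (a := R.T) (mul_mem (inv_mem hsT') ht)
      rw [R.UV, Subgroup.mem_bot] at h1
      have h3 : t = R.nw w * s := by
        have h4 : t = (R.nw w * s) * ((R.nw w * s)⁻¹ * t) := by group
        rw [h4, h1, mul_one]
      rw [h3]
      exact hs'
    · exact le_inf (TK_le_T R K) (TK_le_Qg R K)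

end Pool.Agent.PP.X1.H9
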