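import Pool.Agent.Helper12_AWB.B100

/-! Copy (generated) of the module `Pool.Agent.Helper41_X1.Ind` with import lines for the bundle Helper12_AWB. -/

/-!
# Squad X1: IND, an induced representation in terms of matrices
-/

open scoped BigOperators

noncomputable section

namespace Pool.Agent.PP.X1.H41

open Pool.Agent.PP.X1

section perm

variable {F P : Type} [Field F] [Group P]

/-- the matrices of a permutation representation -/
def pmat {k : ℕ} (s : P →* Equiv.Perm (Fin k)) : P →* Matrix (Fin k) (Fin k) F where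
  toFun g := Matrix.of fun i j => if i = s g j then 1 else 0
  map_one' := by
    ext i j
    simp [Matrix.one_apply]
  map_mul' g h := by
    ext i j
    rw [Matrix.mul_apply]
    simp only [Matrix.of_apply, map_mul, Equiv.Perm.coe_mul, Function.comp_apply, mul_ite, mul_one,
      mul_zero]
    rw [Finset.sum_eq_single (s h j)]
    · simp
    · intro b _ hb
      rw [if_neg hb]
    · intro hb
      exact absurd (Finset.mem_univ _) hb

theorem pmat_mul {k m : ℕ} (s : P →* Equiv.Perm (Fin k)) (g : P) (E : Matrix (Fin k) (Fin m) F)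
    (i : Fin k) (c : Fin m) : ((pmat s g : Matrix (Fin k) (Fin k) F) * E) i c = E (s g⁻¹ i) c := by
  rw [Matrix.mul_apply]
  change ∑ j, (if i = s g j then (1 : F) else 0) * E j c = _
  rw [Finset.sum_eq_single (s g⁻¹ i)]
  · rw [if_pos, one_mul]
    rw [← Equiv.Perm.mul_apply, ← map_mul, mul_inv_cancel, map_one, Equiv.Perm.one_apply]
  · intro b _ hb
    rw [if_neg, zero_mul]
    intro hi
    apply hb
    rw [hi, ← Equiv.Perm.mul_apply, ← map_mul, inv_mul_cancel, map_one, Equiv.Perm.one_apply]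
  · intro hb
    exact absurd (Finset.mem_univ _) hb

end perm

/-- IND -/
theorem ind (hext : ExtStmt) : IndStmt := by
  intro ℓ _ F _ _ G _ _ R J K hKJ m σ hσ
  classical
  obtain ⟨Q, hQP, hQn, hUQ, hXQ, hTQ, hTK⟩ := hext ℓ G R K
  have hTP : ∀ {L : Finset (Fin R.r)}, ∀ {t}, t ∈ R.T → t ∈ R.PJ L := by
    intro L t ht
    exact (le_sup_left : R.T ≤ R.T ⊔ _) ht
  have hKJ' : R.PJ K ≤ R.PJ J := by
    refine sup_le_sup_left (R.gp_mono (Set.union_subset_union_right _ ?_)) _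
    rintro b ⟨h1, h2⟩
    exact ⟨h1, Submodule.span_mono (Set.image_mono (by exact_mod_cast hKJ)) h2⟩
  -- the function
  let Th : G → Matrix (Fin m) (Fin m) F := fun y =>
    if h : ∃ t ∈ R.T, y * t⁻¹ ∈ Q then ro σ (h.choose)⁻¹ else 0
  have hTh : ∀ y t, t ∈ R.T → y * t⁻¹ ∈ Q → Th y = ro σ t⁻¹ := by
    intro y t ht hy
    have h : ∃ t ∈ R.T, y * t⁻¹ ∈ Q := ⟨t, ht, hy⟩
    have e : Th y = ro σ (h.choose)⁻¹ := dif_pos h
    obtain ⟨h1, h2⟩ := h.choose_spec
    rw [e]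
    set t' := h.choose with ht'
    have h3 : t * t'⁻¹ ∈ R.TK K := by
      rw [← hTK]
      refine ⟨R.T.mul_mem ht (R.T.inv_mem h1), ?_⟩
      have h4 := Q.mul_mem (Q.inv_mem hy) h2
      have h5 : (y * t⁻¹)⁻¹ * (y * t'⁻¹) = t * t'⁻¹ := by group
      rwa [h5] at h4
    have h4 : ro σ t'⁻¹ = ro σ (t⁻¹ * (t * t'⁻¹)) := by
      congr 1
      group
    rw [h4, ro_mul σ (R.T.inv_mem ht) (R.T.mul_mem ht (R.T.inv_mem h1)), hσ _ h3, mul_one]
  have hTh0 : ∀ y, y ∉ R.PJ K → Th y = 0 := by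
    intro y hy
    refine dif_neg ?_
    rintro ⟨t, ht, h⟩
    apply hy
    have h2 := (R.PJ K).mul_mem (hQP h) (hTP ht)
    rwa [inv_mul_cancel_right] at h2
  have hThN : ∀ y, (¬ ∃ t ∈ R.T, y * t⁻¹ ∈ Q) → Th y = 0 := fun y hy => dif_neg hy
  have hThQ : ∀ q ∈ Q, ∀ y, Th (q⁻¹ * y) = Th y := by
    intro q hq y
    by_cases h : ∃ t ∈ R.T, y * t⁻¹ ∈ Q
    · obtain ⟨t, ht, h⟩ := h
      rw [hTh y t ht h, hTh (q⁻¹ * y) t ht]
      rw [mul_assoc]
      exact Q.mul_mem (Q.inv_mem hq) h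
    · rw [hThN y h, hThN]
      rintro ⟨t, ht, h2⟩
      apply h
      refine ⟨t, ht, ?_⟩
      have h3 := Q.mul_mem hq h2
      have e : q * (q⁻¹ * y * t⁻¹) = y * t⁻¹ := by group
      rwa [e] at h3
  have hThT : ∀ t ∈ R.T, ∀ y, Th (t⁻¹ * y) = Th y * ro σ t := by
    intro t ht y
    have hc : ∀ {s}, s ∈ R.T → ∀ x ∈ Q, s * x * s⁻¹ ∈ Q := fun hs x hx => hQn _ (hTP hs) x hx
    by_cases h : ∃ t ∈ R.T, y * t⁻¹ ∈ Q
    · obtain ⟨t', ht', h⟩ := h
      have h1 : Th (t⁻¹ * y) = ro σ (t⁻¹ * t')⁻¹ := by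
        refine hTh _ _ (R.T.mul_mem (R.T.inv_mem ht) ht') ?_
        have h2 := hc (R.T.inv_mem ht) _ h
        have e : t⁻¹ * (y * t'⁻¹) * t⁻¹⁻¹ = t⁻¹ * y * (t⁻¹ * t')⁻¹ := by group
        rwa [e] at h2
      have e : (t⁻¹ * t')⁻¹ = t'⁻¹ * t := by group
      rw [h1, hTh y t' ht' h, e, ro_mul σ (R.T.inv_mem ht') ht]
    · rw [hThN y h, hThN, zero_mul]
      rintro ⟨t', ht', h2⟩
      apply h
      refine ⟨t * t', R.T.mul_mem ht ht', ?_⟩
      have h3 := hc ht _ h2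
      have e : t * (t⁻¹ * y * t'⁻¹) * t⁻¹ = y * (t * t')⁻¹ := by group
      rwa [e] at h3
  have hTh1 : Th 1 = 1 := by
    rw [hTh 1 1 R.T.one_mem (by simp [Q.one_mem]), inv_one, ro_one]
  -- the permutation representation
  have : Fintype (R.PJ J) := Fintype.ofFinite _
  let e : (R.PJ J × Fin m) ≃ Fin (Fintype.card (R.PJ J × Fin m)) := Fintype.equivFin _
  let s : R.PJ J →* Equiv.Perm (Fin (Fintype.card (R.PJ J × Fin m))) :=
    { toFun := fun g => (e.symm.trans ((Equiv.prodCongr (Equiv.mulLeft g) (Equiv.refl _)))).trans e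
      map_one' := by
        ext i
        simp
      map_mul' := fun g h => by
        refine Equiv.ext fun i => ?_
        change e ((g * h) * (e.symm i).1, (e.symm i).2) =
          e (g * (e.symm (e (h * (e.symm i).1, (e.symm i).2))).1,
            (e.symm (e (h * (e.symm i).1, (e.symm i).2))).2)
        rw [Equiv.symm_apply_apply, mul_assoc] }
  have hs : ∀ g i, s g i = e (g * (e.symm i).1, (e.symm i).2) := fun g i => rfl
  let ρ : R.PJ J →* Matrix _ _ F := pmat s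
  let E : Matrix (Fin (Fintype.card (R.PJ J × Fin m))) (Fin m) F :=
    Matrix.of fun i c => Th ((e.symm i).1 : G) (e.symm i).2 c
  let E' : Matrix (Fin m) (Fin (Fintype.card (R.PJ J × Fin m))) F :=
    Matrix.of fun a i => if i = e (1, a) then 1 else 0
  have hρE : ∀ g (hg : g ∈ R.PJ J) i c, (ro ρ g * E) i c =
      Th (g⁻¹ * ((e.symm i).1 : G)) (e.symm i).2 c := by
    intro g hg i c
    rw [ro_mem ρ hg, pmat_mul]
    change Th ((e.symm (s (⟨g, hg⟩ : R.PJ J)⁻¹ i)).1 : G) (e.symm (s (⟨g, hg⟩ : R.PJ J)⁻¹ i)).2 c = _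
    rw [hs, Equiv.symm_apply_apply]
    rfl
  have hE' : ∀ {n : ℕ} (A : Matrix (Fin (Fintype.card (R.PJ J × Fin m))) (Fin n) F) a c,
      (E' * A) a c = A (e (1, a)) c := by
    intro n A a c
    rw [Matrix.mul_apply, Finset.sum_eq_single (e (1, a))]
    · simp [E']
    · intro b _ hb
      simp [E', hb]
    · intro hb
      exact absurd (Finset.mem_univ _) hb
  have hQE : ∀ q ∈ Q, ro ρ q * E = E := by
    intro q hq
    ext i c
    rw [hρE q (hKJ' (hQP hq)), hThQ q hq]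
    rfl
  refine ⟨_, ρ, E, E', fun u hu => hQE u (hUQ hu), ?_, ?_, ?_, ?_⟩
  · intro i hi x hx
    apply hQE
    have ha : R.a i ∈ R.lev K := ⟨R.mem i, Submodule.subset_span ⟨i, hi, rfl⟩⟩
    have hn : -R.a i ∈ R.lev K := ⟨R.neg_a_mem i, Submodule.neg_mem _ ha.2⟩
    exact (sup_le (hXQ _ ha) (hXQ _ hn)) hx
  · intro t ht
    ext i c
    rw [hρE t (hTP ht), hThT t ht, Matrix.mul_apply, Matrix.mul_apply]
    rfl
  · ext a c
    rw [hE']
    change Th ((e.symm (e (1, a))).1 : G) (e.symm (e (1, a))).2 c = _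
    rw [Equiv.symm_apply_apply]
    change Th 1 a c = _
    rw [hTh1]
  · intro g hg hgK
    ext a c
    rw [Matrix.mul_assoc, hE', hρE g hg, Equiv.symm_apply_apply]
    change Th (g⁻¹ * 1) a c = 0
    rw [mul_one, hTh0 g⁻¹ (fun h => hgK (by simpa using (R.PJ K).inv_mem h))]
    rfl

end Pool.Agent.PP.X1.H41
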