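import Pool.Agent.Helper12_AWB.B100
import Pool.Agent.Helper66_AWS.S014
import Pool.Agent.Helper66_AWS.S096
import Pool.Agent.Helper66_AWS.S058

/-! Copy (generated) of the module `Pool.Agent.Helper48_X1.Lb4` with import lines for the bundle Helper12_AWB. -/

/-!
# Squad X1, LB4: the label is determined by the representation
-/

open scoped BigOperators

noncomputable section

namespace Pool.Agent.PP.X1.H48

open Pool.Agent.Helper51_AWC Pool.Agent.Helper79_WRA Pool.Agent.PP Pool.Agent.PP.X1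

variable {ℓ : ℕ} {G F : Type} [Group G] [Field F]

theorem U_le_B (R : RGD ℓ G) : R.U ≤ R.B := le_sup_right

theorem T_le_B (R : RGD ℓ G) : R.T ≤ R.B := le_sup_left

theorem B_le_PJ (R : RGD ℓ G) (J : Finset (Fin R.r)) : R.B ≤ R.PJ J :=
  sup_le le_sup_left (le_sup_of_le_right (R.gp_mono Set.subset_union_left))

theorem U_le_PJ (R : RGD ℓ G) (J : Finset (Fin R.r)) : R.U ≤ R.PJ J :=
  (U_le_B R).trans (B_le_PJ R J)

/-- `U` is normal in `B` -/
theorem B_U (R : RGD ℓ G) {b u : G} (hb : b ∈ R.B) (hu : u ∈ R.U) : b * u * b⁻¹ ∈ R.U := by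
  have h1 : R.B ≤ Subgroup.normalizer (R.U : Set G) := by
    apply sup_le
    · intro t ht
      rw [Subgroup.mem_normalizer_iff]
      intro x
      constructor
      · intro hx
        exact R.T_gp R.pos_sub ht hx
      · intro hx
        have h2 := R.T_gp R.pos_sub (R.T.inv_mem ht) hx
        have h3 : t⁻¹ * (t * x * t⁻¹) * t⁻¹⁻¹ = x := by group
        rw [h3] at h2
        exact h2
    · exact Subgroup.le_normalizer
  exact (Subgroup.mem_normalizer_iff.mp (h1 hb) u).mp hu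

/-- `U` is an `ℓ`-group -/
theorem U_pgroup [Fact ℓ.Prime] [Finite G] (R : RGD ℓ G) : IsPGroup ℓ R.U :=
  H18.upg ℓ G R R.pos (H32.clo_pos R) (subset_refl _)

/-- an invariant subspace `≠ 0` of an irreducible representation -/
theorem irr_top {H : Type} [Group H] {m : ℕ} {σ : H →* Matrix (Fin m) (Fin m) F} (hσ : IsIrr σ)
    (L : Submodule F (Fin m → F)) (hL : ∀ h : H, ∀ v ∈ L, (σ h).mulVec v ∈ L) {v : Fin m → F}
    (hv : v ∈ L) (hv0 : v ≠ 0) (c : Fin m → F) : c ∈ L := by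
  have h1 : ∀ M : Matrix (Fin m) (Fin m) F, M.mulVec v ∈ L := by
    intro M
    have hM : M ∈ Submodule.span F (Set.range σ) := by rw [hσ.2]; trivial
    induction hM using Submodule.span_induction with
    | mem x hx =>
      obtain ⟨h, rfl⟩ := hx
      exact hL h v hv
    | zero => rw [Matrix.zero_mulVec]; exact L.zero_mem
    | add x y _ _ hx hy => rw [Matrix.add_mulVec]; exact L.add_mem hx hy
    | smul a x _ hx => rw [Matrix.smul_mulVec]; exact L.smul_mem _ hx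
  obtain ⟨j, hj⟩ : ∃ j, v j ≠ 0 := by
    by_contra h
    push Not at h
    exact hv0 (funext h)
  have h2 := h1 (Matrix.of fun i k => if k = j then c i * (v j)⁻¹ else 0)
  have h3 : (Matrix.of fun i k => if k = j then c i * (v j)⁻¹ else 0).mulVec v = c := by
    funext i
    show (∑ k, (if k = j then c i * (v j)⁻¹ else 0) * v k) = c i
    rw [Finset.sum_eq_single j]
    · rw [if_pos rfl, mul_assoc, inv_mul_cancel₀ hj, mul_one]
    · intro k _ hk
      rw [if_neg hk, zero_mul]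
    · intro h
      exact absurd (Finset.mem_univ _) h
  rw [h3] at h2
  exact h2

/-- `U` acts trivially in the irreducible representations of `B` -/
theorem irr_U [Fact ℓ.Prime] (hF : GoodF ℓ F) [Finite G] (R : RGD ℓ G) {m : ℕ}
    {σ : R.B →* Matrix (Fin m) (Fin m) F} (hσ : IsIrr σ) {u : G} (hu : u ∈ R.U) :
    ro σ u = 1 := by
  have hm : 0 < m := hσ.1
  obtain ⟨v, -, hv0, hv⟩ := Pool.Agent.PP.BN.H29.fixed_in hF.prime hF.char R.U (U_pgroup R)
    (σ.comp (Subgroup.inclusion (U_le_B R))) ⊤ (fun _ _ _ => trivial)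
    (fun _ => (1 : F)) trivial (fun h => one_ne_zero (congrFun h ⟨0, hm⟩))
  have hvL : v ∈ fx R.U σ := by
    intro u hu
    rw [ro_mem σ (U_le_B R hu)]
    exact hv ⟨u, hu⟩
  have hL : ∀ b : R.B, ∀ v ∈ fx R.U σ, (σ b).mulVec v ∈ fx R.U σ := by
    intro b v hv u hu
    have h1 : (b : G)⁻¹ * u * (b : G)⁻¹⁻¹ ∈ R.U := B_U R (R.B.inv_mem b.2) hu
    have h2 := hv _ h1
    have h3 : ro σ u * σ b = σ b * ro σ ((b : G)⁻¹ * u * (b : G)⁻¹⁻¹) := by
      rw [← ro_coe σ b, ← ro_mul σ (U_le_B R hu) b.2, ← ro_mul σ b.2 (U_le_B R h1)]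
      congr 1
      group
    rw [Matrix.mulVec_mulVec, h3, ← Matrix.mulVec_mulVec, h2]
  have h4 : ∀ c : Fin m → F, c ∈ fx R.U σ := fun c => irr_top hσ _ hL hvL hv0 c
  apply Matrix.ext
  intro i j
  have h5 := congrFun (h4 (Pi.single j 1) u hu) i
  rw [Matrix.mulVec_single_one] at h5
  rw [Matrix.one_apply, ← Pi.single_apply]
  exact h5

/-- the columns of `X` in a label are fixed by `U` -/
theorem lab_fix [Fact ℓ.Prime] (hF : GoodF ℓ F) [Finite G] (R : RGD ℓ G) {J : Finset (Fin R.r)}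
    {k m : ℕ} {ρ : R.PJ J →* Matrix (Fin k) (Fin k) F} {σ : R.B →* Matrix (Fin m) (Fin m) F}
    (hσ : IsIrr σ) {X : Matrix (Fin k) (Fin m) F}
    (hX : ∀ b ∈ R.B, ro ρ b * X = X * ro σ b) (c : Fin m → F) : X.mulVec c ∈ fx R.U ρ := by
  intro u hu
  rw [Matrix.mulVec_mulVec, hX u (U_le_B R hu), irr_U hF R hσ hu, Matrix.mul_one]

/-- transport of fixed vectors -/
theorem fx_map {P U : Subgroup G} {k k' : ℕ} {ρ : P →* Matrix (Fin k) (Fin k) F}
    {ρ' : P →* Matrix (Fin k') (Fin k') F} {S : Matrix (Fin k') (Fin k) F}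
    (hS : ∀ g, S * ro ρ g = ro ρ' g * S) {v : Fin k → F} (hv : v ∈ fx U ρ) :
    S.mulVec v ∈ fx U ρ' := by
  intro u hu
  rw [Matrix.mulVec_mulVec, ← hS, ← Matrix.mulVec_mulVec, hv u hu]

theorem ro_inter {P : Subgroup G} {k k' : ℕ} {ρ : P →* Matrix (Fin k) (Fin k) F}
    {ρ' : P →* Matrix (Fin k') (Fin k') F} {S : Matrix (Fin k') (Fin k) F}
    (hS : ∀ g, S * ρ g = ρ' g * S) (g : G) : S * ro ρ g = ro ρ' g * S := by
  by_cases h : g ∈ P
  · rw [ro_mem ρ h, ro_mem ρ' h, hS]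
  · unfold ro
    rw [dif_neg h, dif_neg h, Matrix.mul_zero, Matrix.zero_mul]

theorem Ai_inter [Finite G] (R : RGD ℓ G) {P : Subgroup G} {k k' : ℕ}
    {ρ : P →* Matrix (Fin k) (Fin k) F} {ρ' : P →* Matrix (Fin k') (Fin k') F}
    {S : Matrix (Fin k') (Fin k) F} (hS : ∀ g, S * ro ρ g = ro ρ' g * S) (i : Fin R.r) :
    S * Ai R ρ i = Ai R ρ' i * S := by
  have := Fintype.ofFinite (R.X (R.a i))
  unfold Ai
  rw [finsum_eq_sum_of_fintype, finsum_eq_sum_of_fintype, Matrix.mul_sum, Matrix.sum_mul]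
  exact Finset.sum_congr rfl fun x _ => hS _

theorem mat_ext_mulVec {k m : ℕ} {A B : Matrix (Fin k) (Fin m) F}
    (h : ∀ c : Fin m → F, A.mulVec c = B.mulVec c) : A = B := by
  apply Matrix.ext
  intro i j
  have h1 := congrFun (h (Pi.single j 1)) i
  rw [Matrix.mulVec_single_one, Matrix.mulVec_single_one] at h1
  exact h1

/-- the transported label -/
theorem lab_map [Fact ℓ.Prime] (hF : GoodF ℓ F) [Finite G] (R : RGD ℓ G) {J : Finset (Fin R.r)}
    {k k' m m' : ℕ} {ρ : R.PJ J →* Matrix (Fin k) (Fin k) F}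
    {ρ' : R.PJ J →* Matrix (Fin k') (Fin k') F} {σ : R.B →* Matrix (Fin m) (Fin m) F}
    (hσ : IsIrr σ) {X : Matrix (Fin k) (Fin m) F} {X' : Matrix (Fin k') (Fin m') F}
    {Y' : Matrix (Fin m') (Fin k') F} {S : Matrix (Fin k') (Fin k) F}
    (hS : ∀ g, S * ro ρ g = ro ρ' g * S)
    (hX : ∀ b ∈ R.B, ro ρ b * X = X * ro σ b) (hY' : Y' * X' = 1)
    (hfx : ∀ v ∈ fx R.U ρ', ∃ c, v = X'.mulVec c) :
    S * X = X' * (Y' * (S * X)) := by
  apply mat_ext_mulVec
  intro c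
  have h1 := fx_map hS (lab_fix hF R hσ hX c)
  obtain ⟨d, hd⟩ := hfx _ h1
  rw [← Matrix.mulVec_mulVec, hd, ← Matrix.mulVec_mulVec, ← Matrix.mulVec_mulVec,
    ← Matrix.mulVec_mulVec, hd, Matrix.mulVec_mulVec d Y' X', hY', Matrix.one_mulVec]

/-- the labels of equivalent representations are equivalent -/
theorem lab_eqv [Fact ℓ.Prime] (hF : GoodF ℓ F) [Finite G] (R : RGD ℓ G) {J : Finset (Fin R.r)}
    {k k' m m' : ℕ} {ρ : R.PJ J →* Matrix (Fin k) (Fin k) F}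
    {ρ' : R.PJ J →* Matrix (Fin k') (Fin k') F} {σ : R.B →* Matrix (Fin m) (Fin m) F}
    {σ' : R.B →* Matrix (Fin m') (Fin m') F} {K K' : Finset (Fin R.r)}
    (hL : Lab R J ρ σ K) (hL' : Lab R J ρ' σ' K') {S : Matrix (Fin k') (Fin k) F}
    {S' : Matrix (Fin k) (Fin k') F} (h1 : S * S' = 1) (h2 : S' * S = 1)
    (hS : ∀ g, S * ρ g = ρ' g * S) :
    K = K' ∧ ∃ (Z : Matrix (Fin m') (Fin m) F) (Z' : Matrix (Fin m) (Fin m') F),
      Z * Z' = 1 ∧ Z' * Z = 1 ∧ ∀ b ∈ R.B, Z * ro σ b = ro σ' b * Z := by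
  obtain ⟨-, hσ, hKJ, X, Y, hYX, hX, hfx, hK⟩ := hL
  obtain ⟨-, hσ', hKJ', X', Y', hYX', hX', hfx', hK'⟩ := hL'
  have hS1 : ∀ g, S * ro ρ g = ro ρ' g * S := ro_inter hS
  have hS2 : ∀ g, S' * ro ρ' g = ro ρ g * S' := by
    intro g
    have h3 : S' * (S * ro ρ g) * S' = S' * (ro ρ' g * S) * S' := by rw [hS1]
    have h4 : S' * (S * ro ρ g) * S' = ro ρ g * S' := by
      rw [← Matrix.mul_assoc, h2, Matrix.one_mul]
    have h5 : S' * (ro ρ' g * S) * S' = S' * ro ρ' g := by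
      rw [← Matrix.mul_assoc, Matrix.mul_assoc, h1, Matrix.mul_one]
    rw [← h4, ← h5, h3]
  have e1 : S * X = X' * (Y' * (S * X)) := lab_map hF R hσ hS1 hX hYX' hfx'
  have e2 : S' * X' = X * (Y * (S' * X')) := lab_map hF R hσ' hS2 hX' hYX hfx
  obtain ⟨Z, hZ⟩ : ∃ Z, Z = Y' * (S * X) := ⟨_, rfl⟩
  obtain ⟨Z', hZ'⟩ : ∃ Z', Z' = Y * (S' * X') := ⟨_, rfl⟩
  rw [← hZ] at e1
  rw [← hZ'] at e2
  have z1 : Z' * Z = 1 := by
    have h3 : X * (Z' * Z) = X := by
      rw [← Matrix.mul_assoc, ← e2, Matrix.mul_assoc, ← e1, ← Matrix.mul_assoc, h2, Matrix.one_mul]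
    have h4 : Y * (X * (Z' * Z)) = Y * X := by rw [h3]
    rw [← Matrix.mul_assoc, hYX, Matrix.one_mul] at h4
    exact h4
  have z2 : Z * Z' = 1 := by
    have h3 : X' * (Z * Z') = X' := by
      rw [← Matrix.mul_assoc, ← e1, Matrix.mul_assoc, ← e2, ← Matrix.mul_assoc, h1, Matrix.one_mul]
    have h4 : Y' * (X' * (Z * Z')) = Y' * X' := by rw [h3]
    rw [← Matrix.mul_assoc, hYX', Matrix.one_mul] at h4
    exact h4
  refine ⟨?_, Z, Z', z2, z1, ?_⟩
  · ext i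
    by_cases hi : i ∈ J
    · rw [hK i hi, hK' i hi, not_iff_not]
      have e3 : S * (Ai R ρ i * X) = Ai R ρ' i * X' * Z := by
        rw [← Matrix.mul_assoc, Ai_inter R hS1, Matrix.mul_assoc, e1, ← Matrix.mul_assoc]
      constructor
      · intro h
        rw [h, Matrix.mul_zero] at e3
        have e4 : Ai R ρ' i * X' * Z * Z' = 0 := by rw [← e3, Matrix.zero_mul]
        rw [Matrix.mul_assoc _ Z Z', z2, Matrix.mul_one] at e4
        exact e4
      · intro h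
        rw [h, Matrix.zero_mul] at e3
        have e4 : S' * (S * (Ai R ρ i * X)) = 0 := by rw [e3, Matrix.mul_zero]
        rw [← Matrix.mul_assoc, h2, Matrix.one_mul] at e4
        exact e4
    · exact ⟨fun h => absurd (hKJ h) hi, fun h => absurd (hKJ' h) hi⟩
  · intro b hb
    have h3 : X' * (Z * ro σ b) = X' * (ro σ' b * Z) := by
      rw [← Matrix.mul_assoc, ← e1, Matrix.mul_assoc, ← hX b hb, ← Matrix.mul_assoc, hS1,
        Matrix.mul_assoc, e1, ← Matrix.mul_assoc, hX' b hb, Matrix.mul_assoc]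
    have h4 : Y' * (X' * (Z * ro σ b)) = Y' * (X' * (ro σ' b * Z)) := by rw [h3]
    rw [← Matrix.mul_assoc, ← Matrix.mul_assoc Y' X', hYX', Matrix.one_mul, Matrix.one_mul] at h4
    exact h4

theorem lb4 : Lb4Stmt := by
  intro ℓ _ F _ hF G _ _ R J k k' m m' ρ ρ' σ σ' K K' hL hL' htr
  obtain ⟨S, S', -, h1, h2, hS⟩ := Pool.Agent.PP.H20.ibc ℓ F hF (R.PJ J) k k' ρ ρ' hL.1 hL'.1 htr
  obtain ⟨hK, Z, Z', z2, z1, hZ⟩ := lab_eqv hF R hL hL' h1 h2 hS
  refine ⟨?_, hK⟩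
  funext b
  show (σ b).trace = (σ' b).trace
  have h3 : σ b = Z' * (σ' b * Z) := by
    have h4 := hZ b b.2
    rw [ro_coe, ro_coe] at h4
    rw [← h4, ← Matrix.mul_assoc, z1, Matrix.one_mul]
  rw [h3, Matrix.trace_mul_comm, Matrix.mul_assoc, z2, Matrix.mul_one]

end Pool.Agent.PP.X1.H48
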