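import Pool.Agent.Helper12_AWB.B100
import Pool.Agent.Helper66_AWS.S071
import Pool.Agent.Helper12_AWB.B047
import Pool.Agent.Helper66_AWS.S014
import Pool.Agent.Helper66_AWS.S096
import Pool.Agent.Helper66_AWS.S002

/-! Copy (generated) of the module `Pool.Agent.Helper86_X1.Lb5` with import lines for the bundle Helper12_AWB. -/

/-!
# Squad X1: module LB5 (every label occurs)
-/

set_option autoImplicit false

open scoped BigOperators

noncomputable section

namespace Pool.Agent.PP.X1.H86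

open Pool.Agent.PP.X1 Pool.Agent.Helper51_AWC Pool.Agent.Helper79_WRA Pool.Agent.PP

theorem mat_ext {F : Type} [Field F] {k m : ℕ} {A B : Matrix (Fin k) (Fin m) F}
    (h : ∀ c, A.mulVec c = B.mulVec c) : A = B :=
  Matrix.toLin'.injective (LinearMap.ext fun c => by
    rw [Matrix.toLin'_apply, Matrix.toLin'_apply]
    exact h c)

/-- a sum of a function that is constant on the cosets of a subgroup of order divisible by `ℓ` -/
theorem sum_zero {ℓ : ℕ} {F : Type} [Field F] (hF : CharP F ℓ) {H V : Type} [Group H] [Finite H]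
    [AddCommGroup V] [Module F V] (Y : Subgroup H) (hY : ℓ ∣ Nat.card Y) (f : H → V)
    (hf : ∀ x, ∀ y ∈ Y, f (x * y) = f x) : ∑ᶠ x, f x = 0 := by
  classical
  have : Fintype H := Fintype.ofFinite H
  have : Fintype Y := Fintype.ofFinite Y
  have : Fintype (H ⧸ Y) := Fintype.ofFinite _
  rw [finsum_eq_sum_of_fintype]
  have hbij : Function.Bijective (fun p : (H ⧸ Y) × Y => p.1.out * (p.2 : H)) := by
    constructor
    · rintro ⟨q, y⟩ ⟨q', y'⟩ h
      have h0 : q.out * (y : H) = q'.out * (y' : H) := h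
      have h1 : q = q' := by
        rw [← QuotientGroup.out_eq' q, ← QuotientGroup.out_eq' q',
          ← QuotientGroup.mk_mul_of_mem q.out y.2, ← QuotientGroup.mk_mul_of_mem q'.out y'.2, h0]
      subst h1
      have h2 := mul_left_cancel h0
      rw [Subtype.ext h2]
    · intro x
      refine ⟨((x : H ⧸ Y), ⟨(x : H ⧸ Y).out⁻¹ * x, ?_⟩), ?_⟩
      · rw [← QuotientGroup.eq, QuotientGroup.out_eq']
      · show (x : H ⧸ Y).out * ((x : H ⧸ Y).out⁻¹ * x) = x
        rw [mul_inv_cancel_left]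
  rw [← Fintype.sum_bijective _ hbij (fun p => f (p.1.out * (p.2 : H))) f (fun _ => rfl),
    Fintype.sum_prod_type]
  refine Finset.sum_eq_zero fun q _ => ?_
  rw [Finset.sum_congr rfl fun (y : Y) _ => hf q.out y y.2, Finset.sum_const, Finset.card_univ,
    ← Nat.card_eq_fintype_card, ← Nat.cast_smul_eq_nsmul F, (CharP.cast_eq_zero_iff F ℓ _).2 hY,
    zero_smul]

section

variable {ℓ : ℕ} {G : Type} [Group G] (R : RGD ℓ G)

theorem B_le (J : Finset (Fin R.r)) : R.B ≤ R.PJ J :=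
  sup_le_sup_left (R.gp_mono Set.subset_union_left) _

theorem T_le (J : Finset (Fin R.r)) : R.T ≤ R.PJ J := le_sup_left

theorem U_le (J : Finset (Fin R.r)) : R.U ≤ R.PJ J := R.U_le_B.trans (B_le R J)

theorem a_lev {J : Finset (Fin R.r)} {i : Fin R.r} (hi : i ∈ J) : R.a i ∈ R.lev J :=
  ⟨R.mem i, Submodule.subset_span ⟨i, hi, rfl⟩⟩

theorem XX_le {J : Finset (Fin R.r)} {i : Fin R.r} (hi : i ∈ J) :
    R.X (R.a i) ⊔ R.X (-R.a i) ≤ R.PJ J := by
  have h1 : R.gp (R.pos ∪ R.lev J) ≤ R.PJ J := le_sup_right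
  refine sup_le ((R.X_le_gp (Or.inr (a_lev R hi))).trans h1) ((R.X_le_gp (Or.inr ?_)).trans h1)
  exact ⟨R.neg_a_mem i, Submodule.neg_mem _ (a_lev R hi).2⟩

theorem n_PJ {J : Finset (Fin R.r)} {i : Fin R.r} (hi : i ∈ J) : R.n i ∈ R.PJ J :=
  XX_le R hi (R.nmem i)

theorem nw_PJ {J : Finset (Fin R.r)} {w : List (Fin R.r)} (hw : ∀ i ∈ w, i ∈ J) :
    R.nw w ∈ R.PJ J := by
  induction w with
  | nil => exact (R.PJ J).one_mem
  | cons i w ih =>
    rw [R.nw_cons]
    exact (R.PJ J).mul_mem (n_PJ R (hw i (by simp))) (ih fun j hj => hw j (by simp [hj]))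

theorem gp_pair (b c : R.E) : R.gp {b, c} = R.X b ⊔ R.X c := by
  unfold RGD.gp
  rw [iSup_insert, iSup_singleton]

theorem XX_nw {w : List (Fin R.r)} {i : Fin R.r} {y : G} :
    R.nw w * y * (R.nw w)⁻¹ ∈ R.X (R.sw w (R.a i)) ⊔ R.X (-R.sw w (R.a i)) ↔
      y ∈ R.X (R.a i) ⊔ R.X (-R.a i) := by
  have h1 : ({R.a i, -R.a i} : Set R.E) ⊆ R.Φ := by
    rintro b (rfl | rfl)
    · exact R.mem i
    · exact R.neg_a_mem i
  have h2 := R.gp_nw (w := w) h1 (x := y)
  rw [Set.image_pair, R.sw_neg, gp_pair, gp_pair] at h2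
  exact h2

theorem Ti_nw {w : List (Fin R.r)} {i j : Fin R.r} (h : R.sw w (R.a i) = R.a j) {t : G} :
    R.nw w * t * (R.nw w)⁻¹ ∈ R.Ti j ↔ t ∈ R.Ti i := by
  unfold RGD.Ti
  rw [Subgroup.mem_inf, Subgroup.mem_inf, R.T_nw, ← h, XX_nw]

theorem Ti_n {i : Fin R.r} {t : G} : R.n i * t * (R.n i)⁻¹ ∈ R.Ti i ↔ t ∈ R.Ti i := by
  unfold RGD.Ti
  rw [Subgroup.mem_inf, Subgroup.mem_inf, R.nT']
  have hn := R.nmem i
  have h1 : R.n i * t * (R.n i)⁻¹ ∈ R.X (R.a i) ⊔ R.X (-R.a i) ↔
      t ∈ R.X (R.a i) ⊔ R.X (-R.a i) := by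
    rw [Subgroup.mul_mem_cancel_right _ (Subgroup.inv_mem _ hn), Subgroup.mul_mem_cancel_left _ hn]
  rw [h1]

theorem X_card {i : Fin R.r} [Fact ℓ.Prime] [Finite G] : ℓ ∣ Nat.card (R.X (R.a i)) := by
  obtain ⟨n, hn⟩ := IsPGroup.iff_card.1 (R.pgrp _ (R.mem i))
  rw [hn]
  rcases Nat.eq_zero_or_pos n with h0 | h0
  · exfalso
    rw [h0, pow_zero] at hn
    exact R.nt i (Subgroup.card_eq_one.1 hn)
  · exact dvd_pow_self ℓ h0.ne'

/-- the conjugates of `U_w` -/
theorem Uw_conj (v : List (Fin R.r)) (K' : Finset (Fin R.r))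
    (hK : ∀ j ∈ K', ∃ i, R.sw v (R.a i) = R.a j) {x : G} (hx : x ∈ R.Uw v.reverse) :
    (R.nw v.reverse)⁻¹ * x * R.nw v.reverse ∈ R.gp (R.neg \ R.lev K') := by
  set w := v.reverse with hw
  have hwr : w.reverse = v := by rw [hw, List.reverse_reverse]
  set A : Set R.E := {b | b ∈ R.pos ∧ R.sw w.reverse b ∈ R.neg} with hA
  have hA' : R.sw v '' A ⊆ R.Φ := by
    rintro _ ⟨b, hb, rfl⟩
    exact R.sw_mem hb.1.1
  have h1 : R.sw w '' (R.sw v '' A) = A := by
    rw [Set.image_image]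
    have : ∀ b, R.sw w (R.sw v b) = b := fun b => R.sw_reverse_sw v b
    simp only [this, Set.image_id']
  have h2 := R.gp_nw (w := w) hA' (x := (R.nw w)⁻¹ * x * R.nw w)
  rw [h1] at h2
  have h3 : R.nw w * ((R.nw w)⁻¹ * x * R.nw w) * (R.nw w)⁻¹ = x := by group
  rw [h3] at h2
  have h4 := h2.1 hx
  refine R.gp_mono ?_ h4
  rintro _ ⟨b, hb, rfl⟩
  have hbn : R.sw v b ∈ R.neg := by
    have := hb.2
    rwa [hwr] at this
  refine ⟨hbn, fun hl => ?_⟩
  obtain ⟨k, hk, hk2⟩ := hbn.2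
  have hlev : -R.sw v b ∈ Submodule.span ℝ (R.a '' (K' : Set (Fin R.r))) :=
    Submodule.neg_mem _ hl.2
  have h5 : Nn R.a (-b) := by
    have h6 : -b = ∑ i, k i • R.sw w (R.a i) := by
      have h7 : R.sw w (-R.sw v b) = -b := by
        rw [R.sw_neg, hw, R.sw_reverse_sw]
      rw [← h7, hk2]
      have h8 := map_sum (H11.swL R w) (fun i => k i • R.a i) Finset.univ
      have h9 : ∀ u, H11.swL R w u = R.sw w u := fun _ => rfl
      simp only [h9, R.sw_smul] at h8
      exact h8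
    rw [h6]
    refine H11.nn_sum R hk (fun i => ?_) Finset.univ
    by_cases hi : i ∈ K'
    · right
      obtain ⟨j, hj⟩ := hK i hi
      have : R.sw w (R.a i) = R.a j := by rw [← hj, hw, R.sw_reverse_sw]
      rw [this]
      exact R.nn_a j
    · left
      exact H11.coef_zero R hk2 hlev hi
  exact R.not_nn_neg hb.1.1 hb.1.2 h5

end

/-! ### The representation -/

section

variable {ℓ : ℕ} {F : Type} [Field F] {G : Type} [Group G]

theorem mv_mul {P : Subgroup G} {k : ℕ} (ρ : P →* Matrix (Fin k) (Fin k) F) {g h : G}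
    (hg : g ∈ P) (hh : h ∈ P) (v : Fin k → F) :
    (ro ρ (g * h)).mulVec v = (ro ρ g).mulVec ((ro ρ h).mulVec v) := by
  rw [ro_mul ρ hg hh, Matrix.mulVec_mulVec]

theorem mv_one {P : Subgroup G} {k : ℕ} (ρ : P →* Matrix (Fin k) (Fin k) F) (v : Fin k → F) :
    (ro ρ 1).mulVec v = v := by
  rw [ro_one, Matrix.one_mulVec]

/-- `U` acts trivially in the irreducible representations of `B` -/
theorem U_triv [Fact ℓ.Prime] (hF : CharP F ℓ) [Finite G] (R : RGD ℓ G) {m : ℕ}
    (σ : R.B →* Matrix (Fin m) (Fin m) F) (hσ : IsIrr σ) {u : G} (hu : u ∈ R.U) :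
    ro σ u = 1 := by
  rw [ro_mem σ (R.U_le_B hu)]
  have hUp : IsPGroup ℓ R.U := H18.upg ℓ G R R.pos (H32.clo_pos R) le_rfl
  refine H20.nls_triv (Fact.out : ℓ.Prime) hF (R.U.subgroupOf R.B) ?_ ?_ σ hσ
    ⟨u, R.U_le_B hu⟩ ?_
  · refine ⟨fun x hx g => ?_⟩
    rw [Subgroup.mem_subgroupOf] at hx ⊢
    exact R.B_U g.2 hx
  · exact hUp.comap_of_injective _ (Subgroup.subtype_injective _)
  · rw [Subgroup.mem_subgroupOf]
    exact hu

/-- invariant subspaces -/
theorem inv_top [Fact ℓ.Prime] (hF : CharP F ℓ) [Finite G] (R : RGD ℓ G) {m : ℕ}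
    (σ : R.B →* Matrix (Fin m) (Fin m) F) (hσ : IsIrr σ) (W : Submodule F (Fin m → F))
    (hW : ∀ t ∈ R.T, ∀ c ∈ W, (ro σ t).mulVec c ∈ W) : W = ⊥ ∨ W = ⊤ := by
  by_cases h0 : W = ⊥
  · exact Or.inl h0
  · right
    refine BN.H99.top_of_inv hσ (W := W) ?_ h0
    rintro ⟨b, hb⟩ c hc
    obtain ⟨u, hu, t, ht, rfl⟩ := R.mem_B.1 hb
    rw [← ro_mem σ hb, mv_mul σ (R.U_le_B hu) (R.T_le_B ht), U_triv hF R σ hσ hu,
      Matrix.one_mulVec]
    exact hW t ht c hc

theorem fs_mulVec {ι : Type} [Finite ι] {k : ℕ} (f : ι → Matrix (Fin k) (Fin k) F)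
    (v : Fin k → F) : (∑ᶠ x, f x).mulVec v = ∑ᶠ x, (f x).mulVec v := by
  have : Fintype ι := Fintype.ofFinite ι
  rw [finsum_eq_sum_of_fintype, finsum_eq_sum_of_fintype, Matrix.sum_mulVec]

theorem of_a_lev (R : RGD ℓ G) {K : Finset (Fin R.r)} {i : Fin R.r} (h : R.a i ∈ R.lev K) :
    i ∈ K := by
  classical
  by_contra hi
  have h1 : R.a i = ∑ j, (if j = i then (1 : ℝ) else 0) • R.a j := by
    simp
  have h2 := H11.coef_zero R h1 h.2 hi
  simp at h2

theorem lb5 (sub : SubStmt) (tau : TauStmt) (ind : IndStmt) (ln2 : Ln2Stmt) (opv : OpvStmt)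
    (aca : AcaStmt) (acb : AcbStmt) (_ : FacStmt) (_ : WrdStmt) (_ : PelStmt) : Lb5Stmt := by
  classical
  intro ℓ _ F _ hF G _ _ R J K hKJ m σ hσ hKσ
  have hch := hF.char
  set K2 : Finset (Fin R.r) := J.filter (fun i => i ∉ K ∧ ∀ t ∈ R.Ti i, ro σ t = 1) with hK2
  have hK2J : K2 ⊆ J := Finset.filter_subset _ _
  obtain ⟨v, hvJ, hv1, hv2⟩ := ln2 ℓ G R J K2 hK2J
  set K' : Finset (Fin R.r) :=
    Finset.univ.filter (fun j => ∃ i ∈ K2, R.sw v (R.a i) = R.a j) with hK'
  have hK'm : ∀ j ∈ K', ∃ i ∈ K2, R.sw v (R.a i) = R.a j := fun j hj => (Finset.mem_filter.1 hj).2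
  have hK'J : K' ⊆ J := by
    intro j hj
    obtain ⟨i, hi, hij⟩ := hK'm j hj
    obtain ⟨j', hj', h⟩ := hv2 i hi
    have h1 : j = j' := R.base.injective (hij.symm.trans h)
    rw [h1]
    exact hj'
  set w := v.reverse with hw
  have hwJ : ∀ i ∈ w, i ∈ J := fun i hi => hvJ i (List.mem_reverse.1 hi)
  have hwr : w.reverse = v := by rw [hw, List.reverse_reverse]
  -- the representation of the torus
  have hTc : ∀ t ∈ R.T, R.nw w * t * (R.nw w)⁻¹ ∈ R.B := fun t ht => R.T_le_B (R.T_nw.2 ht)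
  let σ0 : R.T →* Matrix (Fin m) (Fin m) F :=
    { toFun := fun t => ro σ (R.nw w * (t : G) * (R.nw w)⁻¹)
      map_one' := by
        show ro σ (R.nw w * 1 * (R.nw w)⁻¹) = 1
        rw [mul_one, mul_inv_cancel, ro_one]
      map_mul' := fun s t => by
        show ro σ (R.nw w * ((s : G) * (t : G)) * (R.nw w)⁻¹) = _
        rw [← ro_mul σ (hTc s s.2) (hTc t t.2)]
        congr 1
        group }
  have hσ0 : ∀ t ∈ R.T, ro σ0 t = ro σ (R.nw w * t * (R.nw w)⁻¹) := fun t ht => by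
    rw [ro_mem σ0 ht]
    rfl
  have hTK : ∀ t ∈ R.TK K', ro σ0 t = 1 := by
    have h1 : R.TK K' ≤ σ0.ker.map R.T.subtype := by
      refine iSup₂_le fun j hj t ht => ?_
      obtain ⟨i, hi, hij⟩ := hK'm j hj
      have hsw : R.sw w (R.a j) = R.a i := by rw [← hij, hw, R.sw_reverse_sw]
      refine ⟨⟨t, ht.1⟩, ?_, rfl⟩
      rw [SetLike.mem_coe, MonoidHom.mem_ker]
      exact (Finset.mem_filter.1 hi).2.2 _ ((Ti_nw R hsw).2 ht)
    intro t ht
    obtain ⟨⟨t', ht'⟩, h2, h3⟩ := h1 ht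
    have h4 : t' = t := h3
    subst h4
    rw [ro_mem σ0 ht']
    exact h2
  obtain ⟨k, ρ, E, E', hE1, hE2, hE3, hE4, hE5⟩ := ind ℓ F hF G R J K' hK'J m σ0 hTK
  have hEfx : ∀ c, E.mulVec c ∈ fx R.U ρ := by
    intro c u hu
    rw [Matrix.mulVec_mulVec, hE1 u hu]
  have hET : ∀ t ∈ R.T, ∀ c, (ro ρ t).mulVec (E.mulVec c) =
      E.mulVec ((ro σ (R.nw w * t * (R.nw w)⁻¹)).mulVec c) := by
    intro t ht c
    rw [Matrix.mulVec_mulVec, hE3 t ht, ← Matrix.mulVec_mulVec, hσ0 t ht]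
  obtain ⟨a1, a2, -, -, -, -⟩ := aca ℓ F hF G R J k ρ
  have hAT : ∀ z : List (Fin R.r), (∀ j ∈ z, j ∈ J) → ∀ t ∈ R.T, ∀ c,
      (ro ρ t).mulVec ((Aw R ρ z).mulVec (E.mulVec c)) = (Aw R ρ z).mulVec (E.mulVec
        ((ro σ (R.nw w * ((R.nw z)⁻¹ * t * R.nw z) * (R.nw w)⁻¹)).mulVec c)) := by
    intro z hz t ht c
    have ht' : (R.nw z)⁻¹ * t * R.nw z ∈ R.T := by
      rw [← R.T_nw (w := z)]
      have : R.nw z * ((R.nw z)⁻¹ * t * R.nw z) * (R.nw z)⁻¹ = t := by group
      rwa [this]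
    have h1 := a2 z hz _ ht' (E.mulVec c)
    have h2 : R.nw z * ((R.nw z)⁻¹ * t * R.nw z) * (R.nw z)⁻¹ = t := by group
    rw [h2] at h1
    rw [← h1, hET _ ht']
  have hwP : R.nw w ∈ R.PJ J := nw_PJ R hwJ
  have hUwP : ∀ z : List (Fin R.r), ∀ x ∈ R.Uw z, x ∈ R.PJ J := fun z x hx =>
    U_le R J (R.gp_mono (fun b hb => hb.1) hx)
  refine sub ℓ F hF G R J K hKJ k m ρ σ hσ (Aw R ρ w * E) ?_ ?_ ?_
  · -- `X ≠ 0`
    intro h0
    have h1 : E' * (ro ρ (R.nw w)⁻¹ * (Aw R ρ w * E)) = 1 := by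
      unfold Aw
      have : Fintype (R.Uw w) := Fintype.ofFinite _
      rw [finsum_eq_sum_of_fintype, Matrix.sum_mul, Matrix.mul_sum, Matrix.mul_sum]
      have h2 : ∀ x : R.Uw w, E' * (ro ρ (R.nw w)⁻¹ * (ro ρ ((x : G) * R.nw w) * E)) =
          E' * ro ρ ((R.nw w)⁻¹ * (x : G) * R.nw w) * E := by
        intro x
        have h3 : (R.nw w)⁻¹ * (x : G) * R.nw w = (R.nw w)⁻¹ * ((x : G) * R.nw w) := by group
        rw [h3, ro_mul ρ ((R.PJ J).inv_mem hwP) ((R.PJ J).mul_mem (hUwP w x x.2) hwP)]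
        simp only [Matrix.mul_assoc]
      rw [Finset.sum_congr rfl fun x _ => h2 x, Finset.sum_eq_single 1]
      · have h3 : (R.nw w)⁻¹ * ((1 : R.Uw w) : G) * R.nw w = 1 := by
          rw [Subgroup.coe_one]; group
        rw [h3, ro_one, Matrix.mul_one, hE4]
      · intro x _ hx
        apply hE5
        · exact (R.PJ J).mul_mem ((R.PJ J).mul_mem ((R.PJ J).inv_mem hwP) (hUwP w x x.2)) hwP
        · intro hmem
          have h4 := Uw_conj R v K' (fun j hj => by
            obtain ⟨i, _, hij⟩ := hK'm j hj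
            exact ⟨i, hij⟩) x.2
          have h5 := (opv ℓ G R).2.1 K'
          have h6 : (R.nw w)⁻¹ * (x : G) * R.nw w ∈ R.gp (R.neg \ R.lev K') ⊓ R.PJ K' :=
            ⟨h4, hmem⟩
          rw [h5, Subgroup.mem_bot] at h6
          apply hx
          apply Subtype.ext
          have h7 : (x : G) = R.nw w * ((R.nw w)⁻¹ * (x : G) * R.nw w) * (R.nw w)⁻¹ := by group
          rw [h7, h6]
          group
          rfl
      · intro h
        exact absurd (Finset.mem_univ _) h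
    rw [h0, Matrix.mul_zero, Matrix.mul_zero] at h1
    have h2 := congrFun (congrFun h1 ⟨0, hσ.1⟩) ⟨0, hσ.1⟩
    rw [Matrix.one_apply_eq, Matrix.zero_apply] at h2
    exact zero_ne_one h2
  · -- equivariance
    intro b hb
    obtain ⟨u, hu, t, ht, rfl⟩ := R.mem_B.1 hb
    apply mat_ext
    intro c
    have h1 := hAT w hwJ t ht c
    have h2 : R.nw w * ((R.nw w)⁻¹ * t * R.nw w) * (R.nw w)⁻¹ = t := by group
    rw [h2] at h1
    rw [← Matrix.mulVec_mulVec, ← Matrix.mulVec_mulVec, ← Matrix.mulVec_mulVec,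
      mv_mul ρ (U_le R J hu) (T_le R J ht), h1, mv_mul σ (R.U_le_B hu) (R.T_le_B ht),
      U_triv hch R σ hσ hu, Matrix.one_mulVec, ← Matrix.mulVec_mulVec]
    exact (a1 w hwJ _ (hEfx _)).1 u hu
  · -- the operators
    intro i hi
    by_cases hiK2 : i ∈ K2
    · have hiK : i ∉ K := (Finset.mem_filter.1 hiK2).2.1
      rw [if_neg hiK]
      apply mat_ext
      intro c
      rw [← Matrix.mulVec_mulVec, ← Matrix.mulVec_mulVec, Matrix.zero_mulVec]
      obtain ⟨j, hjJ, hj⟩ := hv2 i hiK2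
      have hjK' : j ∈ K' := Finset.mem_filter.2 ⟨Finset.mem_univ _, i, hiK2, hj⟩
      have hpos : R.sw w.reverse (R.a i) ∈ R.pos := by
        rw [hwr, hj]
        exact R.a_pos j
      have hsw : R.sw w (R.a j) = R.a i := by rw [← hj, hw, R.sw_reverse_sw]
      rw [← ((a1 w hwJ _ (hEfx c)).2 i hi).1 hpos]
      unfold Aw
      rw [fs_mulVec]
      have hle : R.X (R.a i) ≤ R.Uw (i :: w) := by
        refine R.X_le_gp ⟨R.a_pos i, ?_⟩
        rw [List.reverse_cons, R.sw_append, R.sw_cons, R.sw_nil, R.s_self, R.sw_neg, hwr, hj]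
        refine ⟨R.neg_a_mem j, ?_⟩
        rw [neg_neg]
        exact R.nn_a j
      have hiwP : R.nw (i :: w) ∈ R.PJ J := by
        rw [R.nw_cons]
        exact (R.PJ J).mul_mem (n_PJ R hi) hwP
      refine sum_zero hch ((R.X (R.a i)).subgroupOf (R.Uw (i :: w))) ?_ _ ?_
      · rw [Nat.card_congr (Subgroup.subgroupOfEquivOfLe hle).toEquiv]
        exact X_card R
      · intro x y hy
        rw [Subgroup.mem_subgroupOf] at hy
        set z := (R.nw (i :: w))⁻¹ * (y : G) * R.nw (i :: w) with hz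
        have hzS : z ∈ R.X (R.a j) ⊔ R.X (-R.a j) := by
          rw [← XX_nw R (w := w), hsw]
          have h1 : R.nw w * z * (R.nw w)⁻¹ = (R.n i)⁻¹ * (y : G) * R.n i := by
            rw [hz, R.nw_cons]; group
          rw [h1]
          have hy' : (y : G) ∈ R.X (R.a i) ⊔ R.X (-R.a i) :=
            (le_sup_left : R.X (R.a i) ≤ _) hy
          exact Subgroup.mul_mem _ (Subgroup.mul_mem _ (Subgroup.inv_mem _ (R.nmem i)) hy')
            (R.nmem i)
        have h2 : ((x * y : R.Uw (i :: w)) : G) * R.nw (i :: w) =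
            ((x : G) * R.nw (i :: w)) * z := by
          rw [hz, Subgroup.coe_mul]; group
        rw [h2, mv_mul ρ ((R.PJ J).mul_mem (hUwP _ x x.2) hiwP) (XX_le R hjJ hzS)]
        congr 1
        rw [Matrix.mulVec_mulVec, hE2 j hjK' z hzS]
    · have hneg : R.sw w.reverse (R.a i) ∈ R.neg := by
        rw [hwr]
        rcases R.pos_or_neg (R.sw_mem (w := v) (R.mem i)) with h | h
        · exact absurd (of_a_lev R ((hv1 _ ⟨R.a_pos i, a_lev R hi⟩).1 h)) hiK2
        · exact h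
      have hiw : ∀ j ∈ i :: w, j ∈ J := by
        intro j hj
        rcases List.mem_cons.1 hj with rfl | hj
        · exact hi
        · exact hwJ j hj
      have hnn : R.n i * R.n i ∈ R.B := R.T_le_B (R.nn i)
      set Y : Matrix (Fin k) (Fin m) F := Aw R ρ (i :: w) * E with hY
      have hYc : ∀ c, Y.mulVec c = (Aw R ρ (i :: w)).mulVec (E.mulVec c) := fun c => by
        rw [hY, Matrix.mulVec_mulVec]
      have key : ∀ c, (Ai R ρ i).mulVec (Y.mulVec ((ro σ (R.n i * R.n i)⁻¹).mulVec c)) =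
          (Aw R ρ w).mulVec (E.mulVec c) := by
        intro c
        rw [hYc, ((a1 w hwJ _ (hEfx _)).2 i hi).2 hneg]
        have ht : (R.nw w)⁻¹ * (R.n i * R.n i) * R.nw w ∈ R.T := by
          rw [← R.T_nw (w := w)]
          have : R.nw w * ((R.nw w)⁻¹ * (R.n i * R.n i) * R.nw w) * (R.nw w)⁻¹ =
            R.n i * R.n i := by group
          rw [this]
          exact R.nn i
        have h2 : R.nw w * ((R.nw w)⁻¹ * (R.n i * R.n i) * R.nw w) * (R.nw w)⁻¹ =
            R.n i * R.n i := by group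
        rw [hET _ ht, h2, ← mv_mul σ hnn (R.B.inv_mem hnn), mul_inv_cancel, mv_one]
      have hYfx : ∀ c, Y.mulVec c ∈ fx R.U ρ := fun c => by
        rw [hYc]
        exact (a1 (i :: w) hiw _ (hEfx c)).1
      have hYT : ∀ t ∈ R.T, ∀ c, (ro ρ t).mulVec (Y.mulVec c) =
          Y.mulVec ((ro σ ((R.n i)⁻¹ * t * R.n i)).mulVec c) := by
        intro t ht c
        have h1 := hAT (i :: w) hiw t ht c
        have h2 : R.nw w * ((R.nw (i :: w))⁻¹ * t * R.nw (i :: w)) * (R.nw w)⁻¹ =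
            (R.n i)⁻¹ * t * R.n i := by
          rw [R.nw_cons]; group
        rw [h2] at h1
        rw [hYc, hYc, h1]
      set L : Submodule F (Fin k → F) := LinearMap.range (Matrix.toLin' Y) with hL
      have hLm : ∀ c, Y.mulVec c ∈ L := fun c => ⟨c, Matrix.toLin'_apply _ _⟩
      have hLm' : ∀ x ∈ L, ∃ c, Y.mulVec c = x := by
        rintro x ⟨c, hc⟩
        exact ⟨c, by rw [← Matrix.toLin'_apply]; exact hc⟩
      have hTS : TS R ρ L := by
        intro t ht x hx
        obtain ⟨c, rfl⟩ := hLm' x hx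
        rw [hYT t ht]
        exact hLm _
      obtain ⟨b1, -, b3⟩ := acb ℓ F hF G R J k ρ i hi
      obtain ⟨-, b32⟩ := b3 L hTS
      have hTinv : ∀ t ∈ R.Ti i, (R.n i)⁻¹ * t * R.n i ∈ R.Ti i := by
        intro t ht
        rw [← Ti_n R]
        have : R.n i * ((R.n i)⁻¹ * t * R.n i) * (R.n i)⁻¹ = t := by group
        rwa [this]
      have hTT : ∀ t ∈ R.Ti i, t ∈ R.T := fun t ht => ht.1
      by_cases hM : ∀ t ∈ R.Ti i, ro σ t = 1
      · have hiK : i ∈ K := by
          by_contra h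
          exact hiK2 (Finset.mem_filter.2 ⟨hi, h, hM⟩)
        rw [if_pos hiK]
        have hτ : ∀ c, (tauM R ρ i).mulVec (Y.mulVec c) = -(Y.mulVec c) := by
          intro c
          refine b32 ?_ _ (hLm c)
          intro t ht x hx
          obtain ⟨c', rfl⟩ := hLm' x hx
          rw [hYT t (hTT t ht), hM _ (hTinv t ht), Matrix.one_mulVec]
        apply mat_ext
        intro c
        rw [← Matrix.mulVec_mulVec, ← Matrix.mulVec_mulVec, ← key c, b1 _ (hYfx _), hτ,
          Matrix.mulVec_neg, key c, Matrix.neg_mulVec, ← Matrix.mulVec_mulVec]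
      · have hiK : i ∉ K := fun h => hM (hKσ i h)
        rw [if_neg hiK]
        have hirr : ∀ L' : Submodule F (Fin k → F), L' ≤ L → TS R ρ L' → L' = ⊥ ∨ L' = L := by
          intro L' hL' hTS'
          set W : Submodule F (Fin m → F) := L'.comap (Matrix.toLin' Y) with hW
          have hWm : ∀ c, c ∈ W ↔ Y.mulVec c ∈ L' := fun c => by
            rw [hW, Submodule.mem_comap, Matrix.toLin'_apply]
          rcases inv_top hch R σ hσ W (by
            intro t ht c hc
            rw [hWm] at hc ⊢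
            have ht' : R.n i * t * (R.n i)⁻¹ ∈ R.T := R.nT i t ht
            have h2 := hYT _ ht' c
            have h3 : (R.n i)⁻¹ * (R.n i * t * (R.n i)⁻¹) * R.n i = t := by group
            rw [h3] at h2
            rw [← h2]
            exact hTS' _ ht' _ hc) with h0 | h0
          · left
            rw [eq_bot_iff]
            intro x hx
            obtain ⟨c, rfl⟩ := hLm' x (hL' hx)
            have h2 : c ∈ W := (hWm c).2 hx
            rw [h0, Submodule.mem_bot] at h2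
            rw [h2, Matrix.mulVec_zero]
            exact Submodule.zero_mem _
          · right
            refine le_antisymm hL' fun x hx => ?_
            obtain ⟨c, rfl⟩ := hLm' x hx
            have h2 : c ∈ W := by rw [h0]; trivial
            exact (hWm c).1 h2
        have hτ : ∀ c, (tauM R ρ i).mulVec (Y.mulVec c) = 0 := by
          rcases tau ℓ F hF G R J k ρ i hi L hTS hirr with h | h
          · -- `T i` acts trivially on `L`, so `L` is zero
            set W : Submodule F (Fin m → F) := LinearMap.ker (Matrix.toLin' Y) with hW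
            have hWm : ∀ c, c ∈ W ↔ Y.mulVec c = 0 := fun c => by
              rw [hW, LinearMap.mem_ker, Matrix.toLin'_apply]
            rcases inv_top hch R σ hσ W (by
              intro t ht c hc
              rw [hWm] at hc ⊢
              have ht' : R.n i * t * (R.n i)⁻¹ ∈ R.T := R.nT i t ht
              have h2 := hYT _ ht' c
              have h3 : (R.n i)⁻¹ * (R.n i * t * (R.n i)⁻¹) * R.n i = t := by group
              rw [h3, hc, Matrix.mulVec_zero] at h2
              exact h2.symm) with h0 | h0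
            · exfalso
              apply hM
              intro t ht
              apply mat_ext
              intro c
              rw [Matrix.one_mulVec]
              have ht' : R.n i * t * (R.n i)⁻¹ ∈ R.Ti i := (Ti_n R).2 ht
              have h2 := hYT _ (hTT _ ht') c
              have h3 : (R.n i)⁻¹ * (R.n i * t * (R.n i)⁻¹) * R.n i = t := by group
              rw [h3, h _ ht' _ (hLm c)] at h2
              have h4 : (ro σ t).mulVec c - c ∈ W := by
                rw [hWm, Matrix.mulVec_sub, ← h2, sub_self]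
              rw [h0, Submodule.mem_bot] at h4
              exact sub_eq_zero.1 h4
            · intro c
              have h2 : c ∈ W := by rw [h0]; trivial
              rw [(hWm c).1 h2, Matrix.mulVec_zero]
          · exact fun c => h _ (hLm c)
        apply mat_ext
        intro c
        rw [← Matrix.mulVec_mulVec, ← Matrix.mulVec_mulVec, ← key c, b1 _ (hYfx _), hτ,
          Matrix.mulVec_zero, Matrix.zero_mulVec]

end

end Pool.Agent.PP.X1.H86
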