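import Pool.Agent.Helper66_AWS.S138

/-! Copy (generated) of the module `Pool.Agent.Helper43_X1.Lb7` with import lines for the bundle Helper12_AWB. -/

/-!
# Squad X1, module LB7: the labels and the automorphisms
-/

open scoped BigOperators

noncomputable section

namespace Pool.Agent.PP.X1.H43

open Pool.Agent.PP.X1 Pool.Agent.PP

section alpha

variable {F G : Type} [Field F] [Group G] {P : Subgroup G} {k : ℕ}
  (ρ ρ' : P →* Matrix (Fin k) (Fin k) F) (α : MulAut G)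

theorem ro_alpha (hP : ∀ g, α g ∈ P ↔ g ∈ P)
    (h : ∀ g g' : P, (g' : G) = α g → ρ' g = ρ g') (g : G) : ro ρ' g = ro ρ (α g) := by
  by_cases hg : g ∈ P
  · rw [ro_mem ρ' hg, ro_mem ρ ((hP g).mpr hg)]
    exact h _ _ rfl
  · have hg' : α g ∉ P := fun h => hg ((hP g).mp h)
    unfold ro
    rw [dif_neg hg, dif_neg hg']

theorem irr_alpha (hP : ∀ g, α g ∈ P ↔ g ∈ P)
    (h : ∀ g g' : P, (g' : G) = α g → ρ' g = ρ g') (hρ : IsIrr ρ) : IsIrr ρ' := by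
  refine ⟨hρ.1, ?_⟩
  have h1 : Set.range ρ' = Set.range ρ := by
    ext M
    constructor
    · rintro ⟨g, rfl⟩
      exact ⟨⟨α g, (hP _).mpr g.2⟩, (h g _ rfl).symm⟩
    · rintro ⟨g, rfl⟩
      have hg1 : α (α⁻¹ (g : G)) = g := MulAut.apply_inv_self _ _ _
      have hg : α⁻¹ (g : G) ∈ P := by
        rw [← hP, hg1]
        exact g.2
      exact ⟨⟨α⁻¹ g, hg⟩, h _ _ hg1.symm⟩
  rw [h1]
  exact hρ.2

end alpha

section rgd

variable {F G : Type} [Field F] [Group G] {ℓ : ℕ} (R : RGD ℓ G)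

/-- a normal `ℓ`-subgroup acts trivially on an irreducible representation -/
theorem sigma_U [Fact ℓ.Prime] [Finite G] (hF : GoodF ℓ F) {m : ℕ}
    (σ : R.B →* Matrix (Fin m) (Fin m) F) (hσ : IsIrr σ) {u : G} (hu : u ∈ R.U) :
    ro σ u = 1 := by
  have hm := fun {g h : G} (hg : g ∈ R.B) (hh : h ∈ R.B) => ro_mul σ hg hh
  have hinv : ∀ g ∈ R.B, ∀ x, (ro σ g).mulVec ((ro σ g⁻¹).mulVec x) = x := by
    intro g hg x
    rw [Matrix.mulVec_mulVec, ← hm hg (R.B.inv_mem hg), mul_inv_cancel, ro_one,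
      Matrix.one_mulVec]
  obtain ⟨v0, hv0⟩ : ∃ v0 : Fin m → F, v0 ≠ 0 := by
    have : NeZero m := ⟨hσ.1.ne'⟩
    exact ⟨fun _ => 1, fun h => one_ne_zero (congrFun h 0)⟩
  obtain ⟨v, -, hv0, hv⟩ := fixed_gen hF.prime hF.char R.U (pU R) (Fin m → F)
    (fun u x => (ro σ (u : G)).mulVec x) (fun x => by
      simp only [Subgroup.coe_one, ro_one, Matrix.one_mulVec])
    (fun r s x => by
      simp only [Subgroup.coe_mul]
      rw [hm (R.U_le_B r.2) (R.U_le_B s.2), Matrix.mulVec_mulVec])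
    (fun r x y => Matrix.mulVec_add _ _ _) (fun r c x => Matrix.mulVec_smul _ _ _) ⊤
    (fun _ _ _ => trivial) v0 trivial hv0
  have h1 : ∀ x, x ∈ fx R.U σ := by
    refine irr_span σ hσ (fx R.U σ) hv0 fun g hg => ?_
    rw [mem_fx]
    intro u hu
    have h2 : u * g = g * (g⁻¹ * u * g) := by group
    have h3 : g⁻¹ * u * g ∈ R.U := by
      have := R.B_U (R.B.inv_mem hg) hu
      rwa [inv_inv] at this
    rw [Matrix.mulVec_mulVec, ← hm (R.U_le_B hu) hg, h2, hm hg (R.U_le_B h3),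
      ← Matrix.mulVec_mulVec]
    exact congrArg _ (hv ⟨_, h3⟩)
  apply Matrix.toLin'.injective
  apply LinearMap.ext
  intro x
  rw [Matrix.toLin'_apply, Matrix.toLin'_apply, Matrix.one_mulVec]
  exact mem_fx.mp (h1 x) u hu

theorem ray_lev (i : Fin R.r) : R.pos \ R.lev {i} = R.pos \ R.ray i := by
  ext b
  constructor
  · rintro ⟨hb, hn⟩
    refine ⟨hb, fun h => hn ?_⟩
    obtain ⟨h1, c, -, rfl⟩ := h
    refine ⟨h1, Submodule.smul_mem _ _ (Submodule.subset_span ?_)⟩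
    exact ⟨i, by simp, rfl⟩
  · rintro ⟨hb, hn⟩
    refine ⟨hb, fun h => hn ?_⟩
    obtain ⟨h1, h2⟩ := h
    rw [Finset.coe_singleton, Set.image_singleton, Submodule.mem_span_singleton] at h2
    obtain ⟨c, rfl⟩ := h2
    refine ⟨h1, c, ?_, rfl⟩
    by_contra hc
    push Not at hc
    have h3 : Nn R.a (-(c • R.a i)) := by
      rw [← neg_smul]
      exact R.nn_smul (by linarith) (R.nn_a i)
    exact R.not_nn_neg h1 hb.2 h3

theorem nw_single {j : Fin R.r} (w : List (Fin R.r)) (hw : ∀ i ∈ w, i = j) :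
    R.nw w ∈ R.T ∨ ∃ t ∈ R.T, R.nw w = R.n j * t := by
  induction w with
  | nil => exact Or.inl R.T.one_mem
  | cons i w ih =>
    have hi : i = j := hw i (List.mem_cons_self)
    subst hi
    rcases ih (fun a ha => hw a (List.mem_cons_of_mem _ ha)) with h | ⟨t, ht, h⟩
    · exact Or.inr ⟨R.nw w, h, R.nw_cons i w⟩
    · left
      rw [R.nw_cons, h, ← mul_assoc]
      exact R.T.mul_mem (R.nn i) ht

theorem n_not_B (hbru : BruhStmt) (i : Fin R.r) : R.n i ∉ R.B := by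
  intro h
  obtain ⟨-, -, -, -, -, h6⟩ := hbru ℓ G R
  have h1 := h6 [i] [] ⟨R.n i, h, 1, R.B.one_mem, by
    rw [R.nw_cons, R.nw_nil, mul_one, mul_one]⟩ (R.a i)
  rw [R.sw_cons, R.sw_nil, R.s_self] at h1
  have h2 : R.a i + R.a i = 0 := by
    nth_rewrite 1 [← h1]
    exact neg_add_cancel _
  rw [← two_smul ℝ, smul_eq_zero] at h2
  rcases h2 with h2 | h2
  · norm_num at h2
  · exact R.a_ne i h2

theorem B_le_PJ (J : Finset (Fin R.r)) : R.B ≤ R.PJ J :=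
  sup_le le_sup_left ((R.gp_mono Set.subset_union_left).trans le_sup_right)

/-- the group `gp (pos \ ray i)` is normalised by `B` -/
theorem N_B (hpel : PelStmt) (i : Fin R.r) {b y : G} (hb : b ∈ R.B)
    (hy : y ∈ R.gp (R.pos \ R.ray i)) : b * y * b⁻¹ ∈ R.gp (R.pos \ R.ray i) := by
  obtain ⟨p1, p2, p3, p4, p5, p6, p7⟩ := hpel ℓ G R i
  obtain ⟨u, hu, t, ht, rfl⟩ := R.mem_B.mp hb
  have h1 : t * y * t⁻¹ ∈ R.gp (R.pos \ R.ray i) := R.T_gp (fun b hb => hb.1.1) ht hy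
  obtain ⟨x, hx, z, hz, rfl⟩ := p2 R.pos (H32.clo ℓ G R).1 subset_rfl u hu
  have h2 : z * (t * y * t⁻¹) * z⁻¹ ∈ R.gp (R.pos \ R.ray i) :=
    Subgroup.mul_mem _ (Subgroup.mul_mem _ hz h1) (Subgroup.inv_mem _ hz)
  have h3 := p4 x (p6 _ hx) _ h2
  have h4 : x * z * t * y * (x * z * t)⁻¹ = x * (z * (t * y * t⁻¹) * z⁻¹) * x⁻¹ := by group
  rwa [h4]

/-- the image of the element `n i` -/
theorem alpha_n [Fact ℓ.Prime] [Finite G] (hprx : PrmxStmt) (hbru : BruhStmt) (α : MulAut G)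
    (hα : ∀ u, α u ∈ R.U ↔ u ∈ R.U) (i : Fin R.r) :
    ∃ b ∈ R.B, ∃ b' ∈ R.B, α (R.n i) = b * R.n (piA R α i) * b' := by
  obtain ⟨h1, h2, -⟩ := hprx ℓ G R α hα
  obtain ⟨b1, b2, -, -, -, -⟩ := hbru ℓ G R
  have h3 : R.n i ∈ R.PJ {i} := by
    have := b1 {i} [i] (by simp)
    rwa [R.nw_cons, R.nw_nil, mul_one] at this
  have h4 := ((h1 {i} (R.n i)).1).mpr h3
  rw [Finset.map_singleton] at h4
  obtain ⟨w, hw, b, hb, b', hb', h5⟩ := b2 _ _ h4
  rcases nw_single R (j := piA R α i) w (fun a ha => by simpa using hw a ha) with h | ⟨t, ht, h⟩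
  · exfalso
    apply n_not_B R hbru i
    rw [← h2, h5]
    exact R.B.mul_mem (R.B.mul_mem hb (R.T_le_B h)) hb'
  · refine ⟨b, hb, t * b', R.B.mul_mem (R.T_le_B ht) hb', ?_⟩
    rw [h5, h]
    simp only [mul_assoc]

/-- the operator of a simple root and an automorphism -/
theorem Ai_alpha [Fact ℓ.Prime] [Finite G] (hprx : PrmxStmt) (hbru : BruhStmt) (hpel : PelStmt)
    (α : MulAut G) (hα : ∀ u, α u ∈ R.U ↔ u ∈ R.U) {J : Finset (Fin R.r)} {k m : ℕ}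
    (ρ ρ' : R.PJ J →* Matrix (Fin k) (Fin k) F) (hρ' : ∀ g, ro ρ' g = ro ρ (α g))
    (σ : R.B →* Matrix (Fin m) (Fin m) F) (hσ : ∀ u ∈ R.U, ro σ u = 1)
    (X : Matrix (Fin k) (Fin m) F) (hX : ∀ b ∈ R.B, ro ρ b * X = X * ro σ b)
    (i : Fin R.r) (hj : piA R α i ∈ J) :
    ∃ b ∈ R.B, ∃ b' ∈ R.B,
      Ai R ρ' i * X = ro ρ b * (Ai R ρ (piA R α i) * X) * ro σ b' := by
  classical
  obtain ⟨h1, h2, -⟩ := hprx ℓ G R α hα
  obtain ⟨b, hb, b', hb', hn⟩ := alpha_n R hprx hbru α hα i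
  obtain ⟨p1, p2, p3, p4, p5, p6, p7⟩ := hpel ℓ G R i
  obtain ⟨q1, q2, q3, q4, q5, q6, q7⟩ := hpel ℓ G R (piA R α i)
  set j := piA R α i with hjdef
  have hclo := (H32.clo ℓ G R).1
  have hNU : ∀ i, R.gp (R.pos \ R.ray i) ≤ R.U := fun i => R.gp_mono Set.sdiff_subset
  have hXU : ∀ i, R.X (R.a i) ≤ R.U := fun i => R.X_le_U (R.a_pos i)
  have hN : ∀ y, α y ∈ R.gp (R.pos \ R.ray j) ↔ y ∈ R.gp (R.pos \ R.ray i) := by
    intro y
    have h3 := (h1 {i} y).2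
    rw [Finset.map_singleton] at h3
    unfold RGD.UJ at h3
    rw [ray_lev, ray_lev] at h3
    exact h3
  have hBU' : ∀ u ∈ R.U, b⁻¹ * u * b ∈ R.U := by
    intro u hu
    have := R.B_U (R.B.inv_mem hb) hu
    rwa [inv_inv] at this
  have hBN : ∀ y ∈ R.gp (R.pos \ R.ray j), b⁻¹ * y * b ∈ R.gp (R.pos \ R.ray j) := by
    intro y hy
    have := N_B R hpel j (R.B.inv_mem hb) hy
    rwa [inv_inv] at this
  have hex : ∀ x : R.X (R.a i), ∃ y : R.X (R.a j), ∃ z ∈ R.gp (R.pos \ R.ray j),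
      b⁻¹ * α (x : G) * b = y * z := by
    intro x
    obtain ⟨y, hy, z, hz, h⟩ := q2 R.pos hclo subset_rfl _ (hBU' _ ((hα _).mpr (hXU i x.2)))
    exact ⟨⟨y, q6 _ hy⟩, z, hz, h⟩
  choose f z hz hf using hex
  have huniq : ∀ y y' : R.X (R.a j), ∀ z ∈ R.gp (R.pos \ R.ray j),
      ∀ z' ∈ R.gp (R.pos \ R.ray j), (y : G) * z = y' * z' → y = y' := by
    intro y y' z hz z' hz' h
    have h3 : (y' : G)⁻¹ * y = z' * z⁻¹ := by
      rw [inv_mul_eq_iff_eq_mul, ← mul_assoc, ← h, mul_inv_cancel_right]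
    have h4 := q1 ((y' : G)⁻¹ * y) (Subgroup.mul_mem _ (Subgroup.inv_mem _ y'.2) y.2)
      (by rw [h3]; exact Subgroup.mul_mem _ hz' (Subgroup.inv_mem _ hz))
    exact Subtype.ext (inv_mul_eq_one.mp h4).symm
  have hinj : Function.Injective f := by
    intro x x' hxx
    have h3 := hf x
    have h4 := hf x'
    rw [hxx] at h3
    have h5 : b⁻¹ * α ((x : G)⁻¹ * x') * b = (z x)⁻¹ * z x' := by
      rw [map_mul, map_inv]
      have : b⁻¹ * ((α (x : G))⁻¹ * α (x' : G)) * b =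
          (b⁻¹ * α (x : G) * b)⁻¹ * (b⁻¹ * α (x' : G) * b) := by group
      rw [this, h3, h4]
      group
    have h6 : α ((x : G)⁻¹ * x') ∈ R.gp (R.pos \ R.ray j) := by
      have h7 := N_B R hpel j hb (Subgroup.mul_mem _ (Subgroup.inv_mem _ (hz x)) (hz x'))
      rw [← h5] at h7
      have h8 : b * (b⁻¹ * α ((x : G)⁻¹ * x') * b) * b⁻¹ = α ((x : G)⁻¹ * x') := by group
      rwa [h8] at h7
    have h9 := p1 _ (Subgroup.mul_mem _ (Subgroup.inv_mem _ x.2) x'.2) ((hN _).mp h6)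
    exact Subtype.ext (inv_mul_eq_one.mp h9)
  have hsurj : Function.Surjective f := by
    intro y
    have h3 : b * (y : G) * b⁻¹ ∈ R.U := R.B_U hb (hXU j y.2)
    have h4 : α⁻¹ (b * (y : G) * b⁻¹) ∈ R.U := by
      rw [← hα, MulAut.apply_inv_self]
      exact h3
    obtain ⟨x, hx, u, hu, h5⟩ := p2 R.pos hclo subset_rfl _ h4
    refine ⟨⟨x, p6 _ hx⟩, ?_⟩
    have h6 : b * (y : G) * b⁻¹ = α x * α u := by
      rw [← map_mul, ← h5, MulAut.apply_inv_self]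
    have h7 := hf ⟨x, p6 _ hx⟩
    have h8 : (y : G) * (b⁻¹ * (α u)⁻¹ * b) = b⁻¹ * α x * b := by
      have h9 : (y : G) = b⁻¹ * (b * (y : G) * b⁻¹) * b := by group
      rw [h9, h6]
      group
    refine (huniq _ _ _ ?_ _ (hz _) (h8.trans h7)).symm
    have h10 : b⁻¹ * (α u)⁻¹ * b = b⁻¹ * (α u⁻¹) * b := by rw [map_inv]
    rw [h10]
    exact hBN _ ((hN _).mpr (Subgroup.inv_mem _ hu))
  refine ⟨b, hb, b', hb', ?_⟩
  have i1 := Fintype.ofFinite (R.X (R.a i))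
  have i2 := Fintype.ofFinite (R.X (R.a j))
  unfold Ai
  rw [finsum_eq_sum_of_fintype, finsum_eq_sum_of_fintype, Matrix.sum_mul, Matrix.sum_mul,
    Matrix.mul_sum, Matrix.sum_mul]
  refine Fintype.sum_bijective f ⟨hinj, hsurj⟩ _ _ fun x => ?_
  rw [hρ', map_mul, hn]
  have hzx : (R.n j)⁻¹ * z x * R.n j ∈ R.gp (R.pos \ R.ray j) := by
    rw [← q5]
    have : R.n j * ((R.n j)⁻¹ * z x * R.n j) * (R.n j)⁻¹ = z x := by group
    rw [this]
    exact hz x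
  have h3 : α (x : G) * (b * R.n j * b') =
      b * ((f x : G) * R.n j * (((R.n j)⁻¹ * z x * R.n j) * b')) := by
    have h4 : α (x : G) = b * (b⁻¹ * α (x : G) * b) * b⁻¹ := by group
    rw [h4, hf x]
    group
  have hBP := B_le_PJ R J
  have hnj : R.n j ∈ R.PJ J := by
    have := (hbru ℓ G R).1 J [j] (by simpa using hj)
    rwa [R.nw_cons, R.nw_nil, mul_one] at this
  have hzB : (R.n j)⁻¹ * z x * R.n j ∈ R.B := R.U_le_B (hNU j hzx)
  have hfP : (f x : G) * R.n j ∈ R.PJ J :=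
    Subgroup.mul_mem _ (hBP (R.U_le_B (hXU j (f x).2))) hnj
  rw [h3, ro_mul ρ (hBP hb) (Subgroup.mul_mem _ hfP (hBP (R.B.mul_mem hzB hb'))),
    ro_mul ρ hfP (hBP (R.B.mul_mem hzB hb')), Matrix.mul_assoc, Matrix.mul_assoc,
    hX _ (R.B.mul_mem hzB hb'), ro_mul σ hzB hb', hσ _ (hNU j hzx), one_mul]
  simp only [Matrix.mul_assoc]

end rgd

/-- LB7: the labels and the automorphisms. -/
theorem lb7 (hprx : PrmxStmt) (hbru : BruhStmt) (hpel : PelStmt) : Lb7Stmt := by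
  intro ℓ _ F _ hF G _ _ R J α hα hJ k m ρ ρ' σ σ' K hL hρ' hσ'
  obtain ⟨h1, h2, -⟩ := hprx ℓ G R α hα
  obtain ⟨l1, l2, l3, X, Y, l4, l5, l6, l7⟩ := hL
  have hP : ∀ g, α g ∈ R.PJ J ↔ g ∈ R.PJ J := by
    intro g
    have := (h1 J g).1
    rwa [hJ] at this
  have e1 := ro_alpha ρ ρ' α hP hρ'
  have e2 := ro_alpha σ σ' α h2 hσ'
  have hmemJ : ∀ i, piA R α i ∈ J ↔ i ∈ J := by
    intro i
    conv_lhs => rw [← hJ]
    exact Finset.mem_map' (piA R α).toEmbedding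
  refine ⟨irr_alpha ρ ρ' α hP hρ' l1, irr_alpha σ σ' α h2 hσ' l2, ?_, X, Y, l4, ?_, ?_, ?_⟩
  · intro i hi
    rw [Finset.mem_map_equiv, Equiv.symm_symm] at hi
    exact (hmemJ i).mp (l3 hi)
  · intro b hb
    rw [e1, e2]
    exact l5 _ ((h2 b).mpr hb)
  · intro v hv
    apply l6
    rw [mem_fx] at hv ⊢
    intro u hu
    have h3 : α⁻¹ u ∈ R.U := by
      rw [← hα, MulAut.apply_inv_self]
      exact hu
    have h4 := hv _ h3
    rw [e1, MulAut.apply_inv_self] at h4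
    exact h4
  · intro i hi
    rw [Finset.mem_map_equiv, Equiv.symm_symm]
    have hj : piA R α i ∈ J := (hmemJ i).mpr hi
    rw [l7 _ hj]
    obtain ⟨b, hb, b', hb', h3⟩ := Ai_alpha R hprx hbru hpel α hα ρ ρ' e1 σ
      (fun u hu => sigma_U R hF σ l2 hu) X l5 i hj
    have hBP := B_le_PJ R J
    rw [h3, not_iff_not]
    constructor
    · intro h
      rw [h, Matrix.mul_zero, Matrix.zero_mul]
    · intro h
      have h4 : ro ρ b⁻¹ * (ro ρ b * (Ai R ρ (piA R α i) * X) * ro σ b') * ro σ b'⁻¹ =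
          Ai R ρ (piA R α i) * X := by
        have h5 : ro ρ b⁻¹ * ro ρ b = 1 := by
          rw [← ro_mul ρ (hBP (R.B.inv_mem hb)) (hBP hb), inv_mul_cancel, ro_one]
        have h6 : ro σ b' * ro σ b'⁻¹ = 1 := by
          rw [← ro_mul σ hb' (R.B.inv_mem hb'), mul_inv_cancel, ro_one]
        rw [Matrix.mul_assoc, Matrix.mul_assoc _ (ro σ b'), h6, Matrix.mul_one,
          ← Matrix.mul_assoc, h5, Matrix.one_mul]
      rw [← h4, h, Matrix.mul_zero, Matrix.zero_mul]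

end Pool.Agent.PP.X1.H43
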