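import Pool.Agent.Helper12_AWB.B100
import Pool.Agent.Helper12_AWB.B055

/-! Copy (generated) of the module `Pool.Agent.Helper89_X1.Rad` with import lines for the bundle Helper12_AWB. -/

/-!
# Squad X1, module RAD: the radical subgroups
-/

open scoped BigOperators

set_option linter.unusedSectionVars false

noncomputable section

namespace Pool.Agent.PP.X1.H89

open Pool.Agent.Helper51_AWC Pool.Agent.Helper79_WRA Pool.Agent.PP Pool.Agent.PP.X1

section general

variable {D : Type} [Group D]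

theorem mem_up {M : Subgroup D} {A : Subgroup M} {x : M} : (x : D) ∈ up A ↔ x ∈ A := by
  unfold up
  rw [Subgroup.mem_map]
  constructor
  · rintro ⟨y, hy, hxy⟩
    have : y = x := Subtype.ext hxy
    rwa [← this]
  · intro h
    exact ⟨x, h, rfl⟩

theorem up_le {M : Subgroup D} (A : Subgroup M) : up A ≤ M := by
  rintro _ ⟨y, _, rfl⟩
  exact y.2

theorem up_comap {M Q : Subgroup D} (h : Q ≤ M) : up (Q.comap M.subtype) = Q := by
  ext x
  constructor
  · rintro ⟨y, hy, rfl⟩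
    exact hy
  · intro hx
    exact ⟨⟨x, h hx⟩, hx, rfl⟩

theorem up_mono {M : Subgroup D} {A B : Subgroup M} (h : A ≤ B) : up A ≤ up B :=
  Subgroup.map_mono h

theorem up_pgroup {ℓ : ℕ} {M : Subgroup D} {A : Subgroup M} (h : IsPGroup ℓ A) :
    IsPGroup ℓ (up A) := h.map _

theorem norm_sup {A B : Subgroup D} {x : D} (hA : x ∈ Subgroup.normalizer (A : Set D))
    (hB : x ∈ Subgroup.normalizer (B : Set D)) :
    x ∈ Subgroup.normalizer ((A ⊔ B : Subgroup D) : Set D) := by
  rw [mem_normalizer_iff_conjS] at hA hB ⊢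
  have h : conjS x (A ⊔ B) = conjS x A ⊔ conjS x B := Subgroup.map_sup _ _ _
  rw [h, hA, hB]

theorem norm_conj {A : Subgroup D} {x g : D} :
    x ∈ Subgroup.normalizer ((conjS g A : Subgroup D) : Set D) ↔
      g⁻¹ * x * g ∈ Subgroup.normalizer (A : Set D) := by
  rw [mem_normalizer_iff_conjS, mem_normalizer_iff_conjS, conjS_conjS]
  constructor
  · intro h
    apply conjS_injective g
    rw [conjS_conjS, ← h]
    congr 1
    group
  · intro h
    have := congrArg (conjS g) h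
    rw [conjS_conjS] at this
    rw [← this]
    congr 1
    group

/-- the largest normal `ℓ`-subgroup -/
theorem maxlem {ℓ : ℕ} [Fact ℓ.Prime] [Finite D] {M Q P : Subgroup D} (hM : M.Normal)
    (hQ : IsPGroup ℓ Q)
    (hmax : ∀ K : Subgroup D, IsPGroup ℓ K → Q ≤ K → K ≤ Subgroup.normalizer (Q : Set D) →
      Subgroup.normalizer (Q : Set D) ≤ Subgroup.normalizer (K : Set D) → K ≤ Q)
    (hP : IsPGroup ℓ P) (hPN : P ≤ Subgroup.normalizer (Q : Set D) ⊓ M)
    (hNP : Subgroup.normalizer (Q : Set D) ⊓ M ≤ Subgroup.normalizer (P : Set D)) : P ≤ Q := by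
  obtain ⟨N, hN⟩ : ∃ N : Subgroup D, N = Subgroup.normalizer (Q : Set D) := ⟨_, rfl⟩
  rw [← hN] at hmax hPN hNP
  obtain ⟨S, hS⟩ : ∃ S : Set (Subgroup D), S = {E : Subgroup D | IsPGroup ℓ E ∧ E ≤ N ⊓ M ∧
    N ⊓ M ≤ Subgroup.normalizer (E : Set D)} := ⟨_, rfl⟩
  have hPS : P ∈ S := by
    rw [hS]
    exact ⟨hP, hPN, hNP⟩
  obtain ⟨E, hES, hEmax⟩ := (Set.toFinite S).exists_maximal ⟨P, hPS⟩
  have hin : ∀ E' ∈ S, E' ≤ E := by
    intro E' hE'
    refine le_sup_right.trans (hEmax (y := E ⊔ E') ?_ le_sup_left)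
    rw [hS] at hES hE' ⊢
    refine ⟨hES.1.to_sup_of_normal_right' hE'.1 (hES.2.1.trans hE'.2.2),
      sup_le hES.2.1 hE'.2.1, fun x hx => norm_sup (hES.2.2 hx) (hE'.2.2 hx)⟩
  have hconj : ∀ x ∈ N, conjS x E ≤ E := by
    intro x hx
    apply hin
    rw [hS] at hES ⊢
    refine ⟨conjS_pgroup hES.1, ?_, ?_⟩
    · intro y hy
      have h1 := hES.2.1 (mem_conjS.1 hy)
      have e : y = x * (x⁻¹ * y * x) * x⁻¹ := by group
      refine Subgroup.mem_inf.2 ⟨?_, ?_⟩
      · rw [e]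
        exact N.mul_mem (N.mul_mem hx (Subgroup.mem_inf.1 h1).1) (N.inv_mem hx)
      · rw [e]
        exact hM.conj_mem _ (Subgroup.mem_inf.1 h1).2 x
    · intro z hz
      rw [norm_conj]
      apply hES.2.2
      refine Subgroup.mem_inf.2 ⟨?_, ?_⟩
      · exact N.mul_mem (N.mul_mem (N.inv_mem hx) (Subgroup.mem_inf.1 hz).1) hx
      · have := hM.conj_mem _ (Subgroup.mem_inf.1 hz).2 x⁻¹
        rwa [inv_inv] at this
  have hNE : N ≤ Subgroup.normalizer (E : Set D) := by
    intro x hx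
    rw [mem_normalizer_iff_conjS]
    apply le_antisymm (hconj x hx)
    have h1 := conjS_mono (g := x).2 (hconj x⁻¹ (N.inv_mem hx))
    rwa [conjS_conjS, mul_inv_cancel, conjS_one] at h1
  have hE2 := hES
  rw [hS] at hE2
  have hEN : E ≤ N := fun x hx => (Subgroup.mem_inf.1 (hE2.2.1 hx)).1
  have hQN : Q ≤ N := by
    rw [hN]
    exact Subgroup.le_normalizer
  have h2 : Q ⊔ E ≤ Q := by
    apply hmax _ (hQ.to_sup_of_normal_left' hE2.1 (by rw [← hN]; exact hEN)) le_sup_left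
      (sup_le hQN hEN)
    intro x hx
    apply norm_sup _ (hNE hx)
    rwa [← hN]
  exact (hin P hPS).trans (le_sup_right.trans h2)

end general

section rad

variable {ℓ : ℕ} [Fact ℓ.Prime] {D : Type} [Group D] [Finite D] {M : Subgroup D}

theorem mem_norm_iff {A : Subgroup D} {x : D} : x ∈ Subgroup.normalizer (A : Set D) ↔
    ∀ y ∈ A, x * y * x⁻¹ ∈ A := by
  rw [Subgroup.mem_normalizer_iff]
  constructor
  · intro h y hy
    exact (h y).1 hy
  · intro h
    have h1 : conjS x A ≤ A := by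
      intro z hz
      have h2 := h _ (mem_conjS.1 hz)
      have e : x * (x⁻¹ * z * x) * x⁻¹ = z := by group
      rwa [e] at h2
    have h3 : conjS x A = A := by
      apply Subgroup.eq_of_le_of_card_ge h1
      have : Nat.card (conjS x A) = Nat.card A := (Nat.card_congr (conjSEquiv x A).toEquiv).symm
      rw [this]
    rw [← mem_normalizer_iff_conjS] at h3
    exact fun y => Subgroup.mem_normalizer_iff.1 h3 y

theorem U_le_PJ (R : RGD ℓ M) (J : Finset (Fin R.r)) : R.U ≤ R.PJ J :=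
  (R.gp_mono Set.subset_union_left).trans le_sup_right

theorem UJ_le_U (R : RGD ℓ M) (J : Finset (Fin R.r)) : R.UJ J ≤ R.U :=
  R.gp_mono Set.sdiff_subset

/-- the elements of `M` which normalise `U J` -/
theorem norm_UJ (par : ParStmt) (R : RGD ℓ M) (J : Finset (Fin R.r)) (x : M) :
    (x : D) ∈ Subgroup.normalizer ((up (R.UJ J) : Subgroup D) : Set D) ↔ x ∈ R.PJ J := by
  rw [(par ℓ M R J).1, mem_norm_iff]
  constructor
  · intro h y hy
    rw [← mem_up]
    exact h y (mem_up.2 hy)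
  · rintro h _ ⟨y, hy, rfl⟩
    exact mem_up.2 (h y hy)

theorem claimA (bas : BasStmt) (bts : BtsStmt) (par : ParStmt) (syl : SylStmt) (R : RGD ℓ M)
    (h : RgD ℓ M R) (Q : Subgroup D) (hQ : IsPGroup ℓ Q) (hQ0 : Q ≠ ⊥)
    (hmax : ∀ K : Subgroup D, IsPGroup ℓ K → Q ≤ K → K ≤ Subgroup.normalizer (Q : Set D) →
      Subgroup.normalizer (Q : Set D) ≤ Subgroup.normalizer (K : Set D) → K ≤ Q) :
    Rad R Q := by
  have hn := h.normal
  have hQM : Q ≤ M := ((bas ℓ D M R h).1 Q hQ).1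
  have hup := up_comap hQM
  obtain ⟨Q₀, hQ₀⟩ : ∃ Q₀ : Subgroup M, Q₀ = Q.comap M.subtype := ⟨_, rfl⟩
  rw [← hQ₀] at hup
  have hQ₀p : IsPGroup ℓ Q₀ := by
    rw [hQ₀]
    exact hQ.comap_of_injective _ M.subtype_injective
  have hQ₀ne : Q₀ ≠ ⊥ := by
    intro h0
    apply hQ0
    rw [← hup, h0]
    exact Subgroup.map_bot _
  obtain ⟨g, J, hJ, h1, h2⟩ := bts ℓ M R Q₀ hQ₀p hQ₀ne
  refine ⟨g, g.2, J, hJ, ?_⟩
  have hUp : IsPGroup ℓ (conjS (g : D) (up (R.UJ J))) :=
    conjS_pgroup (up_pgroup ((syl ℓ M R).1.to_le (UJ_le_U R J)))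
  have hQU : Q ≤ conjS (g : D) (up (R.UJ J)) := by
    intro x hx
    have h3 := h1 ⟨x, hQM hx⟩ (by rw [← mem_up, hup]; exact hx)
    rw [mem_conjS]
    exact mem_up.2 h3
  by_contra hne
  obtain ⟨x, hxU, hxQ, hxN⟩ := Pool.Agent.PP.H94.grow hUp (lt_of_le_of_ne hQU hne)
  apply hxQ
  apply maxlem (P := conjS (g : D) (up (R.UJ J)) ⊓ Subgroup.normalizer (Q : Set D)) hn hQ hmax
    (hUp.to_le inf_le_left)
  · refine le_inf inf_le_right (inf_le_left.trans ?_)
    intro y hy
    have h3 := up_le _ (mem_conjS.1 hy)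
    have h4 := hn.conj_mem _ h3 g
    have e : (g : D) * ((g : D)⁻¹ * y * g) * (g : D)⁻¹ = y := by group
    rwa [e] at h4
  · intro y hy
    obtain ⟨hyN, hyM⟩ := Subgroup.mem_inf.1 hy
    have h3 : g⁻¹ * (⟨y, hyM⟩ : M) * g ∈ R.PJ J := by
      apply h2
      intro z hz
      rw [← mem_up, hup] at hz ⊢
      exact (Subgroup.mem_normalizer_iff.1 hyN z).1 hz
    rw [← norm_UJ par] at h3
    have h4 : y ∈ Subgroup.normalizer
        ((conjS (g : D) (up (R.UJ J)) : Subgroup D) : Set D) := norm_conj.2 h3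
    rw [mem_normalizer_iff_conjS] at h4 ⊢
    have h5 : conjS y (Subgroup.normalizer (Q : Set D)) = Subgroup.normalizer (Q : Set D) := by
      rw [← mem_normalizer_iff_conjS]
      exact Subgroup.le_normalizer hyN
    have h6 : conjS y (conjS (g : D) (up (R.UJ J)) ⊓ Subgroup.normalizer (Q : Set D)) =
        conjS y (conjS (g : D) (up (R.UJ J))) ⊓ conjS y (Subgroup.normalizer (Q : Set D)) := by
      ext z
      simp only [mem_conjS, Subgroup.mem_inf]
    rw [h6, h4, h5]
  · exact Subgroup.mem_inf.2 ⟨hxU, hxN⟩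

theorem rad : BasStmt → BtsStmt → ParStmt → SylStmt → RadStmt := by
  intro bas bts par syl ℓ _ D _ _ M R h
  have hn := h.normal
  refine ⟨?_, ?_⟩
  · intro Q hQ hQ0 hQr
    have hK : ∃ K : Subgroup D, IsPGroup ℓ K ∧ Q < K ∧ K ≤ Subgroup.normalizer (Q : Set D) ∧
        Subgroup.normalizer (Q : Set D) ≤ Subgroup.normalizer (K : Set D) := by
      by_contra hc
      apply hQr
      apply claimA bas bts par syl R h Q hQ hQ0
      intro K h1 h2 h3 h4
      by_contra h5
      exact hc ⟨K, h1, lt_of_le_not_ge h2 h5, h3, h4⟩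
    obtain ⟨K, hKp, hQK, hKN, hNK⟩ := hK
    refine ⟨K, hKp, hQK, hKN, hNK, ?_⟩
    obtain ⟨S, hS⟩ : ∃ S : Set (Subgroup D), S = {E : Subgroup D | IsPGroup ℓ E ∧ K ≤ E ∧
      Subgroup.normalizer (Q : Set D) ≤ Subgroup.normalizer (E : Set D)} := ⟨_, rfl⟩
    have hKS : K ∈ S := by
      rw [hS]
      exact ⟨hKp, le_rfl, hNK⟩
    obtain ⟨R', hR', hR'max⟩ := (Set.toFinite S).exists_maximal ⟨K, hKS⟩
    have hR'2 := hR'
    rw [hS] at hR'2
    obtain ⟨hR'p, hKR', hNR'⟩ := hR'2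
    have hR'0 : R' ≠ ⊥ := by
      intro h0
      apply hQ0
      rw [h0] at hKR'
      exact le_bot_iff.1 (hQK.le.trans hKR')
    have hrad : Rad R R' := by
      apply claimA bas bts par syl R h R' hR'p hR'0
      intro K₂ h1 h2 h3 h4
      apply hR'max (y := K₂) _ h2
      rw [hS]
      exact ⟨h1, hKR'.trans h2, hNR'.trans h4⟩
    obtain ⟨g, hg, J', hJ', hR'e⟩ := hrad
    rintro Q' hQ'p ⟨k, hk, J, hJ, rfl⟩ hQ'Q -
    -- everything is inside a conjugate of `U`
    have hle : R' ≤ conjS g (up R.U) := by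
      rw [hR'e]
      exact conjS_mono.2 (up_mono (UJ_le_U R J'))
    obtain ⟨g', hg'⟩ : ∃ g' : M, (g' : D) = g := ⟨⟨g, hg⟩, rfl⟩
    obtain ⟨k', hk'⟩ : ∃ k' : M, (k' : D) = k := ⟨⟨k, hk⟩, rfl⟩
    have h1 : g'⁻¹ * k' ∈ R.PJ J := by
      apply (par ℓ M R J).2.1
      intro x hx
      have h2 : (k' : D) * x * (k' : D)⁻¹ ∈ conjS k (up (R.UJ J)) := by
        rw [mem_conjS, hk']
        have e : k⁻¹ * (k * (x : D) * k⁻¹) * k = x := by group
        rw [e]
        exact mem_up.2 hx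
      have h3 := hle (hKR' (hQK.le (hQ'Q.le h2)))
      rw [mem_conjS, ← hg'] at h3
      rw [← mem_up]
      have e : ((g'⁻¹ * k' * x * (g'⁻¹ * k')⁻¹ : M) : D) =
          (g' : D)⁻¹ * ((k' : D) * x * (k' : D)⁻¹) * g' := by
        push_cast
        group
      rw [e]
      exact h3
    intro y hy
    have h2 := hle (hKR' hy)
    rw [mem_conjS, ← hg'] at h2
    obtain ⟨u, hu, hue⟩ := h2
    have hue' : (u : D) = (g' : D)⁻¹ * y * g' := hue
    have h3 : (g'⁻¹ * k')⁻¹ * u * (g'⁻¹ * k') ∈ R.PJ J :=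
      (R.PJ J).mul_mem ((R.PJ J).mul_mem ((R.PJ J).inv_mem h1) (U_le_PJ R J hu)) h1
    rw [← norm_UJ par] at h3
    rw [norm_conj]
    have e : (((g'⁻¹ * k')⁻¹ * u * (g'⁻¹ * k') : M) : D) = k⁻¹ * y * k := by
      push_cast
      rw [hue', hk']
      group
    rwa [e] at h3
  · intro g J hJ
    have hUp : IsPGroup ℓ (up (R.UJ J)) := up_pgroup ((syl ℓ M R).1.to_le (UJ_le_U R J))
    have hne : up (R.UJ J) ≠ ⊥ := (bas ℓ D M R h).2.2.2.2.2.2.2.2 J hJ
    apply claimA bas bts par syl R h _ (conjS_pgroup hUp)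
    · intro h0
      apply hne
      apply conjS_injective g
      rw [h0, conjS, Subgroup.map_bot]
    · intro K hKp hQK hKN hNK
      -- conjugate back
      have hK'p : IsPGroup ℓ (conjS g⁻¹ K) := conjS_pgroup hKp
      have hK'M : conjS g⁻¹ K ≤ M := ((bas ℓ D M R h).1 _ hK'p).1
      have hback : K = conjS g (conjS g⁻¹ K) := by
        rw [conjS_conjS, mul_inv_cancel, conjS_one]
      rw [hback]
      apply conjS_mono.2
      have h1 : (conjS g⁻¹ K).comap M.subtype ≤ R.UJ J := by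
        apply (par ℓ M R J).2.2.1
        · intro x hx
          have hx' : (x : D) ∈ conjS g⁻¹ K := hx
          rw [mem_conjS, inv_inv] at hx'
          have h2 := hKN hx'
          rw [norm_conj] at h2
          have e : g⁻¹ * (g * (x : D) * g⁻¹) * g = x := by group
          rw [e] at h2
          exact (norm_UJ par R J x).1 h2
        · exact hK'p.comap_of_injective _ M.subtype_injective
        · intro x hx y hy
          have hy' : (y : D) ∈ conjS g⁻¹ K := hy
          rw [← norm_UJ par] at hx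
          have h2 : g * (x : D) * g⁻¹ ∈ Subgroup.normalizer
              ((conjS g (up (R.UJ J)) : Subgroup D) : Set D) := by
            rw [norm_conj]
            have e : g⁻¹ * (g * (x : D) * g⁻¹) * g = x := by group
            rwa [e]
          have h3 := hNK h2
          have h4 : (x : D) ∈ Subgroup.normalizer ((conjS g⁻¹ K : Subgroup D) : Set D) := by
            rw [norm_conj, inv_inv]
            exact h3
          exact (Subgroup.mem_normalizer_iff.1 h4 y).1 hy'
      intro x hx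
      exact mem_up.2 (h1 (show (⟨x, hK'M hx⟩ : M) ∈ (conjS g⁻¹ K).comap M.subtype from hx))

end rad

end Pool.Agent.PP.X1.H89
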