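import Pool.Agent.Helper12_AWB.B100
import Pool.Agent.Helper66_AWS.S117

/-! Copy (generated) of the module `Pool.Agent.Helper63_X1.Tau` with import lines for the bundle Helper12_AWB. -/

/-! Module TAU of squad X1: on an irreducible representation of the torus on which `T i` does not
act trivially the operator `∑ t(x) n²` vanishes. -/

open scoped BigOperators

set_option linter.unusedSectionVars false

noncomputable section

namespace Pool.Agent.PP.X1.H63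

open Pool.Agent.Helper51_AWC Pool.Agent.Helper79_WRA Pool.Agent.PP Pool.Agent.PP.X1

section grp

variable {ℓ : ℕ} {G : Type} [Group G] (R : RGD ℓ G) (i : Fin R.r)

theorem T_inf_X [hp : Fact ℓ.Prime] {b : R.E} (hb : b ∈ R.Φ) {x : G} (h1 : x ∈ R.T)
    (h2 : x ∈ R.X b) : x = 1 := by
  obtain ⟨k, hk⟩ := R.pgrp b hb ⟨x, h2⟩
  have hk' : x ^ ℓ ^ k = 1 := by
    have := congrArg Subtype.val hk
    simpa using this
  have h3 : orderOf x ∣ ℓ ^ k := orderOf_dvd_of_pow_eq_one hk'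
  have h4 : orderOf x ∣ Nat.card R.T := by
    have := orderOf_dvd_natCard (⟨x, h1⟩ : R.T)
    rwa [Subgroup.orderOf_mk] at this
  obtain ⟨j, -, hj⟩ := (Nat.dvd_prime_pow hp.out).mp h3
  rw [hj] at h4
  rcases Nat.eq_zero_or_pos j with h5 | h5
  · rw [h5, pow_zero] at hj
    exact orderOf_eq_one_iff.mp hj
  · exact absurd (dvd_trans (dvd_pow_self ℓ h5.ne') h4) R.cop

theorem negdat : -R.a i ∈ R.neg := ⟨R.neg_a_mem i, by rw [neg_neg]; exact R.nn_a i⟩

/-- the root group of `-a i` meets `B` trivially -/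
theorem Xm_B [Fact ℓ.Prime] {g : G} (hg : g ∈ R.X (-R.a i)) (hB : g ∈ R.B) : g = 1 := by
  obtain ⟨u, hu, t, ht, rfl⟩ := R.mem_B.mp hB
  have h1 : u ∈ R.U ⊓ (R.T ⊔ R.V) := by
    refine ⟨hu, ?_⟩
    have h2 : u * t * t⁻¹ = u := by group
    rw [← h2]
    exact Subgroup.mul_mem _ ((le_sup_right : R.V ≤ R.T ⊔ R.V) (R.X_le_V (negdat R i) hg))
      (Subgroup.inv_mem _ ((le_sup_left : R.T ≤ R.T ⊔ R.V) ht))
  rw [R.UV, Subgroup.mem_bot] at h1
  subst h1
  rw [one_mul] at hg ⊢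
  exact T_inf_X R (R.neg_a_mem i) ht hg

theorem uniq [Fact ℓ.Prime] {y z y' z' t t' : G} (hy : y ∈ R.X (R.a i)) (hz : z ∈ R.X (R.a i))
    (hy' : y' ∈ R.X (R.a i)) (hz' : z' ∈ R.X (R.a i)) (ht : t ∈ R.T) (ht' : t' ∈ R.T)
    (h : y * (R.n i * t) * z = y' * (R.n i * t') * z') : t = t' := by
  have h1 : (R.n i)⁻¹ * (y'⁻¹ * y) * R.n i = t' * (z' * z⁻¹) * t⁻¹ := by
    have h2 : y = y' * (R.n i * t') * z' * z⁻¹ * (R.n i * t)⁻¹ := by
      rw [← h]
      group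
    rw [h2]
    group
  have h3 : (R.n i)⁻¹ * (y'⁻¹ * y) * R.n i ∈ R.X (-R.a i) := by
    rw [← R.nX' (i := i) (R.neg_a_mem i), R.s_neg, R.s_self, neg_neg]
    have h4 : R.n i * ((R.n i)⁻¹ * (y'⁻¹ * y) * R.n i) * (R.n i)⁻¹ = y'⁻¹ * y := by group
    rw [h4]
    exact mul_mem (inv_mem hy') hy
  have h5 : (R.n i)⁻¹ * (y'⁻¹ * y) * R.n i ∈ R.B := by
    rw [h1]
    exact mul_mem (mul_mem (R.T_le_B ht')
      (mul_mem (R.U_le_B (R.X_le_U (R.a_pos i) hz')) (inv_mem (R.U_le_B (R.X_le_U (R.a_pos i) hz)))))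
      (inv_mem (R.T_le_B ht))
  have h6 := Xm_B R i h3 h5
  rw [h1] at h6
  have h7 : z' * z⁻¹ = t'⁻¹ * t := by
    have h8 : z' * z⁻¹ = t'⁻¹ * (t' * (z' * z⁻¹) * t⁻¹) * t := by group
    rw [h8, h6]
    group
  have h9 : t'⁻¹ * t = 1 := by
    apply T_inf_X R (R.mem i) (mul_mem (inv_mem ht') ht)
    rw [← h7]
    exact mul_mem hz' (inv_mem hz)
  have h10 : t = t' * (t'⁻¹ * t) := by group
  rw [h10, h9, mul_one]

theorem th_spec {x : G} (hx : x ∈ R.X (R.a i)) (hx1 : x ≠ 1) : R.th i x ∈ R.T ∧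
    ∃ y ∈ R.X (R.a i), ∃ z ∈ R.X (R.a i), R.n i * x * (R.n i)⁻¹ = y * (R.n i * R.th i x) * z := by
  have h : ∃ t ∈ R.T, ∃ y ∈ R.X (R.a i), ∃ z ∈ R.X (R.a i),
      R.n i * x * (R.n i)⁻¹ = y * (R.n i * t) * z := by
    obtain ⟨y, hy, z, hz, t, ht, h⟩ := R.cell i x hx hx1
    exact ⟨t, ht, y, hy, z, hz, h⟩
  rw [RGD.th, dif_pos h]
  exact h.choose_spec

theorem th_conj [Fact ℓ.Prime] {x s : G} (hx : x ∈ R.X (R.a i)) (hx1 : x ≠ 1) (hs : s ∈ R.T) :
    R.th i (s * x * s⁻¹) = s * R.th i x * (R.n i * s * (R.n i)⁻¹)⁻¹ := by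
  obtain ⟨h1, y, hy, z, hz, h2⟩ := th_spec R i hx hx1
  have hx' : s * x * s⁻¹ ∈ R.X (R.a i) := R.tX s hs _ (R.mem i) x hx
  have hx1' : s * x * s⁻¹ ≠ 1 := by
    intro h
    apply hx1
    have : x = s⁻¹ * (s * x * s⁻¹) * s := by group
    rw [this, h]
    group
  obtain ⟨h3, y', hy', z', hz', h4⟩ := th_spec R i hx' hx1'
  have hs1 : R.n i * s * (R.n i)⁻¹ ∈ R.T := R.nT i s hs
  refine uniq R i hy' hz' (R.tX _ hs1 _ (R.mem i) y hy) (R.tX _ hs1 _ (R.mem i) z hz) h3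
    (mul_mem (mul_mem hs h1) (inv_mem hs1)) ?_
  rw [← h4]
  have h5 : R.n i * (s * x * s⁻¹) * (R.n i)⁻¹ =
      (R.n i * s * (R.n i)⁻¹) * (R.n i * x * (R.n i)⁻¹) * (R.n i * s * (R.n i)⁻¹)⁻¹ := by group
  rw [h5, h2]
  group

theorem T_le_PJ (J : Finset (Fin R.r)) : R.T ≤ R.PJ J := le_sup_left

theorem X_le_PJ (J : Finset (Fin R.r)) : R.X (R.a i) ≤ R.PJ J :=
  le_trans (R.X_le_gp (A := R.pos ∪ R.lev J) (Or.inl (R.a_pos i))) le_sup_right

theorem Xm_le_PJ {J : Finset (Fin R.r)} (hi : i ∈ J) : R.X (-R.a i) ≤ R.PJ J := by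
  refine le_trans (R.X_le_gp (A := R.pos ∪ R.lev J) (Or.inr ⟨R.neg_a_mem i, ?_⟩)) le_sup_right
  exact Submodule.neg_mem _ (Submodule.subset_span ⟨i, hi, rfl⟩)

theorem n_mem_PJ {J : Finset (Fin R.r)} (hi : i ∈ J) : R.n i ∈ R.PJ J :=
  (sup_le (X_le_PJ R i J) (Xm_le_PJ R i hi)) (R.nmem i)

theorem PJ_empty : R.PJ ∅ ≤ R.B := by
  unfold RGD.PJ RGD.B RGD.U
  apply sup_le_sup_left
  apply R.gp_mono
  rintro b (hb | ⟨hb, hb'⟩)
  · exact hb
  · exfalso
    apply R.ne0 b hb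
    simpa using hb'

theorem Ti_n {t : G} (ht : t ∈ R.Ti i) : R.n i * t * (R.n i)⁻¹ ∈ R.Ti i :=
  ⟨R.nT i t ht.1, Subgroup.mul_mem _ (Subgroup.mul_mem _ (R.nmem i) ht.2)
    (Subgroup.inv_mem _ (R.nmem i))⟩

end grp

section mat

variable {F : Type} [Field F]

/-- matrices for a subspace -/
theorem mats {k : ℕ} (L : Submodule F (Fin k → F)) : ∃ (m : ℕ) (X : Matrix (Fin k) (Fin m) F)
    (Y : Matrix (Fin m) (Fin k) F), Y * X = 1 ∧ (∀ c, X.mulVec c ∈ L) ∧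
      ∀ v ∈ L, X.mulVec (Y.mulVec v) = v := by
  classical
  let b := Module.finBasis F L
  let ι : (Fin (Module.finrank F L) → F) →ₗ[F] (Fin k → F) :=
    L.subtype ∘ₗ b.equivFun.symm.toLinearMap
  have hinj : Function.Injective ι := by
    intro c d h
    exact b.equivFun.symm.injective (Subtype.val_injective h)
  obtain ⟨g, hg⟩ := LinearMap.exists_leftInverse_of_injective ι (LinearMap.ker_eq_bot.mpr hinj)
  refine ⟨_, LinearMap.toMatrix' ι, LinearMap.toMatrix' g, ?_, ?_, ?_⟩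
  · rw [← LinearMap.toMatrix'_comp, hg, LinearMap.toMatrix'_id]
  · intro c
    rw [LinearMap.toMatrix'_mulVec]
    exact (b.equivFun.symm c).2
  · intro v hv
    have h1 : v = ι (b.equivFun ⟨v, hv⟩) := by
      show v = ((b.equivFun.symm (b.equivFun ⟨v, hv⟩) : L) : Fin k → F)
      rw [LinearEquiv.symm_apply_apply]
    rw [LinearMap.toMatrix'_mulVec, LinearMap.toMatrix'_mulVec]
    conv_rhs => rw [h1]
    congr 1
    conv_lhs => rw [h1]
    exact LinearMap.congr_fun hg _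

end mat

section main

variable {ℓ : ℕ} {F G : Type} [Field F] [Group G] [Finite G] (R : RGD ℓ G) (i : Fin R.r)

/-- conjugation by an element of the torus on a root group -/
def conjX {s : G} (hs : s ∈ R.T) : R.X (R.a i) ≃ R.X (R.a i) where
  toFun x := ⟨s * x * s⁻¹, R.tX s hs _ (R.mem i) x x.2⟩
  invFun x := ⟨s⁻¹ * x * s, H81.TX' R i hs x.2⟩
  left_inv x := by
    apply Subtype.ext
    show s⁻¹ * (s * (x : G) * s⁻¹) * s = x
    group
  right_inv x := by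
    apply Subtype.ext
    show s * (s⁻¹ * (x : G) * s) * s⁻¹ = x
    group

theorem fs_eq {M : Type} [AddCommMonoid M] (f : R.X (R.a i) → M) [Fintype (R.X (R.a i))] :
    ∑ᶠ x, f x = ∑ x, f x := finsum_eq_sum_of_fintype f

/-- the operator `τ` and the torus -/
theorem tau_T [Fact ℓ.Prime] {P : Subgroup G} {k : ℕ} (ρ : P →* Matrix (Fin k) (Fin k) F)
    (hT : R.T ≤ P) {s : G} (hs : s ∈ R.T) :
    tauM R ρ i * ro ρ s = ro ρ (R.n i * s * (R.n i)⁻¹) * tauM R ρ i := by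
  classical
  have : Fintype (R.X (R.a i)) := Fintype.ofFinite _
  have hs1 : R.n i * s * (R.n i)⁻¹ ∈ R.T := R.nT i s hs
  unfold tauM
  rw [fs_eq, Finset.sum_mul, Finset.mul_sum]
  refine (Fintype.sum_equiv (conjX R i hs1) _ _ ?_).symm
  intro x
  by_cases hx : (x : G) = 1
  · rw [if_pos hx, if_pos, mul_zero, zero_mul]
    show R.n i * s * (R.n i)⁻¹ * (x : G) * (R.n i * s * (R.n i)⁻¹)⁻¹ = 1
    rw [hx]
    group
  · have hx' : ((conjX R i hs1 x : R.X (R.a i)) : G) ≠ 1 := by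
      intro h
      apply hx
      have h' : R.n i * s * (R.n i)⁻¹ * (x : G) * (R.n i * s * (R.n i)⁻¹)⁻¹ = 1 := h
      have : (x : G) = (R.n i * s * (R.n i)⁻¹)⁻¹ *
        (R.n i * s * (R.n i)⁻¹ * (x : G) * (R.n i * s * (R.n i)⁻¹)⁻¹) *
        (R.n i * s * (R.n i)⁻¹) := by group
      rw [this, h']
      group
    rw [if_neg hx, if_neg hx']
    have h1 : ((conjX R i hs1 x : R.X (R.a i)) : G) =
      R.n i * s * (R.n i)⁻¹ * (x : G) * (R.n i * s * (R.n i)⁻¹)⁻¹ := rfl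
    have h2 := th_conj R i x.2 hx hs1
    have h3 := (th_spec R i x.2 hx).1
    rw [h1, h2]
    have h4 : R.n i * (R.n i * s * (R.n i)⁻¹) * (R.n i)⁻¹ ∈ R.T := R.nT i _ hs1
    rw [← ro_mul ρ (hT hs1) (hT (mul_mem h3 (R.nn i))),
      ← ro_mul ρ (hT (mul_mem (mul_mem (mul_mem hs1 h3) (inv_mem h4)) (R.nn i))) (hT hs)]
    congr 1
    simp only [mul_inv_rev, inv_inv, mul_assoc, inv_mul_cancel_left,
      inv_mul_cancel, mul_one]

/-- the sum of the matrices of the representation of the torus -/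
def tS {m : ℕ} (σ : R.T →* Matrix (Fin m) (Fin m) F) : Matrix (Fin m) (Fin m) F :=
  open Classical in
  ∑ᶠ x : R.X (R.a i), if (x : G) = 1 then 0 else ro σ (R.th i x * (R.n i * R.n i))

theorem tau_tS [Fact ℓ.Prime] {P : Subgroup G} {k m : ℕ} (ρ : P →* Matrix (Fin k) (Fin k) F)
    (σ : R.T →* Matrix (Fin m) (Fin m) F) (X : Matrix (Fin k) (Fin m) F)
    (hX : ∀ t ∈ R.T, ro ρ t * X = X * ro σ t) : tauM R ρ i * X = X * tS R i σ := by
  classical
  have : Fintype (R.X (R.a i)) := Fintype.ofFinite _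
  unfold tauM tS
  rw [fs_eq, fs_eq, Matrix.sum_mul, Matrix.mul_sum]
  apply Finset.sum_congr rfl
  intro x _
  by_cases hx : (x : G) = 1
  · rw [if_pos hx, if_pos hx, Matrix.mul_zero, Matrix.zero_mul]
  · rw [if_neg hx, if_neg hx]
    exact hX _ (mul_mem (th_spec R i x.2 hx).1 (R.nn i))

/-- the operator of the simple root has a left inverse on an induced representation -/
theorem left_inv [Fact ℓ.Prime] {J : Finset (Fin R.r)} (hi : i ∈ J) {k m : ℕ}
    (ρ : R.PJ J →* Matrix (Fin k) (Fin k) F) (E : Matrix (Fin k) (Fin m) F)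
    (E' : Matrix (Fin m) (Fin k) F) (h1 : E' * E = 1)
    (h0 : ∀ g ∈ R.PJ J, g ∉ R.PJ ∅ → E' * ro ρ g * E = 0) :
    E' * ro ρ (R.n i)⁻¹ * (Ai R ρ i * E) = 1 := by
  classical
  have : Fintype (R.X (R.a i)) := Fintype.ofFinite _
  have hn := n_mem_PJ R i hi
  have hterm : ∀ x : R.X (R.a i), E' * ro ρ (R.n i)⁻¹ * (ro ρ ((x : G) * R.n i) * E) =
      if x = 1 then 1 else 0 := by
    intro x
    have hx := X_le_PJ R i J x.2
    have h2 : E' * ro ρ (R.n i)⁻¹ * (ro ρ ((x : G) * R.n i) * E) =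
        E' * ro ρ ((R.n i)⁻¹ * ((x : G) * R.n i)) * E := by
      rw [ro_mul ρ (inv_mem hn) (mul_mem hx hn)]
      simp only [Matrix.mul_assoc]
    rw [h2]
    by_cases hx1 : x = 1
    · rw [if_pos hx1, hx1]
      have h3 : (R.n i)⁻¹ * (((1 : R.X (R.a i)) : G) * R.n i) = 1 := by
        rw [OneMemClass.coe_one]
        group
      rw [h3, ro_one, Matrix.mul_one, h1]
    · rw [if_neg hx1]
      apply h0 _ (mul_mem (inv_mem hn) (mul_mem hx hn))
      intro h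
      have h4 : (R.n i)⁻¹ * ((x : G) * R.n i) ∈ R.X (-R.a i) := by
        rw [← R.nX' (i := i) (R.neg_a_mem i), R.s_neg, R.s_self, neg_neg]
        have h5 : R.n i * ((R.n i)⁻¹ * ((x : G) * R.n i)) * (R.n i)⁻¹ = (x : G) := by group
        rw [h5]
        exact x.2
      have h6 := Xm_B R i h4 (PJ_empty R h)
      apply hx1
      apply Subtype.ext
      have h7 : (x : G) = R.n i * ((R.n i)⁻¹ * ((x : G) * R.n i)) * (R.n i)⁻¹ := by group
      rw [h7, h6]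
      show R.n i * 1 * (R.n i)⁻¹ = 1
      group
  unfold Ai
  rw [fs_eq, Matrix.sum_mul, Matrix.mul_sum, Finset.sum_congr rfl fun x _ => hterm x]
  simp

theorem tau (h1 : TriStmt) (h2 : AcaStmt) (h3 : AcbStmt) (h4 : IndStmt) : TauStmt := by
  intro ℓ _ F _ hF G _ _ R J k ρ i hi L hTS hirr
  by_cases h0 : ∀ v ∈ L, (tauM R ρ i).mulVec v = 0
  · exact Or.inr h0
  left
  -- the kernel
  have hker : ∀ v ∈ L, (tauM R ρ i).mulVec v = 0 → v = 0 := by
    let K : Submodule F (Fin k → F) := L ⊓ LinearMap.ker (Matrix.mulVecLin (tauM R ρ i))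
    have hK : TS R ρ K := by
      rintro t ht v ⟨hv1, hv2⟩
      refine ⟨hTS t ht v hv1, ?_⟩
      have hv3 : (tauM R ρ i).mulVec v = 0 := hv2
      show (tauM R ρ i).mulVec ((ro ρ t).mulVec v) = 0
      rw [Matrix.mulVec_mulVec, tau_T R i ρ (T_le_PJ R J) ht, ← Matrix.mulVec_mulVec, hv3,
        Matrix.mulVec_zero]
    rcases hirr K inf_le_left hK with h5 | h5
    · intro v hv hv'
      have h6 : v ∈ K := ⟨hv, hv'⟩
      rw [h5] at h6
      exact h6
    · exfalso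
      apply h0
      intro v hv
      rw [← h5] at hv
      exact hv.2
  obtain ⟨m, X, Y, hYX, hXL, hXY⟩ := mats L
  -- the representation of the torus
  have hX : ∀ t ∈ R.T, ro ρ t * X = X * (Y * ro ρ t * X) := by
    intro t ht
    apply Matrix.ext_of_mulVec_single
    intro j
    have h5 : (ro ρ t).mulVec (X.mulVec (Pi.single j 1)) ∈ L := hTS t ht _ (hXL _)
    have h6 := hXY _ h5
    simp only [← Matrix.mulVec_mulVec]
    exact h6.symm
  let σ : R.T →* Matrix (Fin m) (Fin m) F :=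
    { toFun := fun t => Y * ro ρ (t : G) * X
      map_one' := by
        rw [OneMemClass.coe_one, ro_one, Matrix.mul_one, hYX]
      map_mul' := by
        intro s t
        have h5 := hX t t.2
        rw [Subgroup.coe_mul, ro_mul ρ (T_le_PJ R J s.2) (T_le_PJ R J t.2)]
        calc Y * (ro ρ (s : G) * ro ρ (t : G)) * X = Y * ro ρ (s : G) * (ro ρ (t : G) * X) := by
              simp only [Matrix.mul_assoc]
          _ = Y * ro ρ (s : G) * (X * (Y * ro ρ (t : G) * X)) := by rw [h5]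
          _ = _ := by simp only [Matrix.mul_assoc] }
  have hσ : ∀ t ∈ R.T, ro ρ t * X = X * ro σ t := by
    intro t ht
    rw [ro_mem σ ht]
    exact hX t ht
  -- the induced representation
  obtain ⟨k', ρ', E, E', hU, -, hT, hE, hz⟩ := h4 ℓ F hF G R J ∅ (Finset.empty_subset J) m σ (by
    intro t ht
    have h5 : R.TK ∅ = ⊥ := by
      unfold RGD.TK
      simp
    rw [h5, Subgroup.mem_bot] at ht
    rw [ht, ro_one])
  have hli := left_inv R i hi ρ' E E' hE hz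
  have hτX := tau_tS R i ρ σ X hσ
  have hτE := tau_tS R i ρ' σ E hT
  have hinj : ∀ c, (tS R i σ).mulVec c = 0 → c = 0 := by
    intro c hc
    have h5 : (tauM R ρ i).mulVec (X.mulVec c) = 0 := by
      rw [Matrix.mulVec_mulVec, hτX, ← Matrix.mulVec_mulVec, hc, Matrix.mulVec_zero]
    have h6 := hker _ (hXL c) h5
    have h7 : Y.mulVec (X.mulVec c) = c := by
      rw [Matrix.mulVec_mulVec, hYX, Matrix.one_mulVec]
    rw [← h7, h6, Matrix.mulVec_zero]
  obtain ⟨-, -, hAU, hAT, -, -⟩ := h2 ℓ F hF G R J k' ρ'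
  obtain ⟨hAA, -, -⟩ := h3 ℓ F hF G R J k' ρ' i hi
  have hfx : ∀ c, E.mulVec c ∈ fx R.U ρ' := by
    intro c u hu
    rw [Matrix.mulVec_mulVec, hU u hu]
  have hAinj : ∀ c, (Ai R ρ' i).mulVec (E.mulVec c) = 0 → c = 0 := by
    intro c hc
    have h5 : (E' * ro ρ' (R.n i)⁻¹ * (Ai R ρ' i * E)).mulVec c = c := by
      rw [hli, Matrix.one_mulVec]
    rw [← Matrix.mulVec_mulVec, ← Matrix.mulVec_mulVec c (Ai R ρ' i) E, hc,
      Matrix.mulVec_zero] at h5
    exact h5.symm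
  have hA2 : ∀ c, (Ai R ρ' i).mulVec ((Ai R ρ' i).mulVec (E.mulVec c)) =
      (Ai R ρ' i).mulVec (E.mulVec ((tS R i σ).mulVec c)) := by
    intro c
    rw [hAA _ (hfx c), Matrix.mulVec_mulVec c (tauM R ρ' i) E, hτE, ← Matrix.mulVec_mulVec]
  have hAt : ∀ t ∈ R.T, ∀ c, (ro ρ' t).mulVec ((Ai R ρ' i).mulVec (E.mulVec c)) =
      (Ai R ρ' i).mulVec (E.mulVec ((ro σ ((R.n i)⁻¹ * t * R.n i)).mulVec c)) := by
    intro t ht c
    have h5 : (R.n i)⁻¹ * t * R.n i ∈ R.T := H81.Tn R i ht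
    have h6 := hAT i hi _ h5 (E.mulVec c)
    have h7 : R.n i * ((R.n i)⁻¹ * t * R.n i) * (R.n i)⁻¹ = t := by group
    rw [h7] at h6
    rw [← h6, Matrix.mulVec_mulVec c (ro ρ' _) E, hT _ h5, ← Matrix.mulVec_mulVec]
  let L' : Submodule F (Fin k' → F) := LinearMap.range (Matrix.mulVecLin (Ai R ρ' i * E))
  have hL' : ∀ v, v ∈ L' ↔ ∃ c, v = (Ai R ρ' i).mulVec (E.mulVec c) := by
    intro v
    constructor
    · rintro ⟨c, rfl⟩
      refine ⟨c, ?_⟩
      rw [Matrix.mulVecLin_apply, Matrix.mulVec_mulVec]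
    · rintro ⟨c, rfl⟩
      refine ⟨c, ?_⟩
      rw [Matrix.mulVecLin_apply, Matrix.mulVec_mulVec]
  obtain ⟨h5, -⟩ := h1 ℓ F hF G R J k' ρ' i hi L'
    (by
      intro v hv
      obtain ⟨c, rfl⟩ := (hL' v).mp hv
      exact hAU i hi _ (hfx c))
    (by
      intro t ht v hv
      obtain ⟨c, rfl⟩ := (hL' v).mp hv
      rw [hAt t ht c]
      exact (hL' _).mpr ⟨_, rfl⟩)
    (by
      intro v hv
      obtain ⟨c, rfl⟩ := (hL' v).mp hv
      rw [hA2 c]
      exact (hL' _).mpr ⟨_, rfl⟩)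
    (by
      intro v hv hv'
      obtain ⟨c, rfl⟩ := (hL' v).mp hv
      rw [hA2 c] at hv'
      rw [hinj _ (hAinj _ hv'), Matrix.mulVec_zero, Matrix.mulVec_zero])
  intro t ht v hv
  have ht' := Ti_n R i ht
  have h6 : ∀ c, (ro σ t).mulVec c = c := by
    intro c
    have h7 := h5 _ ht' _ ((hL' _).mpr ⟨c, rfl⟩)
    rw [hAt _ ht'.1 c] at h7
    have h8 : (R.n i)⁻¹ * (R.n i * t * (R.n i)⁻¹) * R.n i = t := by group
    rw [h8] at h7
    have h9 : (Ai R ρ' i).mulVec (E.mulVec ((ro σ t).mulVec c - c)) = 0 := by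
      rw [Matrix.mulVec_sub, Matrix.mulVec_sub, h7, sub_self]
    exact sub_eq_zero.mp (hAinj _ h9)
  have h10 := hXY v hv
  rw [← h10, Matrix.mulVec_mulVec _ (ro ρ t) X, hσ t ht.1, ← Matrix.mulVec_mulVec, h6]

end main

end Pool.Agent.PP.X1.H63
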