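import Pool.Agent.Helper12_AWB.B100

/-! Copy (generated) of the module `Pool.Agent.Helper94_X1.Tog` with import lines for the bundle Helper12_AWB. -/

/-!
Squad X1, module TOG: the combinatorial cancellation.
-/

open scoped BigOperators

noncomputable section

namespace Pool.Agent.PP.X1.H94

open Pool.Agent.Helper51_AWC Pool.Agent.Helper79_WRA Pool.Agent.PP

open Classical in
/-- toggling one member of a family of sets -/
def tgl {r : ℕ} (K : Finset (Fin r)) (f : Finset (Finset (Fin r))) :
    Finset (Finset (Fin r)) :=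
  if K ∈ f then f.erase K else insert K f

open Classical in
theorem mem_tgl {r : ℕ} {K J : Finset (Fin r)} {f : Finset (Finset (Fin r))} (h : J ∈ tgl K f) :
    J = K ∨ J ∈ f := by
  unfold tgl at h
  split_ifs at h with hK
  · exact Or.inr (Finset.mem_of_mem_erase h)
  · exact Finset.mem_insert.1 h

open Classical in
theorem tgl_tgl {r : ℕ} (K : Finset (Fin r)) (f : Finset (Finset (Fin r))) :
    tgl K (tgl K f) = f := by
  unfold tgl
  by_cases hK : K ∈ f
  · rw [if_pos hK, if_neg (Finset.notMem_erase K f), Finset.insert_erase hK]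
  · rw [if_neg hK, if_pos (Finset.mem_insert_self K f), Finset.erase_insert hK]

open Classical in
theorem tgl_ne {r : ℕ} (K : Finset (Fin r)) (f : Finset (Finset (Fin r))) : tgl K f ≠ f := by
  intro h
  by_cases hK : K ∈ f
  · have h1 : K ∈ tgl K f := by rw [h]; exact hK
    unfold tgl at h1
    rw [if_pos hK] at h1
    exact Finset.notMem_erase K f h1
  · have h1 : K ∉ tgl K f := by rw [h]; exact hK
    unfold tgl at h1
    rw [if_neg hK] at h1
    exact h1 (Finset.mem_insert_self K f)

open Classical in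
theorem tgl_pow {r : ℕ} (K : Finset (Fin r)) (f : Finset (Finset (Fin r))) :
    (-1 : ℤ) ^ f.card + (-1 : ℤ) ^ (tgl K f).card = 0 := by
  unfold tgl
  by_cases hK : K ∈ f
  · rw [if_pos hK]
    have h1 := Finset.card_erase_add_one hK
    rw [← h1, pow_succ]
    ring
  · rw [if_neg hK, Finset.card_insert_of_notMem hK, pow_succ]
    ring

theorem tog : TogStmt := by
  classical
  intro r π π' M
  have key : ∀ K : Finset (Fin r), K.map π.toEmbedding = K → K.map π'.toEmbedding = K →
      K ≠ Finset.univ →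
      ∑ f ∈ (Finset.univ : Finset (Finset (Finset (Fin r)))).filter (fun f => (Flag f ∧
        ∀ J ∈ f, J.map π.toEmbedding = J ∧ J.map π'.toEmbedding = J) ∧ ∀ J ∈ f, K ⊆ J),
        (-1 : ℤ) ^ f.card = 0 := by
    intro K hK1 hK2 hK3
    refine Finset.sum_involution (fun f _ => tgl K f) (fun f _ => tgl_pow K f)
      (fun f _ _ => tgl_ne K f) (fun f hf => ?_) (fun f _ => tgl_tgl K f)
    rw [Finset.mem_filter] at hf ⊢
    obtain ⟨-, ⟨⟨hf1, hf2⟩, hf3⟩, hf4⟩ := hf
    refine ⟨Finset.mem_univ _, ⟨⟨fun J hJ => ?_, fun J hJ J' hJ' hne => ?_⟩, fun J hJ => ?_⟩,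
      fun J hJ => ?_⟩
    · rcases mem_tgl hJ with rfl | h
      · exact hK3
      · exact hf1 J h
    · rcases mem_tgl hJ with rfl | h <;> rcases mem_tgl hJ' with rfl | h'
      · exact absurd rfl hne
      · exact Or.inl (hf4 J' h')
      · exact Or.inr (hf4 J h)
      · exact hf2 h h' hne
    · rcases mem_tgl hJ with rfl | h
      · exact ⟨hK1, hK2⟩
      · exact hf3 J h
    · rcases mem_tgl hJ with rfl | h
      · exact subset_rfl
      · exact hf4 J h
  have step : ∀ f : Finset (Finset (Fin r)), (Flag f ∧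
      ∀ J ∈ f, J.map π.toEmbedding = J ∧ J.map π'.toEmbedding = J) →
      KS (f.inf id) M π π' (f = ∅) = (Finset.univ.filter fun K : Finset (Fin r) => K ⊆ M ∧
        K.map π.toEmbedding = K ∧ K.map π'.toEmbedding = K ∧ K ≠ Finset.univ).filter
          (fun K => ∀ J ∈ f, K ⊆ J) := by
    intro f hf
    ext K
    have hinf : K ⊆ f.inf id ↔ ∀ J ∈ f, K ⊆ J := by
      have := Finset.le_inf_iff (s := f) (f := id) (a := K)
      simpa using this
    simp only [KS, Finset.mem_filter, Finset.mem_univ, true_and]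
    rw [hinf]
    constructor
    · rintro ⟨h1, h2, h3, h4, h5⟩
      refine ⟨⟨h2, h3, h4, ?_⟩, h1⟩
      rcases Finset.eq_empty_or_nonempty f with h6 | ⟨J, hJ⟩
      · exact h5 h6
      · intro h7
        have h8 := h1 J hJ
        rw [h7] at h8
        exact hf.1.1 J hJ (Finset.univ_subset_iff.1 h8)
    · rintro ⟨⟨h2, h3, h4, h5⟩, h1⟩
      exact ⟨h1, h2, h3, h4, fun _ => h5⟩
  have h1 : ∑ f ∈ (Finset.univ : Finset (Finset (Finset (Fin r)))).filter (fun f => Flag f ∧
      ∀ J ∈ f, J.map π.toEmbedding = J ∧ J.map π'.toEmbedding = J),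
      (-1 : ℤ) ^ f.card * ((KS (f.inf id) M π π' (f = ∅)).card : ℤ) =
      ∑ f ∈ (Finset.univ : Finset (Finset (Finset (Fin r)))).filter (fun f => Flag f ∧
        ∀ J ∈ f, J.map π.toEmbedding = J ∧ J.map π'.toEmbedding = J),
        ∑ K ∈ (Finset.univ.filter fun K : Finset (Fin r) => K ⊆ M ∧
          K.map π.toEmbedding = K ∧ K.map π'.toEmbedding = K ∧ K ≠ Finset.univ),
          if ∀ J ∈ f, K ⊆ J then (-1 : ℤ) ^ f.card else 0 := by
    refine Finset.sum_congr rfl fun f hf => ?_
    rw [step f (Finset.mem_filter.1 hf).2, ← Finset.sum_filter, Finset.sum_const, nsmul_eq_mul,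
      mul_comm]
  have h2 : ∑ f ∈ (Finset.univ : Finset (Finset (Finset (Fin r)))).filter (fun f => Flag f ∧
      ∀ J ∈ f, J.map π.toEmbedding = J ∧ J.map π'.toEmbedding = J),
      (-1 : ℤ) ^ f.card * ((KS (f.inf id) M π π' (f = ∅)).card : ℤ) = 0 := by
    rw [h1, Finset.sum_comm]
    refine Finset.sum_eq_zero fun K hK => ?_
    obtain ⟨-, -, k1, k2, k3⟩ := Finset.mem_filter.1 hK
    have h3 := key K k1 k2 k3
    rw [← Finset.filter_filter, Finset.sum_filter] at h3
    exact h3
  exact h2

end Pool.Agent.PP.X1.H94
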