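import Pool.Agent.Helper12_AWB.B100
import Pool.Agent.Helper12_AWB.B055

/-! Copy (generated) of the module `Pool.Agent.Helper64_X1.Xch` with import lines for the bundle Helper12_AWB. -/

/-!
# Squad X1, module XCH: reduction to the chains of the subgroups of a class, normalised by the top
-/

open scoped BigOperators

set_option autoImplicit false
set_option linter.unusedSectionVars false

noncomputable section

namespace Pool.Agent.PP.X1.H64

open Pool.Agent.Helper51_AWC Pool.Agent.Helper79_WRA Pool.Agent.PP Pool.Agent.PP.H94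

variable {G : Type} [Group G]

section defs

variable (C : Subgroup G → Prop) (K : Subgroup G → Subgroup G)

/-- a bad member -/
def bd (d : Finset (Subgroup G)) (Q : Subgroup G) : Prop :=
  Q ∈ d ∧ Q ≠ ⊥ ∧ (¬ C Q ∨ ¬ top d ≤ Subgroup.normalizer (Q : Set G))

/-- the smallest bad member -/
def IsL (d : Finset (Subgroup G)) (B : Subgroup G) : Prop :=
  bd C d B ∧ ∀ Q, bd C d Q → B ≤ Q

/-- the largest member which does not contain `K B` -/
def Sm (d : Finset (Subgroup G)) (B : Subgroup G) : Subgroup G :=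
  sSup {Q | Q ∈ d ∧ ¬ K B ≤ Q}

/-- the smallest member which does not normalise `B` -/
def Tm (d : Finset (Subgroup G)) (B : Subgroup G) : Subgroup G :=
  sInf {Q | Q ∈ d ∧ ¬ Q ≤ Subgroup.normalizer (B : Set G)}

open Classical in
/-- the subgroup to be toggled -/
def Rr (d : Finset (Subgroup G)) (B : Subgroup G) : Subgroup G :=
  if top d ≤ Subgroup.normalizer (B : Set G) then K B ⊔ Sm K d B
  else Tm d B ⊓ Subgroup.normalizer (B : Set G)

theorem IsL.unique {d : Finset (Subgroup G)} {B B' : Subgroup G} (h : IsL C d B)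
    (h' : IsL C d B') : B = B' := le_antisymm (h.2 _ h'.1) (h'.2 _ h.1)

/-- the hypothesis on the choice -/
def HK (ℓ : ℕ) : Prop := ∀ Q : Subgroup G, IsPGroup ℓ Q → Q ≠ ⊥ → ¬ C Q →
  IsPGroup ℓ (K Q) ∧ Q < K Q ∧ K Q ≤ Subgroup.normalizer (Q : Set G) ∧
    Subgroup.normalizer (Q : Set G) ≤ Subgroup.normalizer (K Q : Set G) ∧
    ∀ Q' : Subgroup G, IsPGroup ℓ Q' → C Q' → Q' < Q → Q ≤ Subgroup.normalizer (Q' : Set G) →
      K Q ≤ Subgroup.normalizer (Q' : Set G)

end defs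

theorem le_norm_bot (H : Subgroup G) : H ≤ Subgroup.normalizer ((⊥ : Subgroup G) : Set G) := by
  intro x _
  rw [Subgroup.mem_normalizer_iff]
  intro y
  rw [Subgroup.mem_bot, Subgroup.mem_bot, mul_inv_eq_one, mul_eq_left]

theorem norm_sup {g : G} {A B : Subgroup G} (hA : g ∈ Subgroup.normalizer (A : Set G))
    (hB : g ∈ Subgroup.normalizer (B : Set G)) :
    g ∈ Subgroup.normalizer ((A ⊔ B : Subgroup G) : Set G) := by
  rw [Subgroup.mem_normalizer_iff_map_conj_eq] at *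
  rw [Subgroup.map_sup, hA, hB]

theorem norm_norm {g : G} {T B : Subgroup G} (hT : g ∈ Subgroup.normalizer (T : Set G))
    (hB : g ∈ Subgroup.normalizer (B : Set G)) :
    g ∈ Subgroup.normalizer ((T ⊓ Subgroup.normalizer (B : Set G) : Subgroup G) : Set G) := by
  rw [Subgroup.mem_normalizer_iff]
  intro x
  rw [Subgroup.mem_inf, Subgroup.mem_inf]
  refine and_congr ((Subgroup.mem_normalizer_iff.1 hT) x) ?_
  constructor
  · intro h
    exact mul_mem (mul_mem hB h) (inv_mem hB)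
  · intro h
    have h2 := mul_mem (mul_mem (inv_mem hB) h) hB
    have e : g⁻¹ * (g * x * g⁻¹) * g = x := by group
    rwa [e] at h2

theorem mem_tog [DecidableEq (Subgroup G)] {d : Finset (Subgroup G)} {R Q : Subgroup G}
    (h : Q ≠ R) : Q ∈ toggle d R ↔ Q ∈ d := by
  unfold toggle
  split_ifs with h1
  · rw [Finset.mem_erase]
    exact ⟨fun h2 => h2.2, fun h2 => ⟨h, h2⟩⟩
  · rw [Finset.mem_insert]
    exact ⟨fun h2 => h2.resolve_left h, Or.inr⟩

theorem top_tog_le [DecidableEq (Subgroup G)] {d : Finset (Subgroup G)} {R H : Subgroup G}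
    (h1 : top d ≤ H) (h2 : R ≤ H) : top (toggle d R) ≤ H := by
  refine sSup_le fun Q hQ => ?_
  by_cases h : Q = R
  · rw [h]
    exact h2
  · exact (le_sSup (Finset.mem_coe.2 ((mem_tog h).1 (Finset.mem_coe.1 hQ)))).trans h1

section main

variable {ℓ : ℕ} [Fact ℓ.Prime] [Finite G] {C : Subgroup G → Prop} {K : Subgroup G → Subgroup G}
  {d : Finset (Subgroup G)} {B : Subgroup G}

/-- the properties of the toggled subgroup -/
structure TP [DecidableEq (Subgroup G)] (ℓ : ℕ) (C : Subgroup G → Prop)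
    (K : Subgroup G → Subgroup G) (d : Finset (Subgroup G)) (B R : Subgroup G) : Prop where
  pg : IsPGroup ℓ R
  lt : B < R
  cmp : ∀ D ∈ d, D ≤ R ∨ R ≤ D
  isl : IsL C (toggle d R) B
  fix : Rr K (toggle d R) B = R
  stb : ∀ d' : Finset (Subgroup G), (∀ Q ∈ d, Q ≠ R → Q ∈ d') → stab d' ≤ Subgroup.normalizer (R : Set G)

theorem tpB [DecidableEq (Subgroup G)] (hK : HK C K ℓ) (hPp : ∀ D ∈ d, IsPGroup ℓ D)
    (hch : IsChain (· ≤ ·) (d : Set (Subgroup G))) (hB : IsL C d B)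
    (ht : top d ≤ Subgroup.normalizer (B : Set G)) : TP ℓ C K d B (Rr K d B) := by
  classical
  obtain ⟨⟨hBd, hB0, hBC⟩, hmin⟩ := hB
  have hC : ¬ C B := by
    rcases hBC with h | h
    · exact h
    · exact absurd ht h
  obtain ⟨k1, k2, k3, k4, k5⟩ := hK B (hPp B hBd) hB0 hC
  have hR : Rr K d B = K B ⊔ Sm K d B := by rw [Rr, if_pos ht]
  rw [hR]
  obtain ⟨R, hRe⟩ : ∃ R, R = K B ⊔ Sm K d B := ⟨_, rfl⟩
  rw [← hRe]
  have hBS : B ∈ {Q | Q ∈ d ∧ ¬ K B ≤ Q} := ⟨hBd, not_le_of_gt k2⟩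
  -- the largest member
  obtain ⟨S, hS, hSm⟩ := exists_greatest (d := d.filter (fun Q => ¬ K B ≤ Q))
    (hch.mono (fun y hy => Finset.mem_of_mem_filter y hy)) ⟨B, Finset.mem_filter.2 hBS⟩
  rw [Finset.mem_filter] at hS
  have hSe : Sm K d B = S := by
    refine le_antisymm (sSup_le fun Q hQ => hSm Q (Finset.mem_filter.2 hQ)) (le_sSup ⟨hS.1, hS.2⟩)
  rw [hSe] at hRe
  have hle : ∀ Q ∈ d, Q ≤ top d := fun Q hQ => le_sSup (Finset.mem_coe.2 hQ)
  have hKR : K B ≤ R := by rw [hRe]; exact le_sup_left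
  have hlt : B < R := lt_of_lt_of_le k2 hKR
  have hRB : R ≤ Subgroup.normalizer (B : Set G) := by
    rw [hRe]
    exact sup_le k3 ((hle S hS.1).trans ht)
  have hsets : ∀ Q, (Q ∈ toggle d R ∧ ¬ K B ≤ Q) ↔ (Q ∈ d ∧ ¬ K B ≤ Q) := by
    intro Q
    by_cases h : Q = R
    · subst h
      exact ⟨fun h => absurd hKR h.2, fun h => absurd hKR h.2⟩
    · rw [mem_tog h]
  refine ⟨?_, hlt, ?_, ?_, ?_, ?_⟩
  · rw [hRe, sup_comm]
    exact IsPGroup.to_sup_of_normal_right' (hPp S hS.1) k1 (((hle S hS.1).trans ht).trans k4)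
  · intro D hD
    by_cases h : K B ≤ D
    · right
      rw [hRe]
      refine sup_le h ?_
      rcases chain_total hch hD hS.1 with h' | h'
      · exact absurd (h.trans h') hS.2
      · exact h'
    · left
      rw [hRe]
      exact (hSm D (Finset.mem_filter.2 ⟨hD, h⟩)).trans le_sup_right
  · refine ⟨⟨(mem_tog hlt.ne).2 hBd, hB0, Or.inl hC⟩, ?_⟩
    rintro Q ⟨hQ, hQ0, hQb⟩
    by_cases h : Q = R
    · rw [h]
      exact hlt.le
    · have hQd := (mem_tog h).1 hQ
      rcases chain_total hch hBd hQd with h' | h'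
      · exact h'
      · by_contra hnle
        have hQB : Q < B := lt_of_le_of_ne h' (fun e => hnle e.ge)
        have hnb : ¬ bd C d Q := fun hb => hnle (hmin Q hb)
        have hCQ : C Q := by
          by_contra hc
          exact hnb ⟨hQd, hQ0, Or.inl hc⟩
        have htQ : top d ≤ Subgroup.normalizer (Q : Set G) := by
          by_contra hc
          exact hnb ⟨hQd, hQ0, Or.inr hc⟩
        rcases hQb with hQb | hQb
        · exact hQb hCQ
        · apply hQb
          have hKQ := k5 Q (hPp Q hQd) hCQ hQB ((hle B hBd).trans htQ)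
          refine top_tog_le htQ ?_
          rw [hRe]
          exact sup_le hKQ ((hle S hS.1).trans htQ)
  · have h1 : top (toggle d R) ≤ Subgroup.normalizer (B : Set G) := top_tog_le ht hRB
    rw [Rr, if_pos h1]
    have h2 : Sm K (toggle d R) B = Sm K d B := by
      unfold Sm
      congr 1
      ext Q
      exact hsets Q
    rw [h2, hSe, hRe]
  · intro d' hd' g hg
    rw [mem_stab'] at hg
    have h1 := hg B (hd' B hBd hlt.ne)
    have h2 := hg S (hd' S hS.1 (fun e => hS.2 (e ▸ hKR)))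
    rw [hRe]
    exact norm_sup (k4 h1) h2

theorem tpA [DecidableEq (Subgroup G)] (hPp : ∀ D ∈ d, IsPGroup ℓ D)
    (hch : IsChain (· ≤ ·) (d : Set (Subgroup G))) (hB : IsL C d B)
    (ht : ¬ top d ≤ Subgroup.normalizer (B : Set G)) : TP ℓ C K d B (Rr K d B) := by
  classical
  obtain ⟨⟨hBd, hB0, hBC⟩, hmin⟩ := hB
  have hR : Rr K d B = Tm d B ⊓ Subgroup.normalizer (B : Set G) := by rw [Rr, if_neg ht]
  rw [hR]
  obtain ⟨R, hRe⟩ : ∃ R, R = Tm d B ⊓ Subgroup.normalizer (B : Set G) := ⟨_, rfl⟩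
  rw [← hRe]
  obtain ⟨htd, hle⟩ := top_mem hch ⟨B, hBd⟩
  obtain ⟨T, hT, hTm⟩ := exists_least (d := d.filter (fun Q => ¬ Q ≤ Subgroup.normalizer (B : Set G)))
    (hch.mono (fun y hy => Finset.mem_of_mem_filter y hy)) ⟨top d, Finset.mem_filter.2 ⟨htd, ht⟩⟩
  rw [Finset.mem_filter] at hT
  have hTe : Tm d B = T := by
    refine le_antisymm (sInf_le ⟨hT.1, hT.2⟩) (le_sInf fun Q hQ => hTm Q (Finset.mem_filter.2 hQ))
  rw [hTe] at hRe
  have hRB : R ≤ Subgroup.normalizer (B : Set G) := by rw [hRe]; exact inf_le_right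
  have hRT : R ≤ T := by rw [hRe]; exact inf_le_left
  have hRT' : R < T := lt_of_le_of_ne hRT (fun e => hT.2 (e ▸ hRB))
  have hBT : B < T := by
    rcases chain_total hch hBd hT.1 with h | h
    · exact lt_of_le_of_ne h (fun e => hT.2 (by rw [← e]; exact Subgroup.le_normalizer))
    · exact absurd (h.trans Subgroup.le_normalizer) hT.2
  have hlt : B < R := by
    refine lt_of_le_of_ne ?_ ?_
    · rw [hRe]
      exact le_inf hBT.le Subgroup.le_normalizer
    · intro e
      obtain ⟨x, hx1, hx2, hx3⟩ := grow (hPp T hT.1) hBT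
      apply hx2
      rw [e, hRe]
      exact ⟨hx1, hx3⟩
  have htop : top (toggle d R) = top d := by
    apply le_antisymm
    · exact top_tog_le le_rfl (hRT.trans (hle T hT.1))
    · refine sSup_le fun Q hQ => ?_
      by_cases h : Q = R
      · rw [h]
        exact hRT.trans (le_sSup (Finset.mem_coe.2 ((mem_tog hRT'.ne').2 hT.1)))
      · exact le_sSup (Finset.mem_coe.2 ((mem_tog h).2 (Finset.mem_coe.1 hQ)))
  have hsets : ∀ Q, (Q ∈ toggle d R ∧ ¬ Q ≤ Subgroup.normalizer (B : Set G)) ↔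
      (Q ∈ d ∧ ¬ Q ≤ Subgroup.normalizer (B : Set G)) := by
    intro Q
    by_cases h : Q = R
    · subst h
      exact ⟨fun h => absurd hRB h.2, fun h => absurd hRB h.2⟩
    · rw [mem_tog h]
  refine ⟨?_, hlt, ?_, ?_, ?_, ?_⟩
  · exact (hPp T hT.1).to_le hRT
  · intro D hD
    by_cases h : D ≤ Subgroup.normalizer (B : Set G)
    · left
      rw [hRe]
      refine le_inf ?_ h
      rcases chain_total hch hD hT.1 with h' | h'
      · exact h'
      · exact absurd (h'.trans h) hT.2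
    · right
      exact hRT.trans (hTm D (Finset.mem_filter.2 ⟨hD, h⟩))
  · refine ⟨⟨(mem_tog hlt.ne).2 hBd, hB0, Or.inr (by rw [htop]; exact ht)⟩, ?_⟩
    rintro Q ⟨hQ, hQ0, hQb⟩
    by_cases h : Q = R
    · rw [h]
      exact hlt.le
    · rw [htop] at hQb
      exact hmin Q ⟨(mem_tog h).1 hQ, hQ0, hQb⟩
  · rw [Rr, htop, if_neg ht]
    have h2 : Tm (toggle d R) B = Tm d B := by
      unfold Tm
      congr 1
      ext Q
      exact hsets Q
    rw [h2, hTe, hRe]
  · intro d' hd' g hg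
    rw [mem_stab'] at hg
    have h1 := hg B (hd' B hBd hlt.ne)
    have h2 := hg T (hd' T hT.1 hRT'.ne')
    rw [hRe]
    exact norm_norm h2 h1

theorem stab_tog [DecidableEq (Subgroup G)] {R : Subgroup G}
    (h : ∀ d' : Finset (Subgroup G), (∀ Q ∈ d, Q ≠ R → Q ∈ d') →
      stab d' ≤ Subgroup.normalizer (R : Set G)) : stab (toggle d R) = stab d := by
  have h1 := h (toggle d R) (fun Q hQ hne => (mem_tog hne).2 hQ)
  have h2 := h d (fun Q hQ _ => hQ)
  apply le_antisymm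
  · intro g hg
    rw [mem_stab']
    intro D hD
    by_cases hDR : D = R
    · rw [hDR]
      exact h1 hg
    · exact (mem_stab'.1 hg) D ((mem_tog hDR).2 hD)
  · intro g hg
    rw [mem_stab']
    intro D hD
    by_cases hDR : D = R
    · rw [hDR]
      exact h2 hg
    · exact (mem_stab'.1 hg) D ((mem_tog hDR).1 hD)

theorem filt_inst {α : Type*} (s : Finset α) (f : α → ℤ) (p : α → Prop) (i₁ i₂ : DecidablePred p) :
    ∑ x ∈ @Finset.filter _ p i₁ s, f x = ∑ x ∈ @Finset.filter _ p i₂ s, f x := by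
  rw [Subsingleton.elim i₁ i₂]

/-- **XCH** -/
theorem xch : XchStmt := by
  classical
  intro ℓ _ D _ _ C hC w
  have hex : ∀ Q : Subgroup D, ∃ K : Subgroup D, IsPGroup ℓ Q → Q ≠ ⊥ → ¬ C Q →
      (IsPGroup ℓ K ∧ Q < K ∧ K ≤ Subgroup.normalizer (Q : Set D) ∧
      Subgroup.normalizer (Q : Set D) ≤ Subgroup.normalizer (K : Set D) ∧
      ∀ Q' : Subgroup D, IsPGroup ℓ Q' → C Q' → Q' < Q → Q ≤ Subgroup.normalizer (Q' : Set D) →
        K ≤ Subgroup.normalizer (Q' : Set D)) := by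
    intro Q
    by_cases h : IsPGroup ℓ Q ∧ Q ≠ ⊥ ∧ ¬ C Q
    · obtain ⟨K, hK⟩ := hC Q h.1 h.2.1 h.2.2
      exact ⟨K, fun _ _ _ => hK⟩
    · exact ⟨⊥, fun h1 h2 h3 => absurd ⟨h1, h2, h3⟩ h⟩
  choose K hK' using hex
  have hK : HK C K ℓ := hK'
  obtain ⟨P, hP⟩ : ∃ P, P = psubIn ℓ (⊤ : Subgroup D) := ⟨_, rfl⟩
  have hPm : ∀ Q, Q ∈ P ↔ IsPGroup ℓ Q := by
    intro Q
    rw [hP, mem_psubIn]
    exact ⟨fun h => h.2, fun h => ⟨le_top, h⟩⟩
  rw [← hP]
  obtain ⟨good, hgood⟩ : ∃ good : Finset (Subgroup D) → Prop, good = fun d => ∀ Q ∈ d,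
      (Q ≠ ⊥ → C Q) ∧ ∀ Q' ∈ d, Q' ≤ Subgroup.normalizer (Q : Set D) := ⟨_, rfl⟩
  have hnot : ∀ d ∈ chainsOn P ⊥, (¬ good d ↔ ∃ Q, bd C d Q) := by
    intro d hd
    rw [mem_chainsOn] at hd
    obtain ⟨htd, hle⟩ := top_mem hd.2.2 ⟨⊥, hd.2.1⟩
    constructor
    · intro h
      rw [hgood] at h
      push Not at h
      obtain ⟨Q, hQ, h⟩ := h
      by_cases h1 : Q ≠ ⊥ → C Q
      · obtain ⟨Q', hQ', h2⟩ := h h1
        have hQ0 : Q ≠ ⊥ := by
          rintro rfl
          exact h2 (le_norm_bot Q')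
        exact ⟨Q, hQ, hQ0, Or.inr fun h3 => h2 ((hle Q' hQ').trans h3)⟩
      · push Not at h1
        exact ⟨Q, hQ, h1.1, Or.inl h1.2⟩
    · rintro ⟨Q, hQ, hQ0, h⟩ hg
      rw [hgood] at hg
      rcases h with h | h
      · exact h ((hg Q hQ).1 hQ0)
      · exact h ((hg Q hQ).2 _ htd)
  obtain ⟨Sb, hSb⟩ : ∃ Sb, Sb = (chainsOn P ⊥).filter (fun d => ¬ good d) := ⟨_, rfl⟩
  have hexB : ∀ d : Finset (Subgroup D), ∃ B, d ∈ Sb → IsL C d B := by
    intro d
    by_cases hd : d ∈ Sb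
    · rw [hSb, Finset.mem_filter] at hd
      obtain ⟨Q, hQ⟩ := (hnot d hd.1).1 hd.2
      obtain ⟨B, hB, hmin⟩ := exists_least (d := d.filter (fun Q => bd C d Q))
        ((mem_chainsOn.1 hd.1).2.2.mono (fun y hy => Finset.mem_of_mem_filter y hy))
        ⟨Q, Finset.mem_filter.2 ⟨hQ.1, hQ⟩⟩
      rw [Finset.mem_filter] at hB
      exact ⟨B, fun _ => ⟨hB.2, fun Q' hQ' => hmin Q' (Finset.mem_filter.2 ⟨hQ'.1, hQ'⟩)⟩⟩
    · exact ⟨⊥, fun h => absurd h hd⟩
  choose B hB using hexB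
  have htp : ∀ d ∈ Sb, TP ℓ C K d (B d) (Rr K d (B d)) := by
    intro d hd
    have h1 := hB d hd
    rw [hSb, Finset.mem_filter, mem_chainsOn] at hd
    have hp : ∀ Q ∈ d, IsPGroup ℓ Q := fun Q hQ => (hPm Q).1 (hd.1.1 hQ)
    by_cases ht : top d ≤ Subgroup.normalizer (B d : Set D)
    · exact tpB hK hp hd.1.2.2 h1 ht
    · exact tpA hp hd.1.2.2 h1 ht
  have hmem : ∀ d ∈ Sb, toggle d (Rr K d (B d)) ∈ Sb := by
    intro d hd
    have h1 := htp d hd
    rw [hSb, Finset.mem_filter] at hd ⊢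
    have hd' := mem_chainsOn.1 hd.1
    have hRb : Rr K d (B d) ≠ ⊥ := (bot_le.trans_lt h1.lt).ne'
    have h2 : toggle d (Rr K d (B d)) ∈ chainsOn P ⊥ := by
      rw [mem_chainsOn]
      refine ⟨?_, (mem_tog (Ne.symm hRb)).2 hd'.2.1, ?_⟩
      · intro Q hQ
        by_cases h : Q = Rr K d (B d)
        · rw [h, hPm]
          exact h1.pg
        · exact hd'.1 ((mem_tog h).1 hQ)
      · unfold toggle
        split_ifs with h3
        · exact hd'.2.2.mono (fun y hy => Finset.mem_of_mem_erase hy)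
        · rw [Finset.coe_insert]
          refine hd'.2.2.insert ?_
          intro Q hQ _
          exact (h1.cmp Q hQ).symm
    exact ⟨h2, (hnot _ h2).2 ⟨_, h1.isl.1⟩⟩
  have key : ∑ d ∈ Sb, (-1) ^ (d.card + 1) * w (stab d) = 0 := by
    apply sum_toggle Sb (fun d => Rr K d (B d))
    · exact hmem
    · intro d hd
      have h1 := htp d hd
      have h2 := hB _ (hmem d hd)
      have h3 : B (toggle d (Rr K d (B d))) = B d := h2.unique C h1.isl
      change Rr K (toggle d (Rr K d (B d))) (B (toggle d (Rr K d (B d)))) = _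
      rw [h3, h1.fix]
    · intro d hd
      have h1 := htp d hd
      rw [stab_tog h1.stb]
      have hc : (-1 : ℤ) ^ ((toggle d (Rr K d (B d))).card + 1) = - (-1) ^ (d.card + 1) := by
        by_cases hm : Rr K d (B d) ∈ d
        · have et : toggle d (Rr K d (B d)) = d.erase (Rr K d (B d)) := by rw [toggle, if_pos hm]
          rw [et, Finset.card_erase_of_mem hm]
          have : 0 < d.card := Finset.card_pos.2 ⟨_, hm⟩
          obtain ⟨k, hk⟩ : ∃ k, d.card = k + 1 := ⟨d.card - 1, by omega⟩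
          rw [hk, Nat.add_sub_cancel]
          ring
        · have et : toggle d (Rr K d (B d)) = insert (Rr K d (B d)) d := by rw [toggle, if_neg hm]
          rw [et, Finset.card_insert_of_notMem hm]
          ring
      rw [hc]
      ring
  rw [← Finset.sum_filter_add_sum_filter_not (chainsOn P ⊥) good, ← hSb, key, add_zero]
  subst hgood
  exact filt_inst _ _ _ _ _

end main

end Pool.Agent.PP.X1.H64
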