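import Pool.Agent.Helper12_AWB.B100

/-! Copy (generated) of the module `Pool.Agent.Helper83_X1.Stf` with import lines for the bundle Helper12_AWB. -/

/-!
# Squad X1, module STF: the stabilisers of flags
-/

set_option autoImplicit false

noncomputable section

namespace Pool.Agent.PP.X1.H83

open Pool.Agent.Helper51_AWC Pool.Agent.Helper79_WRA Pool.Agent.PP

section

variable {D : Type} [Group D] {M : Subgroup D}

theorem coe_mem_up {A : Subgroup M} {u : M} : (u : D) ∈ up A ↔ u ∈ A := by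
  constructor
  · rintro ⟨y, hy, hyu⟩
    have : y = u := Subtype.ext hyu
    rwa [← this]
  · intro h
    exact ⟨u, h, rfl⟩

theorem up_le (A : Subgroup M) : up A ≤ M := by
  rintro _ ⟨y, _, rfl⟩
  exact y.2

theorem up_mono {A A' : Subgroup M} (h : A ≤ A') : up A ≤ up A' := Subgroup.map_mono h

theorem mem_norm [M.Normal] {A : Subgroup M} {x : D} :
    x ∈ Subgroup.normalizer ((up A : Subgroup D) : Set D) ↔
      ∀ u : M, (MulAut.conjNormal x : MulAut M) u ∈ A ↔ u ∈ A := by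
  rw [Subgroup.mem_normalizer_iff]
  have key : ∀ u : M, x * (u : D) * x⁻¹ ∈ up A ↔ (MulAut.conjNormal x : MulAut M) u ∈ A := by
    intro u
    rw [← coe_mem_up, MulAut.conjNormal_apply]
  constructor
  · intro h u
    rw [← key, ← h, coe_mem_up]
  · intro h y
    constructor
    · rintro ⟨u, hu, rfl⟩
      exact (key u).2 ((h u).2 hu)
    · intro hy
      have hyM : y ∈ M := by
        have h1 := up_le _ hy
        have h2 := ‹M.Normal›.conj_mem _ h1 x⁻¹
        have h3 : x⁻¹ * (x * y * x⁻¹) * x⁻¹⁻¹ = y := by group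
        rwa [h3] at h2
      exact coe_mem_up (u := ⟨y, hyM⟩).2 ((h _).1 ((key ⟨y, hyM⟩).1 hy))

end

theorem inf_mem {r : ℕ} (f : Finset (Finset (Fin r)))
    (hf : IsChain (· ⊆ ·) (f : Set (Finset (Fin r)))) (hne : f.Nonempty) : f.inf id ∈ f := by
  obtain ⟨J, hJ, hmin⟩ := f.exists_min_image Finset.card hne
  have h1 : ∀ K ∈ f, J ⊆ K := by
    intro K hK
    rcases hf.total hJ hK with h | h
    · exact h
    · rw [Finset.eq_of_subset_of_card_le h (hmin K hK)]
  have h2 : f.inf id = J :=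
    le_antisymm (Finset.inf_le (f := id) hJ) (Finset.le_inf fun K hK => h1 K hK)
  rw [h2]
  exact hJ

theorem UJ_univ {ℓ : ℕ} {G : Type} [Group G] (R : RGD ℓ G) : R.UJ Finset.univ = ⊥ := by
  have h1 : R.pos \ R.lev Finset.univ = ∅ := by
    rw [Set.eq_empty_iff_forall_notMem]
    rintro b ⟨hb, hn⟩
    apply hn
    refine ⟨hb.1, ?_⟩
    obtain ⟨k, -, rfl⟩ := hb.2
    refine Submodule.sum_mem _ fun i _ => Submodule.smul_mem _ _ (Submodule.subset_span ?_)
    exact ⟨i, Finset.mem_coe.2 (Finset.mem_univ i), rfl⟩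
  rw [RGD.UJ, h1, R.gp_empty]

theorem B_le_PJ {ℓ : ℕ} {G : Type} [Group G] (R : RGD ℓ G) (J : Finset (Fin R.r)) :
    R.B ≤ R.PJ J :=
  sup_le_sup_left (R.gp_mono Set.subset_union_left) _

theorem UJ_le_PJ {ℓ : ℕ} {G : Type} [Group G] (R : RGD ℓ G) (J : Finset (Fin R.r)) :
    R.UJ J ≤ R.PJ J :=
  (R.gp_mono (Set.sdiff_subset.trans Set.subset_union_left)).trans le_sup_right

theorem UJ_le_U {ℓ : ℕ} {G : Type} [Group G] (R : RGD ℓ G) (J : Finset (Fin R.r)) :
    R.UJ J ≤ R.U :=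
  R.gp_mono Set.sdiff_subset

theorem stf (hbas : BasStmt) (hpar : ParStmt) (hprx : PrmxStmt) : StfStmt := by
  intro ℓ _ D _ _ M _ R hR f hf
  obtain ⟨b1, -, -, b4, b5, b6, b7, -, -⟩ := hbas ℓ D M R hR
  set J₀ : Finset (Fin R.r) := f.inf id with hJ₀
  have hle : ∀ J ∈ f, J₀ ⊆ J := fun J hJ => Finset.inf_le (f := id) hJ
  -- the stabiliser normalises the smallest unipotent radical
  have hN : Df R f ≤ Subgroup.normalizer ((up (R.UJ J₀) : Subgroup D) : Set D) := by
    rcases f.eq_empty_or_nonempty with h | h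
    · have h1 : J₀ = Finset.univ := by
        rw [hJ₀, h, Finset.inf_empty, Finset.top_eq_univ]
      rw [h1, UJ_univ]
      intro x _
      rw [mem_norm]
      intro u
      rw [Subgroup.mem_bot, Subgroup.mem_bot]
      exact (MulAut.conjNormal x : MulAut M).map_eq_one_iff
    · exact iInf₂_le J₀ (inf_mem f hf.2 h)
  have hP : up (R.PJ J₀) ≤ Df R f := by
    refine le_iInf₂ fun J hJ => ?_
    have h1 : R.PJ J₀ ≤ R.PJ J := ((hpar ℓ M R J₀).2.2.2.1 J).2 (hle J hJ)
    exact (up_mono h1).trans (by rw [← b5 J]; exact inf_le_left)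
  have hB : up R.B ≤ Df R f := (up_mono (B_le_PJ R J₀)).trans hP
  refine ⟨le_antisymm ?_ (le_inf hP (up_le _)), ?_, hB, ?_, ?_⟩
  · rw [← b5 J₀]
    exact inf_le_inf_right _ hN
  · intro x hx
    -- the conjugate of `U`
    have hpx : IsPGroup ℓ ((up R.U).map (MulAut.conj x).toMonoidHom) := b7.map _
    obtain ⟨-, g, hg, hgx⟩ := b1 _ hpx
    have hg2 : ∀ u ∈ up R.U, (g * x) * u * (g * x)⁻¹ ∈ up R.U := by
      intro u hu
      have h1 := hgx _ (Subgroup.mem_map_of_mem (MulAut.conj x).toMonoidHom hu)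
      have h2 : g * ((MulAut.conj x).toMonoidHom u) * g⁻¹ = (g * x) * u * (g * x)⁻¹ := by
        change g * (x * u * x⁻¹) * g⁻¹ = _
        group
      rwa [h2] at h1
    have hgP : (⟨g, hg⟩ : M) ∈ R.PJ J₀ := by
      refine (hpar ℓ M R J₀).2.1 _ fun u hu => ?_
      have hxN := Subgroup.mem_normalizer_iff.1 ((Subgroup.normalizer _).inv_mem (hN hx))
      have h1 : x⁻¹ * (u : D) * x⁻¹⁻¹ ∈ up (R.UJ J₀) := (hxN _).1 (coe_mem_up.2 hu)
      have h2 := hg2 _ (up_mono (UJ_le_U R J₀) h1)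
      have h3 : (g * x) * (x⁻¹ * (u : D) * x⁻¹⁻¹) * (g * x)⁻¹ =
          (((⟨g, hg⟩ : M) * u * (⟨g, hg⟩ : M)⁻¹ : M) : D) := by
        push_cast
        group
      rw [h3] at h2
      exact coe_mem_up.1 h2
    have hgu : g ∈ up (R.PJ J₀) := coe_mem_up (u := ⟨g, hg⟩).2 hgP
    refine ⟨g⁻¹, (up _).inv_mem hgu, g * x, ⟨(Df R f).mul_mem (hP hgu) hx, ?_⟩, by group⟩
    -- `g x` normalises `U`
    have hfin : (up R.U : Subgroup D).map (MulAut.conj (g * x)).toMonoidHom = up R.U := by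
      apply Subgroup.eq_of_le_of_card_ge
      · rintro _ ⟨u, hu, rfl⟩
        exact hg2 u hu
      · rw [Subgroup.card_map_of_injective (MulAut.conj (g * x)).injective]
    change g * x ∈ Subgroup.normalizer ((up R.U : Subgroup D) : Set D)
    exact Subgroup.mem_normalizer_iff_map_conj_eq.2 hfin
  · intro hne
    exact ⟨hf.1 _ (inf_mem f hf.2 hne), (up_mono (UJ_le_PJ R J₀)).trans hP, hN⟩
  · intro x hx
    have hα : ∀ u : M, (MulAut.conjNormal x : MulAut M) u ∈ R.U ↔ u ∈ R.U := b4 x hx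
    obtain ⟨hpi, -, -⟩ := hprx ℓ M R (MulAut.conjNormal x) hα
    constructor
    · intro hxf J hJ
      have hxJ : x ∈ Subgroup.normalizer ((up (R.UJ J) : Subgroup D) : Set D) :=
        (iInf₂_le J hJ : Df R f ≤ _) hxf
      rw [mem_norm] at hxJ
      have h1 : R.UJ (J.map (piA R (MulAut.conjNormal x : MulAut M)).toEmbedding) = R.UJ J := by
        ext v
        obtain ⟨u, rfl⟩ := (MulAut.conjNormal x : MulAut M).surjective v
        rw [hxJ u]
        exact (hpi J u).2
      refine Finset.Subset.antisymm ?_ ?_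
      · exact ((hpar ℓ M R J).2.2.2.2.1 _).1 h1.ge
      · exact ((hpar ℓ M R _).2.2.2.2.1 J).1 h1.le
    · intro h
      refine Subgroup.mem_iInf.2 fun J => Subgroup.mem_iInf.2 fun hJ => ?_
      rw [mem_norm]
      intro u
      have := (hpi J u).2
      rwa [h J hJ] at this

end Pool.Agent.PP.X1.H83
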