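import Pool.Agent.Helper12_AWB.B100
import Pool.Agent.Helper94_PP.Bridge
import Pool.Agent.Helper66_AWS.S051

/-! Copy (generated) of the module `Pool.Agent.Helper89_X1.Num` with import lines for the bundle Helper12_AWB. -/

/-!
# Squad X1, module NUM: the number of irreducible modular characters of the stabiliser of a flag
-/

open scoped BigOperators

set_option linter.unusedSectionVars false

noncomputable section

namespace Pool.Agent.PP.X1.H89

open Pool.Agent.Helper51_AWC Pool.Agent.Helper79_WRA Pool.Agent.PP Pool.Agent.PP.X1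

section general

theorem up_le' {D : Type} [Group D] {M : Subgroup D} {A : Subgroup M} {x : D} (h : x ∈ up A) :
    x ∈ M := by
  obtain ⟨y, _, rfl⟩ := h
  exact y.2

variable {F : Type} [Field F]

theorem ev_equiv {K K' : Type} [Group K] [Group K'] (e : K ≃* K') {n : ℕ}
    (ρ : K' →* Matrix (Fin n) (Fin n) F) (a : K' → F) :
    ev (ρ.comp e.toMonoidHom) (fun t => a (e t)) = ev ρ a :=
  finsum_comp_equiv (f := fun t => a t • ρ t) e.toEquiv

theorem irr_equiv {K K' : Type} [Group K] [Group K'] (e : K ≃* K') {n : ℕ}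
    {ρ : K' →* Matrix (Fin n) (Fin n) F} (h : IsIrr ρ) : IsIrr (ρ.comp e.toMonoidHom) := by
  refine ⟨h.1, ?_⟩
  rw [← h.2]
  congr 1
  ext y
  constructor
  · rintro ⟨x, rfl⟩
    exact ⟨e x, rfl⟩
  · rintro ⟨x, rfl⟩
    refine ⟨e.symm x, ?_⟩
    change ρ (e (e.symm x)) = ρ x
    rw [e.apply_symm_apply]

variable {D : Type} [Group D] [Finite D]

/-- the action of the idempotent of the centre -/
theorem act_ez {M : Subgroup D} (P : Subgroup M) (hZ : ∀ z ∈ Subgroup.center D, ∃ h : z ∈ M,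
    (⟨z, h⟩ : M) ∈ P) (hc : (Nat.card (Subgroup.center D) : F) ≠ 0)
    (ζ : Subgroup.center D →* F) (φ : P → F) :
    actF (fun t : P => ez ζ t) φ = φ ↔
      ∀ (z : Subgroup.center D) (g g' : P), ((g' : M) : D) = z * ((g : M) : D) →
        ζ z * φ g' = φ g := by
  have hZM : ∀ z : Subgroup.center D, (z : D) ∈ M := fun z => (hZ z z.2).choose
  have hZP : ∀ z : Subgroup.center D, (⟨(z : D), hZM z⟩ : M) ∈ P := fun z => (hZ z z.2).choose_spec
  let j : Subgroup.center D → P := fun z => ⟨⟨z, hZM z⟩, hZP z⟩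
  have hj : Function.Injective j := fun a b hab =>
    Subtype.ext (congrArg (fun t : P => ((t : M) : D)) hab)
  have hact : ∀ x : P, actF (fun t : P => ez ζ t) φ x =
      ∑ᶠ z : Subgroup.center D, ζ z / (Nat.card (Subgroup.center D) : F) * φ (j z * x) := by
    intro x
    unfold actF
    rw [Pool.Agent.PP.BN.H66.sum_inj j hj]
    · refine finsum_congr fun z => ?_
      have h1 : ez ζ ((j z : M) : D) = ζ z / (Nat.card (Subgroup.center D) : F) := by
        unfold ez
        rw [dif_pos z.2]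
      change ez ζ ((j z : M) : D) * _ = _
      rw [h1]
    · intro t ht
      have h7 : ((t : M) : D) ∉ Subgroup.center D := fun h8 => ht ⟨⟨_, h8⟩, rfl⟩
      have h8 : ez ζ ((t : M) : D) = 0 := by
        unfold ez
        rw [dif_neg h7]
      change ez ζ ((t : M) : D) * _ = 0
      rw [h8, zero_mul]
  have hfin : Fintype (Subgroup.center D) := Fintype.ofFinite _
  constructor
  · intro h z g g' hgg
    have hg' : g' = j z * g := Subtype.ext (Subtype.ext hgg)
    rw [hg']
    have h1 := hact g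
    have h2 := hact (j z * g)
    rw [h] at h1 h2
    rw [finsum_eq_sum_of_fintype] at h1 h2
    rw [h2, h1, Finset.mul_sum]
    have h3 := Equiv.sum_comp (Equiv.mulRight z) (fun y : Subgroup.center D =>
      ζ y / (Nat.card (Subgroup.center D) : F) * φ (j y * g))
    rw [← h3]
    refine Finset.sum_congr rfl fun y _ => ?_
    have e1 : j (y * z) = j y * j z := rfl
    rw [Equiv.coe_mulRight, map_mul, e1, mul_assoc (j y)]
    ring
  · intro h
    funext x
    rw [hact, finsum_eq_sum_of_fintype]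
    have h1 : ∀ z : Subgroup.center D,
        ζ z / (Nat.card (Subgroup.center D) : F) * φ (j z * x) =
          φ x / (Nat.card (Subgroup.center D) : F) := by
      intro z
      rw [← h z x (j z * x) rfl]
      ring
    rw [Finset.sum_congr rfl fun z _ => h1 z, Finset.sum_const, Finset.card_univ,
      ← Nat.card_eq_fintype_card, nsmul_eq_mul, mul_div_cancel₀ _ hc]

/-- the condition on the centre in the two forms -/
theorem ovr_iff {M : Subgroup D} (P : Subgroup M) (ζ : Subgroup.center D →* F) (φ : P → F)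
    (Z : Subgroup M) (hZ : Z = (Subgroup.center D).comap M.subtype) (hZM : Subgroup.center D ≤ M)
    (ζ' : M → F) (hζ' : ∀ z (hz : ((z : M) : D) ∈ Subgroup.center D), ζ' z = (ζ ⟨z, hz⟩)⁻¹) :
    Ovr P Z ζ' φ ↔ ∀ (z : Subgroup.center D) (g g' : P), ((g' : M) : D) = z * ((g : M) : D) →
        ζ z * φ g' = φ g := by
  have hne : ∀ z : Subgroup.center D, ζ z ≠ 0 := by
    intro z h0
    have h1 : ζ (z * z⁻¹) = 1 := by rw [mul_inv_cancel, map_one]
    rw [map_mul, h0, zero_mul] at h1
    exact zero_ne_one h1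
  constructor
  · intro h z g g' hgg
    have h1 := h ⟨z, hZM z.2⟩ (by rw [hZ]; exact z.2) g g' (Subtype.ext hgg)
    rw [h1, hζ' _ z.2, ← mul_assoc, mul_inv_cancel₀ (hne _), one_mul]
  · intro h z hz g g' hgg
    rw [hZ] at hz
    have hz' : ((z : M) : D) ∈ Subgroup.center D := hz
    have h1 := h ⟨z, hz'⟩ g g' (congrArg (fun t : M => (t : D)) hgg)
    rw [hζ' z hz', ← h1, ← mul_assoc, inv_mul_cancel₀ (hne _), one_mul]

end general

/-- the smallest member of a flag -/
theorem inf_mem {r : ℕ} {f : Finset (Finset (Fin r))} (hf : Flag f) (hne : f.Nonempty) :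
    f.inf id ∈ f := by
  obtain ⟨J, hJ, hmin⟩ := f.exists_min_image Finset.card hne
  have h1 : ∀ K ∈ f, J ⊆ K := by
    intro K hK
    by_cases h : J = K
    · rw [h]
    · rcases hf.2 hJ hK h with h2 | h2
      · exact h2
      · exact (Finset.eq_of_subset_of_card_le h2 (hmin K hK)).ge
  have h2 : f.inf id = J := le_antisymm (Finset.inf_le (f := id) hJ) (Finset.le_inf h1)
  rw [h2]
  exact hJ

open Classical in
theorem num : CnvStmt → CsfStmt → AlxStmt → BrxStmt → NlqStmt → StfStmt → BasStmt → NumStmt := by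
  intro cnv csf alx brx nlq stf bas ℓ _ F _ hF D _ _ M _ R h ζ e he hez he0 hpos f hf τ hτ
  obtain ⟨s1, s2, s3, s4, s5⟩ := stf ℓ D M R h f hf
  obtain ⟨b1, b2, b3, b4, b5, b6, b7, b8, b9⟩ := bas ℓ D M R h
  obtain ⟨J, hJ⟩ : ∃ J : Finset (Fin R.r), J = f.inf id := ⟨_, rfl⟩
  rw [← hJ] at s1 s2 s4 ⊢
  have hchar := hF.char
  have hcard : (Nat.card (Subgroup.center D) : F) ≠ 0 := by
    intro h0
    exact b2 ((CharP.cast_eq_zero_iff F ℓ _).1 h0)
  obtain ⟨Z, hZ⟩ : ∃ Z : Subgroup M, Z = (Subgroup.center D).comap M.subtype := ⟨_, rfl⟩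
  obtain ⟨ζ', hζ'⟩ : ∃ ζ' : M → F, ζ' = fun m : M => if hm : (m : D) ∈ Subgroup.center D then
    (ζ ⟨m, hm⟩)⁻¹ else 1 := ⟨_, rfl⟩
  have hζ'1 : ∀ z (hz : ((z : M) : D) ∈ Subgroup.center D), ζ' z = (ζ ⟨z, hz⟩)⁻¹ := by
    intro z hz
    rw [hζ']
    exact dif_pos hz
  have hζne : ∀ z : Subgroup.center D, ζ z ≠ 0 := by
    intro z h0
    have h1 : ζ (z * z⁻¹) = 1 := by rw [mul_inv_cancel, map_one]
    rw [map_mul, h0, zero_mul] at h1
    exact zero_ne_one h1
  have hζ'0 : ∀ z ∈ Z, ζ' z ≠ 0 := by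
    intro z hz
    rw [hZ] at hz
    rw [hζ'1 z hz]
    exact inv_ne_zero (hζne _)
  have hZT : Z ≤ R.T := by
    intro z hz
    rw [hZ] at hz
    exact h.zT z hz
  have hZc : Z ≤ Subgroup.center M := by
    intro z hz
    rw [hZ] at hz
    rw [Subgroup.mem_center_iff]
    intro g
    apply Subtype.ext
    exact Subgroup.mem_center_iff.1 (show (z : D) ∈ Subgroup.center D from hz) g
  have hZP : ∀ (J : Finset (Fin R.r)), ∀ z ∈ Subgroup.center D, ∃ h : z ∈ M,
      (⟨z, h⟩ : M) ∈ R.PJ J := by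
    intro J z hz
    refine ⟨h.zM hz, ?_⟩
    exact (le_sup_left : R.T ≤ R.PJ J) (h.zT ⟨z, h.zM hz⟩ hz)
  -- the main step
  have key : ∀ a : D → F, IsCl a → (∀ x, x ∉ M → a x = 0) → lnum (Df R f) e = lnum (Df R f) a →
      (∀ φ ∈ IBr F (R.PJ J), (actF (fun t : R.PJ J => a t) φ = φ ↔
        Ovr (R.PJ J) Z ζ' φ ∧ (f = ∅ → SZJ R φ))) →
      (Nat.card (Df R f ⊓ AD R : Subgroup D) : ℂ) * Nat.card R.B * (lnum (Df R f) e : ℂ) =
      ∑ᶠ (x : D) (y : D), if x ∈ Df R f ⊓ AD R ∧ y ∈ Df R f ⊓ AD R ∧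
        x * y * x⁻¹ * y⁻¹ ∈ up R.B then
      ∑ᶠ lam ∈ {lam : R.B → F | lam ∈ IBr F R.B ∧
          (∀ (z : Subgroup.center D) (g g' : R.B), ((g' : M) : D) = z * ((g : M) : D) →
            ζ z * lam g' = lam g) ∧
          Fxd R.B lam (MulAut.conjNormal x) ∧ Fxd R.B lam (MulAut.conjNormal y)},
        ((KS J (Ms R lam) (piA R (MulAut.conjNormal x)) (piA R (MulAut.conjNormal y))
          (f = ∅)).card : ℂ) *
          τ (tca R.B lam (MulAut.conjNormal x) (MulAut.conjNormal y) (cM M x y))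
      else 0 := by
    intro a ha haM hl hiff
    rw [hl, cnv ℓ F hF D M h.index (Df R f) (AD R) (R.PJ J) R.B s1.symm b6.symm s3 s2 a ha haM τ hτ]
    refine finsum_congr fun x => finsum_congr fun y => ?_
    split_ifs with hxy
    · obtain ⟨hx, hy, hxyB⟩ := hxy
      have hxA : x ∈ AD R := (Subgroup.mem_inf.1 hx).2
      have hyA : y ∈ AD R := (Subgroup.mem_inf.1 hy).2
      have hcm : cM M x y = ⟨x * y * x⁻¹ * y⁻¹, up_le' hxyB⟩ := by
        unfold cM
        exact dif_pos _
      have hcB : cM M x y ∈ R.B := by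
        rw [hcm]
        obtain ⟨b, hb, hbe⟩ := hxyB
        have : b = ⟨x * y * x⁻¹ * y⁻¹, up_le' ⟨b, hb, hbe⟩⟩ := Subtype.ext hbe
        rwa [← this]
      have hJmap : ∀ x ∈ Df R f ⊓ AD R,
          J.map (piA R (MulAut.conjNormal x : MulAut M)).toEmbedding = J := by
        intro x hx
        have h1 := (s5 x (Subgroup.mem_inf.1 hx).2).1 (Subgroup.mem_inf.1 hx).1
        rcases f.eq_empty_or_nonempty with h0 | h0
        · have : J = Finset.univ := by rw [hJ, h0, Finset.inf_empty]; rfl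
          rw [this, Finset.map_univ_equiv]
        · rw [hJ]
          exact h1 _ (inf_mem hf h0)
      have hcs := csf ℓ F hF M R J (f = ∅) (fun h0 => by
          rw [hJ, h0, Finset.inf_empty]; rfl) Z hZT hZc ζ'
        (MulAut.conjNormal x) (MulAut.conjNormal y) (cM M x y) hζ'0 (b4 x hxA) (b4 y hyA) hcB
        (hJmap x hx) (hJmap y hy) (by
          intro g
          rw [hcm]
          apply Subtype.ext
          rw [← map_inv, ← map_inv, MulAut.conjNormal_apply, MulAut.conjNormal_apply,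
            MulAut.conjNormal_apply, MulAut.conjNormal_apply]
          push_cast
          group) τ
      have hset1 : {φ : R.PJ J → F | φ ∈ IBr F (R.PJ J) ∧ actF (fun t : R.PJ J => a t) φ = φ ∧
          Fxd (R.PJ J) φ (MulAut.conjNormal x) ∧ Fxd (R.PJ J) φ (MulAut.conjNormal y)} =
          {φ : R.PJ J → F | φ ∈ IBr F (R.PJ J) ∧ Ovr (R.PJ J) Z ζ' φ ∧
            Fxd (R.PJ J) φ (MulAut.conjNormal x) ∧ Fxd (R.PJ J) φ (MulAut.conjNormal y) ∧
            (f = ∅ → SZJ R φ)} := by
        ext φ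
        constructor
        · rintro ⟨h1, h2, h3, h4⟩
          have h5 := (hiff φ h1).1 h2
          exact ⟨h1, h5.1, h3, h4, h5.2⟩
        · rintro ⟨h1, h2, h3, h4, h5⟩
          exact ⟨h1, (hiff φ h1).2 ⟨h2, h5⟩, h3, h4⟩
      have hset2 : {lam : R.B → F | lam ∈ IBr F R.B ∧
          (∀ (z : Subgroup.center D) (g g' : R.B), ((g' : M) : D) = z * ((g : M) : D) →
            ζ z * lam g' = lam g) ∧
          Fxd R.B lam (MulAut.conjNormal x) ∧ Fxd R.B lam (MulAut.conjNormal y)} =
          {lam : R.B → F | lam ∈ IBr F R.B ∧ Ovr R.B Z ζ' lam ∧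
            Fxd R.B lam (MulAut.conjNormal x) ∧ Fxd R.B lam (MulAut.conjNormal y)} := by
        ext lam
        have h1 := ovr_iff R.B ζ lam Z hZ h.zM ζ' hζ'1
        constructor
        · rintro ⟨h2, h3, h4, h5⟩
          exact ⟨h2, h1.2 h3, h4, h5⟩
        · rintro ⟨h2, h3, h4, h5⟩
          exact ⟨h2, h1.1 h3, h4, h5⟩
      rw [hset1, hset2]
      exact hcs
    · rfl
  rcases f.eq_empty_or_nonempty with h0 | h0
  · -- the empty flag
    obtain ⟨α, hα1, hα2, hα3, hα4⟩ := alx ℓ F hF D M R h ζ e he hez he0 hpos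
    have hJu : J = Finset.univ := by rw [hJ, h0, Finset.inf_empty]; rfl
    have hDf : Df R f = ⊤ := by
      rw [h0]
      unfold Df
      simp
    have hPtop : R.PJ J = ⊤ := by
      rw [eq_top_iff]
      intro m _
      rw [hDf, top_inf_eq] at s1
      have h1 : (m : D) ∈ up (R.PJ J) := by
        rw [← s1]
        exact m.2
      obtain ⟨y, hy, hye⟩ := h1
      have : y = m := Subtype.ext hye
      rwa [← this]
    apply key α hα1 hα2
    · rw [hDf]
      have heq : ∀ φ ∈ IBr F (⊤ : Subgroup D), actF (fun t : (⊤ : Subgroup D) => α t) φ =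
          actF (fun t : (⊤ : Subgroup D) => e t) φ := by
        rintro φ ⟨n, ρ, hρ, rfl⟩
        have h3 := hα3 n _ (irr_equiv (Subgroup.topEquiv (G := D)).symm hρ)
        have h4 := ev_equiv (Subgroup.topEquiv (G := D)).symm ρ
          (fun t : (⊤ : Subgroup D) => α t)
        have h5 := ev_equiv (Subgroup.topEquiv (G := D)).symm ρ
          (fun t : (⊤ : Subgroup D) => e t)
        have h6 : ev ρ (fun t : (⊤ : Subgroup D) => α t) =
            ev ρ (fun t : (⊤ : Subgroup D) => e t) := by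
          rw [← h4, ← h5]
          exact h3
        funext x
        rw [actF_tr, actF_tr, h6]
      unfold lnum
      congr 1
      ext φ
      constructor
      · rintro ⟨h1, h2⟩
        exact ⟨h1, (heq φ h1).trans h2⟩
      · rintro ⟨h1, h2⟩
        exact ⟨h1, (heq φ h1).symm.trans h2⟩
    · -- the equivalence
      obtain ⟨E, hE⟩ : ∃ E : M ≃* R.PJ J, ∀ m, ((E m : R.PJ J) : M) = m :=
        ⟨(Subgroup.topEquiv (G := M)).symm.trans (MulEquiv.subgroupCongr hPtop.symm), fun _ => rfl⟩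
      have hev : ∀ (n : ℕ) (ρ : R.PJ J →* Matrix (Fin n) (Fin n) F) (a : D → F),
          ev (ρ.comp E.toMonoidHom) (fun t : M => a t) = ev ρ (fun t : R.PJ J => a t) := by
        intro n ρ a
        rw [← ev_equiv E ρ (fun t : R.PJ J => a t)]
        congr 1
        funext t
        rw [hE]
      have hsz : ∀ (n : ℕ) (ρ : R.PJ J →* Matrix (Fin n) (Fin n) F),
          SZ R.U (ρ.comp E.toMonoidHom) ↔ ∑ᶠ u : R.U, ro ρ (u : M) = 0 := by
        intro n ρ
        unfold SZ
        have : ∀ u : R.U, (ρ.comp E.toMonoidHom) (u : M) = ro ρ (u : M) := by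
          intro u
          have h1 : (u : M) ∈ R.PJ J := by rw [hPtop]; trivial
          rw [ro_mem ρ h1]
          change ρ (E u) = ρ ⟨u, h1⟩
          congr 1
          apply Subtype.ext
          exact hE u
        rw [finsum_congr this]
      intro φ hφ
      have hez1 := act_ez (R.PJ J) (hZP J) hcard ζ φ
      rw [ovr_iff (R.PJ J) ζ φ Z hZ h.zM ζ' hζ'1, ← hez1]
      constructor
      · intro h1
        obtain ⟨n, ρ, hρ, rfl⟩ := hφ
        by_cases hs : SZ R.U (ρ.comp E.toMonoidHom)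
        · refine ⟨?_, fun _ => ⟨n, ρ, hρ, rfl, (hsz n ρ).1 hs⟩⟩
          have h2 := (hα4 n _ (irr_equiv E hρ)).1 hs
          rw [hev, hev] at h2
          refine Eq.trans ?_ h1
          funext x
          rw [actF_tr, actF_tr, h2]
        · exfalso
          have h2 := (hα4 n _ (irr_equiv E hρ)).2 hs
          rw [hev] at h2
          obtain ⟨g, hg⟩ := Pool.Agent.PP.BN.H66.tr_ne hρ
          apply hg
          rw [← h1, actF_tr, h2, zero_mul, Matrix.trace_zero]
      · rintro ⟨h1, h2⟩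
        obtain ⟨n, ρ, hρ, hφρ, hs⟩ := h2 h0
        have h3 := (hα4 n _ (irr_equiv E hρ)).1 ((hsz n ρ).2 hs)
        rw [hev, hev] at h3
        refine Eq.trans ?_ h1
        funext x
        rw [← hφρ, actF_tr, actF_tr, h3]
  · -- nonempty flags
    obtain ⟨hJn, hUD, hDN⟩ := s4 h0
    obtain ⟨hez1, hez2, hez3⟩ := brx ℓ F hF D M R h ζ
    obtain ⟨hb1, -⟩ := hez3 e he hez he0 hpos
    apply key (ez ζ) hez1.1
    · intro x hx
      unfold ez
      exact dif_neg fun hz => hx (h.zM hz)
    · rw [nlq ℓ F hF D (up (R.UJ J)) (Df R f) (b7.to_le (Subgroup.map_mono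
        (R.gp_mono Set.sdiff_subset))) hUD hDN e he.1, hb1 J hJn]
    · intro φ _
      rw [ovr_iff (R.PJ J) ζ φ Z hZ h.zM ζ' hζ'1, ← act_ez (R.PJ J) (hZP J) hcard ζ φ]
      constructor
      · intro h1
        exact ⟨h1, fun h2 => absurd h2 h0.ne_empty⟩
      · intro h1
        exact h1.1

end Pool.Agent.PP.X1.H89
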