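import Pool.Agent.Helper66_AWS.S102

/-! Copy (generated) of the module `Pool.Agent.Helper51_X1.Slt` with import lines for the bundle Helper12_AWB. -/

/-!
# X1, module SLT: the torus and the reflections of `SL_{n+1}(K)`
-/

set_option linter.unusedSimpArgs false

open scoped BigOperators
open Matrix

noncomputable section

namespace Pool.Agent.PP.X1.Sl.H51

section

variable {K : Type} [Field K] {n : ℕ}

/-- the diagonal subgroup -/
def dg (K : Type) [Field K] (n : ℕ) : Subgroup (Matrix.SpecialLinearGroup (Fin (n + 1)) K) where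
  carrier := {g | ∀ p q, p ≠ q → (g : Matrix (Fin (n + 1)) (Fin (n + 1)) K) p q = 0}
  mul_mem' := by
    intro g h hg hh p q hpq
    rw [Matrix.SpecialLinearGroup.coe_mul, Matrix.mul_apply]
    refine Finset.sum_eq_zero fun r _ => ?_
    by_cases hr : p = r
    · rw [← hr, hh p q hpq, mul_zero]
    · rw [hg p r hr, zero_mul]
  one_mem' := by
    intro p q hpq
    rw [Matrix.SpecialLinearGroup.coe_one, Matrix.one_apply_ne hpq]
  inv_mem' := by
    intro g hg p q hpq
    have h1 : ∀ x y, (g : Matrix (Fin (n + 1)) (Fin (n + 1)) K) x x *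
        ((g⁻¹ : Matrix.SpecialLinearGroup (Fin (n + 1)) K) : Matrix (Fin (n + 1)) (Fin (n + 1)) K)
          x y = (1 : Matrix (Fin (n + 1)) (Fin (n + 1)) K) x y := by
      intro x y
      have h2 : (g * g⁻¹ : Matrix.SpecialLinearGroup (Fin (n + 1)) K) = 1 := mul_inv_cancel g
      have h3 := congrArg (fun A : Matrix.SpecialLinearGroup (Fin (n + 1)) K =>
        (A : Matrix (Fin (n + 1)) (Fin (n + 1)) K) x y) h2
      simp only [Matrix.SpecialLinearGroup.coe_mul, Matrix.SpecialLinearGroup.coe_one] at h3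
      rw [Matrix.mul_apply, Finset.sum_eq_single x] at h3
      · exact h3
      · intro z _ hz
        rw [hg x z (Ne.symm hz), zero_mul]
      · intro h
        exact absurd (Finset.mem_univ _) h
    have h2 := h1 p p
    have h3 := h1 p q
    rw [Matrix.one_apply_eq] at h2
    rw [Matrix.one_apply_ne hpq] at h3
    rcases mul_eq_zero.1 h3 with h4 | h4
    · rw [h4, zero_mul] at h2
      exact absurd h2 zero_ne_one
    · exact h4

lemma TT_eq : TT K n = dg K n := Subgroup.closure_eq (dg K n)

lemma mem_TT {g : Matrix.SpecialLinearGroup (Fin (n + 1)) K} :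
    g ∈ TT K n ↔ ∀ p q, p ≠ q → (g : Matrix (Fin (n + 1)) (Fin (n + 1)) K) p q = 0 := by
  rw [TT_eq]
  exact Iff.rfl

lemma tv_coe {p q : Fin (n + 1)} (h : p ≠ q) (c : K) :
    (tv K n p q c : Matrix (Fin (n + 1)) (Fin (n + 1)) K) = Matrix.transvection p q c := by
  have h1 : tv K n p q c = ⟨Matrix.transvection p q c, Matrix.det_transvection_of_ne p q h c⟩ :=
    dif_pos h
  rw [h1]

lemma tv_mul {p q : Fin (n + 1)} (h : p ≠ q) (c : K)
    (A : Matrix (Fin (n + 1)) (Fin (n + 1)) K) (x y : Fin (n + 1)) :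
    ((tv K n p q c : Matrix (Fin (n + 1)) (Fin (n + 1)) K) * A) x y =
      A x y + if x = p then c * A q y else 0 := by
  rw [tv_coe h]
  by_cases hx : x = p
  · rw [if_pos hx, hx, Matrix.transvection_mul_apply_same]
  · rw [if_neg hx, add_zero, Matrix.transvection_mul_apply_of_ne _ _ _ _ hx]

lemma mul_tv {p q : Fin (n + 1)} (h : p ≠ q) (c : K)
    (A : Matrix (Fin (n + 1)) (Fin (n + 1)) K) (x y : Fin (n + 1)) :
    (A * (tv K n p q c : Matrix (Fin (n + 1)) (Fin (n + 1)) K)) x y =
      A x y + if y = q then c * A x p else 0 := by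
  rw [tv_coe h]
  by_cases hy : y = q
  · rw [if_pos hy, hy, Matrix.mul_transvection_apply_same]
  · rw [if_neg hy, add_zero, Matrix.mul_transvection_apply_of_ne _ _ _ _ hy]

lemma tv_apply {p q : Fin (n + 1)} (h : p ≠ q) (c : K) (x y : Fin (n + 1)) :
    (tv K n p q c : Matrix (Fin (n + 1)) (Fin (n + 1)) K) x y =
      (if x = y then 1 else 0) + if x = p then (if q = y then c else 0) else 0 := by
  have h1 := tv_mul h c 1 x y
  rw [mul_one] at h1
  rw [h1, Matrix.one_apply, Matrix.one_apply]
  by_cases hx : x = p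
  · rw [if_pos hx, if_pos hx]
    by_cases hq : q = y
    · rw [if_pos hq, if_pos hq, mul_one]
    · rw [if_neg hq, if_neg hq, mul_zero]
  · rw [if_neg hx, if_neg hx]

/-- the sign of the monomial matrix `nn i` -/
def sg (i : Fin n) (x : Fin (n + 1)) : K := if x = i.succ then -1 else 1

/-- the permutation of the monomial matrix `nn i` -/
abbrev sw (i : Fin n) : Equiv.Perm (Fin (n + 1)) := Equiv.swap i.castSucc i.succ

lemma ne_succ (i : Fin n) : i.castSucc ≠ i.succ := ne_of_lt (Fin.castSucc_lt_succ)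

lemma sg_mul_self (i : Fin n) (x : Fin (n + 1)) : (sg i x : K) * sg i x = 1 := by
  unfold sg
  split_ifs <;> simp

lemma sg_ne_zero (i : Fin n) (x : Fin (n + 1)) : (sg i x : K) ≠ 0 := by
  intro h
  have := sg_mul_self (K := K) i x
  rw [h, zero_mul] at this
  exact zero_ne_one this

lemma sw_sw (i : Fin n) (x : Fin (n + 1)) : sw i (sw i x) = x :=
  congrArg (fun e : Equiv.Perm (Fin (n + 1)) => e x) (Equiv.swap_mul_self i.castSucc i.succ)

lemma sw_eq_iff (i : Fin n) (x y : Fin (n + 1)) : sw i x = y ↔ x = sw i y := by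
  constructor
  · rintro rfl
    rw [sw_sw]
  · rintro rfl
    rw [sw_sw]

lemma nn_apply (i : Fin n) (x y : Fin (n + 1)) :
    (nn K n i : Matrix (Fin (n + 1)) (Fin (n + 1)) K) x y =
      sg i x * if sw i x = y then 1 else 0 := by
  have hab := ne_succ i
  have hba := hab.symm
  unfold nn
  rw [Matrix.SpecialLinearGroup.coe_mul, mul_tv hab, Matrix.SpecialLinearGroup.coe_mul,
    tv_mul hab, tv_mul hab]
  simp only [tv_apply hba]
  unfold sg sw
  by_cases hxa : x = i.castSucc
  · subst hxa
    rw [Equiv.swap_apply_left]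
    by_cases hyb : y = i.succ
    · subst hyb
      simp [hab, hba]
    · by_cases hya : y = i.castSucc
      · subst hya
        simp [hab, hba]
      · simp [hab, hba, hyb, hya, Ne.symm hyb, Ne.symm hya, Ne.symm (a := y)]
  · by_cases hxb : x = i.succ
    · subst hxb
      rw [Equiv.swap_apply_right]
      by_cases hyb : y = i.succ
      · subst hyb
        simp [hab, hba]
      · by_cases hya : y = i.castSucc
        · subst hya
          simp [hab, hba]
        · have h1 : ¬ i.castSucc = y := fun h => hya h.symm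
          have h2 : ¬ i.succ = y := fun h => hyb h.symm
          simp [hab, hba, hyb, h1, h2]
    · rw [Equiv.swap_apply_of_ne_of_ne hxa hxb]
      by_cases hyb : y = i.succ
      · subst hyb
        simp [hxa, hxb]
      · simp [hxa, hxb, hyb]

lemma nn_mul (i : Fin n) (A : Matrix (Fin (n + 1)) (Fin (n + 1)) K) (x y : Fin (n + 1)) :
    ((nn K n i : Matrix (Fin (n + 1)) (Fin (n + 1)) K) * A) x y = sg i x * A (sw i x) y := by
  rw [Matrix.mul_apply, Finset.sum_eq_single (sw i x)]
  · rw [nn_apply, if_pos rfl, mul_one]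
  · intro z _ hz
    rw [nn_apply, if_neg (Ne.symm hz), mul_zero, zero_mul]
  · intro h
    exact absurd (Finset.mem_univ _) h

lemma mul_nn (i : Fin n) (A : Matrix (Fin (n + 1)) (Fin (n + 1)) K) (x y : Fin (n + 1)) :
    (A * (nn K n i : Matrix (Fin (n + 1)) (Fin (n + 1)) K)) x y =
      A x (sw i y) * sg i (sw i y) := by
  rw [Matrix.mul_apply, Finset.sum_eq_single (sw i y)]
  · rw [nn_apply, if_pos (sw_sw i y), mul_one]
  · intro z _ hz
    rw [nn_apply, if_neg, mul_zero, mul_zero]
    intro h
    exact hz ((sw_eq_iff i z y).1 h)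
  · intro h
    exact absurd (Finset.mem_univ _) h

/-- conjugation of a transvection by `nn i` -/
lemma nn_conj (i : Fin n) {p q : Fin (n + 1)} (h : p ≠ q) (c : K) :
    nn K n i * tv K n p q c * (nn K n i)⁻¹ =
      tv K n (sw i p) (sw i q) (sg i (sw i p) * sg i (sw i q) * c) := by
  have h' : sw i p ≠ sw i q := fun h1 => h ((sw i).injective h1)
  rw [mul_inv_eq_iff_eq_mul]
  apply Matrix.SpecialLinearGroup.ext
  intro x y
  rw [Matrix.SpecialLinearGroup.coe_mul, Matrix.SpecialLinearGroup.coe_mul, nn_mul, mul_nn,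
    tv_apply h, tv_apply h']
  by_cases h1 : sw i x = y
  · have h2 : x = sw i y := (sw_eq_iff i x y).1 h1
    rw [if_pos h1, if_pos h2, ← h2]
    by_cases h3 : sw i x = p
    · have h4 : x = sw i p := (sw_eq_iff i x p).1 h3
      rw [if_pos h3, if_pos h4]
      have h5 : ¬ q = y := fun h6 => h (by rw [h6, ← h1, h3])
      have h6 : ¬ sw i q = x := fun h7 => h' (by rw [h7, ← h4])
      rw [if_neg h5, if_neg h6, add_zero, mul_one, one_mul]
    · have h4 : ¬ x = sw i p := fun h5 => h3 ((sw_eq_iff i x p).2 h5)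
      rw [if_neg h3, if_neg h4, add_zero, mul_one, one_mul]
  · have h2 : ¬ x = sw i y := fun h3 => h1 ((sw_eq_iff i x y).2 h3)
    rw [if_neg h1, if_neg h2, zero_add, zero_add]
    by_cases h3 : sw i x = p
    · have h4 : x = sw i p := (sw_eq_iff i x p).1 h3
      rw [if_pos h3, if_pos h4]
      by_cases h5 : q = y
      · rw [if_pos h5, h5, if_pos rfl, h4]
        have h6 := sg_mul_self (K := K) i (sw i y)
        linear_combination (-(sg i (sw i p) * c)) * h6
      · have h6 : ¬ sw i q = sw i y := fun h7 => h5 ((sw i).injective h7)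
        rw [if_neg h5, if_neg h6, mul_zero, zero_mul]
    · have h4 : ¬ x = sw i p := fun h5 => h3 ((sw_eq_iff i x p).2 h5)
      rw [if_neg h3, if_neg h4, mul_zero, zero_mul]

/-- `nn i` normalises the torus -/
lemma nn_TT (i : Fin n) {t : Matrix.SpecialLinearGroup (Fin (n + 1)) K} (ht : t ∈ TT K n) :
    nn K n i * t * (nn K n i)⁻¹ ∈ TT K n := by
  rw [mem_TT] at ht ⊢
  intro x y hxy
  set t' := nn K n i * t * (nn K n i)⁻¹ with ht'
  have h1 : t' * nn K n i = nn K n i * t := by rw [ht', inv_mul_cancel_right]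
  have h2 := congrArg (fun A : Matrix.SpecialLinearGroup (Fin (n + 1)) K =>
    (A : Matrix (Fin (n + 1)) (Fin (n + 1)) K) x (sw i y)) h1
  simp only [Matrix.SpecialLinearGroup.coe_mul] at h2
  rw [nn_mul, mul_nn, sw_sw, ht _ _ (fun h3 => hxy ((sw i).injective h3)), mul_zero] at h2
  rcases mul_eq_zero.1 h2 with h3 | h3
  · exact h3
  · exact absurd h3 (sg_ne_zero i y)

lemma nn_sq (i : Fin n) : nn K n i * nn K n i ∈ TT K n := by
  rw [mem_TT]
  intro x y hxy
  rw [Matrix.SpecialLinearGroup.coe_mul, nn_mul, nn_apply, sw_sw, if_neg hxy, mul_zero, mul_zero]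

/-- the diagonal matrix with entries `c`, `c⁻¹` -/
def hh (i : Fin n) (c : K) (hc : c ≠ 0) : Matrix.SpecialLinearGroup (Fin (n + 1)) K :=
  ⟨Matrix.diagonal fun x => (if x = i.castSucc then c else 1) * (if x = i.succ then c⁻¹ else 1),
    by
      rw [Matrix.det_diagonal, Finset.prod_mul_distrib, Finset.prod_ite_eq', Finset.prod_ite_eq',
        if_pos (Finset.mem_univ _), if_pos (Finset.mem_univ _), mul_inv_cancel₀ hc]⟩

lemma hh_apply (i : Fin n) (c : K) (hc : c ≠ 0) (x y : Fin (n + 1)) :
    (hh i c hc : Matrix (Fin (n + 1)) (Fin (n + 1)) K) x y =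
      if x = y then (if x = i.castSucc then c else 1) * (if x = i.succ then c⁻¹ else 1) else 0 := by
  show Matrix.diagonal _ x y = _
  rw [Matrix.diagonal_apply]

lemma cell (i : Fin n) (c : K) (hc : c ≠ 0) :
    nn K n i * tv K n i.castSucc i.succ c * (nn K n i)⁻¹ =
      tv K n i.castSucc i.succ (-c⁻¹) * (nn K n i * hh i c hc) *
        tv K n i.castSucc i.succ (-c⁻¹) := by
  have hab := ne_succ i
  have hba := hab.symm
  rw [mul_inv_eq_iff_eq_mul]
  apply Matrix.SpecialLinearGroup.ext
  intro x y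
  rw [Matrix.SpecialLinearGroup.coe_mul, Matrix.SpecialLinearGroup.coe_mul, nn_mul, mul_nn,
    Matrix.SpecialLinearGroup.coe_mul, mul_tv hab, Matrix.SpecialLinearGroup.coe_mul, tv_mul hab,
    tv_mul hab, Matrix.SpecialLinearGroup.coe_mul, nn_mul, nn_mul, nn_mul, nn_mul, tv_apply hab]
  simp only [hh_apply]
  unfold sg
  by_cases hya : y = i.castSucc
  · subst hya
    have e1 : sw i i.castSucc = i.succ := Equiv.swap_apply_left _ _
    have e2 : sw i i.succ = i.castSucc := Equiv.swap_apply_right _ _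
    by_cases hxa : x = i.castSucc
    · subst hxa
      simp [e1, e2, hab, hba, hc]
    · by_cases hxb : x = i.succ
      · subst hxb
        simp [e1, e2, hab, hba, hc]
      · have e3 : sw i x = x := Equiv.swap_apply_of_ne_of_ne hxa hxb
        simp [e1, e2, e3, hab, hba, hxa, hxb]
  · by_cases hyb : y = i.succ
    · subst hyb
      have e1 : sw i i.castSucc = i.succ := Equiv.swap_apply_left _ _
      have e2 : sw i i.succ = i.castSucc := Equiv.swap_apply_right _ _
      by_cases hxa : x = i.castSucc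
      · subst hxa
        simp [e1, e2, hab, hba, hc]
      · by_cases hxb : x = i.succ
        · subst hxb
          simp [e1, e2, hab, hba, hc]
        · have e3 : sw i x = x := Equiv.swap_apply_of_ne_of_ne hxa hxb
          simp [e1, e2, e3, hab, hba, hxa, hxb]
    · have e1 : sw i i.castSucc = i.succ := Equiv.swap_apply_left _ _
      have e2 : sw i i.succ = i.castSucc := Equiv.swap_apply_right _ _
      have e4 : sw i y = y := Equiv.swap_apply_of_ne_of_ne hya hyb
      have f1 : ¬ i.castSucc = y := fun h => hya h.symm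
      have f2 : ¬ i.succ = y := fun h => hyb h.symm
      by_cases hxa : x = i.castSucc
      · subst hxa
        simp [e1, e2, e4, hab, hba, hya, hyb, f1, f2]
      · by_cases hxb : x = i.succ
        · subst hxb
          simp [e1, e2, e4, hab, hba, hya, hyb, f1, f2]
        · have e3 : sw i x = x := Equiv.swap_apply_of_ne_of_ne hxa hxb
          simp [e1, e2, e3, e4, hab, hba, hxa, hxb, hya, hyb]

/-- conjugation of a transvection by the torus -/
lemma TT_conj {t : Matrix.SpecialLinearGroup (Fin (n + 1)) K} (ht : t ∈ TT K n)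
    {p q : Fin (n + 1)} (h : p ≠ q) (c : K) : ∃ c', t * tv K n p q c * t⁻¹ = tv K n p q c' := by
  rw [mem_TT] at ht
  have hd : ∀ (A : Matrix (Fin (n + 1)) (Fin (n + 1)) K) x y,
      ((t : Matrix (Fin (n + 1)) (Fin (n + 1)) K) * A) x y =
        (t : Matrix (Fin (n + 1)) (Fin (n + 1)) K) x x * A x y := by
    intro A x y
    rw [Matrix.mul_apply, Finset.sum_eq_single x]
    · intro z _ hz
      rw [ht x z (Ne.symm hz), zero_mul]
    · intro h
      exact absurd (Finset.mem_univ _) h
  have hne : ∀ x, (t : Matrix (Fin (n + 1)) (Fin (n + 1)) K) x x ≠ 0 := by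
    intro x h0
    have h1 : (t * t⁻¹ : Matrix.SpecialLinearGroup (Fin (n + 1)) K) = 1 := mul_inv_cancel t
    have h2 := congrArg (fun A : Matrix.SpecialLinearGroup (Fin (n + 1)) K =>
      (A : Matrix (Fin (n + 1)) (Fin (n + 1)) K) x x) h1
    simp only [Matrix.SpecialLinearGroup.coe_mul, Matrix.SpecialLinearGroup.coe_one] at h2
    rw [hd, h0, zero_mul, Matrix.one_apply_eq] at h2
    exact zero_ne_one h2
  refine ⟨(t : Matrix (Fin (n + 1)) (Fin (n + 1)) K) p p * c *
    ((t : Matrix (Fin (n + 1)) (Fin (n + 1)) K) q q)⁻¹, ?_⟩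
  rw [mul_inv_eq_iff_eq_mul]
  apply Matrix.SpecialLinearGroup.ext
  intro x y
  rw [Matrix.SpecialLinearGroup.coe_mul, Matrix.SpecialLinearGroup.coe_mul, hd, tv_mul h,
    tv_apply h]
  by_cases hxy : x = y
  · subst hxy
    rw [if_pos rfl]
    by_cases hx : x = p
    · rw [if_pos hx, if_pos hx]
      have h1 : ¬ q = x := fun h2 => h (by rw [h2, hx])
      rw [if_neg h1, ht q x h1]
      ring
    · rw [if_neg hx, if_neg hx]
      ring
  · rw [if_neg hxy, ht x y hxy]
    by_cases hx : x = p
    · rw [if_pos hx, if_pos hx, hx]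
      by_cases hq : q = y
      · rw [if_pos hq, ← hq]
        have := hne q
        field_simp
        ring
      · rw [if_neg hq, ht q y hq]
        ring
    · rw [if_neg hx, if_neg hx]
      ring

end

/-- SLT -/
theorem slt (_ : SlxStmt) : SltStmt := by
  intro K _ _ n
  refine ⟨fun g => mem_TT, ?_, ?_, ?_, ?_, ?_, ?_, ?_⟩
  · intro ℓ _ _ hdvd
    obtain ⟨x, hx⟩ := exists_prime_orderOf_dvd_card' ℓ hdvd
    have hxT := mem_TT.1 x.2
    have hpow : ∀ k : ℕ, ∀ p, (((x : Matrix.SpecialLinearGroup (Fin (n + 1)) K) ^ k :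
        Matrix.SpecialLinearGroup (Fin (n + 1)) K) : Matrix (Fin (n + 1)) (Fin (n + 1)) K) p p =
        ((x : Matrix.SpecialLinearGroup (Fin (n + 1)) K) :
          Matrix (Fin (n + 1)) (Fin (n + 1)) K) p p ^ k := by
      intro k
      induction k with
      | zero =>
        intro p
        rw [pow_zero, pow_zero, Matrix.SpecialLinearGroup.coe_one, Matrix.one_apply_eq]
      | succ k ih =>
        intro p
        rw [pow_succ', pow_succ', Matrix.SpecialLinearGroup.coe_mul, Matrix.mul_apply,
          Finset.sum_eq_single p, ih]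
        · intro z _ hz
          rw [hxT p z (Ne.symm hz), zero_mul]
        · intro h
          exact absurd (Finset.mem_univ _) h
    have h1 : (x : Matrix.SpecialLinearGroup (Fin (n + 1)) K) ^ ℓ = 1 := by
      have h2 := pow_orderOf_eq_one x
      rw [hx] at h2
      have h3 := congrArg Subtype.val h2
      exact h3
    have h2 : (x : Matrix.SpecialLinearGroup (Fin (n + 1)) K) = 1 := by
      apply Matrix.SpecialLinearGroup.ext
      intro p q
      rw [Matrix.SpecialLinearGroup.coe_one]
      by_cases hpq : p = q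
      · subst hpq
        rw [Matrix.one_apply_eq]
        have h3 := hpow ℓ p
        rw [h1, Matrix.SpecialLinearGroup.coe_one, Matrix.one_apply_eq] at h3
        have h4 : frobenius K ℓ (((x : Matrix.SpecialLinearGroup (Fin (n + 1)) K) :
            Matrix (Fin (n + 1)) (Fin (n + 1)) K) p p) = frobenius K ℓ 1 := by
          rw [frobenius_def, map_one, ← h3]
        exact frobenius_inj K ℓ h4
      · rw [hxT p q hpq, Matrix.one_apply_ne hpq]
    have h3 : x = 1 := Subtype.ext h2
    rw [h3, orderOf_one] at hx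
    exact (Fact.out : ℓ.Prime).one_lt.ne hx
  · intro g hg
    rw [mem_TT]
    obtain ⟨r, -, hr⟩ := Matrix.SpecialLinearGroup.mem_center_iff.1 hg
    intro p q hpq
    rw [← hr]
    simp [Matrix.scalar_apply, Matrix.diagonal_apply_ne _ hpq]
  · intro t ht p q c hpq
    exact TT_conj ht hpq c
  · intro i p q c hpq
    exact ⟨_, nn_conj i hpq c⟩
  · intro i t ht
    exact nn_TT i ht
  · intro i
    exact nn_sq i
  · intro i c hc
    refine ⟨hh i c hc, ?_, -c⁻¹, -c⁻¹, cell i c hc⟩
    rw [mem_TT]
    intro p q hpq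
    rw [hh_apply, if_neg hpq]

end Pool.Agent.PP.X1.Sl.H51
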