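import Pool.Agent.Helper66_AWS.S124
import Pool.Agent.Helper66_AWS.S125
import Pool.Agent.Helper66_AWS.S127
import Pool.Agent.Helper66_AWS.S105
import Pool.Agent.Helper66_AWS.S128
import Pool.Agent.Helper66_AWS.S099
import Pool.Agent.Helper66_AWS.S092
import Pool.Agent.Helper66_AWS.S108
import Pool.Agent.Helper66_AWS.S129
import Pool.Agent.Helper66_AWS.S130
import Pool.Agent.Helper66_AWS.S131
import Pool.Agent.Helper66_AWS.S132
import Pool.Agent.Helper66_AWS.S133
import Pool.Agent.Helper66_AWS.S106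
import Pool.Agent.Helper66_AWS.S134
import Pool.Agent.Helper66_AWS.S135
import Pool.Agent.Helper66_AWS.S098
import Pool.Agent.Helper66_AWS.S136
import Pool.Agent.Helper66_AWS.S137
import Pool.Agent.Helper66_AWS.S138
import Pool.Agent.Helper66_AWS.S139
import Pool.Agent.Helper66_AWS.S094
import Pool.Agent.Helper66_AWS.S100
import Pool.Agent.Helper66_AWS.S009
import Pool.Agent.Helper66_AWS.S140
import Pool.Agent.Helper66_AWS.S141
import Pool.Agent.Helper66_AWS.S142
import Pool.Agent.Helper66_AWS.S143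
import Pool.Agent.Helper66_AWS.S144
import Pool.Agent.Helper66_AWS.S145
import Pool.Agent.Helper66_AWS.S097
import Pool.Agent.Helper66_AWS.S146
import Pool.Agent.Helper66_AWS.S147
import Pool.Agent.Helper66_AWS.S148
import Pool.Agent.Helper66_AWS.S117
import Pool.Agent.Helper66_AWS.S149
import Pool.Agent.Helper66_AWS.S150
import Pool.Agent.Helper66_AWS.S005
import Pool.Agent.Helper66_AWS.S004
import Pool.Agent.Helper66_AWS.S151
import Pool.Agent.Helper66_AWS.S107
import Pool.Agent.Helper66_AWS.S103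
import Pool.Agent.Helper66_AWS.S104
import Pool.Agent.Helper66_AWS.S152
import Pool.Agent.Helper66_AWS.S153
import Pool.Agent.Helper66_AWS.S012
import Pool.Agent.Helper66_AWS.S072

/-! Copy (generated) of the module `Pool.Agent.Helper36_X1.AsmB` with import lines for the bundle Helper12_AWB. -/

/-!
# Squad X1: assembly, sections E-I
-/

open scoped BigOperators

noncomputable section

namespace Pool.Agent.PP.X1

open Pool.Agent.PP

theorem bas_ : BasStmt := H53.bas syl_ par_ bru_ H11.lng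
theorem con_ : ConStmt := H68.con H39.orb
theorem ced_ : CedStmt := H20.ced par_ syl_ bru_ opv_ trv_ bas_ H11.lng H39.orb
theorem cem_ : CemStmt := H35.cem con_ ced_ bas_ par_ bru_ H32.pel H11.lng wrd_
theorem rad_ : RadStmt := H89.rad bas_ bts_ par_ syl_
theorem stf_ : StfStmt := H83.stf bas_ par_ prx_
theorem aca_ : AcaStmt := H69.aca fac_ bru_
theorem tri_ : TriStmt := H76.tri aca_ H68.acb
theorem min__ : MinStmt := H21.min_ aca_ H68.acb
theorem cyx_ : CycxStmt := H69.cyx fac_ bru_ H11.lng H29.dsc wrd_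
theorem vui_ : VuiStmt := H21.vui cyx_ min__ tri_ aca_
theorem lb1_ : Lb1Stmt := H24.lb1 vui_ aca_
theorem lb6_ : Lb6Stmt := H43.lb6 vui_ lb1_ cyx_ aca_ H11.lng
theorem lb7_ : Lb7Stmt := H43.lb7 prx_ bru_ H32.pel
theorem frx_ : FrxStmt := H31.frx lb6_ bru_
theorem sub_ : SubStmt := H65.sub vui_
theorem dzx_ : DzxStmt := H90.dzx rad_ cem_ bas_ H20.nls H20.brm H20.ibn
theorem brx_ : BrxStmt := H26.brx dzx_ cem_ ced_ bas_ H20.nls H20.brm H20.ibn
theorem pcx_ : PcxStmt := H68.pcx frx_ bas_ H20.ibj H20.ibf H20.ibc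
theorem alx_ : AlxStmt := H30.alx brx_ dzx_ pcx_ bas_
theorem nlq_ : NlqStmt := H26.nlq H20.nls
theorem cnv_ : CnvStmt := H65.cnv Pool.Agent.PP.H96.cl_
theorem tcu_ : TcuStmt := H14.tcu H20.ibc
theorem tce_ : TceStmt := H81.tce tcu_ prx_

theorem lb3_ : Lb3Stmt := H14.lb3 H20.ibc H20.ibj H11.lng bru_ cyx_ vui_ lb1_

theorem xfl_ : XflStmt := H86.xfl H64.xch rad_ bas_ par_ syl_ bru_
theorem quo_ : QuoStmt := H77.quo
theorem sln_ : SlnStmt := Sl.H33.sln H29.slr H29.slx (Sl.H51.slt H29.slx)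
  (Sl.H51.slo H29.slr H29.slx (Sl.H51.slt H29.slx))

theorem ext_ : ExtStmt := H9.ext H11.lng H39.orb H81.rk1 wrd_ H32.pel bru_
theorem ind_ : IndStmt := H41.ind ext_
theorem tau_ : TauStmt := H63.tau tri_ aca_ H68.acb ind_
theorem lb5_ : Lb5Stmt := H86.lb5 sub_ tau_ ind_ ln2_ opv_ aca_ H68.acb fac_ wrd_ H32.pel
theorem csf_ : CsfStmt := H5.csf lb1_ lb3_ H48.lb4 lb5_ lb6_ lb7_ tce_ prx_
theorem num_ : NumStmt := H89.num cnv_ csf_ alx_ brx_ nlq_ stf_ bas_
theorem yyx_ : YyxStmt := H90.yyx xfl_ num_ H94.tog stf_ H20.ibf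

/-- **The count for nearly simple groups over a simple group with a reductive group datum.** -/
theorem nsx_ : NsxStmt := H17.nsx lft_ yyx_

end Pool.Agent.PP.X1
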