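import Pool.Agent.Helper66_AWS.S078
import Pool.Agent.Helper12_AWB.B252
import Pool.Agent.Helper12_AWB.B100

/-! Copy (generated) of the module `Pool.Agent.Helper66_X4.Dnr` with import lines for the bundle Helper12_AWB. -/

/-!
# AWC, part X4: blocks with abelian defect groups of rank at most two do not occur
-/

open scoped BigOperators

noncomputable section

namespace Pool.Agent.PP.X4

open Pool.Agent.Helper51_AWC Pool.Agent.Helper79_WRA Pool.Agent.PP Pool.Agent.PP.X2
open Pool.Agent.PP.X3 Pool.Agent.PP.RK2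

/-- The theorem for the blocks which cover a block of a normal subgroup `N` with defect groups that
are abelian of rank at most two modulo `O_ℓ(N)` (`Pool.Agent.ATW.Rank2b`, `TW.fin2`). -/
def Fin2Stmt : Prop := ∀ (ℓ : ℕ), ℓ.Prime → ∀ (M : Ideal (integralClosure ℤ ℂ)) [M.IsMaximal],
  (ℓ : integralClosure ℤ ℂ) ∈ M → ∀ (G : Type) [Group G] [Finite G],
  opCore ℓ G ≤ Subgroup.center G → ∀ N : Subgroup G, N.Normal →
  ∀ χ ∈ Irr G, ∀ ψ ∈ Irr N, (∑ᶠ n : N, χ n * starRingEnd ℂ (ψ n)) ≠ 0 →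
    LargeDefect ℓ M ψ →
    (∃ (x : N) (P : Subgroup N), ¬ Cong M (omega (MonoidHom.id N) ψ x) 0 ∧
      P ≤ Subgroup.centralizer ({x} : Set N) ∧ IsPGroup ℓ P ∧
      ¬ ℓ ∣ P.relIndex (Subgroup.centralizer ({x} : Set N)) ∧
      (∀ u ∈ P, ∀ v ∈ P, u * v * u⁻¹ * v⁻¹ ∈ opCore ℓ N) ∧
      ∃ a b : N, P ≤ Subgroup.closure ({a, b} : Set N) ⊔ opCore ℓ N ∧ a ∈ P ∧ b ∈ P) →
    altSum ℓ M χ = 0

theorem defect_nr (hF2 : Fin2Stmt) (ℓ : ℕ) [hℓ : Fact ℓ.Prime] (M : Ideal (integralClosure ℤ ℂ))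
    [hM' : M.IsMaximal]
    (hM : (ℓ : integralClosure ℤ ℂ) ∈ M) (D : Type) [Group D] [Finite D] (hD : opCore ℓ D = ⊥)
    (ϑ : D → ℂ) (hϑ : ϑ ∈ Irr D) (hL : LargeDefect ℓ M ϑ) (h0 : altSum ℓ M ϑ ≠ 0) (x : D)
    (hx : ¬ Cong M (omega (MonoidHom.id D) ϑ x) 0)
    (P : Sylow ℓ (Subgroup.centralizer ({x} : Set D))) : ¬ Rk2 P := by
  classical
  have := Fintype.ofFinite D
  intro hcyc
  apply h0
  let e : (⊤ : Subgroup D) ≃* D := Subgroup.topEquiv
  have hψ : (fun n : (⊤ : Subgroup D) => ϑ (e n)) ∈ Irr (⊤ : Subgroup D) :=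
    irr_comp_equiv e hϑ
  have hcore : opCore ℓ (⊤ : Subgroup D) = ⊥ := by
    have h1 := opCore_equiv ℓ e
    rw [mapE_apply, hD] at h1
    exact (Subgroup.map_eq_bot_iff_of_injective _ e.injective).1 h1
  have hom : ∀ (ψ : D → ℂ) (y : (⊤ : Subgroup D)),
      omega (MonoidHom.id (⊤ : Subgroup D)) (fun n : (⊤ : Subgroup D) => ψ (e n)) y =
        omega (MonoidHom.id D) ψ (e y) := by
    intro ψ y
    unfold omega
    congr 1
    rw [← finsum_comp_equiv e.toEquiv]
    apply finsum_congr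
    intro h
    have h1 : IsConj y ((MonoidHom.id (⊤ : Subgroup D)) h) ↔
        IsConj (e y) ((MonoidHom.id D) (e h)) := by
      constructor
      · intro h2
        exact MonoidHom.map_isConj e.toMonoidHom h2
      · intro h2
        have h3 := MonoidHom.map_isConj e.symm.toMonoidHom h2
        have h4 : e.symm.toMonoidHom (e y) = y := e.symm_apply_apply y
        have h5 : e.symm.toMonoidHom ((MonoidHom.id D) (e h)) = h := e.symm_apply_apply h
        rw [h4, h5] at h3
        exact h3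
    rw [show (IsConj y ((MonoidHom.id (⊤ : Subgroup D)) h)) =
      IsConj (e y) ((MonoidHom.id D) (e h)) from propext h1]
    rfl
  refine hF2 ℓ hℓ.out M hM D (by rw [hD]; exact bot_le) ⊤ inferInstance ϑ hϑ
    (fun n : (⊤ : Subgroup D) => ϑ (e n)) hψ ?_ ?_ ?_
  · have h1 : (∑ᶠ n : (⊤ : Subgroup D), ϑ n * starRingEnd ℂ (ϑ (e n))) =
        ∑ᶠ g : D, ϑ g * starRingEnd ℂ (ϑ g) := by
      rw [← finsum_comp_equiv e.toEquiv]
      rfl
    rw [h1, finsum_eq_sum_of_fintype]
    have h2 : (∑ g : D, ϑ g * starRingEnd ℂ (ϑ g)) =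
        ((∑ g : D, Complex.normSq (ϑ g) : ℝ) : ℂ) := by
      push_cast
      exact Finset.sum_congr rfl fun g _ => Complex.mul_conj _
    rw [h2]
    have h3 : 0 < ∑ g : D, Complex.normSq (ϑ g) := by
      apply Finset.sum_pos' (fun g _ => Complex.normSq_nonneg _)
      exact ⟨1, Finset.mem_univ _, Complex.normSq_pos.mpr (irr_one_ne hϑ)⟩
    exact_mod_cast h3.ne'
  · obtain ⟨ψ, hψ, h1, n, h2, h3⟩ := hL
    refine ⟨fun n => ψ (e n), irr_comp_equiv e hψ, fun g => ?_, n, h2, ?_⟩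
    · rw [hom, hom]
      exact h1 _
    · rw [hcore, Subgroup.card_bot, Subgroup.card_top]
      rw [hD, Subgroup.card_bot] at h3
      exact h3
  · obtain ⟨hcm, u, v, huv⟩ := hcyc
    let C : Subgroup D := Subgroup.centralizer ({x} : Set D)
    let P₀ : Subgroup D := (P : Subgroup C).map C.subtype
    let j : P →* (⊤ : Subgroup D) :=
      (e.symm.toMonoidHom.comp C.subtype).comp (P : Subgroup C).subtype
    have hj : P₀.map e.symm.toMonoidHom = j.range := by
      rw [MonoidHom.range_comp, Subgroup.range_subtype, ← Subgroup.map_map]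
    have hC : Subgroup.centralizer ({e.symm x} : Set (⊤ : Subgroup D)) =
        C.map e.symm.toMonoidHom := by
      ext y
      rw [Subgroup.mem_map_equiv, Subgroup.mem_centralizer_singleton_iff,
        Subgroup.mem_centralizer_singleton_iff]
      constructor
      · intro h3
        have h4 := congrArg e h3
        rw [map_mul, map_mul, e.apply_symm_apply] at h4
        exact h4
      · intro h3
        apply e.injective
        rw [map_mul, map_mul, e.apply_symm_apply]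
        exact h3
    have hP₀C : P₀ ≤ C := by
      rintro _ ⟨y, -, rfl⟩
      exact y.2
    refine ⟨e.symm x, P₀.map e.symm.toMonoidHom, fun h1 => hx ?_, ?_, ?_, ?_, ?_, j u, j v, ?_,
      ?_, ?_⟩
    · rw [hom, e.apply_symm_apply] at h1
      exact h1
    · rw [hC]
      exact Subgroup.map_mono hP₀C
    · exact (P.isPGroup'.map _).map _
    · rw [hC, Subgroup.relIndex_map_map_of_injective _ _ e.symm.injective]
      have h1 : P₀.relIndex C = (P : Subgroup C).index := by
        unfold Subgroup.relIndex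
        congr 1
        exact Subgroup.comap_map_eq_self_of_injective C.subtype_injective _
      rw [h1]
      exact P.not_dvd_index
    · rw [hj, hcore]
      rintro _ ⟨a, rfl⟩ _ ⟨b, rfl⟩
      rw [Subgroup.mem_bot, ← map_mul, hcm a b, map_mul]
      group
    · rw [hj, MonoidHom.range_eq_map, ← huv, MonoidHom.map_closure, Set.image_pair]
      exact le_sup_left
    · rw [hj]
      exact ⟨u, rfl⟩
    · rw [hj]
      exact ⟨v, rfl⟩

/-- nearly simple groups over a simple group with abelian Sylow `ℓ`-subgroups of rank at most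
two -/
theorem rkSyl_nearly (ℓ : ℕ) [hℓ : Fact ℓ.Prime] (S : Type) [Group S] [Finite S] (h : RkSyl ℓ S)
    (D : Type) [Group D] [Finite D] (hD : opCore ℓ D = ⊥) (hn : NearlySimpleL ℓ D S) :
    RkSyl ℓ D := by
  obtain ⟨T, hT, -, ⟨e⟩, -, hi⟩ := hn
  have h1 : RkSyl ℓ T := rkSyl_equiv e h
  have h2 : RkSyl ℓ (D ⧸ Subgroup.center D) := rkSyl_of_index T hi h1
  refine rkSyl_of_ker (QuotientGroup.mk' (Subgroup.center D)) ?_ h2
  rw [QuotientGroup.ker_mk']
  exact BN.H27.center_cop hℓ.out hD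

/-- no alternating sum `≠ 0` for the nearly simple groups over a simple group with abelian Sylow
`ℓ`-subgroups of rank at most two -/
theorem not_rkSyl (hF2 : Fin2Stmt) (ℓ : ℕ) [hℓ : Fact ℓ.Prime] (M : Ideal (integralClosure ℤ ℂ))
    [hM' : M.IsMaximal]
    (hM : (ℓ : integralClosure ℤ ℂ) ∈ M) (S : Type) [Group S] [Finite S]
    (D : Type) [Group D] [Finite D] (hD : opCore ℓ D = ⊥) (hn : NearlySimpleL ℓ D S)
    (ϑ : D → ℂ) (hϑ : ϑ ∈ Irr D) (hL : LargeDefect ℓ M ϑ) (h0 : altSum ℓ M ϑ ≠ 0) :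
    ¬ RkSyl ℓ S := by
  intro h
  have h1 := rkSyl_nearly ℓ S h D hD hn
  obtain ⟨P⟩ : Nonempty (Sylow ℓ (Subgroup.centralizer ({(1 : D)} : Set D))) := inferInstance
  refine defect_nr hF2 ℓ M hM D hD ϑ hϑ hL h0 1 ?_ P (rkSyl_sub h1 _ P)
  rw [omega_one (i := MonoidHom.id D) Function.injective_id (irr_one_ne hϑ)]
  rintro ⟨m, hm, hm1⟩
  have h2 : m = 1 := by
    apply Subtype.ext
    rw [hm1, sub_zero]
    rfl
  rw [h2] at hm
  exact hM'.ne_top ((Ideal.eq_top_iff_one M).2 hm)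

end Pool.Agent.PP.X4
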