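import Pool.Agent.Helper66_AWS.S078
import Pool.Agent.Helper66_AWS.S090
import Pool.Agent.Helper66_AWS.S155
import Pool.Agent.Helper66_AWS.S156

/-! Copy (generated) of the module `Pool.Agent.Helper66_X4.Fin` with import lines for the bundle Helper12_AWB. -/

/-!
# AWC, part X4: the final theorem
-/

open scoped BigOperators

noncomputable section

namespace Pool.Agent.PP.X4

open Pool.Agent.Helper51_AWC Pool.Agent.Helper79_WRA Pool.Agent.PP Pool.Agent.PP.X2
open Pool.Agent.PP.X2.H18 Pool.Agent.PP.X3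

/-- the final theorem of the parts X1, X2 and X4 -/
theorem finR (hF2 : Fin2Stmt) (finc : FinCStmt) (nsx : X1.NsxStmt) (quo : X1.QuoStmt)
    (sln : X1.SlnStmt)
    (ℓ : ℕ) [hℓ : Fact ℓ.Prime] (clf : ClosedF ℓ (GoodR ℓ))
    (M : Ideal (integralClosure ℤ ℂ)) [hM' : M.IsMaximal] (hM : (ℓ : integralClosure ℤ ℂ) ∈ M)
    (𝒜 : Fam) (G : Type) [Group G] [Finite G] (hc : opCore ℓ G ≤ Subgroup.center G)
    (N E : Subgroup G) [hN : N.Normal] [hE : E.Normal] (hEN : E ≤ N) (hE1 : QProd (AdmR ℓ 𝒜) E)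
    (hNE : AllIn (AdmR ℓ 𝒜) (N ⧸ E.subgroupOf N))
    (hfix : ∀ (S : Type) [Group S] [Finite S], NonabSimple S → ℓ ∣ Nat.card S → Involves N S →
      𝒜 S → ¬ GoodR ℓ S → FixIn ℓ (AdmR ℓ 𝒜) S)
    (χ : G → ℂ) (hχ : χ ∈ Irr G) (ψ : N → ℂ) (hψ : ψ ∈ Irr N)
    (hχψ : (∑ᶠ n : N, χ n * starRingEnd ℂ (ψ n)) ≠ 0) (hL : LargeDefect ℓ M ψ)
    (h0 : altSum ℓ M χ ≠ 0) :
    ∃ (S : Type) (_ : Group S) (_ : Finite S) (D : Type) (_ : Group D) (_ : Finite D),
      NonabSimple S ∧ 𝒜 S ∧ Involves N S ∧ ¬ RkSyl ℓ S ∧ ¬ X1.LieType ℓ S ∧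
        (∀ (n : ℕ) (K : Type) [Field K] [Finite K], (ℓ : K) = 0 →
          IsEmpty (S ≃* Matrix.ProjectiveSpecialLinearGroup (Fin n) K)) ∧
        (∀ (K : Type) [Field K] [Finite K], (ℓ = 2 → (2 : K) = 0) →
          IsEmpty (S ≃* Matrix.ProjectiveSpecialLinearGroup (Fin 2) K)) ∧
        opCore ℓ D = ⊥ ∧ Subgroup.center D ≤ commutator D ∧ NearlySimpleF ℓ D S ∧
        Involves G (D ⧸ Subgroup.center D) ∧
        ∃ ϑ ∈ Irr D, (∀ z ∈ Subgroup.center D, ϑ z = ϑ 1 → z = 1) ∧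
          (∀ x : D, ¬ Cong M (omega (MonoidHom.id D) ϑ x) 0 →
            ¬ RkSyl ℓ (Subgroup.centralizer ({x} : Set D))) ∧
          altSum ℓ M ϑ ≠ 0 := by
  by_contra hcon
  apply h0
  let ℬ : Fam := fun S _ _ => Involves N S ∧ (GoodR ℓ S ∨ 𝒜 S)
  have hB : ∀ (S : Type) [Group S] [Finite S], ℓ ∣ Nat.card S → AdmR ℓ 𝒜 S → Involves N S →
      ℬ S := by
    intro S _ _ hl hA hi
    rcases hA with h | h
    · exact absurd hl h
    · exact ⟨hi, h⟩
  -- the family is closed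
  have hcl : ClosedF ℓ ℬ := by
    intro S _ _ hS hl hBS Q hQ hQp hQi
    obtain ⟨hi, hBS⟩ := hBS
    have hiC : ∀ (T : Type) [Group T], Involves (fixN Q) T → Involves N T := by
      intro T _ hT
      obtain ⟨A, f, hf⟩ := hi
      exact Involves.of_subgroup (Involves.of_surjective f hf (Involves.of_subgroup hT))
    by_cases hg : GoodR ℓ S
    · rcases clf S hS hl hg Q hQ hQp hQi with h | h | h
      · exact Or.inl h
      · refine Or.inr (Or.inl (lay_mono ?_ h))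
        intro T _ _ hT hlT hgT hiT
        exact ⟨hiC T hiT, Or.inl hgT⟩
      · refine Or.inr (Or.inr ?_)
        intro T _ _ hT hlT hiT
        exact ⟨hiC T hiT, Or.inl (h T hT hlT hiT)⟩
    · have hAS : 𝒜 S := hBS.resolve_left hg
      rcases hfix S hS hl hi hAS hg Q hQ hQp hQi with h | h | h
      · exact Or.inl h
      · refine Or.inr (Or.inl (qprod_lay ?_ h))
        intro T _ _ hT hlT hAT hiT
        exact hB T hlT hAT (hiC T hiT)
      · refine Or.inr (Or.inr ?_)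
        intro T _ _ hT hlT hiT
        exact hB T hlT (h T hT hiT) (hiC T hiT)
  have hLay : LayG ℓ ℬ E := by
    obtain ⟨I, hI, K, h1, h2, h3⟩ := hE1
    refine ⟨I, hI, K, h1, h2, fun i => ?_⟩
    obtain ⟨S, gS, fS, hS, hA, hK⟩ := h3 i
    have hKN : K i ≤ N := (le_iSup K i).trans (h2.le.trans hEN)
    exact ⟨S, gS, fS, hS, fun hl => hB S hl hA (covS_inv hKN hK), hK⟩
  have hMod : ModA ℓ ℬ N E := by
    intro S _ _ hS hl K hK f hf h1
    refine hB S hl (hNE S hS (involves_quot N E S K hK f hf h1)) ?_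
    exact ⟨K.subgroupOf N, f.comp (Subgroup.subgroupOfEquivOfLe hK).toMonoidHom,
      hf.comp (Subgroup.subgroupOfEquivOfLe hK).surjective⟩
  refine finc ℓ hℓ.out M hM ℬ hcl G hc N E hN hE hEN hLay hMod ?_ χ hχ ψ hψ hχψ hL
  intro S _ _ hS hl hBS D _ _ hD hZ hnear hinv ϑ hϑ hfaith hLϑ
  by_contra h11
  obtain ⟨hi, hBS⟩ := hBS
  have hnl : NearlySimpleL ℓ D S := hnear.nearlySimpleL
  have hC : ¬ RkSyl ℓ S := not_rkSyl hF2 ℓ M hM S D hD hnl ϑ hϑ hLϑ h11
  have hR : ¬ X1.LieType ℓ S := fun h => h11 (famL nsx ℓ hℓ.out M hM S hS hl h D hD hnl ϑ hϑ hLϑ)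
  have hpl : ∀ (n : ℕ) (K : Type) [Field K] [Finite K], (ℓ : K) = 0 →
      IsEmpty (S ≃* Matrix.ProjectiveSpecialLinearGroup (Fin n) K) := by
    intro n K _ _ hl'
    refine ⟨fun e => ?_⟩
    rcases n with _ | n
    · obtain ⟨a, b, hab⟩ := hS.2
      apply hab
      have hsub : Subsingleton (Matrix.ProjectiveSpecialLinearGroup (Fin 0) K) := by
        refine ⟨fun x y => ?_⟩
        obtain ⟨x', rfl⟩ := QuotientGroup.mk'_surjective _ x
        obtain ⟨y', rfl⟩ := QuotientGroup.mk'_surjective _ y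
        have h1 : x' = y' := by
          apply Subtype.ext
          ext i
          exact i.elim0
        rw [h1]
      exact e.injective (hsub.elim _ _)
    · have hch : CharP K ℓ := by
        obtain ⟨p, hp⟩ := CharP.exists K
        have h13 : p ∣ ℓ := (CharP.cast_eq_zero_iff K p ℓ).mp hl'
        rcases (Nat.dvd_prime hℓ.out).mp h13 with h14 | h14
        · exact absurd h14 (CharP.char_ne_one K p)
        · rw [← h14]
          exact hp
      exact hR (lie_equiv quo e.symm (psl_lie quo sln ℓ K n))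
  have hpsl : ∀ (K : Type) [Field K] [Finite K], (ℓ = 2 → (2 : K) = 0) →
      IsEmpty (S ≃* Matrix.ProjectiveSpecialLinearGroup (Fin 2) K) := by
    intro K _ _ hK
    by_cases hl' : (ℓ : K) = 0
    · exact hpl 2 K hl'
    · refine ⟨fun e => ?_⟩
      have hl2 : ℓ ≠ 2 := by
        intro h13
        apply hl'
        rw [h13]
        exact_mod_cast hK h13
      refine hC (rkSyl_of_cySyl <| cySyl_of_cyTI
        (H36.cyti_equiv e (H36.psl_cyti ℓ hl2 K hl' ?_)))
      rw [← Nat.card_congr e.toEquiv]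
      exact hl
  have hAS : 𝒜 S := by
    rcases hBS with h | h
    · exfalso
      rcases h with h | ⟨K, _, _, hK, ⟨e⟩⟩ | h
      · exact hC h
      · exact (hpl 2 K (CharP.cast_eq_zero K ℓ)).false e
      · exact hR h.1
    · exact h
  exact hcon ⟨S, inferInstance, inferInstance, D, inferInstance, inferInstance, hS, hAS, hi,
    hC, hR, hpl, hpsl, hD, hZ, hnear, hinv, ϑ, hϑ, hfaith,
    fun x hx hP => hP.elim fun P hc' => defect_nr hF2 ℓ M hM D hD ϑ hϑ hLϑ h11 x hx P hc', h11⟩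

end Pool.Agent.PP.X4
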